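import Pool.Agent.Lib.MP_a47f92_an.G.GW

set_option autoImplicit false
set_option linter.unusedSectionVars false

namespace Pool.Agent.Lib.MP_a47f92_an

open MeasureTheory Filter Topology Set Complex Metric Function
open scoped ContDiff ComplexConjugate ComplexOrder Matrix ENNReal NNReal

/-! Smoothness, commutation, measurability, integration by parts. The proofs are those of
`Wirt`, `HessA`, `PartsA` (for `E n`). -/

variable {V : Type} [NormedAddCommGroup V] [NormedSpace ℝ V] [NormedSpace ℂ V]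
  [IsScalarTower ℝ ℂ V] {f g : V → ℂ} {z v : V} {Ω : Set V}

theorem contDiffAt_gd {k k' : WithTop ℕ∞} (hf : ContDiffAt ℝ k' f z) (h : k + 1 ≤ k') (v : V) :
    ContDiffAt ℝ k (gd v f) z := by
  have h1 : ∀ w : V, ContDiffAt ℝ k (fun y => fderiv ℝ f y w) z := fun w =>
    (hf.fderiv_right h).clm_apply contDiffAt_const
  exact ((h1 v).sub (contDiffAt_const.mul (h1 _))).div_const 2

theorem contDiffAt_gb {k k' : WithTop ℕ∞} (hf : ContDiffAt ℝ k' f z) (h : k + 1 ≤ k') (v : V) :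
    ContDiffAt ℝ k (gb v f) z := by
  have h1 : ∀ w : V, ContDiffAt ℝ k (fun y => fderiv ℝ f y w) z := fun w =>
    (hf.fderiv_right h).clm_apply contDiffAt_const
  exact ((h1 v).add (contDiffAt_const.mul (h1 _))).div_const 2

theorem contDiff_gd (hf : ContDiff ℝ ∞ f) (v : V) : ContDiff ℝ ∞ (gd v f) :=
  contDiff_iff_contDiffAt.2 fun _ => contDiffAt_gd hf.contDiffAt le_rfl v

theorem contDiff_gb (hf : ContDiff ℝ ∞ f) (v : V) : ContDiff ℝ ∞ (gb v f) :=
  contDiff_iff_contDiffAt.2 fun _ => contDiffAt_gb hf.contDiffAt le_rfl v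

theorem GW2_I {U : Type} [NormedAddCommGroup U] [NormedSpace ℝ U] {b : U → V} {y : U}
    (hb : ContDiffAt ℝ ∞ b y) : ContDiffAt ℝ ∞ (fun y' => I • b y') y :=
  hb.const_smul I

theorem GW2_has (hf : ContDiffAt ℝ 2 f z) (b : V) :
    HasFDerivAt (fun w => fderiv ℝ f w b)
      ((ContinuousLinearMap.apply ℝ ℂ b).comp (fderiv ℝ (fderiv ℝ f) z)) z := by
  have h1 : DifferentiableAt ℝ (fderiv ℝ f) z :=
    (hf.fderiv_right (m := 1) (by norm_num)).differentiableAt (by norm_num)
  exact (ContinuousLinearMap.apply ℝ ℂ b).hasFDerivAt.comp z h1.hasFDerivAt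

theorem GW2_symm (hf : ContDiffAt ℝ 2 f z) (a b : V) :
    fderiv ℝ (fderiv ℝ f) z a b = fderiv ℝ (fderiv ℝ f) z b a :=
  (hf.isSymmSndFDerivAt (by simp)).eq a b

theorem GW2_fd_gd (hf : ContDiffAt ℝ 2 f z) (a b : V) :
    fderiv ℝ (gd b f) z a =
      (fderiv ℝ (fderiv ℝ f) z a b - I * fderiv ℝ (fderiv ℝ f) z a (I • b)) / 2 := by
  have h := (((GW2_has hf b).sub ((GW2_has hf (I • b)).const_mul I)).mul_const (2 : ℂ)⁻¹)
  have e : gd b f = fun w => (fderiv ℝ f w b - I * fderiv ℝ f w (I • b)) * (2 : ℂ)⁻¹ := by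
    funext w; rw [gd, div_eq_mul_inv]
  rw [e]
  erw [h.fderiv]
  simp
  ring

theorem GW2_fd_gb (hf : ContDiffAt ℝ 2 f z) (a b : V) :
    fderiv ℝ (gb b f) z a =
      (fderiv ℝ (fderiv ℝ f) z a b + I * fderiv ℝ (fderiv ℝ f) z a (I • b)) / 2 := by
  have h := (((GW2_has hf b).add ((GW2_has hf (I • b)).const_mul I)).mul_const (2 : ℂ)⁻¹)
  have e : gb b f = fun w => (fderiv ℝ f w b + I * fderiv ℝ f w (I • b)) * (2 : ℂ)⁻¹ := by
    funext w; rw [gb, div_eq_mul_inv]
  rw [e]
  erw [h.fderiv]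
  simp
  ring

theorem GW2_ofReal (q : V → ℝ) (w u : V) : fderiv ℝ (rc q) w u = (fderiv ℝ q w u : ℝ) := by
  by_cases h : DifferentiableAt ℝ q w
  · have := (ofRealCLM.hasFDerivAt.comp w h.hasFDerivAt).fderiv
    erw [this]
    simp
  · have h' : ¬ DifferentiableAt ℝ (rc q) w := fun h' =>
      h (by simpa [Function.comp_def] using reCLM.differentiableAt.comp w h')
    rw [fderiv_zero_of_not_differentiableAt h, fderiv_zero_of_not_differentiableAt h']
    simp

theorem GW2_snd {q : V → ℝ} (h : ContDiffAt ℝ 2 q z) (a b : V) :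
    fderiv ℝ (fderiv ℝ (rc q)) z a b = (fderiv ℝ (fun w => fderiv ℝ q w b) z a : ℝ) := by
  rw [← GW2_ofReal]
  have e : (rc fun w => fderiv ℝ q w b) = fun w => fderiv ℝ (rc q) w b :=
    funext fun w => (GW2_ofReal q w b).symm
  rw [e, (GW2_has (contDiffAt_rc h) b).fderiv]
  rfl

theorem GW2_two : (2 : WithTop ℕ∞) ≤ ((⊤ : ℕ∞) : WithTop ℕ∞) := WithTop.coe_le_coe.2 le_top

theorem GW2_one : (1 : WithTop ℕ∞) ≤ ((⊤ : ℕ∞) : WithTop ℕ∞) := WithTop.coe_le_coe.2 le_top

/-- Joint smoothness in the point and the vector, along smooth maps. -/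
theorem contDiffAt_gd_comp {U : Type} [NormedAddCommGroup U] [NormedSpace ℝ U] {a b : U → V} {y : U}
    (hf : ContDiffAt ℝ ∞ f (a y)) (ha : ContDiffAt ℝ ∞ a y) (hb : ContDiffAt ℝ ∞ b y) :
    ContDiffAt ℝ ∞ (fun y' => gd (b y') f (a y')) y := by
  have h1 : ContDiffAt ℝ ∞ (fun y' => fderiv ℝ f (a y')) y :=
    (hf.fderiv_right (m := ∞) le_rfl).comp y ha
  exact ((h1.clm_apply hb).sub (contDiffAt_const.mul (h1.clm_apply (GW2_I hb)))).div_const 2

theorem contDiffAt_gb_comp {U : Type} [NormedAddCommGroup U] [NormedSpace ℝ U] {a b : U → V} {y : U}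
    (hf : ContDiffAt ℝ ∞ f (a y)) (ha : ContDiffAt ℝ ∞ a y) (hb : ContDiffAt ℝ ∞ b y) :
    ContDiffAt ℝ ∞ (fun y' => gb (b y') f (a y')) y := by
  have h1 : ContDiffAt ℝ ∞ (fun y' => fderiv ℝ f (a y')) y :=
    (hf.fderiv_right (m := ∞) le_rfl).comp y ha
  exact ((h1.clm_apply hb).add (contDiffAt_const.mul (h1.clm_apply (GW2_I hb)))).div_const 2

/-- Second derivatives along smooth maps. Use the formula with `fderiv ℝ (fderiv ℝ f)`, valid near
`a y`. -/
theorem contDiffAt_gd_gb_comp {U : Type} [NormedAddCommGroup U] [NormedSpace ℝ U] {a b c : U → V}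
    {y : U} (hf : ContDiffAt ℝ ∞ f (a y)) (ha : ContDiffAt ℝ ∞ a y) (hb : ContDiffAt ℝ ∞ b y)
    (hc : ContDiffAt ℝ ∞ c y) :
    ContDiffAt ℝ ∞ (fun y' => gd (b y') (gb (c y') f) (a y')) y := by
  have h1 : ContDiffAt ℝ ∞ (fun y' => fderiv ℝ (fderiv ℝ f) (a y')) y :=
    ((hf.fderiv_right (m := ∞) le_rfl).fderiv_right (m := ∞) le_rfl).comp y ha
  have h2 : ∀ {u w : U → V}, ContDiffAt ℝ ∞ u y → ContDiffAt ℝ ∞ w y →
      ContDiffAt ℝ ∞ (fun y' => fderiv ℝ (fderiv ℝ f) (a y') (u y') (w y')) y :=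
    fun hu hw => (h1.clm_apply hu).clm_apply hw
  have h3 := (((((h2 hb hc).add ((contDiffAt_const (c := I)).mul (h2 hb (GW2_I hc)))).div_const
    2).sub ((contDiffAt_const (c := I)).mul (((h2 (GW2_I hb) hc).add
      ((contDiffAt_const (c := I)).mul (h2 (GW2_I hb) (GW2_I hc)))).div_const 2))).div_const 2)
  refine h3.congr_of_eventuallyEq ?_
  have h4 : ∀ᶠ w in 𝓝 (a y), ContDiffAt ℝ 2 f w := (hf.of_le GW2_two).eventually (by simp)
  filter_upwards [ha.continuousAt.eventually h4] with y' h5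
  rw [gd, GW2_fd_gb h5, GW2_fd_gb h5]

theorem gd_gd_comm (hf : ContDiffAt ℝ 2 f z) (a b : V) : gd a (gd b f) z = gd b (gd a f) z := by
  rw [gd, gd, GW2_fd_gd hf, GW2_fd_gd hf, GW2_fd_gd hf, GW2_fd_gd hf,
    GW2_symm hf b a, GW2_symm hf b (I • a), GW2_symm hf (I • b) a,
    GW2_symm hf (I • b) (I • a)]
  ring

theorem gd_gb_comm (hf : ContDiffAt ℝ 2 f z) (a b : V) : gd a (gb b f) z = gb b (gd a f) z := by
  rw [gd, gb, GW2_fd_gb hf, GW2_fd_gb hf, GW2_fd_gd hf, GW2_fd_gd hf,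
    GW2_symm hf b a, GW2_symm hf b (I • a), GW2_symm hf (I • b) a,
    GW2_symm hf (I • b) (I • a)]
  ring

theorem gb_gb_comm (hf : ContDiffAt ℝ 2 f z) (a b : V) : gb a (gb b f) z = gb b (gb a f) z := by
  rw [gb, gb, GW2_fd_gb hf, GW2_fd_gb hf, GW2_fd_gb hf, GW2_fd_gb hf,
    GW2_symm hf b a, GW2_symm hf b (I • a), GW2_symm hf (I • b) a,
    GW2_symm hf (I • b) (I • a)]
  ring

theorem lap_eq_real {q : V → ℝ} (h : ContDiffAt ℝ 2 q z) (v : V) :
    lap q z v = (fderiv ℝ (fun w => fderiv ℝ q w v) z v +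
      fderiv ℝ (fun w => fderiv ℝ q w (I • v)) z (I • v)) / 4 := by
  rw [lap, gd, GW2_fd_gb (contDiffAt_rc h), GW2_fd_gb (contDiffAt_rc h), GW2_snd h, GW2_snd h,
    GW2_snd h, GW2_snd h]
  simp
  ring

theorem gd_gb_rc {q : V → ℝ} (h : ContDiffAt ℝ 2 q z) (v : V) :
    gd v (gb v (rc q)) z = (lap q z v : ℝ) := by
  rw [lap_eq_real h, gd, GW2_fd_gb (contDiffAt_rc h), GW2_fd_gb (contDiffAt_rc h),
    GW2_symm (contDiffAt_rc h) (I • v) v, GW2_snd h, GW2_snd h, GW2_snd h]
  push_cast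
  linear_combination (-(fderiv ℝ (fun w => fderiv ℝ q w (I • v)) z (I • v) : ℝ) / 4 : ℂ) * I_mul_I

theorem GW2_max {q : V → ℝ} (h : ContDiffAt ℝ 2 q z) (hm : IsLocalMax q z) (v : V) :
    fderiv ℝ (fun w => fderiv ℝ q w v) z v ≤ 0 := by
  have hl : ∀ t : ℝ, HasDerivAt (fun t : ℝ => z + t • v) v t := fun t => by
    simpa using ((hasDerivAt_id t).smul_const v).const_add z
  have h0 : z + (0 : ℝ) • v = z := by simp
  have hc : ContinuousAt (fun t : ℝ => z + t • v) 0 := (hl 0).continuousAt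
  have ht : Tendsto (fun t : ℝ => z + t • v) (𝓝 0) (𝓝 z) := by
    have := hc.tendsto
    rwa [h0] at this
  have h1 : deriv (fun t : ℝ => q (z + t • v)) =ᶠ[𝓝 0] fun t => fderiv ℝ q (z + t • v) v := by
    filter_upwards [ht.eventually (h.eventually (by simp))] with t h2
    exact ((h2.differentiableAt (by norm_num)).hasFDerivAt.comp_hasDerivAt t (hl t)).deriv
  have h2 : DifferentiableAt ℝ (fun w => fderiv ℝ q w v) (z + (0 : ℝ) • v) := by
    rw [h0]
    exact ((h.fderiv_right (m := 1) (by norm_num)).clm_apply contDiffAt_const).differentiableAt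
      (by norm_num)
  have h3 : deriv (deriv fun t : ℝ => q (z + t • v)) 0 =
      fderiv ℝ (fun w => fderiv ℝ q w v) z v := by
    rw [h1.deriv_eq]
    have := (h2.hasFDerivAt.comp_hasDerivAt (0 : ℝ) (hl 0)).deriv
    rw [h0] at this
    exact this
  have h4 : IsLocalMax (fun t : ℝ => q (z + t • v)) 0 := by
    have : IsLocalMax q (z + (0 : ℝ) • v) := by rwa [h0]
    exact IsLocalMax.comp_continuous (g := fun t : ℝ => z + t • v) this hc
  by_contra hp
  rw [← h3, not_le] at hp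
  have h5 : ContinuousAt (fun t : ℝ => q (z + t • v)) 0 :=
    ContinuousAt.comp (f := fun t : ℝ => z + t • v) (by rw [h0]; exact h.continuousAt) hc
  have h6 := isLocalMin_of_deriv_deriv_pos hp h4.deriv_eq_zero h5
  have h7 : (fun t : ℝ => q (z + t • v)) =ᶠ[𝓝 0] fun _ => q (z + (0 : ℝ) • v) :=
    (Eventually.and h4 h6).mono fun t e => le_antisymm e.1 e.2
  rw [h7.deriv.deriv_eq] at hp
  simp at hp

/-- At a local maximum the Levi form is not positive. -/
theorem lap_nonpos_of_isLocalMax {q : V → ℝ} (h : ContDiffAt ℝ 2 q z) (hm : IsLocalMax q z)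
    (v : V) : lap q z v ≤ 0 := by
  rw [lap_eq_real h]
  linarith [GW2_max h hm v, GW2_max h hm (I • v)]

theorem GW2_mul (hΩ : IsOpen Ω) (hf : ContDiffOn ℝ ∞ f Ω) (hg : ContDiff ℝ ∞ g)
    (hs : tsupport g ⊆ Ω) : ContDiff ℝ ∞ fun z => g z * f z := by
  refine contDiff_iff_contDiffAt.2 fun z => ?_
  by_cases hz : z ∈ tsupport g
  · exact hg.contDiffAt.mul (hf.contDiffAt (hΩ.mem_nhds (hs hz)))
  · have h1 : (fun z => g z * f z) =ᶠ[𝓝 z] 0 :=
      notMem_tsupport_iff_eventuallyEq.1 fun h => hz (tsupport_mul_subset_left h)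
    exact contDiffAt_const.congr_of_eventuallyEq h1

theorem GW2_gb_supp (g : V → ℂ) (w : V) : tsupport (gb w g) ⊆ tsupport g :=
  closure_minimal (fun _ hz => by_contra fun h => hz (gb_of_notMem_tsupport h w))
    (isClosed_tsupport g)

theorem GW2_gd_supp (g : V → ℂ) (w : V) : tsupport (gd w g) ⊆ tsupport g :=
  closure_minimal (fun _ hz => by_contra fun h => hz (gd_of_notMem_tsupport h w))
    (isClosed_tsupport g)

theorem GW2_gd_on (hΩ : IsOpen Ω) (hf : ContDiffOn ℝ ∞ f Ω) (v : V) :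
    ContDiffOn ℝ ∞ (gd v f) Ω := fun _ hz =>
  (contDiffAt_gd (hf.contDiffAt (hΩ.mem_nhds hz)) le_rfl v).contDiffWithinAt

theorem GW2_gb_on (hΩ : IsOpen Ω) (hf : ContDiffOn ℝ ∞ f Ω) (v : V) :
    ContDiffOn ℝ ∞ (gb v f) Ω := fun _ hz =>
  (contDiffAt_gb (hf.contDiffAt (hΩ.mem_nhds hz)) le_rfl v).contDiffWithinAt

section Meas

variable [FiniteDimensional ℝ V] [MeasurableSpace V] [BorelSpace V]

/-- No hypothesis on `f`: `measurable_fderiv`. -/
theorem measurable_gd (f : V → ℂ) : Measurable fun y : V × V => gd y.2 f y.1 := by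
  have h1 : ∀ {u : V × V → V}, Measurable u → Measurable fun y : V × V => fderiv ℝ f y.1 (u y) :=
    fun hu => ContinuousLinearMap.measurable_apply₂.comp
      (((measurable_fderiv ℝ f).comp measurable_fst).prodMk hu)
  exact ((h1 measurable_snd).sub (measurable_const.mul
    (h1 ((continuous_const_smul I).measurable.comp measurable_snd)))).div_const 2

theorem measurable_gb (f : V → ℂ) : Measurable fun y : V × V => gb y.2 f y.1 := by
  have h1 : ∀ {u : V × V → V}, Measurable u → Measurable fun y : V × V => fderiv ℝ f y.1 (u y) :=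
    fun hu => ContinuousLinearMap.measurable_apply₂.comp
      (((measurable_fderiv ℝ f).comp measurable_fst).prodMk hu)
  exact ((h1 measurable_snd).add (measurable_const.mul
    (h1 ((continuous_const_smul I).measurable.comp measurable_snd)))).div_const 2

variable (μ : Measure V) [μ.IsAddHaarMeasure]

theorem GW2_int (hf : ContDiff ℝ 1 f) (hc : HasCompactSupport f) (v : V) :
    Integrable (fun z => fderiv ℝ f z v) μ ∧ ∫ z, fderiv ℝ f z v ∂μ = 0 := by
  have h1 : Integrable (fun z => fderiv ℝ f z v) μ :=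
    ((hf.continuous_fderiv one_ne_zero).clm_apply continuous_const).integrable_of_hasCompactSupport
      (hc.fderiv_apply ℝ v)
  refine ⟨h1, ?_⟩
  have h := integral_mul_fderiv_eq_neg_fderiv_mul_of_integrable (μ := μ)
    (f := fun _ => (1 : ℂ)) (g := f) (v := v) (by simp) (by simpa using h1)
    (by simpa using hf.continuous.integrable_of_hasCompactSupport hc)
    (fun x _ => differentiableAt_const _)
    (fun x _ => (hf.differentiable one_ne_zero).differentiableAt)
  simpa using h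

theorem integral_gd (hf : ContDiff ℝ 1 f) (hc : HasCompactSupport f) (v : V) :
    ∫ z, gd v f z ∂μ = 0 := by
  simp only [gd]
  rw [integral_div, integral_sub (GW2_int μ hf hc v).1 ((GW2_int μ hf hc _).1.const_mul I),
    integral_const_mul, (GW2_int μ hf hc v).2, (GW2_int μ hf hc _).2]
  simp

theorem integral_gb (hf : ContDiff ℝ 1 f) (hc : HasCompactSupport f) (v : V) :
    ∫ z, gb v f z ∂μ = 0 := by
  simp only [gb]
  rw [integral_div, integral_add (GW2_int μ hf hc v).1 ((GW2_int μ hf hc _).1.const_mul I),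
    integral_const_mul, (GW2_int μ hf hc v).2, (GW2_int μ hf hc _).2]
  simp

theorem integrable_mul_of_tsupport (hΩ : IsOpen Ω) (hf : ContinuousOn f Ω) (hg : Continuous g)
    (hc : HasCompactSupport g) (hs : tsupport g ⊆ Ω) : Integrable (fun z => g z * f z) μ := by
  refine Continuous.integrable_of_hasCompactSupport ?_ hc.mul_right
  refine continuous_iff_continuousAt.2 fun z => ?_
  by_cases hz : z ∈ tsupport g
  · exact hg.continuousAt.mul (hf.continuousAt (hΩ.mem_nhds (hs hz)))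
  · have h1 : (fun z => g z * f z) =ᶠ[𝓝 z] 0 :=
      notMem_tsupport_iff_eventuallyEq.1 fun h => hz (tsupport_mul_subset_left h)
    exact continuousAt_const.congr h1.symm

theorem integral_gd_mul (hΩ : IsOpen Ω) (hf : ContDiffOn ℝ ∞ f Ω) (hg : ContDiff ℝ ∞ g)
    (hc : HasCompactSupport g) (hs : tsupport g ⊆ Ω) (v : V) :
    ∫ z, gd v g z * f z ∂μ = -∫ z, g z * gd v f z ∂μ := by
  have s1 := GW2_gd_supp g v
  have i1 := integral_gd μ ((GW2_mul hΩ hf hg hs).of_le GW2_one) hc.mul_right v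
  have e1 : ∀ z, gd v (fun z => g z * f z) z = gd v g z * f z + g z * gd v f z := by
    intro z
    by_cases hz : z ∈ tsupport g
    · exact gd_mul (hg.differentiable (by simp) z)
        ((hf.contDiffAt (hΩ.mem_nhds (hs hz))).differentiableAt (by simp))
    · rw [gd_of_notMem_tsupport fun h => hz (tsupport_mul_subset_left h),
        gd_of_notMem_tsupport hz, image_eq_zero_of_notMem_tsupport hz]
      simp
  simp only [e1] at i1
  rw [integral_add (integrable_mul_of_tsupport μ hΩ hf.continuousOn (contDiff_gd hg v).continuous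
    (hc.of_isClosed_subset (isClosed_tsupport _) s1) (s1.trans hs))
    (integrable_mul_of_tsupport μ hΩ (GW2_gd_on hΩ hf v).continuousOn hg.continuous hc hs)] at i1
  exact eq_neg_of_add_eq_zero_left i1

theorem integral_gb_mul (hΩ : IsOpen Ω) (hf : ContDiffOn ℝ ∞ f Ω) (hg : ContDiff ℝ ∞ g)
    (hc : HasCompactSupport g) (hs : tsupport g ⊆ Ω) (v : V) :
    ∫ z, gb v g z * f z ∂μ = -∫ z, g z * gb v f z ∂μ := by
  have s1 := GW2_gb_supp g v
  have i1 := integral_gb μ ((GW2_mul hΩ hf hg hs).of_le GW2_one) hc.mul_right v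
  have e1 : ∀ z, gb v (fun z => g z * f z) z = gb v g z * f z + g z * gb v f z := by
    intro z
    by_cases hz : z ∈ tsupport g
    · exact gb_mul (hg.differentiable (by simp) z)
        ((hf.contDiffAt (hΩ.mem_nhds (hs hz))).differentiableAt (by simp))
    · rw [gb_of_notMem_tsupport fun h => hz (tsupport_mul_subset_left h),
        gb_of_notMem_tsupport hz, image_eq_zero_of_notMem_tsupport hz]
      simp
  simp only [e1] at i1
  rw [integral_add (integrable_mul_of_tsupport μ hΩ hf.continuousOn (contDiff_gb hg v).continuous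
    (hc.of_isClosed_subset (isClosed_tsupport _) s1) (s1.trans hs))
    (integrable_mul_of_tsupport μ hΩ (GW2_gb_on hΩ hf v).continuousOn hg.continuous hc hs)] at i1
  exact eq_neg_of_add_eq_zero_left i1

theorem integral_lap_mul {a b : V → ℝ} (hΩ : IsOpen Ω) (ha : ContDiffOn ℝ ∞ a Ω)
    (hb : ContDiff ℝ ∞ b) (hc : HasCompactSupport b) (hs : tsupport b ⊆ Ω) (v : V) :
    ∫ z, lap b z v * a z ∂μ = ∫ z, b z * lap a z v ∂μ := by
  have ha' : ContDiffOn ℝ ∞ (rc a) Ω := contDiffOn_rc ha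
  have hb' : ContDiff ℝ ∞ (rc b) := contDiff_iff_contDiffAt.2 fun _ => contDiffAt_rc hb.contDiffAt
  have s0 : tsupport (rc b) ⊆ tsupport b :=
    closure_mono fun z hz h => hz (by simp only [rc, h, ofReal_zero])
  have c0 : HasCompactSupport (rc b) := hc.of_isClosed_subset (isClosed_tsupport _) s0
  have s1 := GW2_gb_supp (rc b) v
  have i1 := integral_gd_mul μ hΩ ha' (contDiff_gb hb' v)
    (c0.of_isClosed_subset (isClosed_tsupport _) s1) ((s1.trans s0).trans hs) v
  have i2 := integral_gb_mul μ hΩ (GW2_gd_on hΩ ha' v) hb' c0 (s0.trans hs) v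
  have e1 : ∀ z, gd v (gb v (rc b)) z * rc a z = ((lap b z v * a z : ℝ) : ℂ) := fun z => by
    rw [gd_gb_rc (hb.contDiffAt.of_le GW2_two), ofReal_mul]
  have e2 : ∀ z, rc b z * gb v (gd v (rc a)) z = ((b z * lap a z v : ℝ) : ℂ) := by
    intro z
    by_cases hz : z ∈ tsupport b
    · have h2 := (ha.contDiffAt (hΩ.mem_nhds (hs hz))).of_le GW2_two
      rw [← gd_gb_comm (contDiffAt_rc h2), gd_gb_rc h2, ofReal_mul]
    · simp [rc, image_eq_zero_of_notMem_tsupport hz]
  rw [i2, neg_neg] at i1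
  simp only [e1, e2, integral_complex_ofReal] at i1
  exact ofReal_injective i1

end Meas

end Pool.Agent.Lib.MP_a47f92_an
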