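import Pool.Agent.Lib.MP_a47f92_an.G.GL
import Pool.Agent.Lib.MP_a47f92_an.Chain

set_option autoImplicit false
set_option linter.unusedSectionVars false

namespace Pool.Agent.Lib.MP_a47f92_an

open MeasureTheory Filter Topology Set Complex Metric Function
open scoped ContDiff ComplexConjugate ComplexOrder Matrix ENNReal NNReal

/-! Sums of squares of holomorphic functions. -/

variable {V W : Type} [NormedAddCommGroup V] [NormedSpace ℝ V] [NormedSpace ℂ V]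
  [IsScalarTower ℝ ℂ V] [NormedAddCommGroup W] [NormedSpace ℝ W] [NormedSpace ℂ W]
  [IsScalarTower ℝ ℂ W] {Ω : Set V} {a b : V → ℝ} {N : ℕ}

theorem sos_norm {ι : Type} [Fintype ι] {f : V → EuclideanSpace ℂ ι} (hf : ContDiffOn ℂ ∞ f Ω) :
    SOS Ω fun y => ‖f y‖ ^ 2 := by
  let L := LinearIsometryEquiv.piLpCongrLeft 2 ℂ ℂ (Fintype.equivFin ι)
  exact ⟨Fintype.card ι, fun y => L (f y), L.contDiff.comp_contDiffOn hf,
    fun y _ => by rw [L.norm_map]⟩

theorem SOS_ev : ‖(ev 0 : E 1)‖ = 1 := by simp [ev]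

theorem SOS_norm_one (c : ℂ) : ‖c • (ev 0 : E 1)‖ = ‖c‖ := by rw [norm_smul, SOS_ev, mul_one]

theorem sos_normC {f : V → ℂ} (hf : ContDiffOn ℂ ∞ f Ω) : SOS Ω fun y => ‖f y‖ ^ 2 :=
  ⟨1, fun y => f y • ev 0, hf.smul contDiffOn_const, fun y _ => by rw [SOS_norm_one]⟩

theorem SOS.congr (h : SOS Ω a) (h' : ∀ y ∈ Ω, b y = a y) : SOS Ω b := by
  obtain ⟨N, f, hf, e⟩ := h
  exact ⟨N, f, hf, fun y hy => (h' y hy).trans (e y hy)⟩

theorem sos_const {c : ℝ} (hc : 0 ≤ c) : SOS Ω fun _ => c :=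
  (sos_normC (f := fun _ => ((√c : ℝ) : ℂ)) contDiffOn_const).congr fun _ _ => by
    rw [Complex.norm_real, Real.norm_of_nonneg (Real.sqrt_nonneg c), Real.sq_sqrt hc]

theorem SOS.mono {Ω' : Set V} (h : SOS Ω a) (h' : Ω' ⊆ Ω) : SOS Ω' a := by
  obtain ⟨N, f, hf, e⟩ := h
  exact ⟨N, f, hf.mono h', fun y hy => e y (h' hy)⟩

theorem SOS.add (ha : SOS Ω a) (hb : SOS Ω b) : SOS Ω fun y => a y + b y := by
  obtain ⟨N, f, hf, e⟩ := ha
  obtain ⟨M, g, hg, e'⟩ := hb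
  refine (sos_norm (ι := Fin N ⊕ Fin M)
    (f := fun y => WithLp.toLp 2 (Sum.elim (fun i => f y i) fun j => g y j)) ?_).congr
    fun y hy => ?_
  · refine contDiffOn_euclidean.2 fun i => ?_
    rcases i with i | j
    · exact contDiffOn_euclidean.1 hf i
    · exact contDiffOn_euclidean.1 hg j
  · rw [e y hy, e' y hy]
    simp only [EuclideanSpace.norm_sq_eq, Fintype.sum_sum_type, Sum.elim_inl, Sum.elim_inr]

theorem SOS.mul (ha : SOS Ω a) (hb : SOS Ω b) : SOS Ω fun y => a y * b y := by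
  obtain ⟨N, f, hf, e⟩ := ha
  obtain ⟨M, g, hg, e'⟩ := hb
  refine (sos_norm (ι := Fin N × Fin M)
    (f := fun y => WithLp.toLp 2 fun i => f y i.1 * g y i.2) ?_).congr fun y hy => ?_
  · exact contDiffOn_euclidean.2 fun i =>
      (contDiffOn_euclidean.1 hf i.1).mul (contDiffOn_euclidean.1 hg i.2)
  · rw [e y hy, e' y hy]
    simp only [EuclideanSpace.norm_sq_eq, Fintype.sum_prod_type, norm_mul, mul_pow,
      Finset.sum_mul_sum]

theorem SOS.pow (ha : SOS Ω a) (k : ℕ) : SOS Ω fun y => a y ^ k := by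
  induction k with
  | zero => exact (sos_const zero_le_one).congr fun y _ => pow_zero _
  | succ k ih => exact (ih.mul ha).congr fun y _ => pow_succ _ _

theorem SOS.sum {ι : Type} (s : Finset ι) {a : ι → V → ℝ} (h : ∀ i ∈ s, SOS Ω (a i)) :
    SOS Ω fun y => ∑ i ∈ s, a i y := by
  classical
  induction s using Finset.induction_on with
  | empty => exact (sos_const le_rfl).congr fun y _ => Finset.sum_empty
  | insert i s hi ih =>
    exact ((h i (Finset.mem_insert_self i s)).add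
      (ih fun j hj => h j (Finset.mem_insert_of_mem hj))).congr fun y _ => Finset.sum_insert hi

theorem SOS.comp {Φ : W → V} {Ω' : Set W} (h : SOS Ω a) (hΦ : ContDiffOn ℂ ∞ Φ Ω')
    (hm : MapsTo Φ Ω' Ω) : SOS Ω' fun y => a (Φ y) := by
  obtain ⟨N, f, hf, e⟩ := h
  exact ⟨N, fun y => f (Φ y), hf.comp hΦ hm, fun y hy => e _ (hm hy)⟩

theorem SOS.contDiffOn (h : SOS Ω a) : ContDiffOn ℝ ∞ a Ω := by
  obtain ⟨N, f, hf, e⟩ := h
  exact ((hf.restrict_scalars ℝ).norm_sq ℂ).congr e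

theorem SOS_prj {z : E N} (hz : z ≠ 0) (v : E N) :
    ‖prj (un z) v‖ ^ 2 = ‖v‖ ^ 2 - ‖inner ℂ z v‖ ^ 2 / ‖z‖ ^ 2 := by
  have h0 : ‖z‖ ≠ 0 := norm_ne_zero_iff.2 hz
  have h1 : ‖un z‖ = 1 := by rw [un, norm_smul, norm_inv, norm_norm, inv_mul_cancel₀ h0]
  have h2 : ‖inner ℂ (un z) v‖ = ‖inner ℂ z v‖ / ‖z‖ := by
    rw [un, ← Complex.coe_smul, inner_smul_left, norm_mul, RCLike.norm_conj, Complex.norm_real,
      norm_inv, norm_norm, div_eq_inv_mul]
  have h3 : prj (un z) v = v - inner ℂ (un z) v • un z := rfl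
  rw [h3, norm_sub_sq (𝕜 := ℂ), norm_smul, h1, mul_one, inner_smul_right, ← div_pow, ← h2,
    ← inner_conj_symm v (un z), Complex.mul_conj, Complex.normSq_eq_norm_sq]
  simp only [RCLike.re_to_complex, ofReal_re]
  ring

theorem SOS_lg {z : E N} (hz : z ≠ 0) : ContDiffAt ℝ 2 (lg : E N → ℝ) z :=
  (contDiffOn_log.contDiffAt (isOpen_compl_singleton.mem_nhds hz)).of_le Chain_two

/-- The Fubini-Study form. -/
theorem levi_lg {z : E N} (hz : z ≠ 0) (v : E N) :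
    levi lg z v = ‖prj (un z) v‖ ^ 2 / (2 * ‖z‖ ^ 2) := by
  have h0 : ‖z‖ ≠ 0 := norm_ne_zero_iff.2 hz
  rw [SOS_prj hz]
  refine (levi_log hz v).trans ?_
  field_simp

theorem lap_log_norm {f : V → E N} {y : V} (hf : ContDiffAt ℂ 2 f y) (h0 : f y ≠ 0) (v : V) :
    lap (fun w => Real.log ‖f w‖) y v =
      ‖prj (un (f y)) (fderiv ℂ f y v)‖ ^ 2 / (2 * ‖f y‖ ^ 2) := by
  rw [← levi_lg h0, ← lap_eq_levi (SOS_lg h0)]
  exact lap_comp (a := lg) hf (SOS_lg h0) v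

theorem SOS_sq2 (z v : E N) :
    fderiv ℝ (fun w => fderiv ℝ (fun w : E N => ‖w‖ ^ 2) w v) z v = 2 * ‖v‖ ^ 2 := by
  have e : (fun w => fderiv ℝ (fun w : E N => ‖w‖ ^ 2) w v) = fun w => 2 * Chain_R v w := by
    funext w
    rw [(Chain_sq w).fderiv, Chain_R_symm v w]
    rfl
  rw [e, ((Chain_R v).hasFDerivAt.const_mul (2 : ℝ)).fderiv, ← Chain_R_self]
  rfl

theorem lap_normSq {f : V → E N} {y : V} (hf : ContDiffAt ℂ 2 f y) (v : V) :
    lap (fun w => ‖f w‖ ^ 2) y v = ‖fderiv ℂ f y v‖ ^ 2 := by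
  have h : ContDiffAt ℝ 2 (fun w : E N => ‖w‖ ^ 2) (f y) := (contDiff_norm_sq ℂ).contDiffAt
  rw [lap_comp (a := fun w : E N => ‖w‖ ^ 2) hf h v, lap_eq_real h, SOS_sq2, SOS_sq2, norm_smul,
    norm_I, one_mul]
  ring

theorem SOS_fd {f : V → ℂ} {y : V} (hf : DifferentiableAt ℂ f y) (v : V) :
    fderiv ℂ (fun w => f w • (ev 0 : E 1)) y v = fderiv ℂ f y v • ev 0 := by
  rw [fderiv_smul_const hf]
  rfl

theorem SOS_ne {c : ℂ} (hc : c ≠ 0) : c • (ev 0 : E 1) ≠ 0 :=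
  norm_ne_zero_iff.1 (by rw [SOS_norm_one]; exact norm_ne_zero_iff.2 hc)

theorem SOS_inner (c c' : ℂ) : inner ℂ (c • (ev 0 : E 1)) (c' • ev 0) = conj c * c' := by
  rw [inner_smul_left, inner_smul_right, inner_self_eq_norm_sq_to_K, SOS_ev]
  simp

theorem lap_normSqC {f : V → ℂ} {y : V} (hf : ContDiffAt ℂ 2 f y) (v : V) :
    lap (fun w => ‖f w‖ ^ 2) y v = ‖fderiv ℂ f y v‖ ^ 2 := by
  have h := lap_normSq (f := fun w => f w • (ev 0 : E 1)) (hf.smul contDiffAt_const) v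
  rw [SOS_fd (hf.differentiableAt two_ne_zero)] at h
  simpa only [SOS_norm_one] using h

/-- The logarithm of the modulus of a holomorphic function is pluriharmonic. -/
theorem lap_log_normC {f : V → ℂ} {y : V} (hf : ContDiffAt ℂ 2 f y) (h0 : f y ≠ 0) (v : V) :
    lap (fun w => Real.log ‖f w‖) y v = 0 := by
  have h := lap_log_norm (f := fun w => f w • (ev 0 : E 1)) (hf.smul contDiffAt_const)
    (SOS_ne h0) v
  have h1 : ‖f y‖ ≠ 0 := norm_ne_zero_iff.2 h0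
  rw [SOS_fd (hf.differentiableAt two_ne_zero), SOS_prj (SOS_ne h0), SOS_inner, norm_mul,
    RCLike.norm_conj] at h
  simp only [SOS_norm_one] at h
  rw [h, mul_pow, mul_div_cancel_left₀ _ (pow_ne_zero 2 h1), sub_self, zero_div]

theorem SOS_fd_lg {z : E N} (hz : z ≠ 0) (a : E N) :
    fderiv ℝ (rc (lg : E N → ℝ)) z a = (((inner ℂ a z).re * (‖z‖ ^ 2)⁻¹ : ℝ) : ℂ) := by
  rw [← Chain_R_apply, ← Chain_log hz]
  exact congrArg (fun T : E N →L[ℝ] ℂ => T a)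
    (ofRealCLM.hasFDerivAt.comp z ((SOS_lg hz).differentiableAt two_ne_zero).hasFDerivAt).fderiv

theorem gd_log_norm {f : V → E N} {y : V} (hf : DifferentiableAt ℂ f y) (h0 : f y ≠ 0) (v : V) :
    gd v (rc fun w => Real.log ‖f w‖) y =
      inner ℂ (f y) (fderiv ℂ f y v) / (2 * ((‖f y‖ ^ 2 : ℝ) : ℂ)) := by
  have h := gd_comp (v := v) (u := rc (lg : E N → ℝ)) hf
    ((contDiffAt_rc (SOS_lg h0)).differentiableAt two_ne_zero)
  refine h.trans ?_
  rw [gd, SOS_fd_lg h0, SOS_fd_lg h0, inner_smul_left, ← inner_conj_symm (f y)]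
  generalize inner ℂ (fderiv ℂ f y v) (f y) = w
  have e : conj w = (w.re : ℂ) - I * ((conj I * w).re : ℝ) := by
    apply Complex.ext <;> simp
  rw [e]
  push_cast
  ring

theorem gd_log_normC {f : V → ℂ} {y : V} (hf : DifferentiableAt ℂ f y) (h0 : f y ≠ 0) (v : V) :
    gd v (rc fun w => Real.log ‖f w‖) y = fderiv ℂ f y v / (2 * f y) := by
  have h := gd_log_norm (f := fun w => f w • (ev 0 : E 1)) (hf.smul_const _) (SOS_ne h0) v
  rw [SOS_fd hf, SOS_inner] at h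
  simp only [SOS_norm_one] at h
  have h1 : conj (f y) ≠ 0 := (map_ne_zero _).2 h0
  rw [h, ← Complex.normSq_eq_norm_sq, Complex.normSq_eq_conj_mul_self]
  field_simp

theorem SOS.log_smooth (h : SOS Ω a) (h0 : ∀ y ∈ Ω, 0 < a y) :
    ContDiffOn ℝ ∞ (fun y => Real.log (a y) / 2) Ω :=
  (h.contDiffOn.log fun y hy => (h0 y hy).ne').div_const 2

theorem SOS.log_psh (hΩ : IsOpen Ω) (h : SOS Ω a) (h0 : ∀ y ∈ Ω, 0 < a y) {y : V} (hy : y ∈ Ω)
    (v : V) : 0 ≤ lap (fun y => Real.log (a y) / 2) y v := by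
  obtain ⟨N, f, hf, e⟩ := h
  have h1 : f y ≠ 0 := fun h1 => by simpa [e y hy, h1] using h0 y hy
  have h2 : (fun y => Real.log (a y) / 2) =ᶠ[𝓝 y] fun w => Real.log ‖f w‖ := by
    filter_upwards [hΩ.mem_nhds hy] with w hw
    rw [e w hw, Real.log_pow]
    push_cast
    ring
  rw [lap_congr h2, lap_log_norm ((hf.contDiffAt (hΩ.mem_nhds hy)).of_le Chain_two) h1]
  positivity

end Pool.Agent.Lib.MP_a47f92_an
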