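import Pool.Agent.Lib.MP_a47f92_an.G.GInt
import Pool.Agent.Lib.MP_a47f92_an.GreenA

set_option autoImplicit false
set_option linter.unusedSectionVars false

/-! Elementary lemmas on sequences and on the approximations of the Green function. -/

namespace Pool.Agent.Lib.MP_a47f92_an

open MeasureTheory Filter Topology Set Complex Metric Function
open scoped ContDiff ComplexConjugate ComplexOrder Matrix ENNReal NNReal

variable {n d : ℕ} {F : E n → E n}

/-- Cesàro means. -/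
noncomputable def cs0 (u : ℕ → ℝ) (N : ℕ) : ℝ := (N : ℝ)⁻¹ * ∑ j ∈ Finset.range N, u j

theorem B_cs_of_tendsto {u : ℕ → ℝ} {c : ℝ} (h : Tendsto u atTop (𝓝 c)) :
    Tendsto (cs0 u) atTop (𝓝 c) := h.cesaro

theorem B_cs_add (u v : ℕ → ℝ) (N : ℕ) : cs0 (fun j => u j + v j) N = cs0 u N + cs0 v N := by
  simp only [cs0, Finset.sum_add_distrib, mul_add]

theorem B_cs_sub (u v : ℕ → ℝ) (N : ℕ) : cs0 (fun j => u j - v j) N = cs0 u N - cs0 v N := by
  simp only [cs0, Finset.sum_sub_distrib, mul_sub]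

theorem B_cs_mul (c : ℝ) (u : ℕ → ℝ) (N : ℕ) : cs0 (fun j => c * u j) N = c * cs0 u N := by
  simp only [cs0, ← Finset.mul_sum]
  ring

theorem B_cs_sum {ι : Type} (s : Finset ι) (u : ι → ℕ → ℝ) (N : ℕ) :
    cs0 (fun j => ∑ i ∈ s, u i j) N = ∑ i ∈ s, cs0 (u i) N := by
  simp only [cs0]
  rw [Finset.sum_comm, Finset.mul_sum]

theorem B_cs_abs_le {u : ℕ → ℝ} {c : ℝ} (hc : 0 ≤ c) (h : ∀ j, |u j| ≤ c) (N : ℕ) :
    |cs0 u N| ≤ c := by
  rcases Nat.eq_zero_or_pos N with rfl | hN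
  · simpa [cs0] using hc
  have hN' : (0 : ℝ) < N := by exact_mod_cast hN
  rw [cs0, abs_mul, abs_inv, abs_of_pos hN', inv_mul_le_iff₀ hN']
  refine (Finset.abs_sum_le_sum_abs _ _).trans ((Finset.sum_le_sum fun j _ => h j).trans ?_)
  rw [Finset.sum_const, Finset.card_range, nsmul_eq_mul]

theorem B_cs_mono {u v : ℕ → ℝ} (h : ∀ j, u j ≤ v j) (N : ℕ) : cs0 u N ≤ cs0 v N :=
  mul_le_mul_of_nonneg_left (Finset.sum_le_sum fun j _ => h j) (by positivity)

/-- Shifting a bounded sequence does not change the Cesàro means asymptotically. -/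
theorem B_cs_shift {u : ℕ → ℝ} {c : ℝ} (h : ∀ j, |u j| ≤ c) :
    Tendsto (fun N => cs0 (fun j => u (j + 1)) N - cs0 u N) atTop (𝓝 0) := by
  have e : ∀ N, cs0 (fun j => u (j + 1)) N - cs0 u N = (N : ℝ)⁻¹ * (u N - u 0) := fun N => by
    rw [← B_cs_sub, cs0, Finset.sum_range_sub]
  simp only [e]
  refine squeeze_zero_norm (a := fun N : ℕ => (N : ℝ)⁻¹ * (2 * c)) (fun N => ?_) ?_
  · rw [norm_mul, Real.norm_of_nonneg (by positivity)]
    refine mul_le_mul_of_nonneg_left ?_ (by positivity)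
    have := abs_sub (u N) (u 0)
    rw [Real.norm_eq_abs]
    linarith [h N, h 0]
  · simpa using tendsto_inv_atTop_nhds_zero_nat.mul_const (2 * c)

/-- A decreasing sequence with `y (i + 1) = D y i + e i` and `e` of Cesàro limit zero. -/
theorem B_seq_zero {y e : ℕ → ℝ} {D : ℝ} (hD : 1 < D) (hy : Antitone y) (h0 : ∀ i, 0 ≤ y i)
    (h : ∀ i, y (i + 1) = D * y i + e i) (he : Tendsto (cs0 e) atTop (𝓝 0)) :
    Tendsto y atTop (𝓝 0) := by
  have hl := tendsto_atTop_ciInf hy ⟨0, by rintro _ ⟨i, rfl⟩; exact h0 i⟩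
  set c := ⨅ i, y i
  have h1 : Tendsto e atTop (𝓝 (c - D * c)) := by
    have e1 : e = fun i => y (i + 1) - D * y i := funext fun i => by rw [h i]; ring
    rw [e1]
    exact (hl.comp (tendsto_add_atTop_nat 1)).sub (hl.const_mul D)
  have h2 := tendsto_nhds_unique (B_cs_of_tendsto h1) he
  have h3 : c = 0 := by
    have : (1 - D) * c = 0 := by linarith
    exact (mul_eq_zero.1 this).resolve_left (by linarith)
  rwa [h3] at hl

/-- Uniform approximation preserves Cesàro convergence. -/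
theorem B_cs_approx {u : ℕ → ℝ} {c : ℝ} (h : ∀ ε : ℝ, 0 < ε → ∃ (v : ℕ → ℝ) (c' : ℝ),
    (∀ j, |u j - v j| ≤ ε) ∧ |c - c'| ≤ ε ∧ Tendsto (cs0 v) atTop (𝓝 c')) :
    Tendsto (cs0 u) atTop (𝓝 c) := by
  refine Metric.tendsto_atTop.2 fun ε hε => ?_
  obtain ⟨v, c', h1, h2, h3⟩ := h (ε / 4) (by positivity)
  obtain ⟨N, hN⟩ := Metric.tendsto_atTop.1 h3 (ε / 4) (by positivity)
  refine ⟨N, fun m hm => ?_⟩
  have h4 := B_cs_abs_le (by positivity) h1 m
  have h5 := hN m hm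
  rw [B_cs_sub] at h4
  rw [Real.dist_eq] at h5 ⊢
  rw [abs_le] at h4 h2
  rw [abs_lt] at h5 ⊢
  constructor <;> linarith [h4.1, h4.2, h2.1, h2.2, h5.1, h5.2]

/-- The approximations of the Green function form a uniform Cauchy sequence. -/
theorem B_green_cauchy (hF : IsLift d F) (hd : 2 ≤ d) : ∃ C : ℝ, 0 ≤ C ∧ ∀ k m m' z, z ≠ 0 →
    k ≤ m → k ≤ m' → |green d F m z - green d F m' z| ≤ C * ((d : ℝ) ^ k)⁻¹ := by
  obtain ⟨C, hC, h⟩ := green_bound hF hd
  refine ⟨2 * C, by positivity, fun k m m' z hz hm hm' => ?_⟩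
  obtain ⟨a, rfl⟩ := Nat.exists_eq_add_of_le' hm
  obtain ⟨b, rfl⟩ := Nat.exists_eq_add_of_le' hm'
  have h1 := h a _ ((hF.iterate k).ne hz)
  have h2 := h b _ ((hF.iterate k).ne hz)
  rw [green_add, green_add, ← mul_sub, abs_mul, abs_of_nonneg (by positivity), mul_comm]
  refine mul_le_mul_of_nonneg_right ?_ (by positivity)
  rw [abs_le] at h1 h2 ⊢
  constructor <;> linarith [h1.1, h1.2, h2.1, h2.2]

theorem B_pow_inv_tendsto (hd : 2 ≤ d) (C : ℝ) :
    Tendsto (fun k : ℕ => C * ((d : ℝ) ^ k)⁻¹) atTop (𝓝 0) := by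
  have h : (1 : ℝ) < d := by exact_mod_cast hd
  simpa using (tendsto_pow_atTop_atTop_of_one_lt h).inv_tendsto_atTop.const_mul C

theorem B_sum_pow_inv (hd : 2 ≤ d) (l J : ℕ) (hJ : J ≤ l) :
    ∑ j ∈ Finset.range J, ((d : ℝ) ^ (l - j - 1))⁻¹ ≤ 2 := by
  have h : (2 : ℝ) ≤ d := by exact_mod_cast hd
  calc ∑ j ∈ Finset.range J, ((d : ℝ) ^ (l - j - 1))⁻¹
      ≤ ∑ j ∈ Finset.range l, ((d : ℝ) ^ (l - j - 1))⁻¹ :=
        Finset.sum_le_sum_of_subset_of_nonneg (Finset.range_mono hJ) fun _ _ _ => by positivity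
    _ = ∑ j ∈ Finset.range l, ((d : ℝ) ^ j)⁻¹ := by
        rw [← Finset.sum_range_reflect]
        refine Finset.sum_congr rfl fun j hj => ?_
        rw [Finset.mem_range] at hj
        congr 2
        omega
    _ ≤ ∑ j ∈ Finset.range l, (1 / 2 : ℝ) ^ j := Finset.sum_le_sum fun j _ => by
        rw [one_div, inv_pow]
        exact inv_anti₀ (by positivity) (pow_le_pow_left₀ (by norm_num) h j)
    _ ≤ 2 := sum_geometric_two_le l

end Pool.Agent.Lib.MP_a47f92_an
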