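import Pool.Agent.Lib.MP_a47f92_an.G.AStub
import Pool.Agent.Lib.MP_a47f92_an.G.BSeq

set_option autoImplicit false
set_option linter.unusedSectionVars false

namespace Pool.Agent.Lib.MP_a47f92_an

open MeasureTheory Filter Topology Set Complex Metric Function
open scoped ContDiff ComplexConjugate ComplexOrder Matrix ENNReal NNReal

/-! Step 1, and first consequences of the attracting property. -/

variable {n p d : ℕ} {F : E n → E n} {U D K : Set (E n)} {S τ : Measure (Fr n p)}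

theorem A_mapsTo (hD : Trap F D) (hF : IsLift d F) (h0 : (0 : E n) ∈ K) (hK : F '' D ⊆ K)
    (hd : 1 ≤ d) : MapsTo F (insert 0 D) K := by
  rintro z (rfl | hz)
  · rw [hF.zero hd]
    exact h0
  · have _ := hD
    exact hK ⟨z, hz, rfl⟩

/-- Step 1: if the attracting set carries no closed current of bidimension `p`, the Green forms
of that degree have asymptotically no mass in the trapping region. -/
theorem A_zp (hd : 2 ≤ d) (hF : IsLift d F) (hU : Trap F U)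
    (hA : ¬ ∃ S : Measure (Fr n p), InC (⋂ m, F^[m] '' U) S) (hK : CC K) (hKU : K \ {0} ⊆ U) :
    ∃ η : ℕ → ℝ, Tendsto η atTop (𝓝 0) ∧ (∀ j, 0 ≤ η j) ∧
      ∀ j, rf K (dn (gs d F j p)) ≤ ENNReal.ofReal (η j) := by
  have hd1 : 1 ≤ d := le_trans one_le_two hd
  obtain ⟨χ, K', hχ, h01, h1, -, hK'U, hs⟩ := exists_lh_cut hK hU.op hU.cone hKU
  have h0 : ∀ z, 0 ≤ χ z := fun z => (h01 z).1
  have hm := mass_lam_mlt_le (isCur_ref n p) (closed_ref n p) hF hd1 hχ.bm h0 fun z => (h01 z).2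
  have hc : ∀ j, IsCur (lam d p F j (mlt (ref n p) χ)) := fun j =>
    ((isCur_ref n p).toMlt hχ.bm).toLam hF hd1 p j
  refine ⟨fun j => pr (ref n p) χ (gs d F j p), ?_, fun j =>
    (isCur_ref n p).pr_nonneg (fun z _ => h0 z) (pps_gs hF hd1 j p), fun j =>
    rf_le_pr (pps_gs hF hd1 j p) hχ h0 hK.meas fun z hz hz0 => (h1 z hz hz0).ge⟩
  refine tendsto_of_ultra fun 𝒰 h𝒰 => ?_
  obtain ⟨T, hT, hl⟩ := exists_lim 𝒰 hc fun j => (hm j).2
  have h2 := hl.toMass hc hT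
  simp only [fun j => (hm j).1] at h2
  rcases hT.mass_nonneg.eq_or_lt with h3 | h3
  · rwa [← h3] at h2
  exfalso
  have h4 : Closed T := hl.closed_of_tendsto fun a b ha hb q hq l =>
    (alm_lam (isCur_ref n p) (closed_ref n p) hF hd hχ h0 ha hb hq l).mono_left h𝒰
  obtain ⟨K₁, c1, z1, s1, i1, m1⟩ := hU.exists_cc hF hd1
  have c2 : ∀ m, CC (F^[m] '' K₁) := fun m => c1.image (hF.iterate m) (Nat.one_le_pow _ _ hd1)
  have h5 : On (mlt (ref n p) χ) (insert 0 U) :=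
    on_mlt _ hχ.measurable fun z hz hχz => Or.inr (hK'U ⟨hs z hz hχz, hz⟩)
  have h6 : ∀ m, On T (F^[m] '' K₁) := fun m => hl.toOn hc hT (c2 m) <| by
    filter_upwards [h𝒰 (eventually_ge_atTop (m + 1))] with j hj
    obtain ⟨k, rfl⟩ : ∃ k, j = m + (k + 1) := ⟨j - (m + 1), by
      have : m + 1 ≤ j := hj
      omega⟩
    refine h5.toLam hF hd1 p _ (c2 m).meas fun z hz => ?_
    rw [iterate_add_apply, iterate_succ_apply]
    exact ⟨_, m1.iterate k (A_mapsTo hU hF z1 i1 hd1 hz), rfl⟩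
  refine hA ⟨_, (cl1_normalise hT h4 h3).inC (cc_iInter c2) ?_ ((on_iInter h6).smul _)⟩
  rintro y ⟨hy, hy0⟩
  refine mem_iInter.2 fun m => ?_
  obtain ⟨x, hx, rfl⟩ := mem_iInter.1 hy m
  refine ⟨x, s1 ⟨hx, ?_⟩, rfl⟩
  rintro rfl
  exact hy0 ((hF.iterate m).zero (Nat.one_le_pow _ _ hd1))

/-- The attracting property for currents which are only carried by a closed cone in `D`. -/
theorem A_attr (hF : IsLift d F) (hd : 1 ≤ d) (ha : Attr d F D τ) (hS : Cl1 S) (hK : CC K)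
    (hD : K \ {0} ⊆ D) (h : On S K) (hc : IsCont S) {a : E n → ℝ} (ha' : LH 0 a)
    {q : Fin p → E n → ℝ} (hq : Pots q) :
    Tendsto (cs0 fun m => pr (lam d p F m S) a q) atTop (𝓝 (pr τ a q)) := by
  refine (ha _ (hS.inC hK hD h) (hS.cur.eqv_cln.isCont hc) a ha' q hq).congr fun N => ?_
  rw [cs0]
  congr 1
  refine Finset.sum_congr rfl fun m _ => ?_
  rw [← pr_lam_eq]
  exact hS.cur.eqv_cln.toLam hS.cur.toCln hS.cur hF hd p m a ha' q hq

/-- The attracting current is invariant. -/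
theorem A_inv (hF : IsLift d F) (hd : 1 ≤ d) (ha : Attr d F D τ) (hτ : IsCur τ) (hS : Cl1 S)
    (hK : CC K) (hD : K \ {0} ⊆ D) (h : On S K) (hc : IsCont S) : Eqv (lam d p F 1 τ) τ := by
  intro a ha' q hq
  obtain ⟨C₀, -, b0⟩ := ha'.bound
  obtain ⟨C, -, b1⟩ := hq.pr_le
  have h3 := B_cs_shift (u := fun j => pr (lam d p F j S) a q) (c := C * C₀) fun j => by
    have h4 := hS.toLam hF hd j
    have h5 := b1 _ a C₀ h4.cur fun z _ => b0 z
    rwa [h4.mass, mul_one] at h5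
  have h4 := (A_attr hF hd ha hS hK hD h hc (ha'.comp0 (hF.iterate 1))
    (hq.comp (hF.iterate 1))).const_mul ((d : ℝ) ^ (p * 1))⁻¹
  rw [← hτ.pr_lam hF hd p 1 ha'.measurable hq] at h4
  simp only [← B_cs_mul, ← (hS.cur.toLam hF hd p _).pr_lam hF hd p 1 ha'.measurable hq,
    lam_lam hF, add_comm 1] at h4
  exact sub_eq_zero.1 (tendsto_nhds_unique (h4.sub (A_attr hF hd ha hS hK hD h hc ha' hq)) h3)

theorem A_sm_cl1 (κ : KM n) {r : ℝ} (hr : 0 < r) (hr1 : r ≤ 1 / 4) (h : Cl1 S) : Cl1 (Sm κ r S) :=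
  ⟨A_sm_cur κ hr hr1 h.cur, A_sm_closed κ hr hr1 h.cur h.closed, by
    rw [A_sm_mass κ hr hr1 h.cur h.closed, h.mass]⟩

end Pool.Agent.Lib.MP_a47f92_an
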