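import Pool.Agent.Lib.MP_a47f92_an.G.A1

set_option autoImplicit false
set_option linter.unusedSectionVars false

namespace Pool.Agent.Lib.MP_a47f92_an

open MeasureTheory Filter Topology Set Complex Metric Function
open scoped ContDiff ComplexConjugate ComplexOrder Matrix ENNReal NNReal

/-! Step 2: the potential `Y`. -/

variable {n p d s : ℕ} {F : E n → E n} {D K : Set (E n)} {τ : Measure (Fr n s)} {r : ℝ}
  {S S' : Measure (Fr n p)}

/-- The setting of steps 2 and 3. -/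
structure St (d s : ℕ) (F : E n → E n) (D K : Set (E n)) (τ : Measure (Fr n s)) (r : ℝ) : Prop where
  hF : IsLift d F
  hd : 2 ≤ d
  cτ : Cl1 τ
  attr : Attr d F D τ
  r0 : 0 < r
  r1 : r ≤ 1 / 4
  cK : CC K
  onτ : On τ K
  map : MapsTo F (nb (2 * r) K) K
  sub : nb (2 * r) K \ {0} ⊆ D
  zp : ∃ η : ℕ → ℝ, Tendsto η atTop (𝓝 0) ∧ (∀ j, 0 ≤ η j) ∧
    ∀ j, rf (nb (2 * r) K) (dn (gs d F j (s + 1))) ≤ ENNReal.ofReal (η j)

/-- Push-forward followed by smoothing. -/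
noncomputable def Lo (κ : KM n) (r : ℝ) (d s : ℕ) (F : E n → E n) (S : Measure (Fr n p)) :
    Measure (Fr n p) := Sm κ r (lam d s F 1 S)

variable (h : St d s F D K τ r) (κ : KM n)
include h

theorem St.d1 : 1 ≤ d := le_trans one_le_two h.hd

theorem St.sub_nb : K ⊆ nb (2 * r) K := subset_nb (by linarith [h.r0])

theorem St.lam_on (h' : On S (nb (2 * r) K)) : On (lam d s F 1 S) K :=
  h'.toLam h.hF h.d1 s 1 h.cK.meas h.map

theorem St.lo_cur (hS : IsCur S) : IsCur (Lo κ r d s F S) :=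
  A_sm_cur κ h.r0 h.r1 (hS.toLam h.hF h.d1 s 1)

theorem St.lo_cl1 {S : Measure (Fr n s)} (hS : Cl1 S) : Cl1 (Lo κ r d s F S) :=
  A_sm_cl1 κ h.r0 h.r1 (hS.toLam h.hF h.d1 1)

theorem St.lo_on (hS : IsCur S) (h' : On S (nb (2 * r) K)) : On (Lo κ r d s F S) (nb (2 * r) K) :=
  A_sm_on κ h.r0 h.r1 (hS.toLam h.hF h.d1 s 1) h.cK (h.lam_on h')

theorem St.lo_ddc {Y : Measure (Fr n (p + 1))} (hY : IsCur Y) (hS : IsCur S) (hS' : IsCur S')
    (e : DDC Y S S') : DDC (Lo κ r d s F Y) (Lo κ r d s F S) (Lo κ r d s F S') :=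
  A_sm_ddc κ h.r0 h.r1 (hY.toLam h.hF h.d1 s 1) (hS.toLam h.hF h.d1 s 1) (hS'.toLam h.hF h.d1 s 1)
    (e.toLam hY hS hS' h.hF h.d1 s 1)

theorem St.inv : Eqv (lam d s F 1 τ) τ := by
  obtain ⟨κ⟩ : Nonempty (KM n) := exists_kn _ _
  exact A_inv h.hF h.d1 h.attr h.cτ.cur (A_sm_cl1 κ h.r0 h.r1 h.cτ) (h.cK.nb _) h.sub
    (A_sm_on κ h.r0 h.r1 h.cτ.cur h.cK h.onτ) (A_sm_cont κ h.r0 h.r1 h.cτ.cur)

theorem St.lo_tau : Eqv (Sm κ r τ) (Lo κ r d s F τ) :=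
  (A_sm_eqv κ h.r0 h.r1 (h.cτ.cur.toLam h.hF h.d1 s 1) h.cτ.cur h.inv).symm

theorem St.ho_cur : IsCur (Ho κ r τ) := A_ho_cur κ h.r0 h.r1 h.cτ.cur

theorem St.ho_ddc : DDC (Ho κ r τ) (Lo κ r d s F τ) τ :=
  (A_H κ h.r0 h.r1 h.cτ.cur h.cτ.closed).congr (h.lo_tau κ) eqv_refl

theorem St.it_cur (hS : IsCur S) (j : ℕ) : IsCur ((Lo κ r d s F)^[j] S) := by
  induction j with
  | zero => exact hS
  | succ j ih => rw [iterate_succ_apply']; exact h.lo_cur κ ih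

theorem St.it_on (hS : IsCur S) (h' : On S (nb (2 * r) K)) (j : ℕ) :
    On ((Lo κ r d s F)^[j] S) (nb (2 * r) K) := by
  induction j with
  | zero => exact h'
  | succ j ih => rw [iterate_succ_apply']; exact h.lo_on κ (h.it_cur κ hS j) ih

theorem St.it_cl1 (j : ℕ) : Cl1 ((Lo κ r d s F)^[j] τ) := by
  induction j with
  | zero => exact h.cτ
  | succ j ih => rw [iterate_succ_apply']; exact h.lo_cl1 κ ih

theorem St.it_ddc (j : ℕ) : DDC ((Lo κ r d s F)^[j] (Ho κ r τ)) ((Lo κ r d s F)^[j + 1] τ)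
    ((Lo κ r d s F)^[j] τ) := by
  induction j with
  | zero => exact h.ho_ddc κ
  | succ j ih =>
    rw [iterate_succ_apply' _ (j + 1), iterate_succ_apply' _ j (Ho κ r τ)]
    nth_rewrite 2 [iterate_succ_apply' _ j τ]
    exact h.lo_ddc κ (h.it_cur κ (h.ho_cur κ) j) (h.it_cl1 κ _).cur (h.it_cl1 κ _).cur ih

theorem St.sum_cur (N : ℕ) : IsCur (∑ j ∈ Finset.range N, (Lo κ r d s F)^[j] (Ho κ r τ)) :=
  isCur_finsum _ fun j _ => h.it_cur κ (h.ho_cur κ) j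

theorem St.sum_ddc (N : ℕ) :
    DDC (∑ j ∈ Finset.range N, (Lo κ r d s F)^[j] (Ho κ r τ)) ((Lo κ r d s F)^[N] τ) τ := by
  induction N with
  | zero => exact eqv_refl.ddc
  | succ N ih =>
    rw [Finset.sum_range_succ, add_comm]
    exact (h.it_ddc κ N).add ih (h.it_cur κ (h.ho_cur κ) N) (h.sum_cur κ N)

theorem St.sum_succ (N : ℕ) : ∑ j ∈ Finset.range (N + 1), (Lo κ r d s F)^[j] (Ho κ r τ) =
    Lo κ r d s F (∑ j ∈ Finset.range N, (Lo κ r d s F)^[j] (Ho κ r τ)) + Ho κ r τ := by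
  rw [Finset.sum_range_succ']
  congr 1
  induction N with
  | zero =>
    rw [Finset.sum_range_zero, Finset.sum_range_zero, Lo, lam, Measure.map_zero, smul_zero,
      A_sm_zero]
  | succ N ih =>
    rw [Finset.sum_range_succ, Finset.sum_range_succ, ih, iterate_succ_apply', Lo, Lo, Lo,
      lam_add h.hF, A_sm_add κ r ((h.sum_cur κ N).toLam h.hF h.d1 s 1)
        ((h.it_cur κ (h.ho_cur κ) N).toLam h.hF h.d1 s 1)]

theorem St.summable : Summable fun j => mass ((Lo κ r d s F)^[j] (Ho κ r τ)) := by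
  obtain ⟨ε, hε, hg⟩ := green_bound h.hF h.hd
  obtain ⟨C, hC⟩ := A_ub κ h.r0 h.r1 (s + 1)
  obtain ⟨η, h1, h2, h3⟩ := h.zp
  have hd0 : (0 : ℝ) ≤ d := d.cast_nonneg
  have h4 : Tendsto (fun j => (C : ℝ) * d * η j) atTop (𝓝 0) := by
    simpa using h1.const_mul ((C : ℝ) * d)
  obtain ⟨j, hj⟩ := (h4.eventually (ge_mem_nhds one_half_pos)).exists
  set c := 2 * ((s : ℝ) + 1) * ε
  have hc : 0 ≤ c := by positivity
  have cmp : ∀ (X : Measure (Fr n (s + 1))) (R : Measure (Fr n s)), IsCur X → Cl1 R → DDC X R τ →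
      ∀ m, |p1 X (gs d F m (s + 1)) - mass X| ≤ c := fun X R hX hR e m =>
    e.cmp_one hX hR h.cτ (fun _ => pl_lg) (fun _ => pl_green h.hF h.d1 m) fun _ => hg m
  have hon : ∀ N, On (∑ j ∈ Finset.range N, (Lo κ r d s F)^[j] (Ho κ r τ)) (nb (2 * r) K) :=
    fun N => on_finsum _ fun j _ =>
      h.it_on κ (h.ho_cur κ) (A_ho_on κ h.r0 h.r1 h.cτ.cur h.cK h.onτ) j
  have key : ∀ N, mass (∑ j ∈ Finset.range N, (Lo κ r d s F)^[j] (Ho κ r τ)) ≤
      2 * mass (Ho κ r τ) + 5 * c := by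
    intro N
    have m0 := (h.ho_cur κ).mass_nonneg
    induction N with
    | zero =>
      rw [Finset.sum_range_zero, mass, p1, pr_zero]
      positivity
    | succ N ih =>
      have hg := pps_gs h.hF h.d1 j (s + 1)
      have e1 := abs_le.1 (cmp _ _ (h.sum_cur κ (N + 1)) (h.it_cl1 κ _) (h.sum_ddc κ _) j)
      have e2 := abs_le.1 (cmp _ _ (h.sum_cur κ N) (h.it_cl1 κ _) (h.sum_ddc κ _) 1)
      have e3 := abs_le.1 (cmp _ _ (h.ho_cur κ) (h.lo_cl1 κ h.cτ) (h.ho_ddc κ) j)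
      have e4 := (h.lo_cur κ (h.sum_cur κ N)).p1_add (h.ho_cur κ) hg.pots
      rw [← h.sum_succ κ N] at e4
      have hl := (h.sum_cur κ N).toLam h.hF h.d1 s 1
      have e5 := hC _ K _ hl h.cK (h.lam_on (hon N)) (pt_dn hg)
      have e6 := ((h.sum_cur κ N).mass_lam_succ h.hF h.d1 1).2
      rw [(A_sm_cur κ h.r0 h.r1 hl).lp_dn hg] at e5
      have e7 := e5.trans (mul_le_mul' le_rfl (h3 j))
      rw [← ENNReal.ofReal_coe_nnreal, ← ENNReal.ofReal_mul C.coe_nonneg,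
        ← ENNReal.ofReal_mul (mul_nonneg C.coe_nonneg hl.mass_nonneg),
        ENNReal.ofReal_le_ofReal_iff (mul_nonneg (mul_nonneg C.coe_nonneg hl.mass_nonneg) (h2 j)),
        e6, pow_one] at e7
      have e8 := (h.sum_cur κ N).p1_nonneg (pps_gs h.hF h.d1 1 (s + 1))
      have e9 := mul_le_mul_of_nonneg_right hj e8
      unfold Lo at e1 e2 e4 e7 e8 e9 ih ⊢
      nlinarith [e1.1, e2.2, e3.2]
  refine summable_of_sum_range_le (fun j => (h.it_cur κ (h.ho_cur κ) j).mass_nonneg) fun N =>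
    le_of_eq_of_le ?_ (key N)
  exact (pr_finsum _ (fun j _ => h.it_cur κ (h.ho_cur κ) j) (bm_const 1) pots_lg).symm

/-- The output of the first part of step 2. -/
theorem St.exists_Y : ∃ (Y : Measure (Fr n (s + 1))) (φ₀ : Measure (Fr n s)), IsCur Y ∧ Cl1 φ₀ ∧
    On φ₀ (nb (2 * r) K) ∧ DDC Y φ₀ τ ∧ Ho κ r τ ≤ Y ∧
    ∀ q, Pots q → p1 Y q = p1 (Ho κ r τ) q + p1 (Lo κ r d s F Y) q := by
  have hc := h.it_cur κ (h.ho_cur κ)
  have hs := h.summable κ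
  have hf := fun j => (h.it_cl1 κ j).cur
  have hU : ((hyperfilter ℕ : Ultrafilter ℕ) : Filter ℕ) ≤ atTop := Nat.hyperfilter_le_atTop
  obtain ⟨φ₀, c0, hl⟩ := exists_lim (hyperfilter ℕ) hf fun j => (h.it_cl1 κ j).mass.le
  refine ⟨_, φ₀, isCur_sum hc hs, ⟨c0, hl.toClosed fun j => (h.it_cl1 κ j).closed, ?_⟩,
    hl.toOn hf c0 (h.cK.nb _) (.of_forall
      (h.it_on κ h.cτ.cur (h.onτ.mono fun z hz => h.sub_nb hz.1))),
    fun a ha q hq => ?_, Measure.le_sum (fun j => (Lo κ r d s F)^[j] (Ho κ r τ)) 0,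
    fun q hq => ?_⟩
  · have h1 := hl.toMass hf c0
    simp only [fun j => (h.it_cl1 κ j).mass] at h1
    exact tendsto_nhds_unique h1 tendsto_const_nhds
  · refine tendsto_nhds_unique ((hasSum_pr hc hs (bm_const 1)
      (hq.cons ha)).tendsto_sum_nat.mono_left hU)
      (((hl.toPr hf c0 ha hq).sub_const _).congr fun N => ?_)
    rw [← h.sum_ddc κ N a ha q hq, p1, pr_finsum _ (fun j _ => hc j) (bm_const 1) (hq.cons ha)]
  · have e : Lo κ r d s F (Measure.sum fun j => (Lo κ r d s F)^[j] (Ho κ r τ)) =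
        Measure.sum fun j => (Lo κ r d s F)^[j + 1] (Ho κ r τ) := by
      rw [Lo, lam_sum h.hF, A_sm_sum κ r fun j => (hc j).toLam h.hF h.d1 s 1]
      simp only [iterate_succ_apply']
      rfl
    have h1 := hasSum_pr hc hs (bm_const 1) hq
    have h2 := hasSum_pr (fun j => hc (j + 1)) ((summable_nat_add_iff 1).2 hs) (bm_const 1) hq
    rw [e]
    exact h1.unique (HasSum.zero_add
      (f := fun j => pr ((Lo κ r d s F)^[j] (Ho κ r τ)) (fun _ => 1) q) h2)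

end Pool.Agent.Lib.MP_a47f92_an
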