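import Pool.Agent.Lib.MP_a47f92_an.G.A2

set_option autoImplicit false
set_option linter.unusedSectionVars false

namespace Pool.Agent.Lib.MP_a47f92_an

open MeasureTheory Filter Topology Set Complex Metric Function
open scoped ContDiff ComplexConjugate ComplexOrder Matrix ENNReal NNReal

/-! Step 2, second part, and step 3. -/

variable {n p d s : ℕ} {F : E n → E n} {D K : Set (E n)} {τ φ₀ φ : Measure (Fr n s)} {r : ℝ}
  {Y Ψ : Measure (Fr n (s + 1))}

variable (h : St d s F D K τ r) (κ : KM n)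
include h

theorem St.att {S : Measure (Fr n s)} (hS : Cl1 S) (h' : On S (nb (2 * r) K)) (hc : IsCont S)
    {a : E n → ℝ} (ha : LH 0 a) {q : Fin s → E n → ℝ} (hq : Pots q) :
    Tendsto (cs0 fun m => pr (lam d s F m S) a q) atTop (𝓝 (pr τ a q)) :=
  A_attr h.hF h.d1 h.attr hS (h.cK.nb _) h.sub h' hc ha hq

theorem St.ddc_lam {S : Measure (Fr n s)} (hY : IsCur Y) (hS : IsCur S) (e : DDC Y S τ) (i : ℕ) :
    DDC (lam d s F i Y) (lam d s F i S) τ :=
  (e.toLam hY hS h.cτ.cur h.hF h.d1 s i).congr eqv_refl (h.inv.lam_iter h.cτ.cur h.hF h.d1 i)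

/-- The masses of the push-forwards of the potential tend to zero. -/
theorem St.y0 (hY : IsCur Y) (hΨ : IsCur Ψ) (hφ : Cl1 φ) (h' : On φ (nb (2 * r) K)) (hc : IsCont φ)
    (e : DDC Y φ τ) (psi : ∀ q, Pots q → p1 Ψ q = p1 Y q - p1 (lam d s F 1 Y) q) :
    Tendsto (fun i => mass (lam d s F i Y)) atTop (𝓝 0) := by
  have hX := fun i => hY.toLam h.hF h.d1 s i
  have hg := pps_gs h.hF h.d1 1 (s + 1)
  have hu : LH 0 fun z => green d F 1 z - lg z := by
    simpa only [sub_self] using (pl_green h.hF h.d1 1).lh.sub lh_lg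
  have hm : ∀ l, Pots (mxq (fun _ : Fin (s + 1) => (lg : E n → ℝ)) (gs d F 1 (s + 1)) l) :=
    fun l => mxq_forall (P := fun _ u => ∃ D, LH D u) pots_lg hg.pots l
  refine B_seq_zero (D := d) (e := fun i => d * ∑ l : Fin (s + 1),
    (pr (lam d s F i φ) (fun z => green d F 1 z - lg z)
        (fun j => mxq (fun _ => lg) (gs d F 1 (s + 1)) l (l.succAbove j)) -
      pr τ (fun z => green d F 1 z - lg z)
        fun j => mxq (fun _ => lg) (gs d F 1 (s + 1)) l (l.succAbove j)))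
    (by exact_mod_cast h.hd) (antitone_nat_of_succ_le fun i => ?_) (fun i => (hX i).mass_nonneg)
    (fun i => ?_) ?_
  · have hq := pps_lg.comp (h.hF.iterate i) (p := s + 1)
    have h1 := hΨ.p1_nonneg hq
    rw [psi _ hq.pots, sub_nonneg] at h1
    rw [add_comm i 1, add_comm 1 i, ← lam_lam h.hF s i 1, mass, mass, p1, p1,
      (hX 1).pr_lam h.hF h.d1 s i measurable_const pots_lg,
      hY.pr_lam h.hF h.d1 s i measurable_const pots_lg]
    exact mul_le_mul_of_nonneg_left h1 (by positivity)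
  · have h1 := ((hX i).mass_lam_succ h.hF h.d1 1).2
    have h2 := (hX i).pr_telescope (bm_const 1) pots_lg hg.pots
    rw [lam_lam h.hF, add_comm 1 i, pow_one] at h1
    rw [h1, ← mul_add, ← Finset.sum_congr rfl fun l _ =>
      (h.ddc_lam hY hφ.cur e i).slot hu (hm l) l]
    congr 1
    exact eq_add_of_sub_eq' h2
  · have h1 := (tendsto_finsetSum Finset.univ fun (l : Fin (s + 1)) _ =>
      (h.att hφ h' hc hu fun j => hm l (l.succAbove j)).sub (B_cs_of_tendsto (tendsto_const_nhds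
        (x := pr τ (fun z => green d F 1 z - lg z)
          fun j => mxq (fun _ => lg) (gs d F 1 (s + 1)) l (l.succAbove j))))).const_mul (d : ℝ)
    simp only [sub_self, Finset.sum_const_zero, mul_zero] at h1
    refine h1.congr fun N => ?_
    simp only [B_cs_mul, B_cs_sum, B_cs_sub]

/-- Extremality of the attracting current. -/
theorem St.ext (hY : IsCur Y) (hle : Ho κ r τ ≤ Y)
    (y0 : Tendsto (fun i => mass (lam d s F i Y)) atTop (𝓝 0)) {τ₁ τ₂ : Measure (Fr n s)}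
    (c1 : IsCur τ₁) (c2 : IsCur τ₂) (d1 : Closed τ₁) (d2 : Closed τ₂) (e : Eqv (τ₁ + τ₂) τ)
    (i1 : Eqv (lam d s F 1 τ₁) τ₁) {a : E n → ℝ} (ha : LH 0 a) {q : Fin s → E n → ℝ}
    (hq : Pots q) : pr τ₁ a q = mass τ₁ * pr τ a q := by
  rcases c1.mass_nonneg.eq_or_lt with h0 | h0
  · obtain ⟨C₀, -, b0⟩ := ha.bound
    obtain ⟨C, -, b1⟩ := hq.pr_le
    have h1 := b1 τ₁ a C₀ c1 fun z _ => b0 z
    rw [← h0, mul_zero, abs_nonpos_iff] at h1
    rw [h1, ← h0, zero_mul]
  have o1 : On τ₁ K := (ae_add_measure_iff.1 (e.toOn (c1.add c2) h.cτ.cur h.cK h.onτ)).1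
  have s1 := A_sm_cur κ h.r0 h.r1 c1
  have m1 := A_sm_mass κ h.r0 h.r1 c1 d1
  have p1c := A_ho_cur κ h.r0 h.r1 c1
  have p2c := A_ho_cur κ h.r0 h.r1 c2
  have h1 := (h.att (cl1_normalise s1 (A_sm_closed κ h.r0 h.r1 c1 d1) (m1 ▸ h0))
    ((A_sm_on κ h.r0 h.r1 c1 h.cK o1).smul _) ((A_sm_cont κ h.r0 h.r1 c1).smul _)
    ha hq).const_mul (mass τ₁)
  simp only [lam_smul, pr_smul, m1, ENNReal.toReal_ofReal (inv_pos.2 h0).le, B_cs_mul,
    mul_inv_cancel_left₀ h0.ne'] at h1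
  have hL : LeP (Ho κ r τ₁) Y := fun u hu => by
    have h2 := A_H' κ h.r0 h.r1 isCur_zero (c1.add c2) h.cτ.cur (d1.add d2 c1 c2) h.cτ.closed
      e.ddc hu.pots
    rw [A_sm_zero, sub_self, A_ho_add κ r c1 c2, p1c.p1_add p2c hu.pots] at h2
    linarith [p2c.p1_nonneg hu, leP_of_le hY (h.ho_cur κ) hle u hu]
  obtain ⟨C, hC, b1⟩ := (hq.cons ha).pr_le
  have h2 : Tendsto (fun m => pr (lam d s F m (Sm κ r τ₁)) a q) atTop (𝓝 (pr τ₁ a q)) := by
    rw [tendsto_iff_norm_sub_tendsto_zero]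
    refine squeeze_zero (fun _ => norm_nonneg _) (fun m => ?_) (by simpa using y0.const_mul C)
    have h3 := ((A_H κ h.r0 h.r1 c1 d1).toLam p1c s1 c1 h.hF h.d1 s m).congr eqv_refl
      (i1.lam_iter c1 h.hF h.d1 m) a ha q hq
    have h4 := b1 _ (fun _ => 1) 1 (p1c.toLam h.hF h.d1 s m) fun _ _ => abs_one.le
    have h5 := hL.toLam p1c hY h.hF h.d1 s m _ pps_lg
    rw [← h3, Real.norm_eq_abs]
    rw [mul_one] at h4
    exact h4.trans (mul_le_mul_of_nonneg_left h5 hC)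
  exact tendsto_nhds_unique (B_cs_of_tendsto h2) h1

/-- The support of the push-forward is invariant. -/
theorem St.maps {S R : Measure (Fr n s)} (hS : IsCur S) (hR : IsCur R)
    (e : Eqv S (lam d s F 1 R)) {δ : ℝ} (hδ : 0 < δ) {C : ℝ≥0}
    (lb : ∀ g, PT g → rf (nb δ (Sp S)) g ≤ C * lp R g) : MapsTo F (Sp S) (Sp S) := by
  intro z hz
  rcases eq_or_ne z 0 with rfl | hz0
  · rw [h.hF.zero h.d1]
    exact zero_mem_Sp S
  refine (mem_Sp_iff (h.hF.ne hz0)).2 fun O ho hc hO => pos_iff_ne_zero.2 fun h0 => ?_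
  have hK := cc_compl ho hc
  have h1 : On S Oᶜ := (on_iff_wg hK.meas).2 (by rwa [compl_compl])
  have h2 := e.symm.toOn (hR.toLam h.hF h.d1 s 1) hS hK h1
  have h3 := (on_iff_wg hK.meas).1 h2
  have hg : PT fun x : Fr n s => O.indicator (fun _ => (1 : ℝ)) x.1 * dens x :=
    (pt_dn pps_lg).indicator ho.measurableSet hc
  rw [compl_compl, wg_apply _ pps_lg ho.measurableSet] at h3
  replace h3 := (lp_lam R h.hF s 1 hg.meas).symm.trans h3
  rw [mul_eq_zero, ENNReal.ofReal_eq_zero] at h3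
  have hd0 : (0 : ℝ) < d := by exact_mod_cast h.d1
  have h4 := h3.resolve_left (not_le.2 (by positivity))
  have h5 := lb _ (hg.comp_fw h.hF h.d1)
  have ho' : IsOpen (F ⁻¹' O) := ho.preimage h.hF.contDiff.continuous
  have e1 : (fun x : Fr n s => O.indicator (fun _ => (1 : ℝ)) (fw F x).1 * dens (fw F x)) =
      fun x => (F ⁻¹' O).indicator (fun _ => (1 : ℝ)) x.1 * dens (fw F x) := rfl
  rw [iterate_one] at h4
  rw [h4, mul_zero, e1, rf_mul_indicator ho'.measurableSet] at h5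
  have h6 := rf_dens_fw_pos h.hF h.d1 (lt_of_mass_pos h.cτ.cur (h.cτ.mass ▸ one_pos))
    (isOpen_interior.inter ho') (O := interior (nb δ (Sp S)) ∩ F ⁻¹' O)
    (fun c hc' w hw => ⟨((cc_Sp S).nb δ).2.interior c hc' w hw.1, by
      rw [mem_preimage, h.hF.hom]
      exact hc _ (pow_ne_zero _ hc') _ hw.2⟩)
    ⟨z, ⟨nb_subset_interior hδ ⟨subset_nb le_rfl hz, hz0⟩, hO⟩, hz0⟩
  exact (h6.trans_le ((rf_mono (inter_subset_inter_left _ interior_subset)).trans h5)).false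

/-- The attracting current is carried by every closed cone which carries the push-forwards. -/
theorem St.on_tau (hφ : Cl1 φ) (h' : On φ (nb (2 * r) K)) (hc : IsCont φ) {Z : Set (E n)}
    (hZ : CC Z) (onZ : ∀ i, 1 ≤ i → On (lam d s F i φ) Z) : On τ Z := by
  refine on_of_test h.cτ.cur hZ fun a ha _ h0 => ?_
  refine tendsto_nhds_unique (h.att hφ h' hc ha pots_lg) (B_cs_of_tendsto ?_)
  refine tendsto_const_nhds.congr' ?_
  filter_upwards [eventually_ge_atTop 1] with i hi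
  exact ((onZ i hi).pr_zero (hφ.cur.toLam h.hF h.d1 s i) h0 pots_lg).symm

end Pool.Agent.Lib.MP_a47f92_an
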