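import Pool.Agent.Lib.MP_a47f92_an.G.PlkA

set_option autoImplicit false
set_option linter.unusedSectionVars false

namespace Pool.Agent.Lib.MP_a47f92_an

open MeasureTheory Filter Topology Set Complex Metric Function
open scoped ContDiff ComplexConjugate ComplexOrder Matrix ENNReal NNReal

/-! Norms of exterior powers. -/

variable {n m k p : ℕ}

theorem Plk_prj (z v : E n) : prj (un z) v = v - (inner ℂ z v / (‖z‖ : ℂ) ^ 2) • z := by
  have h : un z = ((‖z‖ : ℂ)⁻¹) • z := by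
    rw [un, ← ofReal_inv, Complex.coe_smul]
  rw [prj_apply, h, inner_smul_left, smul_smul, map_inv₀, conj_ofReal]
  congr 2
  ring

theorem Plk_zero (w : Fin 0 → E n) : ‖plk w‖ ^ 2 = 1 := by
  simpa using norm_plk_orthonormal (w := w) ⟨fun i => i.elim0, fun i => i.elim0⟩

theorem Plk_an_sq (θ : (Fin p → E n) → ℂ) :
    an θ ^ 2 = ∑ J : Fin p → Fin n, ‖θ (evs J)‖ ^ 2 :=
  Real.sq_sqrt (Finset.sum_nonneg fun _ _ => by positivity)

theorem Plk_wn_sq (B : E n →L[ℂ] E m) :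
    wn p B ^ 2 = ∑ J : Fin p → Fin n, ‖plk fun j => B (evs J j)‖ ^ 2 :=
  Real.sq_sqrt (Finset.sum_nonneg fun _ _ => by positivity)

theorem Plk_max (hn : 0 < n) (f : (Fin p → Fin n) → ℝ) : ∃ J, ∑ I, f I ≤ n ^ p * f J := by
  have : Nonempty (Fin n) := ⟨⟨0, hn⟩⟩
  obtain ⟨J, hJ⟩ := Finite.exists_max f
  refine ⟨J, (Finset.sum_le_sum fun I _ => hJ I).trans_eq ?_⟩
  simp

theorem Plk_basis (θ : E n [⋀^Fin p]→ₗ[ℂ] ℂ) (b : OrthonormalBasis (Fin n) ℂ (E n)) :
    ∑ J : Fin p → Fin n, ‖θ fun j => b (J j)‖ ^ 2 = ∑ J : Fin p → Fin n, ‖θ (evs J)‖ ^ 2 := by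
  have h1 : ∀ i i' : Fin n, ∑ a, b a i * conj (b a i') = if i = i' then 1 else 0 := by
    intro i i'
    have h := b.sum_inner_mul_inner (EuclideanSpace.single i 1) (EuclideanSpace.single i' 1)
    simpa [EuclideanSpace.inner_single_left, EuclideanSpace.inner_single_right,
      Pi.single_apply, @eq_comm _ i' i] using h
  have h2 : ∀ I I' : Fin p → Fin n,
      ∑ J : Fin p → Fin n, (∏ j, b (J j) (I j)) * conj (∏ j, b (J j) (I' j)) =
        if I = I' then 1 else 0 := by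
    intro I I'
    simp only [map_prod, ← Finset.prod_mul_distrib]
    rw [← Fintype.piFinset_univ,
      ← Finset.prod_univ_sum (fun _ => Finset.univ) fun j a => b a (I j) * conj (b a (I' j))]
    simp only [h1, Finset.prod_boole, Finset.mem_univ, true_imp_iff, funext_iff]
  refine ofReal_injective ?_
  simp only [ofReal_sum, ofReal_pow, ← mul_conj']
  calc _ = ∑ J : Fin p → Fin n, ∑ I : Fin p → Fin n, ∑ I' : Fin p → Fin n,
        θ (evs I) * conj (θ (evs I')) *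
          ((∏ j, b (J j) (I j)) * conj (∏ j, b (J j) (I' j))) := by
        refine Finset.sum_congr rfl fun J _ => ?_
        rw [alt_expand0, map_sum, Finset.sum_mul_sum]
        refine Finset.sum_congr rfl fun I _ => Finset.sum_congr rfl fun I' _ => ?_
        rw [map_mul]
        ring
    _ = _ := by
        rw [Finset.sum_comm]
        refine Finset.sum_congr rfl fun I _ => ?_
        rw [Finset.sum_comm]
        simp only [← Finset.mul_sum, h2, mul_ite, mul_one, mul_zero, Finset.sum_ite_eq,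
          Finset.mem_univ, if_true]

theorem norm_un {z : E n} (hz : z ≠ 0) : ‖un z‖ = 1 := by
  rw [un, norm_smul, norm_inv, norm_norm, inv_mul_cancel₀ (norm_ne_zero_iff.2 hz)]

theorem prj_un_self {z : E n} (hz : z ≠ 0) : prj (un z) z = 0 := by
  have h : (‖z‖ : ℂ) ≠ 0 := ofReal_ne_zero.2 (norm_ne_zero_iff.2 hz)
  rw [Plk_prj, inner_self_eq_norm_sq_to_K]
  change z - ((‖z‖ : ℂ) ^ 2 / (‖z‖ : ℂ) ^ 2) • z = 0
  rw [div_self (pow_ne_zero 2 h), one_smul, sub_self]

theorem prj_un_smul {c : ℂ} (hc : c ≠ 0) (z : E n) : prj (un (c • z)) = prj (un z) := by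
  refine ContinuousLinearMap.ext fun v => ?_
  have h : (‖c‖ : ℂ) ≠ 0 := ofReal_ne_zero.2 (norm_ne_zero_iff.2 hc)
  rw [Plk_prj, Plk_prj, smul_smul, inner_smul_left, norm_smul, ofReal_mul, mul_pow]
  congr 2
  rw [div_mul_eq_mul_div, mul_right_comm, conj_mul', mul_div_mul_left _ _ (pow_ne_zero 2 h)]

theorem norm_prj_un_le (z v : E n) : ‖prj (un z) v‖ ≤ ‖v‖ := by
  by_cases hz : z = 0
  · rw [Plk_prj, hz, smul_zero, sub_zero]
  · exact norm_prj_le ⟨un z, mem_sphere_zero_iff_norm.2 (norm_un hz)⟩ v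

theorem prj_un_eq_zero_iff {z : E n} (hz : z ≠ 0) (v : E n) :
    prj (un z) v = 0 ↔ ∃ c : ℂ, v = c • z := by
  constructor
  · intro h
    rw [Plk_prj, sub_eq_zero] at h
    exact ⟨_, h⟩
  · rintro ⟨c, rfl⟩
    rw [map_smul, prj_un_self hz, smul_zero]

theorem sub_prj_un (z v : E n) : ∃ c : ℂ, v = prj (un z) v + c • z := by
  exact ⟨_, by rw [Plk_prj, sub_add_cancel]⟩

theorem fsNorm_eq {z : E n} (hz : z ≠ 0) (v : E n) : fsNorm z v = ‖prj (un z) v‖ / ‖z‖ := by
  rw [fsNorm]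
  congr 1
  refine le_antisymm ?_ ((le_infDist ⟨0, Submodule.zero_mem _⟩).2 fun y hy => ?_)
  · rw [Plk_prj, ← dist_eq_norm]
    exact infDist_le_dist_of_mem (Submodule.smul_mem _ _ (Submodule.mem_span_singleton_self z))
  · obtain ⟨c, rfl⟩ := Submodule.mem_span_singleton.1 hy
    have h := norm_prj_un_le z (v - c • z)
    rwa [map_sub, map_smul, prj_un_self hz, smul_zero, sub_zero, ← dist_eq_norm v] at h

theorem norm_plk_cons_le (a : E n) (w : Fin p → E n) :
    ‖plk (Fin.cons a w : Fin (p + 1) → E n)‖ ^ 2 ≤ (p + 1) * ‖a‖ ^ 2 * ‖plk w‖ ^ 2 := by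
  by_cases ha : a = 0
  · have h : plk (Fin.cons a w : Fin (p + 1) → E n) = 0 := by
      by_contra h
      exact ((plk_ne_zero_iff _).1 h).ne_zero 0 ha
    rw [h, norm_zero, zero_pow two_ne_zero]
    positivity
  · rw [norm_plk_cons ha]
    gcongr
    exact norm_plk_prj_le (norm_un ha) w

theorem norm_plk_le (w : Fin p → E n) : ‖plk w‖ ^ 2 ≤ p.factorial * ∏ j, ‖w j‖ ^ 2 := by
  induction p with
  | zero => simp [Plk_zero]
  | succ p ih =>
    have h := norm_plk_cons_le (w 0) (Fin.tail w)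
    rw [Fin.cons_self_tail] at h
    refine h.trans ?_
    rw [Fin.prod_univ_succ, Nat.factorial_succ, Nat.cast_mul, Nat.cast_succ]
    calc _ ≤ (p + 1) * ‖w 0‖ ^ 2 * (p.factorial * ∏ j, ‖Fin.tail w j‖ ^ 2) := by
          gcongr
          exact ih _
      _ = _ := by
          simp only [Fin.tail]
          ring

theorem an_nonneg (θ : (Fin p → E n) → ℂ) : 0 ≤ an θ := by
  exact Real.sqrt_nonneg _

theorem wn_nonneg (p : ℕ) (B : E n →L[ℂ] E m) : 0 ≤ wn p B := by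
  exact Real.sqrt_nonneg _

theorem wn_zero (B : E n →L[ℂ] E m) : wn 0 B = 1 := by
  simp [wn, Plk_zero]

theorem wn_smul (p : ℕ) (c : ℂ) (B : E n →L[ℂ] E m) : wn p (c • B) = ‖c‖ ^ p * wn p B := by
  simp only [wn, _root_.smul_apply, plk_smul, norm_smul, norm_pow, mul_pow]
  rw [← Finset.mul_sum, Real.sqrt_mul (by positivity), Real.sqrt_sq (by positivity)]

theorem le_an (θ : (Fin p → E n) → ℂ) (J : Fin p → Fin n) : ‖θ (evs J)‖ ≤ an θ := by
  exact Real.le_sqrt_of_sq_le (Finset.single_le_sum (f := fun J => ‖θ (evs J)‖ ^ 2)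
    (fun _ _ => by positivity) (Finset.mem_univ J))

theorem le_wn (B : E n →L[ℂ] E m) (J : Fin p → Fin n) :
    ‖plk fun j => B (evs J j)‖ ≤ wn p B := by
  exact Real.le_sqrt_of_sq_le (Finset.single_le_sum
    (f := fun J : Fin p → Fin n => ‖plk fun j => B (evs J j)‖ ^ 2)
    (fun _ _ => by positivity) (Finset.mem_univ J))

theorem exists_wn_le (hn : 0 < n) (B : E n →L[ℂ] E m) : ∃ J : Fin p → Fin n,
    wn p B ^ 2 ≤ n ^ p * ‖plk fun j => B (evs J j)‖ ^ 2 := by
  rw [Plk_wn_sq]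
  exact Plk_max hn _

theorem exists_plk_le (hn : 0 < n) (w : Fin p → E n) :
    ∃ J : Fin p → Fin n, ‖plk w‖ ^ 2 ≤ n ^ p * ‖plk w J‖ ^ 2 := by
  rw [EuclideanSpace.norm_sq_eq]
  exact Plk_max hn _

theorem plk_map_le (B : E n →L[ℂ] E m) (w : Fin p → E n) :
    ‖plk fun j => B (w j)‖ ≤ wn p B * ‖plk w‖ := by
  refine le_of_sq_le_sq ?_ (mul_nonneg (wn_nonneg _ _) (norm_nonneg _))
  choose θ hθ using fun I : Fin p → Fin m => exists_alt_plk I
  rw [mul_pow, Plk_wn_sq, EuclideanSpace.norm_sq_eq (plk fun j => B (w j))]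
  simp only [EuclideanSpace.norm_sq_eq (plk fun j => B (evs _ j))]
  rw [Finset.sum_comm, Finset.sum_mul]
  refine Finset.sum_le_sum fun I _ => ?_
  have h := alt_le ((θ I).compLinearMap (B : E n →ₗ[ℂ] E m)) w
  have h2 := pow_le_pow_left₀ (norm_nonneg _) h 2
  rw [mul_pow, Plk_an_sq] at h2
  simpa only [AlternatingMap.compLinearMap_apply, hθ, ContinuousLinearMap.coe_coe] using h2

theorem wn_comp_le (A : E m →L[ℂ] E k) (B : E n →L[ℂ] E m) :
    wn p (A.comp B) ≤ wn p A * wn p B := by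
  refine le_of_sq_le_sq ?_ (mul_nonneg (wn_nonneg _ _) (wn_nonneg _ _))
  rw [mul_pow, Plk_wn_sq (A.comp B), Plk_wn_sq B, Finset.mul_sum]
  refine Finset.sum_le_sum fun J _ => ?_
  rw [← mul_pow]
  exact pow_le_pow_left₀ (norm_nonneg _) (plk_map_le A _) 2

theorem an_comp_le (θ : E m [⋀^Fin p]→ₗ[ℂ] ℂ) (B : E n →L[ℂ] E m) :
    an (fun w : Fin p → E n => θ fun j => B (w j)) ≤ an θ * wn p B := by
  refine le_of_sq_le_sq ?_ (mul_nonneg (an_nonneg _) (wn_nonneg _ _))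
  rw [mul_pow, Plk_an_sq, Plk_wn_sq B, Finset.mul_sum]
  refine Finset.sum_le_sum fun J _ => ?_
  rw [← mul_pow]
  exact pow_le_pow_left₀ (norm_nonneg _) (alt_le θ _) 2

theorem wn_le (n p : ℕ) : ∃ C : ℝ, 0 < C ∧ ∀ (m : ℕ) (B : E n →L[ℂ] E m),
    wn p B ≤ C * ‖B‖ ^ p := by
  refine ⟨√(n ^ p * p.factorial) + 1, by positivity, fun m B => ?_⟩
  have h1 : wn p B ≤ √(n ^ p * p.factorial) * ‖B‖ ^ p := by
    refine le_of_sq_le_sq ?_ (by positivity)
    rw [Plk_wn_sq, mul_pow, Real.sq_sqrt (by positivity)]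
    have h2 : ∀ J : Fin p → Fin n,
        ‖plk fun j => B (evs J j)‖ ^ 2 ≤ p.factorial * (‖B‖ ^ p) ^ 2 := by
      intro J
      refine (norm_plk_le _).trans (mul_le_mul_of_nonneg_left ?_ (by positivity))
      calc _ ≤ ∏ _j : Fin p, ‖B‖ ^ 2 := by
            refine Finset.prod_le_prod (fun _ _ => by positivity) fun j _ => ?_
            refine pow_le_pow_left₀ (norm_nonneg _) ((B.le_opNorm _).trans_eq ?_) 2
            simp [evs, ev]
        _ = _ := by
            rw [Finset.prod_const, Finset.card_univ, Fintype.card_fin, ← pow_mul, ← pow_mul,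
              mul_comm]
    refine (Finset.sum_le_sum fun J _ => h2 J).trans_eq ?_
    simp [mul_assoc]
  refine h1.trans ?_
  gcongr
  exact le_add_of_nonneg_right zero_le_one

theorem det_le (n p : ℕ) : ∃ C : ℝ, 0 < C ∧ ∀ (ℓ : E n →L[ℂ] E p) (w : Fin p → E n),
    ‖(Matrix.of fun i j => ℓ (w j) i).det‖ ≤ C * ‖ℓ‖ ^ p * ‖plk w‖ := by
  obtain ⟨C, hC, h⟩ := wn_le n p
  refine ⟨C, hC, fun ℓ w => ?_⟩
  obtain ⟨θ, hθ⟩ := exists_alt_det ℓ
  rw [← hθ]
  refine (alt_le θ w).trans (mul_le_mul_of_nonneg_right (le_trans ?_ (h p ℓ)) (norm_nonneg _))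
  refine Real.sqrt_le_sqrt (Finset.sum_le_sum fun J _ => ?_)
  refine pow_le_pow_left₀ (norm_nonneg _) ?_ 2
  rw [hθ]
  exact PiLp.norm_apply_le (plk fun j => ℓ (evs J j)) id

theorem continuous_wn (p : ℕ) : Continuous (wn p : (E n →L[ℂ] E m) → ℝ) := by
  refine Real.continuous_sqrt.comp (continuous_finsetSum _ fun J _ => ?_)
  refine (contDiff_plk.continuous.comp (continuous_pi fun j => ?_)).norm.pow 2
  exact continuous_id.clm_apply continuous_const

/-- The tensor power of a unitary matrix is unitary (`alt_expand0`, `Finset.prod_univ_sum`). -/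
theorem an_isometry (θ : E n [⋀^Fin p]→ₗ[ℂ] ℂ) (U : E n ≃ₗᵢ[ℂ] E n) :
    an (fun w : Fin p → E n => θ fun j => U (w j)) = an θ := by
  have h := Plk_basis θ ((EuclideanSpace.basisFun (Fin n) ℂ).map U)
  simp only [OrthonormalBasis.map_apply, EuclideanSpace.basisFun_apply] at h
  exact congrArg Real.sqrt h

/-- The norm can be computed in any orthonormal basis. -/
theorem wn_sq_basis (B : E n →L[ℂ] E m) (b : OrthonormalBasis (Fin n) ℂ (E n)) :
    wn p B ^ 2 = ∑ J : Fin p → Fin n, ‖plk fun j => B (b (J j))‖ ^ 2 := by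
  choose θ hθ using fun I : Fin p → Fin m => exists_alt_plk I
  rw [Plk_wn_sq]
  simp only [EuclideanSpace.norm_sq_eq (plk _)]
  rw [Finset.sum_comm, Finset.sum_comm (γ := Fin p → Fin n)]
  refine Finset.sum_congr rfl fun I _ => ?_
  have h := Plk_basis ((θ I).compLinearMap (B : E n →ₗ[ℂ] E m)) b
  simpa only [AlternatingMap.compLinearMap_apply, hθ, ContinuousLinearMap.coe_coe] using h.symm

theorem an_sq_basis (θ : E n [⋀^Fin p]→ₗ[ℂ] ℂ) (b : OrthonormalBasis (Fin n) ℂ (E n)) :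
    an θ ^ 2 = ∑ J : Fin p → Fin n, ‖θ fun j => b (J j)‖ ^ 2 := by
  rw [Plk_an_sq, Plk_basis]

end Pool.Agent.Lib.MP_a47f92_an
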