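import Pool.Agent.Lib.MP_a47f92_an.G.Kern
import Pool.Agent.Lib.MP_a47f92_an.G.Plk
import Pool.Agent.Lib.MP_a47f92_an.Sm3
import Pool.Agent.Lib.MP_a47f92_an.Pair

set_option autoImplicit false
set_option linter.unusedSectionVars false

namespace Pool.Agent.Lib.MP_a47f92_an

open MeasureTheory Filter Topology Set Complex Metric Function
open scoped ContDiff ComplexConjugate ComplexOrder Matrix ENNReal NNReal

/-! Matrices as points of a Euclidean space. -/

variable {n m p : ℕ}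

theorem mt_apply (A : E (m * n)) (z : E n) (i : Fin m) :
    mt m n A z i = ∑ j, A (finProdFinEquiv (i, j)) * z j := rfl

theorem Mt_ev_apply (j i : Fin n) : ev j i = if i = j then 1 else 0 := by
  simp [ev]

theorem Mt_col (A : E (m * n)) (j : Fin n) (i : Fin m) :
    mt m n A (ev j) i = A (finProdFinEquiv (i, j)) := by
  simp [mt_apply, Mt_ev_apply]

theorem Mt_norm_sq (A : E (m * n)) :
    ‖A‖ ^ 2 = ∑ i, ∑ j, ‖A (finProdFinEquiv (i, j))‖ ^ 2 := by
  rw [EuclideanSpace.norm_sq_eq, ← finProdFinEquiv.sum_comp, Fintype.sum_prod_type]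

theorem norm_sq_mt (A : E (m * n)) : ‖A‖ ^ 2 = ∑ j, ‖mt m n A (ev j)‖ ^ 2 := by
  rw [Mt_norm_sq, Finset.sum_comm]
  refine Finset.sum_congr rfl fun j _ => ?_
  rw [EuclideanSpace.norm_sq_eq]
  simp only [Mt_col]

theorem norm_mt_le (A : E (m * n)) : ‖mt m n A‖ ≤ ‖A‖ := by
  refine ContinuousLinearMap.opNorm_le_bound _ (norm_nonneg _) fun z => ?_
  refine abs_le_of_sq_le_sq' ?_ (by positivity) |>.2
  rw [mul_pow, Mt_norm_sq, EuclideanSpace.norm_sq_eq, EuclideanSpace.norm_sq_eq, Finset.sum_mul]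
  refine Finset.sum_le_sum fun i _ => ?_
  rw [mt_apply]
  refine le_trans ?_ (Finset.sum_mul_sq_le_sq_mul_sq _ _ _)
  refine pow_le_pow_left₀ (norm_nonneg _) ((norm_sum_le _ _).trans (le_of_eq ?_)) 2
  simp only [norm_mul]

theorem exists_mt (T : E n →L[ℂ] E m) : ∃ A, mt m n A = T ∧ ‖A‖ ^ 2 ≤ n * ‖T‖ ^ 2 := by
  have h : mt m n (WithLp.toLp 2 fun a =>
      T (ev (finProdFinEquiv.symm a).2) (finProdFinEquiv.symm a).1) = T := by
    ext z i
    conv_rhs => rw [← sum_ev z]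
    simp only [mt_apply, Equiv.symm_apply_apply]
    simp [mul_comm]
  refine ⟨_, h, ?_⟩
  rw [norm_sq_mt, h]
  calc ∑ j, ‖T (ev j)‖ ^ 2 ≤ ∑ _j : Fin n, ‖T‖ ^ 2 := Finset.sum_le_sum fun j _ => by
        refine pow_le_pow_left₀ (norm_nonneg _) ((T.le_opNorm _).trans (le_of_eq ?_)) 2
        simp [ev]
    _ = n * ‖T‖ ^ 2 := by simp

theorem exists_mt_rank_one (u : E m) (v : E n) :
    ∃ A, (∀ z, mt m n A z = inner ℂ v z • u) ∧ ‖A‖ = ‖u‖ * ‖v‖ := by
  refine ⟨WithLp.toLp 2 fun a => u (finProdFinEquiv.symm a).1 * conj (v (finProdFinEquiv.symm a).2),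
    fun z => ?_, ?_⟩
  · ext i
    simp only [mt_apply, Equiv.symm_apply_apply, PiLp.smul_apply, PiLp.inner_apply, smul_eq_mul,
      Finset.sum_mul, RCLike.inner_apply]
    exact Finset.sum_congr rfl fun j _ => by ring
  · refine (pow_left_inj₀ (norm_nonneg _) (by positivity) two_ne_zero).1 ?_
    rw [Mt_norm_sq, mul_pow, EuclideanSpace.norm_sq_eq, EuclideanSpace.norm_sq_eq,
      Finset.sum_mul_sum]
    simp [mul_pow]

theorem mt_ev (i : Fin m) (j : Fin n) (z : E n) :
    mt m n (ev (finProdFinEquiv (i, j))) z = z j • ev i := by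
  ext a
  by_cases h : a = i <;> simp [mt_apply, Mt_ev_apply, h]

theorem sum_mt_ev (θ : E n [⋀^Fin (p + 1)]→ₗ[ℂ] ℂ) (z : E n) (w : Fin p → E n) :
    ∑ a : Fin (n * n), ‖θ (Fin.cons (mt n n (ev a) z) w)‖ ^ 2 =
      ‖z‖ ^ 2 * ∑ i, ‖θ (Fin.cons (ev i) w)‖ ^ 2 := by
  rw [← finProdFinEquiv.sum_comp, Fintype.sum_prod_type, Finset.mul_sum]
  refine Finset.sum_congr rfl fun i _ => ?_
  rw [EuclideanSpace.norm_sq_eq, Finset.sum_mul]
  refine Finset.sum_congr rfl fun j _ => ?_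
  have h : θ (Fin.cons (z j • ev i) w) = z j • θ (Fin.cons (ev i) w) :=
    θ.toMultilinearMap.cons_smul w (z j) (ev i)
  rw [mt_ev, h, norm_smul, mul_pow]

theorem Tm_apply (t : ℂ) (A : E (n * n)) (z : E n) : Tm t A z = z + t • mt n n A z := rfl

theorem Tm_zero (A : E (n * n)) : Tm 0 A = ContinuousLinearMap.id ℂ (E n) := by
  ext1 z
  rw [Tm_apply, zero_smul, add_zero]
  rfl

theorem continuous_Tm : Continuous fun y : ℂ × E (n * n) => Tm y.1 y.2 :=
  continuous_const.add (continuous_fst.smul ((mt n n).continuous.comp continuous_snd))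

theorem norm_Tm_sub (t : ℂ) (A : E (n * n)) :
    ‖Tm t A - ContinuousLinearMap.id ℂ (E n)‖ ≤ ‖t‖ * ‖A‖ := by
  rw [Tm, add_sub_cancel_left, norm_smul]
  exact mul_le_mul_of_nonneg_left (norm_mt_le A) (norm_nonneg _)

theorem Mt_sub (t : ℂ) (A : E (n * n)) (z : E n) : ‖Tm t A z - z‖ ≤ ‖t‖ * ‖A‖ * ‖z‖ :=
  ((Tm t A - ContinuousLinearMap.id ℂ (E n)).le_opNorm z).trans
    (mul_le_mul_of_nonneg_right (norm_Tm_sub t A) (norm_nonneg _))

theorem norm_Tm {t : ℂ} {A : E (n * n)} (ht : ‖t‖ ≤ 1 / 2) (hA : ‖A‖ ≤ 1) (z : E n) :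
    ‖z‖ ≤ 2 * ‖Tm t A z‖ ∧ ‖Tm t A z‖ ≤ 2 * ‖z‖ ∧ ‖Tm t A‖ ≤ 2 := by
  have h0 : ‖t‖ * ‖A‖ ≤ 1 / 2 := (mul_le_of_le_one_right (norm_nonneg _) hA).trans ht
  have h : ∀ z, ‖z‖ ≤ 2 * ‖Tm t A z‖ ∧ ‖Tm t A z‖ ≤ 2 * ‖z‖ := fun z => by
    have h1 := (Mt_sub t A z).trans (mul_le_mul_of_nonneg_right h0 (norm_nonneg _))
    have h2 := abs_le.1 ((abs_norm_sub_norm_le _ _).trans h1)
    have h3 := norm_nonneg z
    constructor <;> linarith [h2.1, h2.2]
  exact ⟨(h z).1, (h z).2, ContinuousLinearMap.opNorm_le_bound _ two_pos.le fun z => (h z).2⟩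

theorem Tm_mem_nb {t : ℂ} {A : E (n * n)} {r : ℝ} (ht : ‖t‖ ≤ r) (hr : r ≤ 1 / 2) (hA : ‖A‖ ≤ 1)
    {K : Set (E n)} {z : E n} (hz : z ∈ K) : Tm t A z ∈ nb (2 * r) K := by
  refine ⟨z, hz, ?_⟩
  have h0 : ‖t‖ * ‖A‖ ≤ r := (mul_le_of_le_one_right (norm_nonneg _) hA).trans ht
  have h1 := (Mt_sub t A z).trans (mul_le_mul_of_nonneg_right h0 (norm_nonneg _))
  have h2 := mul_le_mul_of_nonneg_left (norm_Tm (ht.trans hr) hA z).1 ((norm_nonneg _).trans ht)
  rw [norm_sub_rev]
  linarith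

theorem ne_zero_of_near {T : E n →L[ℂ] E n} (h : ‖T - ContinuousLinearMap.id ℂ (E n)‖ < 1)
    (z : E n) (hz : T z = 0) : z = 0 := by
  by_contra h0
  have h1 := (T - ContinuousLinearMap.id ℂ (E n)).le_opNorm z
  have h2 : (T - ContinuousLinearMap.id ℂ (E n)) z = -z := by simp [hz]
  rw [h2, norm_neg] at h1
  nlinarith [norm_pos_iff.2 h0]

/-- The matrix `A (1 - z z^*) + u z^*`. -/
noncomputable def sw (z : E n) (A : E (n * n)) (u : E n) : E (n * n) :=
  A + WithLp.toLp 2 fun a =>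
    (u - mt n n A z) (finProdFinEquiv.symm a).1 * conj (z (finProdFinEquiv.symm a).2)

theorem mt_sw (z : E n) (A : E (n * n)) (u v : E n) :
    mt n n (sw z A u) v = mt n n A v + inner ℂ z v • (u - mt n n A z) := by
  rw [sw, map_add, add_apply]
  congr 1
  generalize u - mt n n A z = y
  ext i
  simp only [mt_apply, Equiv.symm_apply_apply, PiLp.smul_apply, PiLp.inner_apply, smul_eq_mul,
    Finset.sum_mul, RCLike.inner_apply]
  exact Finset.sum_congr rfl fun j _ => by ring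

theorem continuous_sw : Continuous fun y : E n × E (n * n) × E n => sw y.1 y.2.1 y.2.2 := by
  have h : Continuous fun y : E n × E (n * n) × E n => y.2.2 - mt n n y.2.1 y.1 :=
    continuous_snd.snd.sub (((mt n n).continuous.comp continuous_snd.fst).clm_apply continuous_fst)
  refine continuous_snd.fst.add ((PiLp.continuous_toLp 2 _).comp (continuous_pi fun a => ?_))
  exact ((EuclideanSpace.proj _).continuous.comp h).mul
    (Complex.continuous_conj.comp ((EuclideanSpace.proj _).continuous.comp continuous_fst))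

theorem Mt_inner {z : E n} (hz : ‖z‖ = 1) : inner ℂ z z = 1 := by
  rw [inner_self_eq_norm_sq_to_K, hz]
  simp

theorem Mt_inj {A B : E (m * n)} (h : ∀ v, mt m n A v = mt m n B v) : A = B := by
  ext a
  obtain ⟨⟨i, j⟩, rfl⟩ := finProdFinEquiv.surjective a
  rw [← Mt_col, ← Mt_col, h]

theorem norm_sw {z : E n} (hz : ‖z‖ = 1) (A : E (n * n)) (u : E n) :
    ‖sw z A u‖ ^ 2 + ‖mt n n A z‖ ^ 2 = ‖A‖ ^ 2 + ‖u‖ ^ 2 := by
  obtain ⟨R, hR, hR'⟩ := exists_mt_rank_one (u - mt n n A z) z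
  have h1 : sw z A u = A + R := Mt_inj fun v => by
    rw [mt_sw, map_add, add_apply, hR]
  have h2 : inner ℂ R A = inner ℂ (u - mt n n A z) (mt n n A z) := by
    generalize u - mt n n A z = y at hR
    rw [PiLp.inner_apply, PiLp.inner_apply, ← finProdFinEquiv.sum_comp, Fintype.sum_prod_type]
    refine Finset.sum_congr rfl fun i _ => ?_
    rw [mt_apply, RCLike.inner_apply, Finset.sum_mul]
    refine Finset.sum_congr rfl fun j _ => ?_
    rw [← Mt_col R, hR, RCLike.inner_apply]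
    simp [ev, EuclideanSpace.inner_single_left]
    ring
  have h3 := norm_add_sq (𝕜 := ℂ) R A
  have h4 := norm_add_sq (𝕜 := ℂ) (u - mt n n A z) (mt n n A z)
  rw [h2, hR', hz, mul_one] at h3
  rw [sub_add_cancel] at h4
  rw [h1, add_comm A R]
  linarith

/-- A real linear involution has determinant `± 1`
(`Measure.map_linearMap_addHaar_eq_smul_addHaar`). -/
theorem measurePreserving_sw {z : E n} (hz : ‖z‖ = 1) :
    MeasurePreserving (fun y : E (n * n) × E n => (sw z y.1 y.2, mt n n y.1 z))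
      (volume.prod volume) (volume.prod volume) := by
  let f : (E (n * n) × E n) →ₗ[ℝ] (E (n * n) × E n) :=
    { toFun := fun y => (sw z y.1 y.2, mt n n y.1 z)
      map_add' := fun x y => Prod.ext (Mt_inj fun v => by
          simp only [Prod.fst_add, Prod.snd_add, map_add, add_apply, mt_sw]
          module) (by simp)
      map_smul' := fun c x => Prod.ext (Mt_inj fun v => by
          simp only [Prod.smul_fst, Prod.smul_snd, RingHom.id_apply, ← Complex.coe_smul, map_smul,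
            smul_apply, mt_sw]
          module) (by
          simp only [Prod.smul_fst, Prod.smul_snd, RingHom.id_apply, ← Complex.coe_smul, map_smul,
            smul_apply]) }
  have h2 : ∀ (A : E (n * n)) (u : E n), mt n n (sw z A u) z = u := fun A u => by
    rw [mt_sw, Mt_inner hz, one_smul, add_sub_cancel]
  have hf : f ∘ₗ f = LinearMap.id := LinearMap.ext fun y => Prod.ext (Mt_inj fun v => by
    change mt n n (sw z (sw z y.1 y.2) (mt n n y.1 z)) v = mt n n y.1 v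
    rw [mt_sw, h2, mt_sw]
    module) (h2 _ _)
  have hd : LinearMap.det f * LinearMap.det f = 1 := by
    rw [← LinearMap.det_comp, hf, LinearMap.det_id]
  have hd0 : LinearMap.det f ≠ 0 := left_ne_zero_of_mul_eq_one hd
  have hd1 : |(LinearMap.det f)⁻¹| = 1 := by
    rcases mul_self_eq_one_iff.1 hd with h | h <;> simp [h]
  refine ⟨f.continuous_of_finiteDimensional.measurable, ?_⟩
  have i : ((volume : Measure (E (n * n))).prod (volume : Measure (E n))).IsAddHaarMeasure :=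
    Measure.prod.instIsAddHaarMeasure _ _
  have := Measure.map_linearMap_addHaar_eq_smul_addHaar
    ((volume : Measure (E (n * n))).prod (volume : Measure (E n))) hd0
  rwa [hd1, ENNReal.ofReal_one, one_smul] at this

instance ub_prob (N : ℕ) : IsProbabilityMeasure (ub N) := ⟨by
  rw [ub, Measure.smul_apply, Measure.restrict_apply_univ, smul_eq_mul,
    ENNReal.inv_mul_cancel (measure_ball_pos _ _ one_pos).ne' measure_ball_lt_top.ne]⟩

theorem ub_ae (N : ℕ) : ∀ᵐ A ∂ub N, ‖A‖ < 1 :=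
  Measure.ae_smul_measure ((ae_restrict_mem measurableSet_ball).mono fun _ h =>
    mem_ball_zero_iff.1 h) _

instance kmu_prob (κ : KM n) : IsProbabilityMeasure (kmu κ) := ⟨by
  rw [kmu, withDensity_apply _ MeasurableSet.univ, Measure.restrict_univ,
    ← ofReal_integral_eq_lintegral_ofReal (κ.sk.continuous.integrable_of_hasCompactSupport κ.hcs_k)
      (Eventually.of_forall κ.k_nonneg), κ.int, ENNReal.ofReal_one]⟩

theorem kmu_ae (κ : KM n) : ∀ᵐ A ∂kmu κ, ‖A‖ < 1 := by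
  rw [kmu, ae_withDensity_iff κ.sk.continuous.measurable.ennreal_ofReal]
  refine Eventually.of_forall fun A h => lt_of_not_ge fun h1 => h ?_
  rw [(κ.zero A h1).1, ENNReal.ofReal_zero]

theorem kmu_le (κ : KM n) : ∃ C : ℝ≥0, kmu κ ≤ C • ub (n * n) := by
  obtain ⟨C, -, hC⟩ := κ.bound
  have h0 : volume (ball (0 : E (n * n)) 1) ≠ 0 := (measure_ball_pos _ _ one_pos).ne'
  have h1 : volume (ball (0 : E (n * n)) 1) ≠ ⊤ := measure_ball_lt_top.ne
  refine ⟨C.toNNReal * (volume (ball (0 : E (n * n)) 1)).toNNReal,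
    Measure.le_iff.2 fun s hs => ?_⟩
  rw [kmu, withDensity_apply _ hs, ub, Measure.coe_nnreal_smul_apply, Measure.smul_apply,
    smul_eq_mul, ENNReal.coe_mul, ENNReal.coe_toNNReal h1, mul_assoc, ← mul_assoc (volume _),
    ENNReal.mul_inv_cancel h0 h1, one_mul, Measure.restrict_apply hs, inter_comm,
    ← Measure.restrict_apply measurableSet_ball, ← lintegral_indicator_const measurableSet_ball]
  refine lintegral_mono fun A => ?_
  by_cases hA : A ∈ ball (0 : E (n * n)) 1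
  · rw [indicator_of_mem hA]
    exact ENNReal.ofReal_le_ofReal (hC A).1
  · rw [(κ.zero A (by simpa using hA)).1, ENNReal.ofReal_zero]
    exact zero_le

theorem integral_kmu (κ : KM n) {Y : Type} [NormedAddCommGroup Y] [NormedSpace ℝ Y]
    (f : E (n * n) → Y) : ∫ A, f A ∂kmu κ = ∫ A, κ.k A • f A := by
  rw [kmu, integral_withDensity_eq_integral_toReal_smul κ.sk.continuous.measurable.ennreal_ofReal
    (Eventually.of_forall fun _ => ENNReal.ofReal_lt_top)]
  simp only [ENNReal.toReal_ofReal (κ.k_nonneg _)]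

theorem Mt_meas (κ : KM n) :
    Measurable fun y : ℝ × E (n * n) => ENNReal.ofReal (2 * y.1 * κ.G y.2) :=
  ((continuous_const.mul continuous_fst).mul
    (κ.sG.continuous.comp continuous_snd)).measurable.ennreal_ofReal

theorem Mt_ae (r : ℝ) : ∀ᵐ y ∂((volume.restrict (Ioo 0 r)).prod (volume : Measure (E (n * n)))),
    y.1 ∈ Ioo (0 : ℝ) r :=
  Measure.quasiMeasurePreserving_fst.ae (ae_restrict_mem measurableSet_Ioo)

instance hmu_fin (κ : KM n) (r : ℝ) : IsFiniteMeasure (hmu κ r) := by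
  refine isFiniteMeasure_withDensity (ne_top_of_le_ne_top ?_ (lintegral_mono_ae (g := fun y =>
    ENNReal.ofReal (2 * |r|) * ENNReal.ofReal (κ.G y.2)) ((Mt_ae r).mono fun y hy => ?_)))
  · rw [lintegral_prod_mul (f := fun _ => ENNReal.ofReal (2 * |r|))
      (g := fun A => ENNReal.ofReal (κ.G A)) aemeasurable_const
      κ.sG.continuous.measurable.ennreal_ofReal.aemeasurable]
    refine ENNReal.mul_ne_top (by simp [ENNReal.mul_ne_top]) ?_
    exact (κ.sG.continuous.integrable_of_hasCompactSupport κ.hcs_G).lintegral_lt_top.ne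
  · rw [← ENNReal.ofReal_mul (by positivity)]
    refine ENNReal.ofReal_le_ofReal (mul_le_mul_of_nonneg_right ?_ (κ.G_nonneg _))
    linarith [hy.2, le_abs_self r]

theorem hmu_ae (κ : KM n) (r : ℝ) : ∀ᵐ y ∂hmu κ r, 0 < y.1 ∧ y.1 < r ∧ ‖y.2‖ < 1 := by
  rw [hmu, ae_withDensity_iff (Mt_meas κ)]
  refine (Mt_ae r).mono fun y hy h => ⟨hy.1, hy.2, lt_of_not_ge fun h1 => h ?_⟩
  rw [(κ.zero _ h1).2, mul_zero, ENNReal.ofReal_zero]

theorem hmu_mono (κ : KM n) {r r' : ℝ} (h : r' ≤ r) : hmu κ r' ≤ hmu κ r := by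
  refine Measure.le_iff.2 fun s hs => ?_
  rw [hmu, hmu, withDensity_apply _ hs, withDensity_apply _ hs]
  refine lintegral_mono' (Measure.restrict_mono subset_rfl ?_) le_rfl
  rw [Measure.restrict_prod_eq_prod_univ, Measure.restrict_prod_eq_prod_univ]
  exact Measure.restrict_mono (prod_mono (Ioo_subset_Ioo_right h) subset_rfl) le_rfl

end Pool.Agent.Lib.MP_a47f92_an
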