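import Pool.Agent.Lib.MP_a47f92_an.G.SOS
import Pool.Agent.Lib.MP_a47f92_an.G.Mt
import Pool.Agent.Lib.MP_a47f92_an.Ball

set_option autoImplicit false
set_option linter.unusedSectionVars false

namespace Pool.Agent.Lib.MP_a47f92_an

open MeasureTheory Filter Topology Set Complex Metric Function
open scoped ContDiff ComplexConjugate ComplexOrder Matrix ENNReal NNReal

/-! Anticoncentration of holomorphic maps. -/

theorem AC_integral {N : ℕ} (f : E N → ℝ) :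
    ∫ a, f a ∂ub N = (volume.real (ball (0 : E N) 1))⁻¹ * ∫ a in ball 0 1, f a := by
  rw [ub, integral_smul_measure, ENNReal.toReal_inv, smul_eq_mul]
  rfl

theorem AC_integrable {N : ℕ} {f : E N → ℝ} (hf : Continuous f) : Integrable f (ub N) :=
  Integrable.smul_measure ((hf.continuousOn.integrableOn_compact
    (isCompact_closedBall 0 1)).mono_set ball_subset_closedBall)
    (ENNReal.inv_ne_top.2 (measure_ball_pos _ _ one_pos).ne')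

theorem AC_vol (N : ℕ) {r : ℝ} (hr : 0 < r) :
    volume.real (ball (0 : E N) r) = r ^ (2 * N) * volume.real (ball (0 : E N) 1) := by
  rw [Measure.real, Measure.addHaar_ball_of_pos _ _ hr, finrank_real_of_complex,
    finrank_euclideanSpace_fin, ENNReal.toReal_mul, ENNReal.toReal_ofReal (by positivity)]
  rfl

theorem AC_psh {N : ℕ} {u : E N → ℝ} {R U : ℝ} {a : E N} (hR : 0 ≤ R)
    (hu : ContDiffOn ℝ ∞ u univ) (hl : ∀ y ∈ (univ : Set (E N)), ∀ v, 0 ≤ levi u y v)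
    (hU : ∀ y, ‖y‖ ≤ 2 * R + 1 → u y ≤ U) (ha : ‖a‖ ≤ R) :
    ∫ y, (U - u y) ∂ub N ≤ (R + 1) ^ (2 * N) * (U - u a) := by
  have hr : 0 < R + 1 := by linarith
  have hs : ball (0 : E N) 1 ⊆ ball a (R + 1) :=
    ball_subset_ball' (by rw [dist_zero_left]; linarith)
  have hi : IntegrableOn u (ball a (R + 1)) :=
    ((hu.continuousOn.mono (subset_univ _)).integrableOn_compact
      (isCompact_closedBall _ _)).mono_set ball_subset_closedBall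
  have h1 := submean isOpen_univ hu hl hr (subset_univ (closedBall a (R + 1)))
  have h2 : ∫ y in ball (0 : E N) 1, (U - u y) ≤ ∫ y in ball a (R + 1), (U - u y) :=
    setIntegral_mono_set ((Ball_intconst U a (R + 1)).sub hi)
      ((ae_restrict_mem measurableSet_ball).mono fun y hy => sub_nonneg.2 (hU y (by
        rw [mem_ball_iff_norm] at hy
        linarith [norm_le_norm_add_norm_sub' y a]))) hs.eventuallyLE
  rw [integral_sub (Ball_intconst U a (R + 1)) hi, Ball_const, Ball_avg hr] at h2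
  have h4 := Ball_pos (0 : E N) one_pos
  rw [AC_integral, inv_mul_le_iff₀ h4]
  refine h2.trans ?_
  rw [← mul_sub, AC_vol N hr, mul_comm _ (volume.real _), mul_assoc]
  gcongr

section

variable {N : ℕ} {s : E N → ℝ} {a : E N} {R C c κ : ℝ}

theorem AC_nonneg (h : SOS univ s) (y : E N) : 0 ≤ s y := by
  obtain ⟨_, f, -, hf⟩ := h
  rw [hf y (mem_univ y)]
  positivity

theorem AC_aux (hR : 0 ≤ R) (h : SOS univ s) (hb : ∀ y, ‖y‖ ≤ 2 * R + 1 → s y ≤ C * c)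
    (ha : ‖a‖ ≤ R) (hc : c ≤ s a) (hC : 1 ≤ C) (h0 : 0 ≤ c) (hκ : 0 < κ) :
    Integrable (fun y => Real.log (s y + κ) / 2) (ub N) ∧
      (∀ y, ‖y‖ ≤ 2 * R + 1 → Real.log (s y + κ) / 2 ≤ (Real.log (c + κ) + Real.log C) / 2) ∧
      ∫ y, ((Real.log (c + κ) + Real.log C) / 2 - Real.log (s y + κ) / 2) ∂ub N ≤
        (R + 1) ^ (2 * N) * (Real.log C / 2) := by
  have h1 : SOS univ fun y => s y + κ := h.add (sos_const hκ.le)
  have hs : ∀ y ∈ (univ : Set (E N)), 0 < s y + κ := fun y _ =>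
    add_pos_of_nonneg_of_pos (AC_nonneg h y) hκ
  have h2 := h1.log_smooth hs
  have h3 : ∀ y, ‖y‖ ≤ 2 * R + 1 →
      Real.log (s y + κ) / 2 ≤ (Real.log (c + κ) + Real.log C) / 2 := fun y hy => by
    rw [← Real.log_mul (by positivity) (by positivity)]
    refine div_le_div_of_nonneg_right (Real.log_le_log (hs y (mem_univ y)) ?_) zero_le_two
    nlinarith [hb y hy, mul_le_mul_of_nonneg_left hC hκ.le]
  refine ⟨AC_integrable (continuousOn_univ.1 h2.continuousOn), h3,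
    (AC_psh hR h2 (fun y hy v => ?_) h3 ha).trans ?_⟩
  · rw [← lap_eq_levi ((h2.contDiffAt univ_mem).of_le Chain_two)]
    exact h1.log_psh isOpen_univ hs hy v
  · have : Real.log (c + κ) ≤ Real.log (s a + κ) := Real.log_le_log (by positivity) (by linarith)
    exact mul_le_mul_of_nonneg_left (by linarith) (by positivity)

theorem AC_log (hR : 0 ≤ R) (h : SOS univ s) (hb : ∀ y, ‖y‖ ≤ 2 * R + 1 → s y ≤ C * c)
    (ha : ‖a‖ ≤ R) (hc : c ≤ s a) (hC : 1 ≤ C) (h0 : 0 ≤ c) (hκ : 0 < κ) :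
    Real.log (c + κ) / 2 - (R + 1) ^ (2 * N) * (Real.log C / 2) ≤
      ∫ y, Real.log (s y + κ) / 2 ∂ub N := by
  obtain ⟨h1, -, h3⟩ := AC_aux hR h hb ha hc hC h0 hκ
  rw [integral_sub (integrable_const _) h1, integral_const, probReal_univ, one_smul] at h3
  linarith [Real.log_nonneg hC]

theorem AC_small (hR : 0 ≤ R) (h : SOS univ s) (hb : ∀ y, ‖y‖ ≤ 2 * R + 1 → s y ≤ C * c)
    (ha : ‖a‖ ≤ R) (hc : c ≤ s a) (hC : 1 ≤ C) (h0 : 0 < c) {δ : ℝ} (hδ : 0 < δ)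
    (hδ' : 2 * δ < 1) :
    (ub N).real {y | s y ≤ δ * c} ≤ (R + 1) ^ (2 * N) * Real.log C / Real.log (2 * δ)⁻¹ := by
  have hκ : 0 < δ * c := mul_pos hδ h0
  obtain ⟨h1, h2, h3⟩ := AC_aux hR h hb ha hc hC h0.le hκ
  have hL : 0 < Real.log (2 * δ)⁻¹ := Real.log_pos ((one_lt_inv₀ (by positivity)).2 hδ')
  have h4 := mul_meas_ge_le_integral_of_nonneg (μ := ub N)
    (f := fun y => (Real.log (c + δ * c) + Real.log C) / 2 - Real.log (s y + δ * c) / 2)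
    ((ub_ae N).mono fun y hy => sub_nonneg.2 (h2 y (by linarith))) ((integrable_const _).sub h1)
    (Real.log (2 * δ)⁻¹ / 2)
  have h5 : (ub N).real {y | s y ≤ δ * c} ≤ (ub N).real {y | Real.log (2 * δ)⁻¹ / 2 ≤
      (Real.log (c + δ * c) + Real.log C) / 2 - Real.log (s y + δ * c) / 2} := by
    refine measureReal_mono fun y (hs : s y ≤ δ * c) => ?_
    have hp : 0 < s y + δ * c := add_pos_of_nonneg_of_pos (AC_nonneg h y) hκ
    have e1 : Real.log (s y + δ * c) ≤ Real.log (2 * δ * c) := Real.log_le_log hp (by linarith)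
    have e2 : Real.log c ≤ Real.log (c + δ * c) := Real.log_le_log h0 (by linarith)
    rw [Real.log_mul (by positivity) h0.ne'] at e1
    have e3 := Real.log_nonneg hC
    change Real.log (2 * δ)⁻¹ / 2 ≤ _
    rw [Real.log_inv]
    linarith
  rw [le_div_iff₀ hL]
  nlinarith

end

theorem AC_eps (N : ℕ) {R C : ℝ} (hR : 0 ≤ R) (hC : 1 ≤ C) {ε : ℝ≥0∞} (hε : ε ≠ 0) :
    ∃ δ : ℝ, 0 < δ ∧ δ ≤ 1 ∧ ∀ (s : E N → ℝ) (c : ℝ) (a : E N), SOS univ s →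
      (∀ y, ‖y‖ ≤ 2 * R + 1 → s y ≤ C * c) → ‖a‖ ≤ R → c ≤ s a → 0 < c →
      ub N {y | s y ≤ δ * c} ≤ ε := by
  obtain ⟨e, he, he'⟩ : ∃ e : ℝ, 0 < e ∧ ENNReal.ofReal e ≤ ε := by
    obtain ⟨e, h1, h2⟩ := ENNReal.lt_iff_exists_nnreal_btwn.1 (pos_iff_ne_zero.2 hε)
    exact ⟨e, by exact_mod_cast h1, by rw [ENNReal.ofReal_coe_nnreal]; exact h2.le⟩
  have hl := Real.log_nonneg hC
  set T := (R + 1) ^ (2 * N) * Real.log C / e + 1 with hT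
  have hT0 : 0 < T := by positivity
  have h1 : Real.exp (-T) < 1 := Real.exp_lt_one_iff.2 (by linarith)
  have h0 := Real.exp_pos (-T)
  refine ⟨Real.exp (-T) / 2, by positivity, by linarith, fun s c a h hb ha hc hc0 => ?_⟩
  have h2 := AC_small hR h hb ha hc hC hc0 (half_pos h0) (by linarith)
  rw [mul_div_cancel₀ _ two_ne_zero, Real.log_inv, Real.log_exp, neg_neg] at h2
  rw [← ofReal_measureReal]
  refine (ENNReal.ofReal_le_ofReal (h2.trans ?_)).trans he'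
  rw [div_le_iff₀ hT0, hT, mul_add, mul_div_cancel₀ _ he.ne']
  linarith

theorem AC_logG (N : ℕ) {R C₁ : ℝ} (hR : 0 ≤ R) (hC : 1 ≤ C₁) : ∃ C : ℝ, 0 ≤ C ∧
    ∀ (g : E N → ℝ) (c κ : ℝ) (a : E N), SOS univ (fun y => g y ^ 2) → (∀ y, 0 ≤ g y) → 0 ≤ c →
      0 < κ → ‖a‖ ≤ R → c ≤ g a → (∀ y, ‖y‖ ≤ 2 * R + 1 → g y ≤ C₁ * c) →
      Real.log (c ^ 2 + κ ^ 2) / 2 - C ≤ ∫ y, Real.log (g y ^ 2 + κ ^ 2) / 2 ∂ub N := by
  have h1 : 1 ≤ C₁ ^ 2 := one_le_pow₀ hC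
  have h2 := Real.log_nonneg h1
  refine ⟨(R + 1) ^ (2 * N) * (Real.log (C₁ ^ 2) / 2), by positivity,
    fun g c κ a hg h0 hc hκ ha h3 h4 => ?_⟩
  refine AC_log hR hg (fun y hy => ?_) ha (pow_le_pow_left₀ hc h3 2) h1 (by positivity)
    (by positivity)
  rw [← mul_pow]
  exact pow_le_pow_left₀ (h0 y) (h4 y hy) 2

theorem AC_probG (N : ℕ) {R C₁ : ℝ} (hR : 0 ≤ R) (hC : 1 ≤ C₁) {ε : ℝ≥0∞} (hε : ε ≠ 0) :
    ∃ δ : ℝ, 0 < δ ∧ δ ≤ 1 ∧
    ∀ (g : E N → ℝ) (c : ℝ) (a : E N), SOS univ (fun y => g y ^ 2) → (∀ y, 0 ≤ g y) → 0 < c →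
      ‖a‖ ≤ R → c ≤ g a → (∀ y, ‖y‖ ≤ 2 * R + 1 → g y ≤ C₁ * c) →
      ub N {y | g y ≤ δ * c} ≤ ε := by
  obtain ⟨δ, h0, h1, h⟩ := AC_eps N hR (one_le_pow₀ hC : 1 ≤ C₁ ^ 2) hε
  refine ⟨δ, h0, h1, fun g c a hg hg0 hc ha h3 h4 => ?_⟩
  refine le_trans (measure_mono fun y (hy : g y ≤ δ * c) => ?_)
    (h _ (c ^ 2) a hg (fun y hy => ?_) ha (pow_le_pow_left₀ hc.le h3 2) (by positivity))
  · change g y ^ 2 ≤ δ * c ^ 2
    refine (pow_le_pow_left₀ (hg0 y) hy 2).trans ?_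
    rw [mul_pow]
    exact mul_le_mul_of_nonneg_right (by nlinarith) (by positivity)
  · rw [← mul_pow]
    exact pow_le_pow_left₀ (hg0 y) (h4 y hy) 2

theorem AC_cd (n p : ℕ) (w : Fin p → E n) :
    ContDiff ℂ ∞ fun ℓ => (Matrix.of fun i j => mt p n ℓ (w j) i).det :=
  (EuclideanSpace.proj (id : Fin p → Fin p) : EuclideanSpace ℂ (Fin p → Fin p) →L[ℂ] ℂ).contDiff.comp
    (contDiff_plk.comp (contDiff_pi.2 fun j => (mt p n).contDiff.clm_apply (contDiff_const (c := w j))))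

theorem AC_det (n p : ℕ) (hn : 0 < n) : ∃ C D : ℝ, 1 ≤ C ∧ 1 ≤ D ∧ ∀ w : Fin p → E n,
    ∃ a : E (p * n), ‖a‖ ≤ p ∧ ‖plk w‖ / D ≤ ‖(Matrix.of fun i j => mt p n a (w j) i).det‖ ∧
      ∀ y : E (p * n), ‖y‖ ≤ 2 * p + 1 →
        ‖(Matrix.of fun i j => mt p n y (w j) i).det‖ ≤ C * (‖plk w‖ / D) := by
  obtain ⟨C, hC, h⟩ := det_le n p
  have hD : (1 : ℝ) ≤ n ^ p := one_le_pow₀ (by exact_mod_cast hn)
  refine ⟨C * (2 * p + 1) ^ p * n ^ p + 1, n ^ p, le_add_of_nonneg_left (by positivity), hD,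
    fun w => ?_⟩
  obtain ⟨J, hJ⟩ := exists_plk_le hn w
  refine ⟨∑ i, ev (finProdFinEquiv (i, J i)), (norm_sum_le _ _).trans (by simp [ev]), ?_,
    fun y hy => ?_⟩
  · have e : (Matrix.of fun i j => mt p n (∑ i, ev (finProdFinEquiv (i, J i))) (w j) i) =
        Matrix.of fun i j => w j (J i) := by
      ext i j
      simp only [Matrix.of_apply, map_sum, _root_.sum_apply, mt_ev]
      simp [ev, Pi.single_apply]
    rw [e, ← plk_apply, div_le_iff₀ (by positivity)]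
    refine le_of_sq_le_sq ?_ (by positivity)
    nlinarith [mul_nonneg (sq_nonneg ‖plk w J‖) (mul_nonneg (sub_nonneg.2 hD) (zero_le_one.trans hD))]
  · refine (h _ w).trans ?_
    have h1 : ‖mt p n y‖ ^ p ≤ (2 * p + 1) ^ p :=
      pow_le_pow_left₀ (norm_nonneg _) ((norm_mt_le y).trans hy) p
    have h2 : 0 ≤ ‖plk w‖ / n ^ p := by positivity
    have h3 : C * (2 * p + 1) ^ p * n ^ p * (‖plk w‖ / n ^ p) = C * (2 * p + 1) ^ p * ‖plk w‖ := by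
      field_simp
    rw [add_mul, h3]
    have h4 : C * ‖mt p n y‖ ^ p * ‖plk w‖ ≤ C * (2 * p + 1) ^ p * ‖plk w‖ := by gcongr
    linarith

theorem AC_cdalt {n p : ℕ} (θ : E n [⋀^Fin p]→ₗ[ℂ] ℂ) : ContDiff ℂ ∞ fun w => θ w := by
  rw [funext (alt_expand0 θ)]
  refine ContDiff.sum fun J _ => (contDiff_prod fun i _ => ?_).mul contDiff_const
  exact ((EuclideanSpace.proj (J i) : E n →L[ℂ] ℂ).comp
    (ContinuousLinearMap.proj i : (Fin p → E n) →L[ℂ] E n)).contDiff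

theorem AC_max {n p : ℕ} [Nonempty (Fin p → Fin n)] (θ : E n [⋀^Fin p]→ₗ[ℂ] ℂ) :
    ∃ J : Fin p → Fin n, an θ / Fintype.card (Fin p → Fin n) ≤ ‖θ (evs J)‖ := by
  obtain ⟨J, hJ⟩ := Finite.exists_max fun J : Fin p → Fin n => ‖θ (evs J)‖ ^ 2
  have hD : (1 : ℝ) ≤ Fintype.card (Fin p → Fin n) := by exact_mod_cast Fintype.card_pos
  refine ⟨J, ?_⟩
  rw [div_le_iff₀ (by positivity)]
  refine le_of_sq_le_sq ?_ (by positivity)
  have h := Finset.sum_le_sum (s := Finset.univ) fun I _ => hJ I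
  rw [← Plk_an_sq, Finset.sum_const, Finset.card_univ, nsmul_eq_mul] at h
  nlinarith [mul_nonneg (sq_nonneg ‖θ (evs J)‖) (mul_nonneg (sub_nonneg.2 hD) (zero_le_one.trans hD))]

theorem AC_point {n p : ℕ} {ρ₀ ρ : ℝ} (h0 : 0 < ρ₀) (hρ : ρ₀ ≤ ρ) {v : Fin p → E n}
    (hv : Orthonormal ℂ v) (J : Fin p → Fin n) : ∃ a : E (n * n), ‖a‖ ≤ 8 * p / ρ₀ ∧
      ∀ j, Tm ρ ((4⁻¹ : ℝ) • a) (v j) = evs J j := by
  have h1 : 0 < ρ := h0.trans_le hρ
  choose A hA hA' using fun j => exists_mt_rank_one (evs J j - v j) (v j)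
  have h2 : ∀ j, ‖A j‖ ≤ 2 := fun j => by
    rw [hA', hv.1 j, mul_one]
    refine (norm_sub_le _ _).trans ?_
    rw [hv.1 j]
    norm_num [evs, ev]
  refine ⟨(4 / ρ : ℝ) • ∑ j, A j, ?_, fun j => ?_⟩
  · have h3 : ‖∑ j, A j‖ ≤ p * 2 :=
      (norm_sum_le _ _).trans ((Finset.sum_le_sum fun j _ => h2 j).trans (by simp))
    rw [norm_smul, Real.norm_of_nonneg (by positivity)]
    calc 4 / ρ * ‖∑ j, A j‖ ≤ 4 / ρ₀ * (p * 2) := by gcongr
      _ = 8 * p / ρ₀ := by ring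
  · have h3 : mt n n (∑ i, A i) (v j) = evs J j - v j := by
      rw [map_sum, _root_.sum_apply, Finset.sum_eq_single j (fun i _ hi => by
        rw [hA, hv.2 hi, zero_smul]) (by simp), hA, inner_self_eq_norm_sq_to_K, hv.1 j]
      simp
    have h4 : (ρ : ℂ) * ((4⁻¹ * (4 / ρ) : ℝ) : ℂ) = 1 := by
      rw [← ofReal_mul, show ρ * (4⁻¹ * (4 / ρ)) = 1 by field_simp, ofReal_one]
    rw [Tm_apply, smul_smul, ← Complex.coe_smul, map_smul, _root_.smul_apply, smul_smul, h4, h3,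
      one_smul, add_sub_cancel]

theorem AC_up {n p : ℕ} {ρ M : ℝ} (h0 : 0 ≤ ρ) (hρ : ρ ≤ 1) {v : Fin p → E n}
    (hv : Orthonormal ℂ v) (θ : E n [⋀^Fin p]→ₗ[ℂ] ℂ) {A : E (n * n)} (hA : ‖A‖ ≤ M) :
    ‖θ fun j => Tm ρ A (v j)‖ ≤ p.factorial * (1 + M) ^ p * an θ := by
  have hM : 0 ≤ M := (norm_nonneg _).trans hA
  have h1 : ∀ j, ‖Tm ρ A (v j)‖ ≤ 1 + M := fun j => by
    rw [Tm_apply]
    refine (norm_add_le _ _).trans (add_le_add (hv.1 j).le ?_)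
    have h2 := (mt n n A).le_opNorm (v j)
    rw [hv.1 j, mul_one] at h2
    rw [norm_smul, Complex.norm_real, Real.norm_of_nonneg h0]
    exact (mul_le_of_le_one_left (norm_nonneg _) hρ).trans (h2.trans ((norm_mt_le A).trans hA))
  have h2 : ‖plk fun j => Tm ρ A (v j)‖ ≤ p.factorial * (1 + M) ^ p := by
    refine le_of_sq_le_sq ((norm_plk_le _).trans ?_) (by positivity)
    have h3 : ∏ j, ‖Tm ρ A (v j)‖ ^ 2 ≤ ((1 + M) ^ p) ^ 2 := by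
      refine (Finset.prod_le_prod (fun _ _ => by positivity) fun j _ =>
        pow_le_pow_left₀ (norm_nonneg _) (h1 j) 2).trans_eq ?_
      rw [Finset.prod_const, Finset.card_univ, Fintype.card_fin, ← pow_mul, ← pow_mul, mul_comm]
    have h4 : (1 : ℝ) ≤ p.factorial := by exact_mod_cast p.factorial_pos
    rw [mul_pow]
    exact mul_le_mul (by nlinarith) h3 (by positivity) (by positivity)
  rw [mul_comm]
  exact (alt_le θ _).trans (mul_le_mul_of_nonneg_left h2 (an_nonneg _))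

theorem AC_scale (N : ℕ) : ∃ k : ℝ, 0 < k ∧ ∀ (g : E N → ℝ) (t : ℝ), Continuous g → 0 ≤ t →
    ub N {y | g ((4⁻¹ : ℝ) • y) ≤ t} ≤ 2⁻¹ →
    ENNReal.ofReal (k * t ^ 2) ≤ ∫⁻ A in ball (0 : E N) (1 / 4), ENNReal.ofReal (g A ^ 2) := by
  have hB := Ball_pos (0 : E N) (r := 1 / 4) (by norm_num)
  refine ⟨volume.real (ball (0 : E N) (1 / 4)) / 2, by positivity, fun g t hg ht h => ?_⟩
  have hm : MeasurableSet {y | g y ≤ t} := (isClosed_le hg continuous_const).measurableSet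
  have hm' : MeasurableSet {y : E N | g ((4⁻¹ : ℝ) • y) ≤ t} :=
    (isClosed_le (hg.comp (continuous_const_smul _)) continuous_const).measurableSet
  have e1 : ∀ S : Set (E N), volume (((4⁻¹ : ℝ) • ·) ⁻¹' S) =
      ENNReal.ofReal |((4⁻¹ : ℝ) ^ Module.finrank ℝ (E N))⁻¹| * volume S :=
    Measure.addHaar_preimage_smul volume (by norm_num)
  set K := ENNReal.ofReal |((4⁻¹ : ℝ) ^ Module.finrank ℝ (E N))⁻¹|
  have hK : K ≠ 0 := (ENNReal.ofReal_pos.2 (by positivity)).ne'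
  have e2 : ((4⁻¹ : ℝ) • ·) ⁻¹' ball (0 : E N) (1 / 4) = ball 0 1 := by
    ext y
    simp only [mem_preimage, mem_ball_zero_iff, norm_smul, norm_inv, Real.norm_ofNat]
    constructor <;> intro h <;> linarith
  have h0 : volume (ball (0 : E N) 1) ≠ 0 := (measure_ball_pos _ _ one_pos).ne'
  have h1 : volume (ball (0 : E N) 1) ≠ ⊤ := measure_ball_lt_top.ne
  rw [ub, Measure.smul_apply, Measure.restrict_apply hm', smul_eq_mul,
    ENNReal.inv_mul_le_iff h0 h1, ← e2] at h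
  change volume (((4⁻¹ : ℝ) • ·) ⁻¹' ({y | g y ≤ t} ∩ ball (0 : E N) (1 / 4))) ≤ _ at h
  rw [e1, e1, mul_assoc, ENNReal.mul_le_mul_iff_right hK ENNReal.ofReal_ne_top] at h
  have h2 : volume (ball (0 : E N) (1 / 4)) ≠ ⊤ := measure_ball_lt_top.ne
  have h3 : volume (ball (0 : E N) (1 / 4)) / 2 ≤ volume (ball (0 : E N) (1 / 4) \ {y | g y ≤ t}) := by
    have h4 := measure_inter_add_sdiff (μ := volume) (ball (0 : E N) (1 / 4)) hm
    rw [inter_comm] at h4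
    rw [← ENNReal.add_le_add_iff_left (ENNReal.div_ne_top h2 two_ne_zero), ENNReal.add_halves]
    exact h4.symm.trans_le (add_le_add_left (by rwa [div_eq_mul_inv]) _)
  rw [ENNReal.ofReal_mul (by positivity), ENNReal.ofReal_div_of_pos two_pos, ofReal_measureReal h2,
    ENNReal.ofReal_ofNat, mul_comm]
  refine (mul_le_mul_right h3 _).trans ?_
  rw [← setLIntegral_const]
  refine le_trans (setLIntegral_mono' (measurableSet_ball.diff hm) fun y hy => ?_)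
    (lintegral_mono_set sdiff_subset)
  exact ENNReal.ofReal_le_ofReal (pow_le_pow_left₀ ht (not_le.1 hy.2).le 2)


/-- Apply `submean` to `log (‖f‖ ^ 2 + κ ^ 2) / 2` (`SOS.log_psh`, `lap_eq_levi`) on the ball of
centre `a` and radius `R + 1`, which contains the unit ball, and use the upper bound on the
complement of the unit ball. -/
theorem ac_log (N : ℕ) {R C₁ : ℝ} (hR : 0 ≤ R) (hC : 1 ≤ C₁) : ∃ C : ℝ, 0 ≤ C ∧
    ∀ (M : ℕ) (f : E N → E M) (c κ : ℝ) (a : E N), ContDiff ℂ ∞ f → 0 ≤ c → 0 < κ → ‖a‖ ≤ R →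
      c ≤ ‖f a‖ → (∀ y, ‖y‖ ≤ 2 * R + 1 → ‖f y‖ ≤ C₁ * c) →
      Real.log (c ^ 2 + κ ^ 2) / 2 - C ≤ ∫ y, Real.log (‖f y‖ ^ 2 + κ ^ 2) / 2 ∂ub N := by
  obtain ⟨C, h0, h⟩ := AC_logG N hR hC
  exact ⟨C, h0, fun M f c κ a hf => h _ c κ a (sos_norm hf.contDiffOn) fun _ => norm_nonneg _⟩

/-- Markov inequality with `κ = δ c`. -/
theorem ac_prob (N : ℕ) {R C₁ : ℝ} (hR : 0 ≤ R) (hC : 1 ≤ C₁) {ε : ℝ≥0∞} (hε : ε ≠ 0) :
    ∃ δ : ℝ, 0 < δ ∧ δ ≤ 1 ∧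
    ∀ (M : ℕ) (f : E N → E M) (c : ℝ) (a : E N), ContDiff ℂ ∞ f → 0 < c → ‖a‖ ≤ R →
      c ≤ ‖f a‖ → (∀ y, ‖y‖ ≤ 2 * R + 1 → ‖f y‖ ≤ C₁ * c) →
      ub N {y | ‖f y‖ ≤ δ * c} ≤ ε := by
  obtain ⟨δ, h0, h1, h⟩ := AC_probG N hR hC hε
  exact ⟨δ, h0, h1, fun M f c a hf => h _ c a (sos_norm hf.contDiffOn) fun _ => norm_nonneg _⟩

/-- Scalar versions (compose with the isometry from `ℂ` to `E 1`). -/
theorem ac_logC (N : ℕ) {R C₁ : ℝ} (hR : 0 ≤ R) (hC : 1 ≤ C₁) : ∃ C : ℝ, 0 ≤ C ∧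
    ∀ (f : E N → ℂ) (c κ : ℝ) (a : E N), ContDiff ℂ ∞ f → 0 ≤ c → 0 < κ → ‖a‖ ≤ R →
      c ≤ ‖f a‖ → (∀ y, ‖y‖ ≤ 2 * R + 1 → ‖f y‖ ≤ C₁ * c) →
      Real.log (c ^ 2 + κ ^ 2) / 2 - C ≤ ∫ y, Real.log (‖f y‖ ^ 2 + κ ^ 2) / 2 ∂ub N := by
  obtain ⟨C, h0, h⟩ := AC_logG N hR hC
  exact ⟨C, h0, fun f c κ a hf => h _ c κ a (sos_normC hf.contDiffOn) fun _ => norm_nonneg _⟩

theorem ac_probC (N : ℕ) {R C₁ : ℝ} (hR : 0 ≤ R) (hC : 1 ≤ C₁) {ε : ℝ≥0∞} (hε : ε ≠ 0) :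
    ∃ δ : ℝ, 0 < δ ∧ δ ≤ 1 ∧
    ∀ (f : E N → ℂ) (c : ℝ) (a : E N), ContDiff ℂ ∞ f → 0 < c → ‖a‖ ≤ R →
      c ≤ ‖f a‖ → (∀ y, ‖y‖ ≤ 2 * R + 1 → ‖f y‖ ≤ C₁ * c) →
      ub N {y | ‖f y‖ ≤ δ * c} ≤ ε := by
  obtain ⟨δ, h0, h1, h⟩ := AC_probG N hR hC hε
  exact ⟨δ, h0, h1, fun f c a hf => h _ c a (sos_normC hf.contDiffOn) fun _ => norm_nonneg _⟩

/-- Determinants of random images of a frame: `det_le`, `exists_plk_le` and a coordinate map. -/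
theorem ac_det (n p : ℕ) (hn : 0 < n) {ε : ℝ≥0∞} (hε : ε ≠ 0) : ∃ δ : ℝ, 0 < δ ∧ δ ≤ 1 ∧
    ∀ w : Fin p → E n, plk w ≠ 0 →
      ub (p * n) {ℓ | ‖(Matrix.of fun i j => mt p n ℓ (w j) i).det‖ ≤ δ * ‖plk w‖} ≤ ε := by
  obtain ⟨C, D, hC, hD, h⟩ := AC_det n p hn
  obtain ⟨δ, h0, h1, h2⟩ := ac_probC (p * n) (Nat.cast_nonneg p) hC hε
  refine ⟨δ / D, by positivity, (div_le_one (by positivity)).2 (h1.trans hD), fun w hw => ?_⟩
  obtain ⟨a, ha, h3, h4⟩ := h w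
  have h5 := h2 _ _ a (AC_cd n p w) (div_pos (norm_pos_iff.2 hw) (by positivity)) ha h3 h4
  rwa [← mul_div_assoc, mul_div_right_comm] at h5

theorem ac_det_log (n p : ℕ) (hn : 0 < n) : ∃ C : ℝ, 0 ≤ C ∧
    ∀ (w : Fin p → E n) (c κ : ℝ), 0 ≤ c → 0 < κ →
      Real.log ((‖plk w‖ * c) ^ 2 + κ ^ 2) / 2 - C ≤ ∫ ℓ, Real.log
        ((‖(Matrix.of fun i j => mt p n ℓ (w j) i).det‖ * c) ^ 2 + κ ^ 2) / 2 ∂ub (p * n) := by
  obtain ⟨C, D, hC, hD, h⟩ := AC_det n p hn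
  obtain ⟨K, h0, h2⟩ := ac_logC (p * n) (Nat.cast_nonneg p) hC
  have hl := Real.log_nonneg hD
  refine ⟨K + Real.log D, by positivity, fun w c κ hc hκ => ?_⟩
  obtain ⟨a, ha, h3, h4⟩ := h w
  have e : ∀ z : ℂ, ‖z * c‖ = ‖z‖ * c := fun z => by
    rw [norm_mul, Complex.norm_real, Real.norm_of_nonneg hc]
  have h5 := h2 _ (‖plk w‖ / D * c) κ a ((AC_cd n p w).mul (contDiff_const (c := (c : ℂ))))
    (by positivity) hκ ha (by rw [e]; exact mul_le_mul_of_nonneg_right h3 hc) fun y hy => by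
      rw [e, ← mul_assoc]
      exact mul_le_mul_of_nonneg_right (h4 y hy) hc
  simp only [e] at h5
  refine le_trans ?_ h5
  have h6 : Real.log ((‖plk w‖ * c) ^ 2 + κ ^ 2) ≤
      Real.log (D ^ 2 * ((‖plk w‖ / D * c) ^ 2 + κ ^ 2)) := by
    refine Real.log_le_log (by positivity) ?_
    have h7 : D ^ 2 * (‖plk w‖ / D * c) ^ 2 = (‖plk w‖ * c) ^ 2 := by field_simp
    rw [mul_add, h7]
    nlinarith [mul_nonneg (sub_nonneg.2 (one_le_pow₀ hD : 1 ≤ D ^ 2)) (sq_nonneg κ)]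
  rw [Real.log_mul (by positivity) (by positivity), Real.log_pow] at h6
  push_cast at h6
  linarith

theorem ac_row (n p : ℕ) {ε : ℝ≥0∞} (hε : ε ≠ 0) : ∃ δ : ℝ, 0 < δ ∧ δ ≤ 1 ∧
    ∀ X : E n, X ≠ 0 → ub ((p + 1) * n) {ℓ | ‖mt (p + 1) n ℓ X 0‖ ≤ δ * ‖X‖} ≤ ε := by
  obtain ⟨δ, h0, h1, h2⟩ := ac_probC ((p + 1) * n) zero_le_one (by norm_num : (1 : ℝ) ≤ 3) hε
  refine ⟨δ, h0, h1, fun X hX => ?_⟩
  obtain ⟨a, h3, h4⟩ := exists_mt_rank_one (ev 0 : E (p + 1)) (un X)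
  have hX' : 0 < ‖X‖ := norm_pos_iff.2 hX
  refine h2 (fun ℓ => mt (p + 1) n ℓ X 0) ‖X‖ a
    ((EuclideanSpace.proj (0 : Fin (p + 1)) : E (p + 1) →L[ℂ] ℂ).contDiff.comp
      ((mt (p + 1) n).contDiff.clm_apply contDiff_const)) hX' ?_ ?_ fun y hy => ?_
  · rw [h4, norm_un hX]
    simp [ev]
  · rw [h3, un, ← Complex.coe_smul, inner_smul_left, inner_self_eq_norm_sq_to_K]
    simp [ev, sq, hX'.ne']
  · refine (PiLp.norm_apply_le _ _).trans (((mt (p + 1) n y).le_opNorm X).trans ?_)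
    exact mul_le_mul_of_nonneg_right ((norm_mt_le y).trans (by linarith)) hX'.le

/-- Seminorms defined by finitely many linear maps. -/
theorem ac_lin (N : ℕ) {ε : ℝ≥0∞} (hε : ε ≠ 0) : ∃ δ : ℝ, 0 < δ ∧ δ ≤ 1 ∧
    ∀ (n J : ℕ) (L : ℕ → E N →L[ℂ] E n) (c : ℝ) (a : E N), 0 < c → ‖a‖ ≤ 1 →
      c ≤ ∑ j ∈ Finset.range J, ‖L j a‖ ^ 2 →
      ub N {y | ∑ j ∈ Finset.range J, ‖L j y‖ ^ 2 ≤ δ * c} ≤ ε := by
  obtain ⟨δ, h0, h1, h2⟩ := AC_eps N zero_le_one (by norm_num : (1 : ℝ) ≤ 9) hε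
  refine ⟨δ, h0, h1, fun n J L c a hc ha h3 => ?_⟩
  have hs : SOS univ fun y => ∑ j ∈ Finset.range J, ‖L j y‖ ^ 2 :=
    SOS.sum _ fun j _ => sos_norm (L j).contDiff.contDiffOn
  obtain ⟨b, h4, h5⟩ := (isCompact_closedBall (0 : E N) 1).exists_isMaxOn
    ⟨0, mem_closedBall_self zero_le_one⟩ (hs.contDiffOn.continuousOn.mono (subset_univ _))
  have h6 : c ≤ ∑ j ∈ Finset.range J, ‖L j b‖ ^ 2 := h3.trans (h5 (mem_closedBall_zero_iff.2 ha))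
  refine le_trans (measure_mono fun y (hy : _ ≤ δ * c) => ?_)
    (h2 _ _ b hs (fun y hy => ?_) (mem_closedBall_zero_iff.1 h4) le_rfl (hc.trans_le h6))
  · exact hy.trans (mul_le_mul_of_nonneg_left h6 h0.le)
  · have h7 : ∑ j ∈ Finset.range J, ‖L j ((3 : ℂ)⁻¹ • y)‖ ^ 2 ≤
        ∑ j ∈ Finset.range J, ‖L j b‖ ^ 2 := h5 (mem_closedBall_zero_iff.2 (by
      rw [norm_smul, norm_inv, Complex.norm_ofNat, inv_mul_le_one₀ three_pos]
      linarith))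
    simp only [map_smul, norm_smul, norm_inv, Complex.norm_ofNat, mul_pow] at h7
    rw [← Finset.mul_sum] at h7
    linarith

/-- Mean square of an alternating form on a randomly perturbed orthonormal frame. Choose `A` with
`Tm ρ (A / 4) (v j) = ev (J j)` where `J` maximises `‖θ (evs J)‖`. -/
theorem ac_alt (n p : ℕ) {ρ₀ : ℝ} (hρ : 0 < ρ₀) : ∃ c : ℝ, 0 < c ∧
    ∀ (ρ : ℝ) (θ : E n [⋀^Fin p]→ₗ[ℂ] ℂ) (v : Fin p → E n), ρ₀ ≤ ρ → ρ ≤ 1 → Orthonormal ℂ v →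
      ENNReal.ofReal (c * an θ ^ 2) ≤
        ∫⁻ A in ball (0 : E (n * n)) (1 / 4), ENNReal.ofReal (‖θ fun j => Tm ρ A (v j)‖ ^ 2) := by
  rcases isEmpty_or_nonempty (Fin p → Fin n) with hE | hE
  · exact ⟨1, one_pos, fun ρ θ v _ _ _ => by simp [Plk_an_sq]⟩
  have hD : (1 : ℝ) ≤ Fintype.card (Fin p → Fin n) := by exact_mod_cast Fintype.card_pos
  set D := (Fintype.card (Fin p → Fin n) : ℝ)
  have hR : 0 ≤ 8 * p / ρ₀ := by positivity
  set R := 8 * p / ρ₀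
  have hC : 1 ≤ p.factorial * (1 + (2 * R + 1)) ^ p * D :=
    one_le_mul_of_one_le_of_one_le (one_le_mul_of_one_le_of_one_le
      (by exact_mod_cast p.factorial_pos) (one_le_pow₀ (by linarith))) hD
  obtain ⟨δ, h0, -, h2⟩ := ac_probC (n * n) hR hC (ε := 2⁻¹) (by simp)
  obtain ⟨k, hk, h3⟩ := AC_scale (n * n)
  refine ⟨k * (δ / D) ^ 2, by positivity, fun ρ θ v h4 h5 hv => ?_⟩
  rcases (an_nonneg θ).eq_or_lt with h6 | h6
  · simp [← h6]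
  obtain ⟨J, hJ⟩ := AC_max θ
  obtain ⟨a, ha, ha'⟩ := AC_point hρ h4 hv J
  have hf : ContDiff ℂ ∞ fun A : E (n * n) => θ fun j => Tm ρ A (v j) :=
    (AC_cdalt θ).comp (contDiff_pi.2 fun j => by
      simp only [Tm_apply]
      exact contDiff_const.add
        (((mt n n).contDiff.clm_apply contDiff_const).const_smul (ρ : ℂ)))
  have h7 := h2 (fun y => θ fun j => Tm ρ ((4⁻¹ : ℝ) • y) (v j)) (an θ / D) a
    (hf.comp (contDiff_id.const_smul (4⁻¹ : ℝ))) (by positivity) ha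
    (by simpa only [ha'] using hJ) fun y hy => by
      rw [mul_assoc, mul_div_cancel₀ _ (by positivity)]
      refine AC_up (hρ.le.trans h4) h5 hv θ ?_
      rw [norm_smul, norm_inv, Real.norm_ofNat]
      linarith [norm_nonneg y]
  refine le_trans (le_of_eq ?_) (h3 _ _ hf.continuous.norm (by positivity) h7)
  congr 1
  ring

end Pool.Agent.Lib.MP_a47f92_an
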