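import Pool.Agent.Lib.MP_a47f92_an.G.Cur4

set_option autoImplicit false
set_option linter.unusedSectionVars false

namespace Pool.Agent.Lib.MP_a47f92_an

open MeasureTheory Filter Topology Set Complex Metric Function
open scoped ContDiff ComplexConjugate ComplexOrder Matrix ENNReal NNReal

/-! Push-forwards of truncated closed currents are almost closed. -/

variable {n p d : ℕ} {S : Measure (Fr n p)} {F : E n → E n} {χ : E n → ℝ}

/-- The gradient square is dominated by a multiple of the Fubini-Study form. -/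
theorem Alm_psd {f : E n → ℂ} {C : ℝ}
    (hC : ∀ z, z ≠ 0 → ∀ v, ‖gd v f z‖ ^ 2 ≤ C * levi lg z v) {x : Fr n p} (hx : x.1 ≠ 0) :
    (lv (fun z => C * lg z) x -
      Matrix.of fun i j => gd (x.2 i) f x.1 * conj (gd (x.2 j) f x.1)).PosSemidef := by
  have h1 := lh_lg.const_mul (n := n) C
  refine psd_of_qf ((h1.lv_herm hx).sub
    (Matrix.posSemidef_vecMulVec_self_star fun i => gd (x.2 i) f x.1).1) fun c => ?_
  have h2 : qf (lv (fun z => C * lg z) x -
      Matrix.of fun i j => gd (x.2 i) f x.1 * conj (gd (x.2 j) f x.1)) c =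
      qf (gl (rc fun z => C * lg z) x.1 x.2) c -
        ((‖gd (∑ i, c i • x.2 i) f x.1‖ ^ 2 : ℝ) : ℂ) := by
    rw [ofReal_pow, ← mul_conj', gd_vsum, map_sum, Finset.sum_mul_sum, lv_eq_gl]
    simp only [qf, Matrix.sub_apply, Matrix.of_apply, mul_sub, Finset.sum_sub_distrib, gd_vsmul,
      map_mul]
    congr 1
    exact Finset.sum_congr rfl fun i _ => Finset.sum_congr rfl fun j _ => by ring
  rw [h2, sub_re, ofReal_re, qf_gl (h1.contDiffAt2 hx), lap_const_mul,
    lap_eq_levi (lh_lg.contDiffAt2 hx)]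
  exact sub_nonneg.2 (hC _ hx _)

theorem Alm_lv_add {D D' : ℝ} {u u' : E n → ℝ} (hu : LH D u) (hu' : LH D' u') {x : Fr n p}
    (hx : x.1 ≠ 0) : lv (fun z => u z + u' z) x = lv u x + lv u' x := by
  rw [lv_eq_gl, lv_eq_gl, lv_eq_gl, ← gl_add (LHb_rc hu hx) (LHb_rc hu' hx)]
  congr 1
  funext z
  exact ofReal_add _ _

theorem Alm_lv_sub {D D' : ℝ} {u u' : E n → ℝ} (hu : LH D u) (hu' : LH D' u') {x : Fr n p}
    (hx : x.1 ≠ 0) : lv (fun z => u z - u' z) x = lv u x - lv u' x := by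
  rw [eq_sub_iff_add_eq, ← Alm_lv_add (hu.sub hu') hu' hx]
  simp only [sub_add_cancel]

/-- Replacing a rank one slot by a dominating potential. -/
theorem Alm_slot {Q : Fin p → E n → ℝ} (hQ : PPs Q) (l : Fin p) {u : E n → ℝ} {x : Fr n p}
    (hx : x.1 ≠ 0) {y : Fin p → ℂ}
    (hy : (lv u x - Matrix.of fun i j => y i * conj (y j)).PosSemidef) :
    md (update (fun l' => lv (Q l') x) l (Matrix.of fun i j => y i * conj (y j))) ≤
      dn (update Q l u) x := by
  rw [dn, if_neg hx, dc_update]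
  refine md_mono (MD3_psd (fun l' _ => (hQ l').elim fun _ h => h.lv_psd hx) y) fun l' => ?_
  rcases eq_or_ne l' l with rfl | h
  · rw [update_self, update_self]
    exact hy
  · rw [update_of_ne h, update_of_ne h, sub_self]
    exact Matrix.PosSemidef.zero

/-- The product rule in the exact form. -/
theorem Alm_dx {c a b : E n → ℂ} (hc : IC c) (ha : IC a) (q : Fin p → E n → ℝ) (l : Fin p)
    {x : Fr n p} (hx : x.1 ≠ 0) : c x.1 * dx a b q l x = dx (fun z => c z * a z) b q l x -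
      a x.1 * mdC (update (fun l' => lv (q l') x) l (gg c b x.1 x.2)) := by
  have h : gg (fun z => c z * a z) b x.1 x.2 = c x.1 • gg a b x.1 x.2 + a x.1 • gg c b x.1 x.2 := by
    ext i j
    simp only [gg, Matrix.of_apply, Matrix.add_apply, Matrix.smul_apply, smul_eq_mul,
      gd_mul (GL_d (LHb_two hc hx)) (GL_d (LHb_two ha hx))]
    ring
  rw [dx_eq, dx_eq, h, mdC_update_add, mdC_update_smul, mdC_update_smul]
  ring

theorem Alm_prod (l : Fin p) (C : Fin p → ℝ) (e c : ℝ) :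
    e * ∏ l', update (fun l' => C l' * 1 * e) l c l' =
      c * (∏ l' ∈ Finset.univ \ {l}, C l') * e ^ p := by
  have h : (Finset.univ \ {l} : Finset (Fin p)).card + 1 = p := by
    rw [Finset.card_univ_sdiff, Fintype.card_fin, Finset.card_singleton]
    have := l.pos
    omega
  rw [Finset.prod_update_of_mem (Finset.mem_univ l), Finset.prod_mul_distrib, Finset.prod_const]
  simp only [mul_one]
  rw [show e ^ p = e ^ (Finset.univ \ {l} : Finset (Fin p)).card * e by rw [← pow_succ, h]]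
  ring

theorem Alm_upd {D : Fin p → ℝ} {Q : Fin p → E n → ℝ} (hQ : ∀ l, LH (D l) (Q l)) (l : Fin p)
    {c : ℝ} {u : E n → ℝ} (hu : LH c u) (l' : Fin p) : LH (update D l c l') (update Q l u l') := by
  rcases eq_or_ne l' l with rfl | h
  · rwa [update_self, update_self]
  · rw [update_of_ne h, update_of_ne h]
    exact hQ l'

/-- The estimate for an arbitrary lift. -/
theorem Alm_core (hχ : LH 0 χ) {a b : E n → ℝ} (ha : LH 0 a) (hb : LH 0 b)
    {q : Fin p → E n → ℝ} (hq : Pots q) (l : Fin p) :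
    ∃ C : ℝ, 0 ≤ C ∧ ∀ (S : Measure (Fr n p)) (e : ℕ) (G : E n → E n), IsLift e G → 1 ≤ e →
      IsCur S → Closed S → ‖∫ x, (χ x.1 : ℂ) * dx (rc a) (rc b) q l (fw G x) ∂S‖ ≤
        C * (√e)⁻¹ * mass S * (e : ℝ) ^ p := by
  choose D hD using hq
  choose C hC0 hC1 hC2 using fun l' => (hD l').dom
  obtain ⟨Ca, hCa0, hCa⟩ := ha.bound
  obtain ⟨Cb, hCb0, hCb⟩ := hb.ic.grad_le
  obtain ⟨Cc, hCc0, hCc⟩ := hχ.ic.grad_le
  have hK : 0 ≤ ∏ l' ∈ Finset.univ \ {l}, C l' := Finset.prod_nonneg fun l' _ => hC0 l'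
  refine ⟨Ca / 2 * (Cc + Cb) * ∏ l' ∈ Finset.univ \ {l}, C l', by positivity,
    fun S e G hG he h hc => ?_⟩
  have hq : Pots q := fun l' => ⟨_, hD l'⟩
  have hq' := hq.comp hG
  have ha' := ha.ic.comp hG
  have hb' := hb.ic.comp hG
  have he0 : (0 : ℝ) < e := Nat.cast_pos.2 he
  have ht : 0 < √(e : ℝ) := Real.sqrt_pos.2 he0
  have hT := (tst_gg hq' l hχ.ic hb').mul_left ha'
  have e1 : ∫ x, (χ x.1 : ℂ) * dx (rc a) (rc b) q l (fw G x) ∂S =
      -∫ x, rc a (G x.1) * mdC (update (fun l' => lv (fun z => q l' (G z)) x) l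
        (gg (rc χ) (fun z => rc b (G z)) x.1 x.2)) ∂S := by
    rw [← zero_sub, ← hc.dx_zero h (hχ.ic.mul ha') hb' hq' l,
      ← integral_sub (h.integrable (tst_dx (hχ.ic.mul ha') hb' hq' l)) (h.integrable hT)]
    refine integral_congr_ae (h.ne.mono fun x hx => ?_)
    beta_reduce
    rw [← dx_fw ha.ic hb.ic hq hG l hx]
    exact Alm_dx hχ.ic ha' _ l hx
  have hQ : ∀ l', PL (C l' * 1 * e) fun z => C l' * lg (G z) := fun l' =>
    (pl_lg.const_mul (hC0 l')).comp hG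
  have hQ' : PPs fun l' z => C l' * lg (G z) := fun l' => ⟨_, hQ l'⟩
  have h1 := Alm_upd (fun l' => (hQ l').lh) l (lh_lg.const_mul Cc)
  have h2 := Alm_upd (fun l' => (hQ l').lh) l ((lh_lg.const_mul Cb).comp hG)
  have p1' : Pots _ := fun l' => ⟨_, h1 l'⟩
  have p2' : Pots _ := fun l' => ⟨_, h2 l'⟩
  have key : ∀ x : Fr n p, x.1 ≠ 0 →
      ‖rc a (G x.1) * mdC (update (fun l' => lv (fun z => q l' (G z)) x) l
        (gg (rc χ) (fun z => rc b (G z)) x.1 x.2))‖ ≤
      Ca / 2 * (√e * dn (update (fun l' z => C l' * lg (G z)) l fun z => Cc * lg z) x +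
        (√e)⁻¹ * dn (update (fun l' z => C l' * lg (G z)) l fun z => Cb * lg (G z)) x) := by
    intro x hx
    have hx' : (fw G x).1 ≠ 0 := hG.ne hx
    have k1 := md_cs' (A := fun l' => lv (fun z => q l' (G z)) x)
      (B := fun l' => lv (fun z => C l' * lg (G z)) x) (l := l)
      (fun l' _ => by
        rw [← Alm_lv_sub (hQ l').lh ((hD l').comp hG) hx]
        exact ((hC2 l').comp hG).lv_psd hx)
      (fun l' _ => by
        rw [← Alm_lv_add (hQ l').lh ((hD l').comp hG) hx]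
        exact ((hC1 l').comp hG).lv_psd hx)
      (fun i => gd (x.2 i) (rc χ) x.1) (fun i => gd (x.2 i) (rc fun z => b (G z)) x.1) ht
    have k2 := Alm_slot hQ' l hx (Alm_psd hCc hx)
    have k3 : (lv (fun z => Cb * lg (G z)) x - Matrix.of fun i j =>
        gd (x.2 i) (rc fun z => b (G z)) x.1 *
          conj (gd (x.2 j) (rc fun z => b (G z)) x.1)).PosSemidef := by
      have k4 : ∀ i, gd (x.2 i) (rc fun z => b (G z)) x.1 =
          gd ((fw G x).2 i) (rc b) (fw G x).1 := fun i =>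
        gd_comp (u := rc b) (hG.differentiable _) (GL_d (LHb_two hb.ic hx'))
      simp only [k4]
      rw [lv_fw (lh_lg.const_mul Cb) hG hx]
      exact Alm_psd hCb hx'
    have k5 := Alm_slot hQ' l hx k3
    rw [← gg_rc] at k1
    rw [norm_mul, norm_real, Real.norm_eq_abs]
    have k6 := mul_le_mul_of_nonneg_left k2 ht.le
    have k7 := mul_le_mul_of_nonneg_left k5 (inv_pos.2 ht).le
    refine (mul_le_mul_of_nonneg_right (hCa _) (norm_nonneg _)).trans ?_
    rw [div_mul_eq_mul_div, mul_div_assoc]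
    exact mul_le_mul_of_nonneg_left (by linarith) hCa0
  rw [e1, norm_neg]
  refine (norm_integral_le_of_norm_le ((((h.int_dn p1').const_mul _).add
    ((h.int_dn p2').const_mul _)).const_mul _) (h.ne.mono key)).trans_eq ?_
  rw [integral_const_mul, integral_add' ((h.int_dn p1').const_mul _) ((h.int_dn p2').const_mul _),
    integral_const_mul, integral_const_mul, ← h.p1_eq, ← h.p1_eq, hc.p1_deg h h1, hc.p1_deg h h2]
  have f1 := Alm_prod l C e (Cc * 1)
  have f2 := Alm_prod l C e (Cb * 1 * e)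
  generalize ∏ l', update (fun l' => C l' * 1 * (e : ℝ)) l (Cc * 1) l' = P1 at f1
  generalize ∏ l', update (fun l' => C l' * 1 * (e : ℝ)) l (Cb * 1 * e) l' = P2 at f2
  have f3 : (e : ℝ) = √e * √e := (Real.mul_self_sqrt he0.le).symm
  generalize √(e : ℝ) = t at ht f3
  generalize (e : ℝ) ^ p = w at f1 f2
  rw [f3] at f1 f2
  have g1 : P1 = Cc * (∏ l' ∈ Finset.univ \ {l}, C l') * w / (t * t) := by
    rw [eq_div_iff (by positivity)]
    linarith
  have g2 : P2 = Cb * (∏ l' ∈ Finset.univ \ {l}, C l') * w :=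
    mul_left_cancel₀ (a := t * t) (by positivity) (by linarith)
  rw [g1, g2]
  field_simp

/-- With `a' = a ∘ F^[j]` etc. closedness for the pair `(χ a', b')` gives
`∫ χ dx a' b' q' = - ∫ a' mdC (update (lv q') l (gg χ b'))`. Bound by `md_cs'` with
`B l' = lv (C lg ∘ F^[j])` (`LH.dom`), `t = √d ^ j`, `IC.grad_le`, `md_mono` and `Closed.p1_deg`. -/
theorem alm_le (hF : IsLift d F) (hd : 1 ≤ d) (hχ : LH 0 χ) (h0 : ∀ z, 0 ≤ χ z) {a b : E n → ℝ}
    (ha : LH 0 a) (hb : LH 0 b) {q : Fin p → E n → ℝ} (hq : Pots q) (l : Fin p) :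
    ∃ C : ℝ, 0 ≤ C ∧ ∀ (S : Measure (Fr n p)) (j : ℕ), IsCur S → Closed S →
      ‖∫ x, dx (rc a) (rc b) q l x ∂lam d p F j (mlt S χ)‖ ≤ C * (√d ^ j)⁻¹ * mass S := by
  obtain ⟨C, hC0, hC⟩ := Alm_core hχ ha hb hq l
  refine ⟨C, hC0, fun S j h hc => ?_⟩
  have h1 := hC S (d ^ j) F^[j] (hF.iterate j) (Nat.one_le_pow j d hd) h hc
  have hd0 : (0 : ℝ) < d := Nat.cast_pos.2 hd
  have h2 : √((d ^ j : ℕ) : ℝ) = √d ^ j := by
    rw [Real.sqrt_eq_iff_mul_self_eq (by positivity) (by positivity), ← mul_pow,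
      Real.mul_self_sqrt hd0.le, Nat.cast_pow]
  rw [h2, Nat.cast_pow, ← pow_mul, mul_comm j p] at h1
  rw [(h.toMlt hχ.bm).integral_lam hF p j (tst_dx ha.ic hb.ic hq l),
    integral_mlt S hχ.measurable h0, norm_mul, norm_real, Real.norm_eq_abs,
    abs_of_pos (by positivity), inv_mul_le_iff₀ (by positivity), mul_comm]
  exact h1

theorem alm_lam (h : IsCur S) (hc : Closed S) (hF : IsLift d F) (hd : 2 ≤ d) (hχ : LH 0 χ)
    (h0 : ∀ z, 0 ≤ χ z) {a b : E n → ℝ} (ha : LH 0 a) (hb : LH 0 b) {q : Fin p → E n → ℝ}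
    (hq : Pots q) (l : Fin p) :
    Tendsto (fun j => ∫ x, dx (rc a) (rc b) q l x ∂lam d p F j (mlt S χ)) atTop (𝓝 0) := by
  obtain ⟨C, _, hC⟩ := alm_le hF (one_le_two.trans hd) hχ h0 ha hb hq l
  have h1 : 1 < √(d : ℝ) := Real.lt_sqrt_of_sq_lt (by rw [one_pow]; exact_mod_cast hd)
  refine squeeze_zero_norm (fun j => hC S j h hc) ?_
  have h2 := (((tendsto_pow_atTop_atTop_of_one_lt h1).inv_tendsto_atTop).const_mul C).mul_const
    (mass S)
  rwa [mul_zero, zero_mul] at h2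

theorem alm_ces (h : IsCur S) (hc : Closed S) (hF : IsLift d F) (hd : 2 ≤ d) (hχ : LH 0 χ)
    (h0 : ∀ z, 0 ≤ χ z) {a b : E n → ℝ} (ha : LH 0 a) (hb : LH 0 b) {q : Fin p → E n → ℝ}
    (hq : Pots q) (l : Fin p) :
    Tendsto (fun N => ∫ x, dx (rc a) (rc b) q l x ∂ces d p F N (mlt S χ)) atTop (𝓝 0) := by
  refine (alm_lam h hc hF hd hχ h0 ha hb hq l).cesaro_smul.congr fun N => ?_
  rw [(h.toMlt hχ.bm).integral_ces hF (one_le_two.trans hd) p N (tst_dx ha.ic hb.ic hq l),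
    real_smul]

theorem mass_lam_mlt_le (h : IsCur S) (hc : Closed S) (hF : IsLift d F) (hd : 1 ≤ d) (hχ : BM χ)
    (h0 : ∀ z, 0 ≤ χ z) {c : ℝ} (h1 : ∀ z, χ z ≤ c) (j : ℕ) :
    mass (lam d p F j (mlt S χ)) = pr S χ (gs d F j p) ∧
      mass (lam d p F j (mlt S χ)) ≤ c * mass S := by
  have e : mass (lam d p F j (mlt S χ)) = pr S χ (gs d F j p) := by
    rw [(h.toMlt hχ).mass_lam hF hd, p1, pr_mlt S hχ.meas h0]
    simp only [mul_one]
  refine ⟨e, ?_⟩
  rw [e, ← hc.p1_one h (q := gs d F j p) fun _ => (pl_green hF hd j).lh, ← pr_const_left]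
  exact h.pr_mono_left hχ (bm_const c) (fun z _ => h1 z) (pps_gs hF hd j p)

end Pool.Agent.Lib.MP_a47f92_an
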