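import Pool.Agent.Lib.MP_a47f92_an.G.Cur1

set_option autoImplicit false
set_option linter.unusedSectionVars false

namespace Pool.Agent.Lib.MP_a47f92_an

open MeasureTheory Filter Topology Set Complex Metric Function
open scoped ContDiff ComplexConjugate ComplexOrder Matrix ENNReal NNReal

/-! Closed currents and the relation `DDC`. -/

variable {n p : ℕ} {S S' T T' : Measure (Fr n p)} {Y Y' : Measure (Fr n (p + 1))}
  {q q' : Fin p → E n → ℝ}

theorem closed_iff : Closed S ↔ ∀ a b, LH 0 a → LH 0 b → ∀ q, Pots q → ∀ l,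
    ∫ x, dx (rc a) (rc b) q l x ∂S = 0 :=
  Iff.rfl

theorem Cur2_split {a : E n → ℂ} (ha : IC a) {z : E n} (hz : z ≠ 0) (v : E n) :
    gd v a z = gd v (rc fun w => (a w).re) z + I * gd v (rc fun w => (a w).im) z ∧
      gb v a z = gb v (rc fun w => (a w).re) z + I * gb v (rc fun w => (a w).im) z := by
  have e : a = fun w => rc (fun w => (a w).re) w + I * rc (fun w => (a w).im) w :=
    funext fun w => by rw [mul_comm, re_add_im]
  have h1 := GL_d (Tst_ic2 ha.re.ic hz)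
  have h2 := (GL_d (Tst_ic2 ha.im.ic hz)).const_mul I
  constructor
  · conv_lhs => rw [e]
    rw [gd_add h1 h2, gd_const_mul]
  · conv_lhs => rw [e]
    rw [gb_add h1 h2, gb_const_mul]

theorem Cur2_left {a : E n → ℂ} (ha : IC a) (b : E n → ℂ) (q : Fin p → E n → ℝ) (l : Fin p)
    {x : Fr n p} (hx : x.1 ≠ 0) : dx a b q l x =
      dx (rc fun w => (a w).re) b q l x + I * dx (rc fun w => (a w).im) b q l x := by
  rw [dx, dx, dx, ← mdC_update_smul, ← mdC_update_add]
  congr 2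
  ext i j
  simp only [gg, Matrix.add_apply, Matrix.smul_apply, Matrix.of_apply, smul_eq_mul, rc,
    (Cur2_split ha hx _).1]
  linear_combination (-gl b x.1 x.2 i j) * re_add_im (a x.1)

theorem Cur2_right (a : E n → ℂ) {b : E n → ℂ} (hb : IC b) (q : Fin p → E n → ℝ) (l : Fin p)
    {x : Fr n p} (hx : x.1 ≠ 0) : dx a b q l x =
      dx a (rc fun w => (b w).re) q l x + I * dx a (rc fun w => (b w).im) q l x := by
  rw [dx, dx, dx, ← mdC_update_smul, ← mdC_update_add, gl_split hb hx]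
  congr 2
  ext i j
  simp only [gg, Matrix.add_apply, Matrix.smul_apply, Matrix.of_apply, smul_eq_mul,
    (Cur2_split hb hx _).2]
  ring

theorem Cur2_int (h : IsCur S) {g g₁ g₂ : Fr n p → ℂ} (h₁ : Tst g₁) (h₂ : Tst g₂) (c : ℂ)
    (e : ∀ x : Fr n p, x.1 ≠ 0 → g x = g₁ x + c * g₂ x) :
    ∫ x, g x ∂S = ∫ x, g₁ x ∂S + c * ∫ x, g₂ x ∂S := by
  rw [integral_congr_ae (h.ne.mono e), integral_add (h.integrable h₁)
    ((h.integrable h₂).const_mul c), integral_const_mul]

/-- `dx` is complex bilinear in `a, b` off the origin; split into real and imaginary parts. -/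
theorem Closed.dx_zero (hc : Closed S) (h : IsCur S) {a b : E n → ℂ} (ha : IC a) (hb : IC b)
    (hq : Pots q) (l : Fin p) : ∫ x, dx a b q l x ∂S = 0 := by
  have h1 : ∀ u, LH 0 u → ∫ x, dx (rc u) b q l x ∂S = 0 := fun u hu => by
    rw [Cur2_int h (tst_dx hu.ic hb.re.ic hq l) (tst_dx hu.ic hb.im.ic hq l) I
      fun x hx => Cur2_right _ hb q l hx, closed_iff.1 hc _ _ hu hb.re q hq l,
      closed_iff.1 hc _ _ hu hb.im q hq l, mul_zero, add_zero]
  rw [Cur2_int h (tst_dx ha.re.ic hb hq l) (tst_dx ha.im.ic hb hq l) I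
    fun x hx => Cur2_left ha b q l hx, h1 _ ha.re, h1 _ ha.im, mul_zero, add_zero]

/-- The conjugate identity: `mdC_conj`, `gg_conj`, `gl_conj` applied to `conj a`, `conj b`. -/
theorem Closed.dx_zero' (hc : Closed S) (h : IsCur S) {a b : E n → ℂ} (ha : IC a) (hb : IC b)
    (hq : Pots q) (l : Fin p) :
    ∫ x, mdC (update (fun l' => lv (q l') x) l (gg b a x.1 x.2 + a x.1 • gl b x.1 x.2)) ∂S = 0 := by
  have h1 := congrArg conj (hc.dx_zero h ha.conj hb.conj hq l)
  rw [map_zero, ← integral_conj] at h1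
  refine Eq.trans (integral_congr_ae (h.ne.mono fun x hx => ?_)) h1
  beta_reduce
  rw [dx, mdC_conj, gg_conj, gl_conj (Tst_ic2 hb hx)]
  congr 1
  funext l'
  rcases eq_or_ne l' l with rfl | hl
  · rw [update_self, update_self, Matrix.conjTranspose_add, Matrix.conjTranspose_smul,
      Matrix.conjTranspose_conjTranspose, Matrix.conjTranspose_conjTranspose, star_def, conj_conj]
  · rw [update_of_ne hl, update_of_ne hl]
    exact ((hq l').elim fun _ h => h.lv_herm hx).symm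

theorem Closed.gl_zero (hc : Closed S) (h : IsCur S) {b : E n → ℂ} (hb : IC b) (hq : Pots q)
    (l : Fin p) : ∫ x, mdC (update (fun l' => lv (q l') x) l (gl b x.1 x.2)) ∂S = 0 := by
  refine Eq.trans (integral_congr_ae (Eventually.of_forall fun x => ?_))
    (hc.dx_zero h (ic_const 1) hb hq l)
  beta_reduce
  rw [dx, one_smul]
  congr 2
  ext i j
  simp [gg, gd_const]

theorem Closed.gg_eq (hc : Closed S) (h : IsCur S) {a b : E n → ℂ} (ha : IC a) (hb : IC b)
    (hq : Pots q) (l : Fin p) :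
    ∫ x, mdC (update (fun l' => lv (q l') x) l (gg a b x.1 x.2)) ∂S =
      -∫ x, a x.1 * mdC (update (fun l' => lv (q l') x) l (gl b x.1 x.2)) ∂S := by
  have h1 := hc.dx_zero h ha hb hq l
  simp only [dx_eq] at h1
  rw [integral_add (h.integrable (tst_gg hq l ha hb))
    (h.integrable ((tst_gl hq l hb).mul_left ha))] at h1
  exact eq_neg_of_add_eq_zero_left h1

theorem Closed.gg_eq' (hc : Closed S) (h : IsCur S) {a b : E n → ℂ} (ha : IC a) (hb : IC b)
    (hq : Pots q) (l : Fin p) :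
    ∫ x, mdC (update (fun l' => lv (q l') x) l (gg a b x.1 x.2)) ∂S =
      -∫ x, b x.1 * mdC (update (fun l' => lv (q l') x) l (gl a x.1 x.2)) ∂S := by
  have h1 := hc.dx_zero' h hb ha hq l
  simp only [mdC_update_add, mdC_update_smul] at h1
  rw [integral_add (h.integrable (tst_gg hq l ha hb))
    (h.integrable ((tst_gl hq l ha).mul_left hb))] at h1
  exact eq_neg_of_add_eq_zero_left h1

theorem Closed.symm (hc : Closed S) (h : IsCur S) {a b : E n → ℝ} (ha : LH 0 a) (hb : LH 0 b)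
    (hq : Pots q) (l : Fin p) : pr S a (update q l b) = pr S b (update q l a) := by
  refine ofReal_injective ?_
  rw [h.pr_eqC a (hq.update l hb), h.pr_eqC b (hq.update l ha)]
  simp only [dc_update]
  exact neg_injective ((hc.gg_eq h ha.ic hb.ic hq l).symm.trans (hc.gg_eq' h ha.ic hb.ic hq l))

theorem Closed.p1_update (hc : Closed S) (h : IsCur S) {b : E n → ℝ} (hb : LH 0 b) (hq : Pots q)
    (l : Fin p) : p1 S (update q l b) = 0 := by
  rw [p1, hc.symm h (lh_const 1) hb hq l, pr_update_const]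

theorem Cur2_sub {D : ℝ} {u u' : E n → ℝ} (h : LH D u) (h' : LH D u') :
    LH 0 fun z => u z - u' z := by
  simpa using h.sub h'

/-- Telescoping between `q` and `fun l z => D l * lg z`. -/
theorem Closed.p1_deg (hc : Closed S) (h : IsCur S) {D : Fin p → ℝ} (hq : ∀ l, LH (D l) (q l)) :
    p1 S q = (∏ l, D l) * mass S := by
  have h1 : ∀ l, LH (D l) fun z : E n => D l * lg z := fun l => by
    simpa using lh_lg.const_mul (D l)
  have h2 := h.pr_telescope (bm_const 1) (q := fun l z => D l * lg z) (fun l => ⟨_, h1 l⟩)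
    (q' := q) fun l => ⟨_, hq l⟩
  have h3 := h2.trans (Finset.sum_eq_zero fun l _ => hc.p1_update h (Cur2_sub (hq l) (h1 l))
    (fun j => ⟨_, mxq_forall (P := fun l u => LH (D l) u) h1 hq l j⟩) l)
  rw [sub_eq_zero, pr_const_mul_all S _ (fun _ => lg) D] at h3
  exact h3

theorem Closed.p1_one (hc : Closed S) (h : IsCur S) (hq : ∀ l, LH 1 (q l)) : p1 S q = mass S := by
  simpa using hc.p1_deg h (D := fun _ => 1) hq

theorem Cur2_upd (hc : Closed S) (h : IsCur S) {u b : E n → ℝ} {D ε : ℝ} (hu : PL D u)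
    (hq : ∀ l, PL 1 (q l)) (hb : ∀ z, z ≠ 0 → |b z| ≤ ε) (l : Fin p) :
    |pr S b (update q l u)| ≤ ε * (D * mass S) := by
  refine (h.abs_pr_le hb (PPs.update (fun l => ⟨_, hq l⟩) l hu)).trans_eq ?_
  rw [hc.p1_deg h (D := update (fun _ => 1) l D) fun l' => ?_,
    Finset.prod_update_of_mem (Finset.mem_univ l), Finset.prod_const_one, mul_one]
  rcases eq_or_ne l' l with rfl | hl
  · rw [update_self, update_self]
    exact hu.lh
  · rw [update_of_ne hl, update_of_ne hl]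
    exact (hq l').lh

/-- Comparison: telescoping, `Closed.symm`, `pr_update_sub`, `abs_pr_le`, `p1_deg`. -/
theorem Closed.cmp (hc : Closed S) (h : IsCur S) {a u₀ u₁ : E n → ℝ} {D ε : ℝ} (h₀ : PL D u₀)
    (h₁ : PL D u₁) (ha : ∀ z, z ≠ 0 → a z = u₁ z - u₀ z) (hq : ∀ l, PL 1 (q l))
    (hq' : ∀ l, PL 1 (q' l)) (hε : ∀ l z, z ≠ 0 → |q' l z - q l z| ≤ ε) :
    |pr S a q' - pr S a q| ≤ 2 * p * D * ε * mass S := by
  have ha0 : LH 0 a := (Cur2_sub h₁.lh h₀.lh).congr ha
  rw [h.pr_telescope ha0.bm (fun l => ⟨_, (hq l).lh⟩) fun l => ⟨_, (hq' l).lh⟩]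
  refine (Finset.abs_sum_le_sum_abs _ _).trans ((Finset.sum_le_sum
    (g := fun _ => 2 * (ε * (D * mass S))) fun l _ => ?_).trans_eq ?_)
  · have hm : ∀ j, PL 1 (mxq q q' l j) := mxq_forall (P := fun _ u => PL 1 u) hq hq' l
    have hm' : Pots (mxq q q' l) := fun j => ⟨_, (hm j).lh⟩
    have hb := Cur2_sub (hq' l).lh (hq l).lh
    rw [hc.symm h ha0 hb hm' l, h.pr_congr (b := fun z => q' l z - q l z)
      (q' := update (mxq q q' l) l fun z => u₁ z - u₀ z) (fun _ _ => rfl) fun l' z hz => ?_,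
      h.pr_update_sub hb.bm hm' l h₁.lh h₀.lh, two_mul]
    · exact (abs_sub _ _).trans (add_le_add (Cur2_upd hc h h₁ hm (hε l) l)
        (Cur2_upd hc h h₀ hm (hε l) l))
    · rcases eq_or_ne l' l with rfl | hl
      · rw [update_self, update_self]
        exact ha z hz
      · rw [update_of_ne hl, update_of_ne hl]
  · rw [Finset.sum_const, Finset.card_univ, Fintype.card_fin, nsmul_eq_mul]
    ring

/-- `LH.dom` writes `a` as a difference of plurisubharmonic potentials. -/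
theorem LH.cmp {a : E n → ℝ} (ha : LH 0 a) (p : ℕ) : ∃ C : ℝ, 0 ≤ C ∧
    ∀ (S : Measure (Fr n p)) (q q' : Fin p → E n → ℝ) (ε : ℝ), IsCur S → Closed S →
      (∀ l, PL 1 (q l)) → (∀ l, PL 1 (q' l)) → (∀ l z, z ≠ 0 → |q' l z - q l z| ≤ ε) →
      |pr S a q' - pr S a q| ≤ C * ε * mass S := by
  obtain ⟨C, hC, h1, -⟩ := ha.dom
  rw [add_zero] at h1
  have h0 : PL C fun z : E n => C * lg z := by simpa using pl_lg.const_mul hC
  exact ⟨2 * p * C, by positivity, fun S q q' ε h hc hq hq' hε =>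
    hc.cmp h h0 h1 (fun z _ => by ring) hq hq' hε⟩

theorem eqv_refl : Eqv S S :=
  fun _ _ _ _ => rfl

theorem Eqv.symm (h : Eqv S S') : Eqv S' S :=
  fun a ha q hq => (h a ha q hq).symm

theorem Eqv.trans (h : Eqv S S') (h' : Eqv S' T) : Eqv S T :=
  fun a ha q hq => (h a ha q hq).trans (h' a ha q hq)

theorem Eqv.p1_eq (h : Eqv S S') (hq : Pots q) : p1 S q = p1 S' q :=
  h _ (lh_const 1) q hq

theorem Eqv.mass_eq (h : Eqv S S') : mass S = mass S' :=
  h.p1_eq pots_lg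

theorem Eqv.ic (h : Eqv S S') (hS : IsCur S) (hS' : IsCur S') {a : E n → ℂ} (ha : IC a)
    (hq : Pots q) : ∫ x, a x.1 * dc q x ∂S = ∫ x, a x.1 * dc q x ∂S' := by
  rw [hS.integral_ic ha hq, hS'.integral_ic ha hq, h _ ha.re q hq, h _ ha.im q hq]

theorem Eqv.isCont (h : Eqv S S') (h' : IsCont S') : IsCont S := by
  obtain ⟨Φ, h1, h2⟩ := h'
  exact ⟨Φ, h1, fun a ha q hq => (h a ha q hq).trans (h2 a ha q hq)⟩

theorem DDC.congr (h : DDC Y S S') (h₁ : Eqv S T) (h₂ : Eqv S' T') : DDC Y T T' :=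
  fun a ha q hq => by rw [h a ha q hq, h₁ a ha q hq, h₂ a ha q hq]

theorem Eqv.ddc (h : Eqv S S') : DDC (0 : Measure (Fr n (p + 1))) S S' :=
  fun a ha q hq => by
  rw [h a ha q hq, sub_self, p1, pr, integral_zero_measure]

theorem DDC.slot (h : DDC Y S S') {a : E n → ℝ} (ha : LH 0 a) {u : Fin (p + 1) → E n → ℝ}
    (hu : Pots u) (l : Fin (p + 1)) : p1 Y (update u l a) =
      pr S a (fun j => u (l.succAbove j)) - pr S' a fun j => u (l.succAbove j) := by
  rw [p1, pr_update_eq_cons]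
  exact h a ha _ fun j => hu _

/-- `gl_split`, `dc_update`, `IsCur.integral_ic`. -/
theorem DDC.slotC (h : DDC Y S S') (hY : IsCur Y) (hS : IsCur S) (hS' : IsCur S') {a : E n → ℂ}
    (ha : IC a) {u : Fin (p + 1) → E n → ℝ} (hu : Pots u) (l : Fin (p + 1)) :
    ∫ x, mdC (update (fun l' => lv (u l') x) l (gl a x.1 x.2)) ∂Y =
      ∫ x, a x.1 * dc (fun j => u (l.succAbove j)) x ∂S -
        ∫ x, a x.1 * dc (fun j => u (l.succAbove j)) x ∂S' := by
  have hq : Pots fun j => u (l.succAbove j) := fun j => hu _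
  have h1 : ∀ b, LH 0 b → ∫ x, mdC (update (fun l' => lv (u l') x) l (gl (rc b) x.1 x.2)) ∂Y =
      (pr S b (fun j => u (l.succAbove j)) : ℂ) - pr S' b fun j => u (l.succAbove j) :=
    fun b hb => by
      rw [← ofReal_sub, ← h.slot hb hu l, hY.p1_eqC (hu.update l hb)]
      simp only [dc_update]
  rw [Cur2_int hY (tst_gl hu l ha.re.ic) (tst_gl hu l ha.im.ic) I fun x hx => by
    rw [gl_split ha hx, mdC_update_add, mdC_update_smul], h1 _ ha.re, h1 _ ha.im,
    hS.integral_ic ha hq, hS'.integral_ic ha hq]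
  ring

theorem DDC.abs_le (h : DDC Y S S') (hS : IsCur S) (hS' : IsCur S') (hc : Closed S)
    (hc' : Closed S') {a : E n → ℝ} (ha : LH 0 a) {ε : ℝ} (hε : ∀ z, z ≠ 0 → |a z| ≤ ε)
    {D : Fin p → ℝ} (hq : ∀ l, PL (D l) (q l)) :
    |p1 Y (Fin.cons a q)| ≤ ε * (∏ l, D l) * (mass S + mass S') := by
  have hp : PPs q := fun l => ⟨_, hq l⟩
  have h1 := hS.abs_pr_le hε hp
  have h2 := hS'.abs_pr_le hε hp
  rw [hc.p1_deg hS fun l => (hq l).lh] at h1
  rw [hc'.p1_deg hS' fun l => (hq l).lh] at h2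
  rw [h a ha q hp.pots]
  refine (abs_sub _ _).trans ((add_le_add h1 h2).trans_eq ?_)
  ring

/-- Telescoping, `DDC.slot`. -/
theorem DDC.cmp (h : DDC Y S S') (hY : IsCur Y) (hS : IsCur S) (hS' : IsCur S') (hc : Closed S)
    (hc' : Closed S') {u u' : Fin (p + 1) → E n → ℝ} {D ε : Fin (p + 1) → ℝ}
    (hu : ∀ l, PL (D l) (u l)) (hu' : ∀ l, PL (D l) (u' l))
    (hε : ∀ l z, z ≠ 0 → |u' l z - u l z| ≤ ε l) :
    |p1 Y u' - p1 Y u| ≤ (∑ l, ε l * ∏ j, D (l.succAbove j)) * (mass S + mass S') := by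
  rw [p1, p1, hY.pr_telescope (bm_const 1) (fun l => ⟨_, (hu l).lh⟩) (fun l => ⟨_, (hu' l).lh⟩),
    Finset.sum_mul]
  refine (Finset.abs_sum_le_sum_abs _ _).trans (Finset.sum_le_sum fun l _ => ?_)
  rw [pr_update_eq_cons]
  exact h.abs_le hS hS' hc hc' (Cur2_sub (hu' l).lh (hu l).lh) (hε l)
    (D := fun j => D (l.succAbove j))
    fun j => mxq_forall (P := fun l u => PL (D l) u) hu hu' l _

theorem DDC.cmp_one (h : DDC Y S S') (hY : IsCur Y) (hS : Cl1 S) (hS' : Cl1 S')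
    {u u' : Fin (p + 1) → E n → ℝ} {ε : ℝ} (hu : ∀ l, PL 1 (u l)) (hu' : ∀ l, PL 1 (u' l))
    (hε : ∀ l z, z ≠ 0 → |u' l z - u l z| ≤ ε) : |p1 Y u' - p1 Y u| ≤ 2 * (p + 1) * ε := by
  refine (h.cmp hY hS.cur hS'.cur hS.closed hS'.closed (D := fun _ => 1) (ε := fun _ => ε)
    hu hu' hε).trans_eq ?_
  rw [hS.mass, hS'.mass, Finset.prod_const_one, Finset.sum_const, Finset.card_univ,
    Fintype.card_fin, nsmul_eq_mul]
  push_cast
  ring

theorem DDC.cmp_cons (h : DDC Y S S') (hY : IsCur Y) (hS : Cl1 S) (hS' : Cl1 S') {w : E n → ℝ}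
    {D ε : ℝ} (hw : PL D w) (hq : ∀ l, PL 1 (q l)) (hq' : ∀ l, PL 1 (q' l))
    (hε : ∀ l z, z ≠ 0 → |q' l z - q l z| ≤ ε) :
    |p1 Y (Fin.cons w q') - p1 Y (Fin.cons w q)| ≤ 2 * p * D * ε := by
  refine (h.cmp hY hS.cur hS'.cur hS.closed hS'.closed (D := Fin.cons D fun _ => 1)
    (ε := Fin.cons 0 fun _ => ε) (fun l => ?_) (fun l => ?_) fun l z hz => ?_).trans_eq ?_
  · exact Fin.cases hw hq l
  · exact Fin.cases hw hq' l
  · refine Fin.cases ?_ (fun l => hε l z hz) l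
    simp
  · have h1 : ∀ i : Fin p, ∏ j, (Fin.cons D fun _ => 1 : Fin (p + 1) → ℝ) (i.succ.succAbove j) =
        D := fun i => by
      have h2 := Fin.prod_univ_succAbove (Fin.cons D fun _ => 1 : Fin (p + 1) → ℝ) i.succ
      rw [Fin.prod_univ_succ] at h2
      simpa using h2.symm
    rw [hS.mass, hS'.mass, Fin.sum_univ_succ]
    simp only [h1, Fin.cons_zero, Fin.cons_succ, zero_mul, zero_add, Finset.sum_const,
      Finset.card_univ, Fintype.card_fin, nsmul_eq_mul]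
    ring

end Pool.Agent.Lib.MP_a47f92_an
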