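import Pool.Agent.Lib.MP_a47f92_an.G.Cur1b
import Pool.Agent.Lib.MP_a47f92_an.G.Cur2

set_option autoImplicit false
set_option linter.unusedSectionVars false

namespace Pool.Agent.Lib.MP_a47f92_an

open MeasureTheory Filter Topology Set Complex Metric Function
open scoped ContDiff ComplexConjugate ComplexOrder Matrix ENNReal NNReal

/-! Operations on currents. -/

variable {n p d : ℕ} {S S' T T' : Measure (Fr n p)} {Y Y' : Measure (Fr n (p + 1))}
  {q : Fin p → E n → ℝ} {a χ : E n → ℝ} {F : E n → E n} {K K' : Set (E n)} {g : Fr n p → ℂ}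

theorem Cur3_aesm {Z : Type} [NormedAddCommGroup Z] (h0 : ∀ᵐ x ∂S, x.1 ≠ 0) {f : Fr n p → Z}
    (hf : ContinuousOn f {x | x.1 ≠ 0}) : AEStronglyMeasurable f S := by
  have hm : MeasurableSet {x : Fr n p | x.1 ≠ 0} :=
    (isOpen_ne.preimage continuous_fst).measurableSet
  have h1 := hf.aestronglyMeasurable (μ := S) hm
  rwa [Measure.restrict_eq_self_of_ae_mem (s := {x : Fr n p | x.1 ≠ 0}) h0] at h1

theorem Cur3_ne (h : IsCur S) (hF : IsLift d F) : ∀ᵐ x ∂S.map (fw F), x.1 ≠ 0 :=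
  (ae_map_iff (continuous_fw hF).measurable.aemeasurable
    (isOpen_ne.preimage continuous_fst).measurableSet).2 (h.ne.mono fun _ hx => hF.ne hx)

theorem Cur3_meas (hχ : Measurable χ) : Measurable fun x : Fr n p => ENNReal.ofReal (χ x.1) :=
  (hχ.comp measurable_fst).ennreal_ofReal

theorem integral_map_fw (h : IsCur S) (hF : IsLift d F) (hg : Tst g) :
    ∫ x, g x ∂S.map (fw F) = ∫ x, g (fw F x) ∂S :=
  integral_map (continuous_fw hF).measurable.aemeasurable (Cur3_aesm (Cur3_ne h hF) hg.cont)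

theorem lp_map_fw (S : Measure (Fr n p)) (hF : IsLift d F) {g : Fr n p → ℝ} (hg : Measurable g) :
    lp (S.map (fw F)) g = lp S fun x => g (fw F x) :=
  lintegral_map hg.ennreal_ofReal (continuous_fw hF).measurable

theorem IsCur.map_fw (h : IsCur S) (hF : IsLift d F) (hd : 1 ≤ d) : IsCur (S.map (fw F)) := by
  have := h.sf
  refine isCur_of inferInstance (Cur3_ne h hF) ?_
  rw [lp_map_fw S hF measurable_dens]
  have e : (fun x : Fr n p => dens (fw F x)) = dn fun _ z => lg (F z) :=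
    funext fun x => (dn_fw pots_lg hF hd x).symm
  rw [e, h.lp_dn (pps_lg.comp hF)]
  exact ENNReal.ofReal_ne_top

theorem IsCur.pr_map_fw (h : IsCur S) (hF : IsLift d F) (hd : 1 ≤ d) (ha : Measurable a)
    (hq : Pots q) : pr (S.map (fw F)) a q = pr S (fun z => a (F z)) fun l z => q l (F z) := by
  have hm : Measurable fun x : Fr n p => a x.1 * dn q x :=
    (ha.comp measurable_fst).mul (measurable_dn hq)
  rw [(h.map_fw hF hd).pr_eq, h.pr_eq, integral_map (continuous_fw hF).measurable.aemeasurable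
    hm.aestronglyMeasurable]
  refine integral_congr_ae (Eventually.of_forall fun x => ?_)
  simp only [dn_fw hq hF hd]
  rfl

theorem Closed.map_fw (hc : Closed S) (h : IsCur S) (hF : IsLift d F) (hd : 1 ≤ d) :
    Closed (S.map (fw F)) := by
  refine closed_iff.2 fun a b ha hb q hq l => ?_
  rw [integral_map_fw h hF (tst_dx ha.ic hb.ic hq l),
    ← closed_iff.1 hc _ _ (ha.comp0 hF) (hb.comp0 hF) _ (hq.comp hF) l]
  exact integral_congr_ae (h.ne.mono fun x hx => (dx_fw ha.ic hb.ic hq hF l hx).symm)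

theorem exists_mass_map_le (hF : IsLift d F) (hd : 1 ≤ d) (p : ℕ) : ∃ C : ℝ, 0 ≤ C ∧
    ∀ S : Measure (Fr n p), IsCur S → mass (S.map (fw F)) ≤ C * mass S := by
  obtain ⟨C, h0, hC⟩ := ((pots_lg (n := n) (p := p)).comp hF).pr_le
  refine ⟨C, h0, fun S h => ?_⟩
  have h1 := hC S (fun _ => 1) 1 h fun _ _ => by simp
  rw [mul_one] at h1
  rw [mass, p1, h.pr_map_fw hF hd measurable_const pots_lg]
  exact (le_abs_self _).trans h1

/-- Use `dens_fw_ne`. -/
theorem On.map_fw (h : On S K) (hF : IsLift d F) (hd : 1 ≤ d) (hK' : MeasurableSet K')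
    (hm : MapsTo F K K') : On (S.map (fw F)) K' := by
  refine (ae_map_iff (continuous_fw hF).measurable.aemeasurable ?_).2
    (Eventually.mono h fun x hx h1 => hm (hx (dens_fw_ne hF hd h1)))
  exact MeasurableSet.imp (measurable_dens (measurableSet_singleton 0).compl)
    (measurable_fst hK')

theorem isCur_zero : IsCur (0 : Measure (Fr n p)) := ⟨inferInstance, by simp, integrable_zero_measure⟩

theorem closed_zero : Closed (0 : Measure (Fr n p)) := fun _ _ _ _ _ _ _ => integral_zero_measure _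

theorem pr_zero (a : E n → ℝ) (q : Fin p → E n → ℝ) : pr (0 : Measure (Fr n p)) a q = 0 :=
  integral_zero_measure _

theorem IsCur.smul (h : IsCur S) {c : ℝ≥0∞} (hc : c ≠ ⊤) : IsCur (c • S) := by
  have := h.sf
  exact ⟨inferInstance, Measure.ae_smul_measure h.ne c, h.int.smul_measure hc⟩

theorem pr_smul (S : Measure (Fr n p)) (c : ℝ≥0∞) (a : E n → ℝ) (q : Fin p → E n → ℝ) :
    pr (c • S) a q = c.toReal * pr S a q := integral_smul_measure _ _

theorem mass_smul (S : Measure (Fr n p)) (c : ℝ≥0∞) : mass (c • S) = c.toReal * mass S :=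
  pr_smul S c (fun _ => 1) fun _ => lg

theorem lp_smul (S : Measure (Fr n p)) (c : ℝ≥0∞) (g : Fr n p → ℝ) : lp (c • S) g = c * lp S g :=
  lintegral_smul_measure _ _

theorem Closed.smul (hc : Closed S) (c : ℝ≥0∞) : Closed (c • S) := fun a b ha hb q hq l => by
  rw [integral_smul_measure, hc a b ha hb q hq l, smul_zero]

theorem On.smul (h : On S K) (c : ℝ≥0∞) : On (c • S) K := Measure.ae_smul_measure h c

theorem IsCont.smul (h : IsCont S) (c : ℝ≥0∞) : IsCont (c • S) := by
  obtain ⟨Φ, h1, h2⟩ := h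
  refine ⟨fun I J w => (c.toReal : ℂ) * Φ I J w, fun I J => ⟨continuous_const.mul (h1 I J).1,
    (h1 I J).2.1.mul_left, fun h0 => (h1 I J).2.2 (tsupport_mul_subset_right h0)⟩,
    fun a ha q hq => ?_⟩
  rw [pr_smul, h2 a ha q hq, ← integral_const_mul]
  refine integral_congr_ae (Eventually.of_forall fun w => ?_)
  simp only [mul_assoc, ← Finset.mul_sum, re_ofReal_mul]
  ring

theorem cl1_normalise (h : IsCur S) (hc : Closed S) (hm : 0 < mass S) :
    Cl1 (ENNReal.ofReal (mass S)⁻¹ • S) :=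
  ⟨h.smul ENNReal.ofReal_ne_top, hc.smul _, by
    rw [mass_smul, ENNReal.toReal_ofReal (inv_nonneg.2 hm.le), inv_mul_cancel₀ hm.ne']⟩

theorem IsCur.add (h : IsCur S) (h' : IsCur S') : IsCur (S + S') := by
  have := h.sf
  have := h'.sf
  exact ⟨inferInstance, ae_add_measure_iff.2 ⟨h.ne, h'.ne⟩, h.int.add_measure h'.int⟩

theorem IsCur.pr_add (h : IsCur S) (h' : IsCur S') (ha : BM a) (hq : Pots q) :
    pr (S + S') a q = pr S a q + pr S' a q := by
  rw [(h.add h').pr_eq, h.pr_eq, h'.pr_eq,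
    integral_add_measure (h.int_mul_dn ha hq) (h'.int_mul_dn ha hq)]

theorem IsCur.p1_add (h : IsCur S) (h' : IsCur S') (hq : Pots q) :
    p1 (S + S') q = p1 S q + p1 S' q := h.pr_add h' (bm_const 1) hq

theorem Closed.add (hc : Closed S) (hc' : Closed S') (h : IsCur S) (h' : IsCur S') :
    Closed (S + S') := by
  refine closed_iff.2 fun a b ha hb q hq l => ?_
  have ht := tst_dx ha.ic hb.ic hq l
  rw [integral_add_measure (h.integrable ht) (h'.integrable ht), closed_iff.1 hc a b ha hb q hq l,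
    closed_iff.1 hc' a b ha hb q hq l, add_zero]

theorem On.add (h : On S K) (h' : On S' K) : On (S + S') K := ae_add_measure_iff.2 ⟨h, h'⟩

theorem DDC.add (h : DDC Y S T) (h' : DDC Y' T S') (hY : IsCur Y) (hY' : IsCur Y') :
    DDC (Y + Y') S S' := fun a ha q hq => by
  rw [hY.p1_add hY' (hq.cons ha), h a ha q hq, h' a ha q hq, sub_add_sub_cancel]

theorem isCur_finsum {ι : Type} (A : Finset ι) {S : ι → Measure (Fr n p)}
    (h : ∀ i ∈ A, IsCur (S i)) : IsCur (∑ i ∈ A, S i) :=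
  Finset.sum_induction S IsCur (fun _ _ => IsCur.add) isCur_zero h

theorem integral_finsum {ι : Type} (A : Finset ι) {S : ι → Measure (Fr n p)}
    (h : ∀ i ∈ A, IsCur (S i)) (hg : Tst g) :
    ∫ x, g x ∂(∑ i ∈ A, S i) = ∑ i ∈ A, ∫ x, g x ∂S i :=
  integral_finsetSum_measure fun i hi => (h i hi).integrable hg

theorem pr_finsum {ι : Type} (A : Finset ι) {S : ι → Measure (Fr n p)}
    (h : ∀ i ∈ A, IsCur (S i)) (ha : BM a) (hq : Pots q) :
    pr (∑ i ∈ A, S i) a q = ∑ i ∈ A, pr (S i) a q := by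
  rw [(isCur_finsum A h).pr_eq, integral_finsetSum_measure fun i hi => (h i hi).int_mul_dn ha hq]
  exact Finset.sum_congr rfl fun i hi => ((h i hi).pr_eq a q).symm

theorem closed_finsum {ι : Type} (A : Finset ι) {S : ι → Measure (Fr n p)}
    (h : ∀ i ∈ A, IsCur (S i)) (hc : ∀ i ∈ A, Closed (S i)) : Closed (∑ i ∈ A, S i) := by
  refine closed_iff.2 fun a b ha hb q hq l => ?_
  rw [integral_finsum A h (tst_dx ha.ic hb.ic hq l)]
  exact Finset.sum_eq_zero fun i hi => closed_iff.1 (hc i hi) a b ha hb q hq l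

theorem on_finsum {ι : Type} (A : Finset ι) {S : ι → Measure (Fr n p)}
    (h : ∀ i ∈ A, On (S i) K) : On (∑ i ∈ A, S i) K :=
  Finset.sum_induction S (fun T => On T K) (fun _ _ => On.add) (by simp [On]) h

theorem isCur_sum {S : ℕ → Measure (Fr n p)} (h : ∀ i, IsCur (S i))
    (hs : Summable fun i => mass (S i)) : IsCur (Measure.sum S) := by
  have := fun i => (h i).sf
  refine isCur_of inferInstance (Measure.ae_sum_iff.2 fun i => (h i).ne) ?_
  have e : lp (Measure.sum S) dens = ∑' i, lp (S i) dens := lintegral_sum_measure _ _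
  rw [e, tsum_congr fun i => (h i).lp_dens,
    ← ENNReal.ofReal_tsum_of_nonneg (fun i => (h i).mass_nonneg) hs]
  exact ENNReal.ofReal_ne_top

theorem hasSum_pr {S : ℕ → Measure (Fr n p)} (h : ∀ i, IsCur (S i))
    (hs : Summable fun i => mass (S i)) (ha : BM a) (hq : Pots q) :
    HasSum (fun i => pr (S i) a q) (pr (Measure.sum S) a q) := by
  rw [(isCur_sum h hs).pr_eq, funext fun i => (h i).pr_eq a q]
  exact hasSum_integral_measure ((isCur_sum h hs).int_mul_dn ha hq)

theorem on_sum {S : ℕ → Measure (Fr n p)} (h : ∀ i, On (S i) K) : On (Measure.sum S) K :=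
  Measure.ae_sum_iff.2 h

theorem IsCur.mono (h : IsCur S) (h' : S' ≤ S) (hs : SFinite S') : IsCur S' :=
  ⟨hs, ae_mono h' h.ne, h.int.mono_measure h'⟩

theorem leP_of_le (h : IsCur S) (h' : IsCur S') (hle : S' ≤ S) : LeP S' S := fun q hq => by
  rw [h.p1_eq, h'.p1_eq]
  exact integral_mono_measure hle (Eventually.of_forall (dn_nonneg hq)) (h.int_dn hq.pots)

theorem lp_mono_left (hle : S' ≤ S) (g : Fr n p → ℝ) : lp S' g ≤ lp S g := lintegral_mono' hle le_rfl

theorem IsCur.toMlt (h : IsCur S) (hχ : BM χ) : IsCur (mlt S χ) := by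
  have := h.sf
  obtain ⟨C, hC⟩ := hχ.bd
  refine (h.smul (c := ENNReal.ofReal C) ENNReal.ofReal_ne_top).mono ?_
    (by unfold mlt; infer_instance)
  rw [← withDensity_const]
  exact withDensity_mono (Eventually.of_forall fun x =>
    ENNReal.ofReal_le_ofReal ((le_abs_self _).trans (hC _)))

theorem integral_mlt (S : Measure (Fr n p)) (hχ : Measurable χ) (h0 : ∀ z, 0 ≤ χ z)
    (g : Fr n p → ℂ) : ∫ x, g x ∂mlt S χ = ∫ x, (χ x.1 : ℂ) * g x ∂S := by
  rw [mlt, integral_withDensity_eq_integral_toReal_smul (Cur3_meas hχ)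
    (Eventually.of_forall fun _ => ENNReal.ofReal_lt_top)]
  simp only [ENNReal.toReal_ofReal (h0 _), real_smul]

theorem pr_mlt (S : Measure (Fr n p)) (hχ : Measurable χ) (h0 : ∀ z, 0 ≤ χ z) (a : E n → ℝ)
    (q : Fin p → E n → ℝ) : pr (mlt S χ) a q = pr S (fun z => χ z * a z) q := by
  rw [pr, pr, mlt, integral_withDensity_eq_integral_toReal_smul (Cur3_meas hχ)
    (Eventually.of_forall fun _ => ENNReal.ofReal_lt_top)]
  simp only [ENNReal.toReal_ofReal (h0 _), smul_eq_mul, mul_assoc]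

theorem lp_mlt (S : Measure (Fr n p)) (hχ : Measurable χ) (h0 : ∀ z, 0 ≤ χ z) {g : Fr n p → ℝ}
    (hg : Measurable g) : lp (mlt S χ) g = lp S fun x => χ x.1 * g x := by
  rw [lp, lp, mlt, lintegral_withDensity_eq_lintegral_mul _ (Cur3_meas hχ) hg.ennreal_ofReal]
  simp only [Pi.mul_apply, ENNReal.ofReal_mul (h0 _)]

theorem mlt_add_mlt (S : Measure (Fr n p)) (hχ : Measurable χ) (h0 : ∀ z, 0 ≤ χ z)
    (h1 : ∀ z, χ z ≤ 1) : mlt S χ + mlt S (fun z => 1 - χ z) = S := by
  rw [mlt, mlt, ← withDensity_add_left (Cur3_meas hχ)]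
  refine Eq.trans (congrArg _ (funext fun x => ?_)) withDensity_one
  rw [Pi.add_apply, ← ENNReal.ofReal_add (h0 _) (sub_nonneg.2 (h1 _)), add_sub_cancel,
    ENNReal.ofReal_one, Pi.one_apply]

theorem On.toMlt (h : On S K) (χ : E n → ℝ) : On (mlt S χ) K :=
  (withDensity_absolutelyContinuous S _).ae_le h

theorem on_mlt (S : Measure (Fr n p)) (hχ : Measurable χ) (h : ∀ z, z ≠ 0 → χ z ≠ 0 → z ∈ K) :
    On (mlt S χ) K := by
  refine (ae_withDensity_iff (Cur3_meas hχ)).2 (Eventually.of_forall fun x h1 h2 => h _ ?_ ?_)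
  · exact fun h0 => h2 (by rw [dens, dn, if_pos h0])
  · exact fun h0 => h1 (by rw [h0, ENNReal.ofReal_zero])

end Pool.Agent.Lib.MP_a47f92_an
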