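import Pool.Agent.Lib.MP_a47f92_an.G.GL

set_option autoImplicit false
set_option linter.unusedSectionVars false

namespace Pool.Agent.Lib.MP_a47f92_an

open MeasureTheory Filter Topology Set Complex Metric Function
open scoped ContDiff ComplexConjugate ComplexOrder Matrix ENNReal NNReal

/-! Radial kernels. -/

variable {V : Type} [NormedAddCommGroup V] [InnerProductSpace ℂ V] [NormedSpace ℝ V]
  [IsScalarTower ℝ ℂ V] [FiniteDimensional ℝ V] [MeasurableSpace V] [BorelSpace V]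
  {μ : Measure V} [μ.IsAddHaarMeasure]

theorem gb_normSq (A B : V) : gb B (rc fun A : V => ‖A‖ ^ 2) A = inner ℂ B A := by
  have e : (rc fun A : V => ‖A‖ ^ 2) = fun A : V => inner ℂ A A := funext fun A => by
    rw [inner_self_eq_norm_sq_to_K, rc, ofReal_pow]
    rfl
  have h : ∀ y, fderiv ℝ (fun A : V => inner ℂ A A) A y = inner ℂ A y + inner ℂ y A := fun y => by
    simpa using fderiv_inner_apply ℂ (differentiableAt_id (𝕜 := ℝ) (x := A))
      (differentiableAt_id (𝕜 := ℝ) (x := A)) y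
  rw [e, gb, h, h, inner_smul_left, inner_smul_right, conj_I]
  linear_combination ((inner ℂ A B - inner ℂ B A) / 2 : ℂ) * I_mul_I

theorem contDiff_normSqV : ContDiff ℝ ∞ fun A : V => ‖A‖ ^ 2 := contDiff_norm_sq ℂ

/-- `G A = c g (1 - ‖A‖ ^ 2)`, `k A = c g' (1 - ‖A‖ ^ 2)` with `g = expNegInvGlue`, whose derivative
is `x⁻¹ ^ 2 * g x` (`expNegInvGlue.hasDerivAt_polynomial_eval_inv_mul`); use `gb_rcomp`. -/
theorem exists_kn (V : Type) [NormedAddCommGroup V] [InnerProductSpace ℂ V] [NormedSpace ℝ V]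
    [IsScalarTower ℝ ℂ V] [FiniteDimensional ℝ V] [MeasurableSpace V] [BorelSpace V]
    (μ : Measure V) [μ.IsAddHaarMeasure] : Nonempty (Kn V μ) := by
  obtain ⟨g, hg⟩ : ∃ g : ℝ → ℝ, g = fun x => x⁻¹ ^ 2 * expNegInvGlue x := ⟨_, rfl⟩
  have hd : ∀ x, HasDerivAt expNegInvGlue (g x) x := fun x => by
    simpa [hg] using expNegInvGlue.hasDerivAt_polynomial_eval_inv_mul 1 x
  have hs : ContDiff ℝ ∞ g := by
    have := expNegInvGlue.contDiff_polynomial_eval_inv_mul (n := ⊤) (Polynomial.X ^ 2)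
    simp only [Polynomial.eval_pow, Polynomial.eval_X] at this
    exact hg ▸ this
  have hq : ContDiff ℝ ∞ fun A : V => 1 - ‖A‖ ^ 2 := contDiff_const.sub contDiff_normSqV
  have h1 : ∀ A : V, ‖A‖ < 1 → 0 < 1 - ‖A‖ ^ 2 := fun A hA =>
    sub_pos.2 ((sq_lt_one_iff₀ (norm_nonneg _)).2 hA)
  have h2 : ∀ A : V, 1 ≤ ‖A‖ → expNegInvGlue (1 - ‖A‖ ^ 2) = 0 := fun A hA =>
    expNegInvGlue.zero_of_nonpos (sub_nonpos.2 (one_le_pow₀ hA))
  have h3 : ∀ A : V, ‖A‖ < 1 → 0 < g (1 - ‖A‖ ^ 2) := fun A hA => by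
    have := h1 A hA
    rw [hg]
    exact mul_pos (by positivity) (expNegInvGlue.pos_of_pos this)
  have h4 : ∀ A : V, 1 ≤ ‖A‖ → g (1 - ‖A‖ ^ 2) = 0 := fun A hA => by
    simp only [hg, h2 A hA, mul_zero]
  have h5 : HasCompactSupport fun A : V => g (1 - ‖A‖ ^ 2) :=
    HasCompactSupport.intro (isCompact_closedBall 0 1) fun A hA =>
      h4 A (not_le.1 fun h => hA (mem_closedBall_zero_iff.2 h)).le
  have h6 : 0 < ∫ A : V, g (1 - ‖A‖ ^ 2) ∂μ :=
    (hs.comp hq).continuous.integral_pos_of_hasCompactSupport_nonneg_nonzero h5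
      (fun A => (lt_or_ge ‖A‖ 1).elim (fun h => (h3 A h).le) fun h => (h4 A h).ge) (x := 0)
      (h3 0 (by simp)).ne'
  obtain ⟨c, hc⟩ : ∃ c : ℝ, c = (∫ A : V, g (1 - ‖A‖ ^ 2) ∂μ)⁻¹ := ⟨_, rfl⟩
  have hc0 : 0 < c := hc ▸ inv_pos.2 h6
  refine ⟨⟨fun A => c * g (1 - ‖A‖ ^ 2), fun A => c * expNegInvGlue (1 - ‖A‖ ^ 2),
    contDiff_const.mul (hs.comp hq), contDiff_const.mul (expNegInvGlue.contDiff.comp hq),
    fun A hA => ⟨mul_pos hc0 (h3 A hA), mul_pos hc0 (expNegInvGlue.pos_of_pos (h1 A hA))⟩,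
    fun A hA => ⟨by rw [h4 A hA, mul_zero], by rw [h2 A hA, mul_zero]⟩,
    fun A B h => ⟨by rw [h], by rw [h]⟩, ?_, fun A B => ?_⟩⟩
  · rw [integral_const_mul, hc, inv_mul_cancel₀ h6.ne']
  · have h7 : HasDerivAt (fun x : ℝ => c * expNegInvGlue (1 - x)) (-(c * g (1 - ‖A‖ ^ 2)))
        (‖A‖ ^ 2) := by
      have := ((hd (1 - ‖A‖ ^ 2)).comp (‖A‖ ^ 2) ((hasDerivAt_id _).const_sub 1)).const_mul c
      simpa using this
    rw [← gb_normSq A B, ← ofReal_neg]
    exact gb_rcomp (q := fun A : V => ‖A‖ ^ 2)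
      (contDiff_normSqV.differentiable (by simp) A) h7

theorem Kn.k_nonneg (κ : Kn V μ) (A : V) : 0 ≤ κ.k A :=
  (lt_or_ge ‖A‖ 1).elim (fun h => (κ.pos A h).1.le) fun h => (κ.zero A h).1.ge

theorem Kn.G_nonneg (κ : Kn V μ) (A : V) : 0 ≤ κ.G A :=
  (lt_or_ge ‖A‖ 1).elim (fun h => (κ.pos A h).2.le) fun h => (κ.zero A h).2.ge

theorem Kn.tsupport_k (κ : Kn V μ) : tsupport κ.k ⊆ closedBall 0 1 :=
  closure_minimal (fun A hA => mem_closedBall_zero_iff.2
    (not_le.1 fun h => hA (κ.zero A h).1).le) isClosed_closedBall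

theorem Kn.tsupport_G (κ : Kn V μ) : tsupport κ.G ⊆ closedBall 0 1 :=
  closure_minimal (fun A hA => mem_closedBall_zero_iff.2
    (not_le.1 fun h => hA (κ.zero A h).2).le) isClosed_closedBall

theorem Kn.hcs_k (κ : Kn V μ) : HasCompactSupport κ.k :=
  (isCompact_closedBall 0 1).of_isClosed_subset (isClosed_tsupport _) κ.tsupport_k

theorem Kn.hcs_G (κ : Kn V μ) : HasCompactSupport κ.G :=
  (isCompact_closedBall 0 1).of_isClosed_subset (isClosed_tsupport _) κ.tsupport_G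

theorem Kn.bound (κ : Kn V μ) : ∃ C : ℝ, 0 < C ∧ ∀ A, κ.k A ≤ C ∧ κ.G A ≤ C := by
  obtain ⟨C, hC⟩ := κ.sk.continuous.bounded_above_of_compact_support κ.hcs_k
  obtain ⟨D, hD⟩ := κ.sG.continuous.bounded_above_of_compact_support κ.hcs_G
  refine ⟨max 1 (max C D), lt_max_of_lt_left one_pos, fun A => ⟨?_, ?_⟩⟩
  · exact ((le_abs_self _).trans (hC A)).trans (le_max_of_le_right (le_max_left _ _))
  · exact ((le_abs_self _).trans (hD A)).trans (le_max_of_le_right (le_max_right _ _))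

theorem Kn.lower (κ : Kn V μ) :
    ∃ c : ℝ, 0 < c ∧ ∀ A, ‖A‖ ≤ 3 / 4 → c ≤ κ.k A ∧ c ≤ κ.G A := by
  obtain ⟨A₀, h0, h1⟩ := (isCompact_closedBall (0 : V) (3 / 4)).exists_isMinOn
    ⟨0, mem_closedBall_self (by norm_num)⟩ (κ.sk.continuous.min κ.sG.continuous).continuousOn
  have h2 := κ.pos A₀ ((mem_closedBall_zero_iff.1 h0).trans_lt (by norm_num))
  exact ⟨_, lt_min h2.1 h2.2, fun A hA => le_min_iff.1 (h1 (mem_closedBall_zero_iff.2 hA))⟩

theorem Kern_supp {q : V → ℝ} : tsupport (rc q) ⊆ tsupport q :=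
  closure_mono fun z hz h => hz (by simp only [rc, h, ofReal_zero])

theorem Kern_int {q : V → ℝ} (hq : ContDiff ℝ ∞ q) (hs : tsupport q ⊆ closedBall 0 1) {Ω : Set V}
    (hΩ : IsOpen Ω) (h1 : closedBall 0 1 ⊆ Ω) {f : V → ℂ} (hf : ContinuousOn f Ω) :
    Integrable (fun A => (q A : ℂ) * f A) μ :=
  integrable_mul_of_tsupport μ hΩ hf (continuous_ofReal.comp hq.continuous)
    ((isCompact_closedBall 0 1).of_isClosed_subset (isClosed_tsupport _) (Kern_supp.trans hs))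
    ((Kern_supp.trans hs).trans h1)

/-- Integration by parts against the radial vector field. -/
theorem Kn.radial (κ : Kn V μ) {ι : Type} [Fintype ι] (b : OrthonormalBasis ι ℂ V) {Ω : Set V}
    (hΩ : IsOpen Ω) (h1 : closedBall 0 1 ⊆ Ω) {f : V → ℂ} (hf : ContDiffOn ℝ ∞ f Ω) :
    ∫ A, (κ.k A : ℂ) * gd A f A ∂μ = ∑ a, ∫ A, (κ.G A : ℂ) * gd (b a) (gb (b a) f) A ∂μ := by
  have hG : ContDiff ℝ ∞ (rc κ.G) :=
    contDiff_iff_contDiffAt.2 fun _ => contDiffAt_rc κ.sG.contDiffAt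
  have s0 : tsupport (rc κ.G) ⊆ closedBall 0 1 := Kern_supp.trans κ.tsupport_G
  have h2 : ∀ a, ∫ A, (κ.G A : ℂ) * gd (b a) (gb (b a) f) A ∂μ =
      ∫ A, (κ.k A : ℂ) * (inner ℂ (b a) A * gd (b a) f A) ∂μ := fun a => by
    have h3 := integral_gb_mul μ hΩ (GW2_gd_on hΩ hf (b a)) hG
      ((isCompact_closedBall 0 1).of_isClosed_subset (isClosed_tsupport _) s0) (s0.trans h1) (b a)
    simp only [κ.der, neg_mul, integral_neg, neg_inj, mul_assoc] at h3
    rw [h3]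
    refine integral_congr_ae (Eventually.of_forall fun A => ?_)
    rcases le_or_gt 1 ‖A‖ with h | h
    · simp only [rc, (κ.zero A h).2, ofReal_zero, zero_mul]
    · have h4 := (hf.contDiffAt (hΩ.mem_nhds (h1 (mem_closedBall_zero_iff.2 h.le)))).of_le GW2_two
      simp only [gd_gb_comm h4]
  simp only [h2]
  rw [← integral_finsetSum _ fun a _ => Kern_int κ.sk κ.tsupport_k hΩ h1
    (f := fun A => inner ℂ (b a) A * gd (b a) f A)
    ((continuous_const.inner continuous_id).continuousOn.mul (GW2_gd_on hΩ hf (b a)).continuousOn)]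
  refine integral_congr_ae (Eventually.of_forall fun A => ?_)
  simp only [← Finset.mul_sum]
  simp only [← gd_vsmul, ← gd_vsum, b.sum_repr']

theorem Kern_real (κ : Kn V μ) {ι : Type} [Fintype ι] (b : OrthonormalBasis ι ℂ V) {Ω : Set V}
    (hΩ : IsOpen Ω) (h1 : closedBall 0 1 ⊆ Ω) {q : V → ℝ} (hq : ContDiffOn ℝ ∞ q Ω) :
    ∫ A, κ.k A * fderiv ℝ q A A ∂μ = 2 * ∫ A, κ.G A * ∑ a, lap q A (b a) ∂μ := by
  have hf := contDiffOn_rc hq
  have h2 := congrArg re (κ.radial b hΩ h1 hf)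
  have i1 : Integrable (fun A => (κ.k A : ℂ) * gd A (rc q) A) μ :=
    Kern_int κ.sk κ.tsupport_k hΩ h1 fun A hA =>
      (contDiffAt_gd_comp (a := id) (b := id) (hf.contDiffAt (hΩ.mem_nhds hA)) contDiffAt_id
        contDiffAt_id).continuousAt.continuousWithinAt
  have i2 : ∀ a, Integrable (fun A => (κ.G A : ℂ) * gd (b a) (gb (b a) (rc q)) A) μ := fun a =>
    Kern_int κ.sG κ.tsupport_G hΩ h1 (GW2_gd_on hΩ (GW2_gb_on hΩ hf _) _).continuousOn
  have hre : ∀ {g : V → ℂ}, Integrable g μ → (∫ A, g A ∂μ).re = ∫ A, (g A).re ∂μ := fun hg =>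
    (integral_re hg).symm
  rw [← integral_finsetSum _ fun a _ => i2 a, hre i1,
    hre (integrable_finsetSum _ fun a _ => i2 a)] at h2
  have e1 : ∀ A, κ.k A * fderiv ℝ q A A = 2 * ((κ.k A : ℂ) * gd A (rc q) A).re := fun A => by
    have h3 := congrArg re (fderiv_eq_gd_add_gb (rc q) A A)
    rw [GW2_ofReal, gb_rc, ofReal_re, add_re, conj_re] at h3
    rw [h3, re_ofReal_mul]
    ring
  simp only [e1, integral_const_mul, h2]
  simp only [re_sum, re_ofReal_mul, Finset.mul_sum, lap]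

theorem Kern_smul (r : ℝ) (x : V) : (r : ℂ) • x = r • x := by
  rw [← smul_one_smul ℂ r x]
  simp

theorem Kern_ray (κ : Kn V μ) {ι : Type} [Fintype ι] (b : OrthonormalBasis ι ℂ V) {Ω : Set V}
    (hΩ : IsOpen Ω) {ρ : ℝ} (hρ : 0 < ρ) (h1 : closedBall 0 ρ ⊆ Ω) {Φ : V → ℝ}
    (hΦ : ContDiffOn ℝ ∞ Φ Ω) :
    ∫ A, κ.k A * fderiv ℝ Φ (ρ • A) A ∂μ = 2 * ρ * ∫ A, κ.G A * ∑ a, lap Φ (ρ • A) (b a) ∂μ := by
  have hm : ∀ A : V, ‖A‖ ≤ 1 → ρ • A ∈ Ω := fun A hA => h1 (by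
    rw [mem_closedBall_zero_iff, norm_smul, Real.norm_of_nonneg hρ.le]
    exact mul_le_of_le_one_right hρ.le hA)
  have h2 := Kern_real κ b (hΩ.preimage (continuous_const_smul ρ))
    (fun A hA => hm A (mem_closedBall_zero_iff.1 hA)) (q := fun A => Φ (ρ • A))
    (hΦ.comp (contDiff_const_smul ρ).contDiffOn fun _ h => h)
  have e1 : ∀ A, κ.k A * fderiv ℝ (fun A => Φ (ρ • A)) A A =
      ρ * (κ.k A * fderiv ℝ Φ (ρ • A) A) := fun A => by
    rcases le_or_gt 1 ‖A‖ with h | h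
    · simp only [(κ.zero A h).1, zero_mul, mul_zero]
    · have h3 := ((hΦ.contDiffAt (hΩ.mem_nhds (hm A h.le))).differentiableAt
        (by simp)).hasFDerivAt.comp A ((hasFDerivAt_id A).const_smul ρ)
      rw [show fderiv ℝ (fun A => Φ (ρ • A)) A = _ from h3.fderiv]
      simp only [ContinuousLinearMap.comp_apply, smul_apply, ContinuousLinearMap.id_apply,
        map_smul, smul_eq_mul]
      ring
  have e2 : ∀ A, κ.G A * ∑ a, lap (fun A => Φ (ρ • A)) A (b a) =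
      ρ ^ 2 * (κ.G A * ∑ a, lap Φ (ρ • A) (b a)) := fun A => by
    rcases le_or_gt 1 ‖A‖ with h | h
    · simp only [(κ.zero A h).2, zero_mul, mul_zero]
    · have h3 := (hΦ.contDiffAt (hΩ.mem_nhds (hm A h.le))).of_le GW2_two
      have h4 : ∀ v, lap (fun A => Φ (ρ • A)) A v = ρ ^ 2 * lap Φ (ρ • A) v := fun v => by
        have h5 := lap_comp (Φ := fun A : V => (ρ : ℂ) • A) (z := A) (a := Φ)
          (contDiff_const_smul _).contDiffAt (by rwa [Kern_smul]) v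
        rw [show fderiv ℂ (fun A : V => (ρ : ℂ) • A) A = _ from
          ((hasFDerivAt_id A).fun_const_smul (ρ : ℂ)).fderiv] at h5
        simp only [smul_apply, ContinuousLinearMap.id_apply] at h5
        rw [lap_smul (by rwa [Kern_smul]), norm_real, Real.norm_of_nonneg hρ.le] at h5
        simpa only [Kern_smul] using h5
      simp only [h4, ← Finset.mul_sum]
      ring
  simp only [e1, e2, integral_const_mul] at h2
  refine mul_left_cancel₀ hρ.ne' (h2.trans ?_)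
  ring

/-- Fundamental theorem of calculus along rays, Fubini, and `Kn.radial` for `A ↦ Φ (ρ • A)`. -/
theorem Kn.mean (κ : Kn V μ) {ι : Type} [Fintype ι] (b : OrthonormalBasis ι ℂ V) {Ω : Set V}
    (hΩ : IsOpen Ω) {r : ℝ} (hr : 0 ≤ r) (h1 : closedBall 0 r ⊆ Ω) {Φ : V → ℝ}
    (hΦ : ContDiffOn ℝ ∞ Φ Ω) :
    ∫ A, κ.k A * Φ (r • A) ∂μ - Φ 0 =
      ∫ ρ in (0 : ℝ)..r, 2 * ρ * ∫ A, κ.G A * ∑ a, lap Φ (ρ • A) (b a) ∂μ := by
  have hm : ∀ ρ ∈ Icc 0 r, ∀ A : V, ‖A‖ ≤ 1 → ρ • A ∈ Ω := fun ρ hρ A hA => h1 (by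
    rw [mem_closedBall_zero_iff, norm_smul, Real.norm_of_nonneg hρ.1]
    exact (mul_le_of_le_one_right hρ.1 hA).trans hρ.2)
  have hc : ContinuousOn (fderiv ℝ Φ) Ω := hΦ.continuousOn_fderiv_of_isOpen hΩ (by simp)
  have hc2 : ContinuousOn (fun y : ℝ × V => fderiv ℝ Φ (y.1 • y.2) y.2)
      (Icc 0 r ×ˢ closedBall 0 1) :=
    (hc.comp (continuous_fst.smul continuous_snd).continuousOn fun y hy =>
      hm _ hy.1 _ (mem_closedBall_zero_iff.1 hy.2)).clm_apply continuous_snd.continuousOn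
  have i1 : Integrable (uncurry fun (ρ : ℝ) (A : V) => κ.k A * fderiv ℝ Φ (ρ • A) A)
      ((volume.restrict (uIoc 0 r)).prod μ) := by
    rw [Measure.restrict_prod_eq_prod_univ, uIoc_of_le hr]
    refine IntegrableOn.of_forall_sdiff_eq_zero
      (((κ.sk.continuous.comp continuous_snd).continuousOn.mul hc2).integrableOn_compact
        (isCompact_Icc.prod (isCompact_closedBall 0 1)))
      (measurableSet_Ioc.prod MeasurableSet.univ) fun y hy => ?_
    have h2 : 1 ≤ ‖y.2‖ := (not_le.1 fun h =>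
      hy.2 ⟨Ioc_subset_Icc_self hy.1.1, mem_closedBall_zero_iff.2 h⟩).le
    simp only [uncurry, (κ.zero _ h2).1, zero_mul]
  have e1 : ∀ A, ∫ ρ in (0 : ℝ)..r, κ.k A * fderiv ℝ Φ (ρ • A) A =
      κ.k A * Φ (r • A) - κ.k A * Φ 0 := fun A => by
    rcases le_or_gt 1 ‖A‖ with h | h
    · simp [(κ.zero A h).1]
    · rw [intervalIntegral.integral_const_mul, ← mul_sub]
      congr 1
      have h3 := intervalIntegral.integral_eq_sub_of_hasDerivAt (a := 0) (b := r)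
        (f := fun ρ : ℝ => Φ (ρ • A)) (f' := fun ρ => fderiv ℝ Φ (ρ • A) A) (fun ρ hρ => ?_) ?_
      · rw [h3, zero_smul]
      · rw [uIcc_of_le hr] at hρ
        have h4 := ((hΦ.contDiffAt (hΩ.mem_nhds (hm ρ hρ A h.le))).differentiableAt
          (by simp)).hasFDerivAt.comp_hasDerivAt ρ ((hasDerivAt_id ρ).smul_const A)
        rwa [one_smul] at h4
      · refine ContinuousOn.intervalIntegrable ?_
        rw [uIcc_of_le hr]
        exact hc2.comp (Continuous.prodMk_left A).continuousOn fun ρ hρ =>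
          ⟨hρ, mem_closedBall_zero_iff.2 h.le⟩
  have i2 : Integrable κ.k μ := κ.sk.continuous.integrable_of_hasCompactSupport κ.hcs_k
  have i3 : Integrable (fun A => κ.k A * Φ (r • A)) μ := by
    have := (Kern_int (μ := μ) κ.sk κ.tsupport_k (hΩ.preimage (continuous_const_smul r))
      (fun A hA => hm r ⟨hr, le_rfl⟩ A (mem_closedBall_zero_iff.1 hA))
      (f := fun A => Φ (r • A)) (continuous_ofReal.comp_continuousOn
        (hΦ.continuousOn.comp (continuous_const_smul r).continuousOn fun _ h => h))).re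
    simpa using this
  have h2 := intervalIntegral_integral_swap i1
  simp only [e1] at h2
  rw [integral_sub i3 (i2.mul_const _), integral_mul_const, κ.int, one_mul] at h2
  rw [← h2]
  refine intervalIntegral.integral_congr_ae (Eventually.of_forall fun ρ hρ => ?_)
  rw [uIoc_of_le hr] at hρ
  exact Kern_ray κ b hΩ hρ.1 ((closedBall_subset_closedBall hρ.2).trans h1) hΦ

end Pool.Agent.Lib.MP_a47f92_an
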