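import Pool.Agent.Lib.MP_a47f92_an.G.FamT
import Pool.Agent.Lib.MP_a47f92_an.G.Cur3
import Pool.Agent.Lib.MP_a47f92_an.G.Mt
import Pool.Agent.Lib.MP_a47f92_an.G.Kern
import Pool.Agent.Lib.MP_a47f92_an.Sm3

set_option autoImplicit false
set_option linter.unusedSectionVars false

namespace Pool.Agent.Lib.MP_a47f92_an

open MeasureTheory Filter Topology Set Complex Metric Function
open scoped ContDiff ComplexConjugate ComplexOrder Matrix ENNReal NNReal

/-! The smoothing operator and the homotopy operator. -/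

variable {n p : ℕ} {κ : KM n} {r : ℝ} {S S' : Measure (Fr n p)} {K : Set (E n)}

theorem SmB_meas {a : E n → ℝ} (ha : LH 0 a) {q : Fin p → E n → ℝ} (hq : Pots q) :
    Measurable fun x : Fr n p => a x.1 * dn q x :=
  (ha.measurable.comp measurable_fst).mul (measurable_dn hq)

section Abstract

variable {P : Type} [TopologicalSpace P] [MeasurableSpace P] [BorelSpace P]
  [SecondCountableTopology P] [T2Space P] {μ : Measure P} [IsFiniteMeasure μ] {m : ℕ}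
  {Φ : P × Fr n p → Fr n m} {L : Set P}

/-- The hypotheses on a family of maps of frames. -/
structure SmB_H (μ : Measure P) (Φ : P × Fr n p → Fr n m) (L : Set P) : Prop where
  meas : Measurable Φ
  cpt : IsCompact L
  ae : ∀ᵐ a ∂μ, a ∈ L
  ne : ∀ a ∈ L, ∀ x : Fr n p, x.1 ≠ 0 → (Φ (a, x)).1 ≠ 0
  tf : ∀ g, Tst g → TF L fun a x => g (Φ (a, x))

theorem SmB_H.ae_ne (h : SmB_H μ Φ L) (hS : IsCur S) : ∀ᵐ y ∂μ.prod S, (Φ y).1 ≠ 0 := by
  have := hS.sf
  filter_upwards [(Measure.quasiMeasurePreserving_fst (μ := μ) (ν := S)).ae h.ae,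
    (Measure.quasiMeasurePreserving_snd (μ := μ) (ν := S)).ae hS.ne] with y h1 h2
  exact h.ne _ h1 _ h2

theorem SmB_H.int (h : SmB_H μ Φ L) (hS : IsCur S) {g : Fr n m → ℂ} (hg : Tst g) :
    Integrable (fun y => g (Φ y)) (μ.prod S) :=
  (h.tf g hg).integrable h.cpt hS h.ae

theorem SmB_H.int_dn (h : SmB_H μ Φ L) (hS : IsCur S) {a : E n → ℝ} (ha : LH 0 a)
    {q : Fin m → E n → ℝ} (hq : Pots q) :
    Integrable (fun y => a (Φ y).1 * dn q (Φ y)) (μ.prod S) := by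
  refine (h.int hS ((tst_dc hq).mul_left ha.ic)).re.congr ((h.ae_ne hS).mono fun y hy => ?_)
  simp only [dc_eq_dn hq hy, ← ofReal_mul, RCLike.re_to_complex, ofReal_re]

theorem SmB_H.cur (h : SmB_H μ Φ L) (hS : IsCur S) : IsCur ((μ.prod S).map Φ) := by
  have := hS.sf
  refine isCur_of inferInstance ?_ ?_
  · exact (ae_map_iff h.meas.aemeasurable
      (measurable_fst (measurableSet_singleton (0 : E n)).compl)).2 (h.ae_ne hS)
  · rw [lp, lintegral_map measurable_dens.ennreal_ofReal h.meas]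
    have h1 := h.int_dn hS (lh_const 1) pots_lg
    simp only [one_mul] at h1
    exact h1.lintegral_lt_top.ne

theorem SmB_H.integral (h : SmB_H μ Φ L) (hS : IsCur S) {g : Fr n m → ℂ} (hg : Tst g) :
    ∫ x, g x ∂(μ.prod S).map Φ = ∫ a, ∫ x, g (Φ (a, x)) ∂S ∂μ := by
  have := hS.sf
  rw [integral_map h.meas.aemeasurable ((h.cur hS).aesm hg.cont), integral_prod _ (h.int hS hg)]

theorem SmB_H.pr (h : SmB_H μ Φ L) (hS : IsCur S) {a : E n → ℝ} (ha : LH 0 a)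
    {q : Fin m → E n → ℝ} (hq : Pots q) :
    Integrable (fun b => ∫ x, a (Φ (b, x)).1 * dn q (Φ (b, x)) ∂S) μ ∧
      pr ((μ.prod S).map Φ) a q = ∫ b, ∫ x, a (Φ (b, x)).1 * dn q (Φ (b, x)) ∂S ∂μ := by
  have := hS.sf
  refine ⟨(h.int_dn hS ha hq).integral_prod_left, ?_⟩
  rw [(h.cur hS).pr_eq, integral_map h.meas.aemeasurable (SmB_meas ha hq).aestronglyMeasurable,
    integral_prod _ (h.int_dn hS ha hq)]

end Abstract

theorem SmB_norm {r : ℝ} (hr : 0 ≤ r) : ‖(r : ℂ)‖ = r := by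
  rw [Complex.norm_real, Real.norm_of_nonneg hr]

theorem SmB_inj {r : ℝ} (hr : 0 ≤ r) (hr' : r ≤ 1 / 2) {A : E (n * n)} (hA : ‖A‖ ≤ 1) :
    Tm r A ∈ Inj n := by
  refine Tm_inj ?_
  rw [SmB_norm hr]
  nlinarith [norm_nonneg A]

theorem measurable_lin_Tm (t : ℂ) :
    Measurable fun y : E (n * n) × Fr n p => lin (Tm t y.1) y.2 :=
  (continuous_lin.comp ((continuous_Tm.comp (continuous_const.prodMk continuous_fst)).prodMk
    continuous_snd)).measurable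

theorem measurable_su_Tm (B : E n →L[ℂ] E n) :
    Measurable fun y : (ℝ × E (n * n)) × Fr n p => su (Tm y.1.1 y.1.2) B y.2 :=
  (continuous_su.comp ((continuous_Tm.comp ((continuous_ofReal.comp continuous_fst.fst).prodMk
    continuous_fst.snd)).prodMk (continuous_const.prodMk continuous_snd))).measurable

theorem SmB_Sm (κ : KM n) (hr : 0 ≤ r) (hr' : r ≤ 1 / 2) :
    SmB_H (kmu κ) (fun y : E (n * n) × Fr n p => lin (Tm r y.1) y.2) (closedBall 0 1) where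
  meas := measurable_lin_Tm _
  cpt := isCompact_closedBall _ _
  ae := (kmu_ae κ).mono fun _ h => mem_closedBall_zero_iff.2 h.le
  ne := fun _ h _ hx h' => hx (SmB_inj hr hr' (mem_closedBall_zero_iff.1 h) _ h')
  tf := fun _ hg => hg.tf_lin.comp (φ := fun A => Tm r A)
    (continuous_Tm.comp (continuous_const.prodMk continuous_id)).continuousOn
    fun _ h => SmB_inj hr hr' (mem_closedBall_zero_iff.1 h)

theorem SmB_Ho (κ : KM n) (hr' : r ≤ 1 / 2) (B : E n →L[ℂ] E n) :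
    SmB_H (hmu κ r) (fun y : (ℝ × E (n * n)) × Fr n p => su (Tm y.1.1 y.1.2) B y.2)
      (Icc 0 (1 / 2) ×ˢ closedBall 0 1) where
  meas := measurable_su_Tm _
  cpt := isCompact_Icc.prod (isCompact_closedBall _ _)
  ae := (hmu_ae κ r).mono fun _ h =>
    ⟨⟨h.1.le, h.2.1.le.trans hr'⟩, mem_closedBall_zero_iff.2 h.2.2.le⟩
  ne := fun _ h _ hx h' => hx (SmB_inj h.1.1 h.1.2 (mem_closedBall_zero_iff.1 h.2) _ h')
  tf := fun _ hg => hg.tf_su.comp (φ := fun y : ℝ × E (n * n) => (Tm y.1 y.2, B))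
    ((continuous_Tm.comp ((continuous_ofReal.comp continuous_fst).prodMk continuous_snd)).prodMk
      continuous_const).continuousOn
    fun _ h => SmB_inj h.1.1 h.1.2 (mem_closedBall_zero_iff.1 h.2)

theorem lp_Sm (hS : SFinite S) {g : Fr n p → ℝ} (hg : Measurable g) :
    lp (Sm κ r S) g = ∫⁻ x, ∫⁻ A, ENNReal.ofReal (g (lin (Tm r A) x)) ∂kmu κ ∂S := by
  rw [lp, Sm, lintegral_map hg.ennreal_ofReal (measurable_lin_Tm _)]
  exact lintegral_prod_symm' _ (hg.ennreal_ofReal.comp (measurable_lin_Tm _))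

theorem lp_Ho (hS : SFinite S) {g : Fr n (p + 1) → ℝ} (hg : Measurable g) :
    lp (Ho κ r S) g = ∫⁻ x, ∑ e, ∫⁻ y, ENNReal.ofReal
      (g (su (Tm y.1 y.2) (mt n n (ev e)) x)) ∂hmu κ r ∂S := by
  have hm : ∀ e : Fin (n * n), Measurable fun x : Fr n p =>
      ∫⁻ y, ENNReal.ofReal (g (su (Tm y.1 y.2) (mt n n (ev e)) x)) ∂hmu κ r := fun e =>
    (hg.ennreal_ofReal.comp (measurable_su_Tm (mt n n (ev e)))).lintegral_prod_left'
  rw [lp, Ho, lintegral_finsetSum_measure, lintegral_finsetSum _ fun e _ => hm e]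
  refine Finset.sum_congr rfl fun e _ => ?_
  rw [lintegral_map hg.ennreal_ofReal (measurable_su_Tm _)]
  exact lintegral_prod_symm' _ (hg.ennreal_ofReal.comp (measurable_su_Tm _))

theorem exists_mass_Sm_le (n p : ℕ) : ∃ C : ℝ, 0 ≤ C ∧ ∀ (κ : KM n) (r : ℝ) (S : Measure (Fr n p)),
    0 ≤ r → r ≤ 1 / 2 → IsCur S → IsCur (Sm κ r S) ∧ mass (Sm κ r S) ≤ C * mass S := by
  have h1 : TF (Icc (0 : ℝ) (1 / 2) ×ˢ closedBall (0 : E (n * n)) 1)
      fun y (x : Fr n p) => dc (fun _ => lg) (lin (Tm y.1 y.2) x) :=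
    (tst_dc pots_lg).tf_lin.comp (φ := fun y : ℝ × E (n * n) => Tm y.1 y.2)
      (continuous_Tm.comp ((continuous_ofReal.comp continuous_fst).prodMk
        continuous_snd)).continuousOn
      fun _ h => SmB_inj h.1.1 h.1.2 (mem_closedBall_zero_iff.1 h.2)
  obtain ⟨C, hC, hb⟩ := h1.bound (isCompact_Icc.prod (isCompact_closedBall _ _))
  refine ⟨C, hC, fun κ r S hr hr' hS => ?_⟩
  have h2 : IsCur (Sm κ r S) := (SmB_Sm κ hr hr').cur hS
  refine ⟨h2, ?_⟩
  have h3 : (mass (Sm κ r S) : ℂ) = ∫ A, ∫ x, dc (fun _ => lg) (lin (Tm r A) x) ∂S ∂kmu κ :=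
    (h2.p1_eqC pots_lg).trans ((SmB_Sm κ hr hr').integral hS (tst_dc pots_lg))
  have h4 := norm_integral_le_of_norm_le_const (μ := kmu κ) (C := C * mass S)
    (f := fun A => ∫ x, dc (fun _ => lg) (lin (Tm r A) x) ∂S)
    ((kmu_ae κ).mono fun A hA => hb S hS (r, A) ⟨⟨hr, hr'⟩, mem_closedBall_zero_iff.2 hA.le⟩)
  rw [← h3, SmB_norm h2.mass_nonneg, probReal_univ, mul_one] at h4
  exact h4

theorem IsCur.toSm (h : IsCur S) (κ : KM n) (hr : 0 ≤ r) (hr' : r ≤ 1 / 2) : IsCur (Sm κ r S) :=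
  (SmB_Sm κ hr hr').cur h

theorem IsCur.toHo (h : IsCur S) (κ : KM n) (hr' : r ≤ 1 / 2) : IsCur (Ho κ r S) :=
  isCur_finsum _ fun _ _ => (SmB_Ho κ hr' _).cur h

theorem IsCur.integral_Sm (h : IsCur S) (κ : KM n) (hr : 0 ≤ r) (hr' : r ≤ 1 / 2) {g : Fr n p → ℂ}
    (hg : Tst g) : ∫ x, g x ∂Sm κ r S = ∫ A, ∫ x, g (lin (Tm r A) x) ∂S ∂kmu κ :=
  (SmB_Sm κ hr hr').integral h hg

theorem IsCur.map_lin (h : IsCur S) {T : E n →L[ℂ] E n} (hT : T ∈ Inj n) : IsCur (S.map (lin T)) :=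
  fw_clm T ▸ h.map_fw (isLift_clm hT) le_rfl

theorem IsCur.pr_map_lin (h : IsCur S) {T : E n →L[ℂ] E n} (hT : T ∈ Inj n) {a : E n → ℝ}
    (ha : Measurable a) {q : Fin p → E n → ℝ} (hq : Pots q) :
    pr (S.map (lin T)) a q = pr S (fun z => a (T z)) fun l z => q l (T z) :=
  fw_clm T ▸ h.pr_map_fw (isLift_clm hT) le_rfl ha hq

theorem SmB_ae (κ : KM n) (hr : 0 ≤ r) (hr' : r ≤ 1 / 2) : ∀ᵐ A ∂kmu κ, Tm r A ∈ Inj n :=
  (kmu_ae κ).mono fun _ h => SmB_inj hr hr' h.le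

theorem IsCur.pr_Sm (h : IsCur S) (κ : KM n) (hr : 0 ≤ r) (hr' : r ≤ 1 / 2) {a : E n → ℝ}
    (ha : LH 0 a) {q : Fin p → E n → ℝ} (hq : Pots q) :
    Integrable (fun A => pr (S.map (lin (Tm r A))) a q) (kmu κ) ∧
      pr (Sm κ r S) a q = ∫ A, pr (S.map (lin (Tm r A))) a q ∂kmu κ := by
  obtain ⟨h1, h2⟩ := (SmB_Sm κ hr hr').pr h ha hq
  have h3 : ∀ᵐ A ∂kmu κ, ∫ x, a (lin (Tm r A) x).1 * dn q (lin (Tm r A) x) ∂S =
      pr (S.map (lin (Tm r A))) a q := (SmB_ae κ hr hr').mono fun A hA => by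
    have hm : Measurable (lin (Tm r A) : Fr n p → Fr n p) :=
      (continuous_lin.comp (continuous_const.prodMk continuous_id)).measurable
    rw [(h.map_lin hA).pr_eq, integral_map hm.aemeasurable (SmB_meas ha hq).aestronglyMeasurable]
  exact ⟨h1.congr h3, h2.trans (integral_congr_ae h3)⟩

theorem IsCur.p1_Ho (h : IsCur S) (κ : KM n) (hr' : r ≤ 1 / 2) {q : Fin (p + 1) → E n → ℝ}
    (hq : Pots q) : p1 (Ho κ r S) q =
      ∫ ρ in Ioo 0 r, 2 * ρ * ∑ e, ∫ A, κ.G A * Sv S q (Tm ρ A) (mt n n (ev e)) := by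
  have h1 : ∀ B : E n →L[ℂ] E n,
      Integrable (fun ρ : ℝ => 2 * ρ * ∫ A, κ.G A * Sv S q (Tm ρ A) B) (volume.restrict (Ioo 0 r)) ∧
      pr (((hmu κ r).prod S).map fun y => su (Tm y.1.1 y.1.2) B y.2) (fun _ => 1) q =
        ∫ ρ in Ioo 0 r, 2 * ρ * ∫ A, κ.G A * Sv S q (Tm ρ A) B := fun B => by
    obtain ⟨h2, h3⟩ := (SmB_Ho κ hr' B).pr h (lh_const 1) hq
    simp only [one_mul] at h2 h3
    have h4 : ∀ᵐ y ∂((volume.restrict (Ioo 0 r)).prod (volume : Measure (E (n * n)))),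
        (ENNReal.ofReal (2 * y.1 * κ.G y.2)).toReal • ∫ x, dn q (su (Tm y.1 y.2) B x) ∂S =
          2 * y.1 * (κ.G y.2 * Sv S q (Tm y.1 y.2) B) := (Mt_ae r).mono fun y hy => by
      rw [ENNReal.toReal_ofReal (mul_nonneg (mul_nonneg zero_le_two hy.1.le) (κ.G_nonneg _)),
        smul_eq_mul, mul_assoc, Sv]
    rw [hmu, integrable_withDensity_iff_integrable_smul' (Mt_meas κ)
      (Eventually.of_forall fun _ => ENNReal.ofReal_lt_top)] at h2
    have h5 := h2.congr h4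
    refine ⟨?_, h3.trans ?_⟩
    · simpa only [integral_const_mul] using h5.integral_prod_left
    · rw [hmu, integral_withDensity_eq_integral_toReal_smul (Mt_meas κ)
        (Eventually.of_forall fun _ => ENNReal.ofReal_lt_top), integral_congr_ae h4,
        integral_prod _ h5]
      simp only [integral_const_mul]
  rw [p1, Ho, pr_finsum _ (fun _ _ => (SmB_Ho κ hr' _).cur h) (bm_const 1) hq]
  simp only [Finset.mul_sum]
  rw [integral_finsetSum _ fun e _ => (h1 _).1]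
  exact Finset.sum_congr rfl fun e _ => (h1 _).2

theorem Closed.toSm (hc : Closed S) (h : IsCur S) (κ : KM n) (hr : 0 ≤ r) (hr' : r ≤ 1 / 2) :
    Closed (Sm κ r S) := by
  refine closed_iff.2 fun a b ha hb q hq l => ?_
  rw [h.integral_Sm κ hr hr' (tst_dx ha.ic hb.ic hq l)]
  refine integral_eq_zero_of_ae ((SmB_ae κ hr hr').mono fun A hA => ?_)
  have h1 := closed_iff.1 (hc.map_fw h (isLift_clm hA) le_rfl) a b ha hb q hq l
  rw [integral_map_fw h (isLift_clm hA) (tst_dx ha.ic hb.ic hq l), fw_clm] at h1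
  exact h1

theorem Closed.mass_Sm (hc : Closed S) (h : IsCur S) (κ : KM n) (hr : 0 ≤ r) (hr' : r ≤ 1 / 2) :
    mass (Sm κ r S) = mass S := by
  have h1 : ∀ᵐ A ∂kmu κ, pr (S.map (lin (Tm r A))) (fun _ => 1) (fun _ => lg) = mass S :=
    (SmB_ae κ hr hr').mono fun A hA => by
      rw [h.pr_map_lin hA measurable_const pots_lg]
      exact hc.p1_one h fun _ => by simpa using lh_lg.comp (isLift_clm hA)
  rw [mass, p1, (h.pr_Sm κ hr hr' (lh_const 1) pots_lg).2, integral_congr_ae h1]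
  simp

theorem Cl1.toSm (h : Cl1 S) (κ : KM n) (hr : 0 ≤ r) (hr' : r ≤ 1 / 2) : Cl1 (Sm κ r S) :=
  ⟨h.cur.toSm κ hr hr', h.closed.toSm h.cur κ hr hr',
    (h.closed.mass_Sm h.cur κ hr hr').trans h.mass⟩

theorem Eqv.toSm (h : Eqv S S') (hS : IsCur S) (hS' : IsCur S') (κ : KM n) (hr : 0 ≤ r)
    (hr' : r ≤ 1 / 2) : Eqv (Sm κ r S) (Sm κ r S') := by
  intro a ha q hq
  rw [(hS.pr_Sm κ hr hr' ha hq).2, (hS'.pr_Sm κ hr hr' ha hq).2]
  refine integral_congr_ae ((SmB_ae κ hr hr').mono fun A hA => ?_)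
  simp only [hS.pr_map_lin hA ha.measurable hq, hS'.pr_map_lin hA ha.measurable hq]
  exact h _ (ha.comp0 (isLift_clm hA)) _ (hq.comp (isLift_clm hA))

theorem DDC.toSm {Y : Measure (Fr n (p + 1))} (h : DDC Y S S') (hY : IsCur Y) (hS : IsCur S)
    (hS' : IsCur S') (κ : KM n) (hr : 0 ≤ r) (hr' : r ≤ 1 / 2) :
    DDC (Sm κ r Y) (Sm κ r S) (Sm κ r S') := by
  intro a ha q hq
  rw [p1, (hY.pr_Sm κ hr hr' (lh_const 1) (hq.cons ha)).2, (hS.pr_Sm κ hr hr' ha hq).2,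
    (hS'.pr_Sm κ hr hr' ha hq).2,
    ← integral_sub (hS.pr_Sm κ hr hr' ha hq).1 (hS'.pr_Sm κ hr hr' ha hq).1]
  refine integral_congr_ae ((SmB_ae κ hr hr').mono fun A hA => ?_)
  simp only [hS.pr_map_lin hA ha.measurable hq, hS'.pr_map_lin hA ha.measurable hq,
    hY.pr_map_lin hA measurable_const (hq.cons ha)]
  have e : (fun l z => (Fin.cons a q : Fin (p + 1) → E n → ℝ) l (Tm r A z)) =
      Fin.cons (fun z => a (Tm r A z)) fun l z => q l (Tm r A z) :=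
    funext fun l => Fin.cases rfl (fun _ => rfl) l
  rw [e]
  exact h _ (ha.comp0 (isLift_clm hA)) _ (hq.comp (isLift_clm hA))

theorem SmB_set {m : ℕ} {W : Set (E n)} (hW : IsClosed W) :
    MeasurableSet {x : Fr n m | dens x ≠ 0 → x.1 ∈ W} :=
  (measurable_dens (measurableSet_singleton (0 : ℝ)).compl).imp (measurable_fst hW.measurableSet)

theorem On.toSm (h : On S K) (hS : SFinite S) (hK : CC K) (κ : KM n) (hr : 0 ≤ r)
    (hr' : r ≤ 1 / 2) : On (Sm κ r S) (nb (2 * r) K) := by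
  refine (ae_map_iff (measurable_lin_Tm _).aemeasurable (SmB_set (isClosed_nb hK.1))).2 ?_
  filter_upwards [(Measure.quasiMeasurePreserving_fst (μ := kmu κ) (ν := S)).ae (kmu_ae κ),
    (Measure.quasiMeasurePreserving_snd (μ := kmu κ) (ν := S)).ae h] with y h1 h2 h3
  rw [← fw_clm] at h3
  exact Tm_mem_nb (SmB_norm hr).le hr' h1.le
    (h2 (dens_fw_ne (isLift_clm (SmB_inj hr hr' h1.le)) le_rfl h3))

theorem On.toHo (h : On S K) (hS : SFinite S) (hK : CC K) (κ : KM n) (hr' : r ≤ 1 / 2) :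
    On (Ho κ r S) (nb (2 * r) K) := by
  refine on_finsum _ fun e _ =>
    (ae_map_iff (measurable_su_Tm _).aemeasurable (SmB_set (isClosed_nb hK.1))).2 ?_
  filter_upwards [(Measure.quasiMeasurePreserving_fst (μ := hmu κ r) (ν := S)).ae (hmu_ae κ r),
    (Measure.quasiMeasurePreserving_snd (μ := hmu κ r) (ν := S)).ae h] with y h1 h2 h3
  exact Tm_mem_nb ((SmB_norm h1.1.le).le.trans h1.2.1.le) hr' h1.2.2.le (h2 fun h4 => h3
    (((pt_dn pps_lg).comp_su (SmB_inj h1.1.le (h1.2.1.le.trans hr') h1.2.2.le) _).eq_zero h4))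

theorem Sm_add (κ : KM n) (r : ℝ) (hS : SFinite S) (hS' : SFinite S') :
    Sm κ r (S + S') = Sm κ r S + Sm κ r S' := by
  rw [Sm, Measure.prod_add, Measure.map_add _ _ (measurable_lin_Tm _), Sm, Sm]

theorem Sm_sum (κ : KM n) (r : ℝ) {S : ℕ → Measure (Fr n p)} (hS : ∀ i, SFinite (S i)) :
    Sm κ r (Measure.sum S) = Measure.sum fun i => Sm κ r (S i) := by
  rw [Sm, Measure.prod_sum_right, Measure.map_sum (measurable_lin_Tm _).aemeasurable]
  rfl

theorem Ho_add (κ : KM n) (r : ℝ) (hS : SFinite S) (hS' : SFinite S') :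
    Ho κ r (S + S') = Ho κ r S + Ho κ r S' := by
  rw [Ho, Ho, Ho, ← Finset.sum_add_distrib, Measure.prod_add]
  exact Finset.sum_congr rfl fun e _ => Measure.map_add _ _ (measurable_su_Tm _)

theorem Ho_mono (κ : KM n) {r' : ℝ} (h : r' ≤ r) (hS : SFinite S) : Ho κ r' S ≤ Ho κ r S :=
  Finset.sum_le_sum fun _ _ =>
    Measure.map_mono (Measure.prod_mono (hmu_mono κ h) le_rfl) (measurable_su_Tm _)

end Pool.Agent.Lib.MP_a47f92_an
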