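import Pool.Agent.Lib.MP_a47f92_an.G.Cont1
import Pool.Agent.Lib.MP_a47f92_an.G.SmB

set_option autoImplicit false
set_option linter.unusedSectionVars false

namespace Pool.Agent.Lib.MP_a47f92_an

open MeasureTheory Filter Topology Set Complex Metric Function
open scoped ContDiff ComplexConjugate ComplexOrder Matrix ENNReal NNReal

/-! The smoothing operator produces continuous currents. -/

variable {n p : ℕ}

/-- The normalised measure. -/
noncomputable def nmu (S : Measure (Fr n p)) : Measure (Fr n p) :=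
  (S.withDensity fun x => ENNReal.ofReal (dens x / d0 p)).map nrm

theorem Cont_meas : Measurable fun x : Fr n p => ENNReal.ofReal (dens x / d0 p) :=
  (measurable_dens.div_const _).ennreal_ofReal

theorem IsCur.nmu_fin {S : Measure (Fr n p)} (h : IsCur S) : IsFiniteMeasure (nmu S) :=
  have : IsFiniteMeasure (S.withDensity fun x => ENNReal.ofReal (dens x / d0 p)) :=
    isFiniteMeasure_withDensity_ofReal (h.int_dens.div_const _).hasFiniteIntegral
  Measure.isFiniteMeasure_map _ _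

theorem nmu_ae (S : Measure (Fr n p)) :
    ∀ᵐ x ∂nmu S, x ∈ Xp n p ∧ ∀ j, inner ℂ x.1 (x.2 j) = 0 := by
  have hm : MeasurableSet {x : Fr n p | x ∈ Xp n p ∧ ∀ j, inner ℂ x.1 (x.2 j) = 0} := by
    refine (isCompact_Xp.isClosed.inter ?_).measurableSet
    change IsClosed {x : Fr n p | ∀ j, inner ℂ x.1 (x.2 j) = 0}
    rw [ofPred_forall]
    exact isClosed_iInter fun j => isClosed_eq
      (continuous_fst.inner ((continuous_apply j).comp continuous_snd)) continuous_const
  rw [nmu, ae_map_iff measurable_nrm.aemeasurable hm, ae_withDensity_iff Cont_meas]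
  refine Eventually.of_forall fun x hx => ⟨nrm_mem fun h0 => hx ?_, NF_inner x⟩
  rw [dens, dn, if_pos h0, zero_div, ENNReal.ofReal_zero]

theorem Cont_ne {x : Fr n p} (hx : x ∈ Xp n p) : x.1 ≠ 0 :=
  norm_ne_zero_iff.1 (by rw [hx.1]; exact one_ne_zero)

theorem Cont_int {S : Measure (Fr n p)} (h : IsCur S) {g : Fr n p → ℂ}
    (hg : ContinuousOn g (Xp n p)) : Integrable g (nmu S) := by
  have := h.nmu_fin
  have h1 := hg.integrableOn_compact (μ := nmu S) isCompact_Xp
  rwa [IntegrableOn, Measure.restrict_eq_self_of_ae_mem ((nmu_ae S).mono fun _ h => h.1)] at h1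

theorem Cont_cur {S : Measure (Fr n p)} (h : IsCur S) : IsCur (nmu S) :=
  have := h.nmu_fin
  ⟨inferInstance, (nmu_ae S).mono fun _ hx => Cont_ne hx.1,
    (Cont_int h ((tst_dc pots_lg).cont.mono fun _ hx => Cont_ne hx)).re⟩

theorem IsCur.integral_nmu {S : Measure (Fr n p)} (h : IsCur S) {g : Fr n p → ℂ} (hg : Tst g) :
    ∫ x, g x ∂nmu S = ∫ x, g x ∂S := by
  have hm : AEStronglyMeasurable g (nmu S) := (Cont_cur h).aesm hg.cont
  rw [nmu] at hm ⊢
  rw [integral_map measurable_nrm.aemeasurable hm,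
    integral_withDensity_eq_integral_toReal_smul Cont_meas
      (Eventually.of_forall fun _ => ENNReal.ofReal_lt_top)]
  refine integral_congr_ae (h.ne.mono fun x hx => ?_)
  beta_reduce
  rw [ENNReal.toReal_ofReal (div_nonneg (dens_nonneg x) (d0_pos p).le), real_smul,
    ← hg.alg.eq_nrm hx]

/-- The shell which carries the kernel. -/
def Cont_K (n : ℕ) : Set (E n) := closedBall 0 (3 / 2) \ ball 0 (1 / 2)

theorem Cont_cpt : IsCompact (Cont_K n) := (isCompact_closedBall _ _).diff isOpen_ball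

theorem Cont_K_ne {w : E n} (hw : w ∈ Cont_K n) : w ≠ 0 := fun h =>
  hw.2 (h ▸ mem_ball_self (by norm_num))

section
variable (κ : KM n) (κ' : Kn (E n) volume) {r : ℝ}

theorem Cont_zero (hr : 0 < r) (hr' : r ≤ 1 / 2) (I J : Fin p → Fin n) {x : Fr n p}
    (hx : x ∈ Xp n p) {w : E n} (hw : w ∉ Cont_K n) : ck κ κ' r I J x w = 0 := by
  refine ck_eq_zero κ κ' hr I J hx.1 (hr'.trans ?_)
  have h1 := abs_norm_sub_norm_le w x.1
  rw [hx.1, abs_le] at h1
  simp only [Cont_K, Set.mem_sdiff, mem_closedBall_zero_iff, mem_ball_zero_iff, not_and,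
    not_not] at hw
  rcases le_or_gt ‖w‖ (3 / 2) with h | h
  · linarith [hw h, h1.1]
  · linarith [h1.2]

theorem Cont_ck (r : ℝ) (I J : Fin p → Fin n) :
    ContinuousOn (fun y : Fr n p × E n => ck κ κ' r I J y.1 y.2) (Xp n p ×ˢ univ) :=
  (continuousOn_ck κ κ' r I J).mono (prod_mono_left fun _ hx => hx.1)

theorem Cont_ck1 (r : ℝ) (I J : Fin p → Fin n) (w : E n) :
    ContinuousOn (fun x : Fr n p => ck κ κ' r I J x w) (Xp n p) :=
  (Cont_ck κ κ' r I J).comp (f := fun x : Fr n p => (x, w)) (Continuous.prodMk_left w).continuousOn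
    fun _ hx => ⟨hx, trivial⟩

theorem Cont_cont (hr : 0 < r) (hr' : r ≤ 1 / 2) (I J : Fin p → Fin n) {S : Measure (Fr n p)}
    (hS : IsCur S) : Continuous fun w => ∫ x, ck κ κ' r I J x w ∂nmu S := by
  have := hS.nmu_fin
  obtain ⟨C, hC⟩ := ((isCompact_Xp (n := n) (p := p)).prod Cont_cpt).exists_bound_of_continuousOn
    ((Cont_ck κ κ' r I J).mono (prod_mono_right (subset_univ _)))
  refine continuous_of_dominated (bound := fun _ => max C 0)
    (fun w => (Cont_int hS (Cont_ck1 κ κ' r I J w)).aestronglyMeasurable)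
    (fun w => (nmu_ae S).mono fun x hx => ?_) (integrable_const _)
    ((nmu_ae S).mono fun x hx => ?_)
  · by_cases hw : w ∈ Cont_K n
    · exact (hC (x, w) ⟨hx.1, hw⟩).trans (le_max_left _ _)
    · rw [Cont_zero κ κ' hr hr' I J hx.1 hw, norm_zero]
      exact le_max_right _ _
  · exact (Cont_ck κ κ' r I J).comp_continuous (f := fun w : E n => (x, w))
      (Continuous.prodMk_right x) fun _ => ⟨hx.1, trivial⟩

theorem Cont_prod (hr : 0 < r) (hr' : r ≤ 1 / 2) {S : Measure (Fr n p)} (hS : IsCur S)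
    {a : E n → ℝ} (ha : LH 0 a) {q : Fin p → E n → ℝ} (hq : Pots q) :
    Integrable (fun y : Fr n p × E n => (a y.2 : ℂ) *
      ∑ I, ∑ J, ck κ κ' r I J y.1 y.2 * ∏ l, hess (q l) y.2 (I l) (J l)) ((nmu S).prod volume) := by
  have := hS.nmu_fin
  have hs : MapsTo (Prod.snd : Fr n p × E n → E n) (Xp n p ×ˢ Cont_K n) {0}ᶜ :=
    fun _ hy => Cont_K_ne hy.2
  refine IntegrableOn.integrable_of_ae_notMem_eq_zero (s := Xp n p ×ˢ Cont_K n)
    (ContinuousOn.integrableOn_compact (isCompact_Xp.prod Cont_cpt) ?_) ?_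
  · refine (continuous_ofReal.comp_continuousOn (ha.1.continuousOn.comp continuousOn_snd hs)).mul
      (continuousOn_finsetSum _ fun I _ => continuousOn_finsetSum _ fun J _ =>
        ((Cont_ck κ κ' r I J).mono (prod_mono_right (subset_univ _))).mul
          (continuousOn_finsetProd _ fun l _ => ?_))
    obtain ⟨D, hD⟩ := hq l
    exact (contDiffOn_hess isOpen_compl_singleton hD.1 (I l) (J l)).continuousOn.comp
      continuousOn_snd hs
  · refine (Measure.quasiMeasurePreserving_fst.ae (nmu_ae S)).mono fun y hy h => ?_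
    have h1 : y.2 ∉ Cont_K n := fun h2 => h ⟨hy.1, h2⟩
    simp only [Cont_zero κ κ' hr hr' _ _ hy.1 h1, zero_mul, Finset.sum_const_zero, mul_zero]

end

/-- `Φ I J w = ∫ x, ck κ κ' r I J x w ∂nmu S`; `IsCur.integral_Sm`, `integral_nmu`, Fubini
(`TF.swap` for the current `nmu S`), `integral_kmu_eq`, Fubini. -/
theorem isCont_Sm (κ : KM n) {r : ℝ} (hr : 0 < r) (hr' : r ≤ 1 / 2) {S : Measure (Fr n p)}
    (hS : IsCur S) : IsCont (Sm κ r S) := by
  obtain ⟨κ'⟩ := exists_kn (E n) volume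
  have := hS.nmu_fin
  have hz : ∀ (I J : Fin p → Fin n) (w : E n), w ∉ Cont_K n →
      ∫ x, ck κ κ' r I J x w ∂nmu S = 0 := fun I J w hw =>
    integral_eq_zero_of_ae ((nmu_ae S).mono fun x hx => Cont_zero κ κ' hr hr' I J hx.1 hw)
  refine ⟨fun I J w => ∫ x, ck κ κ' r I J x w ∂nmu S, fun I J =>
    ⟨Cont_cont κ κ' hr hr' I J hS, HasCompactSupport.intro Cont_cpt (hz I J), fun h0 =>
      Cont_K_ne (closure_minimal (support_subset_iff'.2 (hz I J)) Cont_cpt.isClosed h0) rfl⟩, fun a ha q hq => ?_⟩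
  have hg : Tst fun x : Fr n p => rc a x.1 * dc q x := (tst_dc hq).mul_left ha.ic
  have hT : TF (closedBall (0 : E (n * n)) 1) fun A (x : Fr n p) =>
      rc a (lin (Tm r A) x).1 * dc q (lin (Tm r A) x) := by
    refine hg.tf_lin.comp (φ := fun A => Tm r A)
      (continuous_Tm.comp (Continuous.prodMk_right (r : ℂ))).continuousOn fun A hA => Tm_inj ?_
    rw [norm_real, Real.norm_of_nonneg hr.le]
    have h1 := mem_closedBall_zero_iff.1 hA
    nlinarith
  have hA : ∀ᵐ A ∂kmu κ, A ∈ closedBall (0 : E (n * n)) 1 :=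
    (kmu_ae κ).mono fun _ h => mem_closedBall_zero_iff.2 h.le
  have hP := Cont_prod κ κ' hr hr' hS ha hq
  have e : ∀ w, ∫ x, (a w : ℂ) * ∑ I, ∑ J, ck κ κ' r I J x w * ∏ l, hess (q l) w (I l) (J l)
      ∂nmu S = (a w : ℂ) * ∑ I, ∑ J, (∫ x, ck κ κ' r I J x w ∂nmu S) *
        ∏ l, hess (q l) w (I l) (J l) := fun w => by
    have hi := fun I J => (Cont_int hS (Cont_ck1 κ κ' r I J w)).mul_const
      (∏ l, hess (q l) w (I l) (J l))
    rw [integral_const_mul, integral_finsetSum _ fun I _ => integrable_finsetSum _ fun J _ => hi I J]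
    simp only [integral_finsetSum _ fun J _ => hi _ J, integral_mul_const]
  have h1 : (pr (Sm κ r S) a q : ℂ) = ∫ w, (a w : ℂ) * ∑ I, ∑ J,
      (∫ x, ck κ κ' r I J x w ∂nmu S) * ∏ l, hess (q l) w (I l) (J l) := by
    rw [(hS.toSm κ hr.le hr').pr_eqC a hq, hS.integral_Sm κ hr.le hr' hg,
      integral_congr_ae (hA.mono fun A hA => (hS.integral_nmu (hT.tst hA)).symm),
      hT.swap (isCompact_closedBall _ _) (Cont_cur hS) hA]
    refine (integral_congr_ae ((nmu_ae S).mono fun x hx =>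
      integral_kmu_eq κ κ' hr hr' hx.1.1 hx.2 ha hq)).trans
        ((integral_integral_swap hP).trans ?_)
    simp only [e]
  have h2 := hP.integral_prod_right
  simp only [e] at h2
  rw [← ofReal_re (pr (Sm κ r S) a q), h1, ← reCLM_apply, ← reCLM.integral_comp_comm h2]
  simp only [reCLM_apply, re_ofReal_mul]

end Pool.Agent.Lib.MP_a47f92_an
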