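import Pool.Agent.Lib.MP_a47f92_an.G.V2a
import Pool.Agent.Lib.MP_a47f92_an.G.Cur2
import Pool.Agent.Lib.MP_a47f92_an.G.Kern
import Pool.Agent.Lib.MP_a47f92_an.G.Mt

set_option autoImplicit false
set_option linter.unusedSectionVars false

namespace Pool.Agent.Lib.MP_a47f92_an

open MeasureTheory Filter Topology Set Complex Metric Function
open scoped ContDiff ComplexConjugate ComplexOrder Matrix ENNReal NNReal

/-! The second variation. -/

variable {n p : ℕ} {S : Measure (Fr n p)} {q : Fin (p + 1) → E n → ℝ} {T : E n →L[ℂ] E n}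

/-- `Closed.gg_eq'` for the potentials `q ∘ T` (`lv_fw`, `fw_clm`, `isLift_clm`), then `dc_su`. -/
theorem sum_integral_gw (hS : IsCur S) (hc : Closed S) (hq : Pots q) (hT : T ∈ Inj n)
    (B : E n →L[ℂ] E n) : ∑ j, ∫ x, gw q T B j x ∂S = Sv S q T B := by
  have hq' : ∀ j : Fin (p + 1), Pots fun l z => q (j.succAbove l) (T z) := fun j =>
    Pots.comp (q := fun l => q (j.succAbove l)) (fun l => hq _) (isLift_clm hT)
  have hd : ∀ j, IC (dq T B (q j)) := fun j => ic_dq hT B (hq j).choose_spec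
  have i1 := fun (j : Fin (p + 1)) (i : Fin p) =>
    hS.integrable (tst_gg (hq' j) i (hd (j.succAbove i)).conj (hd j))
  have i2 := fun (j : Fin (p + 1)) (i : Fin p) =>
    hS.integrable ((tst_gl (hq' j) i (hd (j.succAbove i)).conj).mul_left (hd j))
  have i3 : Integrable (fun x : Fr n p => dc q (su T B x)) S :=
    hS.integrable ((tst_dc hq).tf_su.tst (a := (T, B)) hT)
  have i5 : ∀ (j : Fin (p + 1)) (i : Fin p), Integrable (fun x : Fr n p =>
      mdC (update (fun l => lv (fun z => q (Fin.succAbove j l) (T z)) x) i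
        (gg (fun w => conj (dq T B (q (j.succAbove i)) w)) (dq T B (q j)) x.1 x.2)) +
      dq T B (q j) x.1 * mdC (update (fun l => lv (fun z => q (j.succAbove l) (T z)) x) i
        (gl (fun w => conj (dq T B (q (j.succAbove i)) w)) x.1 x.2))) S :=
    fun j i => (i1 j i).add (i2 j i)
  have i6 : ∀ j, Integrable (fun x : Fr n p => gw q T B j x) S := fun j =>
    hS.integrable ((tf_gw hq j).tst (a := (T, B)) hT)
  have i4 := integrable_finsetSum Finset.univ fun (j : Fin (p + 1)) _ =>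
    integrable_finsetSum Finset.univ fun (i : Fin p) _ => i5 j i
  have e : ∫ x, ∑ j, ∑ i, (mdC (update (fun l => lv (fun z => q (Fin.succAbove j l) (T z)) x) i
      (gg (fun w => conj (dq T B (q (j.succAbove i)) w)) (dq T B (q j)) x.1 x.2)) +
      dq T B (q j) x.1 * mdC (update (fun l => lv (fun z => q (j.succAbove l) (T z)) x) i
        (gl (fun w => conj (dq T B (q (j.succAbove i)) w)) x.1 x.2))) ∂S = 0 := by
    rw [integral_finsetSum _ fun j _ => integrable_finsetSum _ fun i _ => i5 j i]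
    refine Finset.sum_eq_zero fun j _ => ?_
    rw [integral_finsetSum _ fun i _ => i5 j i]
    refine Finset.sum_eq_zero fun i _ => ?_
    rw [integral_add (i1 j i) (i2 j i), hc.gg_eq' hS (hd (j.succAbove i)).conj (hd j) (hq' j) i,
      neg_add_cancel]
  rw [← integral_finsetSum _ fun j _ => i6 j,
    Sv_eqC hS hq hT, ← add_zero (∫ x, dc q (su T B x) ∂S), ← e, ← integral_add i3 i4]
  refine integral_congr_ae (hS.ne.mono fun x hx => ?_)
  have e1 : ∀ j : Fin (p + 1), (fun l => lv (fun z => q (j.succAbove l) (T z)) x) =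
      fun l => lv (q (j.succAbove l)) (lin T x) := fun j => by
    rw [← fw_clm]
    exact Tst_lv_fw (q := fun l => q (j.succAbove l)) (fun l => hq _) (isLift_clm hT) hx
  simp only [e1, dc_su hq fun h => hx (hT _ h), gw, Finset.sum_add_distrib, Finset.mul_sum]
  ring

theorem V2_cont {P : Type} [NormedAddCommGroup P] [NormedSpace ℂ P]
    (L : P →L[ℂ] (E n →L[ℂ] E n)) (B : E n →L[ℂ] E n) (K : Set P) :
    ContinuousOn (fun y => (TL L y, B)) K :=
  ((continuous_const.add L.continuous).prodMk continuous_const).continuousOn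

theorem V2_int {P : Type} [NormedAddCommGroup P] [NormedSpace ℝ P] [NormedSpace ℂ P]
    [IsScalarTower ℝ ℂ P] [FiniteDimensional ℝ P] [MeasurableSpace P] [BorelSpace P]
    (μ : Measure P) [μ.IsAddHaarMeasure] (L : P →L[ℂ] (E n →L[ℂ] E n)) (B : E n →L[ℂ] E n)
    {K : Set P} (hK : IsCompact K) (hi : ∀ y ∈ K, TL L y ∈ Inj n) {c : P → ℂ} (hc : Continuous c)
    (h0 : ∀ y, y ∉ K → c y = 0) (hS : IsCur S) (hq : Pots q) :
    Integrable (fun y => c y * Fv S q (TL L y) B) μ ∧ ∫ y, c y * Fv S q (TL L y) B ∂μ =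
      ∑ j, ∫ x, ∫ y, c y * (dq (TL L y) B (q j) x.1 *
        dc (fun l => q (j.succAbove l)) (lin (TL L y) x)) ∂μ ∂S := by
  have tf := fun j : Fin (p + 1) => (tf_dq (hq j).choose_spec
    (q := fun l => q (j.succAbove l)) fun l => hq _).comp (V2_cont L B K) hi
  dsimp only at tf
  have h := fun j : Fin (p + 1) => (tf j).swap_mul (ν := μ) hK hS hc h0
  simp only [Fv, Finset.mul_sum]
  refine ⟨integrable_finsetSum _ fun j _ => (h j).1, ?_⟩
  rw [integral_finsetSum _ fun j _ => (h j).1]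
  exact Finset.sum_congr rfl fun j _ => (h j).2

/-- Fubini (`TF.swap_mul`), `integral_gb_mul` in the parameter for fixed `x`, `gb_Fv_density`,
Fubini again and `sum_integral_gw`. -/
theorem second_variation {P : Type} [NormedAddCommGroup P] [NormedSpace ℝ P] [NormedSpace ℂ P]
    [IsScalarTower ℝ ℂ P] [FiniteDimensional ℝ P] [MeasurableSpace P] [BorelSpace P]
    {μ : Measure P} [μ.IsAddHaarMeasure] (L : P →L[ℂ] (E n →L[ℂ] E n)) (e : P) {Ω : Set P}
    (hΩ : IsOpen Ω) (hi : ∀ y ∈ Ω, TL L y ∈ Inj n) {γ : P → ℂ} (hγ : ContDiff ℝ ∞ γ)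
    (hs : HasCompactSupport γ) (hs' : tsupport γ ⊆ Ω) (hS : IsCur S) (hc : Closed S)
    (hq : Pots q) :
    ∫ y, gb e γ y * Fv S q (TL L y) (L e) ∂μ = -∫ y, γ y * Sv S q (TL L y) (L e) ∂μ := by
  have hi' : ∀ y ∈ tsupport γ, TL L y ∈ Inj n := fun y hy => hi y (hs' hy)
  have h0 : ∀ y, y ∉ tsupport γ → γ y = 0 := fun y => image_eq_zero_of_notMem_tsupport
  have tf := fun j : Fin (p + 1) => (tf_gw hq j).comp (V2_cont L (L e) _) hi'
  dsimp only at tf
  have h := fun j : Fin (p + 1) => (tf j).swap_mul (ν := μ) hs hS hγ.continuous h0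
  have e1 : ∫ y, γ y * Sv S q (TL L y) (L e) ∂μ =
      ∑ j, ∫ x, ∫ y, γ y * gw q (TL L y) (L e) j x ∂μ ∂S := by
    rw [← Finset.sum_congr rfl fun j _ => (h j).2, ← integral_finsetSum _ fun j _ => (h j).1]
    refine integral_congr_ae (Eventually.of_forall fun y => ?_)
    by_cases hy : y ∈ tsupport γ
    · simp only [← sum_integral_gw hS hc hq (hi' y hy), Finset.mul_sum]
    · simp only [h0 y hy, zero_mul, Finset.sum_const_zero]
  rw [e1, (V2_int μ L (L e) hs hi' (contDiff_gb hγ e).continuous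
    (fun y hy => gb_of_notMem_tsupport hy e) hS hq).2, ← Finset.sum_neg_distrib]
  refine Finset.sum_congr rfl fun j _ => ?_
  rw [← integral_neg]
  refine integral_congr_ae (hS.ne.mono fun x hx => ?_)
  have hx' : ∀ y ∈ Ω, TL L y x.1 ≠ 0 := fun y hy h => hx (hi y hy _ h)
  have sm : ContDiffOn ℝ ∞ (fun y => dq (TL L y) (L e) (q j) x.1 *
      dc (fun l => q (j.succAbove l)) (lin (TL L y) x)) Ω := fun y hy =>
    ((contDiffAt_dq_TL (hq j).choose_spec (hx' y hy) _).mul (contDiffAt_mdC fun l a b =>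
      contDiffAt_lv_TL (hq _).choose_spec (hx' y hy) a b)).contDiffWithinAt
  simp only
  rw [integral_gb_mul μ hΩ sm hγ hs hs' e, neg_inj]
  refine integral_congr_ae (Eventually.of_forall fun y => ?_)
  by_cases hy : y ∈ tsupport γ
  · simp only [gb_Fv_density hq (hx' y (hs' hy)) j]
  · simp only [h0 y hy, zero_mul]

/-- `second_variation` with `L = t • mt n n`, `γ = κ.G`, `e = ev e`, `Ω = ball 0 2`; `Kn.der`,
`Fv_smul`, `Sv_smul`, `Fv_mt`, `integral_kmu`. -/
theorem avg_Fv (κ : KM n) (hS : IsCur S) (hc : Closed S) (hq : Pots q) {t : ℂ} (ht : t ≠ 0)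
    (ht' : ‖t‖ ≤ 1 / 2) :
    ∫ A, Fv S q (Tm t A) (mt n n A) ∂kmu κ =
      conj t * ((∑ e, ∫ A, κ.G A * Sv S q (Tm t A) (mt n n (ev e)) : ℝ) : ℂ) := by
  have hi : ∀ A ∈ ball (0 : E (n * n)) 2, Tm t A ∈ Inj n := fun A hA => Tm_inj (by
    have := mem_ball_zero_iff.1 hA
    nlinarith [norm_nonneg A, norm_nonneg t])
  have h2 : closedBall (0 : E (n * n)) 1 ⊆ ball 0 2 := closedBall_subset_ball one_lt_two
  have h0 : ∀ A : E (n * n), A ∉ closedBall (0 : E (n * n)) 1 → κ.k A = 0 := fun A hA =>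
    (κ.zero A (not_le.1 fun h => hA (mem_closedBall_zero_iff.2 h)).le).1
  have key : ∀ e : Fin (n * n), ∫ A, (κ.k A : ℂ) * A e * Fv S q (Tm t A) (mt n n (ev e)) =
      conj t * ∫ A, (κ.G A : ℂ) * Sv S q (Tm t A) (mt n n (ev e)) := fun e => by
    have h1 : ∫ A, gb (ev e) (rc κ.G) A * Fv S q (Tm t A) (t • mt n n (ev e)) =
        -∫ A, (κ.G A : ℂ) * Sv S q (Tm t A) (t • mt n n (ev e)) :=
      second_variation (t • mt n n) (ev e) isOpen_ball hi
        (contDiff_iff_contDiffAt.2 fun _ => contDiffAt_rc κ.sG.contDiffAt)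
        (κ.hcs_G.comp_left ofReal_zero) (Kern_supp.trans (κ.tsupport_G.trans h2)) hS hc hq
    have e1 : ∀ A : E (n * n), gb (ev e) (rc κ.G) A * Fv S q (Tm t A) (t • mt n n (ev e)) =
        -(t * ((κ.k A : ℂ) * A e * Fv S q (Tm t A) (mt n n (ev e)))) := fun A => by
      rw [κ.der, Fv_smul, ev, EuclideanSpace.inner_single_left, map_one, one_mul]
      ring
    have e2 : ∀ A : E (n * n), (κ.G A : ℂ) * Sv S q (Tm t A) (t • mt n n (ev e)) =
        t * (conj t * ((κ.G A : ℂ) * Sv S q (Tm t A) (mt n n (ev e)))) := fun A => by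
      rw [Sv_smul hq, ← mul_assoc t, Complex.mul_conj']
      push_cast
      ring
    simp only [e1, e2, integral_neg, integral_const_mul, neg_inj] at h1
    exact mul_left_cancel₀ ht h1
  have int : ∀ e : Fin (n * n),
      Integrable fun A => (κ.k A : ℂ) * A e * Fv S q (Tm t A) (mt n n (ev e)) := fun e =>
    (V2_int volume (t • mt n n) (mt n n (ev e)) (isCompact_closedBall 0 1) (fun A hA => hi A (h2 hA))
      ((continuous_ofReal.comp κ.sk.continuous).mul (EuclideanSpace.proj (𝕜 := ℂ) e).continuous)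
      (fun A hA => by simp [h0 A hA]) hS hq).1
  rw [integral_kmu, ofReal_sum, Finset.mul_sum]
  simp only [← integral_complex_ofReal, ofReal_mul, ← key]
  rw [← integral_finsetSum _ fun e _ => int e]
  refine integral_congr_ae (Eventually.of_forall fun A => ?_)
  by_cases hA : A ∈ closedBall (0 : E (n * n)) 1
  · simp only [Fv_mt hS hq (hi A (h2 hA)) A, real_smul, Finset.mul_sum, mul_assoc]
  · simp [h0 A hA]

/-- `second_variation` with `P = ℂ`, `L t = t • mt n n A`, `e = 1`, `Ω = ball 0 1`. -/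
theorem disc_Sv (hS : IsCur S) (hc : Closed S) (hq : Pots q) {A : E (n * n)} (hA : ‖A‖ ≤ 1)
    {γ : ℂ → ℂ} (hγ : ContDiff ℝ ∞ γ) (hs : tsupport γ ⊆ closedBall 0 (1 / 2)) :
    ∫ t, gb 1 γ t * Fv S q (Tm t A) (mt n n A) = -∫ t, γ t * Sv S q (Tm t A) (mt n n A) := by
  have h := second_variation (μ := volume) (ContinuousLinearMap.toSpanSingleton ℂ (mt n n A)) 1
    (isOpen_ball (x := 0) (ε := 1)) (fun t ht => Tm_inj (t := t) (A := A) (by
      have := mem_ball_zero_iff.1 ht
      nlinarith [norm_nonneg A, norm_nonneg t])) hγ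
    ((isCompact_closedBall _ _).of_isClosed_subset (isClosed_tsupport _) hs)
    (hs.trans (closedBall_subset_ball (by norm_num))) hS hc hq
  rw [ContinuousLinearMap.toSpanSingleton_apply, one_smul] at h
  exact h

end Pool.Agent.Lib.MP_a47f92_an
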