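import Pool.Agent.Lib.MP_a47f92_an.G.V1
import Pool.Agent.Lib.MP_a47f92_an.G.V2
import Pool.Agent.Lib.MP_a47f92_an.G.SmB

set_option autoImplicit false
set_option linter.unusedSectionVars false

namespace Pool.Agent.Lib.MP_a47f92_an

open MeasureTheory Filter Topology Set Complex Metric Function
open scoped ContDiff ComplexConjugate ComplexOrder Matrix ENNReal NNReal

/-! The homotopy formulas. -/

variable {n p : ℕ} {r : ℝ} {S S' : Measure (Fr n p)}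

theorem Hom_norm (hr' : r ≤ 1 / 2) {ρ : ℝ} (hρ : ρ ∈ Icc 0 r) : ‖(ρ : ℂ)‖ ≤ 1 / 2 := by
  rw [norm_real, Real.norm_of_nonneg hρ.1]
  exact hρ.2.trans hr'

theorem Hom_inj (hr' : r ≤ 1 / 2) {ρ : ℝ} (hρ : ρ ∈ Icc 0 r) {A : E (n * n)} (hA : ‖A‖ ≤ 1) :
    Tm ρ A ∈ Inj n :=
  Tm_inj ((mul_le_of_le_one_right (norm_nonneg _) hA).trans_lt
    ((Hom_norm hr' hρ).trans_lt (by norm_num)))

theorem Hom_int (κ : KM n) (hr' : r ≤ 1 / 2) {Φ : (E n →L[ℂ] E n) × (E n →L[ℂ] E n) → ℂ}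
    (h : ∀ K, IsCompact K → K ⊆ Inj2 n → ContinuousOn Φ K) :
    Integrable (fun y : ℝ × E (n * n) => Φ (Tm y.1 y.2, mt n n y.2))
      ((volume.restrict (Ioo 0 r)).prod (kmu κ)) := by
  have hK : IsCompact (Icc 0 r ×ˢ closedBall (0 : E (n * n)) 1) :=
    isCompact_Icc.prod (isCompact_closedBall 0 1)
  have hφ : Continuous fun y : ℝ × E (n * n) => (Tm y.1 y.2, mt n n y.2) :=
    (continuous_Tm.comp ((continuous_ofReal.comp continuous_fst).prodMk continuous_snd)).prodMk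
      ((mt n n).continuous.comp continuous_snd)
  have h1 := ((h _ (hK.image hφ) (by
    rintro _ ⟨y, hy, rfl⟩
    exact Hom_inj hr' hy.1 (mem_closedBall_zero_iff.1 hy.2))).comp hφ.continuousOn
      (mapsTo_image _ _)).integrableOn_compact
      (μ := (volume.restrict (Ioo 0 r)).prod (kmu κ)) hK
  have h2 : ∀ᵐ y ∂(volume.restrict (Ioo 0 r)).prod (kmu κ),
      y ∈ Icc 0 r ×ˢ closedBall (0 : E (n * n)) 1 :=
    ((Measure.quasiMeasurePreserving_fst.ae (ae_restrict_mem measurableSet_Ioo)).and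
      (Measure.quasiMeasurePreserving_snd.ae (kmu_ae κ))).mono fun y hy =>
        ⟨Ioo_subset_Icc_self hy.1, mem_closedBall_zero_iff.2 hy.2.le⟩
  rwa [IntegrableOn, Measure.restrict_eq_self_of_ae_mem h2] at h1

theorem Hom_int2 (κ : KM n) {f : ℝ × E (n * n) → ℂ}
    (h : Integrable f ((volume.restrict (Ioo 0 r)).prod (kmu κ))) :
    Integrable (fun ρ => 2 * (∫ A, f (ρ, A) ∂kmu κ).re) (volume.restrict (Ioo 0 r)) :=
  h.integral_prod_left.re.const_mul 2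

/-- `IsCur.p1_Ho` and `avg_Fv`. -/
theorem p1_Ho_eq (κ : KM n) (hr' : r ≤ 1 / 2) (hS : IsCur S) (hc : Closed S)
    {q : Fin (p + 1) → E n → ℝ} (hq : Pots q) : p1 (Ho κ r S) q =
      ∫ ρ in Ioo 0 r, 2 * (∫ A, Fv S q (Tm ρ A) (mt n n A) ∂kmu κ).re := by
  rw [hS.p1_Ho κ hr' hq]
  refine setIntegral_congr_fun measurableSet_Ioo fun ρ hρ => ?_
  rw [avg_Fv κ hS hc hq (ofReal_ne_zero.2 hρ.1.ne') (Hom_norm hr' (Ioo_subset_Icc_self hρ)),
    conj_ofReal, ← ofReal_mul, ofReal_re, mul_assoc]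

/-- `IsCur.pr_Sm`, `ray_pr` and Fubini on `Ioo 0 r × closedBall 0 1` (the integrand is continuous
on a compact set: `TF.continuousOn`, `tf_gv`). -/
theorem pr_Sm_sub (κ : KM n) (hr : 0 ≤ r) (hr' : r ≤ 1 / 2) (hS : IsCur S) {a : E n → ℝ}
    (ha : LH 0 a) {q : Fin p → E n → ℝ} (hq : Pots q) : pr (Sm κ r S) a q - pr S a q =
      ∫ ρ in Ioo 0 r, 2 * (∫ A, ∫ x, gv a q (Tm ρ A) (mt n n A) x ∂S ∂kmu κ).re := by
  obtain ⟨h1, h2⟩ := hS.pr_Sm κ hr hr' ha hq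
  have h3 := Hom_int κ hr' (Φ := fun y => ∫ x, gv a q y.1 y.2 x ∂S) fun K hK hK' =>
    ((tf_gv ha hq).mono hK').continuousOn hK hS
  have h4 : pr S a q = ∫ _, pr S a q ∂kmu κ := by simp
  rw [h2, h4, ← integral_sub h1 (integrable_const _),
    integral_congr_ae ((kmu_ae κ).mono fun A hA => ray_pr hS ha hq hA.le hr hr'),
    ← integral_integral_swap
      (f := fun (ρ : ℝ) A => 2 * (∫ x, gv a q (Tm ρ A) (mt n n A) x ∂S).re) (h3.re.const_mul 2)]
  refine integral_congr_ae (h3.prod_right_ae.mono fun ρ hρ => ?_)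
  simp only
  rw [integral_const_mul]
  exact congrArg (2 * ·) (integral_re hρ)

theorem ddc_Ho (κ : KM n) (hr : 0 ≤ r) (hr' : r ≤ 1 / 2) (hS : IsCur S) (hc : Closed S) :
    DDC (Ho κ r S) (Sm κ r S) S := fun a ha q hq => by
  rw [p1_Ho_eq κ hr' hS hc (hq.cons ha), pr_Sm_sub κ hr hr' hS ha hq]
  refine setIntegral_congr_fun measurableSet_Ioo fun ρ hρ => ?_
  rw [integral_congr_ae ((kmu_ae κ).mono fun A hA =>
    integral_gv hS hc ha hq (Hom_inj hr' (Ioo_subset_Icc_self hρ) hA.le) (mt n n A))]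

theorem DDC.hom {Y : Measure (Fr n (p + 1))} (h : DDC Y S S') (κ : KM n) (hr : 0 ≤ r)
    (hr' : r ≤ 1 / 2) (hY : IsCur Y) (hS : IsCur S) (hS' : IsCur S') (hc : Closed S)
    (hc' : Closed S') {q : Fin (p + 1) → E n → ℝ} (hq : Pots q) :
    p1 (Sm κ r Y) q - p1 Y q = p1 (Ho κ r S) q - p1 (Ho κ r S') q := by
  have h1 := Hom_int κ hr' (Φ := fun y => Fv S q y.1 y.2) fun K => continuousOn_Fv hS hq
  have h2 := Hom_int κ hr' (Φ := fun y => Fv S' q y.1 y.2) fun K => continuousOn_Fv hS' hq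
  rw [p1_Ho_eq κ hr' hS hc hq, p1_Ho_eq κ hr' hS' hc' hq, p1, p1,
    pr_Sm_sub κ hr hr' hY (lh_const 1) hq, ← integral_sub (Hom_int2 κ h1) (Hom_int2 κ h2)]
  refine integral_congr_ae ?_
  filter_upwards [h1.prod_right_ae, h2.prod_right_ae, ae_restrict_mem measurableSet_Ioo]
    with ρ i1 i2 hρ
  rw [integral_congr_ae ((kmu_ae κ).mono fun A hA =>
    h.integral_gv hY hS hS' hq (Hom_inj hr' (Ioo_subset_Icc_self hρ) hA.le) (mt n n A)),
    integral_sub i1 i2, sub_re, mul_sub]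

theorem Eqv.p1_Ho (h : Eqv S S') (κ : KM n) (hr : 0 ≤ r) (hr' : r ≤ 1 / 2) (hS : IsCur S)
    (hS' : IsCur S') (hc : Closed S) (hc' : Closed S') {q : Fin (p + 1) → E n → ℝ} (hq : Pots q) :
    p1 (Ho κ r S) q = p1 (Ho κ r S') q := by
  have h1 := h.ddc.hom κ hr hr' isCur_zero hS hS' hc hc' hq
  rw [Sm, Measure.prod_zero, Measure.map_zero, sub_self] at h1
  exact sub_eq_zero.1 h1.symm

end Pool.Agent.Lib.MP_a47f92_an
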