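import Pool.Agent.Lib.MP_a47f92_an.G.LHa
import Pool.Agent.Lib.MP_a47f92_an.LiftA

set_option autoImplicit false
set_option linter.unusedSectionVars false

/-! Measurable representatives of the points of projective space. -/

namespace Pool.Agent.Lib.MP_a47f92_an

open MeasureTheory Filter Topology Set Complex Metric Function
open scoped ContDiff ComplexConjugate ENNReal

variable {n d : ℕ} {F : E n → E n}

/-- The columns of the orthogonal projection on the line of `z`. -/
noncomputable def pm (z : E n) : Fin n → E n := fun i => (conj (z i) / ((‖z‖ ^ 2 : ℝ) : ℂ)) • z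

open Classical in
/-- The first nonzero column. -/
noncomputable def sec (P : Fin n → E n) : E n :=
  ∑ i, if P i ≠ 0 ∧ ∀ j < i, P j = 0 then P i else 0

/-- A representative of the line of `z`. -/
noncomputable def rep (z : E n) : E n := sec (pm z)

theorem pm_smul {c : ℂ} (hc : c ≠ 0) (z : E n) : pm (c • z) = pm z := by
  funext i
  simp only [pm, smul_smul, norm_smul, PiLp.smul_apply, smul_eq_mul, map_mul, mul_pow]
  congr 1
  have h1 : ((‖c‖ ^ 2 : ℝ) : ℂ) = conj c * c := by
    rw [← Complex.normSq_eq_norm_sq, Complex.normSq_eq_conj_mul_self]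
  have h2 : conj c ≠ 0 := (map_ne_zero _).2 hc
  rw [ofReal_mul, h1]
  field_simp

theorem pm_smooth : ContDiffOn ℝ ∞ (pm : E n → Fin n → E n) {0}ᶜ := by
  refine contDiffOn_pi.2 fun i => ContDiffOn.smul (𝕜 := ℝ)
    (f := fun z : E n => conj (z i) * (((‖z‖ ^ 2 : ℝ) : ℂ))⁻¹) (g := fun z : E n => z)
    (ContDiffOn.mul ?_ ?_) contDiffOn_id
  · exact (conjCLE.contDiff.comp
      ((EuclideanSpace.proj i : E n →L[ℂ] ℂ).contDiff.restrict_scalars ℝ)).contDiffOn
  · refine ContDiffOn.inv (𝕜 := ℝ) (ofRealCLM.contDiff.comp (contDiff_norm_sq ℂ)).contDiffOn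
      fun z hz => ?_
    exact ofReal_ne_zero.2 (pow_ne_zero _ (norm_ne_zero_iff.2 hz))

theorem measurable_pm : Measurable (pm : E n → Fin n → E n) := by
  refine measurable_pi_lambda _ fun i => Measurable.smul
    (f := fun z : E n => conj (z i) / ((‖z‖ ^ 2 : ℝ) : ℂ)) (g := fun z : E n => z)
    (Measurable.div ?_ ?_) measurable_id
  · exact (continuous_conj.comp (EuclideanSpace.proj i : E n →L[ℂ] ℂ).continuous).measurable
  · exact (continuous_ofReal.comp (continuous_norm.pow 2)).measurable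

theorem measurable_sec : Measurable (sec : (Fin n → E n) → E n) := by
  refine Finset.measurable_fun_sum _ fun i _ => Measurable.ite ?_ (measurable_pi_apply i)
    measurable_const
  have h : ∀ j, MeasurableSet {P : Fin n → E n | P j = 0} := fun j =>
    measurableSet_eq_fun (measurable_pi_apply j) measurable_const
  have e : {P : Fin n → E n | P i ≠ 0 ∧ ∀ j < i, P j = 0} =
      {P | P i = 0}ᶜ ∩ ⋂ j, ⋂ (_ : j < i), {P | P j = 0} := by
    ext P; simp
  rw [e]
  exact (h i).compl.inter (MeasurableSet.iInter fun j => MeasurableSet.iInter fun _ => h j)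

theorem measurable_rep : Measurable (rep : E n → E n) := measurable_sec.comp measurable_pm

theorem sec_eq {P : Fin n → E n} {i₀ : Fin n} (h : P i₀ ≠ 0) : ∃ i, P i ≠ 0 ∧ sec P = P i := by
  classical
  obtain ⟨i, hi, hm⟩ := (Finset.univ.filter fun i => P i ≠ 0).exists_min_image id
    ⟨i₀, by simpa using h⟩
  have hi' : P i ≠ 0 := by simpa using hi
  have hm' : ∀ j < i, P j = 0 := fun j hj => by
    by_contra hc
    exact absurd (hm j (by simpa using hc)) (not_le.2 hj)
  refine ⟨i, hi', ?_⟩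
  rw [sec, Finset.sum_eq_single i, if_pos ⟨hi', hm'⟩]
  · intro j _ hj
    refine if_neg fun hc => ?_
    rcases lt_or_gt_of_ne hj with h1 | h1
    · exact hc.1 (hm' j h1)
    · exact hi' (hc.2 i h1)
  · exact fun hc => absurd (Finset.mem_univ i) hc

theorem exists_pm_ne {z : E n} (hz : z ≠ 0) : ∃ i, pm z i ≠ 0 := by
  obtain ⟨i, hi⟩ : ∃ i, z i ≠ 0 := by
    by_contra hc
    exact hz (PiLp.ext fun i => not_not.1 fun h => hc ⟨i, h⟩)
  exact ⟨i, smul_ne_zero (div_ne_zero ((map_ne_zero _).2 hi)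
    (ofReal_ne_zero.2 (pow_ne_zero _ (norm_ne_zero_iff.2 hz)))) hz⟩

theorem rep_eq (z : E n) : ∃ c : ℂ, c ≠ 0 ∧ rep z = c • z := by
  by_cases hz : z = 0
  · refine ⟨1, one_ne_zero, ?_⟩
    subst hz
    simp [rep, sec, pm]
  · obtain ⟨i₀, hi₀⟩ := exists_pm_ne hz
    obtain ⟨i, hi, he⟩ := sec_eq hi₀
    exact ⟨_, left_ne_zero_of_smul hi, he⟩

theorem rep_smul {c : ℂ} (hc : c ≠ 0) (z : E n) : rep (c • z) = rep z := by
  rw [rep, pm_smul hc, rep]

theorem rep_ne {z : E n} (hz : z ≠ 0) : rep z ≠ 0 := by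
  obtain ⟨c, hc, h⟩ := rep_eq z
  rw [h]; exact smul_ne_zero hc hz

theorem eq_smul_of_pm {z w : E n} (h : pm w = pm z) : ∃ c : ℂ, c ≠ 0 ∧ w = c • z := by
  obtain ⟨c, hc, h1⟩ := rep_eq z
  obtain ⟨c', hc', h2⟩ := rep_eq w
  have : c' • w = c • z := by rw [← h1, ← h2, rep, rep, h]
  exact ⟨c'⁻¹ * c, mul_ne_zero (inv_ne_zero hc') hc, by
    rw [mul_smul, ← this, inv_smul_smul₀ hc']⟩

theorem Inv0.rep {Y : Type} {a : E n → Y} (h : Inv0 a) (z : E n) : a (rep z) = a z := by
  obtain ⟨c, hc, h1⟩ := rep_eq z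
  by_cases hz : z = 0
  · rw [h1, hz, smul_zero]
  · rw [h1, h c hc z hz]

theorem lh_pm {b : (Fin n → E n) → ℝ} (hb : ContDiff ℝ ∞ b) : LH 0 fun z : E n => b (pm z) :=
  ⟨hb.comp_contDiffOn pm_smooth, fun c hc z _ => by simp only [pm_smul hc, zero_mul, add_zero]⟩

/-- Finite measures with the same integrals of smooth invariant functions have the same image in
projective space. -/
theorem map_rep_eq {ν ν' : Measure (E n)} [IsFiniteMeasure ν] [IsFiniteMeasure ν']
    (h : ∀ a : E n → ℝ, LH 0 a → Measurable a → ∫ z, a z ∂ν = ∫ z, a z ∂ν') :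
    ν.map rep = ν'.map rep := by
  have key : ν.map pm = ν'.map pm := by
    refine Measure.ext_of_charFunDual (funext fun L => ?_)
    have e : ∀ (μ : Measure (E n)) [IsFiniteMeasure μ], charFunDual (μ.map pm) L =
        ((∫ z, Real.cos (L (pm z)) ∂μ : ℝ) : ℂ) + ((∫ z, Real.sin (L (pm z)) ∂μ : ℝ) : ℂ) * I := by
      intro μ _
      have hm : Measurable fun z : E n => L (pm z) := L.continuous.measurable.comp measurable_pm
      have h1 : Integrable (fun z => ((Real.cos (L (pm z)) : ℝ) : ℂ)) μ :=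
        (Integrable.of_bound (Real.measurable_cos.comp hm).aestronglyMeasurable 1
          (ae_of_all _ fun z => Real.abs_cos_le_one _)).ofReal
      have h2 : Integrable (fun z => ((Real.sin (L (pm z)) : ℝ) : ℂ) * I) μ :=
        (Integrable.of_bound (Real.measurable_sin.comp hm).aestronglyMeasurable 1
          (ae_of_all _ fun z => Real.abs_sin_le_one _)).ofReal.mul_const I
      rw [charFunDual_apply, integral_map measurable_pm.aemeasurable (by fun_prop),
        ← integral_complex_ofReal, ← integral_complex_ofReal, ← integral_mul_const]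
      refine Eq.trans ?_ (integral_add h1 h2)
      refine integral_congr_ae (ae_of_all _ fun z => ?_)
      simp only [exp_mul_I, ofReal_cos, ofReal_sin]
    have hm : Measurable fun z : E n => L (pm z) := L.continuous.measurable.comp measurable_pm
    rw [e ν, e ν', h _ (lh_pm (b := fun P => Real.cos (L P)) (Real.contDiff_cos.comp L.contDiff))
        (Real.measurable_cos.comp hm),
      h _ (lh_pm (b := fun P => Real.sin (L P)) (Real.contDiff_sin.comp L.contDiff))
        (Real.measurable_sin.comp hm)]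
  have e : (rep : E n → E n) = sec ∘ pm := rfl
  rw [e, ← Measure.map_map measurable_sec measurable_pm,
    ← Measure.map_map measurable_sec measurable_pm, key]

theorem integral_map_rep {ν : Measure (E n)} {a : E n → ℝ} (hm : Measurable a) (hi : Inv0 a) :
    ∫ z, a z ∂ν.map rep = ∫ z, a z ∂ν := by
  rw [integral_map measurable_rep.aemeasurable hm.aestronglyMeasurable]
  simp only [hi.rep]

theorem IsCone.preimage_rep {K : Set (E n)} (h : IsCone K) : rep ⁻¹' K = K := by
  ext z
  obtain ⟨c, hc, h1⟩ := rep_eq z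
  rw [mem_preimage, h1]
  exact ⟨fun hz => by simpa [inv_smul_smul₀ hc] using h c⁻¹ (inv_ne_zero hc) _ hz, h c hc z⟩

theorem measure_map_rep {ν : Measure (E n)} {K : Set (E n)} (hm : MeasurableSet K) (h : IsCone K) :
    ν.map rep K = ν K := by
  rw [Measure.map_apply measurable_rep hm, h.preimage_rep]

/-- Equality of integrals extends to measurable invariant functions. -/
theorem integral_eq_of_lh {ν ν' : Measure (E n)} [IsFiniteMeasure ν] [IsFiniteMeasure ν']
    (h : ∀ a : E n → ℝ, LH 0 a → Measurable a → ∫ z, a z ∂ν = ∫ z, a z ∂ν') {a : E n → ℝ}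
    (hm : Measurable a) (hi : Inv0 a) : ∫ z, a z ∂ν = ∫ z, a z ∂ν' := by
  rw [← integral_map_rep hm hi, map_rep_eq h, integral_map_rep hm hi]

theorem measure_eq_of_lh {ν ν' : Measure (E n)} [IsFiniteMeasure ν] [IsFiniteMeasure ν']
    (h : ∀ a : E n → ℝ, LH 0 a → Measurable a → ∫ z, a z ∂ν = ∫ z, a z ∂ν') {K : Set (E n)}
    (hm : MeasurableSet K) (hi : IsCone K) : ν K = ν' K := by
  rw [← measure_map_rep hm hi, map_rep_eq h, measure_map_rep hm hi]

/-- The map induced on representatives. -/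
noncomputable def rF (F : E n → E n) (z : E n) : E n := rep (F z)

theorem measurable_rF (hF : IsLift d F) : Measurable (rF F) :=
  measurable_rep.comp hF.contDiff.continuous.measurable

theorem rF_iterate (hF : IsLift d F) (m : ℕ) {c : ℂ} (hc : c ≠ 0) (z : E n) :
    ∃ c' : ℂ, c' ≠ 0 ∧ (rF F)^[m] (c • z) = c' • F^[m] z := by
  induction m with
  | zero => exact ⟨c, hc, rfl⟩
  | succ m ih =>
    obtain ⟨c', hc', h⟩ := ih
    obtain ⟨e, he, h'⟩ := rep_eq (F (F^[m] z))
    refine ⟨e, he, ?_⟩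
    rw [iterate_succ_apply', iterate_succ_apply', h, rF, hF.hom, rep_smul (pow_ne_zero _ hc'), h']

theorem Inv0.smul {Y : Type} {a : E n → Y} (h : Inv0 a) {c : ℂ} (hc : c ≠ 0) (z : E n) :
    a (c • z) = a z := by
  by_cases hz : z = 0
  · rw [hz, smul_zero]
  · exact h c hc z hz

theorem Inv0.rF {Y : Type} {a : E n → Y} (h : Inv0 a) (hF : IsLift d F) (m : ℕ) (z : E n) :
    a ((rF F)^[m] z) = a (F^[m] z) := by
  obtain ⟨c, hc, h1⟩ := rF_iterate hF m one_ne_zero z
  rw [one_smul] at h1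
  rw [h1, h.smul hc]

theorem Inv0.comp {Y : Type} {a : E n → Y} (h : Inv0 a) (hF : IsLift d F) :
    Inv0 fun z => a (F z) := fun c hc z _ => by
  simp only [hF.hom, h.smul (pow_ne_zero d hc)]

theorem measurePreserving_rF (hF : IsLift d F) {ν : Measure (E n)} [IsFiniteMeasure ν]
    (h : ∀ a : E n → ℝ, LH 0 a → Measurable a → ∫ z, a (F z) ∂ν = ∫ z, a z ∂ν) :
    MeasurePreserving (rF F) (ν.map rep) (ν.map rep) := by
  have hm : Measurable F := hF.contDiff.continuous.measurable
  refine ⟨measurable_rF hF, ?_⟩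
  have e : rF F ∘ rep = rep ∘ F := by
    funext z
    obtain ⟨c, hc, h1⟩ := rep_eq z
    simp only [comp_apply, rF]
    rw [h1, hF.hom, rep_smul (pow_ne_zero _ hc)]
  rw [Measure.map_map (measurable_rF hF) measurable_rep, e, ← Measure.map_map measurable_rep hm]
  exact map_rep_eq fun a ha ham => by
    rw [integral_map hm.aemeasurable ham.aestronglyMeasurable, h a ha ham]

/-- Smooth invariant approximation of an open cone from inside. -/
theorem exists_lh_open {O : Set (E n)} (ho : IsOpen O) (hc : IsCone O) (ν : Measure (E n))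
    [IsFiniteMeasure ν] (hν : ∀ᵐ z ∂ν, z ≠ 0) {ε : ℝ} (hε : 0 < ε) :
    ∃ a : E n → ℝ, LH 0 a ∧ Measurable a ∧ (∀ z, 0 ≤ a z ∧ a z ≤ 1) ∧
      (∀ z, z ≠ 0 → z ∉ O → a z = 0) ∧ ν.real O ≤ ∫ z, a z ∂ν + ε := by
  have hK : IsCompact (pm '' (Oᶜ ∩ sphere (0 : E n) 1)) :=
    ((isCompact_sphere 0 1).inter_left ho.isClosed_compl).image_of_continuousOn
      (pm_smooth.continuousOn.mono fun z hz => ne_zero_of_mem_unit_sphere ⟨z, hz.2⟩)
  obtain ⟨b, hb1, hb2, hb3⟩ := hK.isClosed.isOpen_compl.exists_contDiff_support_eq (n := ⊤)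
  have hb : ∀ P, 0 ≤ b P ∧ b P ≤ 1 := fun P => hb3 (mem_range_self P)
  have hiff : ∀ z : E n, z ≠ 0 → (b (pm z) ≠ 0 ↔ z ∈ O) := fun z hz => by
    rw [← mem_support, hb1, mem_compl_iff]
    constructor
    · intro h
      by_contra hzO
      have hn : ((‖z‖⁻¹ : ℝ) : ℂ) ≠ 0 := ofReal_ne_zero.2 (inv_ne_zero (norm_ne_zero_iff.2 hz))
      refine h ⟨((‖z‖⁻¹ : ℝ) : ℂ) • z, ⟨fun h' => hzO ?_, ?_⟩, pm_smul hn z⟩
      · simpa only [inv_smul_smul₀ hn] using hc _ (inv_ne_zero hn) _ h'
      · rw [mem_sphere_zero_iff_norm, norm_smul, Complex.norm_real, norm_inv, norm_norm,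
          inv_mul_cancel₀ (norm_ne_zero_iff.2 hz)]
    · rintro hzO ⟨w, hw, he⟩
      obtain ⟨c, hc0, rfl⟩ := eq_smul_of_pm he
      exact hw.1 (hc c hc0 z hzO)
  set a : ℕ → E n → ℝ := fun j z => 1 - (1 - b (pm z)) ^ j with ha
  have ham : ∀ j, Measurable (a j) := fun j => measurable_const.sub
    ((measurable_const.sub (hb2.continuous.measurable.comp measurable_pm)).pow_const j)
  have hab : ∀ j z, 0 ≤ a j z ∧ a j z ≤ 1 := fun j z => by
    have h1 : 0 ≤ 1 - b (pm z) := by linarith [(hb (pm z)).2]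
    have h2 : (1 - b (pm z)) ^ j ≤ 1 := pow_le_one₀ h1 (by linarith [(hb (pm z)).1])
    have h3 := pow_nonneg h1 j
    constructor <;> simp only [ha] <;> linarith
  have hlim : Tendsto (fun j => ∫ z, a j z ∂ν) atTop (𝓝 (∫ z, O.indicator 1 z ∂ν)) := by
    refine tendsto_integral_of_dominated_convergence (fun _ => 1)
      (fun j => (ham j).aestronglyMeasurable) (integrable_const _)
      (fun j => ae_of_all _ fun z => by
        rw [Real.norm_of_nonneg (hab j z).1]; exact (hab j z).2) (hν.mono fun z hz => ?_)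
    by_cases hzO : z ∈ O
    · have h1 : 0 < b (pm z) := lt_of_le_of_ne (hb _).1 ((hiff z hz).2 hzO).symm
      have := (tendsto_pow_atTop_nhds_zero_of_lt_one (r := 1 - b (pm z))
        (by linarith [(hb (pm z)).2]) (by linarith)).const_sub 1
      simpa only [indicator_of_mem hzO, Pi.one_apply, sub_zero] using this
    · have h1 : b (pm z) = 0 := not_not.1 fun h => hzO ((hiff z hz).1 h)
      simp only [ha, h1, sub_zero, one_pow, sub_self, indicator_of_notMem hzO]
      exact tendsto_const_nhds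
  rw [integral_indicator_one ho.measurableSet] at hlim
  obtain ⟨j, hj⟩ := (hlim.eventually (lt_mem_nhds (sub_lt_self _ hε))).exists
  refine ⟨a j, lh_pm (b := fun P => 1 - (1 - b P) ^ j)
    (contDiff_const.sub ((contDiff_const.sub hb2).pow j)), ham j, hab j, fun z hz hzO => ?_,
    by linarith⟩
  have h1 : b (pm z) = 0 := not_not.1 fun h => hzO ((hiff z hz).1 h)
  simp only [ha, h1, sub_zero, one_pow, sub_self]

/-- Smooth invariant approximation of a closed cone from outside. -/
theorem exists_lh_closed {K : Set (E n)} (hK : CC K) (ν : Measure (E n))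
    [IsFiniteMeasure ν] (hν : ∀ᵐ z ∂ν, z ≠ 0) {ε : ℝ} (hε : 0 < ε) :
    ∃ a : E n → ℝ, LH 0 a ∧ Measurable a ∧ (∀ z, 0 ≤ a z ∧ a z ≤ 1) ∧
      (∀ z, z ≠ 0 → z ∈ K → a z = 1) ∧ ∫ z, a z ∂ν ≤ ν.real K + ε := by
  obtain ⟨a, h1, h2, h3, h4, h5⟩ := exists_lh_open hK.1.isOpen_compl (fun c hc z hz h => hz (by
    simpa only [inv_smul_smul₀ hc] using hK.2 _ (inv_ne_zero hc) _ h)) ν hν hε
  refine ⟨fun z => 1 - a z, ⟨contDiffOn_const.sub h1.1, fun c hc z hz => by
    simp only [h1.2 c hc z hz, zero_mul, add_zero]⟩, measurable_const.sub h2,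
    fun z => ⟨by linarith [(h3 z).2], by linarith [(h3 z).1]⟩,
    fun z hz hzK => by simp only [h4 z hz (not_not.2 hzK), sub_zero], ?_⟩
  have hi : Integrable a ν := Integrable.of_bound h2.aestronglyMeasurable 1
    (ae_of_all _ fun z => by rw [Real.norm_of_nonneg (h3 z).1]; exact (h3 z).2)
  rw [integral_sub (integrable_const _) hi, integral_const, smul_eq_mul, mul_one]
  have := measureReal_add_measureReal_compl (μ := ν) hK.1.measurableSet
  linarith

end Pool.Agent.Lib.MP_a47f92_an
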