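import Pool.Agent.Lib.MP_a47f92_an.G.Cur3
import Pool.Agent.Lib.MP_a47f92_an.Sm3
import Pool.Agent.Lib.MP_a47f92_an.G.Rep

set_option autoImplicit false
set_option linter.unusedSectionVars false

namespace Pool.Agent.Lib.MP_a47f92_an

open MeasureTheory Filter Topology Set Complex Metric Function
open scoped ContDiff ComplexConjugate ComplexOrder Matrix ENNReal NNReal

/-! Cones, cut-off functions and supports. -/

variable {n p d : ℕ} {S S' : Measure (Fr n p)} {K K' O D : Set (E n)} {F : E n → E n} {r r' : ℝ}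

theorem CC.nb (h : CC K) (r : ℝ) : CC (nb r K) := ⟨isClosed_nb h.1, isCone_nb h.2⟩

theorem CC.meas (h : CC K) : MeasurableSet K := h.1.measurableSet

theorem nb_nb (hr : 0 ≤ r) (hr' : 0 ≤ r') : nb r (nb r' K) ⊆ nb (r + r' + r * r') K := by
  rintro z ⟨y, ⟨w, hw, h1⟩, h2⟩
  refine ⟨w, hw, ?_⟩
  have h3 : ‖w - z‖ ≤ ‖w - y‖ + ‖y - z‖ := norm_sub_le_norm_sub_add_norm_sub w y z
  have h4 : ‖y‖ ≤ ‖y - z‖ + ‖z‖ := by simpa only [sub_add_cancel] using norm_add_le (y - z) z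
  have h5 := mul_le_mul_of_nonneg_left (h4.trans (add_le_add h2 le_rfl)) hr'
  linarith

theorem IsCone.interior (h : IsCone K) : IsCone (interior K) :=
  fun c hc _ hz => (isOpenMap_smul₀ hc).mapsTo_interior (h c hc) hz

theorem nb_subset_interior (h : r < r') : nb r K \ {0} ⊆ interior (nb r' K) := by
  rintro z ⟨⟨y, hy, h1⟩, hz⟩
  refine interior_maximal (t := {w | ‖y - w‖ < r' * ‖w‖}) (s := nb r' K)
    (fun w hw => Exists.intro y ⟨hy, le_of_lt hw⟩) (isOpen_lt (by fun_prop) (by fun_prop)) ?_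
  exact h1.trans_lt (mul_lt_mul_of_pos_right h (norm_pos_iff.2 hz))

theorem CC.image (h : CC K) (hF : IsLift d F) (hd : 1 ≤ d) : CC (F '' K) :=
  ⟨(isProperMap_iff_isCompact_preimage.2 ⟨hF.contDiff.continuous,
    fun _ hK => hF.isCompact_preimage hd hK⟩).isClosedMap _ h.1, hF.cone_image hd h.2⟩

theorem CC.preimage (h : CC K) (hF : IsLift d F) : CC (F ⁻¹' K) :=
  ⟨h.1.preimage hF.contDiff.continuous, fun c hc z hz => by
    rw [mem_preimage, hF.hom]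
    exact h.2 _ (pow_ne_zero d hc) _ hz⟩

theorem cc_iInter {K : ℕ → Set (E n)} (h : ∀ i, CC (K i)) : CC (⋂ i, K i) :=
  ⟨isClosed_iInter fun i => (h i).1,
    fun c hc z hz => mem_iInter.2 fun i => (h i).2 c hc z (mem_iInter.1 hz i)⟩

theorem GInv_compl (hc : IsCone O) : IsCone Oᶜ := fun c h z hz h' =>
  hz (by simpa only [inv_smul_smul₀ h] using hc _ (inv_ne_zero h) _ h')

theorem cc_compl (ho : IsOpen O) (hc : IsCone O) : CC Oᶜ := ⟨ho.isClosed_compl, GInv_compl hc⟩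

theorem Trap.exists_cc (hD : Trap F D) (hF : IsLift d F) (hd : 1 ≤ d) :
    ∃ K, CC K ∧ 0 ∈ K ∧ K \ {0} ⊆ D ∧ F '' D ⊆ K ∧ MapsTo F K K := by
  have h1 : insert 0 (closure (F '' D)) \ {0} ⊆ D := fun z hz =>
    hD.trap ⟨hz.1.resolve_left hz.2, hz.2⟩
  have h2 : F '' D ⊆ insert 0 (closure (F '' D)) := subset_closure.trans (subset_insert _ _)
  refine ⟨insert 0 (closure (F '' D)), ⟨isClosed_singleton.union isClosed_closure,
    fun c hc z hz => ?_⟩, mem_insert _ _, h1, h2, fun z hz => ?_⟩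
  · rcases hz with rfl | hz
    · exact Or.inl (smul_zero c)
    · exact Or.inr ((hF.cone_image hd hD.cone).closure c hc z hz)
  · by_cases h0 : z = 0
    · exact Or.inl (by rw [h0, hF.zero hd])
    · exact h2 (mem_image_of_mem F (h1 ⟨hz, h0⟩))

/-- Use the map `pm` of `G/Rep.lean` (`lh_pm`, `eq_smul_of_pm`): `pm '' (K ∩ sphere 0 1)` is
compact, hence the zero set of a smooth function with values in `[0, 1]`
(`exists_contMDiff_support_eq`, `IsOpen.exists_contDiff_support_eq`). -/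
theorem CC.exists_lh_zero (h : CC K) :
    ∃ a, LH 0 a ∧ (∀ z, 0 ≤ a z ∧ a z ≤ 1) ∧ ∀ z, z ≠ 0 → (a z = 0 ↔ z ∈ K) := by
  have hK : IsCompact (pm '' (K ∩ sphere (0 : E n) 1)) :=
    ((isCompact_sphere 0 1).inter_left h.1).image_of_continuousOn
      (pm_smooth.continuousOn.mono fun z hz => ne_zero_of_mem_unit_sphere ⟨z, hz.2⟩)
  obtain ⟨b, hb1, hb2, hb3⟩ := hK.isClosed.isOpen_compl.exists_contDiff_support_eq (n := ⊤)
  refine ⟨fun z => b (pm z), lh_pm hb2, fun z => hb3 (mem_range_self _), fun z hz => ?_⟩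
  rw [← notMem_support, hb1, mem_compl_iff, not_not]
  constructor
  · rintro ⟨w, hw, he⟩
    obtain ⟨c, hc0, rfl⟩ := eq_smul_of_pm he.symm
    exact h.2 c hc0 w hw.1
  · intro hzK
    have hn : ((‖z‖⁻¹ : ℝ) : ℂ) ≠ 0 := ofReal_ne_zero.2 (inv_ne_zero (norm_ne_zero_iff.2 hz))
    refine ⟨((‖z‖⁻¹ : ℝ) : ℂ) • z, ⟨h.2 _ hn z hzK, ?_⟩, pm_smul hn z⟩
    rw [mem_sphere_zero_iff_norm, norm_smul, Complex.norm_real, norm_inv, norm_norm,
      inv_mul_cancel₀ (norm_ne_zero_iff.2 hz)]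

/-- `a' / (a + a')` for the functions of `exists_lh_zero`. -/
theorem exists_lh_sep (h : CC K) (h' : CC K') (hd : K ∩ K' ⊆ {0}) :
    ∃ χ, LH 0 χ ∧ (∀ z, 0 ≤ χ z ∧ χ z ≤ 1) ∧ (∀ z ∈ K, z ≠ 0 → χ z = 1) ∧
      ∀ z ∈ K', z ≠ 0 → χ z = 0 := by
  obtain ⟨a, h1, h2, h3⟩ := h.exists_lh_zero
  obtain ⟨b, k1, k2, k3⟩ := h'.exists_lh_zero
  have h4 : ∀ z, z ≠ 0 → a z + b z ≠ 0 := fun z hz h0 =>
    hz (hd ⟨(h3 z hz).1 (by linarith [(h2 z).1, (k2 z).1]),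
      (k3 z hz).1 (by linarith [(h2 z).1, (k2 z).1])⟩)
  refine ⟨fun z => b z / (a z + b z), ⟨k1.1.div (h1.1.add k1.1) h4, fun c hc z hz => ?_⟩,
    fun z => ⟨div_nonneg (k2 z).1 (add_nonneg (h2 z).1 (k2 z).1),
      div_le_one_of_le₀ (le_add_of_nonneg_left (h2 z).1) (add_nonneg (h2 z).1 (k2 z).1)⟩,
    fun z hzK hz => ?_, fun z hzK hz => ?_⟩
  · simp only [h1.2 c hc z hz, k1.2 c hc z hz, zero_mul, add_zero]
  · have h5 := h4 z hz
    have h6 := (h3 z hz).2 hzK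
    rw [h6, zero_add] at h5
    simp only [h6, zero_add, div_self h5]
  · simp only [(k3 z hz).2 hzK, zero_div]

theorem GInv_nb (h : CC K) (hr : r < r') :
    ∃ χ, LH 0 χ ∧ (∀ z, 0 ≤ χ z ∧ χ z ≤ 1) ∧ (∀ z ∈ nb r K, z ≠ 0 → χ z = 1) ∧
      ∀ z, z ≠ 0 → χ z ≠ 0 → z ∈ nb r' K := by
  obtain ⟨χ, h1, h2, h3, h4⟩ := exists_lh_sep (h.nb r)
    (cc_compl isOpen_interior (h.nb r').2.interior)
    fun z hz => by_contra fun h0 => hz.2 (nb_subset_interior hr ⟨hz.1, h0⟩)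
  exact ⟨χ, h1, h2, h3, fun z hz h0 => interior_subset (by_contra fun h5 => h0 (h4 z h5 hz))⟩

theorem exists_lh_cut (h : CC K) (ho : IsOpen O) (hc : IsCone O) (hK : K \ {0} ⊆ O) :
    ∃ χ K', LH 0 χ ∧ (∀ z, 0 ≤ χ z ∧ χ z ≤ 1) ∧ (∀ z ∈ K, z ≠ 0 → χ z = 1) ∧ CC K' ∧
      K' \ {0} ⊆ O ∧ ∀ z, z ≠ 0 → χ z ≠ 0 → z ∈ K' := by
  obtain ⟨ρ, h1, h2⟩ := exists_nb_subset h.1 h.2 ho hc hK
  obtain ⟨χ, h3, h4, h5, h6⟩ := GInv_nb h h1
  exact ⟨χ, nb ρ K, h3, h4, fun z hz => h5 z (subset_nb le_rfl hz), h.nb ρ, h2, h6⟩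

theorem exists_lh_nb (h : CC K) (hr : r < r') :
    ∃ χ, LH 0 χ ∧ (∀ z, 0 ≤ χ z ∧ χ z ≤ 1) ∧ (∀ z ∈ nb r K, z ≠ 0 → χ z = 1) ∧
      ∀ z, z ≠ 0 → χ z ≠ 0 → z ∈ nb r' K := GInv_nb h hr

theorem on_of_test (hS : IsCur S) (h : CC K) (h0 : ∀ a, LH 0 a → (∀ z, 0 ≤ a z) →
    (∀ z ∈ K, z ≠ 0 → a z = 0) → pr S a (fun _ => lg) = 0) : On S K := by
  obtain ⟨a, h1, h2, h3⟩ := h.exists_lh_zero
  have h4 := h0 a h1 (fun z => (h2 z).1) fun z hzK hz => (h3 z hz).2 hzK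
  rw [hS.pr_eq, integral_eq_zero_iff_of_nonneg
    (fun x => mul_nonneg (h2 x.1).1 (dn_nonneg pps_lg x)) (hS.int_mul_dn h1.bm pots_lg)] at h4
  filter_upwards [h4, hS.ne] with x hx hx0 hd
  exact (h3 _ hx0).1 ((mul_eq_zero.1 hx).resolve_right hd)

theorem On.pr_zero (h : On S K) (hS : IsCur S) {a : E n → ℝ} (ha : ∀ z ∈ K, z ≠ 0 → a z = 0)
    {q : Fin p → E n → ℝ} (hq : Pots q) : pr S a q = 0 := by
  rw [h.pr_congr hS (b := fun _ => 0) ha hq, pr_const_left, zero_mul]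

theorem Eqv.toOn (h : Eqv S S') (hS : IsCur S) (hS' : IsCur S') (hK : CC K) (h' : On S' K) :
    On S K :=
  on_of_test hS hK fun a ha _ h0 => (h a ha _ pots_lg).trans (h'.pr_zero hS' h0 pots_lg)

theorem GInv_wg (S : Measure (Fr n p)) (hO : MeasurableSet O) :
    wg S (fun _ => lg) O = ∫⁻ x in {x | x.1 ∈ O}, ENNReal.ofReal (dens x) ∂S := by
  rw [wg, Measure.map_apply measurable_fst hO, withDensity_apply _ (measurable_fst hO)]
  rfl

theorem cc_Sp (S : Measure (Fr n p)) : CC (Sp S) := by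
  refine ⟨isOpen_compl_iff.1 (isOpen_iff_mem_nhds.2 fun z hz => ?_), fun c hc z hz => ?_⟩
  · obtain ⟨h0, h1⟩ := not_or.1 hz
    obtain ⟨O, h2⟩ := not_forall.1 h1
    obtain ⟨ho, hc, hzO, h3⟩ : IsOpen O ∧ IsCone O ∧ z ∈ O ∧ _ := by
      simpa only [Classical.not_imp] using h2
    filter_upwards [ho.mem_nhds hzO, isOpen_compl_singleton.mem_nhds h0] with w hw hw0
    exact fun h => h.elim hw0 fun h => h3 (h O ho hc hw)
  · refine hz.imp (fun h => by rw [h, smul_zero]) fun h O ho hO hzO => h O ho hO ?_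
    simpa only [inv_smul_smul₀ hc] using hO _ (inv_ne_zero hc) _ hzO

theorem zero_mem_Sp (S : Measure (Fr n p)) : (0 : E n) ∈ Sp S := Or.inl rfl

/-- The complement of `Sp S` is a union of open null cones, hence (Lindelöf) a countable union. -/
theorem on_Sp (S : Measure (Fr n p)) : On S (Sp S) := by
  refine (on_iff_wg (cc_Sp S).meas).2 (measure_null_of_locally_null _ fun z hz => ?_)
  obtain ⟨O, h2⟩ := not_forall.1 (not_or.1 hz).2
  obtain ⟨ho, -, hzO, h3⟩ : IsOpen O ∧ IsCone O ∧ z ∈ O ∧ _ := by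
    simpa only [Classical.not_imp] using h2
  exact ⟨O, mem_nhdsWithin_of_mem_nhds (ho.mem_nhds hzO),
    (GInv_wg S ho.measurableSet).trans (nonpos_iff_eq_zero.1 (not_lt.1 h3))⟩

theorem On.Sp_subset (h : On S K) (hK : CC K) : Sp S \ {0} ⊆ K := by
  rintro z ⟨hz, h0⟩
  by_contra hzK
  have h1 := hz.resolve_left h0 Kᶜ hK.1.isOpen_compl (GInv_compl hK.2) hzK
  rw [← GInv_wg S hK.meas.compl, (on_iff_wg hK.meas).1 h] at h1
  exact lt_irrefl _ h1

theorem mem_Sp_iff {z : E n} (hz : z ≠ 0) :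
    z ∈ Sp S ↔ ∀ O, IsOpen O → IsCone O → z ∈ O → 0 < wg S (fun _ => lg) O :=
  (or_iff_right hz).trans (forall_congr' fun _ => forall_congr' fun ho => by
    rw [GInv_wg S ho.measurableSet])

/-- Removal of the degenerate frames. -/
noncomputable def clr (S : Measure (Fr n p)) : Measure (Fr n p) := S.restrict {x | dens x ≠ 0}

theorem IsCur.toCln (h : IsCur S) : IsCur (clr S) :=
  h.mono Measure.restrict_le_self (by have := h.sf; unfold clr; infer_instance)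

theorem IsCur.integral_cln (h : IsCur S) {g : Fr n p → ℂ} (hg : Tst g) :
    ∫ x, g x ∂clr S = ∫ x, g x ∂S := by
  obtain ⟨C, -, hC⟩ := hg.bound
  refine setIntegral_eq_integral_of_ae_compl_eq_zero (h.ne.mono fun x hx hd => ?_)
  have h1 := hC x hx
  rwa [not_not.1 hd, mul_zero, norm_le_zero_iff] at h1

theorem IsCur.eqv_cln (h : IsCur S) : Eqv (clr S) S := fun a _ q hq => by
  rw [h.toCln.pr_eq, h.pr_eq]
  exact setIntegral_eq_integral_of_forall_compl_eq_zero fun x hx => by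
    rw [dn_eq_zero hq (not_not.1 hx), mul_zero]

theorem Cl1.inC (h : Cl1 S) (hK : CC K) (hD : K \ {0} ⊆ D) (h' : On S K) : InC D (clr S) :=
  ⟨h.cur.toCln, closed_iff.2 fun a b ha hb q hq l =>
    (h.cur.integral_cln (tst_dx ha.ic hb.ic hq l)).trans (closed_iff.1 h.closed a b ha hb q hq l),
    h.cur.eqv_cln.mass_eq.trans h.mass, K, hK.1, hK.2, hD,
    (ae_restrict_iff' (measurable_dens (measurableSet_singleton 0)).compl).2 h'⟩

theorem InC.cl1 (h : InC D S) : Cl1 S := ⟨h.cur, h.closed, h.mass⟩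

theorem InC.exists_on (h : InC D S) : ∃ K, CC K ∧ K \ {0} ⊆ D ∧ On S K := by
  obtain ⟨K, h1, h2, h3, h4⟩ := h.supp
  exact ⟨K, ⟨h1, h2⟩, h3, h4.mono fun _ hx _ => hx⟩

end Pool.Agent.Lib.MP_a47f92_an
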