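import Pool.Agent.Lib.MP_a47f92_an.G.LB1
import Pool.Agent.Lib.MP_a47f92_an.G.SmB
import Pool.Agent.Lib.MP_a47f92_an.G.GInv

set_option autoImplicit false
set_option linter.unusedSectionVars false

namespace Pool.Agent.Lib.MP_a47f92_an

open MeasureTheory Filter Topology Set Complex Metric Function
open scoped ContDiff ComplexConjugate ComplexOrder Matrix ENNReal NNReal

/-! Lower bounds near the support. -/

variable {n p : ℕ}

theorem nb_ln_subset {δ : ℝ} (hδ : 0 < δ) (hδ' : δ ≤ 1) {z y : E n} (hy : y ≠ 0)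
    (h : y ∈ nb (δ / 8) (ln z)) : nb (δ / 2) (ln z) ⊆ nb δ (ln y) := by
  obtain ⟨a, ha, h1⟩ := h
  obtain ⟨c, rfl⟩ := Submodule.mem_span_singleton.1 ha
  rintro w ⟨b, hb, h2⟩
  obtain ⟨c', rfl⟩ := Submodule.mem_span_singleton.1 hb
  have hy' : 0 < ‖y‖ := norm_pos_iff.2 hy
  have h3 : ‖y‖ ≤ ‖c • z‖ + ‖c • z - y‖ := by
    have := norm_sub_le (c • z) (c • z - y)
    rwa [sub_sub_cancel] at this
  have h4 : δ / 8 * ‖y‖ ≤ 1 / 8 * ‖y‖ := mul_le_mul_of_nonneg_right (by linarith) hy'.le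
  have h5 : 7 / 8 * ‖y‖ ≤ ‖c • z‖ := by linarith
  have hc : c ≠ 0 := by
    rintro rfl
    rw [zero_smul, norm_zero] at h5
    linarith
  have h6 : ‖c' • z‖ ≤ ‖w‖ + ‖c' • z - w‖ := by
    have := norm_add_le w (c' • z - w)
    rwa [add_sub_cancel] at this
  have h7 : δ / 2 * ‖w‖ ≤ 1 / 2 * ‖w‖ := mul_le_mul_of_nonneg_right (by linarith) (norm_nonneg _)
  have h8 : c' • z = (c' / c) • (c • z) := by rw [smul_smul, div_mul_cancel₀ _ hc]
  have h9 : ‖c' / c‖ * ‖c • z‖ ≤ 3 / 2 * ‖w‖ := by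
    rw [← norm_smul, ← h8]
    linarith
  have h10 : ‖c' / c‖ * ‖y‖ ≤ 2 * ‖w‖ := by
    have := mul_le_mul_of_nonneg_left h5 (norm_nonneg (c' / c))
    nlinarith [norm_nonneg w]
  refine ⟨(c' / c) • y, Submodule.mem_span_singleton.2 ⟨_, rfl⟩, ?_⟩
  have h11 : (c' / c) • y - w = (c' • z - w) - (c' / c) • (c • z - y) := by
    rw [smul_sub, ← h8]
    abel
  rw [h11]
  refine (norm_sub_le _ _).trans ?_
  rw [norm_smul]
  have h12 := mul_le_mul_of_nonneg_left h1 (norm_nonneg (c' / c))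
  have h13 := mul_le_mul_of_nonneg_left h10 (by positivity : 0 ≤ δ / 8)
  have h14 : 0 ≤ δ * ‖w‖ := by positivity
  nlinarith

theorem LB_rf_mono {p' : ℕ} {W W' : Set (E n)} (h : W ⊆ W') (g : Fr n p' → ℝ) :
    rf W g ≤ rf W' g := lintegral_mono_set h

theorem LB_rf_zero {p' : ℕ} (g : Fr n p' → ℝ) : rf ({0} : Set (E n)) g = 0 := by
  have h : bw (0 : E n) = 0 := by
    unfold bw
    rw [expNegInvGlue.zero_of_nonpos (by simp), zero_mul]
  unfold rf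
  rw [setLIntegral_congr_fun (g := fun _ => 0) (measurableSet_singleton _), lintegral_zero]
  rintro w rfl
  simp [h]

theorem LB_rf_union {p' : ℕ} (W W' : Set (E n)) (g : Fr n p' → ℝ) :
    rf (W ∪ W') g ≤ rf W g + rf W' g := lintegral_union_le _ _ _

theorem LB_rf_biUnion {p' : ℕ} (t : Finset (E n)) (W : E n → Set (E n)) (g : Fr n p' → ℝ) :
    rf (⋃ z ∈ t, W z) g ≤ ∑ z ∈ t, rf (W z) g := by
  classical
  induction t using Finset.induction_on with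
  | empty => simp [rf]
  | insert a s ha ih =>
    rw [Finset.set_biUnion_insert, Finset.sum_insert ha]
    exact (LB_rf_union _ _ g).trans (add_le_add le_rfl ih)

theorem LB_exists_inv {m : ℝ≥0∞} (hm : 0 < m) : ∃ c : ℝ≥0, 1 ≤ c * m := by
  obtain ⟨a, ha0, ha⟩ := ENNReal.lt_iff_exists_nnreal_btwn.1 hm
  have h0 : a ≠ 0 := by
    rintro rfl
    exact lt_irrefl _ ha0
  refine ⟨a⁻¹, ?_⟩
  calc (1 : ℝ≥0∞) = ((a⁻¹ : ℝ≥0) : ℝ≥0∞) * a := by
        rw [← ENNReal.coe_mul, inv_mul_cancel₀ h0, ENNReal.coe_one]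
    _ ≤ _ := mul_le_mul_right ha.le _

theorem LB_mem_int {δ : ℝ} (hδ : 0 < δ) {z : E n} (hz : z ≠ 0) :
    z ∈ interior (nb δ (ln z)) :=
  nb_subset_interior hδ ⟨subset_nb le_rfl (Submodule.mem_span_singleton_self z), hz⟩

theorem LB_loc (S : Measure (Fr n p)) {δ : ℝ} (hδ : 0 < δ) (hδ' : δ ≤ 1) {z : E n} (hz : z ≠ 0)
    (hS : z ∈ Sp S) : ∃ c : ℝ≥0, ∀ (p' : ℕ) (g : Fr n p' → ℝ), rf (nb (δ / 2) (ln z)) g ≤
      c * ∫⁻ x, ENNReal.ofReal (dens x) * rf (nb δ (ln x.1)) g ∂S := by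
  have h8 : 0 < δ / 8 := by positivity
  have hm := (hS.resolve_left hz) _ isOpen_interior (isCone_nb (cc_ln z).2).interior
    (LB_mem_int h8 hz)
  obtain ⟨c, hc⟩ := LB_exists_inv hm
  refine ⟨c, fun p' g => ?_⟩
  have hO : MeasurableSet {x : Fr n p | x.1 ∈ interior (nb (δ / 8) (ln z))} :=
    (isOpen_interior.preimage continuous_fst).measurableSet
  calc rf (nb (δ / 2) (ln z)) g = 1 * rf (nb (δ / 2) (ln z)) g := (one_mul _).symm
    _ ≤ (c * ∫⁻ x in {x : Fr n p | x.1 ∈ interior (nb (δ / 8) (ln z))},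
          ENNReal.ofReal (dens x) ∂S) * rf (nb (δ / 2) (ln z)) g := mul_le_mul_left hc _
    _ ≤ c * ∫⁻ x in {x : Fr n p | x.1 ∈ interior (nb (δ / 8) (ln z))},
          ENNReal.ofReal (dens x) * rf (nb (δ / 2) (ln z)) g ∂S := by
        rw [mul_assoc]
        exact mul_le_mul_right (lintegral_mul_const_le _ _) _
    _ ≤ c * ∫⁻ x in {x : Fr n p | x.1 ∈ interior (nb (δ / 8) (ln z))},
          ENNReal.ofReal (dens x) * rf (nb δ (ln x.1)) g ∂S := by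
        refine mul_le_mul_right (setLIntegral_mono' hO fun x hx => ?_) _
        by_cases h0 : x.1 = 0
        · simp [dens, dn, h0]
        · exact mul_le_mul_right
            (LB_rf_mono (nb_ln_subset hδ hδ' h0 (interior_subset hx)) g) _
    _ ≤ _ := mul_le_mul_right (setLIntegral_le_lintegral _ _) _

/-- Cover the compact set `Sp S ∩ sphere 0 1` by finitely many open cones
`O = interior (nb (δ / 8) (ln z))`, `z ∈ Sp S`; each has positive mass `m` (replace it by `min m 1`), and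
`m * rf (nb (δ / 2) (ln z)) g` is at most the integral by `nb_ln_subset`. -/
theorem lb_cover (S : Measure (Fr n p)) {δ : ℝ} (hδ : 0 < δ) (hδ' : δ ≤ 1) : ∃ C : ℝ≥0,
    ∀ (p' : ℕ) (g : Fr n p' → ℝ), rf (nb (δ / 8) (Sp S)) g ≤
      C * ∫⁻ x, ENNReal.ofReal (dens x) * rf (nb δ (ln x.1)) g ∂S := by
  have h8 : 0 < δ / 8 := by positivity
  have hK : IsCompact (Sp S ∩ sphere (0 : E n) 1) :=
    (isCompact_sphere _ _).inter_left (cc_Sp S).1
  have hne : ∀ z ∈ Sp S ∩ sphere (0 : E n) 1, z ≠ 0 := fun z hz h0 => by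
    have := hz.2
    rw [h0, mem_sphere_zero_iff_norm, norm_zero] at this
    exact zero_ne_one this
  have hc : ∀ z : E n, ∃ c : ℝ≥0, z ∈ Sp S ∩ sphere (0 : E n) 1 →
      ∀ (p' : ℕ) (g : Fr n p' → ℝ), rf (nb (δ / 2) (ln z)) g ≤
        c * ∫⁻ x, ENNReal.ofReal (dens x) * rf (nb δ (ln x.1)) g ∂S := fun z => by
    by_cases hz : z ∈ Sp S ∩ sphere (0 : E n) 1
    · obtain ⟨c, hc⟩ := LB_loc S hδ hδ' (hne z hz) hz.1
      exact ⟨c, fun _ => hc⟩
    · exact ⟨0, fun h => absurd h hz⟩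
  choose c hc using hc
  obtain ⟨t, ht, hcov⟩ := hK.elim_nhds_subcover (fun z => interior (nb (δ / 8) (ln z)))
    fun z hz => isOpen_interior.mem_nhds (LB_mem_int h8 (hne z hz))
  have hsub : nb (δ / 8) (Sp S) ⊆ {0} ∪ ⋃ z ∈ t, nb (δ / 2) (ln z) := by
    rintro w ⟨y, hy, h1⟩
    by_cases hy0 : y = 0
    · left
      rw [hy0, zero_sub, norm_neg] at h1
      have h2 : δ / 8 * ‖w‖ ≤ 1 / 8 * ‖w‖ :=
        mul_le_mul_of_nonneg_right (by linarith) (norm_nonneg _)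
      exact norm_eq_zero.1 (by linarith [norm_nonneg w])
    · right
      have hn : ((‖y‖ : ℝ) : ℂ) ≠ 0 := by exact_mod_cast norm_ne_zero_iff.2 hy0
      have h2 : ((‖y‖ : ℝ) : ℂ)⁻¹ • y ∈ Sp S ∩ sphere (0 : E n) 1 := by
        refine ⟨(cc_Sp S).2 _ (inv_ne_zero hn) y hy, ?_⟩
        rw [mem_sphere_zero_iff_norm, norm_smul, norm_inv, Complex.norm_real, norm_norm,
          inv_mul_cancel₀ (norm_ne_zero_iff.2 hy0)]
      obtain ⟨z, hz, h3⟩ := mem_iUnion₂.1 (hcov h2)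
      have h4 := isCone_nb (cc_ln z).2 _ hn _ (interior_subset h3)
      rw [smul_inv_smul₀ hn] at h4
      refine mem_iUnion₂.2 ⟨z, hz, ?_⟩
      exact nb_mono (by nlinarith) Subset.rfl (nb_nb h8.le h8.le ⟨y, h4, h1⟩)
  refine ⟨∑ z ∈ t, c z, fun p' g => ?_⟩
  refine (LB_rf_mono hsub g).trans ((LB_rf_union _ _ g).trans ?_)
  rw [LB_rf_zero, zero_add, ENNReal.ofNNReal_finsetSum, Finset.sum_mul]
  exact (LB_rf_biUnion t _ g).trans (Finset.sum_le_sum fun z hz => hc z (ht z hz) p' g)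

theorem lb_Sm (κ : KM n) {r : ℝ} (hr : 0 < r) (hr' : r ≤ 1 / 2) {S : Measure (Fr n p)}
    (hS : IsCur S) : ∃ (δ : ℝ) (C : ℝ≥0), 0 < δ ∧
      ∀ g, PT g → rf (nb δ (Sp S)) g ≤ C * lp (Sm κ r S) g := by
  obtain ⟨δ, C₁, hδ, hδ', h1⟩ := lb_point κ p hr hr'
  obtain ⟨C₂, h2⟩ := lb_cover S hδ hδ'
  refine ⟨δ / 8, C₂ * C₁, by positivity, fun g hg => (h2 p g).trans ?_⟩
  rw [lp_Sm hS.sf hg.meas, ENNReal.coe_mul, mul_assoc,
    ← lintegral_const_mul' (C₁ : ℝ≥0∞) _ ENNReal.coe_ne_top]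
  exact mul_le_mul_right (lintegral_mono fun x => h1 g x hg) _

theorem lb_Ho (κ : KM n) {r : ℝ} (hr : 0 < r) (hr' : r ≤ 1 / 2) {S : Measure (Fr n p)}
    (hS : IsCur S) : ∃ (δ : ℝ) (C : ℝ≥0), 0 < δ ∧
      ∀ g, PT g → rf (nb δ (Sp S)) g ≤ C * lp (Ho κ r S) g := by
  obtain ⟨δ, C₁, hδ, hδ', h1⟩ := lb_point_su κ p hr hr'
  obtain ⟨C₂, h2⟩ := lb_cover S hδ hδ'
  refine ⟨δ / 8, C₂ * C₁, by positivity, fun g hg => (h2 (p + 1) g).trans ?_⟩
  rw [lp_Ho hS.sf hg.meas, ENNReal.coe_mul, mul_assoc,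
    ← lintegral_const_mul' (C₁ : ℝ≥0∞) _ ENNReal.coe_ne_top]
  exact mul_le_mul_right (lintegral_mono fun x => h1 g x hg) _

end Pool.Agent.Lib.MP_a47f92_an
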