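import Pool.Agent.Lib.MP_a47f92_an.G.GW2
import Pool.Agent.Lib.MP_a47f92_an.Hess
import Pool.Agent.Lib.MP_a47f92_an.MDisc2

set_option autoImplicit false
set_option linter.unusedSectionVars false

namespace Pool.Agent.Lib.MP_a47f92_an

open MeasureTheory Filter Topology Set Complex Metric Function
open scoped ContDiff ComplexConjugate ComplexOrder Matrix ENNReal NNReal

/-! The Levi matrix on a frame. -/

variable {V W : Type} [NormedAddCommGroup V] [NormedSpace ℝ V] [NormedSpace ℂ V]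
  [IsScalarTower ℝ ℂ V] [NormedAddCommGroup W] [NormedSpace ℝ W] [NormedSpace ℂ W]
  [IsScalarTower ℝ ℂ W] {f g : V → ℂ} {z : V} {p n : ℕ} {u : Fin p → V}

theorem GL_ev {𝕜 A B : Type} [NontriviallyNormedField 𝕜] [NormedAddCommGroup A] [NormedSpace 𝕜 A]
    [NormedAddCommGroup B] [NormedSpace 𝕜 B] {F : A → B} {x : A} (h : ContDiffAt 𝕜 2 F x) :
    ∀ᶠ w in 𝓝 x, DifferentiableAt 𝕜 F w :=
  (h.eventually (by simp)).mono fun _ hw => hw.differentiableAt two_ne_zero

theorem GL_d (hf : ContDiffAt ℝ 2 f z) : DifferentiableAt ℝ f z := hf.differentiableAt two_ne_zero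

theorem GL_db (hf : ContDiffAt ℝ 2 f z) (b : V) : DifferentiableAt ℝ (gb b f) z :=
  (contDiffAt_gb (k := 1) hf one_add_one_eq_two.le b).differentiableAt one_ne_zero

theorem GL_congr (h : f =ᶠ[𝓝 z] g) (a b : V) : gd a (gb b f) z = gd a (gb b g) z :=
  (gd_congr (gb_congr h b) a).eq_of_nhds

theorem GL_const (c : ℂ) (z a b : V) : gd a (gb b fun _ => c) z = 0 := by
  rw [show (gb b fun _ => c) = fun _ => 0 from funext (gb_const c b), gd_const]

theorem GL_add (hf : ContDiffAt ℝ 2 f z) (hg : ContDiffAt ℝ 2 g z) (a b : V) :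
    gd a (gb b fun w => f w + g w) z = gd a (gb b f) z + gd a (gb b g) z := by
  have h : (gb b fun w => f w + g w) =ᶠ[𝓝 z] fun w => gb b f w + gb b g w :=
    ((GL_ev hf).and (GL_ev hg)).mono fun w h => gb_add h.1 h.2
  rw [(gd_congr h a).eq_of_nhds, gd_add (GL_db hf b) (GL_db hg b)]

theorem GL_const_mul (c : ℂ) (f : V → ℂ) (z a b : V) :
    gd a (gb b fun w => c * f w) z = c * gd a (gb b f) z := by
  rw [show (gb b fun w => c * f w) = fun w => c * gb b f w from funext (gb_const_mul c f b),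
    gd_const_mul]

theorem GL_mul (hf : ContDiffAt ℝ 2 f z) (hg : ContDiffAt ℝ 2 g z) (a b : V) :
    gd a (gb b fun w => f w * g w) z = f z * gd a (gb b g) z + g z * gd a (gb b f) z +
      gd a f z * gb b g z + gd a g z * gb b f z := by
  have h : (gb b fun w => f w * g w) =ᶠ[𝓝 z] fun w => gb b f w * g w + f w * gb b g w :=
    ((GL_ev hf).and (GL_ev hg)).mono fun w h => gb_mul h.1 h.2
  rw [(gd_congr h a).eq_of_nhds,
    gd_add ((GL_db hf b).fun_mul (GL_d hg)) ((GL_d hf).fun_mul (GL_db hg b)),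
    gd_mul (GL_db hf b) (GL_d hg), gd_mul (GL_d hf) (GL_db hg b)]
  ring

theorem GL_conj (hf : ContDiffAt ℝ 2 f z) (a b : V) :
    gd a (gb b fun w => conj (f w)) z = conj (gd b (gb a f) z) := by
  rw [show (gb b fun w => conj (f w)) = fun w => conj (gd b f w) from funext (gb_conj f b), gd_conj,
    gd_gb_comm hf]

theorem GL_lin {c : V → W →L[ℝ] ℂ} {Ψ : V → W} {T : V →L[ℂ] W} (hc : DifferentiableAt ℝ c z)
    (hΨ : HasFDerivAt Ψ T z) (h0 : Ψ z = 0) :
    DifferentiableAt ℝ (fun w => c w (Ψ w)) z ∧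
      ∀ v, fderiv ℝ (fun w => c w (Ψ w)) z v = c z (T v) := by
  have h := hc.hasFDerivAt.clm_apply (hΨ.restrictScalars ℝ)
  refine ⟨h.differentiableAt, fun v => ?_⟩
  rw [h.fderiv, h0, map_zero, add_zero]
  rfl

theorem GL_comp {Φ : V → W} {A : W → ℂ} (hΦ : ContDiffAt ℂ 2 Φ z) (hA : ContDiffAt ℝ 2 A (Φ z))
    (a b : V) : gd a (gb b fun w => A (Φ w)) z =
      gd (fderiv ℂ Φ z a) (gb (fderiv ℂ Φ z b) A) (Φ z) := by
  have hd : DifferentiableAt ℂ Φ z := hΦ.differentiableAt two_ne_zero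
  have hc : DifferentiableAt ℝ (fun w => fderiv ℝ A (Φ w)) z :=
    ((hA.fderiv_right (m := 1) one_add_one_eq_two.le).differentiableAt one_ne_zero).comp z
      (hd.restrictScalars ℝ)
  have hΨ : DifferentiableAt ℂ (fun w => fderiv ℂ Φ w b - fderiv ℂ Φ z b) z :=
    (((hΦ.fderiv_right (m := 1) one_add_one_eq_two.le).differentiableAt one_ne_zero).clm_apply
      (differentiableAt_const b)).sub_const _
  obtain ⟨T, hT⟩ := hΨ
  obtain ⟨h1, h2⟩ := GL_lin hc hT (sub_self _)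
  obtain ⟨h3, h4⟩ := GL_lin hc (hT.fun_const_smul I) (by rw [sub_self, smul_zero])
  have h : (gb b fun w => A (Φ w)) =ᶠ[𝓝 z] fun w => gb (fderiv ℂ Φ z b) A (Φ w) +
      2⁻¹ * (fderiv ℝ A (Φ w) (fderiv ℂ Φ w b - fderiv ℂ Φ z b) +
        I * fderiv ℝ A (Φ w) (I • (fderiv ℂ Φ w b - fderiv ℂ Φ z b))) := by
    filter_upwards [GL_ev hΦ, hd.continuousAt.eventually (GL_ev hA)] with w h1 h2
    rw [gb_comp h1 h2, smul_sub, map_sub, map_sub, gb, gb]
    ring
  have h5 : DifferentiableAt ℝ (fun w => gb (fderiv ℂ Φ z b) A (Φ w)) z :=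
    (GL_db hA _).comp z (hd.restrictScalars ℝ)
  rw [(gd_congr h a).eq_of_nhds, gd_add h5 ((h1.fun_add (h3.const_mul I)).const_mul _),
    gd_comp hd (GL_db hA _), gd_const_mul, gd_add h1 (h3.const_mul I), gd_const_mul, add_eq_left,
    gd, gd, h2, h2, h4, h4]
  simp only [smul_apply, map_smul, smul_smul, I_mul_I, neg_smul, one_smul,
    map_neg]
  linear_combination (2⁻¹ * 2⁻¹ * fderiv ℝ A (Φ z) (T a)) * I_mul_I

theorem GL_rcomp {q : V → ℝ} {φ : ℝ → ℝ} (hq : ContDiffAt ℝ 2 q z) (hφ : ContDiffAt ℝ 2 φ (q z))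
    (a b : V) : gd a (gb b (rc fun w => φ (q w))) z =
      (deriv φ (q z) : ℝ) * gd a (gb b (rc q)) z +
        (deriv (deriv φ) (q z) : ℝ) * (gd a (rc q) z * gb b (rc q) z) := by
  have hd : DifferentiableAt ℝ q z := hq.differentiableAt two_ne_zero
  have h1 : DifferentiableAt ℝ (deriv φ) (q z) :=
    ((hφ.fderiv_right (m := 1) one_add_one_eq_two.le).differentiableAt one_ne_zero).clm_apply
      (differentiableAt_const (1 : ℝ))
  have h : gb b (rc fun w => φ (q w)) =ᶠ[𝓝 z]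
      fun w => rc (fun w => deriv φ (q w)) w * gb b (rc q) w := by
    filter_upwards [GL_ev hq, hd.continuousAt.eventually (GL_ev hφ)] with w h1 h2
    exact gb_rcomp h1 h2.hasDerivAt
  have h2 : DifferentiableAt ℝ (rc fun w => deriv φ (q w)) z :=
    ofRealCLM.differentiableAt.comp z (h1.comp z hd)
  rw [(gd_congr h a).eq_of_nhds, gd_mul h2 (GL_db (contDiffAt_rc hq) b),
    gd_rcomp hd h1.hasDerivAt]
  ring

theorem GL_sum {ι κ : Type} [Fintype ι] [Fintype κ] (hf : ContDiffAt ℝ 2 f z) (c : ι → ℂ)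
    (d : κ → ℂ) (a : ι → V) (b : κ → V) :
    gd (∑ i, c i • a i) (gb (∑ j, d j • b j) f) z =
      ∑ i, ∑ j, c i * conj (d j) * gd (a i) (gb (b j) f) z := by
  have h : gb (∑ j, d j • b j) f = fun w => ∑ j, conj (d j) * gb (b j) f w := funext fun w => by
    rw [gb_vsum]
    exact Finset.sum_congr rfl fun j _ => gb_vsmul _ _ _ _
  rw [gd_vsum, h]
  refine Finset.sum_congr rfl fun i _ => ?_
  rw [gd_vsmul, gd_sum _ fun j _ => (GL_db hf (b j)).const_mul _, Finset.mul_sum]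
  refine Finset.sum_congr rfl fun j _ => ?_
  rw [gd_const_mul, mul_assoc]

theorem GL_cong (P H : Mat p) (j k : Fin p) :
    cong P H j k = ∑ i, ∑ l, P i j * conj (P l k) * H i l := by
  simp only [cong, Matrix.mul_apply, Matrix.transpose_apply, Matrix.map_apply, Finset.sum_mul]
  rw [Finset.sum_comm]
  exact Finset.sum_congr rfl fun i _ => Finset.sum_congr rfl fun l _ => by ring

theorem GL_rc {a b : V → ℝ} (h : a =ᶠ[𝓝 z] b) : rc a =ᶠ[𝓝 z] rc b :=
  h.mono fun _ hw => congrArg ofReal hw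

theorem gl_congr (h : f =ᶠ[𝓝 z] g) (u : Fin p → V) : gl f z u = gl g z u :=
  Matrix.ext fun _ _ => GL_congr h _ _

theorem gg_congr {f' g' : V → ℂ} (h : f =ᶠ[𝓝 z] f') (h' : g =ᶠ[𝓝 z] g') (u : Fin p → V) :
    gg f g z u = gg f' g' z u :=
  Matrix.ext fun i j => congrArg₂ (· * ·) (gd_congr h (u i)).eq_of_nhds
    (gb_congr h' (u j)).eq_of_nhds

theorem gl_const (c : ℂ) (z : V) (u : Fin p → V) : gl (fun _ => c) z u = 0 :=
  Matrix.ext fun _ _ => GL_const c z _ _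

theorem gl_add (hf : ContDiffAt ℝ 2 f z) (hg : ContDiffAt ℝ 2 g z) :
    gl (fun w => f w + g w) z u = gl f z u + gl g z u :=
  Matrix.ext fun _ _ => GL_add hf hg _ _

theorem gl_const_mul (c : ℂ) (f : V → ℂ) (z : V) (u : Fin p → V) :
    gl (fun w => c * f w) z u = c • gl f z u :=
  Matrix.ext fun _ _ => GL_const_mul c f z _ _

theorem gl_mul (hf : ContDiffAt ℝ 2 f z) (hg : ContDiffAt ℝ 2 g z) :
    gl (fun w => f w * g w) z u = f z • gl g z u + g z • gl f z u + gg f g z u + gg g f z u :=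
  Matrix.ext fun _ _ => GL_mul hf hg _ _

theorem gl_conj (hf : ContDiffAt ℝ 2 f z) : gl (fun w => conj (f w)) z u = (gl f z u)ᴴ :=
  Matrix.ext fun _ _ => GL_conj hf _ _

theorem gg_conj (f g : V → ℂ) (z : V) (u : Fin p → V) :
    gg (fun w => conj (g w)) (fun w => conj (f w)) z u = (gg f g z u)ᴴ := by
  ext i j
  simp only [gg, Matrix.conjTranspose_apply, Matrix.of_apply, gd_conj, gb_conj, star_def, map_mul]
  ring

theorem gl_herm {q : V → ℝ} (h : ContDiffAt ℝ 2 q z) : (gl (rc q) z u).IsHermitian := by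
  rw [Matrix.IsHermitian, ← gl_conj (contDiffAt_rc h)]
  simp only [conj_ofReal]

theorem gg_rc (a b : V → ℝ) (z : V) (u : Fin p → V) : gg (rc a) (rc b) z u =
    Matrix.of fun i j => gd (u i) (rc a) z * conj (gd (u j) (rc b) z) :=
  Matrix.ext fun i j => congrArg (gd (u i) (rc a) z * ·) (gb_rc b (u j) z)

theorem gl_comp {Φ : V → W} {a : W → ℂ} (hΦ : ContDiffAt ℂ 2 Φ z) (ha : ContDiffAt ℝ 2 a (Φ z)) :
    gl (fun w => a (Φ w)) z u = gl a (Φ z) fun j => fderiv ℂ Φ z (u j) :=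
  Matrix.ext fun _ _ => GL_comp hΦ ha _ _

theorem gg_comp {Φ : V → W} {a b : W → ℂ} (hΦ : DifferentiableAt ℂ Φ z)
    (ha : DifferentiableAt ℝ a (Φ z)) (hb : DifferentiableAt ℝ b (Φ z)) :
    gg (fun w => a (Φ w)) (fun w => b (Φ w)) z u = gg a b (Φ z) fun j => fderiv ℂ Φ z (u j) :=
  Matrix.ext fun _ _ => congrArg₂ (· * ·) (gd_comp hΦ ha) (gb_comp hΦ hb)

theorem lap_comp {Φ : V → W} {a : W → ℝ} (hΦ : ContDiffAt ℂ 2 Φ z) (ha : ContDiffAt ℝ 2 a (Φ z))
    (v : V) : lap (fun w => a (Φ w)) z v = lap a (Φ z) (fderiv ℂ Φ z v) :=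
  congrArg re (GL_comp hΦ (contDiffAt_rc ha) v v)

theorem gl_rcomp {q : V → ℝ} {φ : ℝ → ℝ} (hq : ContDiffAt ℝ 2 q z) (hφ : ContDiffAt ℝ 2 φ (q z)) :
    gl (rc fun w => φ (q w)) z u = ((deriv φ (q z) : ℝ) : ℂ) • gl (rc q) z u +
      ((deriv (deriv φ) (q z) : ℝ) : ℂ) • gg (rc q) (rc q) z u :=
  Matrix.ext fun _ _ => GL_rcomp hq hφ _ _

theorem lap_rcomp {q : V → ℝ} {φ : ℝ → ℝ} (hq : ContDiffAt ℝ 2 q z) (hφ : ContDiffAt ℝ 2 φ (q z))
    (v : V) : lap (fun w => φ (q w)) z v =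
      deriv φ (q z) * lap q z v + deriv (deriv φ) (q z) * ‖gd v (rc q) z‖ ^ 2 := by
  rw [lap, GL_rcomp hq hφ, gb_rc, mul_conj', add_re, re_ofReal_mul, ← ofReal_pow, ← ofReal_mul,
    ofReal_re, lap]

theorem lap_congr {a b : V → ℝ} (h : a =ᶠ[𝓝 z] b) (v : V) : lap a z v = lap b z v :=
  congrArg re (GL_congr (GL_rc h) v v)

theorem lap_add {a b : V → ℝ} (ha : ContDiffAt ℝ 2 a z) (hb : ContDiffAt ℝ 2 b z) (v : V) :
    lap (fun w => a w + b w) z v = lap a z v + lap b z v := by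
  rw [lap, show (rc fun w => a w + b w) = fun w => rc a w + rc b w from
    funext fun w => ofReal_add _ _, GL_add (contDiffAt_rc ha) (contDiffAt_rc hb), add_re, lap, lap]

theorem lap_const_mul (c : ℝ) (a : V → ℝ) (z v : V) :
    lap (fun w => c * a w) z v = c * lap a z v := by
  rw [lap, show (rc fun w => c * a w) = fun w => c * rc a w from funext fun w => ofReal_mul _ _,
    GL_const_mul, re_ofReal_mul, lap]

theorem lap_const (c : ℝ) (z v : V) : lap (fun _ => c) z v = 0 :=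
  congrArg re (GL_const c z v v)

theorem lap_mul {a b : V → ℝ} (ha : ContDiffAt ℝ 2 a z) (hb : ContDiffAt ℝ 2 b z) (v : V) :
    lap (fun w => a w * b w) z v = a z * lap b z v + b z * lap a z v +
      2 * (gd v (rc a) z * conj (gd v (rc b) z)).re := by
  rw [lap, show (rc fun w => a w * b w) = fun w => rc a w * rc b w from
    funext fun w => ofReal_mul _ _, GL_mul (contDiffAt_rc ha) (contDiffAt_rc hb), gb_rc, gb_rc,
    add_re, add_re, add_re, re_ofReal_mul, re_ofReal_mul, lap, lap]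
  simp only [mul_re, conj_re, conj_im]
  ring

theorem lap_smul {a : V → ℝ} (ha : ContDiffAt ℝ 2 a z) (c : ℂ) (v : V) :
    lap a z (c • v) = ‖c‖ ^ 2 * lap a z v := by
  rw [lap, gd_vsmul, show gb (c • v) (rc a) = fun w => conj c * gb v (rc a) w from
    funext (gb_vsmul c (rc a) v), gd_const_mul, ← mul_assoc, mul_conj', ← ofReal_pow,
    re_ofReal_mul, lap]

theorem gl_chg (hf : ContDiffAt ℝ 2 f z) (P : Mat p) :
    gl f z (fun j => ∑ i, P i j • u i) = cong P (gl f z u) := by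
  ext j k
  rw [GL_cong]
  exact GL_sum hf _ _ u u

theorem gg_chg (f g : V → ℂ) (z : V) (u : Fin p → V) (P : Mat p) :
    gg f g z (fun j => ∑ i, P i j • u i) = cong P (gg f g z u) := by
  ext j k
  rw [GL_cong]
  simp only [gg, Matrix.of_apply, gd_vsum, gb_vsum, gd_vsmul, gb_vsmul, Finset.sum_mul_sum]
  exact Finset.sum_congr rfl fun i _ => Finset.sum_congr rfl fun l _ => by ring

theorem qf_gl {q : V → ℝ} (h : ContDiffAt ℝ 2 q z) (c : E p) :
    (qf (gl (rc q) z u) c).re = lap q z (∑ i, c i • u i) :=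
  congrArg re (GL_sum (contDiffAt_rc h) (fun i => c i) (fun i => c i) u u).symm

theorem gl_psd {q : V → ℝ} (h : ContDiffAt ℝ 2 q z) (h' : ∀ v, 0 ≤ lap q z v) :
    (gl (rc q) z u).PosSemidef :=
  psd_of_qf (gl_herm h) fun c => qf_gl (u := u) h c ▸ h' _

theorem lap_eq_levi {q : E n → ℝ} {z : E n} (h : ContDiffAt ℝ 2 q z) (v : E n) :
    lap q z v = levi q z v := by
  rw [levi_eq_qf, show hess q z = gl (rc q) z ev from rfl, qf_gl h, sum_ev]

theorem gl_eq_rs {q : E n → ℝ} {z : E n} (h : ContDiffAt ℝ 2 q z) (u : Fin p → E n) :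
    gl (rc q) z u = rs (hess q z) u := by
  ext i j
  have := GL_sum (contDiffAt_rc h) (fun a => u i a) (fun a => u j a) ev ev
  rw [sum_ev, sum_ev] at this
  exact this

theorem gl_ev (q : E n → ℝ) (z : E n) : gl (rc q) z ev = hess q z := rfl

end Pool.Agent.Lib.MP_a47f92_an
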