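import Pool.Agent.Lib.MP_a47f92_an.G.GInt
import Pool.Agent.Lib.MP_a47f92_an.MDisc
import Pool.Agent.Lib.MP_a47f92_an.Coc1

set_option autoImplicit false
set_option linter.unusedSectionVars false

namespace Pool.Agent.Lib.MP_a47f92_an

open MeasureTheory Filter Topology Set Complex Metric Function
open scoped ContDiff ComplexConjugate ComplexOrder Matrix ENNReal NNReal

/-! Plücker coordinates: expansion of alternating forms and Gram determinants. -/

variable {n m p : ℕ}

theorem plk_apply (w : Fin p → E n) (J : Fin p → Fin n) :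
    plk w J = (Matrix.of fun i j => w j (J i)).det := rfl

/-- Multilinear expansion: write `w j = ∑ a, w j a • ev a` and use `map_sum`. -/
theorem alt_expand0 (θ : E n [⋀^Fin p]→ₗ[ℂ] ℂ) (w : Fin p → E n) :
    θ w = ∑ J : Fin p → Fin n, (∏ j, w j (J j)) * θ (evs J) := by
  have h : w = fun j => ∑ a : Fin n, w j a • ev a := by
    funext j
    ext b
    simp [ev, Pi.single_apply]
  conv_lhs => rw [h]
  have h2 := θ.toMultilinearMap.map_sum (fun j (a : Fin n) => w j a • ev a)
  refine h2.trans (Finset.sum_congr rfl fun J _ => ?_)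
  exact θ.toMultilinearMap.map_smul_univ (fun j => w j (J j)) (evs J)

/-- Average `alt_expand0` over permutations (`J ↦ J ∘ σ`, `AlternatingMap.map_perm`). -/
theorem alt_expand (θ : E n [⋀^Fin p]→ₗ[ℂ] ℂ) (w : Fin p → E n) :
    (p.factorial : ℂ) * θ w = ∑ J : Fin p → Fin n, θ (evs J) * plk w J := by
  have h : ∀ σ : Equiv.Perm (Fin p), θ w = ∑ J : Fin p → Fin n,
      θ (evs J) * (((Equiv.Perm.sign σ : ℤ) : ℂ) * ∏ i, w i (J (σ i))) := by
    intro σ
    rw [alt_expand0, ← (Equiv.arrowCongr σ.symm (Equiv.refl (Fin n))).sum_comp]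
    refine Finset.sum_congr rfl fun J _ => ?_
    have h1 : θ (evs (Equiv.arrowCongr σ.symm (Equiv.refl (Fin n)) J)) =
        Equiv.Perm.sign σ • θ (evs J) := θ.map_perm (evs J) σ
    rw [h1, Units.smul_def, zsmul_eq_mul]
    simp only [Equiv.arrowCongr_apply, Equiv.symm_symm, Equiv.coe_refl, Function.comp_apply, id_eq]
    ring
  simp only [plk_apply, Matrix.det_apply', Matrix.of_apply, Finset.mul_sum]
  rw [Finset.sum_comm, ← Finset.sum_congr rfl fun σ _ => h σ, Finset.sum_const, Finset.card_univ,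
    Fintype.card_perm, Fintype.card_fin, nsmul_eq_mul]

theorem alt_le (θ : E n [⋀^Fin p]→ₗ[ℂ] ℂ) (w : Fin p → E n) : ‖θ w‖ ≤ an θ * ‖plk w‖ := by
  have h1 : ‖θ w‖ ≤ ‖(p.factorial : ℂ) * θ w‖ := by
    rw [norm_mul, Complex.norm_natCast]
    exact le_mul_of_one_le_left (norm_nonneg _) (by exact_mod_cast p.factorial_pos)
  refine h1.trans ?_
  rw [alt_expand, EuclideanSpace.norm_eq, an]
  refine (norm_sum_le _ _).trans ?_
  simp only [norm_mul]
  exact Real.sum_mul_le_sqrt_mul_sqrt _ _ _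

theorem PlkA_alt (φ : Fin p → E n →ₗ[ℂ] ℂ) :
    ∃ θ : E n [⋀^Fin p]→ₗ[ℂ] ℂ, ∀ w, θ w = (Matrix.of fun i j => φ i (w j)).det :=
  ⟨(Matrix.detRowAlternating : (Fin p → ℂ) [⋀^Fin p]→ₗ[ℂ] ℂ).compLinearMap (LinearMap.pi φ),
    fun w => (Matrix.det_transpose (Matrix.of fun i j => φ i (w j))).symm ▸ rfl⟩

/-- Each Plücker coordinate is an alternating form. -/
theorem exists_alt_plk (J : Fin p → Fin n) :
    ∃ θ : E n [⋀^Fin p]→ₗ[ℂ] ℂ, ∀ w, θ w = plk w J :=
  PlkA_alt fun i => (EuclideanSpace.proj (J i) : E n →L[ℂ] ℂ).toLinearMap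

/-- The determinant of the image in `E p` is an alternating form. -/
theorem exists_alt_det (ℓ : E n →L[ℂ] E p) :
    ∃ θ : E n [⋀^Fin p]→ₗ[ℂ] ℂ, ∀ w, θ w = (Matrix.of fun i j => ℓ (w j) i).det :=
  PlkA_alt fun i => ((EuclideanSpace.proj i : E p →L[ℂ] ℂ).comp ℓ).toLinearMap

theorem PlkA_inner (u w : Fin p → E n) : inner ℂ (plk u) (plk w) =
    (p.factorial : ℂ) * (Matrix.of fun i j => inner ℂ (u i) (w j)).det := by
  obtain ⟨θ, hθ⟩ := PlkA_alt fun i => innerₛₗ ℂ (u i)
  have h1 : ∀ w : Fin p → E n, θ w = (Matrix.of fun i j => inner ℂ (u i) (w j)).det := hθ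
  rw [← h1, alt_expand, PiLp.inner_apply]
  refine Finset.sum_congr rfl fun J _ => ?_
  rw [RCLike.inner_apply, mul_comm, h1, plk_apply u, RingHom.map_det, ← Matrix.det_transpose]
  congr 2
  ext i j
  simp [evs, ev, EuclideanSpace.inner_single_right]

/-- Cauchy-Binet: apply `alt_expand` to the alternating form `u ↦ det (inner (w j) (u i))`. -/
theorem norm_plk_sq (w : Fin p → E n) :
    ((‖plk w‖ ^ 2 : ℝ) : ℂ) = (p.factorial : ℂ) * (gram w).det := by
  rw [← Matrix.det_transpose]
  refine Eq.trans ?_ (PlkA_inner w w)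
  rw [inner_self_eq_norm_sq_to_K]
  simp

theorem plk_smul (c : ℂ) (w : Fin p → E n) : plk (fun j => c • w j) = c ^ p • plk w := by
  ext J
  rw [PiLp.smul_apply, plk_apply, plk_apply, smul_eq_mul]
  have h := Matrix.det_smul (Matrix.of fun i j => w j (J i)) c
  rw [Fintype.card_fin] at h
  rw [← h]
  rfl

theorem PlkA_un {z : E n} (hz : z ≠ 0) (v : E n) : inner ℂ z (prj (un z) v) = 0 := by
  have h : (‖z‖ : ℂ) ≠ 0 := by exact_mod_cast norm_ne_zero_iff.2 hz
  have h1 : un z = ((‖z‖ : ℂ)⁻¹) • z := by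
    rw [un, ← Complex.ofReal_inv, Complex.coe_smul]
  rw [prj_apply, h1, inner_sub_right, inner_smul_right, inner_smul_right, inner_smul_left,
    inner_self_eq_norm_sq_to_K]
  simp only [map_inv₀, Complex.conj_ofReal, Complex.coe_algebraMap]
  field_simp
  ring

/-- Column operations reduce the Gram matrix of `cons z w` to a block matrix. -/
theorem norm_plk_cons {z : E n} (hz : z ≠ 0) (w : Fin p → E n) :
    ‖plk (Fin.cons z w : Fin (p + 1) → E n)‖ ^ 2 =
      (p + 1) * ‖z‖ ^ 2 * ‖plk fun j => prj (un z) (w j)‖ ^ 2 := by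
  have h1 : plk (Fin.cons z w : Fin (p + 1) → E n) =
      plk (Fin.cons z fun j => prj (un z) (w j) : Fin (p + 1) → E n) := by
    ext J
    rw [plk_apply, plk_apply, ← Matrix.det_transpose, ← Matrix.det_transpose (Matrix.of fun i j =>
      (Fin.cons z fun j => prj (un z) (w j) : Fin (p + 1) → E n) j (J i))]
    refine Matrix.det_eq_of_forall_row_eq_smul_add_const
      (Fin.cons 0 fun j => inner ℂ (un z) (w j) * (‖z‖⁻¹ : ℝ)) 0 rfl fun i j => ?_
    refine Fin.cases ?_ (fun i => ?_) i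
    · simp
    · simp [prj_apply, un, mul_assoc]
  have h2 := norm_plk_sq (Fin.cons z fun j => prj (un z) (w j) : Fin (p + 1) → E n)
  have h3 := norm_plk_sq fun j => prj (un z) (w j)
  have h4 : (gram (Fin.cons z fun j => prj (un z) (w j) : Fin (p + 1) → E n)).det =
      (‖z‖ : ℂ) ^ 2 * (gram fun j => prj (un z) (w j)).det := by
    rw [Matrix.det_succ_column_zero, Fin.sum_univ_succ, Finset.sum_eq_zero, add_zero]
    · simp only [gram, Matrix.of_apply, Fin.cons_zero, inner_self_eq_norm_sq_to_K]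
      simp only [Fin.coe_ofNat_eq_mod, Nat.zero_mod, pow_zero, one_mul, Fin.succAbove_zero]
      rfl
    · intro i _
      simp only [gram, Matrix.of_apply, Fin.cons_zero, Fin.cons_succ, PlkA_un hz, mul_zero,
        zero_mul]
  rw [h1]
  apply Complex.ofReal_injective
  rw [h2, h4, Complex.ofReal_mul, h3, Nat.factorial_succ]
  push_cast
  ring

/-- An orthogonal projection does not increase the norm: the Gram matrix of `w` is that of the
projected frame plus a positive matrix of rank one; use `mdC_const` style monotonicity or choose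
an orthonormal basis containing `x` (`norm_plk_isometry`). -/
theorem norm_plk_prj_le {x : E n} (hx : ‖x‖ = 1) (w : Fin p → E n) :
    ‖plk fun j => prj x (w j)‖ ≤ ‖plk w‖ := by
  have h0 : ∀ v : E n, inner ℂ (prj x v) x = 0 := fun v => by
    rw [inner_eq_zero_symm, prj_apply, inner_sub_right, inner_smul_right,
      inner_self_eq_norm_sq_to_K, hx]
    simp
  have h1 : inner ℂ (plk fun j => prj x (w j)) (plk fun j => prj x (w j)) =
      inner ℂ (plk fun j => prj x (w j)) (plk w) := by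
    rw [PlkA_inner, PlkA_inner]
    congr 2
    ext i j
    rw [Matrix.of_apply, Matrix.of_apply, prj_apply x (w j), inner_sub_right, inner_smul_right, h0,
      mul_zero, sub_zero]
  have h2 := norm_inner_le_norm (𝕜 := ℂ) (plk fun j => prj x (w j)) (plk w)
  rw [← h1, inner_self_eq_norm_sq_to_K, norm_pow, RCLike.norm_ofReal, abs_norm, sq] at h2
  rcases (norm_nonneg (plk fun j => prj x (w j))).eq_or_lt with h | h
  · rw [← h]
    exact norm_nonneg _
  · exact le_of_mul_le_mul_left h2 h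

theorem norm_plk_isometry (U : E n ≃ₗᵢ[ℂ] E n) (w : Fin p → E n) :
    ‖plk fun j => U (w j)‖ = ‖plk w‖ := by
  rw [← sq_eq_sq₀ (norm_nonneg _) (norm_nonneg _)]
  apply Complex.ofReal_injective
  rw [norm_plk_sq, norm_plk_sq]
  simp only [gram, LinearIsometryEquiv.inner_map_map]

theorem norm_plk_orthonormal {w : Fin p → E n} (h : Orthonormal ℂ w) :
    ‖plk w‖ ^ 2 = p.factorial := by
  apply Complex.ofReal_injective
  have h1 : gram w = 1 := by
    ext i j
    rw [gram, Matrix.of_apply, orthonormal_iff_ite.1 h, Matrix.one_apply]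
    simp only [eq_comm]
  rw [norm_plk_sq, h1, Matrix.det_one, mul_one, Complex.ofReal_natCast]

theorem plk_ne_zero_iff (w : Fin p → E n) : plk w ≠ 0 ↔ LinearIndependent ℂ w := by
  rw [← Matrix.det_gram_ne_zero_iff_linearIndependent (𝕜 := ℂ), ← inner_self_ne_zero (𝕜 := ℂ),
    PlkA_inner, mul_ne_zero_iff_left (Nat.cast_ne_zero.2 p.factorial_ne_zero)]
  rfl

theorem contDiff_plk : ContDiff ℂ ∞ (plk : (Fin p → E n) → _) := by
  refine contDiff_euclidean.2 fun J => ?_
  simp only [plk_apply, Matrix.det_apply', Matrix.of_apply]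
  refine ContDiff.sum fun σ _ => contDiff_const.mul (contDiff_prod fun i _ => ?_)
  exact ((EuclideanSpace.proj (J (σ i)) : E n →L[ℂ] ℂ).comp
    (ContinuousLinearMap.proj i : (Fin p → E n) →L[ℂ] E n)).contDiff

end Pool.Agent.Lib.MP_a47f92_an
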