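import Pool.Agent.Lib.MP_a47f92_an.G.GW2
import Pool.Agent.Lib.MP_a47f92_an.G.PlkA
import Pool.Agent.Lib.MP_a47f92_an.MDisc2

set_option autoImplicit false
set_option linter.unusedSectionVars false

namespace Pool.Agent.Lib.MP_a47f92_an

open MeasureTheory Filter Topology Set Complex Metric Function
open scoped ContDiff ComplexConjugate ComplexOrder Matrix ENNReal NNReal

/-! More identities for mixed discriminants. -/

variable {n p : ℕ}

theorem mdC_const (H : Mat p) : mdC (fun _ => H) = (p.factorial : ℂ) * H.det := by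
  have h : ∀ π : Equiv.Perm (Fin p), ((Equiv.Perm.sign π : ℤ) : ℂ) *
      (Matrix.of fun i l => H i (π l)).det = H.det := fun π => by
    have h1 : ((Equiv.Perm.sign π : ℤ) : ℂ) * ((Equiv.Perm.sign π : ℤ) : ℂ) = 1 := by
      rw [← Int.cast_mul, ← Units.val_mul, Int.units_mul_self, Units.val_one, Int.cast_one]
    have h2 : (Matrix.of fun i l => H i (π l)).det = ((Equiv.Perm.sign π : ℤ) : ℂ) * H.det :=
      Matrix.det_permute' π H
    rw [h2, ← mul_assoc, h1, one_mul]
  rw [MDiscA_left]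
  simp only [h, Finset.sum_const, Finset.card_univ, Fintype.card_perm, Fintype.card_fin,
    nsmul_eq_mul]

theorem mdC_rs (H : Fin p → Mat n) (v : Fin p → E n) :
    mdC (fun l => rs (H l) v) =
      ∑ J : Fin p → Fin n, ∑ J' : Fin p → Fin n,
        plk v J * conj (plk v J') * ∏ l, H l (J l) (J' l) := by
  have h1 : ∀ J : Fin p → Fin n, plk v J = ∑ σ : Equiv.Perm (Fin p),
      ((Equiv.Perm.sign σ : ℤ) : ℂ) * ∏ l, v (σ l) (J l) := fun J => by
    rw [plk_apply, ← Matrix.det_transpose, Matrix.det_apply']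
    rfl
  have h2 : ∀ σ π : Equiv.Perm (Fin p), ∏ l, rs (H l) v (σ l) (π l) =
      ∑ J : Fin p → Fin n, ∑ J' : Fin p → Fin n,
        (∏ l, v (σ l) (J l)) * (∏ l, conj (v (π l) (J' l))) * ∏ l, H l (J l) (J' l) := by
    intro σ π
    simp only [rs, Matrix.of_apply]
    rw [Finset.prod_univ_sum, Fintype.piFinset_univ]
    refine Finset.sum_congr rfl fun J _ => ?_
    rw [Finset.prod_univ_sum, Fintype.piFinset_univ]
    simp only [Finset.prod_mul_distrib]
  unfold mdC
  simp only [h1, h2, map_sum, map_mul, map_prod, map_intCast, Finset.sum_mul, Finset.mul_sum]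
  rw [Finset.sum_comm]
  simp only [Finset.sum_comm (s := (Finset.univ : Finset (Equiv.Perm (Fin p))))
    (t := (Finset.univ : Finset (Fin p → Fin n)))]
  refine Finset.sum_congr rfl fun J _ => Finset.sum_congr rfl fun J' _ => ?_
  refine Finset.sum_congr rfl fun π _ => Finset.sum_congr rfl fun σ _ => ?_
  ring

theorem rs_evs (H : Mat n) (J : Fin p → Fin n) : rs H (evs J) = H.submatrix J J := by
  ext i j
  simp [rs, evs, ev]

theorem MD2_split (c : Fin p) {F : (Fin p → Fin n) → ℂ} (h : ∀ J, ∑ a, F (update J c a) = 0) :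
    ∑ J, F J = 0 := by
  rw [← (Equiv.funSplitAt c (Fin n)).symm.sum_comp, Fintype.sum_prod_type_right]
  refine Finset.sum_eq_zero fun r _ => ?_
  rcases isEmpty_or_nonempty (Fin n) with h0 | ⟨⟨a₀⟩⟩
  · exact Fintype.sum_empty _
  rw [← h ((Equiv.funSplitAt c (Fin n)).symm (a₀, r))]
  refine Finset.sum_congr rfl fun a _ => congrArg F (funext fun j => ?_)
  by_cases hj : j = c
  · subst hj
    simp
  · simp [hj]

/-- If the vector `x` is killed by all the other factors, the trace vanishes. In the term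
`(σ, π)` sum over the coordinate `J (σ l₀)`: it occurs in `x` and as a column index of the slot
`π⁻¹ (σ l₀)`. -/
theorem sum_mdC_radial (H : Fin p → Mat n) (l₀ : Fin p) (x y : Fin n → ℂ)
    (h : ∀ l, l ≠ l₀ → ∀ b, ∑ a, x a * H l b a = 0) (hxy : ∑ a, x a * y a = 0) :
    ∑ J : Fin p → Fin n, mdC (update (fun l => (H l).submatrix J J) l₀
      (Matrix.of fun i j => x (J i) * y (J j))) = 0 := by
  unfold mdC
  rw [Finset.sum_comm]
  refine Finset.sum_eq_zero fun σ _ => ?_
  rw [Finset.sum_comm]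
  refine Finset.sum_eq_zero fun π _ => ?_
  rw [← Finset.mul_sum]
  refine mul_eq_zero_of_right _ (MD2_split (σ l₀) fun J => ?_)
  simp only [MDiscA_prod, Matrix.of_apply, Matrix.submatrix_apply, update_self]
  have hσ : ∀ (a : Fin n) (l : Fin p), l ≠ l₀ → update J (σ l₀) a (σ l) = J (σ l) :=
    fun a l hl => update_of_ne (σ.injective.ne hl) _ _
  obtain ⟨l₁, hl₁⟩ := π.surjective (σ l₀)
  have hπ : ∀ (a : Fin n) (l : Fin p), l ≠ l₁ → update J (σ l₀) a (π l) = J (π l) :=
    fun a l hl => update_of_ne (hl₁ ▸ π.injective.ne hl) _ _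
  have hπ' : ∀ a : Fin n, update J (σ l₀) a (π l₁) = a := fun a => by rw [hl₁, update_self]
  by_cases e : l₁ = l₀
  · subst e
    have h1 : ∀ a : Fin n, ∏ l ∈ Finset.univ.erase l₁,
        H l (update J (σ l₁) a (σ l)) (update J (σ l₁) a (π l)) =
        ∏ l ∈ Finset.univ.erase l₁, H l (J (σ l)) (J (π l)) := fun a =>
      Finset.prod_congr rfl fun l hl => by
        rw [hσ a l (Finset.ne_of_mem_erase hl), hπ a l (Finset.ne_of_mem_erase hl)]
    simp only [h1, hπ']
    rw [← Finset.sum_mul, hxy, zero_mul]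
  · have h1 : ∀ a : Fin n, ∏ l ∈ Finset.univ.erase l₀,
        H l (update J (σ l₀) a (σ l)) (update J (σ l₀) a (π l)) =
        H l₁ (J (σ l₁)) a *
          ∏ l ∈ (Finset.univ.erase l₀).erase l₁, H l (J (σ l)) (J (π l)) := fun a => by
      rw [← Finset.mul_prod_erase _ _ (Finset.mem_erase.2 ⟨e, Finset.mem_univ l₁⟩), hσ a l₁ e, hπ']
      congr 1
      exact Finset.prod_congr rfl fun l hl => by
        rw [hσ a l (Finset.ne_of_mem_erase (Finset.mem_of_mem_erase hl)),
          hπ a l (Finset.ne_of_mem_erase hl)]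
    simp only [h1, hπ _ l₀ (Ne.symm e)]
    have h2 := congrArg (· * (y (J (π l₀)) *
      ∏ l ∈ (Finset.univ.erase l₀).erase l₁, H l (J (σ l)) (J (π l)))) (h l₁ e (J (σ l₁)))
    simp only [zero_mul, Finset.sum_mul] at h2
    rw [← h2]
    exact Finset.sum_congr rfl fun a _ => by ring

theorem contDiffAt_mdC {U : Type} [NormedAddCommGroup U] [NormedSpace ℝ U] {k : WithTop ℕ∞}
    {M : U → Fin p → Mat p} {y : U} (h : ∀ l i j, ContDiffAt ℝ k (fun y => M y l i j) y) :
    ContDiffAt ℝ k (fun y => mdC (M y)) y :=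
  ContDiffAt.sum fun _ _ => ContDiffAt.sum fun _ _ =>
    contDiffAt_const.mul (contDiffAt_prod fun l _ => h l _ _)

theorem continuousWithinAt_mdC {U : Type} [TopologicalSpace U] {M : U → Fin p → Mat p} {y : U}
    {s : Set U} (h : ∀ l i j, ContinuousWithinAt (fun y => M y l i j) s y) :
    ContinuousWithinAt (fun y => mdC (M y)) s y :=
  tendsto_finsetSum _ fun _ _ => tendsto_finsetSum _ fun _ _ =>
    tendsto_const_nhds.mul (tendsto_finsetProd _ fun l _ => h l _ _)

theorem measurable_mdC {U : Type} [MeasurableSpace U] {M : U → Fin p → Mat p}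
    (h : ∀ l i j, Measurable fun y => M y l i j) : Measurable fun y => mdC (M y) :=
  Finset.measurable_fun_sum _ fun _ _ => Finset.measurable_fun_sum _ fun _ _ =>
    measurable_const.mul (Finset.measurable_fun_prod _ fun l _ => h l _ _)

section

variable {V : Type} [NormedAddCommGroup V] [NormedSpace ℝ V] [NormedSpace ℂ V]
  [IsScalarTower ℝ ℂ V] {M : V → Fin p → Mat p} {z : V}

theorem gd_mdC (h : ∀ l i j, DifferentiableAt ℝ (fun y => M y l i j) z) (v : V) :
    gd v (fun y => mdC (M y)) z =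
      ∑ l, mdC (update (M z) l (Matrix.of fun i j => gd v (fun y => M y l i j) z)) := by
  have h1 : ∀ σ π : Equiv.Perm (Fin p), DifferentiableAt ℝ (fun y =>
      ((Equiv.Perm.sign σ : ℤ) : ℂ) * ((Equiv.Perm.sign π : ℤ) : ℂ) *
        ∏ l, M y l (σ l) (π l)) z := fun σ π =>
    (HasFDerivAt.finsetProd fun l _ => (h l _ _).hasFDerivAt).differentiableAt.const_mul _
  unfold mdC
  rw [gd_sum _ fun σ _ => DifferentiableAt.fun_sum fun π _ => h1 σ π, Finset.sum_comm]
  refine Finset.sum_congr rfl fun σ _ => ?_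
  rw [gd_sum _ fun π _ => h1 σ π, Finset.sum_comm]
  refine Finset.sum_congr rfl fun π _ => ?_
  rw [gd_const_mul, gd_prod _ fun l _ => h l _ _, Finset.mul_sum]
  simp only [MDiscA_prod, Matrix.of_apply]

theorem gb_mdC (h : ∀ l i j, DifferentiableAt ℝ (fun y => M y l i j) z) (v : V) :
    gb v (fun y => mdC (M y)) z =
      ∑ l, mdC (update (M z) l (Matrix.of fun i j => gb v (fun y => M y l i j) z)) := by
  have h1 : ∀ σ π : Equiv.Perm (Fin p), DifferentiableAt ℝ (fun y =>
      ((Equiv.Perm.sign σ : ℤ) : ℂ) * ((Equiv.Perm.sign π : ℤ) : ℂ) *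
        ∏ l, M y l (σ l) (π l)) z := fun σ π =>
    (HasFDerivAt.finsetProd fun l _ => (h l _ _).hasFDerivAt).differentiableAt.const_mul _
  unfold mdC
  rw [gb_sum _ fun σ _ => DifferentiableAt.fun_sum fun π _ => h1 σ π, Finset.sum_comm]
  refine Finset.sum_congr rfl fun σ _ => ?_
  rw [gb_sum _ fun π _ => h1 σ π, Finset.sum_comm]
  refine Finset.sum_congr rfl fun π _ => ?_
  rw [gb_const_mul, gb_prod _ fun l _ => h l _ _, Finset.mul_sum]
  simp only [MDiscA_prod, Matrix.of_apply]

end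

end Pool.Agent.Lib.MP_a47f92_an
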