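import Pool.Agent.Lib.MP_a47f92_an.G.GW2
import Pool.Agent.Lib.MP_a47f92_an.G.GL
import Pool.Agent.Lib.MP_a47f92_an.G.MD2
import Pool.Agent.Lib.MP_a47f92_an.Div

set_option autoImplicit false
set_option linter.unusedSectionVars false

namespace Pool.Agent.Lib.MP_a47f92_an

open MeasureTheory Filter Topology Set Complex Metric Function
open scoped ContDiff ComplexConjugate ComplexOrder Matrix ENNReal NNReal

/-! Stokes formula for constant frames on a general space. -/

variable {V : Type} [NormedAddCommGroup V] [NormedSpace ℝ V] [NormedSpace ℂ V]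
  [IsScalarTower ℝ ℂ V] {p : ℕ} {f : Fin p → V → ℂ} {u : Fin p → V} {l : Fin p}

theorem RefA_cof (H : Fin p → V → Mat p) (l i j : Fin p) :
    (fun w => cof (fun l' => H l' w) l i j) = fun w =>
      ∑ σ : Equiv.Perm (Fin p), ∑ π : Equiv.Perm (Fin p),
        (if σ l = i ∧ π l = j then
          ((Equiv.Perm.sign σ : ℤ) : ℂ) * ((Equiv.Perm.sign π : ℤ) : ℂ) else 0) *
        ∏ l' ∈ Finset.univ.erase l, H l' w (σ l') (π l') := by
  funext w
  rw [cof_eq]
  refine Finset.sum_congr rfl fun σ _ => Finset.sum_congr rfl fun π _ => ?_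
  split_ifs <;> simp

theorem RefA_tr (A : Fin p → Mat p) (l i j : Fin p) :
    cof A l i j = cof (fun l' => (A l')ᵀ) l j i := by
  rw [cof_eq, cof_eq, Finset.sum_comm]
  refine Finset.sum_congr rfl fun σ _ => Finset.sum_congr rfl fun π _ => ?_
  simp only [Matrix.transpose_apply, and_comm, mul_comm]

theorem RefA_gl {g : V → ℂ} {z : V} {m m' : WithTop ℕ∞} (hg : ContDiffAt ℝ m' g z)
    (hm : m + 1 + 1 ≤ m') (a b : Fin p) : ContDiffAt ℝ m (fun w => gl g w u a b) z :=
  contDiffAt_gd (contDiffAt_gb hg hm _) le_rfl _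

theorem RefA_div {z : V} {D : Fin p → (V → ℂ) → V → ℂ} {H : Fin p → V → Mat p}
    (hD : (∀ i, D i = gd (u i)) ∨ ∀ i, D i = gb (u i))
    (hH : ∀ l', l' ≠ l → ∀ a b, DifferentiableAt ℝ (fun w => H l' w a b) z)
    (hs : ∀ l', l' ≠ l → ∀ a b c, D a (fun w => H l' w b c) z = D b (fun w => H l' w a c) z)
    (j : Fin p) : ∑ i, D i (fun w => cof (fun l' => H l' w) l i j) z = 0 := by
  have d1 : ∀ i (g : Equiv.Perm (Fin p) → V → ℂ), (∀ σ, DifferentiableAt ℝ (g σ) z) →
      D i (fun w => ∑ σ, g σ w) z = ∑ σ, D i (g σ) z := fun i g hg => by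
    rcases hD with h | h <;> rw [h]
    exacts [gd_sum _ fun σ _ => hg σ, gb_sum _ fun σ _ => hg σ]
  have d2 : ∀ i (c : ℂ) (g : V → ℂ), D i (fun w => c * g w) z = c * D i g z := fun i c g => by
    rcases hD with h | h <;> rw [h]
    exacts [gd_const_mul _ _ _ _, gb_const_mul _ _ _ _]
  have d3 : ∀ i (s : Finset (Fin p)) (g : Fin p → V → ℂ), (∀ k ∈ s, DifferentiableAt ℝ (g k) z) →
      D i (fun w => ∏ k ∈ s, g k w) z = ∑ k ∈ s, D i (g k) z * ∏ m ∈ s.erase k, g m z :=
    fun i s g hg => by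
      rcases hD with h | h <;> rw [h]
      exacts [gd_prod s hg, gb_prod s hg]
  have hd : ∀ σ π : Equiv.Perm (Fin p), DifferentiableAt ℝ
      (fun w => ∏ l' ∈ Finset.univ.erase l, H l' w (σ l') (π l')) z := fun σ π =>
    (HasFDerivAt.finsetProd (g := fun l' w => H l' w (σ l') (π l')) fun l' hl' =>
      (hH l' (Finset.ne_of_mem_erase hl') _ _).hasFDerivAt).differentiableAt
  have h1 : ∀ i, D i (fun w => cof (fun l' => H l' w) l i j) z =
      ∑ σ : Equiv.Perm (Fin p), ∑ π : Equiv.Perm (Fin p),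
        (if σ l = i ∧ π l = j then
          ((Equiv.Perm.sign σ : ℤ) : ℂ) * ((Equiv.Perm.sign π : ℤ) : ℂ) else 0) *
        D i (fun w => ∏ l' ∈ Finset.univ.erase l, H l' w (σ l') (π l')) z := by
    intro i
    rw [RefA_cof, d1 _ _ fun σ => DifferentiableAt.fun_sum fun π _ => (hd σ π).const_mul _]
    refine Finset.sum_congr rfl fun σ _ => ?_
    rw [d1 _ _ fun π => (hd σ π).const_mul _]
    exact Finset.sum_congr rfl fun π _ => d2 _ _ _
  simp only [h1]
  rw [Finset.sum_comm]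
  have h2 : ∀ σ : Equiv.Perm (Fin p), ∑ i, ∑ π : Equiv.Perm (Fin p),
      (if σ l = i ∧ π l = j then
          ((Equiv.Perm.sign σ : ℤ) : ℂ) * ((Equiv.Perm.sign π : ℤ) : ℂ) else 0) *
        D i (fun w => ∏ l' ∈ Finset.univ.erase l, H l' w (σ l') (π l')) z =
      ∑ π : Equiv.Perm (Fin p), ∑ l' ∈ Finset.univ.erase l,
        (if π l = j then ((Equiv.Perm.sign π : ℤ) : ℂ) else 0) * (((Equiv.Perm.sign σ : ℤ) : ℂ) *
          (D (σ l) (fun w => H l' w (σ l') (π l')) z *
            ∏ k ∈ (Finset.univ.erase l).erase l', H k z (σ k) (π k))) := by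
    intro σ
    rw [Finset.sum_eq_single (σ l) (fun i _ hi => Finset.sum_eq_zero fun π _ => by
      rw [if_neg (fun h => hi h.1.symm), zero_mul]) (fun h => absurd (Finset.mem_univ _) h)]
    refine Finset.sum_congr rfl fun π _ => ?_
    rw [d3 _ _ _ fun l' hl' => hH l' (Finset.ne_of_mem_erase hl') _ _, Finset.mul_sum]
    refine Finset.sum_congr rfl fun l' _ => ?_
    by_cases h : π l = j
    · rw [if_pos ⟨rfl, h⟩, if_pos h]
      ring
    · rw [if_neg (fun h' => h h'.2), if_neg h, zero_mul, zero_mul]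
  simp only [h2]
  rw [Finset.sum_comm]
  refine Finset.sum_eq_zero fun π _ => ?_
  rw [Finset.sum_comm]
  refine Finset.sum_eq_zero fun l' hl' => ?_
  have hne := Finset.ne_of_mem_erase hl'
  rw [← Finset.mul_sum, Div_alt hne (fun a b => D a (fun w => H l' w b (π l')) z)
    (fun k c => H k z c (π k)) fun a b => hs l' hne a b _, mul_zero]

/-- Same proof as `cof_div_wd` in `Div.lean`. -/
theorem cof_div_gd {z : V} (hf : ∀ l', l' ≠ l → ContDiffAt ℝ 3 (f l') z) (j : Fin p) :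
    ∑ i, gd (u i) (fun w => cof (fun l' => gl (f l') w u) l i j) z = 0 :=
  RefA_div (D := fun i => gd (u i)) (H := fun l' w => gl (f l') w u) (Or.inl fun _ => rfl)
    (fun l' h a b => (RefA_gl (m := 1) (hf l' h) (by norm_num) a b).differentiableAt one_ne_zero)
    (fun l' h a b c => gd_gd_comm (contDiffAt_gb (hf l' h) (by norm_num) (u c)) (u a) (u b)) j

theorem cof_div_gb {z : V} (hf : ∀ l', l' ≠ l → ContDiffAt ℝ 3 (f l') z) (i : Fin p) :
    ∑ j, gb (u j) (fun w => cof (fun l' => gl (f l') w u) l i j) z = 0 := by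
  have e : ∀ j, (fun w => cof (fun l' => gl (f l') w u) l i j) =
      fun w => cof (fun l' => (gl (f l') w u)ᵀ) l j i := fun j => funext fun w => RefA_tr _ l i j
  simp only [e]
  refine RefA_div (u := u) (D := fun i => gb (u i)) (H := fun l' w => (gl (f l') w u)ᵀ)
    (Or.inr fun _ => rfl) (fun l' h a b =>
      (RefA_gl (u := u) (m := 1) (hf l' h) (by norm_num) b a).differentiableAt one_ne_zero)
    (fun l' h a b c => ?_) i
  have h4 : ∀ a b : V, gb a (gd (u c) (gb b (f l'))) z = gb a (gb b (gd (u c) (f l'))) z := by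
    intro a b
    refine (gb_congr ?_ a).self_of_nhds
    filter_upwards [((hf l' h).of_le (m := 2) (by norm_num)).eventually (by simp)] with w hw
    exact gd_gb_comm hw _ _
  exact (h4 _ _).trans ((gb_gb_comm (contDiffAt_gd (hf l' h) (by norm_num) _) _ _).trans
    (h4 _ _).symm)

variable [FiniteDimensional ℝ V] [MeasurableSpace V] [BorelSpace V] {μ : Measure V}
  [μ.IsAddHaarMeasure] {Ω : Set V} {γ : V → ℂ} {c : Fin p → V → ℂ}

theorem RefA_on (hΩ : IsOpen Ω) (hf : ∀ l', l' ≠ l → ContDiffOn ℝ ∞ (f l') Ω) (i j : Fin p) :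
    ContDiffOn ℝ ∞ (fun w => cof (fun l' => gl (f l') w u) l i j) Ω := by
  intro z hz
  rw [RefA_cof fun l' w => gl (f l') w u]
  exact (ContDiffAt.sum fun σ _ => ContDiffAt.sum fun π _ => contDiffAt_const.mul
    (contDiffAt_prod fun l' hl' => RefA_gl
      ((hf l' (Finset.ne_of_mem_erase hl')).contDiffAt (hΩ.mem_nhds hz)) le_rfl _
        _)).contDiffWithinAt

theorem RefA_three (hΩ : IsOpen Ω) (hf : ∀ l', l' ≠ l → ContDiffOn ℝ ∞ (f l') Ω) {z : V}
    (hz : z ∈ Ω) : ∀ l', l' ≠ l → ContDiffAt ℝ 3 (f l') z := fun l' h =>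
  ((hf l' h).contDiffAt (hΩ.mem_nhds hz)).of_le (WithTop.coe_le_coe.2 le_top)

theorem RefA_stokes {D : Fin p → (V → ℂ) → V → ℂ} {C : Fin p → Fin p → V → ℂ}
    (hD : (∀ i, D i = gd (u i)) ∨ ∀ i, D i = gb (u i)) (hΩ : IsOpen Ω)
    (hC : ∀ i j, ContDiffOn ℝ ∞ (C i j) Ω) (hc : ∀ j, ContDiffOn ℝ ∞ (c j) Ω)
    (hγ : ContDiff ℝ ∞ γ) (hs : HasCompactSupport γ) (hs' : tsupport γ ⊆ Ω)
    (h0 : ∀ z ∈ Ω, ∀ j, ∑ i, D i (C i j) z = 0) :
    ∫ z, γ z * ∑ i, ∑ j, D i (c j) z * C i j z ∂μ =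
      -∫ z, ∑ i, ∑ j, D i γ z * c j z * C i j z ∂μ := by
  have hm : ∀ i j, ContDiffOn ℝ ∞ (fun w => c j w * C i j w) Ω := fun i j => (hc j).mul (hC i j)
  have d1 : ∀ i j, ∀ z ∈ Ω, D i (fun w => c j w * C i j w) z =
      D i (c j) z * C i j z + c j z * D i (C i j) z := fun i j z hz => by
    have h1 := ((hc j).contDiffAt (hΩ.mem_nhds hz)).differentiableAt (by simp)
    have h2 := ((hC i j).contDiffAt (hΩ.mem_nhds hz)).differentiableAt (by simp)
    rcases hD with h | h <;> rw [h]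
    exacts [gd_mul h1 h2, gb_mul h1 h2]
  have d2 : ∀ i j, ∫ z, D i γ z * (c j z * C i j z) ∂μ =
      -∫ z, γ z * D i (fun w => c j w * C i j w) z ∂μ := fun i j => by
    rcases hD with h | h <;> rw [h]
    exacts [integral_gd_mul μ hΩ (hm i j) hγ hs hs' _, integral_gb_mul μ hΩ (hm i j) hγ hs hs' _]
  have d3 : ∀ i j, Integrable (fun z => γ z * D i (fun w => c j w * C i j w) z) μ := fun i j => by
    refine integrable_mul_of_tsupport μ hΩ ?_ hγ.continuous hs hs'
    rcases hD with h | h <;> rw [h]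
    exacts [(GW2_gd_on hΩ (hm i j) _).continuousOn, (GW2_gb_on hΩ (hm i j) _).continuousOn]
  have d4 : ∀ i j, Integrable (fun z => D i γ z * (c j z * C i j z)) μ := fun i j => by
    have h1 : tsupport (D i γ) ⊆ tsupport γ ∧ Continuous (D i γ) := by
      rcases hD with h | h <;> rw [h]
      exacts [⟨GW2_gd_supp γ _, (contDiff_gd hγ _).continuous⟩,
        ⟨GW2_gb_supp γ _, (contDiff_gb hγ _).continuous⟩]
    exact integrable_mul_of_tsupport μ hΩ (hm i j).continuousOn h1.2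
      (hs.of_isClosed_subset (isClosed_tsupport _) h1.1) (h1.1.trans hs')
  have e1 : ∀ z, γ z * ∑ i, ∑ j, D i (c j) z * C i j z =
      ∑ i, ∑ j, γ z * D i (fun w => c j w * C i j w) z := fun z => by
    by_cases hz : z ∈ Ω
    · simp only [d1 _ _ z hz, ← Finset.mul_sum, Finset.sum_add_distrib]
      rw [Finset.sum_comm (f := fun i j => c j z * D i (C i j) z)]
      simp only [← Finset.mul_sum, h0 z hz, mul_zero, Finset.sum_const_zero, add_zero]
    · simp only [image_eq_zero_of_notMem_tsupport fun h => hz (hs' h), zero_mul,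
        Finset.sum_const_zero]
  simp only [e1, mul_assoc]
  rw [integral_finsetSum _ fun i _ => integrable_finsetSum _ fun j _ => d3 i j,
    integral_finsetSum _ fun i _ => integrable_finsetSum _ fun j _ => d4 i j,
    ← Finset.sum_neg_distrib]
  refine Finset.sum_congr rfl fun i _ => ?_
  rw [integral_finsetSum _ fun j _ => d3 i j, integral_finsetSum _ fun j _ => d4 i j,
    ← Finset.sum_neg_distrib]
  exact Finset.sum_congr rfl fun j _ => by rw [d2, neg_neg]

theorem stokes_gd (hΩ : IsOpen Ω) (hf : ∀ l', l' ≠ l → ContDiffOn ℝ ∞ (f l') Ω)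
    (hc : ∀ j, ContDiffOn ℝ ∞ (c j) Ω) (hγ : ContDiff ℝ ∞ γ) (hs : HasCompactSupport γ)
    (hs' : tsupport γ ⊆ Ω) :
    ∫ z, γ z * mdC (update (fun l' => gl (f l') z u) l (Matrix.of fun i j => gd (u i) (c j) z)) ∂μ =
      -∫ z, mdC (update (fun l' => gl (f l') z u) l
        (Matrix.of fun i j => gd (u i) γ z * c j z)) ∂μ := by
  simp only [mdC_update_eq, Matrix.of_apply]
  exact RefA_stokes (D := fun i => gd (u i))
    (C := fun i j w => cof (fun l' => gl (f l') w u) l i j) (Or.inl fun _ => rfl) hΩ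
    (RefA_on hΩ hf) hc hγ hs hs' fun z hz => cof_div_gd (RefA_three hΩ hf hz)

theorem stokes_gb (hΩ : IsOpen Ω) (hf : ∀ l', l' ≠ l → ContDiffOn ℝ ∞ (f l') Ω)
    (hc : ∀ j, ContDiffOn ℝ ∞ (c j) Ω) (hγ : ContDiff ℝ ∞ γ) (hs : HasCompactSupport γ)
    (hs' : tsupport γ ⊆ Ω) :
    ∫ z, γ z * mdC (update (fun l' => gl (f l') z u) l (Matrix.of fun i j => gb (u j) (c i) z)) ∂μ =
      -∫ z, mdC (update (fun l' => gl (f l') z u) l
        (Matrix.of fun i j => c i z * gb (u j) γ z)) ∂μ := by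
  have h := RefA_stokes (μ := μ) (D := fun i => gb (u i))
    (C := fun j i w => cof (fun l' => gl (f l') w u) l i j) (Or.inr fun _ => rfl) hΩ
    (fun j i => RefA_on hΩ hf i j) hc hγ hs hs' fun z hz => cof_div_gb (RefA_three hΩ hf hz)
  simp only [mdC_update_eq, Matrix.of_apply]
  refine Eq.trans ?_ (h.trans ?_)
  · exact integral_congr_ae (Eventually.of_forall fun z => congrArg _ Finset.sum_comm)
  · refine congrArg _ (integral_congr_ae (Eventually.of_forall fun z => Finset.sum_comm.trans ?_))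
    simp only [mul_comm (c _ z)]

end Pool.Agent.Lib.MP_a47f92_an
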