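import Pool.Agent.Lib.MP_a47f92_an.G.Cur3
import Pool.Agent.Lib.MP_a47f92_an.G.RefA
import Pool.Agent.Lib.MP_a47f92_an.Lift

set_option autoImplicit false
set_option linter.unusedSectionVars false

namespace Pool.Agent.Lib.MP_a47f92_an

open MeasureTheory Filter Topology Set Complex Metric Function
open scoped ContDiff ComplexConjugate ComplexOrder Matrix ENNReal NNReal

/-! The reference current. -/

variable {n p d : ℕ} {F : E n → E n} {W : Set (E n)}

theorem Ref_bw_zero : bw (0 : E n) = 0 :=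
  (bw_nonneg 0).antisymm' (not_lt.1 fun h => by
    have := ((bw_pos_iff 0).1 h).1
    rw [norm_zero] at this
    linarith)

theorem Ref_meas : Measurable fun w : E n => ENNReal.ofReal (bw w) :=
  contDiff_bw.continuous.measurable.ennreal_ofReal

theorem Ref_mk (J : Fin p → Fin n) : Measurable fun w : E n => ((w, evs J) : Fr n p) :=
  measurable_prodMk_right

theorem Ref_lp {g : Fr n p → ℝ} (hg : PT g) :
    lp (ref n p) g = ∫⁻ w, ENNReal.ofReal (bw w * hat g w) := by
  have h1 := hg.meas.ennreal_ofReal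
  have h2 : ∀ J ∈ (Finset.univ : Finset (Fin p → Fin n)),
      Measurable fun w : E n => ENNReal.ofReal (g (w, evs J)) := fun J _ => h1.comp (Ref_mk J)
  rw [lp, ref, lintegral_finsetSum_measure]
  simp only [lintegral_map h1 (Ref_mk _)]
  rw [← lintegral_finsetSum _ h2,
    lintegral_withDensity_eq_lintegral_mul _ Ref_meas (Finset.measurable_sum _ h2)]
  refine lintegral_congr fun w => ?_
  rw [ENNReal.ofReal_mul (bw_nonneg w), hat, ENNReal.ofReal_sum_of_nonneg fun J _ => hg.nonneg _]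
  rfl

theorem Ref_pt : PT (dens : Fr n p → ℝ) := pt_dn pps_lg

theorem Ref_hat_le (w : E n) (hw : 1 ≤ ‖w‖) :
    hat (dens : Fr n p → ℝ) w ≤ Fintype.card (Fin p → Fin n) * p.factorial := by
  have h0 : w ≠ 0 := norm_pos_iff.1 (one_pos.trans_le hw)
  rw [← nsmul_eq_mul]
  refine Finset.sum_le_card_nsmul _ _ _ fun J _ => ?_
  rw [dens_eq h0]
  refine (div_le_self (sq_nonneg _) (one_le_pow₀ (by nlinarith))).trans
    ((norm_plk_le _).trans (mul_le_of_le_one_right (Nat.cast_nonneg _) ?_))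
  refine Finset.prod_le_one (fun _ _ => sq_nonneg _) fun j _ =>
    pow_le_one₀ (norm_nonneg _) ((norm_prj_un_le _ _).trans ?_)
  simp [evs, ev]

theorem lp_ref {g : Fr n p → ℝ} (hg : PT g) : lp (ref n p) g = rf univ g := by
  rw [Ref_lp hg, rf, Measure.restrict_univ]

theorem isCur_ref (n p : ℕ) : IsCur (ref n p) := by
  refine isCur_of ?_ ?_ ?_
  · rw [ref, ← Measure.sum_fintype]
    infer_instance
  · rw [ref, ae_finsetSum_measure_iff]
    intro J _
    refine (ae_map_iff (Ref_mk J).aemeasurable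
      (measurable_fst (measurableSet_singleton (0 : E n)).compl)).2
      ((ae_withDensity_iff Ref_meas).2 (Eventually.of_forall fun w hw (h0 : w = 0) => hw ?_))
    rw [h0, Ref_bw_zero, ENNReal.ofReal_zero]
  · have h1 : Integrable fun w : E n => bw w * (Fintype.card (Fin p → Fin n) * p.factorial) :=
      (contDiff_bw.continuous.integrable_of_hasCompactSupport isTest_bw.2.1).mul_const _
    rw [Ref_lp Ref_pt]
    refine ne_top_of_le_ne_top h1.lintegral_lt_top.ne (lintegral_mono fun w =>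
      ENNReal.ofReal_le_ofReal ?_)
    rcases (bw_nonneg w).eq_or_lt with h | h
    · rw [← h, zero_mul, zero_mul]
    · exact mul_le_mul_of_nonneg_left (Ref_hat_le w ((bw_pos_iff w).1 h).1.le) h.le

theorem integral_ref {g : Fr n p → ℂ} (hg : Tst g) :
    ∫ x, g x ∂ref n p = ∫ w, (bw w : ℂ) * ∑ J : Fin p → Fin n, g (w, evs J) := by
  have h1 := (isCur_ref n p).integrable hg
  rw [ref, integrable_finsetSum_measure] at h1
  rw [ref, integral_finsetSum_measure h1, Finset.sum_congr rfl fun J hJ =>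
    integral_map (Ref_mk J).aemeasurable (h1 J hJ).1,
    ← integral_finsetSum (f := fun J w => g (w, evs J)) _ fun J hJ =>
      (integrable_map_measure (h1 J hJ).1 (Ref_mk J).aemeasurable).1 (h1 J hJ),
    integral_withDensity_eq_integral_toReal_smul Ref_meas
      (Eventually.of_forall fun _ => ENNReal.ofReal_lt_top)]
  simp only [ENNReal.toReal_ofReal (bw_nonneg _), real_smul]

theorem Ref_gd {w : E n} (hw : w ≠ 0) : ∃ κ : ℂ, ∀ a, gd (ev a) (rc bw) w = κ * conj (w a) := by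
  have hd : Differentiable ℝ fun t : ℝ =>
      expNegInvGlue (Real.exp (2 * t) - 1) * expNegInvGlue (4 - Real.exp (2 * t)) := by
    have h1 : Differentiable ℝ expNegInvGlue :=
      (expNegInvGlue.contDiff (n := 1)).differentiable one_ne_zero
    fun_prop
  have he : rc (bw : E n → ℝ) =ᶠ[𝓝 w] rc fun z =>
      expNegInvGlue (Real.exp (2 * lg z) - 1) * expNegInvGlue (4 - Real.exp (2 * lg z)) := by
    filter_upwards [LHb_nh hw] with z hz
    have h1 : Real.exp (2 * lg z) = ‖z‖ ^ 2 := by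
      rw [two_mul, Real.exp_add, lg, Real.exp_log (norm_pos_iff.2 hz), sq]
    simp only [rc, h1, bw]
  obtain ⟨c, hc⟩ : ∃ c, HasDerivAt _ c (lg w) := ⟨_, (hd _).hasDerivAt⟩
  refine ⟨c * (((2 * ‖w‖ ^ 2)⁻¹ : ℝ) : ℂ), fun a => ?_⟩
  rw [(gd_congr he _).eq_of_nhds, gd_rcomp ((lh_lg.contDiffAt2 hw).differentiableAt two_ne_zero) hc,
    NF_gd hw, ev, EuclideanSpace.inner_single_right, one_mul, mul_comm (conj _), ← mul_assoc]

theorem Ref_gb (f : E n → ℂ) (w : E n) : gb w f = fun z => ∑ a, conj (w a) * gb (ev a) f z := by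
  have h : w = ∑ a, w a • ev a := by
    simpa [ev] using ((EuclideanSpace.basisFun (Fin n) ℂ).sum_repr w).symm
  funext z
  conv_lhs => rw [h]
  simp only [gb_vsum, gb_vsmul]

theorem Ref_supp : tsupport (rc (bw : E n → ℝ)) ⊆ tsupport (bw : E n → ℝ) :=
  tsupport_comp_subset (g := ofReal) ofReal_zero _

/-- For each coordinate frame apply `stokes_gd` with `γ = bw`, `c j = a * gb (ev (J j)) b`.
The derivative `gd v bw w` is a multiple of `inner ℂ w v` (`gd_rcomp`), and the sum over `J`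
vanishes by `sum_mdC_radial` (`LH.radial`, `IC.radial`). -/
theorem closed_ref (n p : ℕ) : Closed (ref n p) := by
  refine closed_iff.2 fun a b ha hb q hq l => ?_
  have ho : IsOpen ({0}ᶜ : Set (E n)) := isOpen_compl_singleton
  have hγ : ContDiff ℝ ∞ (rc (bw : E n → ℝ)) := ofRealCLM.contDiff.comp contDiff_bw
  have hs : HasCompactSupport (rc (bw : E n → ℝ)) := isTest_bw.2.1.comp_left ofReal_zero
  have hs' : tsupport (rc (bw : E n → ℝ)) ⊆ {0}ᶜ :=
    Ref_supp.trans (subset_compl_singleton_iff.2 isTest_bw.2.2)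
  have hf : ∀ l', ContDiffOn ℝ ∞ (rc (q l')) {0}ᶜ := fun l' => contDiffOn_rc (hq l').choose_spec.1
  have hc : ∀ v, ContDiffOn ℝ ∞ (fun z => rc a z * gb v (rc b) z) {0}ᶜ := fun v =>
    ha.ic.1.mul (GW2_gb_on ho hb.ic.1 v)
  have ht := tst_dx ha.ic hb.ic hq l
  obtain ⟨Y, hY⟩ : ∃ Y : (Fin p → Fin n) → E n → ℂ, Y = fun J z =>
      mdC (update (fun l' => gl (rc (q l')) z (evs J)) l (Matrix.of fun i j =>
        gd (evs J i) (rc bw) z * (rc a z * gb (evs J j) (rc b) z))) := ⟨_, rfl⟩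
  have h0 : ∀ J, ∀ z ∉ tsupport (rc (bw : E n → ℝ)), Y J z = 0 := fun J z hz => by
    rw [hY]
    refine mdC_eq_zero (l := l) ?_
    ext i j
    simp [gd_of_notMem_tsupport hz]
  have h1 : ∀ J, Integrable (Y J) := fun J => by
    refine (integrableOn_iff_integrable_of_support_subset (s := tsupport (rc bw))
      fun z hz => not_not.1 fun h => hz (h0 J z h)).1
      (ContinuousOn.integrableOn_compact hs (ContinuousOn.mono ?_ hs'))
    rw [hY]
    refine fun z hz => continuousWithinAt_mdC fun l' i j => ?_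
    by_cases hl : l' = l
    · simp only [hl, update_self]
      exact ((contDiff_gd hγ _).continuous.continuousOn.mul (hc _).continuousOn) z hz
    · simp only [update_of_ne hl]
      exact (GW2_gd_on ho (GW2_gb_on ho (hf l') _) _).continuousOn z hz
  have h2 : ∀ J, ∫ z, rc bw z * dx (rc a) (rc b) q l (z, evs J) = -∫ z, Y J z := fun J => by
    rw [hY, ← stokes_gd ho (fun l' _ => hf l') (fun j => hc (evs J j)) hγ hs hs']
    refine integral_congr_ae (Eventually.of_forall fun z => ?_)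
    by_cases hz : z = 0
    · simp [hz, Ref_bw_zero]
    refine congrArg (fun M => rc bw z * mdC (update _ l M)) (Matrix.ext fun i j => ?_)
    exact (add_comm _ _).trans ((add_comm _ _).trans
      (gd_mul (GL_d (LHb_rc ha hz)) (GL_db (LHb_rc hb hz) _)).symm)
  have h3 : ∀ z, ∑ J, Y J z = 0 := fun z => by
    by_cases hz : z = 0
    · exact Finset.sum_eq_zero fun J _ => h0 J z fun h => hs' h hz
    obtain ⟨κ, hκ⟩ := Ref_gd hz
    rw [hY]
    refine sum_mdC_radial (fun l' => hess (q l') z) l (fun i => gd (ev i) (rc bw) z)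
      (fun i => rc a z * gb (ev i) (rc b) z) (fun l' _ i => ?_) ?_
    · obtain ⟨D, hD⟩ := hq l'
      have h4 := (hD.radial hz (ev i)).2
      rw [Ref_gb, gd_sum _ fun j _ => (GL_db (LHb_rc hD hz) _).const_mul _] at h4
      simp only [gd_const_mul] at h4
      simp only [hκ, mul_assoc, ← Finset.mul_sum]
      exact mul_eq_zero_of_right κ h4
    · have h4 := (hb.ic.radial hz).2
      rw [Ref_gb] at h4
      simp only [hκ, mul_assoc, mul_left_comm _ (rc a z), ← Finset.mul_sum]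
      exact mul_eq_zero_of_right _ (mul_eq_zero_of_right _ h4)
  rw [integral_ref ht]
  simp only [Finset.mul_sum]
  rw [integral_finsetSum (f := fun J w => rc bw w * dx (rc a) (rc b) q l (w, evs J)) _ fun J _ =>
    integrable_mul_of_tsupport _ ho (ht.cont.comp
      (continuous_id.prodMk continuous_const).continuousOn fun z hz => hz) hγ.continuous hs hs',
    Finset.sum_congr rfl fun J _ => h2 J, Finset.sum_neg_distrib,
    ← integral_finsetSum _ fun J _ => h1 J]
  simp [h3]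

theorem Ref_frame (hp : p < n) {z : E n} (hz : z ≠ 0) : ∃ u : Fin p → E n, 0 < dens (z, u) := by
  have h1 := (Submodule.span ℂ {z}).finrank_add_finrank_orthogonal
  rw [finrank_span_singleton hz, finrank_euclideanSpace_fin] at h1
  obtain ⟨u, hu⟩ := exists_linearIndependent_of_le_finrank (R := ℂ)
    (M := (Submodule.span ℂ {z})ᗮ) (n := p) (by omega)
  refine ⟨fun j => u j, ?_⟩
  have h2 : (fun j => prj (un z) (u j)) = fun j => (u j : E n) := funext fun j => by
    rw [Plk_prj, Submodule.mem_orthogonal_singleton_iff_inner_right.1 (u j).2, zero_div, zero_smul,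
      sub_zero]
  rw [dens_eq hz, h2]
  have h3 := norm_pos_iff.2 ((plk_ne_zero_iff _).2 (hu.map' _ (Submodule.ker_subtype _)))
  have h4 := norm_pos_iff.2 hz
  exact div_pos (pow_pos h3 2) (by positivity)

theorem Ref_hat_pos {g : Fr n p → ℝ} (hg : PT g) {z : E n} {v : Fin p → E n} (h : 0 < g (z, v)) :
    0 < hat g z :=
  (hg.hat_nonneg z).lt_of_ne fun h0 => by
    have := PTs_le hg z v
    rw [← h0, mul_zero] at this
    linarith

theorem Ref_rf_pos {g : Fr n p → ℝ} (hg : PT g) {O R : Set (E n)} (ho : IsOpen O) (hc : IsCone O)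
    (hne : ∃ z ∈ O, z ≠ 0) (hR : IsOpen R) (hd : Dense R) (h : ∀ w ∈ R, w ≠ 0 → 0 < hat g w) :
    0 < rf O g := by
  obtain ⟨z, hz, h0⟩ := hne
  have h1 : IsOpen (O ∩ {w : E n | 0 < bw w}) :=
    ho.inter (isOpen_lt continuous_const contDiff_bw.continuous)
  have h2 : (O ∩ {w : E n | 0 < bw w}).Nonempty := by
    have h3 := norm_pos_iff.2 h0
    have h4 : ‖((3 / 2 / ‖z‖ : ℝ) : ℂ) • z‖ = 3 / 2 := by
      rw [norm_smul, Complex.norm_real, Real.norm_of_nonneg (by positivity),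
        div_mul_cancel₀ _ h3.ne']
    exact ⟨_, hc ((3 / 2 / ‖z‖ : ℝ) : ℂ) (ofReal_ne_zero.2 (by positivity)) z hz,
      (bw_pos_iff _).2 (by rw [h4]; norm_num)⟩
  refine (setLIntegral_pos_iff
    (contDiff_bw.continuous.measurable.mul hg.measurable_hat).ennreal_ofReal).2
    (((h1.inter hR).measure_pos _ (hd.inter_open_nonempty _ h1 h2)).trans_le
    (measure_mono fun w hw => ⟨(ENNReal.ofReal_pos.2 (mul_pos hw.1.2 (h w hw.2 ?_))).ne', hw.1.1⟩))
  rintro rfl
  exact Ref_bw_zero.not_gt hw.1.2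

theorem Ref_li {x : Fr n p} (h : dens x ≠ 0) :
    LinearIndependent ℂ (Fin.cons x.1 x.2 : Fin (p + 1) → E n) := by
  have h0 : x.1 ≠ 0 := fun h1 => h (Ref_pt.zero x h1)
  refine (plk_ne_zero_iff _).1 fun h1 => h ?_
  have h2 := norm_plk_cons h0 x.2
  have h3 := norm_pos_iff.2 h0
  rw [h1, norm_zero, zero_pow two_ne_zero] at h2
  rw [dens_eq h0, (mul_eq_zero.1 h2.symm).resolve_left (by positivity), zero_div]

theorem Ref_ex {X : Type} [MeasurableSpace X] {μ : Measure X} {f : X → ℝ} (h : 0 < ∫ x, f x ∂μ) :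
    ∃ x, f x ≠ 0 := by
  by_contra h1
  simp [show f = fun _ => 0 from funext fun x => not_not.1 (not_exists.1 h1 x)] at h

/-- `hat dens w > 0` for `w ≠ 0`: some `p` coordinate vectors are independent modulo `w`
(`dens_eq`, `plk_ne_zero_iff`; or `wn_svd`, `hat_dens_fw` with `F = id`). -/
theorem hat_dens_pos (hp : p < n) {w : E n} (hw : w ≠ 0) : 0 < hat (dens : Fr n p → ℝ) w :=
  (Ref_frame hp hw).elim fun _ h => Ref_hat_pos Ref_pt h

theorem hat_dens_le (n p : ℕ) : ∃ C : ℝ, 0 ≤ C ∧ ∀ w : E n, 1 ≤ ‖w‖ → hat (dens : Fr n p → ℝ) w ≤ C :=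
  ⟨_, by positivity, Ref_hat_le⟩

theorem mass_ref_pos (hp : p < n) : 0 < mass (ref n p) := by
  rw [← ENNReal.ofReal_pos, ← (isCur_ref n p).lp_dens, lp_ref Ref_pt]
  exact Ref_rf_pos Ref_pt isOpen_univ (fun _ _ _ _ => trivial)
    ⟨ev ⟨0, by omega⟩, trivial, by simp [ev]⟩ isOpen_univ dense_univ fun _ _ => hat_dens_pos hp

theorem rf_le_ref {g : Fr n p → ℝ} (hg : PT g) (W : Set (E n)) : rf W g ≤ lp (ref n p) g :=
  (rf_mono (subset_univ W)).trans_eq (lp_ref hg).symm

theorem rf_dn_le {q : Fin p → E n → ℝ} {D : Fin p → ℝ} (hq : ∀ l, PL (D l) (q l)) (W : Set (E n)) :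
    rf W (dn q) ≤ ENNReal.ofReal ((∏ l, D l) * mass (ref n p)) := by
  have h : PPs q := fun l => ⟨_, hq l⟩
  rw [← (closed_ref n p).p1_deg (isCur_ref n p) fun l => (hq l).lh, ← (isCur_ref n p).lp_dn h]
  exact rf_le_ref (pt_dn h) W

theorem lp_mlt_ref {g : Fr n p → ℝ} (hg : PT g) {χ : E n → ℝ} (hm : Measurable χ) (hi : Inv0 χ)
    (h0 : ∀ z, 0 ≤ χ z) : lp (mlt (ref n p) χ) g =
      ∫⁻ w, ENNReal.ofReal (bw w * (χ w * hat g w)) := by
  rw [lp_mlt _ hm h0 hg.meas, Ref_lp (hg.mul_left hm hi h0)]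
  simp only [hat, Finset.mul_sum]

theorem Ref_pr {q : Fin p → E n → ℝ} (hq : PPs q) {χ : E n → ℝ} (hχ : LH 0 χ) (h0 : ∀ z, 0 ≤ χ z) :
    ENNReal.ofReal (pr (ref n p) χ q) = ∫⁻ w, ENNReal.ofReal (bw w * (χ w * hat (dn q) w)) := by
  rw [← (isCur_ref n p).lp_mul_dn hχ.bm (fun z _ => h0 z) hq,
    ← lp_mlt _ hχ.measurable h0 (pt_dn hq).meas, lp_mlt_ref (pt_dn hq) hχ.measurable hχ.inv0 h0]

theorem rf_le_pr {q : Fin p → E n → ℝ} (hq : PPs q) {χ : E n → ℝ} (hχ : LH 0 χ) (h0 : ∀ z, 0 ≤ χ z)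
    (hW : MeasurableSet W) (h1 : ∀ z ∈ W, z ≠ 0 → 1 ≤ χ z) :
    rf W (dn q) ≤ ENNReal.ofReal (pr (ref n p) χ q) := by
  rw [Ref_pr hq hχ h0]
  refine (setLIntegral_mono' hW fun w hw => ENNReal.ofReal_le_ofReal ?_).trans
    (setLIntegral_le_lintegral W _)
  by_cases h : w = 0
  · rw [h, Ref_bw_zero, zero_mul, zero_mul]
  · exact mul_le_mul_of_nonneg_left
      (le_mul_of_one_le_left ((pt_dn hq).hat_nonneg w) (h1 w hw h)) (bw_nonneg w)

theorem pr_le_rf {q : Fin p → E n → ℝ} (hq : PPs q) {χ : E n → ℝ} (hχ : LH 0 χ)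
    (h0 : ∀ z, 0 ≤ χ z ∧ χ z ≤ 1) (hW : MeasurableSet W) (h1 : ∀ z, z ≠ 0 → χ z ≠ 0 → z ∈ W) :
    ENNReal.ofReal (pr (ref n p) χ q) ≤ rf W (dn q) := by
  rw [Ref_pr hq hχ fun z => (h0 z).1, rf, ← lintegral_indicator hW]
  refine lintegral_mono fun w => ?_
  by_cases hw : w ∈ W
  · rw [indicator_of_mem hw]
    exact ENNReal.ofReal_le_ofReal (mul_le_mul_of_nonneg_left
      (mul_le_of_le_one_left ((pt_dn hq).hat_nonneg w) (h0 w).2) (bw_nonneg w))
  · by_cases h : w = 0
    · simp [h, Ref_bw_zero]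
    · simp [not_not.1 fun h2 => hw (h1 w h h2)]

/-- The push-forward of `ref n (n - 1)` has mass `d ^ (n - 1) * mass > 0`, so `dens (fw F x) ≠ 0`
for some `x`: the vectors `F z, DF v_1, …, DF v_(n-1)` are independent and lie in the range of
`fderiv ℂ F z` by `IsLift.euler`. For `n = 0` the determinant is one. -/
theorem IsLift.reg_nonempty (hF : IsLift d F) (hd : 1 ≤ d) : (Reg F).Nonempty := by
  cases n with
  | zero => exact ⟨0, (LinearMap.det_eq_one_of_subsingleton _).trans_ne one_ne_zero⟩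
  | succ p =>
    have h1 := (closed_ref (p + 1) p).p1_deg (isCur_ref _ _) fun _ => lh_lg.comp hF
    have h2 : (0 : ℝ) < d := by exact_mod_cast hd
    have h3 := mass_ref_pos p.lt_succ_self
    rw [(isCur_ref _ _).p1_eq] at h1
    obtain ⟨x, hx⟩ := Ref_ex (h1.symm ▸ mul_pos (Finset.prod_pos fun _ _ => by positivity) h3)
    rw [dn_fw pots_lg hF hd] at hx
    have h4 := (Ref_li hx).span_eq_top_of_card_eq_finrank' (by simp)
    refine ⟨x.1, ((LinearMap.isUnit_iff_isUnit_det _).1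
      ((LinearMap.isUnit_iff_range_eq_top _).2 (top_unique (h4.ge.trans ?_)))).ne_zero⟩
    refine Submodule.span_le.2 (range_subset_iff.2 (Fin.cases ⟨(d : ℂ)⁻¹ • x.1, ?_⟩
      fun j => ⟨x.2 j, rfl⟩))
    change fderiv ℂ F x.1 _ = F x.1
    rw [map_smul, hF.euler, inv_smul_smul₀ (by exact_mod_cast h2.ne')]

/-- At a regular point the image of some coordinate frame is nondegenerate. -/
theorem hat_dens_fw_pos (hF : IsLift d F) (hd : 1 ≤ d) (hp : p < n) {w : E n} (hw : w ≠ 0)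
    (hr : w ∈ Reg F) :
    0 < hat (fun x : Fr n p => dens (fw F x)) w := by
  obtain ⟨u, hu⟩ := Ref_frame hp (hF.ne hw)
  obtain ⟨A, hA⟩ := exists_equiv_of_det hr
  have h : fw F (w, fun j => A.symm (u j)) = (F w, u) :=
    Prod.ext rfl (funext fun j => (DFunLike.congr_fun hA _).symm.trans (A.apply_symm_apply _))
  exact Ref_hat_pos (Ref_pt.comp_fw hF hd) (hu.trans_eq (congrArg dens h).symm)

/-- An open cone meeting the complement of the origin contains an open subset of the shell made of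
regular points (`IsLift.dense_reg`). -/
theorem rf_dens_fw_pos (hF : IsLift d F) (hd : 1 ≤ d) (hp : p < n) {O : Set (E n)} (ho : IsOpen O)
    (hc : IsCone O) (hne : ∃ z ∈ O, z ≠ 0) : 0 < rf O fun x : Fr n p => dens (fw F x) :=
  Ref_rf_pos (Ref_pt.comp_fw hF hd) ho hc hne hF.isOpen_reg (hF.dense_reg (hF.reg_nonempty hd))
    fun _ hr hw => hat_dens_fw_pos hF hd hp hw hr

theorem lt_of_mass_pos {S : Measure (Fr n p)} (h : IsCur S) (hm : 0 < mass S) : p < n := by
  obtain ⟨x, hx⟩ := Ref_ex (h.mass_eq ▸ hm)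
  have := (Ref_li hx).fintype_card_le_finrank
  rwa [finrank_euclideanSpace_fin, Fintype.card_fin] at this

end Pool.Agent.Lib.MP_a47f92_an
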