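import Pool.Agent.Lib.MP_a47f92_an.G.Pol
import Pool.Agent.Lib.MP_a47f92_an.G.SmB

set_option autoImplicit false
set_option linter.unusedSectionVars false

namespace Pool.Agent.Lib.MP_a47f92_an

open MeasureTheory Filter Topology Set Complex Metric Function
open scoped ContDiff ComplexConjugate ComplexOrder Matrix ENNReal NNReal

/-! Upper bounds by the reference current. -/

variable {n p : ℕ}

theorem UB_core {S : Measure (Fr n p)} {K : Set (E n)} (hS : IsCur S) (hK : On S K)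
    {Φ : E (n * n) → Fr n p → ℝ} {H : E (n * n) → E n → ℝ} {C : ℝ} (hC : 0 ≤ C) {B : ℝ≥0∞}
    (h : ∀ A x, ‖A‖ ≤ 1 → Φ A x ≤ C * dens x * H A x.1)
    (hB : ∀ z ∈ K, z ≠ 0 → ∫⁻ A in ball (0 : E (n * n)) 1, ENNReal.ofReal (H A z) ≤ B) :
    ∫⁻ x, (∫⁻ A in ball (0 : E (n * n)) 1, ENNReal.ofReal (Φ A x)) ∂S ≤
      ENNReal.ofReal C * ENNReal.ofReal (mass S) * B := by
  rw [← hS.lp_dens, ← lp_const_mul hC, lp,
    ← lintegral_mul_const _ (measurable_dens.const_mul C).ennreal_ofReal]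
  refine lintegral_mono_ae ((hS.ne.and hK).mono fun x hx => ?_)
  have h1 : ∫⁻ A in ball (0 : E (n * n)) 1, ENNReal.ofReal (Φ A x) ≤ ENNReal.ofReal (C * dens x) *
      ∫⁻ A in ball (0 : E (n * n)) 1, ENNReal.ofReal (H A x.1) := by
    rw [← lintegral_const_mul' _ _ ENNReal.ofReal_ne_top]
    refine setLIntegral_mono' measurableSet_ball fun A hA => ?_
    rw [← ENNReal.ofReal_mul (mul_nonneg hC (dens_nonneg x))]
    exact ENNReal.ofReal_le_ofReal (h A x (mem_ball_zero_iff.1 hA).le)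
  refine h1.trans ?_
  by_cases h0 : dens x = 0
  · rw [h0, mul_zero, ENNReal.ofReal_zero, zero_mul, zero_mul]
  · exact mul_le_mul_right (hB _ (hx.2 h0) hx.1) _

theorem UB_ker {k : E (n * n) → ℝ} {C : ℝ} (hC : ∀ A, k A ≤ C) (h0 : ∀ A, 1 ≤ ‖A‖ → k A = 0)
    (f : E (n * n) → ℝ≥0∞) : ∫⁻ A, ENNReal.ofReal (k A) * f A ≤
      ENNReal.ofReal C * ∫⁻ A in ball (0 : E (n * n)) 1, f A := by
  rw [← lintegral_const_mul' _ _ ENNReal.ofReal_ne_top, ← lintegral_indicator measurableSet_ball]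
  refine lintegral_mono fun A => ?_
  by_cases hA : A ∈ ball (0 : E (n * n)) 1
  · rw [indicator_of_mem hA]
    exact mul_le_mul_left (ENNReal.ofReal_le_ofReal (hC A)) _
  · rw [h0 A (not_lt.1 fun h => hA (mem_ball_zero_iff.2 h)), ENNReal.ofReal_zero, zero_mul]
    exact zero_le

/-- `lp_Sm`, `pt_le_lin`, `Kn.bound`, `avg_hat_le`. -/
theorem ub_Sm (κ : KM n) (p : ℕ) {r : ℝ} (hr : 0 < r) (hr' : r ≤ 1 / 2) : ∃ C : ℝ≥0,
    ∀ (S : Measure (Fr n p)) (K : Set (E n)) (g : Fr n p → ℝ), IsCur S → CC K → On S K → PT g →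
      lp (Sm κ r S) g ≤ C * ENNReal.ofReal (mass S) * rf (nb (2 * r) K) g := by
  obtain ⟨C₁, h₁, H₁⟩ := pt_le_lin n p
  obtain ⟨C₂, -, H₂⟩ := κ.bound
  obtain ⟨C₃, H₃⟩ := avg_hat_le n p hr
  have ht : ‖(r : ℂ)‖ = r := by rw [norm_real, Real.norm_of_nonneg hr.le]
  refine ⟨C₂.toNNReal * C₁.toNNReal * C₃, fun S K g hS hK hOn hg => ?_⟩
  have h1 := UB_core hS hOn (Φ := fun A x => g (lin (Tm r A) x))
    (H := fun A z => hat g (Tm r A (un z))) h₁.le
    (fun A x hA => H₁ g r A x hg (ht.trans_le hr') hA)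
    fun z hz h0 => H₃ g K z r r hg hK hz h0 ht.ge ht.le hr'
  rw [lp_Sm hS.sf hg.meas]
  refine (lintegral_mono fun x => (lintegral_withDensity_le_lintegral_mul _
    κ.sk.continuous.measurable.ennreal_ofReal _).trans (UB_ker (fun A => (H₂ A).1)
      (fun A hA => (κ.zero A hA).1) _)).trans ?_
  rw [lintegral_const_mul' _ _ ENNReal.ofReal_ne_top]
  refine (mul_le_mul_right h1 _).trans_eq ?_
  rw [ENNReal.coe_mul, ENNReal.coe_mul]
  change _ = ENNReal.ofReal C₂ * ENNReal.ofReal C₁ * _ * _ * _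
  ring

/-- `pt_le_su`, `avg_hat_le`, Tonelli. -/
theorem ub_su (n p : ℕ) {r₀ : ℝ} (hr₀ : 0 < r₀) : ∃ C : ℝ≥0,
    ∀ (S : Measure (Fr n p)) (K : Set (E n)) (g : Fr n (p + 1) → ℝ) (t : ℂ) (r : ℝ)
      (B : E n →L[ℂ] E n), IsCur S → CC K → On S K → PT g → r₀ ≤ ‖t‖ → ‖t‖ ≤ r → r ≤ 1 / 2 →
      ‖B‖ ≤ 1 → ∫⁻ A in ball (0 : E (n * n)) 1, lp S (fun x => g (su (Tm t A) B x)) ≤
        C * ENNReal.ofReal (mass S) * rf (nb (2 * r) K) g := by
  obtain ⟨C₁, h₁, H₁⟩ := pt_le_su n p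
  obtain ⟨C₃, H₃⟩ := avg_hat_le n (p + 1) hr₀
  refine ⟨C₁.toNNReal * C₃, fun S K g t r B hS hK hOn hg h0 ht hr hB => ?_⟩
  have := hS.sf
  have h1 := UB_core hS hOn (Φ := fun A x => g (su (Tm t A) B x))
    (H := fun A z => hat g (Tm t A (un z))) h₁.le
    (fun A x hA => H₁ g t A B x hg (ht.trans hr) hA hB)
    fun z hz hz0 => H₃ g K z t r hg hK hz hz0 h0 ht hr
  have hm : Measurable fun y : E (n * n) × Fr n p => ENNReal.ofReal (g (su (Tm t y.1) B y.2)) :=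
    (hg.meas.comp (continuous_su.comp
      ((continuous_Tm.comp (continuous_const.prodMk continuous_fst)).prodMk
        (continuous_const.prodMk continuous_snd))).measurable).ennreal_ofReal
  unfold lp
  rw [lintegral_lintegral_swap hm.aemeasurable]
  refine h1.trans_eq ?_
  rw [ENNReal.coe_mul]
  change _ = ENNReal.ofReal C₁ * _ * _ * _
  ring

/-- The real valued form: `lp_su`, `Kn.bound`. -/
theorem ub_Sv (κ : KM n) (p : ℕ) {r₀ : ℝ} (hr₀ : 0 < r₀) : ∃ C : ℝ≥0,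
    ∀ (S : Measure (Fr n p)) (K : Set (E n)) (q : Fin (p + 1) → E n → ℝ) (t : ℂ) (r : ℝ),
      IsCur S → CC K → On S K → PPs q → r₀ ≤ ‖t‖ → ‖t‖ ≤ r → r ≤ 1 / 2 →
      ENNReal.ofReal (∑ e, ∫ A, κ.G A * Sv S q (Tm t A) (mt n n (ev e))) ≤
        C * ENNReal.ofReal (mass S) * rf (nb (2 * r) K) (dn q) := by
  obtain ⟨C₁, H₁⟩ := ub_su n p hr₀
  obtain ⟨C₂, -, H₂⟩ := κ.bound
  refine ⟨(n * n : ℕ) * (C₂.toNNReal * C₁), fun S K q t r hS hK hOn hq h0 ht hr => ?_⟩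
  have hi : ∀ A : E (n * n), ‖A‖ < 1 → Tm t A ∈ Inj n := fun A hA =>
    Tm_inj ((mul_le_of_le_one_left (norm_nonneg _) (by linarith)).trans_lt hA)
  have h1 : ∀ e A, 0 ≤ κ.G A * Sv S q (Tm t A) (mt n n (ev e)) := fun e A => by
    rcases lt_or_ge ‖A‖ 1 with hA | hA
    · exact mul_nonneg (κ.G_nonneg A) (lp_su hS hq (hi A hA) _).1
    · rw [(κ.zero A hA).2, zero_mul]
  have h2 : ∀ e, ENNReal.ofReal (∫ A, κ.G A * Sv S q (Tm t A) (mt n n (ev e))) ≤
      ENNReal.ofReal C₂ * (C₁ * ENNReal.ofReal (mass S) * rf (nb (2 * r) K) (dn q)) := fun e => by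
    refine (Real.ofReal_le_enorm _).trans ((enorm_integral_le_lintegral_enorm _).trans ?_)
    rw [lintegral_congr fun A => (Real.enorm_eq_ofReal (h1 e A)).trans
      (ENNReal.ofReal_mul (κ.G_nonneg A))]
    refine (UB_ker (fun A => (H₂ A).2) (fun A hA => (κ.zero A hA).2) _).trans
      (mul_le_mul_right (le_trans (le_of_eq ?_) (H₁ S K (dn q) t r (mt n n (ev e)) hS hK hOn
        (pt_dn hq) h0 ht hr ((norm_mt_le _).trans ?_))) _)
    · exact setLIntegral_congr_fun measurableSet_ball fun A hA =>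
        (lp_su hS hq (hi A (mem_ball_zero_iff.1 hA)) _).2.symm
    · simp [ev]
  rw [ENNReal.ofReal_sum_of_nonneg fun e _ => integral_nonneg (h1 e)]
  refine (Finset.sum_le_sum fun e _ => h2 e).trans_eq ?_
  rw [Finset.sum_const, Finset.card_univ, Fintype.card_fin, nsmul_eq_mul, ENNReal.coe_mul,
    ENNReal.coe_mul, ENNReal.coe_natCast]
  change _ = _ * (ENNReal.ofReal C₂ * _) * _ * _
  ring

end Pool.Agent.Lib.MP_a47f92_an
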