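import Pool.Agent.Lib.MP_a47f92_an.G.Cpt
import Pool.Agent.Lib.MP_a47f92_an.G.Alm
import Pool.Agent.Lib.MP_a47f92_an.G.Ref
import Pool.Agent.Lib.MP_a47f92_an.G.Hom
import Pool.Agent.Lib.MP_a47f92_an.G.UB
import Pool.Agent.Lib.MP_a47f92_an.G.LB
import Pool.Agent.Lib.MP_a47f92_an.G.Cont

set_option autoImplicit false
set_option linter.unusedSectionVars false

namespace Pool.Agent.Lib.MP_a47f92_an

open MeasureTheory Filter Topology Set Complex Metric Function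
open scoped ContDiff ComplexConjugate ComplexOrder Matrix ENNReal NNReal

/-! The properties of the smoothing and homotopy operators used in steps 2 and 3. -/

variable {n p : ℕ} {S S' : Measure (Fr n p)} {Y : Measure (Fr n (p + 1))} {K : Set (E n)} {r : ℝ}
  (κ : KM n)

theorem A_half (h : r ≤ 1 / 4) : r ≤ 1 / 2 := h.trans (by norm_num)

theorem A_sm_cur (hr : 0 < r) (hr1 : r ≤ 1 / 4) (h : IsCur S) : IsCur (Sm κ r S) :=
  h.toSm κ hr.le (A_half hr1)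

theorem A_ho_cur (_ : 0 < r) (hr1 : r ≤ 1 / 4) (h : IsCur S) : IsCur (Ho κ r S) :=
  h.toHo κ (A_half hr1)

theorem A_sm_closed (hr : 0 < r) (hr1 : r ≤ 1 / 4) (h : IsCur S) (hc : Closed S) :
    Closed (Sm κ r S) :=
  hc.toSm h κ hr.le (A_half hr1)

theorem A_sm_mass (hr : 0 < r) (hr1 : r ≤ 1 / 4) (h : IsCur S) (hc : Closed S) :
    mass (Sm κ r S) = mass S :=
  hc.mass_Sm h κ hr.le (A_half hr1)

theorem A_sm_eqv (hr : 0 < r) (hr1 : r ≤ 1 / 4) (h : IsCur S) (h' : IsCur S') (e : Eqv S S') :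
    Eqv (Sm κ r S) (Sm κ r S') :=
  e.toSm h h' κ hr.le (A_half hr1)

theorem A_sm_ddc (hr : 0 < r) (hr1 : r ≤ 1 / 4) (hY : IsCur Y) (h : IsCur S) (h' : IsCur S')
    (e : DDC Y S S') : DDC (Sm κ r Y) (Sm κ r S) (Sm κ r S') :=
  e.toSm hY h h' κ hr.le (A_half hr1)

theorem A_sm_on (hr : 0 < r) (hr1 : r ≤ 1 / 4) (h : IsCur S) (hK : CC K) (h' : On S K) :
    On (Sm κ r S) (nb (2 * r) K) :=
  h'.toSm h.sf hK κ hr.le (A_half hr1)

theorem A_ho_on (_ : 0 < r) (hr1 : r ≤ 1 / 4) (h : IsCur S) (hK : CC K) (h' : On S K) :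
    On (Ho κ r S) (nb (2 * r) K) :=
  h'.toHo h.sf hK κ (A_half hr1)

theorem A_sm_add (r : ℝ) (h : IsCur S) (h' : IsCur S') :
    Sm κ r (S + S') = Sm κ r S + Sm κ r S' :=
  Sm_add κ r h.sf h'.sf

theorem A_ho_add (r : ℝ) (h : IsCur S) (h' : IsCur S') :
    Ho κ r (S + S') = Ho κ r S + Ho κ r S' :=
  Ho_add κ r h.sf h'.sf

theorem A_sm_zero (r : ℝ) : Sm κ r (0 : Measure (Fr n p)) = 0 :=
  by rw [Sm, Measure.prod_zero, Measure.map_zero]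

theorem A_sm_sum (r : ℝ) {T : ℕ → Measure (Fr n p)} (h : ∀ i, IsCur (T i)) :
    Sm κ r (Measure.sum T) = Measure.sum fun i => Sm κ r (T i) :=
  Sm_sum κ r fun i => (h i).sf

theorem A_ho_mono {r' : ℝ} (hr : r' ≤ r) (h : IsCur S) : Ho κ r' S ≤ Ho κ r S :=
  Ho_mono κ hr h.sf

theorem A_sm_cont (hr : 0 < r) (hr1 : r ≤ 1 / 4) (h : IsCur S) : IsCont (Sm κ r S) :=
  isCont_Sm κ hr (A_half hr1) h

theorem A_H (hr : 0 < r) (hr1 : r ≤ 1 / 4) (h : IsCur S) (hc : Closed S) :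
    DDC (Ho κ r S) (Sm κ r S) S :=
  ddc_Ho κ hr.le (A_half hr1) h hc

theorem A_H' (hr : 0 < r) (hr1 : r ≤ 1 / 4) (hY : IsCur Y) (h : IsCur S) (h' : IsCur S')
    (hc : Closed S) (hc' : Closed S') (e : DDC Y S S') {q : Fin (p + 1) → E n → ℝ} (hq : Pots q) :
    p1 (Sm κ r Y) q - p1 Y q = p1 (Ho κ r S) q - p1 (Ho κ r S') q :=
  e.hom κ hr.le (A_half hr1) hY h h' hc hc' hq

theorem A_ub (hr : 0 < r) (hr1 : r ≤ 1 / 4) (p : ℕ) : ∃ C : ℝ≥0,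
    ∀ (S : Measure (Fr n p)) (K : Set (E n)) (g : Fr n p → ℝ), IsCur S → CC K → On S K → PT g →
      lp (Sm κ r S) g ≤ C * ENNReal.ofReal (mass S) * rf (nb (2 * r) K) g :=
  ub_Sm κ p hr (A_half hr1)

theorem A_lb (hr : 0 < r) (hr1 : r ≤ 1 / 4) (h : IsCur S) : ∃ δ : ℝ, 0 < δ ∧ δ ≤ 1 / 4 ∧
    (∃ C : ℝ≥0, ∀ g, PT g → rf (nb δ (Sp S)) g ≤ C * lp (Sm κ r S) g) ∧
    ∃ C : ℝ≥0, ∀ g, PT g → rf (nb δ (Sp S)) g ≤ C * lp (Ho κ r S) g := by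
  obtain ⟨δ₁, C₁, p1, h1⟩ := lb_Sm κ hr (A_half hr1) h
  obtain ⟨δ₂, C₂, p2, h2⟩ := lb_Ho κ hr (A_half hr1) h
  refine ⟨min (min δ₁ δ₂) (1 / 4), by positivity, min_le_right _ _,
    ⟨C₁, fun g hg => (rf_mono (nb_mono ?_ Subset.rfl)).trans (h1 g hg)⟩,
    C₂, fun g hg => (rf_mono (nb_mono ?_ Subset.rfl)).trans (h2 g hg)⟩
  · exact (min_le_left _ _).trans (min_le_left _ _)
  · exact (min_le_left _ _).trans (min_le_right _ _)


end Pool.Agent.Lib.MP_a47f92_an
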