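import Pool.Agent.Lib.MP_a47f92_an.G.SVD

set_option autoImplicit false
set_option linter.unusedSectionVars false

namespace Pool.Agent.Lib.MP_a47f92_an

open MeasureTheory Filter Topology Set Complex Metric Function
open scoped ContDiff ComplexConjugate ComplexOrder Matrix ENNReal NNReal

/-! The angle inequality. -/

variable {n s : ℕ}

theorem Ang_one {ι : Type} [Fintype ι] (T : Finset ι) (σ : ι → ℝ) (a : ι → ℂ) {σ₁ σ₂ : ℝ}
    (h2 : 0 ≤ σ₂) (h1 : 0 ≤ σ₁) (h0 : ∀ i, 0 ≤ σ i) (hT : ∀ i ∈ T, σ i = σ₁)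
    (hT' : ∀ i, i ∉ T → a i = 0 ∨ σ i ≤ σ₂) :
    √(∑ i, σ i ^ 2 * ‖a i‖ ^ 2) ≤ σ₁ * √(∑ i ∈ T, ‖a i‖ ^ 2) + σ₂ * √(∑ i, ‖a i‖ ^ 2) := by
  classical
  have e1 : ∑ i, σ i ^ 2 * ‖a i‖ ^ 2 ≤
      σ₁ ^ 2 * ∑ i ∈ T, ‖a i‖ ^ 2 + σ₂ ^ 2 * ∑ i, ‖a i‖ ^ 2 := by
    rw [← Finset.sum_add_sum_compl T fun i => σ i ^ 2 * ‖a i‖ ^ 2, Finset.mul_sum, Finset.mul_sum]
    refine add_le_add (le_of_eq (Finset.sum_congr rfl fun i hi => by rw [hT i hi])) ?_
    refine le_trans (Finset.sum_le_sum fun i hi => ?_) (Finset.sum_le_sum_of_subset_of_nonneg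
      (Finset.subset_univ Tᶜ) fun i _ _ => by positivity)
    rcases hT' i (Finset.mem_compl.1 hi) with h | h
    · simp [h]
    · exact mul_le_mul_of_nonneg_right (pow_le_pow_left₀ (h0 i) h 2) (by positivity)
  have p1 : 0 ≤ ∑ i ∈ T, ‖a i‖ ^ 2 := Finset.sum_nonneg fun i _ => by positivity
  have p2 : 0 ≤ ∑ i, ‖a i‖ ^ 2 := Finset.sum_nonneg fun i _ => by positivity
  refine Real.sqrt_le_iff.2 ⟨by positivity, e1.trans ?_⟩
  rw [add_sq, mul_pow, mul_pow, Real.sq_sqrt p1, Real.sq_sqrt p2]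
  have : 0 ≤ 2 * (σ₁ * √(∑ i ∈ T, ‖a i‖ ^ 2)) * (σ₂ * √(∑ i, ‖a i‖ ^ 2)) := by positivity
  linarith

theorem Ang_two {ι : Type} (T : Finset ι) (a b : ι → ℂ)
    (hab : ∀ i ∈ T, ∀ j ∈ T, ‖a i‖ = ‖a j‖ ∧ ‖b i‖ = ‖b j‖ ∧ a i * b i = a j * b j) :
    √(∑ i ∈ T, ‖a i‖ ^ 2) * √(∑ i ∈ T, ‖b i‖ ^ 2) = ‖∑ i ∈ T, a i * b i‖ := by
  rcases T.eq_empty_or_nonempty with rfl | ⟨j, hj⟩
  · simp
  rw [Finset.sum_congr rfl fun i hi => by rw [(hab i hi j hj).1],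
    Finset.sum_congr (f := fun i => ‖b i‖ ^ 2) rfl fun i hi => by rw [(hab i hi j hj).2.1],
    Finset.sum_congr (f := fun i => a i * b i) rfl fun i hi => (hab i hi j hj).2.2]
  simp only [Finset.sum_const, nsmul_eq_mul, norm_mul, Complex.norm_natCast]
  rw [Real.sqrt_mul (Nat.cast_nonneg _), Real.sqrt_mul (Nat.cast_nonneg _),
    Real.sqrt_sq (norm_nonneg _), Real.sqrt_sq (norm_nonneg _), mul_mul_mul_comm,
    Real.mul_self_sqrt (Nat.cast_nonneg _)]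

/-- Abstract form: weights equal to `σ₁` on `T`, at most `σ₂` off `T`; on `T` the moduli of `a`,
`b` and the product `a b` are constant. With `α² = ∑ σ² |a|²`, `β² = ∑ σ² |b|²`,
`J = ∑ σ a b`: `α ≤ σ₁ √|T| |a₀| + σ₂ ‖a‖`, and `|T| σ₁ |a₀ b₀| ≤ |J| + σ₂ ‖a‖ ‖b‖`. -/
theorem ang_abstract {ι : Type} [Fintype ι] (T : Finset ι) (σ : ι → ℝ) (a b : ι → ℂ) {σ₁ σ₂ : ℝ}
    (h2 : 0 ≤ σ₂) (h12 : σ₂ ≤ σ₁) (h0 : ∀ i, 0 ≤ σ i) (hT : ∀ i ∈ T, σ i = σ₁)
    (hT' : ∀ i, i ∉ T → a i = 0 ∧ b i = 0 ∨ σ i ≤ σ₂)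
    (hab : ∀ i ∈ T, ∀ j ∈ T, ‖a i‖ = ‖a j‖ ∧ ‖b i‖ = ‖b j‖ ∧ a i * b i = a j * b j) :
    √(∑ i, σ i ^ 2 * ‖a i‖ ^ 2) * √(∑ i, σ i ^ 2 * ‖b i‖ ^ 2) ≤
      σ₁ * ‖∑ i, (σ i : ℂ) * (a i * b i)‖ +
        4 * σ₁ * σ₂ * (√(∑ i, ‖a i‖ ^ 2) * √(∑ i, ‖b i‖ ^ 2)) := by
  classical
  have h1 : 0 ≤ σ₁ := h2.trans h12
  have a1 := Ang_one T σ a h2 h1 h0 hT fun i hi => (hT' i hi).imp_left And.left
  have b1 := Ang_one T σ b h2 h1 h0 hT fun i hi => (hT' i hi).imp_left And.right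
  have c1 := Ang_two T a b hab
  have a2 : √(∑ i ∈ T, ‖a i‖ ^ 2) ≤ √(∑ i, ‖a i‖ ^ 2) := Real.sqrt_le_sqrt
    (Finset.sum_le_sum_of_subset_of_nonneg (Finset.subset_univ T) fun i _ _ => by positivity)
  have b2 : √(∑ i ∈ T, ‖b i‖ ^ 2) ≤ √(∑ i, ‖b i‖ ^ 2) := Real.sqrt_le_sqrt
    (Finset.sum_le_sum_of_subset_of_nonneg (Finset.subset_univ T) fun i _ _ => by positivity)
  have c2 : ‖∑ i ∈ Tᶜ, (σ i : ℂ) * (a i * b i)‖ ≤
      σ₂ * (√(∑ i, ‖a i‖ ^ 2) * √(∑ i, ‖b i‖ ^ 2)) := by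
    refine (norm_sum_le _ _).trans (le_trans ?_ (mul_le_mul_of_nonneg_left
      (Real.sum_mul_le_sqrt_mul_sqrt Finset.univ (fun i => ‖a i‖) fun i => ‖b i‖) h2))
    rw [Finset.mul_sum]
    refine le_trans (Finset.sum_le_sum fun i hi => ?_) (Finset.sum_le_sum_of_subset_of_nonneg
      (Finset.subset_univ Tᶜ) fun i _ _ => by positivity)
    rcases hT' i (Finset.mem_compl.1 hi) with h | h
    · simp [h.1]
    · rw [norm_mul, norm_mul, Complex.norm_real, Real.norm_of_nonneg (h0 i)]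
      exact mul_le_mul_of_nonneg_right h (by positivity)
  have c3 : σ₁ * ‖∑ i ∈ T, a i * b i‖ ≤ ‖∑ i, (σ i : ℂ) * (a i * b i)‖ +
      ‖∑ i ∈ Tᶜ, (σ i : ℂ) * (a i * b i)‖ := by
    have e : (σ₁ : ℂ) * ∑ i ∈ T, a i * b i =
        ∑ i, (σ i : ℂ) * (a i * b i) - ∑ i ∈ Tᶜ, (σ i : ℂ) * (a i * b i) := by
      rw [← Finset.sum_add_sum_compl T, add_sub_cancel_right, Finset.mul_sum]
      exact Finset.sum_congr rfl fun i hi => by rw [hT i hi]
    refine le_trans (le_of_eq ?_) (norm_sub_le _ _)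
    rw [← e, norm_mul, Complex.norm_real, Real.norm_of_nonneg h1]
  rw [← c1] at c3
  have pA := Real.sqrt_nonneg (∑ i, ‖a i‖ ^ 2)
  have pB := Real.sqrt_nonneg (∑ i, ‖b i‖ ^ 2)
  have pAT := Real.sqrt_nonneg (∑ i ∈ T, ‖a i‖ ^ 2)
  have pBT := Real.sqrt_nonneg (∑ i ∈ T, ‖b i‖ ^ 2)
  refine (mul_le_mul a1 b1 (Real.sqrt_nonneg _) (by positivity)).trans ?_
  generalize √(∑ i, ‖a i‖ ^ 2) = A at *
  generalize √(∑ i, ‖b i‖ ^ 2) = B at *
  generalize √(∑ i ∈ T, ‖a i‖ ^ 2) = A' at *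
  generalize √(∑ i ∈ T, ‖b i‖ ^ 2) = B' at *
  have d1 := mul_le_mul_of_nonneg_left (c3.trans (add_le_add le_rfl c2)) h1
  have d2 := mul_le_mul_of_nonneg_left (mul_le_mul_of_nonneg_right a2 pB) (mul_nonneg h1 h2)
  have d3 := mul_le_mul_of_nonneg_left (mul_le_mul_of_nonneg_left b2 pA) (mul_nonneg h1 h2)
  have d4 := mul_le_mul_of_nonneg_right h12 (mul_nonneg h2 (mul_nonneg pA pB))
  linarith

theorem Ang_le_val {p : ℕ} {f : Fin p → Fin n} (hf : StrictMono f) (k : ℕ) (hk : k < p) :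
    k ≤ f ⟨k, hk⟩ := by
  induction k with
  | zero => exact Nat.zero_le _
  | succ k ih =>
    exact Nat.succ_le_of_lt ((ih (by omega)).trans_lt
      (hf (show (⟨k, by omega⟩ : Fin p) < ⟨k + 1, hk⟩ from Nat.lt_succ_self k)))

theorem Ang_prod_le {p : ℕ} (hp : p ≤ n) {σ : Fin n → ℝ} (hσ : Antitone σ) (h0 : ∀ i, 0 ≤ σ i)
    {J : Fin p → Fin n} (hJ : Injective J) :
    ∏ j, σ (J j) ≤ ∏ j : Fin p, σ (Fin.castLE hp j) := by
  have h1 : StrictMono (J ∘ Tuple.sort J) :=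
    (Tuple.monotone_sort J).strictMono_of_injective (hJ.comp (Tuple.sort J).injective)
  rw [← Equiv.prod_comp (Tuple.sort J)]
  exact Finset.prod_le_prod (fun j _ => h0 _) fun j _ => hσ (Ang_le_val h1 j.1 j.2)

theorem Ang_perm (hs : s ≤ n) {J : Fin s → Fin n} (hJ : Injective J) (h : ∀ j, (J j : ℕ) < s) :
    ∃ π : Equiv.Perm (Fin s), J = Fin.castLE hs ∘ π := by
  have h1 : Injective fun j => (⟨J j, h j⟩ : Fin s) := fun i j e =>
    hJ (Fin.ext (congrArg Fin.val e :))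
  exact ⟨Equiv.ofBijective _ (Finite.injective_iff_bijective.1 h1), funext fun j => rfl⟩

theorem Ang_sigma (hs : s < n) {B : E n →L[ℂ] E n} {u v : OrthonormalBasis (Fin n) ℂ (E n)}
    {σ : Fin n → ℝ} (hσ : Antitone σ) (h0 : ∀ i, 0 ≤ σ i) (h : ∀ i, B (v i) = (σ i : ℂ) • u i) :
    ∃ σ₂ : ℝ, 0 ≤ σ₂ ∧ σ₂ ≤ ∏ j : Fin s, σ (Fin.castLE hs.le j) ∧
      (∏ j : Fin s, σ (Fin.castLE hs.le j)) * σ₂ ≤ wn2 s B ∧
      ∀ J : Fin s → Fin n, Injective J → (∃ j, s ≤ (J j : ℕ)) → ∏ j, σ (J j) ≤ σ₂ := by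
  rcases s with _ | p
  · exact ⟨0, le_rfl, by simp, by simp [wn2], fun J _ ⟨j, _⟩ => j.elim0⟩
  have hp : p ≤ n := by omega
  have p1 : 0 ≤ ∏ j : Fin p, σ (Fin.castLE hp j) := Finset.prod_nonneg fun j _ => h0 _
  refine ⟨(∏ j : Fin p, σ (Fin.castLE hp j)) * σ ⟨p + 1, hs⟩, mul_nonneg p1 (h0 _), ?_, ?_, ?_⟩
  · rw [Fin.prod_univ_castSucc]
    exact mul_le_mul_of_nonneg_left (hσ (Nat.le_succ p)) p1
  · have h1 := (wn_svd (p := p + 1 + 1) hs hσ h0 h).1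
    have h2 := (wn_svd hp hσ h0 h).1
    rw [Fin.prod_univ_castSucc] at h1
    rw [wn2, if_neg (Nat.succ_ne_zero p), Nat.add_sub_cancel, mul_comm _ (σ _), ← mul_assoc]
    exact mul_le_mul h1 h2 p1 (wn_nonneg _ _)
  · rintro J hJ ⟨j, hj⟩
    rw [Fin.prod_univ_succAbove _ j, mul_comm]
    exact mul_le_mul (Ang_prod_le hp hσ h0 (hJ.comp Fin.succAbove_right_injective)) (hσ hj)
      (h0 _) p1

theorem Ang_norm (w : Fin s → E n) : ‖plk w‖ = √(∑ J, ‖plk w J‖ ^ 2) :=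
  EuclideanSpace.norm_eq _

theorem Ang_repr {B : E n →L[ℂ] E n} {u v : OrthonormalBasis (Fin n) ℂ (E n)}
    {σ : Fin n → ℝ} (h : ∀ i, B (v i) = (σ i : ℂ) • u i) (x : E n) (i : Fin n) :
    u.repr (B x) i = σ i * v.repr x i := by
  conv_lhs => rw [← v.sum_repr x]
  simp only [map_sum, map_smul, h, OrthonormalBasis.repr_self]
  simp [Pi.single_apply, mul_comm]

/-- Express `w` in the basis `v` and `θ` in the basis `u` of `exists_svd`; `T` is the set of the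
tuples which enumerate the first `s` indices, `σ₂` the product of the first `s - 1` singular values
and of the singular value number `s + 1` (for `s = 0` there is one tuple and `σ₂ = 0`). -/
theorem angle_ineq (hs : s < n) : ∃ C : ℝ, 0 < C ∧ ∀ (B : E n →L[ℂ] E n)
    (θ : E n [⋀^Fin s]→ₗ[ℂ] ℂ) (w : Fin s → E n),
    ‖plk fun j => B (w j)‖ * an (fun u : Fin s → E n => θ fun j => B (u j)) ≤
      C * (wn s B * ‖θ fun j => B (w j)‖ + wn2 s B * (‖plk w‖ * an θ)) := by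
  classical
  refine ⟨s.factorial + 4, by positivity, fun B θ w => ?_⟩
  obtain ⟨u, v, σ, hσ, h0, h⟩ := exists_svd B
  obtain ⟨σ₂, h2, h12, hw2, hle⟩ := Ang_sigma hs hσ h0 h
  have hw1 := (wn_svd hs.le hσ h0 h).1
  have pσ : ∀ J : Fin s → Fin n, 0 ≤ ∏ j, σ (J j) := fun J => Finset.prod_nonneg fun j _ => h0 _
  have eθ : ∀ J : Fin s → Fin n, (θ fun j => B (v (J j))) =
      ((∏ j, σ (J j) : ℝ) : ℂ) * θ fun j => u (J j) := fun J => by
    simp only [h]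
    rw [θ.map_smul_univ, smul_eq_mul, Complex.ofReal_prod]
  have key := ang_abstract (Finset.univ.filter fun J : Fin s → Fin n =>
      ∃ π : Equiv.Perm (Fin s), J = Fin.castLE hs.le ∘ π) (fun J => ∏ j, σ (J j))
    (fun J => plk (fun j => v.repr (w j)) J) (fun J => θ fun j => u (J j)) h2 h12 pσ
    (fun J hJ => by
      obtain ⟨π, rfl⟩ := (Finset.mem_filter.1 hJ).2
      exact Equiv.prod_comp π fun j => σ (Fin.castLE hs.le j))
    (fun J hJ => by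
      by_cases hi : Injective J
      · refine Or.inr (hle J hi ?_)
        by_contra hc
        exact hJ (Finset.mem_filter.2 ⟨Finset.mem_univ _,
          Ang_perm hs.le hi fun j => not_le.1 fun h3 => hc ⟨j, h3⟩⟩)
      · refine Or.inl ⟨?_, θ.map_eq_zero_of_not_injective _ fun h3 => hi (Injective.of_comp h3)⟩
        obtain ⟨i, j, e, hne⟩ := not_injective_iff.1 hi
        exact Matrix.det_zero_of_row_eq hne (funext fun k => by simp [e]))
    (by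
      have e : ∀ π : Equiv.Perm (Fin s), ∃ c : ℂ, ‖c‖ = 1 ∧ c * c = 1 ∧
          plk (fun j => v.repr (w j)) (Fin.castLE hs.le ∘ π) =
            c * plk (fun j => v.repr (w j)) (Fin.castLE hs.le) ∧
          (θ fun j => u ((Fin.castLE hs.le ∘ π) j)) = c * θ fun j => u (Fin.castLE hs.le j) := by
        intro π
        refine ⟨((Equiv.Perm.sign π : ℤ) : ℂ), ?_, ?_, Matrix.det_permute π
          (Matrix.of fun i j : Fin s => v.repr (w j) (Fin.castLE hs.le i)), ?_⟩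
        · rcases Int.units_eq_one_or (Equiv.Perm.sign π) with e | e <;> simp [e]
        · rcases Int.units_eq_one_or (Equiv.Perm.sign π) with e | e <;> simp [e]
        · refine (θ.map_perm (fun j => u (Fin.castLE hs.le j)) π).trans ?_
          rw [Units.smul_def, zsmul_eq_mul]
      intro J hJ J' hJ'
      obtain ⟨π, rfl⟩ := (Finset.mem_filter.1 hJ).2
      obtain ⟨π', rfl⟩ := (Finset.mem_filter.1 hJ').2
      obtain ⟨c, c1, c2, c3, c4⟩ := e π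
      obtain ⟨d, d1, d2, d3, d4⟩ := e π'
      rw [c3, c4, d3, d4]
      refine ⟨by rw [norm_mul, norm_mul, c1, d1], by rw [norm_mul, norm_mul, c1, d1], ?_⟩
      rw [mul_mul_mul_comm c, mul_mul_mul_comm d, c2, d2])
  have e1 : ‖plk fun j => B (w j)‖ =
      √(∑ J : Fin s → Fin n, (∏ j, σ (J j)) ^ 2 * ‖plk (fun j => v.repr (w j)) J‖ ^ 2) := by
    rw [← norm_plk_isometry u.repr, Ang_norm]
    refine congrArg _ (Finset.sum_congr rfl fun J _ => ?_)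
    have e : plk (fun j => u.repr (B (w j))) J =
        ((∏ j, σ (J j) : ℝ) : ℂ) * plk (fun j => v.repr (w j)) J := by
      rw [plk_apply, plk_apply, Complex.ofReal_prod, ← Matrix.det_mul_column]
      exact congrArg _ (Matrix.ext fun i j => Ang_repr h _ _)
    rw [e, norm_mul, mul_pow, Complex.norm_real, Real.norm_of_nonneg (pσ J)]
  have e2 : an (fun x : Fin s → E n => θ fun j => B (x j)) =
      √(∑ J : Fin s → Fin n, (∏ j, σ (J j)) ^ 2 * ‖θ fun j => u (J j)‖ ^ 2) := by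
    have e := an_sq_basis (θ.compLinearMap (B : E n →ₗ[ℂ] E n)) v
    rw [← Real.sqrt_sq (an_nonneg fun x : Fin s → E n => θ fun j => B (x j))]
    refine congrArg _ (e.trans (Finset.sum_congr rfl fun J _ => ?_))
    rw [show (θ.compLinearMap (B : E n →ₗ[ℂ] E n) fun j => v (J j)) = _ from eθ J, norm_mul,
      mul_pow, Complex.norm_real, Real.norm_of_nonneg (pσ J)]
  have e3 : ∑ J : Fin s → Fin n, ((∏ j, σ (J j) : ℝ) : ℂ) *
      (plk (fun j => v.repr (w j)) J * θ fun j => u (J j)) =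
      (s.factorial : ℂ) * θ fun j => B (w j) := by
    have e := alt_expand (θ.compLinearMap ((B : E n →ₗ[ℂ] E n) ∘ₗ
      (v.repr.symm.toLinearEquiv : E n →ₗ[ℂ] E n))) fun j => v.repr (w j)
    have e' : (θ.compLinearMap ((B : E n →ₗ[ℂ] E n) ∘ₗ
        (v.repr.symm.toLinearEquiv : E n →ₗ[ℂ] E n)) fun j => v.repr (w j)) =
        θ fun j => B (w j) := congrArg θ (funext fun j => congrArg B (v.repr.symm_apply_apply _))
    rw [← e', e]
    refine Finset.sum_congr rfl fun J _ => ?_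
    have e'' : θ.compLinearMap ((B : E n →ₗ[ℂ] E n) ∘ₗ
        (v.repr.symm.toLinearEquiv : E n →ₗ[ℂ] E n)) (evs J) = θ fun j => B (v (J j)) :=
      congrArg θ (funext fun j => congrArg B (v.repr_symm_single _))
    rw [e'', eθ]
    ring
  have e4 : √(∑ J : Fin s → Fin n, ‖plk (fun j => v.repr (w j)) J‖ ^ 2) = ‖plk w‖ := by
    rw [← Ang_norm, norm_plk_isometry]
  have e5 : √(∑ J : Fin s → Fin n, ‖θ fun j => u (J j)‖ ^ 2) = an θ := by
    rw [← an_sq_basis, Real.sqrt_sq (an_nonneg _)]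
  rw [← e1, ← e2, e3, e4, e5, norm_mul, Complex.norm_natCast] at key
  refine key.trans ?_
  have q1 : 0 ≤ ‖plk w‖ * an θ := mul_nonneg (norm_nonneg _) (an_nonneg _)
  have q2 : (0 : ℝ) ≤ s.factorial := Nat.cast_nonneg _
  have q3 := norm_nonneg (θ fun j => B (w j))
  have d1 := mul_le_mul_of_nonneg_right hw1 (mul_nonneg q2 q3)
  have d2 := mul_le_mul_of_nonneg_right hw2 q1
  have d3 := mul_nonneg (wn_nonneg s B) q3
  have d4 := mul_nonneg q2 (mul_nonneg ((mul_nonneg (h2.trans h12) h2).trans hw2) q1)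
  linarith

end Pool.Agent.Lib.MP_a47f92_an
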