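import Pool.Agent.Lib.MP_a47f92_an.G.LHb

set_option autoImplicit false
set_option linter.unusedSectionVars false

/-! Domination of the Levi form of a product. -/

namespace Pool.Agent.Lib.MP_a47f92_an

open MeasureTheory Filter Topology Set Complex Metric Function
open scoped ContDiff ComplexConjugate ComplexOrder Matrix ENNReal NNReal

variable {n : ℕ} {a b : E n → ℝ}

theorem B_levi_comp {D : ℝ} {d : ℕ} {G : E n → E n} (hG : IsLift d G) (h : LH D a) {z : E n}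
    (hz : z ≠ 0) (v : E n) :
    levi (fun w => a (G w)) z v = levi a (G z) (fderiv ℂ G z v) := by
  rw [← lap_eq_levi ((h.comp hG).contDiffAt2 hz), ← lap_eq_levi (h.contDiffAt2 (hG.ne hz))]
  exact lap_comp (hG.contDiff.contDiffAt.of_le GreenA_two) (h.contDiffAt2 (hG.ne hz)) v

theorem B_gd_comp {D : ℝ} {d : ℕ} {G : E n → E n} (hG : IsLift d G) (h : LH D a) {z : E n}
    (hz : z ≠ 0) (v : E n) :
    gd v (rc fun w => a (G w)) z = gd (fderiv ℂ G z v) (rc a) (G z) :=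
  gd_comp (u := rc a) (hG.differentiable z)
    ((contDiffAt_rc (h.contDiffAt2 (hG.ne hz))).differentiableAt (by simp))

theorem B_levi_mul (ha : LH 0 a) (hb : LH 0 b) : ∃ C : ℝ, 0 ≤ C ∧ ∀ (d : ℕ) (G : E n → E n),
    IsLift d G → ∀ z, z ≠ 0 → ∀ v, |levi (fun w => a w * b (G w)) z v| ≤
      C * (levi lg z v + levi (fun w => lg (G w)) z v) := by
  obtain ⟨A0, hA0, a0⟩ := ha.bound
  obtain ⟨B0, hB0, b0⟩ := hb.bound
  obtain ⟨A1, hA1, a1⟩ := ha.ic.grad_le
  obtain ⟨B1, hB1, b1⟩ := hb.ic.grad_le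
  obtain ⟨A2, hA2, a2⟩ := ha.levi_le
  obtain ⟨B2, hB2, b2⟩ := hb.levi_le
  refine ⟨A0 * B2 + B0 * A2 + A1 + B1, by positivity, fun d G hG z hz v => ?_⟩
  have hbG := hb.comp0 hG
  rw [← lap_eq_levi ((ha.mul hbG).contDiffAt2 hz), lap_mul (ha.contDiffAt2 hz) (hbG.contDiffAt2 hz),
    lap_eq_levi (ha.contDiffAt2 hz), lap_eq_levi (hbG.contDiffAt2 hz), B_levi_comp hG hb hz,
    B_levi_comp hG lh_lg hz, B_gd_comp hG hb hz]
  set x := levi lg z v
  set y := levi lg (G z) (fderiv ℂ G z v)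
  have hx : 0 ≤ x := pl_lg.psh z hz v
  have hy : 0 ≤ y := pl_lg.psh _ (hG.ne hz) _
  have e1 : |a z * levi b (G z) (fderiv ℂ G z v)| ≤ A0 * (B2 * y) := by
    rw [abs_mul]
    exact mul_le_mul (a0 z) (b2 _ (hG.ne hz) _) (abs_nonneg _) hA0
  have e2 : |b (G z) * levi a z v| ≤ B0 * (A2 * x) := by
    rw [abs_mul]
    exact mul_le_mul (b0 _) (a2 z hz v) (abs_nonneg _) hB0
  have e3 : |2 * (gd v (rc a) z * conj (gd (fderiv ℂ G z v) (rc b) (G z))).re| ≤
      A1 * x + B1 * y := by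
    have h1 := a1 z hz v
    have h2 := b1 _ (hG.ne hz) (fderiv ℂ G z v)
    have h3 := abs_re_le_norm (gd v (rc a) z * conj (gd (fderiv ℂ G z v) (rc b) (G z)))
    rw [norm_mul, norm_conj] at h3
    rw [abs_mul, abs_two]
    nlinarith [sq_nonneg (‖gd v (rc a) z‖ - ‖gd (fderiv ℂ G z v) (rc b) (G z)‖)]
  refine ((abs_add_le _ _).trans (add_le_add (abs_add_le _ _) le_rfl)).trans ?_
  have := mul_nonneg (mul_nonneg hA0 hB2) hx
  have := mul_nonneg (mul_nonneg hB0 hA2) hy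
  have := mul_nonneg hA1 hy
  have := mul_nonneg hB1 hx
  nlinarith

/-- The product of `a` and `b ∘ G` is a difference of plurisubharmonic potentials whose degree is
controlled by that of `G`. -/
theorem B_dom_mul (ha : LH 0 a) (hb : LH 0 b) : ∃ C : ℝ, 0 ≤ C ∧ ∀ (d : ℕ) (G : E n → E n),
    IsLift d G → ∃ q₀ q₁ : E n → ℝ, PL (C * (1 + d)) q₀ ∧ PL (C * (1 + d)) q₁ ∧
      ∀ z, a z * b (G z) = q₁ z - q₀ z := by
  obtain ⟨C, hC, h⟩ := B_levi_mul ha hb
  refine ⟨C, hC, fun d G hG => ?_⟩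
  have h0 : PL (C * (1 + d)) fun z => C * (lg z + lg (G z)) := by
    simpa only [one_mul] using (pl_lg.add (pl_lg.comp hG)).const_mul hC
  have h1 := ha.mul (hb.comp0 hG)
  refine ⟨_, fun z => C * (lg z + lg (G z)) + a z * b (G z), h0, ⟨?_, fun z hz v => ?_⟩,
    fun z => by ring⟩
  · simpa only [add_zero] using h0.lh.add h1
  · rw [levi_add (h0.lh.contDiffAt2 hz) (h1.contDiffAt2 hz), levi_const_mul,
      levi_add (lh_lg.contDiffAt2 hz) ((lh_lg.comp hG).contDiffAt2 hz)]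
    have := (abs_le.1 (h d G hG z hz v)).1
    linarith

end Pool.Agent.Lib.MP_a47f92_an
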