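import Pool.Agent.Lib.MP_a47f92_an.G.BStub
import Pool.Agent.Lib.MP_a47f92_an.G.BSeq
import Pool.Agent.Lib.MP_a47f92_an.G.BDom

set_option autoImplicit false
set_option linter.unusedSectionVars false

namespace Pool.Agent.Lib.MP_a47f92_an

open MeasureTheory Filter Topology Set Complex Metric Function
open scoped ContDiff ComplexConjugate ComplexOrder Matrix ENNReal NNReal

/-! Consequences of step 2. -/

variable {n d s : ℕ} {F : E n → E n} {τ φ φ' : Measure (Fr n s)} {Ψ Y Y' : Measure (Fr n (s + 1))}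
  {ν : Measure (E n)} {Z : Set (E n)} {δ : ℝ} {a : E n → ℝ}

theorem B_pps_gs (hF : IsLift d F) (hd : 1 ≤ d) (m p : ℕ) : PPs (gs d F m p) :=
  fun _ => ⟨1, pl_green hF hd m⟩

theorem B_pl_lg (hF : IsLift d F) (j : ℕ) : PL ((d : ℝ) ^ j) fun z => lg (F^[j] z) := by
  simpa only [one_mul, Nat.cast_pow] using pl_lg.comp (hF.iterate j)

/-- The push-forward paired with the Green forms. -/
theorem B_pr_lam_gs {S : Measure (Fr n s)} (hS : IsCur S) (hF : IsLift d F) (hd : 1 ≤ d)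
    (ha : LH 0 a) (j m : ℕ) :
    pr (lam d s F j S) a (gs d F m s) = pr S (fun z => a (F^[j] z)) (gs d F (m + j) s) := by
  have hd' : (0 : ℝ) < d := by exact_mod_cast hd
  rw [B_pr_lam hS hF hd s j ha (B_pps_gs hF hd m s).pots]
  simp only [green_comp hd]
  rw [B_pr_scale S _ (gs d F (m + j) s) fun _ => (d : ℝ) ^ j, Finset.prod_const, Finset.card_univ,
    Fintype.card_fin, ← pow_mul, mul_comm j s, ← mul_assoc, inv_mul_cancel₀ (by positivity), one_mul]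

theorem B_p1_lam_gs {S : Measure (Fr n (s + 1))} (hS : IsCur S) (hF : IsLift d F) (hd : 1 ≤ d)
    {w : E n → ℝ} {D : ℝ} (hw : LH D w) (j m : ℕ) :
    p1 (lam d s F j S) (Fin.cons w (gs d F m s)) =
      p1 S (Fin.cons (fun z => w (F^[j] z)) (gs d F (m + j) s)) := by
  have hd' : (0 : ℝ) < d := by exact_mod_cast hd
  unfold p1
  rw [B_pr_lam hS hF hd s j (lh_const 1) ((B_pps_gs hF hd m s).pots.cons hw)]
  have e : (fun l z => (Fin.cons w (gs d F m s) : Fin (s + 1) → E n → ℝ) l (F^[j] z)) =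
      fun l z => (Fin.cons 1 (fun _ => (d : ℝ) ^ j) : Fin (s + 1) → ℝ) l *
        (Fin.cons (fun z => w (F^[j] z)) (gs d F (m + j) s) : Fin (s + 1) → E n → ℝ) l z := by
    funext l z
    refine Fin.cases ?_ (fun l => ?_) l
    · simp only [Fin.cons_zero, one_mul]
    · simp only [Fin.cons_succ, green_comp hd]
  rw [e, B_pr_scale, Fin.prod_univ_succ, Fin.cons_zero, one_mul]
  simp only [Fin.cons_succ]
  rw [Finset.prod_const, Finset.card_univ, Fintype.card_fin, ← pow_mul, mul_comm j s, ← mul_assoc,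
    inv_mul_cancel₀ (by positivity), one_mul]

/-- The basic quantities. -/
noncomputable def cjl (d s : ℕ) (F : E n → E n) (Y : Measure (Fr n (s + 1))) (j l : ℕ) : ℝ :=
  p1 Y (Fin.cons (fun z => lg (F^[j] z)) (gs d F l s))

theorem B_cjl_nonneg (hF : IsLift d F) (hd : 1 ≤ d) (hY : IsCur Y) (j l : ℕ) :
    0 ≤ cjl d s F Y j l :=
  B_p1_nonneg hY ((B_pps_gs hF hd l s).cons (B_pl_lg hF j))

theorem B_mass_lam (hF : IsLift d F) (hd : 1 ≤ d) (hY : IsCur Y) (i : ℕ) :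
    mass (lam d s F i Y) = cjl d s F Y i i := by
  have e : (fun _ => lg : Fin (s + 1) → E n → ℝ) = Fin.cons lg (gs d F 0 s) := by
    funext l
    refine Fin.cases rfl (fun l => ?_) l
    simp only [Fin.cons_succ, green_zero]
  rw [mass, e, B_p1_lam_gs hY hF hd lh_lg, zero_add, cjl]

theorem Dyn.B_d (h : Dyn d s F τ φ φ' Ψ Y Y' ν Z δ) : 1 ≤ d := le_trans one_le_two h.hd

theorem Dyn.B_psi (h : Dyn d s F τ φ φ' Ψ Y Y' ν Z δ) (j l : ℕ) :
    cjl d s F Ψ j l = cjl d s F Y j l - cjl d s F Y (j + 1) (l + 1) := by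
  rw [cjl, h.psi _ ((B_pps_gs h.hF h.B_d l s).pots.cons (B_pl_lg h.hF j).lh),
    B_p1_lam_gs h.cY h.hF h.B_d (B_pl_lg h.hF j).lh]
  rfl

theorem Dyn.B_y0 (h : Dyn d s F τ φ φ' Ψ Y Y' ν Z δ) :
    Tendsto (fun i => cjl d s F Y i i) atTop (𝓝 0) := by
  simpa only [B_mass_lam h.hF h.B_d h.cY] using h.y0

theorem Dyn.B_cmpY (h : Dyn d s F τ φ φ' Ψ Y Y' ν Z δ) : ∃ C : ℝ, 0 ≤ C ∧ ∀ j k l l', k ≤ l → k ≤ l' →
    |cjl d s F Y j l - cjl d s F Y j l'| ≤ C * (d : ℝ) ^ j * ((d : ℝ) ^ k)⁻¹ := by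
  obtain ⟨C, hC, h1⟩ := B_green_cauchy h.hF h.hd
  refine ⟨2 * s * C, by positivity, fun j k l l' hl hl' => ?_⟩
  refine (B_ddc_cmp h.cY h.dY h.cφ h.cτ (B_pl_lg h.hF j) (pl_green h.hF h.B_d l)
    (pl_green h.hF h.B_d l') fun z hz => h1 k l l' z hz hl hl').trans_eq ?_
  ring

theorem Dyn.B_tail (h : Dyn d s F τ φ φ' Ψ Y Y' ν Z δ) {ε : ℝ} (hε : 0 < ε) :
    ∃ N, ∀ T : Finset ℕ, (∀ j ∈ T, N ≤ j) → ∑ j ∈ T, cjl d s F Ψ j j ≤ ε := by
  obtain ⟨N, hN⟩ := (h.B_y0.eventually (ge_mem_nhds hε)).exists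
  refine ⟨N, fun T hT => ?_⟩
  obtain ⟨M, hM⟩ := T.bddAbove
  have hs : T ⊆ Finset.Ico N (N + (M + 1)) := fun j hj => by
    have := hM hj
    have := hT j hj
    rw [Finset.mem_Ico]
    omega
  refine (Finset.sum_le_sum_of_subset_of_nonneg hs fun j _ _ =>
    B_cjl_nonneg h.hF h.B_d h.cΨ j j).trans ?_
  rw [Finset.sum_Ico_eq_sum_range, Nat.add_sub_cancel_left]
  simp only [h.B_psi]
  have := Finset.sum_range_sub' (fun k => cjl d s F Y (N + k) (N + k)) (M + 1)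
  simp only [← add_assoc, add_zero] at this ⊢
  rw [this]
  linarith [B_cjl_nonneg h.hF h.B_d h.cY (N + M + 1) (N + M + 1)]

theorem Dyn.B_bsum (h : Dyn d s F τ φ φ' Ψ Y Y' ν Z δ) : ∃ C : ℝ, ∀ l J, J ≤ l →
    ∑ j ∈ Finset.range J, cjl d s F Ψ j l ≤ C := by
  obtain ⟨C, hC, h1⟩ := h.B_cmpY
  have hd' : (0 : ℝ) < d := by exact_mod_cast h.B_d
  refine ⟨cjl d s F Y 0 0 + C + C * 2, fun l J hJ => ?_⟩
  have e : ∀ j ∈ Finset.range J, cjl d s F Ψ j l ≤
      (cjl d s F Y j l - cjl d s F Y (j + 1) l) + C * ((d : ℝ) ^ (l - j - 1))⁻¹ := fun j hj => by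
    rw [Finset.mem_range] at hj
    have h2 := (abs_le.1 (h1 (j + 1) l l (l + 1) le_rfl l.le_succ)).2
    have e1 : C * (d : ℝ) ^ (j + 1) * ((d : ℝ) ^ l)⁻¹ = C * ((d : ℝ) ^ (l - j - 1))⁻¹ := by
      obtain ⟨k, rfl⟩ : ∃ k, l = k + (j + 1) := ⟨l - (j + 1), by omega⟩
      rw [show k + (j + 1) - j - 1 = k by omega, pow_add _ k]
      field_simp
    rw [h.B_psi]
    linarith
  refine (Finset.sum_le_sum e).trans ?_
  rw [Finset.sum_add_distrib, Finset.sum_range_sub', ← Finset.mul_sum]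
  have h2 := (abs_le.1 (h1 0 0 l 0 l.zero_le le_rfl)).2
  have h3 := mul_le_mul_of_nonneg_left (B_sum_pow_inv h.hd l J hJ) hC
  simp only [pow_zero, inv_one, mul_one] at h2
  linarith [B_cjl_nonneg h.hF h.B_d h.cY J l]

theorem B_cjl_le (hF : IsLift d F) (hd : 1 ≤ d) (hY : IsCur Y) (m : ℕ) :
    ∃ C : ℝ, 0 ≤ C ∧ ∀ i, cjl d s F Y i (m + i) ≤ C * cjl d s F Y i i := by
  obtain ⟨C, hC, -, h2⟩ := (pl_green hF hd m).lh.dom
  refine ⟨C ^ s, by positivity, fun i => ?_⟩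
  have hi := B_cur_lam hY hF hd s i
  have e1 := B_p1_lam_gs hY hF hd lh_lg i m
  have e2 := B_p1_lam_gs hY hF hd lh_lg i 0
  rw [zero_add] at e2
  rw [cjl, cjl, ← e1, ← e2]
  have e3 := B_pr_scale (lam d s F i Y) (fun _ => 1) (Fin.cons lg (gs d F 0 s))
    (Fin.cons 1 fun _ => C)
  rw [Fin.prod_univ_succ, Fin.cons_zero, one_mul] at e3
  simp only [Fin.cons_succ, Finset.prod_const, Finset.card_univ, Fintype.card_fin] at e3
  refine le_of_le_of_eq (B_p1_mono hi ((B_pps_gs hF hd m s).cons pl_lg) fun l => ?_) e3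
  refine Fin.cases ⟨0 * 1, (pl_lg.const_mul le_rfl).congr fun z _ => ?_⟩
    (fun l => ⟨_, h2.congr fun z _ => ?_⟩) l
  · simp only [Fin.cons_zero]
    ring
  · simp only [Fin.cons_succ, green_zero]

theorem Dyn.B_small (h : Dyn d s F τ φ φ' Ψ Y Y' ν Z δ) {ε : ℝ} (hε : 0 < ε) :
    ∃ N, ∀ i m, N ≤ i → N ≤ m → cjl d s F Y i (i + m) ≤ ε := by
  obtain ⟨C, hC, h1⟩ := h.B_cmpY
  have hd' : (0 : ℝ) < d := by exact_mod_cast h.B_d
  obtain ⟨m₀, hm₀⟩ := ((B_pow_inv_tendsto h.hd C).eventually (ge_mem_nhds (half_pos hε))).exists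
  obtain ⟨C', -, h2⟩ := B_cjl_le h.hF h.B_d h.cY m₀
  have h3 : Tendsto (fun i => C' * cjl d s F Y i i) atTop (𝓝 0) := by
    simpa using h.B_y0.const_mul C'
  obtain ⟨N, hN⟩ := eventually_atTop.1 (h3.eventually (ge_mem_nhds (half_pos hε)))
  refine ⟨max N m₀, fun i m hi hm => ?_⟩
  have h4 := (abs_le.1 (h1 i (m₀ + i) (i + m) (m₀ + i) (by omega) le_rfl)).2
  have e1 : C * (d : ℝ) ^ i * ((d : ℝ) ^ (m₀ + i))⁻¹ = C * ((d : ℝ) ^ m₀)⁻¹ := by
    rw [pow_add]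
    field_simp
  linarith [h2 i, hN i (le_of_max_le_left hi)]

/-- Invariance under all iterates. -/
theorem B_inv_iter {S : Measure (Fr n s)} (hS : IsCur S) (hF : IsLift d F) (hd : 1 ≤ d)
    (h : Eqv (lam d s F 1 S) S) (j : ℕ) : Eqv (lam d s F j S) S := by
  have hd' : (0 : ℝ) < d := by exact_mod_cast hd
  induction j with
  | zero =>
    intro a ha q hq
    rw [B_pr_lam hS hF hd s 0 ha hq]
    simp
  | succ j ih =>
    intro a ha q hq
    have h1 := h _ (ha.comp0 (hF.iterate j)) _ (hq.comp (hF.iterate j))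
    rw [B_pr_lam hS hF hd s 1 (ha.comp0 (hF.iterate j)) (hq.comp (hF.iterate j))] at h1
    rw [← ih a ha q hq, B_pr_lam hS hF hd s j ha hq, ← h1, B_pr_lam hS hF hd s (j + 1) ha hq,
      ← mul_assoc, ← mul_inv, ← pow_add, ← mul_add]
    rfl

theorem Dyn.B_tau (h : Dyn d s F τ φ φ' Ψ Y Y' ν Z δ) (ha : LH 0 a) (j m : ℕ) :
    pr τ (fun z => a (F^[j] z)) (gs d F (m + j) s) = pr τ a (gs d F m s) := by
  rw [← B_pr_lam_gs h.cτ.cur h.hF h.B_d ha,
    B_inv_iter h.cτ.cur h.hF h.B_d h.inv j a ha _ (B_pps_gs h.hF h.B_d m s).pots]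

theorem Dyn.B_cv (h : Dyn d s F τ φ φ' Ψ Y Y' ν Z δ) {R : Measure (Fr n s)}
    {X : Measure (Fr n (s + 1))} (hX : IsCur X) (hD : DDC X R τ) (hle : LeP X Y) :
    CV d s F R ν := by
  intro a ha ε hε
  obtain ⟨C, hC, h1, h2⟩ := ha.dom
  obtain ⟨N, hN⟩ := h.B_small (ε := ε / 2 / (C + 1)) (by positivity)
  obtain ⟨N', hN'⟩ := Metric.tendsto_atTop.1 (h.eq.lim a ha) (ε / 2) (half_pos hε)
  refine ⟨max N N', fun i m hi hm => ?_⟩
  have hg := B_pps_gs h.hF h.B_d (i + m) s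
  have e1 := hD _ (ha.comp0 (h.hF.iterate i)) _ hg.pots
  have e2 := h.B_tau ha i m
  rw [add_comm m i] at e2
  have h3 := hN' m (le_of_max_le_right hm)
  rw [Real.dist_eq] at h3
  have h4 := hN i m (le_of_max_le_left hi) (le_of_max_le_left hm)
  have h5 := B_p1_abs hX hg (w := fun z => C * lg (F^[i] z)) (ha.comp0 (h.hF.iterate i))
    (by simpa only [add_zero] using h1.comp (h.hF.iterate i))
    (by simpa only [sub_zero] using h2.comp (h.hF.iterate i))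
  have h6 := hle _ (hg.cons ((B_pl_lg h.hF i).const_mul hC))
  have e3 := B_pr_scale Y (fun _ => 1) (Fin.cons (fun z => lg (F^[i] z)) (gs d F (i + m) s))
    (Fin.cons C fun _ => 1)
  have e4 : (fun l z => (Fin.cons C (fun _ => 1) : Fin (s + 1) → ℝ) l *
      (Fin.cons (fun z => lg (F^[i] z)) (gs d F (i + m) s) : Fin (s + 1) → E n → ℝ) l z) =
      Fin.cons (fun z => C * lg (F^[i] z)) (gs d F (i + m) s) := by
    funext l z
    refine Fin.cases rfl (fun l => ?_) l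
    simp only [Fin.cons_succ, one_mul]
  rw [e4, Fin.prod_univ_succ, Fin.cons_zero] at e3
  simp only [Fin.cons_succ, Finset.prod_const_one, mul_one] at e3
  have h7 : C * cjl d s F Y i (i + m) ≤ ε / 2 := by
    have h8 := B_cjl_nonneg h.hF h.B_d h.cY i (i + m)
    rw [le_div_iff₀ (by positivity)] at h4
    nlinarith
  have h8 : p1 Y (Fin.cons (fun z => C * lg (F^[i] z)) (gs d F (i + m) s)) =
    C * cjl d s F Y i (i + m) := e3
  rw [e1, e2] at h5
  rw [abs_le] at h5 ⊢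
  rw [abs_lt] at h3
  constructor <;> linarith [h5.1, h5.2, h3.1, h3.2]

theorem Dyn.B_prob (h : Dyn d s F τ φ φ' Ψ Y Y' ν Z δ) : IsProbabilityMeasure ν := by
  have h1 := h.eq.lim _ (lh_const 1)
  have e : ∀ m, pr τ (fun _ => 1) (fun _ => green d F m) = 1 := fun m => by
    have := B_p1_coh h.cτ (q := gs d F m s) (D := fun _ => 1) fun _ => (pl_green h.hF h.B_d m).lh
    rwa [Finset.prod_const_one] at this
  simp only [e] at h1
  have h2 := tendsto_nhds_unique h1 tendsto_const_nhds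
  have := h.eq.fin
  rw [integral_const, smul_eq_mul, mul_one, Measure.real, ENNReal.toReal_eq_one_iff] at h2
  exact ⟨h2⟩

theorem Dyn.B_inv (h : Dyn d s F τ φ φ' Ψ Y Y' ν Z δ) (ha : LH 0 a) (j : ℕ) :
    ∫ z, a (F^[j] z) ∂ν = ∫ z, a z ∂ν := by
  have h1 := (h.eq.lim _ (ha.comp0 (h.hF.iterate j))).comp (tendsto_add_atTop_nat j)
  refine tendsto_nhds_unique h1 ((h.eq.lim a ha).congr fun m => (h.B_tau ha j m).symm)

end Pool.Agent.Lib.MP_a47f92_an
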