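import Pool.Agent.Lib.MP_a47f92_an.G.BCv

set_option autoImplicit false
set_option linter.unusedSectionVars false

namespace Pool.Agent.Lib.MP_a47f92_an

open MeasureTheory Filter Topology Set Complex Metric Function
open scoped ContDiff ComplexConjugate ComplexOrder Matrix ENNReal NNReal

/-! Step 4: limits of Cesàro means of push-forwards. -/

variable {n p d s : ℕ} {F : E n → E n} {τ φ φ' : Measure (Fr n s)} {Ψ Y Y' : Measure (Fr n (s + 1))}
  {ν : Measure (E n)} {Z : Set (E n)} {δ : ℝ} {a b χ : E n → ℝ}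

theorem B_tst {q : Fin p → E n → ℝ} (ha : LH 0 a) (hq : Pots q) :
    Tst fun x : Fr n p => (a x.1 : ℂ) * dc q x := (tst_dc hq).mul_left ha.ic

theorem B_pr_bound {q : Fin p → E n → ℝ} (ha : LH 0 a) (hq : Pots q) :
    ∃ C : ℝ, 0 ≤ C ∧ ∀ S : Measure (Fr n p), IsCur S → |pr S a q| ≤ C * mass S := by
  obtain ⟨C, hC, h⟩ := (B_tst ha hq).bound
  refine ⟨C, hC, fun S hS => ?_⟩
  rw [B_pr_eq hS ha hq]
  refine (abs_re_le_norm _).trans ((norm_integral_le_integral_norm _).trans ?_)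
  rw [mass, p1, pr, ← integral_const_mul]
  refine integral_mono_ae (B_int hS (B_tst ha hq)).norm ((hS.int.const_mul 1).const_mul C) ?_
  filter_upwards [hS.ne] with x hx
  refine (h x hx).trans_eq ?_
  rw [dens, dn, if_neg hx, one_mul]
  rfl

theorem B_pr_add {S : Measure (Fr n p)} {q : Fin p → E n → ℝ} (hS : IsCur S) (ha : LH 0 a)
    (hb : LH 0 b) (hq : Pots q) : pr S (fun z => a z + b z) q = pr S a q + pr S b q := by
  have hab : LH 0 fun z => a z + b z := by simpa only [add_zero] using ha.add hb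
  rw [B_pr_eq hS ha hq, B_pr_eq hS hb hq, B_pr_eq hS hab hq, ← add_re,
    ← integral_add (B_int hS (B_tst ha hq)) (B_int hS (B_tst hb hq))]
  simp only [ofReal_add, add_mul]

theorem B_cur_add {S S' : Measure (Fr n p)} (hS : IsCur S) (hS' : IsCur S') : IsCur (S + S') := by
  have := hS.sf
  have := hS'.sf
  exact ⟨inferInstance, ae_add_measure_iff.2 ⟨hS.ne, hS'.ne⟩, hS.int.add_measure hS'.int⟩

theorem B_pr_add_meas {S S' : Measure (Fr n p)} {q : Fin p → E n → ℝ} (hS : IsCur S)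
    (hS' : IsCur S') (ha : LH 0 a) (hq : Pots q) : pr (S + S') a q = pr S a q + pr S' a q := by
  rw [B_pr_eq hS ha hq, B_pr_eq hS' ha hq, B_pr_eq (B_cur_add hS hS') ha hq, ← add_re,
    integral_add_measure (B_int hS (B_tst ha hq)) (B_int hS' (B_tst ha hq))]

/-- Cesàro means of currents. -/
noncomputable def avg (T : ℕ → Measure (Fr n p)) (N : ℕ) : Measure (Fr n p) :=
  ENNReal.ofReal (N : ℝ)⁻¹ • ∑ j ∈ Finset.range N, T j

theorem B_cur_avg {T : ℕ → Measure (Fr n p)} (hT : ∀ j, IsCur (T j)) (N : ℕ) : IsCur (avg T N) := by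
  have h : IsCur (∑ j ∈ Finset.range N, T j) := by
    induction N with
    | zero => exact ⟨inferInstanceAs (SFinite (0 : Measure (Fr n p))), by simp, by simp⟩
    | succ N ih => rw [Finset.sum_range_succ]; exact B_cur_add ih (hT N)
  have := h.sf
  exact ⟨inferInstanceAs (SFinite (_ • _)), Measure.ae_smul_measure h.ne _,
    h.int.smul_measure ENNReal.ofReal_ne_top⟩

theorem B_int_avg {T : ℕ → Measure (Fr n p)} (hT : ∀ j, IsCur (T j)) (N : ℕ) {g : Fr n p → ℂ}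
    (hg : Tst g) : ∫ x, g x ∂avg T N = (N : ℝ)⁻¹ • ∑ j ∈ Finset.range N, ∫ x, g x ∂T j := by
  rw [avg, integral_smul_measure, integral_finsetSum_measure fun j _ => B_int (hT j) hg,
    ENNReal.toReal_ofReal (by positivity)]

theorem B_pr_avg {T : ℕ → Measure (Fr n p)} (hT : ∀ j, IsCur (T j)) (N : ℕ)
    {q : Fin p → E n → ℝ} (ha : LH 0 a) (hq : Pots q) :
    pr (avg T N) a q = cs0 (fun j => pr (T j) a q) N := by
  rw [B_pr_eq (B_cur_avg hT N) ha hq, B_int_avg hT N (B_tst ha hq), smul_re, re_sum, cs0,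
    smul_eq_mul]
  simp only [B_pr_eq (hT _) ha hq]

theorem B_lam_succ {S : Measure (Fr n p)} {q : Fin p → E n → ℝ} (hS : IsCur S) (hF : IsLift d F)
    (hd : 1 ≤ d) (s j : ℕ) (ha : LH 0 a) (hq : Pots q) :
    pr (lam d s F (j + 1) S) a q = ((d : ℝ) ^ (s * 1))⁻¹ *
      pr (lam d s F j S) (fun z => a (F^[1] z)) fun l z => q l (F^[1] z) := by
  rw [B_pr_lam hS hF hd s _ ha hq,
    B_pr_lam hS hF hd s j (ha.comp0 (hF.iterate 1)) (hq.comp (hF.iterate 1)),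
    ← mul_assoc, ← mul_inv, ← pow_add, ← mul_add, add_comm 1 j]
  simp only [iterate_succ_apply', iterate_zero_apply]

theorem Dyn.B_mass (h : Dyn d s F τ φ φ' Ψ Y Y' ν Z δ) (hχ : LH 0 χ) (h0 : ∀ z, 0 ≤ χ z) (j : ℕ) :
    mass (lam d s F j (mlt τ χ)) = pr τ χ (gs d F j s) := by
  have h1 := B_pr_lam_gs (B_cur_mlt h.cτ.cur hχ h0) h.hF h.B_d (lh_const 1) j 0
  rw [zero_add, B_pr_mlt h.cτ.cur hχ h0 (lh_const 1) (B_pps_gs h.hF h.B_d j s).pots] at h1
  have e : gs d F 0 s = fun _ => lg := funext fun _ => green_zero d F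
  simp only [e, mul_one] at h1
  exact h1

theorem Dyn.B_mass_le (h : Dyn d s F τ φ φ' Ψ Y Y' ν Z δ) (hχ : LH 0 χ) (h0 : ∀ z, 0 ≤ χ z)
    (h1 : ∀ z, χ z ≤ 1) (j : ℕ) : mass (lam d s F j (mlt τ χ)) ≤ 1 := by
  have h2 := B_pr_abs h.cτ.cur hχ (B_pps_gs h.hF h.B_d j s) (C := 1) fun z => by
    rw [abs_of_nonneg (h0 z)]; exact h1 z
  rw [B_p1_coh h.cτ (D := fun _ => 1) fun _ => (pl_green h.hF h.B_d j).lh,
    Finset.prod_const_one, mul_one] at h2
  rw [h.B_mass hχ h0]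
  exact (le_abs_self _).trans h2

theorem Dyn.B_lim (h : Dyn d s F τ φ φ' Ψ Y Y' ν Z δ) (hχ : LH 0 χ) (h0 : ∀ z, 0 ≤ χ z)
    (h1 : ∀ z, χ z ≤ 1) (U : Ultrafilter ℕ) (hU : (U : Filter ℕ) ≤ atTop) :
    ∃ τ₁ : Measure (Fr n s), IsCur τ₁ ∧ Closed τ₁ ∧ Eqv (lam d s F 1 τ₁) τ₁ ∧
      ∀ b, LH 0 b → ∀ q, Pots q →
        Tendsto (cs0 fun j => pr (lam d s F j (mlt τ χ)) b q) U (𝓝 (pr τ₁ b q)) := by
  have hR := B_cur_mlt h.cτ.cur hχ h0
  have hT : ∀ j, IsCur (lam d s F j (mlt τ χ)) := B_cur_lam hR h.hF h.B_d s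
  obtain ⟨τ₁, c1, hl⟩ := B_cpt (avg fun j => lam d s F j (mlt τ χ)) (B_cur_avg hT) (C := 1)
    (fun N => by
      rw [mass, p1, B_pr_avg hT N (lh_const 1) fun _ => ⟨1, lh_lg⟩]
      refine (le_abs_self _).trans (B_cs_abs_le zero_le_one (fun j => ?_) N)
      exact (abs_of_nonneg (B_p1_nonneg (hT j) fun _ => ⟨1, pl_lg⟩)).trans_le
        (h.B_mass_le hχ h0 h1 j)) U
  have key : ∀ b, LH 0 b → ∀ q, Pots q →
      Tendsto (cs0 fun j => pr (lam d s F j (mlt τ χ)) b q) U (𝓝 (pr τ₁ b q)) := by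
    intro b hb q hq
    have h2 := (continuous_re.tendsto _).comp (hl _ (B_tst hb hq))
    rw [← B_pr_eq c1 hb hq] at h2
    refine h2.congr fun N => ?_
    rw [comp_apply, ← B_pr_eq (B_cur_avg hT N) hb hq, B_pr_avg hT N hb hq]
  refine ⟨τ₁, c1, fun a b ha hb q hq l => ?_, fun b hb q hq => ?_, key⟩
  · have h2 := hl _ (tst_dx ha.ic hb.ic hq l)
    simp only [B_int_avg hT _ (tst_dx ha.ic hb.ic hq l)] at h2
    exact tendsto_nhds_unique h2
      ((B_alm h.cτ h.hF h.hd hχ h0 ha hb hq l).cesaro_smul.mono_left hU)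
  · obtain ⟨C, hC, h2⟩ := B_pr_bound hb hq
    have h3 := (B_cs_shift (u := fun j => pr (lam d s F j (mlt τ χ)) b q) (c := C) fun j =>
      (h2 _ (hT j)).trans (mul_le_of_le_one_right hC (h.B_mass_le hχ h0 h1 j))).mono_left hU
    have h4 := (key _ (hb.comp0 (h.hF.iterate 1)) _ (hq.comp (h.hF.iterate 1))).const_mul
      ((d : ℝ) ^ (s * 1))⁻¹
    rw [← B_pr_lam c1 h.hF h.B_d s 1 hb hq] at h4
    simp only [← B_cs_mul, ← B_lam_succ hR h.hF h.B_d s _ hb hq] at h4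
    exact sub_eq_zero.1 (tendsto_nhds_unique (h4.sub (key b hb q hq)) h3)

theorem B_cs_const (c : ℝ) : Tendsto (cs0 fun _ => c) atTop (𝓝 c) :=
  B_cs_of_tendsto tendsto_const_nhds

theorem Dyn.B_ces (h : Dyn d s F τ φ φ' Ψ Y Y' ν Z δ) (hχ : LH 0 χ) (h0 : ∀ z, 0 ≤ χ z)
    (h1 : ∀ z, χ z ≤ 1) (hb : LH 0 b) {q : Fin s → E n → ℝ} (hq : Pots q) :
    Tendsto (cs0 fun j => pr (lam d s F j (mlt τ χ)) b q) atTop (𝓝 ((∫ z, χ z ∂ν) * pr τ b q)) := by
  refine (tendsto_iff_ultrafilter _ _ _).2 fun U hU => ?_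
  have hχ' : LH 0 fun z => 1 - χ z := by simpa only [sub_zero] using (lh_const 1).sub hχ
  have h0' : ∀ z, 0 ≤ 1 - χ z := fun z => sub_nonneg.2 (h1 z)
  obtain ⟨τ₁, c1, d1, i1, l1⟩ := h.B_lim hχ h0 h1 U hU
  obtain ⟨τ₂, c2, d2, -, l2⟩ := h.B_lim hχ' h0' (fun z => sub_le_self _ (h0 z)) U hU
  have hs : Eqv (τ₁ + τ₂) τ := fun a ha q hq => by
    rw [B_pr_add_meas c1 c2 ha hq]
    refine tendsto_nhds_unique ((l1 a ha q hq).add (l2 a ha q hq))
      (((B_cs_const (pr τ a q)).mono_left hU).congr fun N => ?_)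
    rw [← B_cs_add]
    congr 1
    funext j
    have ha' := ha.comp0 (h.hF.iterate j)
    have hq' := hq.comp (h.hF.iterate j)
    rw [← B_inv_iter h.cτ.cur h.hF h.B_d h.inv j a ha q hq,
      B_pr_lam (B_cur_mlt h.cτ.cur hχ h0) h.hF h.B_d s j ha hq,
      B_pr_lam (B_cur_mlt h.cτ.cur hχ' h0') h.hF h.B_d s j ha hq,
      B_pr_lam h.cτ.cur h.hF h.B_d s j ha hq, B_pr_mlt h.cτ.cur hχ h0 ha' hq',
      B_pr_mlt h.cτ.cur hχ' h0' ha' hq', ← mul_add,
      ← B_pr_add h.cτ.cur (hχ.mul ha') (hχ'.mul ha') hq']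
    congr 2
    funext z
    ring
  have hm : mass τ₁ = ∫ z, χ z ∂ν := by
    refine tendsto_nhds_unique (l1 _ (lh_const 1) _ fun _ => ⟨1, lh_lg⟩)
      (((B_cs_of_tendsto (h.eq.lim χ hχ)).mono_left hU).congr fun N => ?_)
    congr 1
    funext j
    exact (h.B_mass hχ h0 j).symm
  rw [← hm, ← h.ext τ₁ τ₂ c1 c2 d1 d2 hs i1 b hb q hq]
  exact l1 b hb q hq

theorem Dyn.B_mix1 (h : Dyn d s F τ φ φ' Ψ Y Y' ν Z δ) (hχ : LH 0 χ) (h0 : ∀ z, 0 ≤ χ z)
    (h1 : ∀ z, χ z ≤ 1) (ha : LH 0 a) :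
    Tendsto (cs0 fun j => ∫ z, χ z * a (F^[j] z) ∂ν) atTop (𝓝 ((∫ z, χ z ∂ν) * ∫ z, a z ∂ν)) := by
  refine B_cs_approx fun ε hε => ?_
  have hd' : (1 : ℝ) ≤ d := by exact_mod_cast h.B_d
  obtain ⟨C, hC, h2⟩ := B_dom_mul hχ ha
  obtain ⟨C', hC', h3⟩ := B_green_cauchy h.hF h.hd
  obtain ⟨m, hm, hm'⟩ := (((B_pow_inv_tendsto h.hd (4 * s * C * C')).eventually
    (ge_mem_nhds hε)).and (Metric.tendsto_nhds.1 (h.eq.lim a ha) ε hε)).exists
  have hg := (B_pps_gs h.hF h.B_d m s).pots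
  refine ⟨_, _, fun j => ?_, ?_, h.B_ces hχ h0 h1 ha hg⟩
  · have ha' := ha.comp0 (h.hF.iterate j)
    rw [B_pr_lam_gs (B_cur_mlt h.cτ.cur hχ h0) h.hF h.B_d ha,
      B_pr_mlt h.cτ.cur hχ h0 ha' (B_pps_gs h.hF h.B_d _ s).pots]
    obtain ⟨q₀, q₁, p0, p1, e⟩ := h2 _ _ (h.hF.iterate j)
    refine le_of_tendsto (((h.eq.lim _ (hχ.mul ha')).sub_const _).abs) ?_
    filter_upwards [eventually_ge_atTop (m + j)] with l hl
    refine (B_cmp h.cτ p0 p1 e (pl_green h.hF h.B_d l) (pl_green h.hF h.B_d (m + j))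
      fun z hz => h3 (m + j) l (m + j) z hz hl le_rfl).trans (le_trans ?_ hm)
    have h4 : (1 : ℝ) ≤ (d : ℝ) ^ j := one_le_pow₀ hd'
    have e1 : 4 * s * C * C' * ((d : ℝ) ^ m)⁻¹ =
        2 * s * (C * (2 * (d : ℝ) ^ j)) * (C' * ((d : ℝ) ^ (m + j))⁻¹) := by
      rw [pow_add]
      field_simp
      ring
    rw [e1, Nat.cast_pow]
    gcongr
    linarith
  · have := h.B_prob
    have h4 : |∫ z, χ z ∂ν| ≤ 1 := by
      simpa using norm_integral_le_of_norm_le_const (μ := ν) (f := χ) (C := 1)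
        (.of_forall fun z => by rw [Real.norm_of_nonneg (h0 z)]; exact h1 z)
    rw [Real.dist_eq, abs_sub_comm] at hm'
    rw [← mul_sub, abs_mul]
    exact (mul_le_of_le_one_left (abs_nonneg _) h4).trans hm'.le

theorem Dyn.B_mix (h : Dyn d s F τ φ φ' Ψ Y Y' ν Z δ) (hb : LH 0 b) (ha : LH 0 a) :
    Tendsto (cs0 fun j => ∫ z, b z * a (F^[j] z) ∂ν) atTop (𝓝 ((∫ z, b z ∂ν) * ∫ z, a z ∂ν)) := by
  have := h.B_prob
  obtain ⟨C, hC, h1⟩ := hb.bound
  have hi : ∀ {u : E n → ℝ}, LH 0 u → Integrable u ν := fun hu => by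
    obtain ⟨K, -, hK⟩ := hu.bound
    exact .of_bound hu.measurable.aestronglyMeasurable K (.of_forall hK)
  have hχ : LH 0 fun z => (2 * C + 1)⁻¹ * (b z + C) := by
    simpa only [add_zero, mul_zero] using (hb.add (lh_const C)).const_mul (2 * C + 1)⁻¹
  have h2 := ((h.B_mix1 hχ (fun z => mul_nonneg (by positivity) (by linarith [abs_le.1 (h1 z)]))
    (fun z => by
      rw [inv_mul_le_iff₀ (by positivity)]
      linarith [abs_le.1 (h1 z)]) ha).const_mul (2 * C + 1)).sub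
        (B_cs_const (C * ∫ z, a z ∂ν))
  have e : (2 * C + 1) * ((∫ z, (2 * C + 1)⁻¹ * (b z + C) ∂ν) * ∫ z, a z ∂ν) - C * ∫ z, a z ∂ν =
      (∫ z, b z ∂ν) * ∫ z, a z ∂ν := by
    rw [integral_const_mul, integral_add (hi hb) (integrable_const C), integral_const,
      probReal_univ, one_smul]
    field_simp
    ring
  rw [e] at h2
  refine h2.congr fun N => ?_
  rw [← B_cs_mul, ← B_cs_sub]
  congr 1
  funext j
  have ha' := ha.comp0 (h.hF.iterate j)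
  rw [← h.B_inv ha j, ← integral_const_mul, ← integral_const_mul,
    ← integral_sub ((hi (hχ.mul ha')).const_mul _) ((hi ha').const_mul _)]
  congr 1
  funext z
  field_simp
  ring

end Pool.Agent.Lib.MP_a47f92_an
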