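import Pool.Agent.Lib.MP_a47f92_an.G.GInt

set_option autoImplicit false
set_option linter.unusedSectionVars false

namespace Pool.Agent.Lib.MP_a47f92_an

open MeasureTheory Filter Topology Set Complex Metric Function
open scoped ContDiff ComplexConjugate ComplexOrder Matrix ENNReal NNReal

/-! Interfaces between the blocks of the proof. -/

variable {n : ℕ}

/-- The output of steps 0 to 3. -/
structure Dyn (d s : ℕ) (F : E n → E n) (τ φ φ' : Measure (Fr n s))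
    (Ψ Y Y' : Measure (Fr n (s + 1))) (ν : Measure (E n)) (Z : Set (E n)) (δ : ℝ) : Prop where
  hF : IsLift d F
  hd : 2 ≤ d
  hs : s < n
  cτ : Cl1 τ
  cφ : Cl1 φ
  cφ' : Cl1 φ'
  cΨ : IsCur Ψ
  cY : IsCur Y
  cY' : IsCur Y'
  eq : IsEq d F τ ν
  inv : Eqv (lam d s F 1 τ) τ
  dY : DDC Y φ τ
  dY' : DDC Y' φ' τ
  dΨ : DDC Ψ φ (lam d s F 1 φ)
  le : LeP Y' Y
  psi : ∀ q, Pots q → p1 Ψ q = p1 Y q - p1 (lam d s F 1 Y) q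
  y0 : Tendsto (fun i => mass (lam d s F i Y)) atTop (𝓝 0)
  ext : ∀ τ₁ τ₂ : Measure (Fr n s), IsCur τ₁ → IsCur τ₂ → Closed τ₁ → Closed τ₂ →
    Eqv (τ₁ + τ₂) τ → Eqv (lam d s F 1 τ₁) τ₁ →
    ∀ a, LH 0 a → ∀ q, Pots q → pr τ₁ a q = mass τ₁ * pr τ a q
  cZ : CC Z
  δ0 : 0 < δ
  δ1 : δ ≤ 1 / 4
  onZ : ∀ i, 1 ≤ i → On (lam d s F i φ) Z
  lbφ : ∃ C : ℝ≥0, ∀ g, PT g → rf (nb δ Z) g ≤ C * lp φ g
  lbΨ : ∃ C : ℝ≥0, ∀ g, PT g → rf (nb δ Z) g ≤ C * lp Ψ g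
  ubφ' : ∃ C : ℝ≥0, ∀ g, PT g → lp φ' g ≤ C * rf (nb (δ / 4) Z) g

/-- Convergence of the push-forwards of `S` wedged with the Green forms. -/
def CV (d s : ℕ) (F : E n → E n) (S : Measure (Fr n s)) (ν : Measure (E n)) : Prop :=
  ∀ a, LH 0 a → ∀ ε : ℝ, 0 < ε → ∃ N, ∀ i m, N ≤ i → N ≤ m →
    |pr S (fun z => a (F^[i] z)) (gs d F (i + m) s) - ∫ z, a z ∂ν| ≤ ε

/-- The output of block B (consequences of step 2, and step 4). -/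
structure Mix (d s : ℕ) (F : E n → E n) (φ φ' : Measure (Fr n s)) (Ψ : Measure (Fr n (s + 1)))
    (ν : Measure (E n)) : Prop where
  prob : IsProbabilityMeasure ν
  tail : ∀ ε : ℝ, 0 < ε → ∃ N, ∀ T : Finset ℕ, (∀ j ∈ T, N ≤ j) →
    ∑ j ∈ T, p1 Ψ (Fin.cons (fun z => lg (F^[j] z)) (gs d F j s)) ≤ ε
  bsum : ∃ C : ℝ, ∀ l J, J ≤ l →
    ∑ j ∈ Finset.range J, p1 Ψ (Fin.cons (fun z => lg (F^[j] z)) (gs d F l s)) ≤ C
  cv : CV d s F φ ν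
  cv' : CV d s F φ' ν
  inv : ∀ a, LH 0 a → ∫ z, a (F z) ∂ν = ∫ z, a z ∂ν
  mix : ∀ a, LH 0 a → Tendsto (fun N : ℕ => (N : ℝ)⁻¹ * ∑ i ∈ Finset.range N,
    ∫ z, a z * a (F^[i] z) ∂ν) atTop (𝓝 ((∫ z, a z ∂ν) ^ 2))

/-- Two-sided estimates for the norms of the exterior powers under `S ∧ T_M ^ s`. -/
structure ExS (d s : ℕ) (F : E n → E n) (S : Measure (Fr n s)) (L : ℕ → ℝ) : Prop where
  low : ∀ p, ∃ C : ℝ, ∀ N : ℕ, N * L p - C ≤ pr S (hh d F p N) (gs d F N s)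
  up : ∀ p, ∀ ε : ℝ, 0 < ε → ∃ N₀, ∀ N M : ℕ, N₀ ≤ N → N ≤ M →
    pr S (hh d F p N) (gs d F M s) ≤ N * (L p + ε)

/-- The output of block C (step 5); `L p` is the sum of the `p` largest exponents, cut off at
`- log d`. -/
structure Ex (d s : ℕ) (F : E n → E n) (φ φ' : Measure (Fr n s)) (ν : Measure (E n))
    (L : ℕ → ℝ) : Prop where
  king : ∀ p, ∀ᵐ z ∂ν, Tendsto (fun N : ℕ => hh d F p N z / N) atTop (𝓝 (L p))
  avg : ∀ p, Tendsto (fun N : ℕ => (∫ z, hh d F p N z ∂ν) / N) atTop (𝓝 (L p))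
  exφ : ExS d s F φ L
  exφ' : ExS d s F φ' L
  gap1 : L (s + 1) ≤ L s
  gap2 : 1 ≤ s → L (s - 1) + Real.log d / 2 ≤ L s
  floor : -(Real.log d / 2) ≤ L s

/-- The plurisubharmonic potential of the conormal. -/
noncomputable def pe {s : ℕ} (d : ℕ) (F : E n → E n) (ℓ : E n →L[ℂ] E (s + 1)) (m : ℕ) (X : E n) : ℝ :=
  bt d F ℓ m X + (s + 1) * lg (F^[m] X)

/-- The curvature mass of the conormal. -/
noncomputable def gam {s : ℕ} (d : ℕ) (F : E n → E n) (Ψ : Measure (Fr n (s + 1))) (w m : ℕ)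
    (ℓ : E ((s + 1) * n)) : ℝ :=
  p1 Ψ (Fin.cons (fun z => pe d F (mt (s + 1) n ℓ) m (F^[w] z)) (gs d F (w + m) s))

/-- The frame `J` at `z` is nearly optimal at the final time `i + w + m`, and for most leaves the
angle between its image at time `i` and the leaf is at least `exp (-K)`. -/
def Ok (d s : ℕ) (F : E n → E n) (i w m : ℕ) (K : ℝ) (J : Fin s → Fin n) : Set (E n) :=
  {z | wn s (Bm F^[i + w + m] z) ^ 2 ≤ n ^ s * al F^[i + w + m] J z ^ 2 ∧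
    ub ((s + 1) * n) {ℓ | ‖th (mt (s + 1) n ℓ) F^[i + w + m] z (evs J)‖ <
      Real.exp (rg d i (al F^[i] J z) + bt d F (mt (s + 1) n ℓ) m (F^[i + w] z) - K)} ≤ 1 / 4}

/-- The output of block D (steps 6 and 7). The total time is `4 L`. -/
structure Good (d s : ℕ) (F : E n → E n) (φ' : Measure (Fr n s)) (Ψ : Measure (Fr n (s + 1))) :
    Prop where
  gam : ∀ ε : ℝ, 0 < ε → ∃ B₀, ∀ B, B₀ ≤ B → ∃ L₀, ∀ L, L₀ ≤ L →
    ∑ w ∈ Finset.Ico B (2 * B), ∑ m ∈ Finset.Ico L (2 * L),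
      ∫⁻ ℓ, ENNReal.ofReal (gam d F Ψ w m ℓ) ∂ub ((s + 1) * n) ≤ ENNReal.ofReal (ε * B * L)
  ang : ∀ ε : ℝ, 0 < ε → ∃ B₀, ∀ B, B₀ ≤ B → ∃ K : ℝ, 0 ≤ K ∧ ∃ L₀, ∀ L, L₀ ≤ L →
    ∑ w ∈ Finset.Ico B (2 * B), ∑ m ∈ Finset.Ico L (2 * L),
      wg φ' (gs d F (4 * L) s) (⋃ J, Ok d s F (4 * L - w - m) w m K J)ᶜ ≤
        ENNReal.ofReal (ε * B * L)

/-- The output of block E (steps 8 to 10). -/
def Est (F : E n → E n) (s : ℕ) (ν : Measure (E n)) : Prop :=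
  ∀ ε : ℝ, 0 < ε → ∃ M : ℝ, ∀ J, ν (CJ F s J M)ᶜ ≤ ENNReal.ofReal ε

end Pool.Agent.Lib.MP_a47f92_an
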