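import Pool.Agent.Lib.MP_a47f92_an.G.Cpt
import Pool.Agent.Lib.MP_a47f92_an.G.Alm
import Pool.Agent.Lib.MP_a47f92_an.G.Dyn

set_option autoImplicit false
set_option linter.unusedSectionVars false

namespace Pool.Agent.Lib.MP_a47f92_an

open MeasureTheory Filter Topology Set Complex Metric Function
open scoped ContDiff ComplexConjugate ComplexOrder Matrix ENNReal NNReal

variable {n p d : ℕ} {F : E n → E n} {S S' : Measure (Fr n p)} {a b : E n → ℝ}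
  {q q' : Fin p → E n → ℝ}

theorem B_pr_lam (hS : IsCur S) (hF : IsLift d F) (hd : 1 ≤ d) (s j : ℕ) (ha : LH 0 a) (hq : Pots q) :
    pr (lam d s F j S) a q =
      ((d : ℝ) ^ (s * j))⁻¹ * pr S (fun z => a (F^[j] z)) fun l z => q l (F^[j] z) :=
  hS.pr_lam hF hd s j ha.measurable hq

theorem B_cur_lam (hS : IsCur S) (hF : IsLift d F) (hd : 1 ≤ d) (s j : ℕ) :
    IsCur (lam d s F j S) :=
  hS.toLam hF hd s j

theorem B_pr_scale (S : Measure (Fr n p)) (a : E n → ℝ) (q : Fin p → E n → ℝ) (c : Fin p → ℝ) :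
    pr S a (fun l z => c l * q l z) = (∏ l, c l) * pr S a q :=
  pr_const_mul_all S a q c

theorem B_p1_coh (hS : Cl1 S) {D : Fin p → ℝ} (h : ∀ l, LH (D l) (q l)) : p1 S q = ∏ l, D l := by rw [hS.closed.p1_deg hS.cur h, hS.mass, mul_one]

theorem B_cmp (hS : Cl1 S) {D ε : ℝ} {q₀ q₁ u u' : E n → ℝ} (h0 : PL D q₀) (h1 : PL D q₁)
    (hb : ∀ z, b z = q₁ z - q₀ z) (hu : PL 1 u) (hu' : PL 1 u') (h : ∀ z, z ≠ 0 → |u z - u' z| ≤ ε) :
    |pr S b (fun _ => u) - pr S b (fun _ => u')| ≤ 2 * p * D * ε := by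
  have := hS.closed.cmp hS.cur h0 h1 (fun z _ => hb z) (q := fun _ => u') (q' := fun _ => u)
    (fun _ => hu') (fun _ => hu) fun _ => h
  rwa [hS.mass, mul_one] at this

theorem B_ddc_cmp {Y : Measure (Fr n (p + 1))} (hY : IsCur Y) (h : DDC Y S S') (hS : Cl1 S)
    (hS' : Cl1 S') {D ε : ℝ} {w u u' : E n → ℝ} (hw : PL D w) (hu : PL 1 u) (hu' : PL 1 u')
    (h' : ∀ z, z ≠ 0 → |u z - u' z| ≤ ε) :
    |p1 Y (Fin.cons w fun _ => u) - p1 Y (Fin.cons w fun _ => u')| ≤ 2 * p * D * ε :=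
  h.cmp_cons hY hS hS' hw (fun _ => hu') (fun _ => hu) fun _ => h'

theorem B_p1_nonneg (hS : IsCur S) (hq : PPs q) : 0 ≤ p1 S q :=
  hS.p1_nonneg hq

theorem B_p1_mono (hS : IsCur S) (hq : PPs q)
    (h : PPs fun l z => q' l z - q l z) : p1 S q ≤ p1 S q' :=
  hS.pr_mono (bm_const 1) (fun _ _ => zero_le_one) hq h

theorem B_p1_abs {Y : Measure (Fr n (p + 1))} (hY : IsCur Y) (hq : PPs q) {w : E n → ℝ} {D : ℝ}
    (ha : LH 0 a) (h1 : PL D fun z => w z + a z) (h2 : PL D fun z => w z - a z) :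
    |p1 Y (Fin.cons a q)| ≤ p1 Y (Fin.cons w q) := by
  have hw : LH D w := by
    simpa only [sub_zero, add_sub_cancel_right] using h1.lh.sub ha
  have e1 := hY.p1_nonneg (hq.cons h1)
  have e2 := hY.p1_nonneg (hq.cons h2)
  unfold p1 at e1 e2 ⊢
  rw [hY.pr_cons_add (bm_const 1) hq.pots hw ha] at e1
  rw [hY.pr_cons_sub (bm_const 1) hq.pots hw ha] at e2
  rw [abs_le]
  constructor <;> linarith

theorem B_pr_mlt (_ : IsCur S) {χ : E n → ℝ} (hχ : LH 0 χ) (h0 : ∀ z, 0 ≤ χ z) (_ : LH 0 a)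
    (_ : Pots q) : pr (mlt S χ) a q = pr S (fun z => χ z * a z) q :=
  pr_mlt S hχ.measurable h0 a q

theorem B_cur_mlt (hS : IsCur S) {χ : E n → ℝ} (hχ : LH 0 χ) (_ : ∀ z, 0 ≤ χ z) :
    IsCur (mlt S χ) :=
  hS.toMlt hχ.bm

theorem B_int (hS : IsCur S) {g : Fr n p → ℂ} (hg : Tst g) : Integrable g S :=
  hS.integrable hg

theorem B_pr_eq (hS : IsCur S) (_ : LH 0 a) (hq : Pots q) :
    pr S a q = (∫ x, (a x.1 : ℂ) * dc q x ∂S).re := by rw [← hS.pr_eqC a hq, ofReal_re]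

theorem B_pr_abs (hS : IsCur S) (_ : LH 0 a) (hq : PPs q) {C : ℝ} (h : ∀ z, |a z| ≤ C) :
    |pr S a q| ≤ C * p1 S q :=
  hS.abs_pr_le (fun z _ => h z) hq

theorem B_cpt (T : ℕ → Measure (Fr n p)) (hT : ∀ k, IsCur (T k)) {C : ℝ} (hC : ∀ k, mass (T k) ≤ C)
    (U : Ultrafilter ℕ) : ∃ T', IsCur T' ∧
      ∀ g, Tst g → Tendsto (fun k => ∫ x, g x ∂T k) U (𝓝 (∫ x, g x ∂T')) :=
  exists_lim U hT hC

theorem B_alm (hS : Cl1 S) (hF : IsLift d F) (hd : 2 ≤ d) {χ : E n → ℝ} (hχ : LH 0 χ)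
    (h0 : ∀ z, 0 ≤ χ z) (ha : LH 0 a) (hb : LH 0 b) (hq : Pots q) (l : Fin p) :
    Tendsto (fun j => ∫ x, dx (rc a) (rc b) q l x ∂lam d p F j (mlt S χ)) atTop (𝓝 0) :=
  alm_lam hS.cur hS.closed hF hd hχ h0 ha hb hq l


end Pool.Agent.Lib.MP_a47f92_an
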