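import Pool.Agent.Lib.MP_a47f92_an.G.A3
import Pool.Agent.Lib.MP_a47f92_an.G.Dyn

set_option autoImplicit false
set_option linter.unusedSectionVars false

namespace Pool.Agent.Lib.MP_a47f92_an

open MeasureTheory Filter Topology Set Complex Metric Function
open scoped ContDiff ComplexConjugate ComplexOrder Matrix ENNReal NNReal

/-! Block A. -/

variable {n d s : ℕ} {F : E n → E n} {U D : Set (E n)} {τ : Measure (Fr n s)} {ν : Measure (E n)}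

theorem exists_st (hd : 2 ≤ d) (hF : IsLift d F) (hU : Trap F U) (hD : Trap F D) (hDU : D ⊆ U)
    (hA : ¬ ∃ S : Measure (Fr n (s + 1)), InC (⋂ m, F^[m] '' U) S) (hτ : InC D τ)
    (ha : Attr d F D τ) : ∃ K r, St d s F D K τ r := by
  have hd1 : 1 ≤ d := le_trans one_le_two hd
  obtain ⟨K₀, c0, s0, o0⟩ := hτ.exists_on
  obtain ⟨K₁, c1, z1, s1, i1, -⟩ := hD.exists_cc hF hd1
  have c2 : CC (K₀ ∪ K₁) := ⟨c0.1.union c1.1, fun c hc z hz =>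
    hz.imp (c0.2 c hc z) (c1.2 c hc z)⟩
  obtain ⟨ρ, hρ, hs⟩ := exists_nb_subset c2.1 c2.2 hD.op hD.cone fun z hz =>
    hz.1.elim (fun h => s0 ⟨h, hz.2⟩) fun h => s1 ⟨h, hz.2⟩
  have hs' : nb (2 * min (ρ / 2) (1 / 4)) (K₀ ∪ K₁) \ {0} ⊆ D := fun z hz =>
    hs ⟨nb_mono (by linarith [min_le_left (ρ / 2) (1 / 4)]) Subset.rfl hz.1, hz.2⟩
  refine ⟨K₀ ∪ K₁, min (ρ / 2) (1 / 4), hF, hd, hτ.cl1, ha, by positivity, min_le_right _ _, c2,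
    o0.mono fun z hz => Or.inl hz.1, fun z hz => Or.inr (A_mapsTo hD hF z1 i1 hd1 ?_), hs',
    A_zp hd hF hU hA (c2.nb _) (hs'.trans hDU)⟩
  exact (eq_or_ne z 0).imp_right fun h0 => hs' ⟨hz, h0⟩

theorem exists_dyn (hd : 2 ≤ d) (hF : IsLift d F) (hU : Trap F U) (hD : Trap F D) (hDU : D ⊆ U)
    (hA : ¬ ∃ S : Measure (Fr n (s + 1)), InC (⋂ m, F^[m] '' U) S) (hτ : InC D τ)
    (ha : Attr d F D τ) (hν : IsEq d F τ ν) :
    ∃ φ φ' Ψ Y Y' Z δ, Dyn d s F τ φ φ' Ψ Y Y' ν Z δ := by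
  obtain ⟨K, r, h⟩ := exists_st hd hF hU hD hDU hA hτ ha
  obtain ⟨κ⟩ : Nonempty (KM n) := exists_kn _ _
  obtain ⟨Y, φ₀, cY, c0, o0, dY0, hle, hfix⟩ := h.exists_Y κ
  have cl := c0.toLam hF h.d1 1
  have cφ := h.lo_cl1 κ c0
  have oφ := h.lo_on κ c0.cur o0
  have kφ : IsCont (Lo κ r d s F φ₀) := A_sm_cont κ h.r0 h.r1 cl.cur
  have cΨ := A_ho_cur κ h.r0 h.r1 cl.cur
  have dY : DDC Y (Lo κ r d s F φ₀) τ := fun a ha q hq => by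
    rw [hfix _ (hq.cons ha), h.ho_ddc κ a ha q hq, h.lo_ddc κ cY c0.cur h.cτ.cur dY0 a ha q hq]
    ring
  have e0 : Eqv φ₀ (Lo κ r d s F φ₀) := fun a ha q hq => by
    linarith [dY a ha q hq, dY0 a ha q hq]
  have e1 := e0.toLam c0.cur cφ.cur hF h.d1 s 1
  have psi : ∀ q, Pots q → p1 (Ho κ r (lam d s F 1 φ₀)) q = p1 Y q - p1 (lam d s F 1 Y) q :=
    fun q hq => by
      have h1 := A_H' κ h.r0 h.r1 (cY.toLam hF h.d1 s 1) cl.cur h.cτ.cur cl.closed h.cτ.closed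
        (h.ddc_lam cY c0.cur dY0 1) hq
      have h2 := hfix q hq
      unfold Lo at h2
      linarith
  have y0 := h.y0 cY cΨ cφ oφ kφ dY psi
  obtain ⟨δ, δ0, δ1, ⟨C₁, lb1⟩, lb2⟩ := A_lb κ h.r0 h.r1 cl.cur
  have cZ := cc_Sp (lam d s F 1 φ₀)
  have mZ := h.maps cl.cur cφ.cur e1 δ0 lb1
  have onZ : ∀ i, 1 ≤ i → On (lam d s F i (Lo κ r d s F φ₀)) (Sp (lam d s F 1 φ₀)) := by
    intro i hi
    obtain ⟨i, rfl⟩ := Nat.exists_eq_add_of_le' hi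
    rw [← lam_lam hF]
    exact (e1.symm.toOn (cφ.cur.toLam hF h.d1 s 1) cl.cur cZ (on_Sp _)).toLam hF h.d1 s i cZ.meas
      (mZ.iterate i)
  have oτ := h.on_tau cφ oφ kφ cZ onZ
  have r0 : 0 < min r (δ / 8) := lt_min h.r0 (by positivity)
  have r1 : min r (δ / 8) ≤ 1 / 4 := (min_le_left _ _).trans h.r1
  have cY' := A_ho_cur κ r0 r1 h.cτ.cur
  obtain ⟨C, ub⟩ := A_ub κ r0 r1 s
  refine ⟨_, Sm κ (min r (δ / 8)) τ, _, Y, Ho κ (min r (δ / 8)) τ, _, δ, hF, hd,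
    lt_of_mass_pos h.cτ.cur (h.cτ.mass ▸ one_pos), h.cτ, cφ, A_sm_cl1 κ r0 r1 h.cτ, cΨ, cY, cY', hν,
    h.inv, dY, A_H κ r0 r1 h.cτ.cur h.cτ.closed,
    (A_H κ h.r0 h.r1 cl.cur cl.closed).congr eqv_refl e1,
    leP_of_le cY cY' ((A_ho_mono κ (min_le_left _ _) h.cτ.cur).trans hle), psi, y0,
    fun τ₁ τ₂ c1 c2 d1 d2 e i1 a ha q hq => h.ext κ cY hle y0 c1 c2 d1 d2 e i1 ha hq,
    cZ, δ0, δ1, onZ, ⟨C₁, lb1⟩, lb2, C, fun g hg => ?_⟩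
  have h1 := ub τ _ g h.cτ.cur cZ oτ hg
  rw [h.cτ.mass, ENNReal.ofReal_one, mul_one] at h1
  exact h1.trans (mul_le_mul' le_rfl (rf_mono (nb_mono
    (by linarith [min_le_right r (δ / 8)]) Subset.rfl)))

end Pool.Agent.Lib.MP_a47f92_an
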