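import Pool.Agent.Lib.MP_a47f92_an.G.BMix

set_option autoImplicit false
set_option linter.unusedSectionVars false

namespace Pool.Agent.Lib.MP_a47f92_an

open MeasureTheory Filter Topology Set Complex Metric Function
open scoped ContDiff ComplexConjugate ComplexOrder Matrix ENNReal NNReal

/-! Block B (owner helper62). -/

variable {n d s : ℕ} {F : E n → E n} {τ φ φ' : Measure (Fr n s)} {Ψ Y Y' : Measure (Fr n (s + 1))}
  {ν : Measure (E n)} {Z : Set (E n)} {δ : ℝ}

theorem Dyn.mixing (h : Dyn d s F τ φ φ' Ψ Y Y' ν Z δ) : Mix d s F φ φ' Ψ ν where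
  prob := h.B_prob
  tail := fun _ hε => h.B_tail hε
  bsum := h.B_bsum
  cv := h.B_cv h.cY h.dY fun _ _ => le_rfl
  cv' := h.B_cv h.cY' h.dY' h.le
  inv := fun _ ha => h.B_inv ha 1
  mix := fun _ ha => by
    rw [sq]
    exact h.B_mix ha ha

end Pool.Agent.Lib.MP_a47f92_an
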