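import Pool.Agent.Lib.MP_a47f92_an.G.CExp

set_option autoImplicit false
set_option linter.unusedSectionVars false

namespace Pool.Agent.Lib.MP_a47f92_an

open MeasureTheory Filter Topology Set Complex Metric Function
open scoped ContDiff ComplexConjugate ComplexOrder Matrix ENNReal NNReal

/-! Block C: exponents and the last step. -/

variable {n d s : ℕ} {F : E n → E n} {τ φ φ' : Measure (Fr n s)} {Ψ Y Y' : Measure (Fr n (s + 1))}
  {ν : Measure (E n)} {Z : Set (E n)} {δ : ℝ}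

theorem Dyn.exponents (h : Dyn d s F τ φ φ' Ψ Y Y' ν Z δ) (hm : Mix d s F φ φ' Ψ ν) :
    ∃ L, Ex d s F φ φ' ν L := C_exponents h hm

theorem Dyn.final (h : Dyn d s F τ φ φ' Ψ Y Y' ν Z δ) (hm : Mix d s F φ φ' Ψ ν) {L : ℕ → ℝ}
    (he : Ex d s F φ φ' ν L) (hE : Est F s ν) : ∀ᵐ z ∂ν, Hyp F s z := C_final h hm he hE

end Pool.Agent.Lib.MP_a47f92_an
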