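import Pool.Agent.Lib.MP_a47f92_an.G.Cur3

set_option autoImplicit false
set_option linter.unusedSectionVars false

namespace Pool.Agent.Lib.MP_a47f92_an

open MeasureTheory Filter Topology Set Complex Metric Function
open scoped ContDiff ComplexConjugate ComplexOrder Matrix ENNReal NNReal

/-! The normalised push-forward. -/

variable {n p d s : ℕ} {S S' : Measure (Fr n p)} {q : Fin p → E n → ℝ} {a : E n → ℝ}
  {F : E n → E n} {K K' : Set (E n)} {g : Fr n p → ℂ}

theorem Cur4_m (hF : IsLift d F) (j : ℕ) : Measurable (fw F^[j] : Fr n p → Fr n p) :=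
  (continuous_fw (hF.iterate j)).measurable

theorem Cur4_d (hd : 1 ≤ d) (j : ℕ) : 1 ≤ d ^ j := Nat.one_le_pow _ _ hd

theorem Cur4_c (d s j : ℕ) :
    (ENNReal.ofReal ((d : ℝ) ^ (s * j))⁻¹).toReal = ((d : ℝ) ^ (s * j))⁻¹ :=
  ENNReal.toReal_ofReal (by positivity)

theorem Cur4_n (N : ℕ) : (ENNReal.ofReal (N : ℝ)⁻¹).toReal = (N : ℝ)⁻¹ :=
  ENNReal.toReal_ofReal (by positivity)

theorem Cur4_one (hd : 1 ≤ d) (p j : ℕ) : ((d : ℝ) ^ (p * j))⁻¹ * ((d : ℝ) ^ j) ^ p = 1 := by
  have hd0 : (d : ℝ) ^ (p * j) ≠ 0 := pow_ne_zero _ (Nat.cast_ne_zero.2 (by omega))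
  rw [← pow_mul, mul_comm j p, inv_mul_cancel₀ hd0]

theorem Cur4_dn (c : Fin p → ℝ) (q : Fin p → E n → ℝ) (x : Fr n p) :
    dn (fun l z => c l * q l z) x = (∏ l, c l) * dn q x := by
  unfold dn
  split_ifs with hx
  · rw [mul_zero]
  · have h : (fun l => lv (fun z => c l * q l z) x) = fun l => (c l : ℂ) • lv (q l) x := by
      funext l
      rw [lv_eq_gl, lv_eq_gl, ← gl_const_mul]
      congr 1
      funext w
      exact ofReal_mul _ _
    unfold dc
    rw [h, mdC_smul, ← ofReal_prod, re_ofReal_mul]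

theorem Cur4_gs (hd : 1 ≤ d) (F : E n → E n) (j m p : ℕ) :
    (fun l z => gs d F m p l (F^[j] z)) =
      fun l z => (fun _ : Fin p => (d : ℝ) ^ j) l * gs d F (m + j) p l z :=
  funext fun _ => funext fun z => green_comp hd F m j z

theorem Cur4_cons (u : E n → ℝ) (q : Fin p → E n → ℝ) (G : E n → E n) :
    (fun l z => (Fin.cons u q : Fin (p + 1) → E n → ℝ) l (G z)) =
      Fin.cons (fun z => u (G z)) fun l z => q l (G z) := by
  funext l
  refine Fin.cases ?_ (fun l => ?_) l <;> rfl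

theorem lam_zero (d s : ℕ) (F : E n → E n) (S : Measure (Fr n p)) : lam d s F 0 S = S := by
  have h : (fw F^[0] : Fr n p → Fr n p) = id := funext fw_id
  rw [lam, h, Measure.map_id, mul_zero, pow_zero, inv_one, ENNReal.ofReal_one, one_smul]

theorem lam_lam (hF : IsLift d F) (s i j : ℕ) (S : Measure (Fr n p)) :
    lam d s F i (lam d s F j S) = lam d s F (i + j) S := by
  have h : (fw F^[i + j] : Fr n p → Fr n p) = fw F^[i] ∘ fw F^[j] := by
    funext x
    rw [iterate_add]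
    exact fw_comp (hF.iterate i) (hF.iterate j) x
  rw [lam, lam, lam, Measure.map_smul, Measure.map_map (Cur4_m hF i) (Cur4_m hF j), smul_smul, h,
    ← ENNReal.ofReal_mul (by positivity), mul_add, pow_add, mul_inv]

theorem lam_add (hF : IsLift d F) (s j : ℕ) (S S' : Measure (Fr n p)) :
    lam d s F j (S + S') = lam d s F j S + lam d s F j S' := by
  rw [lam, lam, lam, Measure.map_add _ _ (Cur4_m hF j), smul_add]

theorem lam_smul (d s : ℕ) (F : E n → E n) (j : ℕ) (c : ℝ≥0∞) (S : Measure (Fr n p)) :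
    lam d s F j (c • S) = c • lam d s F j S := by
  rw [lam, lam, Measure.map_smul, smul_comm]

theorem lam_finsum (hF : IsLift d F) (s j : ℕ) {ι : Type} (A : Finset ι)
    (S : ι → Measure (Fr n p)) : lam d s F j (∑ i ∈ A, S i) = ∑ i ∈ A, lam d s F j (S i) := by
  classical
  induction A using Finset.induction_on with
  | empty => rw [Finset.sum_empty, Finset.sum_empty, lam, Measure.map_zero, smul_zero]
  | insert i A hi ih => rw [Finset.sum_insert hi, Finset.sum_insert hi, lam_add hF, ih]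

theorem lam_sum (hF : IsLift d F) (s j : ℕ) (S : ℕ → Measure (Fr n p)) :
    lam d s F j (Measure.sum S) = Measure.sum fun i => lam d s F j (S i) := by
  rw [lam, Measure.map_sum (Cur4_m hF j).aemeasurable]
  ext t ht
  simp only [lam, Measure.smul_apply, Measure.sum_apply _ ht, smul_eq_mul, ENNReal.tsum_mul_left]

theorem lam_mono (hF : IsLift d F) (s j : ℕ) (h : S' ≤ S) : lam d s F j S' ≤ lam d s F j S := by
  have h1 := Measure.map_mono h (Cur4_m (p := p) hF j)
  intro t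
  simp only [lam, Measure.smul_apply, smul_eq_mul]
  exact mul_le_mul_right (h1 t) _

theorem IsCur.toLam (h : IsCur S) (hF : IsLift d F) (hd : 1 ≤ d) (s j : ℕ) : IsCur (lam d s F j S) :=
  (h.map_fw (hF.iterate j) (Cur4_d hd j)).smul ENNReal.ofReal_ne_top

theorem Closed.toLam (hc : Closed S) (h : IsCur S) (hF : IsLift d F) (hd : 1 ≤ d) (s j : ℕ) :
    Closed (lam d s F j S) := (hc.map_fw h (hF.iterate j) (Cur4_d hd j)).smul _

theorem pr_lam_eq (d s : ℕ) (F : E n → E n) (j : ℕ) (S : Measure (Fr n p)) (a : E n → ℝ)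
    (q : Fin p → E n → ℝ) :
    pr (lam d s F j S) a q = ((d : ℝ) ^ (s * j))⁻¹ * pr (S.map (fw F^[j])) a q := by
  rw [lam, pr_smul, Cur4_c]

theorem IsCur.pr_lam (h : IsCur S) (hF : IsLift d F) (hd : 1 ≤ d) (s j : ℕ) (ha : Measurable a)
    (hq : Pots q) : pr (lam d s F j S) a q =
      ((d : ℝ) ^ (s * j))⁻¹ * pr S (fun z => a (F^[j] z)) fun l z => q l (F^[j] z) := by
  rw [pr_lam_eq, h.pr_map_fw (hF.iterate j) (Cur4_d hd j) ha hq]

theorem IsCur.integral_lam (h : IsCur S) (hF : IsLift d F) (s j : ℕ) (hg : Tst g) :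
    ∫ x, g x ∂lam d s F j S = ((((d : ℝ) ^ (s * j))⁻¹ : ℝ) : ℂ) * ∫ x, g (fw F^[j] x) ∂S := by
  rw [lam, integral_smul_measure, integral_map_fw h (hF.iterate j) hg, Cur4_c, real_smul]

theorem lp_lam (S : Measure (Fr n p)) (hF : IsLift d F) (s j : ℕ) {g : Fr n p → ℝ}
    (hg : Measurable g) : lp (lam d s F j S) g =
      ENNReal.ofReal ((d : ℝ) ^ (s * j))⁻¹ * lp S fun x => g (fw F^[j] x) := by
  rw [lam, lp_smul, lp_map_fw S (hF.iterate j) hg]

theorem IsCur.pr_lam_gs (h : IsCur S) (hF : IsLift d F) (hd : 1 ≤ d) (j m : ℕ)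
    (ha : Measurable a) :
    pr (lam d p F j S) a (gs d F m p) = pr S (fun z => a (F^[j] z)) (gs d F (m + j) p) := by
  rw [h.pr_lam hF hd p j ha (pps_gs hF hd m p).pots, Cur4_gs hd, pr_const_mul_all,
    Fin.prod_const, ← mul_assoc, Cur4_one hd, one_mul]

theorem IsCur.mass_lam (h : IsCur S) (hF : IsLift d F) (hd : 1 ≤ d) (j : ℕ) :
    mass (lam d p F j S) = p1 S (gs d F j p) := by
  have h1 := h.pr_lam_gs hF hd j 0 (a := fun _ => 1) measurable_const
  rw [zero_add] at h1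
  rw [p1, ← h1, mass, p1, ← green_zero d F]

theorem Closed.mass_lam (hc : Closed S) (h : IsCur S) (hF : IsLift d F) (hd : 1 ≤ d) (j : ℕ) :
    mass (lam d p F j S) = mass S := by
  rw [h.mass_lam hF hd, hc.p1_one h fun _ => (pl_green hF hd j).lh]

theorem Cl1.toLam (h : Cl1 S) (hF : IsLift d F) (hd : 1 ≤ d) (j : ℕ) : Cl1 (lam d p F j S) := ⟨h.cur.toLam hF hd p j, h.closed.toLam h.cur hF hd p j,
    (h.closed.mass_lam h.cur hF hd j).trans h.mass⟩

theorem wg_lam (S : Measure (Fr n p)) (hF : IsLift d F) (hd : 1 ≤ d) (j m : ℕ) :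
    wg (lam d p F j S) (gs d F m p) = (wg S (gs d F (m + j) p)).map F^[j] := by
  have hm : Measurable F^[j] := (hF.iterate j).contDiff.continuous.measurable
  ext K hK
  rw [Measure.map_apply hm hK, wg_apply _ (pps_gs hF hd m p) hK,
    wg_apply _ (pps_gs hF hd (m + j) p) (hm hK), lp_lam S hF p j
      (g := fun x => K.indicator (fun _ => (1 : ℝ)) x.1 * dn (gs d F m p) x)
      (((measurable_const.indicator hK).comp measurable_fst).mul
        (measurable_dn (pps_gs hF hd m p).pots)), ← lp_const_mul (by positivity)]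
  congr 1
  funext x
  rw [← dn_fw (pps_gs hF hd m p).pots (hF.iterate j) (Cur4_d hd j), Cur4_gs hd, Cur4_dn,
    Fin.prod_const, mul_left_comm, ← mul_assoc _ (_ ^ p), Cur4_one hd, one_mul]
  rfl

theorem IsCur.p1_lam_cons {Y : Measure (Fr n (p + 1))} (h : IsCur Y) (hF : IsLift d F) (hd : 1 ≤ d)
    (j m : ℕ) {D : ℝ} {u : E n → ℝ} (hu : LH D u) :
    p1 (lam d p F j Y) (Fin.cons u (gs d F m p)) =
      p1 Y (Fin.cons (fun z => u (F^[j] z)) (gs d F (m + j) p)) := by
  have e : (fun l z => (Fin.cons u (gs d F m p) : Fin (p + 1) → E n → ℝ) l (F^[j] z)) =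
      fun l z => (Fin.cons 1 fun _ => (d : ℝ) ^ j : Fin (p + 1) → ℝ) l *
        (Fin.cons (fun z => u (F^[j] z)) (gs d F (m + j) p) : Fin (p + 1) → E n → ℝ) l z := by
    funext l z
    refine Fin.cases ?_ (fun l => ?_) l
    · exact (one_mul _).symm
    · exact green_comp hd F m j z
  rw [p1, p1, h.pr_lam hF hd p j measurable_const ((pps_gs hF hd m p).pots.cons hu), e,
    pr_const_mul_all, Fin.prod_cons, Fin.prod_const, one_mul, ← mul_assoc, Cur4_one hd, one_mul]

theorem IsCur.mass_lam_succ {Y : Measure (Fr n (p + 1))} (h : IsCur Y) (hF : IsLift d F)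
    (hd : 1 ≤ d) (j : ℕ) :
    mass (lam d p F j Y) = p1 Y (Fin.cons (fun z => lg (F^[j] z)) (gs d F j p)) ∧
      mass (lam d p F j Y) = (d : ℝ) ^ j * p1 Y (gs d F j (p + 1)) := by
  have h1 : mass (lam d p F j Y) = p1 Y (Fin.cons (fun z => lg (F^[j] z)) (gs d F j p)) := by
    have h2 := h.p1_lam_cons hF hd j 0 lh_lg
    rw [zero_add] at h2
    have h3 : gs d F 0 p = fun _ => lg := funext fun _ => green_zero d F
    rw [← h2, mass, ← cons_const, h3]
  refine ⟨h1, ?_⟩
  rw [h1, show (fun z => lg (F^[j] z)) = fun z => (d : ℝ) ^ j * green d F j z from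
    funext (lg_comp hd F j), p1, pr_cons_const_mul, p1, cons_const]

theorem exists_mass_lam_le (hF : IsLift d F) (hd : 1 ≤ d) (s p j : ℕ) : ∃ C : ℝ, 0 ≤ C ∧
    ∀ S : Measure (Fr n p), IsCur S → mass (lam d s F j S) ≤ C * mass S := by
  obtain ⟨C, hC, h⟩ := exists_mass_map_le (hF.iterate j) (Cur4_d hd j) p
  refine ⟨((d : ℝ) ^ (s * j))⁻¹ * C, by positivity, fun S hS => ?_⟩
  rw [lam, mass_smul, Cur4_c, mul_assoc]
  exact mul_le_mul_of_nonneg_left (h S hS) (by positivity)

theorem Eqv.toLam (h : Eqv S S') (hS : IsCur S) (hS' : IsCur S') (hF : IsLift d F) (hd : 1 ≤ d)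
    (s j : ℕ) : Eqv (lam d s F j S) (lam d s F j S') := by
  intro a ha q hq
  rw [hS.pr_lam hF hd s j ha.measurable hq, hS'.pr_lam hF hd s j ha.measurable hq,
    h _ (ha.comp0 (hF.iterate j)) _ (hq.comp (hF.iterate j))]

theorem Eqv.lam_iter (h : Eqv (lam d s F 1 S) S) (hS : IsCur S)
    (hF : IsLift d F) (hd : 1 ≤ d) (j : ℕ) :
    Eqv (lam d s F j S) S := by
  induction j with
  | zero =>
    rw [lam_zero]
    exact eqv_refl
  | succ j ih =>
    rw [← lam_lam hF]
    exact (h.toLam (hS.toLam hF hd s 1) hS hF hd s j).trans ih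

theorem DDC.toLam {Y : Measure (Fr n (p + 1))} (h : DDC Y S S') (hY : IsCur Y) (hS : IsCur S)
    (hS' : IsCur S') (hF : IsLift d F) (hd : 1 ≤ d) (s j : ℕ) :
    DDC (lam d s F j Y) (lam d s F j S) (lam d s F j S') := by
  intro a ha q hq
  rw [p1, hY.pr_lam hF hd s j measurable_const (hq.cons ha), hS.pr_lam hF hd s j ha.measurable hq,
    hS'.pr_lam hF hd s j ha.measurable hq, ← mul_sub, Cur4_cons,
    ← h _ (ha.comp0 (hF.iterate j)) _ (hq.comp (hF.iterate j)), p1]

theorem LeP.toLam (h : LeP S S') (hS : IsCur S) (hS' : IsCur S') (hF : IsLift d F) (hd : 1 ≤ d)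
    (s j : ℕ) : LeP (lam d s F j S) (lam d s F j S') := by
  intro q hq
  rw [p1, p1, hS.pr_lam hF hd s j measurable_const hq.pots,
    hS'.pr_lam hF hd s j measurable_const hq.pots]
  exact mul_le_mul_of_nonneg_left (h _ (hq.comp (hF.iterate j))) (by positivity)

theorem On.toLam (h : On S K) (hF : IsLift d F) (hd : 1 ≤ d) (s j : ℕ) (hK' : MeasurableSet K')
    (hm : MapsTo F^[j] K K') : On (lam d s F j S) K' := (h.map_fw (hF.iterate j) (Cur4_d hd j) hK' hm).smul _

/-- The Cesàro mean of the push-forwards. -/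
noncomputable def ces (d s : ℕ) (F : E n → E n) (N : ℕ) (S : Measure (Fr n p)) : Measure (Fr n p) :=
  ENNReal.ofReal (N : ℝ)⁻¹ • ∑ j ∈ Finset.range N, lam d s F j S

theorem IsCur.toCes (h : IsCur S) (hF : IsLift d F) (hd : 1 ≤ d) (s N : ℕ) : IsCur (ces d s F N S) :=
  (isCur_finsum _ fun j _ => h.toLam hF hd s j).smul ENNReal.ofReal_ne_top

theorem IsCur.pr_ces (h : IsCur S) (hF : IsLift d F) (hd : 1 ≤ d) (s N : ℕ) (ha : BM a)
    (hq : Pots q) : pr (ces d s F N S) a q =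
      (N : ℝ)⁻¹ * ∑ j ∈ Finset.range N, pr (lam d s F j S) a q := by
  rw [ces, pr_smul, Cur4_n, pr_finsum _ (fun j _ => h.toLam hF hd s j) ha hq]

theorem IsCur.integral_ces (h : IsCur S) (hF : IsLift d F) (hd : 1 ≤ d) (s N : ℕ) (hg : Tst g) :
    ∫ x, g x ∂ces d s F N S = (((N : ℝ)⁻¹ : ℝ) : ℂ) *
      ∑ j ∈ Finset.range N, ∫ x, g x ∂lam d s F j S := by
  rw [ces, integral_smul_measure, Cur4_n, integral_finsum _ (fun j _ => h.toLam hF hd s j) hg,
    real_smul]

theorem ces_add (hF : IsLift d F) (s N : ℕ) (S S' : Measure (Fr n p)) :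
    ces d s F N (S + S') = ces d s F N S + ces d s F N S' := by
  simp only [ces, lam_add hF, Finset.sum_add_distrib, smul_add]

/-- The Cesàro means are almost invariant when the masses are bounded. -/
theorem IsCur.ces_shift (h : IsCur S) (hF : IsLift d F) (hd : 1 ≤ d) (s : ℕ) {C : ℝ}
    (hC : ∀ j, mass (lam d s F j S) ≤ C) (ha : BM a) (hq : Pots q) :
    Tendsto (fun N => pr (lam d s F 1
      (ces d s F N S)) a q -
        pr (ces d s F N S) a q) atTop (𝓝 0) := by
  obtain ⟨A, hA, hb⟩ := hq.pr_le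
  obtain ⟨c, hc⟩ := ha.bd
  have hc0 : 0 ≤ c := (abs_nonneg _).trans (hc 0)
  have hM : ∀ j, |pr (lam d s F j S) a q| ≤ A * c * C := fun j =>
    (hb _ a c (h.toLam hF hd s j) fun z _ => hc z).trans
      (mul_le_mul_of_nonneg_left (hC j) (mul_nonneg hA hc0))
  have e : ∀ N, pr (lam d s F 1 (ces d s F N S)) a q - pr (ces d s F N S) a q =
      (N : ℝ)⁻¹ * (pr (lam d s F N S) a q - pr (lam d s F 0 S) a q) := by
    intro N
    rw [h.pr_ces hF hd s N ha hq, ces, lam_smul, lam_finsum hF, pr_smul, Cur4_n,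
      pr_finsum _ (fun j _ => (h.toLam hF hd s j).toLam hF hd s 1) ha hq, ← mul_sub,
      ← Finset.sum_sub_distrib, ← Finset.sum_range_sub fun j => pr (lam d s F j S) a q]
    simp only [lam_lam hF, add_comm 1]
  simp only [e]
  refine squeeze_zero_norm (a := fun N : ℕ => (N : ℝ)⁻¹ * (A * c * C + A * c * C)) (fun N => ?_) ?_
  · rw [norm_mul, Real.norm_of_nonneg (by positivity), Real.norm_eq_abs]
    exact mul_le_mul_of_nonneg_left ((abs_sub _ _).trans (add_le_add (hM N) (hM 0)))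
      (by positivity)
  · have := (tendsto_inv_atTop_nhds_zero_nat (𝕜 := ℝ)).mul_const (A * c * C + A * c * C)
    rwa [zero_mul] at this

end Pool.Agent.Lib.MP_a47f92_an
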