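import Pool.Agent.Lib.MP_a47f92_an.G.Cur1

set_option autoImplicit false
set_option linter.unusedSectionVars false

namespace Pool.Agent.Lib.MP_a47f92_an

open MeasureTheory Filter Topology Set Complex Metric Function
open scoped ContDiff ComplexConjugate ComplexOrder Matrix ENNReal NNReal

/-! Positive densities and the wedge product measure. -/

variable {n p : ℕ} {S : Measure (Fr n p)} {q : Fin p → E n → ℝ} {a : E n → ℝ} {K W : Set (E n)}

theorem IsCur.lp_mul_dn (h : IsCur S) (ha : BM a) (ha0 : ∀ z, z ≠ 0 → 0 ≤ a z) (hq : PPs q) :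
    lp S (fun x => a x.1 * dn q x) = ENNReal.ofReal (pr S a q) := by
  rw [h.pr_eq, lp, ofReal_integral_eq_lintegral_ofReal (h.int_mul_dn ha hq.pots)
    (h.ne.mono fun x hx => mul_nonneg (ha0 _ hx) (dn_nonneg hq x))]

theorem IsCur.lp_dn (h : IsCur S) (hq : PPs q) : lp S (dn q) = ENNReal.ofReal (p1 S q) := by
  rw [h.p1_eq, lp, ofReal_integral_eq_lintegral_ofReal (h.int_dn hq.pots)
    (Eventually.of_forall (dn_nonneg hq))]

theorem IsCur.lp_dens (h : IsCur S) : lp S dens = ENNReal.ofReal (mass S) := h.lp_dn pps_lg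

theorem lp_mono {g g' : Fr n p → ℝ} (h : ∀ x, g x ≤ g' x) : lp S g ≤ lp S g' :=
  lintegral_mono fun x => ENNReal.ofReal_le_ofReal (h x)

theorem lp_const_mul {g : Fr n p → ℝ} {c : ℝ} (hc : 0 ≤ c) :
    lp S (fun x => c * g x) = ENNReal.ofReal c * lp S g := by
  simp only [lp, ENNReal.ofReal_mul hc]
  exact lintegral_const_mul' _ _ ENNReal.ofReal_ne_top

theorem rf_mono {g : Fr n p → ℝ} {W' : Set (E n)} (h : W ⊆ W') : rf W g ≤ rf W' g :=
  lintegral_mono_set h

theorem bw_nonneg (w : E n) : 0 ≤ bw w := mul_nonneg (expNegInvGlue.nonneg _) (expNegInvGlue.nonneg _)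

theorem bw_pos_iff (w : E n) : 0 < bw w ↔ 1 < ‖w‖ ∧ ‖w‖ < 2 := by
  have h0 := norm_nonneg w
  constructor
  · intro h
    have h1 : 0 < ‖w‖ ^ 2 - 1 := not_le.1 fun h1 =>
      h.ne' (by rw [bw, expNegInvGlue.zero_of_nonpos h1, zero_mul])
    have h2 : 0 < 4 - ‖w‖ ^ 2 := not_le.1 fun h2 =>
      h.ne' (by rw [bw, expNegInvGlue.zero_of_nonpos h2, mul_zero])
    exact ⟨by nlinarith, by nlinarith⟩
  · intro h
    exact mul_pos (expNegInvGlue.pos_of_pos (by nlinarith [h.1]))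
      (expNegInvGlue.pos_of_pos (by nlinarith [h.2]))

theorem contDiff_bw : ContDiff ℝ ∞ (bw : E n → ℝ) :=
  (expNegInvGlue.contDiff.comp ((contDiff_norm_sq ℂ).sub contDiff_const)).mul
    (expNegInvGlue.contDiff.comp (contDiff_const.sub (contDiff_norm_sq ℂ)))

theorem isTest_bw : IsTest (bw : E n → ℝ) := by
  have h0 : ∀ w : E n, ¬(1 < ‖w‖ ∧ ‖w‖ < 2) → bw w = 0 := fun w hw =>
    le_antisymm (not_lt.1 fun h => hw ((bw_pos_iff w).1 h)) (bw_nonneg w)
  refine ⟨contDiff_bw, HasCompactSupport.intro (isCompact_closedBall 0 2) fun w hw =>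
    h0 w fun h => hw (mem_closedBall_zero_iff.2 h.2.le), ?_⟩
  rw [notMem_tsupport_iff_eventuallyEq]
  filter_upwards [ball_mem_nhds (0 : E n) one_pos] with w hw
  exact h0 w fun h => (mem_ball_zero_iff.1 hw).not_gt h.1

theorem rf_mul_indicator {g : Fr n p → ℝ} (hK : MeasurableSet K) :
    rf W (fun x => K.indicator (fun _ => (1 : ℝ)) x.1 * g x) = rf (W ∩ K) g := by
  rw [rf, rf, inter_comm, ← Measure.restrict_restrict hK, ← lintegral_indicator hK]
  refine lintegral_congr fun w => ?_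
  by_cases hw : w ∈ K
  · simp [hat, hw]
  · simp [hat, hw]

theorem PT.indicator {g : Fr n p → ℝ} (h : PT g) (hK : MeasurableSet K) (hc : IsCone K) :
    PT fun x => K.indicator (fun _ => (1 : ℝ)) x.1 * g x := by
  refine h.mul_left (measurable_const.indicator hK) (fun c h0 z _ => ?_)
    fun z => indicator_nonneg (fun _ _ => zero_le_one) z
  by_cases hz : z ∈ K
  · rw [indicator_of_mem hz, indicator_of_mem (hc c h0 z hz)]
  · rw [indicator_of_notMem hz, indicator_of_notMem fun h1 => hz ?_]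
    simpa [h0] using hc c⁻¹ (inv_ne_zero h0) _ h1

theorem lintegral_wg (S : Measure (Fr n p)) (hq : Pots q) {f : E n → ℝ≥0∞} (hf : Measurable f) :
    ∫⁻ z, f z ∂wg S q = ∫⁻ x, ENNReal.ofReal (dn q x) * f x.1 ∂S := by
  rw [wg, lintegral_map hf measurable_fst, lintegral_withDensity_eq_lintegral_mul _
    (measurable_dn hq).ennreal_ofReal (show Measurable fun x : Fr n p => f x.1 from
      hf.comp measurable_fst)]
  rfl

theorem lintegral_ofReal_wg (S : Measure (Fr n p)) (hq : PPs q) (ha : Measurable a) :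
    ∫⁻ z, ENNReal.ofReal (a z) ∂wg S q = lp S fun x => a x.1 * dn q x := by
  rw [lintegral_wg S hq.pots ha.ennreal_ofReal]
  refine lintegral_congr fun x => ?_
  rw [← ENNReal.ofReal_mul (dn_nonneg hq x), mul_comm]

theorem wg_apply (S : Measure (Fr n p)) (hq : PPs q) (hK : MeasurableSet K) :
    wg S q K = lp S fun x => K.indicator (fun _ => (1 : ℝ)) x.1 * dn q x := by
  rw [← lintegral_ofReal_wg S hq (measurable_const.indicator hK), ← lintegral_indicator_one hK]
  refine lintegral_congr fun z => ?_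
  by_cases hz : z ∈ K
  · simp [hz]
  · simp [hz]

theorem IsCur.integral_wg (h : IsCur S) (ha : Measurable a) (hq : PPs q) :
    ∫ z, a z ∂wg S q = pr S a q := by
  rw [h.pr_eq, wg, integral_map measurable_fst.aemeasurable ha.aestronglyMeasurable,
    integral_withDensity_eq_integral_toReal_smul (measurable_dn hq.pots).ennreal_ofReal
      (Eventually.of_forall fun _ => ENNReal.ofReal_lt_top)]
  refine integral_congr_ae (Eventually.of_forall fun x => ?_)
  simp only [ENNReal.toReal_ofReal (dn_nonneg hq x), smul_eq_mul, mul_comm]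

theorem IsCur.wg_univ (h : IsCur S) (hq : PPs q) : wg S q univ = ENNReal.ofReal (p1 S q) := by
  rw [wg_apply S hq MeasurableSet.univ, ← h.lp_dn hq]
  simp

theorem IsCur.wg_fin (h : IsCur S) (hq : PPs q) : IsFiniteMeasure (wg S q) :=
  ⟨(h.wg_univ hq).trans_lt ENNReal.ofReal_lt_top⟩

theorem Cur1b_ae (hq : Pots q) (hK : MeasurableSet K) :
    (∀ᵐ z ∂wg S q, z ∈ K) ↔ ∀ᵐ x ∂S, ENNReal.ofReal (dn q x) ≠ 0 → x.1 ∈ K := by
  rw [wg, ae_map_iff (p := fun z => z ∈ K) measurable_fst.aemeasurable hK,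
    ae_withDensity_iff (measurable_dn hq).ennreal_ofReal]

theorem Cur1b_ne {x : Fr n p} (h : dens x ≠ 0) : x.1 ≠ 0 := fun h0 => h (if_pos h0)

theorem wg_ne (S : Measure (Fr n p)) (hq : Pots q) : ∀ᵐ z ∂wg S q, z ≠ 0 :=
  (Cur1b_ae hq (measurableSet_singleton 0).compl).2 (Eventually.of_forall fun x hx h0 =>
    hx (by rw [dn, if_pos (mem_singleton_iff.1 h0), ENNReal.ofReal_zero]))

theorem On.ae_wg (h : On S K) (hK : MeasurableSet K) (hq : Pots q) : ∀ᵐ z ∂wg S q, z ∈ K :=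
  (Cur1b_ae hq hK).2 (Eventually.mono h fun x hx h1 => hx fun h0 =>
    h1 (by rw [dn_eq_zero hq h0, ENNReal.ofReal_zero]))

theorem on_iff_wg (hK : MeasurableSet K) : On S K ↔ wg S (fun _ => lg) Kᶜ = 0 := by
  refine ⟨fun h => h.ae_wg hK pots_lg, fun h => ?_⟩
  exact ((Cur1b_ae pots_lg hK).1 h).mono fun x hx h1 => hx fun h0 =>
    h1 (le_antisymm (ENNReal.ofReal_eq_zero.1 h0) (dens_nonneg x))

theorem On.mono (h : On S K) (h' : K \ {0} ⊆ W) : On S W :=
  Eventually.mono h fun _ hx h1 => h' ⟨hx h1, Cur1b_ne h1⟩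

theorem On.inter (h : On S K) (h' : On S W) : On S (K ∩ W) :=
  (Eventually.and h h').mono fun _ hx h1 => ⟨hx.1 h1, hx.2 h1⟩

theorem on_iInter {K : ℕ → Set (E n)} (h : ∀ i, On S (K i)) : On S (⋂ i, K i) :=
  (ae_all_iff.2 h).mono fun _ hx h1 => mem_iInter.2 fun i => hx i h1

theorem on_univ : On S univ := Eventually.of_forall fun _ _ => mem_univ _

theorem On.lp_congr (h : On S K) {g g' : Fr n p → ℝ} (hg : PT g) (hg' : PT g')
    (he : ∀ x : Fr n p, x.1 ∈ K → g x = g' x) : lp S g = lp S g' := by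
  refine lintegral_congr_ae (Eventually.mono h fun x hx => ?_)
  by_cases h0 : dens x = 0
  · simp only [hg.eq_zero h0, hg'.eq_zero h0]
  · simp only [he x (hx h0)]

theorem On.pr_congr (h : On S K) (hS : IsCur S) {b : E n → ℝ}
    (hab : ∀ z ∈ K, z ≠ 0 → a z = b z) (hq : Pots q) : pr S a q = pr S b q := by
  rw [hS.pr_eq, hS.pr_eq]
  refine integral_congr_ae (Eventually.mono h fun x hx => ?_)
  by_cases h0 : dens x = 0
  · simp only [dn_eq_zero hq h0, mul_zero]
  · simp only [hab _ (hx h0) (Cur1b_ne h0)]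

/-- An upper bound by the reference current bounds the wedge product measure. -/
theorem wg_le_rf {C : ℝ≥0∞} (h : ∀ g, PT g → lp S g ≤ C * rf W g) (hq : PPs q)
    (hK : MeasurableSet K) (hc : IsCone K) : wg S q K ≤ C * rf (W ∩ K) (dn q) := by
  rw [wg_apply S hq hK, ← rf_mul_indicator hK]
  exact h _ ((pt_dn hq).indicator hK hc)

theorem lintegral_wg_le_rf {C : ℝ≥0∞} (h : ∀ g, PT g → lp S g ≤ C * rf W g) (hq : PPs q)
    (ha : Measurable a) (hi : Inv0 a) (h0 : ∀ z, 0 ≤ a z) :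
    ∫⁻ z, ENNReal.ofReal (a z) ∂wg S q ≤
      C * ∫⁻ w in W, ENNReal.ofReal (bw w * (a w * hat (dn q) w)) := by
  rw [lintegral_ofReal_wg S hq ha]
  refine (h _ ((pt_dn hq).mul_left ha hi h0)).trans (le_of_eq ?_)
  simp only [rf, hat, Finset.mul_sum]

end Pool.Agent.Lib.MP_a47f92_an
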