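import Pool.Agent.Lib.MP_a47f92_an.KW

set_option autoImplicit false
set_option linter.unusedSectionVars false

/-! Pointwise ergodic theorems from the decay of correlations in the mean. -/

namespace Pool.Agent.Lib.MP_a47f92_an

open MeasureTheory Filter Topology Set Function
open scoped ENNReal

variable {X : Type} [MeasurableSpace X] {f : X → X} {μ : Measure X}

/-- All invariant probability measures dominated by `μ` give the same integral to `g`. -/
def Erg (f : X → X) (μ : Measure X) (g : X → ℝ) : Prop :=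
  ∀ (μ' : Measure X) (C : ℝ), IsProbabilityMeasure μ' → MeasurePreserving f μ' μ' →
    (∀ A, μ' A ≤ ENNReal.ofReal C * μ A) → ∫ x, g x ∂μ' = ∫ x, g x ∂μ

theorem Erg_int {ν : Measure X} [IsFiniteMeasure ν] {g : X → ℝ} (hm : Measurable g) {K : ℝ}
    (hb : ∀ x, |g x| ≤ K) : Integrable g ν :=
  Integrable.of_bound hm.aestronglyMeasurable K (ae_of_all _ hb)

theorem Erg_sq_le {ν : Measure X} [IsProbabilityMeasure ν] {a : X → ℝ} (hm : Measurable a) {K : ℝ}
    (hb : ∀ x, |a x| ≤ K) : (∫ x, a x ∂ν) ^ 2 ≤ ∫ x, a x ^ 2 ∂ν := by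
  have h1 := Erg_int (ν := ν) hm hb
  have h2 : Integrable (fun x => a x ^ 2) ν :=
    Erg_int (hm.pow_const 2) (K := K ^ 2) fun x => by
      rw [abs_pow]; exact pow_le_pow_left₀ (abs_nonneg _) (hb x) 2
  set m := ∫ x, a x ∂ν with hmm
  have h3 : 0 ≤ ∫ x, (a x ^ 2 - (2 * m * a x - m ^ 2)) ∂ν :=
    integral_nonneg fun x => by simp only [Pi.zero_apply]; nlinarith [sq_nonneg (a x - m)]
  have h4 : Integrable (fun x => 2 * m * a x - m ^ 2) ν := (h1.const_mul _).sub (integrable_const _)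
  rw [integral_sub h2 h4,
    integral_sub (h1.const_mul _) (integrable_const _), integral_const_mul, integral_const] at h3
  simp only [probReal_univ, smul_eq_mul, one_mul] at h3
  nlinarith

theorem Erg_bs_abs {u : X → ℝ} {K : ℝ} (hb : ∀ x, |u x| ≤ K) (N : ℕ) (x : X) :
    |birkhoffSum f u N x| ≤ N * K := by
  refine (Finset.abs_sum_le_sum_abs _ _).trans ?_
  refine (Finset.sum_le_card_nsmul _ _ K fun i _ => hb _).trans ?_
  rw [Finset.card_range, nsmul_eq_mul]

theorem Erg_var [IsProbabilityMeasure μ] (hf : MeasurePreserving f μ μ) {u : X → ℝ}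
    (hm : Measurable u) {K : ℝ} (hb : ∀ x, |u x| ≤ K) (N : ℕ) :
    ∫ x, birkhoffSum f u (N + 1) x ^ 2 ∂μ ≤ ∫ x, birkhoffSum f u N x ^ 2 ∂μ +
      2 * ∑ i ∈ Finset.range (N + 1), ∫ x, u x * u (f^[i] x) ∂μ := by
  have hK : ∀ x, 0 ≤ K := fun x => (abs_nonneg _).trans (hb x)
  have hi : ∀ i, Integrable (fun x => u x * u (f^[i] x)) μ := fun i =>
    Erg_int (hm.mul (hm.comp (hf.measurable.iterate i))) (K := K * K) fun x => by
      rw [abs_mul]; exact mul_le_mul (hb _) (hb _) (abs_nonneg _) (hK x)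
  have hs : ∀ M, Integrable (fun x => birkhoffSum f u M x ^ 2) μ := fun M =>
    Erg_int ((measurable_birkhoffSum hf.measurable hm M).pow_const 2) (K := (M * K) ^ 2) fun x => by
      rw [abs_pow]; exact pow_le_pow_left₀ (abs_nonneg _) (Erg_bs_abs hb M x) 2
  have h1 := KWA_int hf (hs N) 1
  simp only [Function.iterate_one] at h1
  rw [← h1.2, ← integral_finsetSum _ fun i _ => hi i, ← integral_const_mul,
    ← integral_add h1.1 ((integrable_finsetSum _ fun i _ => hi i).const_mul _)]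
  refine integral_mono (hs _) (h1.1.add ((integrable_finsetSum _ fun i _ => hi i).const_mul _))
    fun x => ?_
  have e : ∑ i ∈ Finset.range (N + 1), u x * u (f^[i] x) = u x * birkhoffSum f u (N + 1) x := by
    rw [birkhoffSum, Finset.mul_sum]
  simp only [e, birkhoffSum_succ']
  nlinarith [sq_nonneg (u x)]

theorem erg_of_corr [IsProbabilityMeasure μ] (hf : MeasurePreserving f μ μ) {g : X → ℝ}
    (hm : Measurable g) {K : ℝ} (hb : ∀ x, |g x| ≤ K)
    (h : Tendsto (fun N : ℕ => (N : ℝ)⁻¹ * ∑ i ∈ Finset.range N, ∫ x, g x * g (f^[i] x) ∂μ) atTop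
      (𝓝 ((∫ x, g x ∂μ) ^ 2))) : Erg f μ g := by
  intro μ' C hp hf' hle
  set c := ∫ x, g x ∂μ with hc
  set u : X → ℝ := fun x => g x - c with hu
  have hum : Measurable u := hm.sub_const c
  have hub : ∀ x, |u x| ≤ K + |c| := fun x => (abs_sub _ _).trans (by linarith [hb x])
  have hg := Erg_int (ν := μ) hm hb
  have hcor : ∀ i, ∫ x, u x * u (f^[i] x) ∂μ = ∫ x, g x * g (f^[i] x) ∂μ - c ^ 2 := fun i => by
    have h1 := KWA_int hf hg i
    have h2 : Integrable (fun x => g x * g (f^[i] x)) μ :=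
      Erg_int (hm.mul (hm.comp (hf.measurable.iterate i))) (K := K * K) fun x => by
        rw [abs_mul]
        exact mul_le_mul (hb _) (hb _) (abs_nonneg _) ((abs_nonneg _).trans (hb x))
    have e : (fun x => u x * u (f^[i] x)) =
        fun x => g x * g (f^[i] x) - (c * g x + (c * g (f^[i] x) - c ^ 2)) := by
      funext x; simp only [hu]; ring
    have h3 : Integrable (fun x => c * g (f^[i] x) - c ^ 2) μ :=
      (h1.1.const_mul _).sub (integrable_const _)
    have h4 : Integrable (fun x => c * g x + (c * g (f^[i] x) - c ^ 2)) μ := (hg.const_mul _).add h3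
    rw [e, integral_sub h2 h4, integral_add (hg.const_mul _) h3,
      integral_sub (h1.1.const_mul _) (integrable_const _), integral_const_mul, integral_const_mul,
      h1.2, integral_const]
    simp only [probReal_univ, smul_eq_mul, one_mul, ← hc]
    ring
  have hR : ∀ ε : ℝ, 0 < ε → ∃ A : ℝ, 0 ≤ A ∧ ∀ M : ℕ,
      ∑ i ∈ Finset.range M, ∫ x, u x * u (f^[i] x) ∂μ ≤ ε * M + A := fun ε hε => by
    obtain ⟨M0, hM0⟩ := eventually_atTop.1 (h.eventually (gt_mem_nhds (lt_add_of_pos_right _ hε)))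
    refine ⟨∑ M ∈ Finset.range (M0 + 1), |∑ i ∈ Finset.range M, ∫ x, u x * u (f^[i] x) ∂μ|,
      Finset.sum_nonneg fun _ _ => abs_nonneg _, fun M => ?_⟩
    by_cases hM : M < M0 + 1
    · have := Finset.single_le_sum (f := fun M => |∑ i ∈ Finset.range M, ∫ x, u x * u (f^[i] x) ∂μ|)
        (fun _ _ => abs_nonneg _) (Finset.mem_range.2 hM)
      have h2 : 0 ≤ ε * M := by positivity
      linarith [le_abs_self (∑ i ∈ Finset.range M, ∫ x, u x * u (f^[i] x) ∂μ)]
    · have h1 := hM0 M (by omega)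
      have hMp : (0 : ℝ) < M := by exact_mod_cast (by omega : 0 < M)
      rw [inv_mul_lt_iff₀ hMp] at h1
      have h2 : 0 ≤ ∑ M ∈ Finset.range (M0 + 1),
          |∑ i ∈ Finset.range M, ∫ x, u x * u (f^[i] x) ∂μ| :=
        Finset.sum_nonneg fun _ _ => abs_nonneg _
      simp only [hcor, Finset.sum_sub_distrib, Finset.sum_const, Finset.card_range,
        nsmul_eq_mul] at h2 ⊢
      nlinarith
  have hg' := Erg_int (ν := μ') hm hb
  have hu' : ∫ x, u x ∂μ' = ∫ x, g x ∂μ' - c := by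
    rw [hu, integral_sub hg' (integrable_const _), integral_const]
    simp only [probReal_univ, smul_eq_mul, one_mul]
  set a := ∫ x, g x ∂μ' - c with ha
  have hC : 0 ≤ max C 0 := le_max_right _ _
  have key : ∀ ε : ℝ, 0 < ε → a ^ 2 ≤ max C 0 * (3 * ε) := fun ε hε => by
    obtain ⟨A, hA, hA'⟩ := hR ε hε
    have hV : ∀ N : ℕ, ∫ x, birkhoffSum f u N x ^ 2 ∂μ ≤ 2 * ε * N ^ 2 + 2 * A * N := fun N => by
      induction N with
      | zero => simp [birkhoffSum_zero']
      | succ N ih =>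
        have h1 := Erg_var hf hum hub N
        have h2 := hA' (N + 1)
        have h3 : 0 ≤ ε * N := by positivity
        push_cast at h2 ⊢
        nlinarith
    obtain ⟨N, hN⟩ := exists_nat_gt (2 * A / ε)
    have hN' : 2 * A < N * ε := by rwa [div_lt_iff₀ hε] at hN
    have hNp : (0 : ℝ) < N := lt_of_le_of_lt (by positivity) hN
    have h1 := Erg_sq_le (ν := μ') (measurable_birkhoffSum hf.measurable hum N) (Erg_bs_abs hub N)
    rw [(integral_birkhoffSum hf' (Erg_int hum hub) N).2, hu'] at h1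
    have h2 : ∫ x, birkhoffSum f u N x ^ 2 ∂μ' ≤ max C 0 * ∫ x, birkhoffSum f u N x ^ 2 ∂μ := by
      have hle' : μ' ≤ ENNReal.ofReal (max C 0) • μ := Measure.le_iff'.2 fun s =>
        (hle s).trans (mul_le_mul' (ENNReal.ofReal_le_ofReal (le_max_left _ _)) le_rfl)
      have : IsFiniteMeasure (ENNReal.ofReal (max C 0) • μ) :=
        ⟨by rw [Measure.smul_apply, smul_eq_mul]
            exact ENNReal.mul_lt_top ENNReal.ofReal_lt_top (measure_lt_top _ _)⟩
      refine (integral_mono_measure hle' (ae_of_all _ fun x => sq_nonneg _)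
        (Erg_int ((measurable_birkhoffSum hf.measurable hum N).pow_const 2)
          (K := (N * (K + |c|)) ^ 2) fun x => ?_)).trans_eq ?_
      · rw [abs_pow]; exact pow_le_pow_left₀ (abs_nonneg _) (Erg_bs_abs hub N x) 2
      · rw [integral_smul_measure, ENNReal.toReal_ofReal hC, smul_eq_mul]
    have h3 : (N : ℝ) ^ 2 * a ^ 2 ≤ (N : ℝ) ^ 2 * (max C 0 * (3 * ε)) := by
      have h4 : 2 * ε * N ^ 2 + 2 * A * N ≤ (N : ℝ) ^ 2 * (3 * ε) := by nlinarith
      have h5 := mul_le_mul_of_nonneg_left ((hV N).trans h4) hC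
      nlinarith
    exact le_of_mul_le_mul_left h3 (by positivity)
  have h0 : a ^ 2 ≤ 0 := le_of_forall_pos_le_add fun ε hε => by
    have := key (ε / (3 * (max C 0 + 1))) (by positivity)
    refine this.trans ?_
    rw [zero_add, ← mul_div_assoc, ← mul_div_assoc, div_le_iff₀ (by positivity)]
    nlinarith
  have : a = 0 := pow_eq_zero_iff (two_ne_zero) |>.1 (le_antisymm h0 (sq_nonneg _))
  linarith

/-- Telescoping form of the decomposition into blocks. -/
theorem block_le {h : ℕ → X → ℝ} {x : X} {K : ℝ} (hb : ∀ N i, h N (f^[i] x) ≤ K * (N + 1))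
    (sub : ∀ a b, h (a + b) x ≤ h a x + h b (f^[a] x)) (hK : 0 ≤ K) (M B : ℕ) :
    B * h (M + B) x ≤ ∑ i ∈ Finset.range M, h B (f^[i] x) + 2 * K * B * (B + 1) := by
  have h1 : ∑ i ∈ Finset.range B, h (M + i) x ≤
      ∑ i ∈ Finset.range B, h i x + ∑ i ∈ Finset.range M, h B (f^[i] x) := by
    have h2 : ∑ i ∈ Finset.range M, h (i + B) x ≤
        ∑ i ∈ Finset.range M, h i x + ∑ i ∈ Finset.range M, h B (f^[i] x) := by
      rw [← Finset.sum_add_distrib]; exact Finset.sum_le_sum fun i _ => sub i B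
    have h3 := Finset.sum_range_add (fun i => h i x) M B
    have h4 := Finset.sum_range_add (fun i => h i x) B M
    rw [add_comm B M, h3] at h4
    simp only [add_comm B] at h4
    linarith
  have h5 : ∑ i ∈ Finset.range B, h i x ≤ B * (K * (B + 1)) := by
    refine (Finset.sum_le_card_nsmul _ _ (K * (B + 1)) fun i hi => ?_).trans_eq ?_
    · have : (i : ℝ) ≤ B := by exact_mod_cast (Finset.mem_range.1 hi).le
      have h6 := hb i 0
      simp only [Function.iterate_zero, id_eq] at h6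
      nlinarith
    · rw [Finset.card_range, nsmul_eq_mul]
  have h6 : B * (h (M + B) x - K * (B + 1)) ≤ ∑ i ∈ Finset.range B, h (M + i) x := by
    refine Eq.trans_le ?_ (Finset.card_nsmul_le_sum _ _ (h (M + B) x - K * (B + 1)) fun i hi => ?_)
    · rw [Finset.card_range, nsmul_eq_mul]
    · have hi' := (Finset.mem_range.1 hi).le
      have h7 := sub (M + i) (B - i)
      rw [show M + i + (B - i) = M + B by omega] at h7
      have h8 := hb (B - i) (M + i)
      have : ((B - i : ℕ) : ℝ) ≤ B := by exact_mod_cast Nat.sub_le B i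
      nlinarith
  nlinarith

/-- The stopping time argument on an invariant set. -/
theorem kw_on [IsProbabilityMeasure μ] (hf : MeasurePreserving f μ μ) {h : ℕ → X → ℝ}
    (hm : ∀ N, Measurable (h N)) {K : ℝ} (hb : ∀ N x, |h N x| ≤ K * (N + 1))
    (sub : ∀ a b x, h (a + b) x ≤ h a x + h b (f^[a] x)) {L : ℝ}
    (hL : ∀ᵐ x ∂μ, ∃ k, 1 ≤ k ∧ h k x ≤ L * k) {ε : ℝ} (hε : 0 < ε) :
    ∃ N : ℕ, 1 ≤ N ∧ ∫ x, h N x ∂μ ≤ (L + ε) * N := by
  obtain ⟨x0⟩ : Nonempty X := nonempty_of_isProbabilityMeasure μ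
  have hK : 0 ≤ K := by simpa using (abs_nonneg _).trans (hb 0 x0)
  set T := 2 * K + |L| with hT
  have h0 : ∀ x, 0 ≤ h 0 x := fun x => by
    have := sub 0 0 x
    simp only [add_zero, Function.iterate_zero, id_eq] at this
    linarith
  obtain ⟨N, hN, -, hN'⟩ := kw hf (c := fun k x => h k x + T * k) (S := univ)
    (ae_of_all _ fun _ => trivial) (mapsTo_univ _ _) (fun k => (hm k).add_const _)
    (fun k x => by
      rcases Nat.eq_zero_or_pos k with rfl | hk
      · simpa using h0 x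
      · have h1 : (1 : ℝ) ≤ k := by exact_mod_cast hk
        have h2 := (abs_le.1 (hb k x)).1
        have h3 : 0 ≤ |L| * k := by positivity
        nlinarith)
    (fun a b x _ => by have := sub a b x; push_cast; linarith)
    ((Erg_int (hm 1) (hb 1)).add (integrable_const _)) (L := L + T)
    (by linarith [neg_abs_le L])
    (hL.mono fun x ⟨k, hk, hk'⟩ => ⟨k, hk, by linarith⟩) hε
  refine ⟨N, hN, ?_⟩
  rw [integral_add (Erg_int (hm N) (hb N)) (integrable_const _), integral_const] at hN'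
  simp only [probReal_univ, smul_eq_mul, one_mul] at hN'
  linarith

theorem Erg_meas_freq {p : ℕ → X → Prop} (hp : ∀ N, MeasurableSet {x | p N x}) :
    MeasurableSet {x | ∃ᶠ N in atTop, p N x} := by
  have : {x | ∃ᶠ N in atTop, p N x} = ⋂ a, ⋃ b, ⋃ (_ : a ≤ b), {x | p b x} := by
    ext x; simp only [mem_ofPred_eq, frequently_atTop, mem_iInter, mem_iUnion, exists_prop]
  rw [this]
  exact MeasurableSet.iInter fun a => MeasurableSet.iUnion fun b => MeasurableSet.iUnion fun _ => hp b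

/-- The lower half of the subadditive ergodic theorem. -/
theorem kingman_lo [IsProbabilityMeasure μ] (hf : MeasurePreserving f μ μ) {h : ℕ → X → ℝ}
    (hm : ∀ N, Measurable (h N)) {K : ℝ} (hb : ∀ N x, |h N x| ≤ K * (N + 1))
    (sub : ∀ a b x, h (a + b) x ≤ h a x + h b (f^[a] x)) {L : ℝ}
    (hlo : ∀ (μ' : Measure X) (C : ℝ), IsProbabilityMeasure μ' → MeasurePreserving f μ' μ' →
      (∀ A, μ' A ≤ ENNReal.ofReal C * μ A) → ∀ N : ℕ, 1 ≤ N → L * N ≤ ∫ x, h N x ∂μ') :
    ∀ᵐ x ∂μ, ∀ ε : ℝ, 0 < ε → ∀ᶠ N : ℕ in atTop, (L - ε) * N ≤ h N x := by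
  have key : ∀ ε : ℝ, 0 < ε → ∀ᵐ x ∂μ, ∀ᶠ N : ℕ in atTop, (L - ε) * N ≤ h N x := fun ε hε => by
    set D : Set X := ⋃ j : ℕ, {x | ∃ᶠ N : ℕ in atTop, h N x < (L - ε / 2 - 1 / (j + 1)) * N} with hD
    have hDm : MeasurableSet D := MeasurableSet.iUnion fun j =>
      Erg_meas_freq fun N => measurableSet_lt (hm N) measurable_const
    have hsub : f ⁻¹' D ⊆ D := fun x hx => by
      obtain ⟨j, hj⟩ := mem_iUnion.1 hx
      refine mem_iUnion.2 ⟨2 * j + 1, ?_⟩
      have hj' : ∃ᶠ N : ℕ in atTop, h N (f x) < (L - ε / 2 - 1 / (j + 1)) * N := hj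
      have hp : (0 : ℝ) < 1 / (2 * (j + 1)) := by positivity
      have e1 : (1 : ℝ) / (((2 * j + 1 : ℕ) : ℝ) + 1) = 1 / (2 * (j + 1)) := by
        push_cast; ring
      have e2 : (1 : ℝ) / (j + 1) = 2 * (1 / (2 * (j + 1))) := by field_simp
      show ∃ᶠ N : ℕ in atTop, h N x < _
      rw [e1]
      rw [e2] at hj'
      set δ : ℝ := 1 / (2 * (j + 1))
      have hev : ∀ᶠ N : ℕ in atTop, h 1 x - (L - ε / 2 - δ) ≤ δ * N :=
        (tendsto_natCast_atTop_atTop.const_mul_atTop hp).eventually_ge_atTop _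
      refine (tendsto_add_atTop_nat 1).frequently ((hj'.and_eventually hev).mono fun N hN => ?_)
      have h1 := sub 1 N x
      rw [add_comm 1 N, Function.iterate_one] at h1
      push_cast
      nlinarith [hN.1, hN.2]
    have hae : ∀ᵐ x ∂μ, x ∈ D → f x ∈ D := by
      have := ae_eq_of_subset_of_measure_ge hsub (hf.measure_preimage hDm.nullMeasurableSet).ge
        (hf.measurable hDm).nullMeasurableSet (measure_ne_top μ _)
      filter_upwards [this] with x hx hxD
      exact (show (f ⁻¹' D) x from hx ▸ hxD)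
    set B : Set X := ⋂ i : ℕ, f^[i] ⁻¹' D with hB
    have hBm : MeasurableSet B := MeasurableSet.iInter fun i => hf.measurable.iterate i hDm
    have hBi : MapsTo f B B := fun x hx => mem_iInter.2 fun i => by
      have := mem_iInter.1 hx (i + 1)
      rwa [mem_preimage, Function.iterate_succ_apply] at this
    have hB0 : μ B = 0 := by
      by_contra h0
      obtain ⟨μ', C, hp, hf', hB', -, hle⟩ := exists_restrict hf hBm hBi h0
      obtain ⟨N, hN, hN'⟩ := kw_on hf' hm hb sub (L := L - ε / 2) (hB'.mono fun x hx => by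
        obtain ⟨j, hj⟩ := mem_iUnion.1 (mem_iInter.1 hx 0)
        have hj' : ∃ᶠ N : ℕ in atTop, h N x < (L - ε / 2 - 1 / (j + 1)) * N := hj
        obtain ⟨k, hk, hk1⟩ := (hj'.and_eventually (eventually_ge_atTop 1)).exists
        have : (0 : ℝ) ≤ 1 / (j + 1) * k := by positivity
        exact ⟨k, hk1, by nlinarith⟩) (ε := ε / 4) (by positivity)
      have h1 := hlo μ' C hp hf' hle N hN
      have h2 : (1 : ℝ) ≤ N := by exact_mod_cast hN
      nlinarith
    have hall : ∀ᵐ x ∂μ, ∀ i, f^[i] x ∈ D → f (f^[i] x) ∈ D :=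
      ae_all_iff.2 fun i => (hf.iterate i).quasiMeasurePreserving.ae hae
    filter_upwards [hall, measure_eq_zero_iff_ae_notMem.1 hB0] with x hx hxB
    by_contra hc
    refine hxB (mem_iInter.2 fun i => ?_)
    induction i with
    | zero =>
      obtain ⟨j, hj⟩ := exists_nat_one_div_lt (half_pos hε)
      refine mem_iUnion.2 ⟨j, ?_⟩
      refine (not_eventually.1 hc).mono fun N hN => ?_
      have : (0 : ℝ) ≤ (ε / 2 - 1 / (j + 1)) * N := mul_nonneg (by linarith) N.cast_nonneg
      nlinarith [not_le.1 hN]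
    | succ i ih => rw [mem_preimage, Function.iterate_succ_apply']; exact hx i ih
  filter_upwards [ae_all_iff.2 fun j : ℕ => key (1 / (j + 1)) Nat.one_div_pos_of_nat] with x hx ε hε
  obtain ⟨j, hj⟩ := exists_nat_one_div_lt hε
  refine (hx j).mono fun N hN => le_trans ?_ hN
  exact mul_le_mul_of_nonneg_right (by linarith) N.cast_nonneg

/-- Upper half of the pointwise ergodic theorem. -/
theorem birkhoff_up [IsProbabilityMeasure μ] (hf : MeasurePreserving f μ μ) {g : X → ℝ}
    (hm : Measurable g) {K : ℝ} (hb : ∀ x, |g x| ≤ K) (he : Erg f μ g) :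
    ∀ᵐ x ∂μ, ∀ ε : ℝ, 0 < ε → ∀ᶠ N : ℕ in atTop,
      birkhoffSum f g N x ≤ (∫ x, g x ∂μ + ε) * N := by
  have := kingman_lo hf (h := fun N x => -birkhoffSum f g N x)
    (fun N => (measurable_birkhoffSum hf.measurable hm N).neg) (K := K)
    (fun N x => by
      have h1 := Erg_bs_abs (f := f) hb N x
      have h2 := (abs_nonneg _).trans (hb x)
      rw [abs_neg]; nlinarith)
    (fun a b x => by rw [birkhoffSum_add]; linarith) (L := -∫ x, g x ∂μ)
    (fun μ' C hp hf' hle N _ => by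
      rw [integral_neg, (integral_birkhoffSum hf' (Erg_int hm hb) N).2, he μ' C hp hf' hle]
      linarith)
  filter_upwards [this] with x hx ε hε
  exact (hx ε hε).mono fun N hN => by linarith

/-- The subadditive ergodic theorem. -/
theorem kingman [IsProbabilityMeasure μ] (hf : MeasurePreserving f μ μ) {h : ℕ → X → ℝ}
    (hm : ∀ N, Measurable (h N)) {K : ℝ} (hb : ∀ N x, |h N x| ≤ K * (N + 1))
    (sub : ∀ a b x, h (a + b) x ≤ h a x + h b (f^[a] x)) (he : ∀ N, Erg f μ (h N)) {L : ℝ}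
    (hlo : ∀ N : ℕ, 1 ≤ N → L * N ≤ ∫ x, h N x ∂μ)
    (hup : ∀ ε : ℝ, 0 < ε → ∃ B : ℕ, 1 ≤ B ∧ ∫ x, h B x ∂μ ≤ (L + ε) * B) :
    ∀ᵐ x ∂μ, ∀ ε : ℝ, 0 < ε → ∀ᶠ N : ℕ in atTop, (L - ε) * N ≤ h N x ∧ h N x ≤ (L + ε) * N := by
  filter_upwards [kingman_lo hf hm hb sub (L := L) fun μ' C hp hf' hle N hN => by
      rw [he N μ' C hp hf' hle]; exact hlo N hN,
    ae_all_iff.2 fun B => birkhoff_up hf (hm B) (hb B) (he B)] with x h1 h2 ε hε
  refine (h1 ε hε).and ?_
  have hK : 0 ≤ K := by simpa using (abs_nonneg _).trans (hb 0 x)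
  obtain ⟨B, hB, hB'⟩ := hup (ε / 4) (by positivity)
  have hB1 : (1 : ℝ) ≤ B := by exact_mod_cast hB
  have hev : ∀ᶠ M : ℕ in atTop, 2 * K * (B + 1) - (L + ε) * B ≤ ε / 2 * M :=
    (tendsto_natCast_atTop_atTop.const_mul_atTop (half_pos hε)).eventually_ge_atTop _
  obtain ⟨M0, hM0⟩ := eventually_atTop.1 ((h2 B (ε / 4) (by positivity)).and hev)
  refine eventually_atTop.2 ⟨M0 + B, fun N hN => ?_⟩
  obtain ⟨M, rfl⟩ : ∃ M, N = M + B := ⟨N - B, by omega⟩
  obtain ⟨h3, h4⟩ := hM0 M (by omega)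
  have h5 := block_le (f := f) (x := x) (fun N i => (le_abs_self _).trans (hb N _))
    (fun a b => sub a b x) hK M B
  have h6 : (∫ x, h B x ∂μ + ε / 4) * M ≤ B * ((L + ε / 2) * M) := by
    have : ∫ x, h B x ∂μ + ε / 4 ≤ B * (L + ε / 2) := by nlinarith
    rw [← mul_assoc]; exact mul_le_mul_of_nonneg_right this M.cast_nonneg
  have h7 : (B : ℝ) * h (M + B) x ≤ B * ((L + ε) * ((M + B : ℕ) : ℝ)) := by
    have h8 := mul_le_mul_of_nonneg_left h4 (by linarith : (0 : ℝ) ≤ B)
    have h9 : ∑ i ∈ Finset.range M, h B (f^[i] x) = birkhoffSum f (h B) M x := rfl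
    push_cast
    nlinarith
  exact le_of_mul_le_mul_left h7 (by linarith)

/-- Almost every point of a set returns to it with positive lower frequency. -/
theorem visits [IsProbabilityMeasure μ] (hf : MeasurePreserving f μ μ) {A : Set X}
    (hA : MeasurableSet A) : ∀ᵐ x ∂μ, x ∈ A → ∃ η : ℝ, 0 < η ∧ ∀ᶠ N : ℕ in atTop,
      η * N ≤ birkhoffSum f (A.indicator 1) N x := by
  set g : X → ℝ := A.indicator 1 with hg
  have hgm : Measurable g := measurable_one.indicator hA
  have hg0 : ∀ x, 0 ≤ g x := fun x => indicator_nonneg (fun _ _ => zero_le_one) x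
  have hgb : ∀ x, |g x| ≤ 1 := fun x => by
    rw [abs_of_nonneg (hg0 x)]; exact indicator_le_self' (fun _ _ => zero_le_one) x
  set D : Set X := ⋂ j : ℕ, {x | ∃ᶠ N : ℕ in atTop, birkhoffSum f g N x < 1 / (j + 1) * N} with hD
  have hDm : MeasurableSet D := MeasurableSet.iInter fun j => Erg_meas_freq fun N =>
    measurableSet_lt (measurable_birkhoffSum hf.measurable hgm N) measurable_const
  have hDi : MapsTo f D D := fun x hx => mem_iInter.2 fun j => by
    have h1 : ∃ᶠ N : ℕ in atTop,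
        birkhoffSum f g N x < 1 / (((2 * j + 1 : ℕ) : ℝ) + 1) * N := mem_iInter.1 hx (2 * j + 1)
    have e1 : (1 : ℝ) / (((2 * j + 1 : ℕ) : ℝ) + 1) = 1 / (2 * (j + 1)) := by push_cast; ring
    have e2 : (1 : ℝ) / (j + 1) = 2 * (1 / (2 * (j + 1))) := by field_simp
    have hp : (0 : ℝ) < 1 / (2 * (j + 1)) := by positivity
    show ∃ᶠ N : ℕ in atTop, birkhoffSum f g N (f x) < _
    rw [e2]
    rw [e1] at h1
    refine frequently_atTop.2 fun a => ?_
    obtain ⟨b, hb, hb'⟩ := frequently_atTop.1 h1 (a + 2)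
    obtain ⟨c, rfl⟩ : ∃ c, b = c + 1 := ⟨b - 1, by omega⟩
    refine ⟨c, by omega, ?_⟩
    rw [birkhoffSum_succ'] at hb'
    have : (1 : ℝ) ≤ c := by exact_mod_cast (by omega : 1 ≤ c)
    push_cast at hb'
    nlinarith [hg0 x]
  have h0 : μ (A ∩ D) = 0 := by
    by_contra h0
    have hD0 : μ D ≠ 0 := fun h => h0 (measure_mono_null inter_subset_right h)
    have h1 : D =ᵐ[μ] f ⁻¹' D :=
      ae_eq_of_subset_of_measure_ge hDi (hf.measure_preimage hDm.nullMeasurableSet).le
        hDm.nullMeasurableSet (measure_ne_top μ _)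
    have h2 : MeasurePreserving f (μ.restrict D) (μ.restrict D) := by
      have := hf.restrict_preimage hDm
      rwa [← Measure.restrict_congr_set h1] at this
    set μ' : Measure X := (μ D)⁻¹ • μ.restrict D with hμ'
    have : IsProbabilityMeasure μ' := ⟨by
      rw [hμ', Measure.smul_apply, Measure.restrict_apply_univ, smul_eq_mul,
        ENNReal.inv_mul_cancel hD0 (measure_ne_top _ _)]⟩
    have hf' : MeasurePreserving f μ' μ' := h2.smul_measure _
    have hpos : 0 < ∫ x, g x ∂μ' := by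
      rw [hg, integral_indicator_one hA, hμ', measureReal_def, Measure.smul_apply,
        Measure.restrict_apply hA, smul_eq_mul]
      exact ENNReal.toReal_pos (mul_ne_zero (ENNReal.inv_ne_zero.2 (measure_ne_top _ _)) h0)
        (ENNReal.mul_ne_top (ENNReal.inv_ne_top.2 hD0) (measure_ne_top _ _))
    obtain ⟨j, hj⟩ := exists_nat_one_div_lt (half_pos hpos)
    obtain ⟨N, hN, hN'⟩ := kw_on hf' (h := birkhoffSum f g)
      (measurable_birkhoffSum hf.measurable hgm) (K := 1)
      (fun N x => by have := Erg_bs_abs (f := f) hgb N x; linarith)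
      (fun a b x => (birkhoffSum_add f g a b x).le) (L := 1 / (j + 1))
      ((Measure.ae_smul_measure (ae_restrict_mem hDm) _).mono fun x hx => by
        have h3 : ∃ᶠ N : ℕ in atTop, birkhoffSum f g N x < 1 / (j + 1) * N := mem_iInter.1 hx j
        obtain ⟨k, hk, hk1⟩ := (h3.and_eventually (eventually_ge_atTop 1)).exists
        exact ⟨k, hk1, hk.le⟩) (half_pos hpos)
    rw [(integral_birkhoffSum hf' (Erg_int hgm hgb) N).2] at hN'
    have : (1 : ℝ) ≤ N := by exact_mod_cast hN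
    nlinarith
  filter_upwards [measure_eq_zero_iff_ae_notMem.1 h0] with x hx hxA
  have : x ∉ D := fun h => hx ⟨hxA, h⟩
  obtain ⟨j, hj⟩ : ∃ j : ℕ, ¬∃ᶠ N : ℕ in atTop, birkhoffSum f g N x < 1 / (j + 1) * N := by
    by_contra hc
    exact this (mem_iInter.2 fun j => not_not.1 fun h => hc ⟨j, h⟩)
  exact ⟨1 / (j + 1), Nat.one_div_pos_of_nat, (not_frequently.1 hj).mono fun N hN => not_lt.1 hN⟩

end Pool.Agent.Lib.MP_a47f92_an
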