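import Pool.Agent.Lib.MP_a47f92_an.G.DBm
import Pool.Agent.Lib.MP_a47f92_an.G.Dyn
import Pool.Agent.Lib.MP_a47f92_an.G.Cur1b
import Pool.Agent.Lib.MP_a47f92_an.G.Cur2
import Pool.Agent.Lib.MP_a47f92_an.G.Erg

set_option autoImplicit false
set_option linter.unusedSectionVars false

namespace Pool.Agent.Lib.MP_a47f92_an

open MeasureTheory Filter Topology Set Complex Metric Function
open scoped ContDiff ComplexConjugate ComplexOrder Matrix ENNReal NNReal

/-! Norms of exterior powers along the orbit, under `S ∧ T_k ^ s`. -/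

variable {n d s p : ℕ} {F : E n → E n} {S : Measure (Fr n s)} {ν : Measure (E n)} {L ε : ℝ}

/-- `IsCur.wg_univ`, `Closed.p1_one`, `pl_green`. -/
theorem D_prob (hS : Cl1 S) (hF : IsLift d F) (hd : 1 ≤ d) (k : ℕ) :
    IsProbabilityMeasure (wg S (gs d F k s)) := ⟨by
  rw [hS.cur.wg_univ (pps_gs hF hd k s), hS.closed.p1_one hS.cur fun _ => (pl_green hF hd k).lh,
    hS.mass, ENNReal.ofReal_one]⟩

/-- `LH.comp0`, `LH.bm`. -/
theorem D_lh_int {a : E n → ℝ} (ha : LH 0 a) (hF : IsLift d F) (i : ℕ) (μ : Measure (E n))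
    [IsFiniteMeasure μ] : Integrable (fun z => a (F^[i] z)) μ := by
  obtain ⟨hm, C, hC⟩ := (ha.comp0 (hF.iterate i)).bm
  exact Erg_int hm hC

theorem D_pr_eq {a : E n → ℝ} (hS : Cl1 S) (hF : IsLift d F) (hd : 1 ≤ d) (ha : Measurable a)
    (k : ℕ) : pr S a (gs d F k s) = ∫ z, a z ∂wg S (gs d F k s) :=
  (hS.cur.integral_wg ha (pps_gs hF hd k s)).symm

/-- Telescoping of shifted differences. -/
theorem D_tel (x : ℕ → ℝ) (N w : ℕ) : ∑ i ∈ Finset.range N, (x (i + w) - x i) =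
    ∑ j ∈ Finset.range w, (x (N + j) - x j) := by
  have h1 := Finset.sum_range_add x N w
  have h2 := Finset.sum_range_add x w N
  rw [add_comm w N, h1] at h2
  simp only [add_comm w] at h2
  rw [Finset.sum_sub_distrib, Finset.sum_sub_distrib]
  linarith

theorem DUp_sum (t : ℕ → ℝ) (M N : ℕ) {a C : ℝ} (hC : 0 ≤ C) (h1 : ∀ j < M, t j ≤ a + C)
    (h2 : ∀ j, N ≤ j → j + N ≤ M → t j ≤ a) :
    ∑ j ∈ Finset.range M, t j ≤ M * a + 2 * N * C := by
  have h3 : ((Finset.range M).filter fun j => ¬ (N ≤ j ∧ j + N ≤ M)).card ≤ 2 * N := by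
    refine (Finset.card_le_card (t := Finset.range N ∪ Finset.Ico (M - N) M) fun j hj => ?_).trans
      ((Finset.card_union_le _ _).trans ?_)
    · simp only [Finset.mem_filter, Finset.mem_range, Finset.mem_union, Finset.mem_Ico] at hj ⊢
      omega
    · rw [Finset.card_range, Nat.card_Ico]
      omega
  have h4 : ∑ j ∈ Finset.range M, t j ≤
      ∑ j ∈ Finset.range M, (a + if ¬ (N ≤ j ∧ j + N ≤ M) then C else 0) := by
    refine Finset.sum_le_sum fun j hj => ?_
    split_ifs with h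
    · exact (h2 j h.1 h.2).trans_eq (add_zero a).symm
    · exact h1 j (Finset.mem_range.1 hj)
  rw [Finset.sum_add_distrib, ← Finset.sum_filter, Finset.sum_const, Finset.sum_const,
    Finset.card_range, nsmul_eq_mul, nsmul_eq_mul] at h4
  refine h4.trans (add_le_add le_rfl (mul_le_mul_of_nonneg_right ?_ hC))
  exact_mod_cast h3

/-- Choose `B ≥ 1` with `∫ hh B ∂ν ≤ B (L + ε / 4)` and `N₁` from `CV` for `a = hh B` and
`ε / 4`. For `N = M' + B`, `block_le` (with `D_hh_add`, `D_hh_abs`, at the point `F^[i] z`) gives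
`B * hh N (F^[i] z) ≤ ∑ j < M', hh B (F^[i + j] z) + 2 K B (B + 1)`. Integrate against the
probability measure `wg S (gs (i + M))`, `i + M = (i + j) + (M - j)`: the terms with `N₁ ≤ j` and
`j + N₁ ≤ N` are at most `B (L + ε / 2)`, the at most `2 N₁` other terms at most `K (B + 1)`. -/
theorem D_up (hS : Cl1 S) (hF : IsLift d F) (hd : 1 ≤ d) (hcv : CV d s F S ν)
    (ha : Tendsto (fun N : ℕ => (∫ z, hh d F p N z ∂ν) / N) atTop (𝓝 L)) (hε : 0 < ε) :
    ∃ N₀, ∀ N i M : ℕ, N₀ ≤ N → N ≤ M →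
      ∫ z, hh d F p N (F^[i] z) ∂wg S (gs d F (i + M) s) ≤ N * (L + ε) := by
  obtain ⟨K, hK, hb⟩ := D_hh_abs hF hd p
  obtain ⟨B, hB1, hB2⟩ := ((eventually_ge_atTop 1).and
    (ha.eventually (eventually_le_nhds (show L < L + ε / 4 by linarith)))).exists
  have hB : (1 : ℝ) ≤ B := by exact_mod_cast hB1
  rw [div_le_iff₀ (by linarith)] at hB2
  obtain ⟨N₁, hN₁⟩ := hcv _ (D_hh_lh hF hd p B) (ε / 4) (by linarith)
  obtain ⟨A, hA⟩ : ∃ A, A = |B * (L + ε / 2)| := ⟨_, rfl⟩
  have hA0 : 0 ≤ A := hA ▸ abs_nonneg _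
  have hA1 : -A ≤ B * (L + ε / 2) := hA ▸ neg_abs_le _
  obtain ⟨N₂, hN₂⟩ := exists_nat_ge
    ((B * A + 2 * N₁ * (K * (B + 1) + A) + 2 * K * B * (B + 1)) / (ε / 2))
  refine ⟨max B N₂, fun N i M hN hM => ?_⟩
  obtain ⟨M', rfl⟩ := Nat.exists_eq_add_of_le' (le_of_max_le_left hN)
  have hN' : (N₂ : ℝ) ≤ (M' + B : ℕ) := by exact_mod_cast le_of_max_le_right hN
  have hP := D_prob hS hF hd (i + M)
  have h0 := wg_ne S (pps_gs hF hd (i + M) s).pots
  have hi := fun a c => D_lh_int (D_hh_lh hF hd p a) hF c (wg S (gs d F (i + M) s))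
  have h1 : ∫ z, B * hh d F p (M' + B) (F^[i] z) ∂wg S (gs d F (i + M) s) ≤
      ∫ z, (∑ j ∈ Finset.range M', hh d F p B (F^[i + j] z) + 2 * K * B * (B + 1))
        ∂wg S (gs d F (i + M) s) := by
    refine integral_mono_ae ((hi _ _).const_mul _)
      ((integrable_finsetSum _ fun j _ => hi _ _).add (integrable_const _)) (h0.mono fun z hz => ?_)
    have hz' := (hF.iterate i).ne hz
    simp only [D_iter F i, comp_apply]
    exact block_le (f := F) (h := hh d F p)
      (fun a c => (le_abs_self _).trans (hb a _ ((hF.iterate c).ne hz')))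
      (fun a c => D_hh_add hF hd p a c hz') hK M' B
  rw [integral_const_mul, integral_add (integrable_finsetSum _ fun j _ => hi _ _)
    (integrable_const _), integral_finsetSum _ fun j _ => hi _ _, integral_const, probReal_univ,
    one_smul] at h1
  have h2 := DUp_sum (fun j => ∫ z, hh d F p B (F^[i + j] z) ∂wg S (gs d F (i + M) s)) M' N₁
    (a := B * (L + ε / 2)) (C := K * (B + 1) + A) (by positivity)
    (fun j _ => by
      have k := integral_mono_ae (hi B (i + j)) (integrable_const (K * (B + 1)))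
        (h0.mono fun z hz => (le_abs_self _).trans (hb B _ ((hF.iterate _).ne hz)))
      rw [integral_const, probReal_univ, one_smul] at k
      linarith)
    fun j k1 k2 => by
      have k := (abs_le.1 (hN₁ (i + j) (M - j) (by omega) (by omega))).2
      rw [show i + j + (M - j) = i + M by omega, D_pr_eq hS hF hd
        ((D_hh_lh hF hd p B).comp0 (hF.iterate _)).bm.meas] at k
      nlinarith
  rw [div_le_iff₀ (by linarith)] at hN₂
  refine le_of_mul_le_mul_left ?_ (show (0 : ℝ) < B by linarith)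
  have h3 : (N₂ : ℝ) * (ε / 2) ≤ B * ((M' + B : ℕ) * (ε / 2)) :=
    (mul_le_mul_of_nonneg_right hN' (by linarith)).trans
      (le_mul_of_one_le_left (by positivity) hB)
  have h4 := mul_le_mul_of_nonneg_left hA1 (show (0 : ℝ) ≤ B by linarith)
  push_cast at h3 ⊢
  nlinarith

/-- Dominated convergence under `ν` (`D_hh_abs`), then `CV` for the smooth invariant function
`(hh N / N - L) ^ 2` (`LH.rcomp`). -/
theorem D_l2 (hS : Cl1 S) (hF : IsLift d F) (hd : 1 ≤ d) (hcv : CV d s F S ν) [IsFiniteMeasure ν]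
    (h0 : ∀ᵐ z ∂ν, z ≠ 0)
    (hk : ∀ᵐ z ∂ν, Tendsto (fun N : ℕ => hh d F p N z / N) atTop (𝓝 L)) (hε : 0 < ε) :
    ∃ N₀, ∀ N : ℕ, N₀ ≤ N → ∃ i₀, ∀ i M : ℕ, i₀ ≤ i → i₀ ≤ M →
      ∫ z, (hh d F p N (F^[i] z) / N - L) ^ 2 ∂wg S (gs d F (i + M) s) ≤ ε := by
  obtain ⟨K, hK, hb⟩ := D_hh_abs hF hd p
  have hl : ∀ N : ℕ, LH 0 fun z => (hh d F p N z / N - L) ^ 2 := fun N =>
    (D_hh_lh hF hd p N).rcomp (φ := fun x => (x / N - L) ^ 2) (by fun_prop)
  have h1 := tendsto_integral_of_dominated_convergence (μ := ν)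
    (F := fun (N : ℕ) z => (hh d F p N z / N - L) ^ 2) (f := fun _ => 0)
    (fun _ => (2 * K + |L|) ^ 2) (fun N => (hl N).bm.meas.aestronglyMeasurable)
    (integrable_const _)
    (fun N => h0.mono fun z hz => by
      rw [Real.norm_eq_abs, abs_pow]
      refine pow_le_pow_left₀ (abs_nonneg _) ((abs_sub _ _).trans (add_le_add ?_ le_rfl)) 2
      rcases N.eq_zero_or_pos with rfl | hN
      · simp only [Nat.cast_zero, div_zero, abs_zero]
        positivity
      · have hN' : (1 : ℝ) ≤ N := by exact_mod_cast hN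
        rw [abs_div, Nat.abs_cast, div_le_iff₀ (by linarith)]
        nlinarith [hb N z hz])
    (hk.mono fun z hz => by simpa using (hz.sub_const L).pow 2)
  rw [integral_zero] at h1
  obtain ⟨N₀, hN₀⟩ := eventually_atTop.1 (h1.eventually (eventually_le_nhds (half_pos hε)))
  refine ⟨N₀, fun N hN => ?_⟩
  obtain ⟨i₀, hi⟩ := hcv _ (hl N) (ε / 2) (half_pos hε)
  refine ⟨i₀, fun i M h2 h3 => ?_⟩
  have k := (abs_le.1 (hi i M h2 h3)).2
  rw [D_pr_eq hS hF hd ((hl N).comp0 (hF.iterate i)).bm.meas] at k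
  linarith [hN₀ N hN]

end Pool.Agent.Lib.MP_a47f92_an
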