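import Pool.Agent.Lib.MP_a47f92_an.G.DTh
import Pool.Agent.Lib.MP_a47f92_an.G.DUp
import Pool.Agent.Lib.MP_a47f92_an.G.Cur4

set_option autoImplicit false
set_option linter.unusedSectionVars false

namespace Pool.Agent.Lib.MP_a47f92_an

open MeasureTheory Filter Topology Set Complex Metric Function
open scoped ContDiff ComplexConjugate ComplexOrder Matrix ENNReal NNReal

/-! Step 6: the curvature mass of the conormal is small on average. -/

variable {n d s : ℕ} {F : E n → E n} {τ φ φ' : Measure (Fr n s)} {Ψ Y Y' : Measure (Fr n (s + 1))}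
  {ν : Measure (E n)} {Z : Set (E n)} {δ : ℝ}

/-- `pe m (F^[w] z) = bt m (F^[w] z) + (s + 1) * lg (F^[w + m] z)`; `pr_cons_add`,
`pr_cons_const_mul`, `h.dΨ`, `pr_lam_gs` (with `j = 1`), `D_pr_eq`. -/
theorem DGam_eq (h : Dyn d s F τ φ φ' Ψ Y Y' ν Z δ) (w m : ℕ) (ℓ : E ((s + 1) * n)) :
    gam d F Ψ w m ℓ =
      ∫ z, bt d F (mt (s + 1) n ℓ) m (F^[w] z) ∂wg φ (gs d F (w + m) s) -
        ∫ z, bt d F (mt (s + 1) n ℓ) m (F^[w + 1] z) ∂wg φ (gs d F (w + 1 + m) s) +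
        (s + 1) * p1 Ψ (Fin.cons (fun z => lg (F^[w + m] z)) (gs d F (w + m) s)) := by
  have hd : 1 ≤ d := one_le_two.trans h.hd
  have hb := (D_pe_pl h.hF hd (mt (s + 1) n ℓ) m).2
  have h1 := hb.comp0 (h.hF.iterate w)
  have h2 := hb.comp0 (h.hF.iterate (w + 1))
  have hq := (pps_gs h.hF hd (w + m) s).pots
  have e1 : (fun z => pe d F (mt (s + 1) n ℓ) m (F^[w] z)) = fun z =>
      bt d F (mt (s + 1) n ℓ) m (F^[w] z) + (s + 1) * lg (F^[w + m] z) := by
    funext z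
    rw [pe, add_comm w m, iterate_add_apply]
  have e2 := h.dΨ _ h1 _ hq
  rw [h.cφ.cur.pr_lam_gs h.hF hd 1 (w + m) h1.measurable, add_right_comm w m 1] at e2
  simp only [← iterate_add_apply] at e2
  rw [D_pr_eq h.cφ h.hF hd h1.measurable, D_pr_eq h.cφ h.hF hd h2.measurable] at e2
  rw [gam, e1, p1, h.cΨ.pr_cons_add (bm_const 1) hq h1
    ((lh_lg.comp (h.hF.iterate (w + m))).const_mul _), pr_cons_const_mul, ← e2]
  rfl

/-- `gam ≥ 0` (`p1_nonneg`, `D_pe_pl`, `PL.comp`), `ofReal_integral_eq_lintegral_ofReal`,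
`D_bb_int`. -/
theorem DGam_int (h : Dyn d s F τ φ φ' Ψ Y Y' ν Z δ) (w m : ℕ) :
    ∃ x : ℝ, 0 ≤ x ∧
      ∫⁻ ℓ, ENNReal.ofReal (gam d F Ψ w m ℓ) ∂ub ((s + 1) * n) = ENNReal.ofReal x ∧
      x = ∫ z, bb d s F m (F^[w] z) ∂wg φ (gs d F (w + m) s) -
        ∫ z, bb d s F m (F^[w + 1] z) ∂wg φ (gs d F (w + 1 + m) s) +
        (s + 1) * p1 Ψ (Fin.cons (fun z => lg (F^[w + m] z)) (gs d F (w + m) s)) := by
  have hd : 1 ≤ d := one_le_two.trans h.hd
  have := D_prob h.cφ h.hF hd (w + m)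
  have := D_prob h.cφ h.hF hd (w + 1 + m)
  obtain ⟨-, a1, a2⟩ := D_bb_int h.hF hd s m w (wg_ne φ (pps_gs h.hF hd (w + m) s).pots)
  obtain ⟨-, b1, b2⟩ := D_bb_int h.hF hd s m (w + 1) (wg_ne φ (pps_gs h.hF hd (w + 1 + m) s).pots)
  have h0 : ∀ ℓ, 0 ≤ gam d F Ψ w m ℓ := fun ℓ => h.cΨ.p1_nonneg ((pps_gs h.hF hd (w + m) s).cons
    ((D_pe_pl h.hF hd (mt (s + 1) n ℓ) m).1.comp (h.hF.iterate w)))
  have e := funext (DGam_eq h w m)
  have hi : Integrable (gam d F Ψ w m) (ub ((s + 1) * n)) := by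
    rw [e]
    exact (a1.sub b1).add (integrable_const _)
  refine ⟨∫ ℓ, gam d F Ψ w m ℓ ∂ub ((s + 1) * n), integral_nonneg h0,
    (ofReal_integral_eq_lintegral_ofReal hi (Eventually.of_forall h0)).symm, ?_⟩
  simp only [DGam_eq h w m]
  rw [integral_add ?_ (integrable_const _), integral_sub a1 b1, a2, b2, integral_const,
    probReal_univ, one_smul]
  exact a1.sub b1

theorem DGam_real (u : ℕ → ℕ → ℝ) (a : ℕ → ℝ) {Λ ε c C₁ C₂ : ℝ} {B L : ℕ} (hε : 0 ≤ ε) (hc : 0 ≤ c)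
    (h1 : ∀ m, u B (B + m) ≤ B * (Λ + ε) + u (2 * B) m)
    (h2 : ∀ m, L ≤ m → u B m ≤ m * (Λ + ε) + C₁) (h3 : ∀ m : ℕ, m * Λ - C₂ ≤ u B m)
    (h4 : ∀ w, ∑ m ∈ Finset.Ico L (2 * L), a (w + m) ≤ 1) :
    ∑ w ∈ Finset.Ico B (2 * B), ∑ m ∈ Finset.Ico L (2 * L),
      (u w m - u (w + 1) m + c * a (w + m)) ≤ B * (ε * (2 * L + B) + C₁ + C₂ + c) := by
  have e1 : ∀ m, ∑ w ∈ Finset.Ico B (2 * B), (u w m - u (w + 1) m) = u B m - u (2 * B) m :=
    fun m => by
    rw [Finset.sum_Ico_eq_sum_range, show 2 * B - B = B by omega, two_mul]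
    exact Finset.sum_range_sub' (fun i => u (B + i) m) B
  have e2 : ∑ w ∈ Finset.Ico B (2 * B), c * ∑ m ∈ Finset.Ico L (2 * L), a (w + m) ≤ B * c := by
    refine (Finset.sum_le_card_nsmul _ _ c fun w _ => mul_le_of_le_one_right hc (h4 w)).trans_eq ?_
    rw [Nat.card_Ico, show 2 * B - B = B by omega, nsmul_eq_mul]
  have e3 : ∑ m ∈ Finset.Ico L (2 * L), (u B m - u (2 * B) m) ≤
      L * (B * (Λ + ε)) - ∑ i ∈ Finset.range L, (u B (L + (i + B)) - u B (L + i)) := by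
    rw [Finset.sum_Ico_eq_sum_range, show 2 * L - L = L by omega, le_sub_iff_add_le,
      ← Finset.sum_add_distrib]
    refine (Finset.sum_le_card_nsmul _ _ (B * (Λ + ε)) fun i _ => ?_).trans_eq ?_
    · have := h1 (L + i)
      rw [show B + (L + i) = L + (i + B) by omega] at this
      linarith
    · rw [Finset.card_range, nsmul_eq_mul]
  have e4 : B * (L * Λ - (L + B) * ε - C₁ - C₂) ≤
      ∑ j ∈ Finset.range B, (u B (L + (L + j)) - u B (L + j)) := by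
    refine le_of_eq_of_le ?_ (Finset.card_nsmul_le_sum _ _ (L * Λ - (L + B) * ε - C₁ - C₂)
      fun j hj => ?_)
    · rw [Finset.card_range, nsmul_eq_mul]
    · have a1 := h2 (L + j) (Nat.le_add_right _ _)
      have a2 := h3 (L + (L + j))
      have a3 : (j : ℝ) * ε ≤ B * ε :=
        mul_le_mul_of_nonneg_right (by exact_mod_cast (Finset.mem_range.1 hj).le) hε
      push_cast at a1 a2
      linarith
  rw [D_tel fun i => u B (L + i)] at e3
  simp only [Finset.sum_add_distrib, ← Finset.mul_sum]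
  rw [Finset.sum_comm]
  simp only [e1]
  rw [← Finset.mul_sum] at e2
  linarith

/-- Put `u w m = ∫ bb m (F^[w] z) ∂wg φ (gs (w + m))`, `Λ = L s`. The sum over `w` telescopes to
`u B m - u (2 B) m` plus `(s + 1) ∑ a (w + m)`, and `∑ m, a (w + m) ≤ ε` (`hm.tail` on the image
of `Ico L (2 L)`). By `D_bb_add` at the point `F^[B] z`,
`u (2 B) m ≥ u B (m + B) - ∫ hh B (F^[B] z) ∂wg φ (gs (B + (B + m)))`, and the last integral is at
most `B (Λ + ε)` (`D_up`). The sum over `m` of `u B m - u B (m + B)` telescopes (`D_tel`) to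
`∑ j < B, u B (L + j) - u B (2 L + j)`. Now `u B m ≤ m (Λ + ε) + C` (`D_bb_near`, `D_up`) and
`u B m ≥ (B + m) Λ - C' - K (B + 1) - C` (`D_bb_near`, `D_hh_add`, `D_hh_abs`, `he.exφ.low`).
The total is at most `ε B (2 L + B) + C'' B (B + 1)`. -/
theorem D_gam (h : Dyn d s F τ φ φ' Ψ Y Y' ν Z δ) (hm : Mix d s F φ φ' Ψ ν) {Λ : ℕ → ℝ}
    (he : Ex d s F φ φ' ν Λ) : ∀ ε : ℝ, 0 < ε → ∃ B₀, ∀ B, B₀ ≤ B → ∃ L₀, ∀ L, L₀ ≤ L →
    ∑ w ∈ Finset.Ico B (2 * B), ∑ m ∈ Finset.Ico L (2 * L),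
      ∫⁻ ℓ, ENNReal.ofReal (gam d F Ψ w m ℓ) ∂ub ((s + 1) * n) ≤ ENNReal.ofReal (ε * B * L) := by
  intro ε hε
  have hd : 1 ≤ d := one_le_two.trans h.hd
  have hF := h.hF
  have hp := D_prob h.cφ hF hd
  have h0 : ∀ k, ∀ᵐ z ∂wg φ (gs d F k s), z ≠ 0 := fun k => wg_ne φ (pps_gs hF hd k s).pots
  have hi := fun N i k => D_lh_int (D_hh_lh hF hd s N) hF i (wg φ (gs d F k s))
  have hj := fun m i k => (D_bb_int hF hd s m i (h0 k)).1
  obtain ⟨N₀, hN₀⟩ := D_up h.cφ hF hd hm.cv (he.avg s) (show 0 < ε / 3 by positivity)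
  obtain ⟨N₁, hN₁⟩ := hm.tail 1 one_pos
  obtain ⟨C, -, hC⟩ := D_bb_near hF hd s
  obtain ⟨K, -, hK⟩ := D_hh_abs hF hd s
  obtain ⟨C', hC'⟩ := he.exφ.low s
  refine ⟨N₀, fun B hB => ?_⟩
  obtain ⟨L₁, hL₁⟩ := exists_nat_ge
    ((ε / 3 * B + C + (C' + K * (B + 1) + C - B * Λ s) + (s + 1)) / (ε / 3))
  refine ⟨max (max N₀ N₁) L₁, fun L hL => ?_⟩
  obtain ⟨⟨l0, l1⟩, l2⟩ : (N₀ ≤ L ∧ N₁ ≤ L) ∧ L₁ ≤ L := by simpa only [max_le_iff] using hL
  choose x x0 x1 x2 using DGam_int h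
  simp only [x1]
  rw [Finset.sum_congr rfl fun w _ => (ENNReal.ofReal_sum_of_nonneg fun m _ => x0 w m).symm,
    ← ENNReal.ofReal_sum_of_nonneg fun w _ => Finset.sum_nonneg fun m _ => x0 w m]
  refine ENNReal.ofReal_le_ofReal ?_
  simp only [x2]
  refine (DGam_real (fun w m => ∫ z, bb d s F m (F^[w] z) ∂wg φ (gs d F (w + m) s))
    (fun j => p1 Ψ (Fin.cons (fun z => lg (F^[j] z)) (gs d F j s))) (Λ := Λ s) (ε := ε / 3)
    (C₁ := C) (C₂ := C' + K * (B + 1) + C - B * Λ s) (by positivity) (by positivity)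
    (fun m => ?_) (fun m hm => ?_) (fun m => ?_) fun w => ?_).trans ?_
  · refine le_trans ?_ (add_le_add_left (hN₀ B B (B + m) hB (Nat.le_add_right _ _)) _)
    rw [show 2 * B + m = B + (B + m) by omega, ← integral_add (hi _ _ _) (hj _ _ _)]
    refine integral_mono_ae (hj _ _ _) ((hi _ _ _).add (hj _ _ _)) ((h0 _).mono fun z hz => ?_)
    have := D_bb_add hF hd s B m ((hF.iterate B).ne hz)
    rwa [← iterate_add_apply, ← two_mul] at this
  · refine le_trans ?_ (add_le_add_left (hN₀ m B m (l0.trans hm) le_rfl) _)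
    have := integral_mono_ae (hj m B (B + m)) ((hi m B (B + m)).add (integrable_const C))
      ((h0 _).mono fun z hz => sub_le_iff_le_add'.1 (abs_le.1 (hC m _ ((hF.iterate B).ne hz))).2)
    rwa [integral_add' (hi _ _ _) (integrable_const _), integral_const, probReal_univ,
      one_smul] at this
  · have a1 := hC' (B + m)
    rw [D_pr_eq h.cφ hF hd (D_hh_lh hF hd s _).measurable] at a1
    have a2 := integral_mono_ae (hi (B + m) 0 (B + m))
      ((hj m B (B + m)).add (integrable_const (K * (B + 1) + C))) ((h0 _).mono fun z hz => by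
        have b1 := D_hh_add hF hd s B m hz
        have b2 := (abs_le.1 (hK B z hz)).2
        have b3 := (abs_le.1 (hC m _ ((hF.iterate B).ne hz))).1
        simp only [Pi.add_apply, iterate_zero, id]
        linarith)
    rw [integral_add' (hj _ _ _) (integrable_const _), integral_const, probReal_univ,
      one_smul] at a2
    simp only [iterate_zero, id] at a2
    push_cast at a1
    linarith
  · have := hN₁ ((Finset.Ico L (2 * L)).map (addLeftEmbedding w)) fun j hj => by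
      obtain ⟨m, hm, rfl⟩ := Finset.mem_map.1 hj
      exact l1.trans ((Finset.mem_Ico.1 hm).1.trans (Nat.le_add_left _ _))
    rwa [Finset.sum_map] at this
  · rw [div_le_iff₀ (by positivity)] at hL₁
    have a1 : (L₁ : ℝ) * (ε / 3) ≤ L * (ε / 3) :=
      mul_le_mul_of_nonneg_right (by exact_mod_cast l2) (by positivity)
    rw [mul_comm ε, mul_assoc]
    exact mul_le_mul_of_nonneg_left (by linarith) B.cast_nonneg

end Pool.Agent.Lib.MP_a47f92_an
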