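import Pool.Agent.Lib.MP_a47f92_an.G.DAng
import Pool.Agent.Lib.MP_a47f92_an.G.DGam

set_option autoImplicit false
set_option linter.unusedSectionVars false

namespace Pool.Agent.Lib.MP_a47f92_an

open MeasureTheory Filter Topology Set Complex Metric Function
open scoped ContDiff ComplexConjugate ComplexOrder Matrix ENNReal NNReal

/-! Steps 6 and 7. -/

variable {n d s : ℕ} {F : E n → E n} {τ φ φ' : Measure (Fr n s)} {Ψ Y Y' : Measure (Fr n (s + 1))}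
  {ν : Measure (E n)} {Z : Set (E n)} {δ : ℝ}

theorem pl_pe (hF : IsLift d F) (hd : 1 ≤ d) (ℓ : E n →L[ℂ] E (s + 1)) (m : ℕ) :
    PL ((s + 1) * d ^ m) (pe d F ℓ m) := (D_pe_pl hF hd ℓ m).1

theorem measurableSet_ok (hF : IsLift d F) (hd : 1 ≤ d) (i w m : ℕ) (K : ℝ) (J : Fin s → Fin n) :
    MeasurableSet (Ok d s F i w m K J) ∧ IsCone (Ok d s F i w m K J) :=
  ⟨D_ok_meas hF hd i w m K J, D_ok_cone hF hd i w m K J⟩

theorem Dyn.good (h : Dyn d s F τ φ φ' Ψ Y Y' ν Z δ) (hm : Mix d s F φ φ' Ψ ν) {L : ℕ → ℝ}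
    (he : Ex d s F φ φ' ν L) : Good d s F φ' Ψ := ⟨D_gam h hm he, D_ang h hm he⟩

end Pool.Agent.Lib.MP_a47f92_an
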