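import Pool.Agent.Lib.MP_a47f92_an.G.EAv2
import Pool.Agent.Lib.MP_a47f92_an.G.Rep

set_option autoImplicit false
set_option linter.unusedSectionVars false

namespace Pool.Agent.Lib.MP_a47f92_an

open MeasureTheory Filter Topology Set Complex Metric Function
open scoped ContDiff ComplexConjugate ComplexOrder Matrix ENNReal NNReal

/-! Block E (owner helper97). -/

variable {n d s : ℕ} {F : E n → E n} {τ φ φ' : Measure (Fr n s)} {Ψ Y Y' : Measure (Fr n (s + 1))}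
  {ν : Measure (E n)} {Z : Set (E n)} {δ : ℝ}

theorem BlkE_small (C : ℝ) {e : ℝ} (he : 0 < e) :
    ∃ L₀ : ℕ, ∀ L, L₀ ≤ L → C * (1 + 4 * L) * ((2 : ℝ) ^ L)⁻¹ ≤ e := by
  have h1 := tendsto_pow_atTop_nhds_zero_of_lt_one (r := (2 : ℝ)⁻¹) (by norm_num) (by norm_num)
  have h2 := tendsto_self_mul_const_pow_of_lt_one (r := (2 : ℝ)⁻¹) (by norm_num) (by norm_num)
  have h3 := ((h1.add (h2.const_mul 4)).const_mul C).eventually
    (ge_mem_nhds (show C * (0 + 4 * 0) < e by simpa using he))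
  obtain ⟨L₀, h⟩ := eventually_atTop.1 h3
  refine ⟨L₀, fun L hL => (le_of_eq ?_).trans (h L hL)⟩
  rw [inv_pow]
  ring

theorem BlkE_pr (hF : IsLift d F) {S : Measure (Fr n s)} (hS : IsCur S)
    {q : Fin s → E n → ℝ} (hq : PPs q) {O : Set (E n)} (ho : IsOpen O) {a : E n → ℝ}
    (ha : Measurable a) (h01 : ∀ z, 0 ≤ a z ∧ a z ≤ 1) (h0 : ∀ z, z ≠ 0 → z ∉ O → a z = 0) :
    pr S (fun z => a (F z)) q ≤ (wg S q (F ⁻¹' O)).toReal := by
  have hc := hF.contDiff.continuous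
  have hm : MeasurableSet (F ⁻¹' O) := (ho.preimage hc).measurableSet
  have := hS.wg_fin hq
  rw [← hS.integral_wg (a := fun z => a (F z)) (ha.comp hc.measurable) hq, ← measureReal_def,
    ← integral_indicator_one hm]
  refine integral_mono_of_nonneg (Eventually.of_forall fun z => (h01 _).1)
    ((integrable_const 1).indicator hm) ((wg_ne S hq.pots).mono fun z hz => ?_)
  by_cases h : z ∈ F ⁻¹' O
  · rw [indicator_of_mem h]
    exact (h01 _).2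
  · rw [indicator_of_notMem h]
    exact (h0 _ (hF.ne hz) h).le

theorem BlkE_tail (hF : IsLift d F) (hd : 1 ≤ d) (hΨ : IsCur Ψ) {C e : ℝ} (hC : 0 ≤ C) (he : 0 < e)
    {N B L : ℕ} (hN : N ≤ L) (hL : 1 ≤ L) (h : ∀ T : Finset ℕ, (∀ j ∈ T, N ≤ j) →
      ∑ j ∈ T, aj d F Ψ j j ≤ e / (5 * C + 1)) :
    ∑ w ∈ Finset.Ico B (2 * B), ∑ m ∈ Finset.Ico L (2 * L),
      ENNReal.ofReal (C * (1 + 4 * L) * aj d F Ψ (w + m) (w + m)) ≤ ENNReal.ofReal (e * B * L) := by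
  have h1 : (1 : ℝ) ≤ L := by exact_mod_cast hL
  have h2 : ∀ w, ∑ m ∈ Finset.Ico L (2 * L),
      ENNReal.ofReal (C * (1 + 4 * L) * aj d F Ψ (w + m) (w + m)) ≤ ENNReal.ofReal (e * L) := by
    intro w
    rw [← ENNReal.ofReal_sum_of_nonneg fun m _ => mul_nonneg (by positivity)
      (aj_nonneg hF hd hΨ _ _), ← Finset.mul_sum,
      Finset.sum_Ico_add (fun j => aj d F Ψ j j) L (2 * L) w]
    refine ENNReal.ofReal_le_ofReal ((mul_le_mul_of_nonneg_left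
      (h _ fun j hj => by have := (Finset.mem_Ico.1 hj).1; omega) (by positivity)).trans ?_)
    rw [← mul_div_assoc, div_le_iff₀ (by positivity)]
    nlinarith [mul_nonneg hC he.le, mul_nonneg (mul_nonneg hC he.le) (sub_nonneg.2 h1)]
  refine (Finset.sum_le_card_nsmul _ _ _ fun w _ => h2 w).trans (le_of_eq ?_)
  rw [Nat.card_Ico, show 2 * B - B = B by omega, nsmul_eq_mul, ← ENNReal.ofReal_natCast,
    ← ENNReal.ofReal_mul (Nat.cast_nonneg _)]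
  congr 1
  ring

theorem Dyn.estimate (h : Dyn d s F τ φ φ' Ψ Y Y' ν Z δ) (hm : Mix d s F φ φ' Ψ ν)
    (hg : Good d s F φ' Ψ) : Est F s ν := by
  intro ε hε
  have hF := h.hF
  have hd : 1 ≤ d := one_le_two.trans h.hd
  have := hm.prob
  obtain ⟨C, hC, H⟩ := h.wg_le
  obtain ⟨Cb, hCb⟩ := hm.bsum
  obtain ⟨e, he, hee⟩ : ∃ e : ℝ, 0 < e ∧ (9 + 5 * C) * e = ε :=
    ⟨ε / (9 + 5 * C), by positivity, mul_div_cancel₀ _ (by positivity)⟩
  obtain ⟨B₁, hB₁⟩ := hg.gam e he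
  obtain ⟨B₂, hB₂⟩ := hg.ang e he
  obtain ⟨B, b1, b2, b3⟩ : ∃ B, B₁ ≤ B ∧ B₂ ≤ B ∧ 0 < B := ⟨B₁ + B₂ + 1, by omega, by omega, by omega⟩
  obtain ⟨L₁, hL₁⟩ := hB₁ B b1
  obtain ⟨K, hK, L₂, hL₂⟩ := hB₂ B b2
  have hM : 1 ≤ 1 + |Cb| / e := le_add_of_nonneg_right (by positivity)
  obtain ⟨M₁, C', hC', H'⟩ := H e (2 * B) K _ he hK hM
  refine ⟨M₁, fun N => ?_⟩
  have hcc := C_cc_CJ hF hd s N M₁
  have ho : IsOpen (CJ F s N M₁)ᶜ := hcc.1.isOpen_compl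
  have hc : IsCone (CJ F s N M₁)ᶜ := fun c hc z hz h' => hz (by
    simpa only [inv_smul_smul₀ hc] using hcc.2 c⁻¹ (inv_ne_zero hc) _ h')
  obtain ⟨a, ha, ham, h01, h0, hν⟩ := exists_lh_open ho hc ν h.eq.ne he
  obtain ⟨N₀, hN₀⟩ := hm.cv' a ha e he
  obtain ⟨N₁, hN₁⟩ := hm.tail (e / (5 * C' + 1)) (by positivity)
  obtain ⟨L₃, hL₃⟩ := BlkE_small C' he
  obtain ⟨L, l1, l2, l3, l4, l5, l6, l7⟩ : ∃ L, L₁ ≤ L ∧ L₂ ≤ L ∧ L₃ ≤ L ∧ N ≤ L ∧ N₀ ≤ L ∧
      N₁ ≤ L ∧ 2 * B ≤ L := ⟨L₁ + L₂ + L₃ + N + N₀ + N₁ + 2 * B, by omega, by omega, by omega,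
    by omega, by omega, by omega, by omega⟩
  obtain ⟨w, hw, m, hm', p1, p2, p3⟩ := exists_pair b3 (by omega : 0 < L) he he he (hL₁ L l1)
    (hL₂ L l2) (BlkE_tail hF hd h.cΨ hC' he l6 (by omega) hN₁)
  obtain ⟨w1, w2⟩ := Finset.mem_Ico.1 hw
  obtain ⟨m1, m2⟩ := Finset.mem_Ico.1 hm'
  obtain ⟨i, hi⟩ : ∃ i, i = 4 * L - w - m := ⟨_, rfl⟩
  have e1 : i + w + m = 4 * L := by omega
  have e2 : (1 + i + w + m : ℝ) = 1 + 4 * L := by
    rw [add_assoc, add_assoc, ← add_assoc (i : ℝ)]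
    exact_mod_cast congrArg (1 + ·) e1
  rw [← hi, ← e1] at p2
  have q1 := H' i w m N (by omega) w2 (by omega)
  have q2 := (abs_le.1 (hN₀ i (w + m) (by omega) (by omega))).1
  have q3 := BlkE_pr (hF.iterate i) h.cφ'.cur (pps_gs hF hd (i + w + m) s)
    ho ham h01 h0
  have q4 : eb d F Ψ C C' e (1 + |Cb| / e) i w m N ≤ (4 + 2 * C) * e := by
    have r1 := (ENNReal.ofReal_le_ofReal_iff (by positivity)).1 p3
    have r2 : ((d : ℝ) ^ i)⁻¹ ≤ ((2 : ℝ) ^ L)⁻¹ := inv_anti₀ (by positivity)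
      ((pow_le_pow_right₀ one_le_two (by omega)).trans
        (pow_le_pow_left₀ zero_le_two (by exact_mod_cast h.hd) i))
    have r3 := (mul_le_mul_of_nonneg_left r2
      (by positivity : 0 ≤ C' * (1 + 4 * (L : ℝ)))).trans (hL₃ L l3)
    have r4 : (1 + |Cb| / e)⁻¹ * ∑ j ∈ Finset.range N, aj d F Ψ j (w + m) ≤ e := by
      rw [inv_mul_le_iff₀ (by positivity), add_mul, div_mul_cancel₀ _ he.ne']
      exact (hCb (w + m) N (by omega)).trans ((le_abs_self _).trans (by linarith))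
    rw [eb, e2, mul_add, mul_assoc C]
    nlinarith [mul_le_mul_of_nonneg_left r4 hC]
  have q5 : wg φ' (gs d F (i + w + m) s) (F^[i] ⁻¹' (CJ F s N M₁)ᶜ) ≤
      ENNReal.ofReal ((7 + 5 * C) * e) := by
    refine q1.trans ((add_le_add p2 (add_le_add (mul_le_mul_right p1 _)
      (ENNReal.ofReal_le_ofReal q4))).trans (le_of_eq ?_))
    rw [← ENNReal.ofReal_mul hC, ← ENNReal.ofReal_add (by positivity) (by positivity),
      ← ENNReal.ofReal_add (by positivity) (by positivity)]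
    congr 1
    ring
  have q6 := ENNReal.toReal_le_of_le_ofReal (by positivity) q5
  rw [← add_assoc] at q2
  rw [← ofReal_measureReal]
  exact ENNReal.ofReal_le_ofReal (by linarith)

end Pool.Agent.Lib.MP_a47f92_an
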