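import Pool.Agent.Lib.MP_a47f92_an.G.LHa

set_option autoImplicit false
set_option linter.unusedSectionVars false

/-! The sets `CJ` are closed cones. -/

namespace Pool.Agent.Lib.MP_a47f92_an

open MeasureTheory Filter Topology Set Complex Metric Function Module

variable {n d s r : ℕ} {F : E n → E n} {z : E n}

theorem C_Bm_smul (hF : IsLift d F) (hd : 1 ≤ d) {c : ℂ} (hc : c ≠ 0) (z v : E n) :
    ‖Bm F (c • z) v‖ = ‖Bm F z v‖ := by
  obtain ⟨k, rfl⟩ : ∃ k, d = k + 1 := ⟨d - 1, by omega⟩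
  have h0 : ‖c‖ ≠ 0 := norm_ne_zero_iff.2 hc
  simp only [Bm, hF.hom, prj_un_smul (pow_ne_zero _ hc), hF.fderiv_smul hd hc,
    smul_apply, ContinuousLinearMap.comp_apply, map_smul, norm_smul, norm_pow,
    Complex.norm_real, norm_div, norm_mul, norm_norm, Nat.add_sub_cancel]
  rw [mul_div_mul_comm]
  field_simp
  ring

theorem C_Bm_cont (hF : IsLift d F) (hz : z ≠ 0) : ContinuousAt (Bm F) z := by
  have h1 := hF.contDiff.continuous.continuousAt (x := z)
  have h2 := norm_ne_zero_iff.2 (hF.ne hz)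
  exact (continuous_ofReal.continuousAt.comp (continuous_norm.continuousAt.div h1.norm h2)).smul
    ((Coc1_cont_prj.continuousAt.comp ((h1.norm.inv₀ h2).smul h1)).clm_comp
      (hF.contDiff.continuous_fderiv (by simp)).continuousAt)

theorem C_Bm_self (hF : IsLift d F) (hz : z ≠ 0) : Bm F z z = 0 := by
  simp only [Bm, smul_apply, ContinuousLinearMap.comp_apply, hF.euler, map_smul,
    prj_un_self (hF.ne hz), smul_zero]

theorem C_Bm_id (hz : z ≠ 0) : Bm F^[0] z = prj (un z) := by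
  simp only [Bm, iterate_zero, id_eq, div_self (norm_ne_zero_iff.2 hz), ofReal_one, one_smul,
    fderiv_id, ContinuousLinearMap.comp_id]

theorem C_fs (hF : IsLift d F) (hz : z ≠ 0) (v : E n) :
    fsNorm (F z) (fderiv ℂ F z v) = ‖Bm F z (((‖z‖⁻¹ : ℝ) : ℂ) • v)‖ := by
  have h0 := norm_ne_zero_iff.2 hz
  simp only [fsNorm_eq (hF.ne hz), Bm, smul_apply,
    ContinuousLinearMap.comp_apply, map_smul, norm_smul, Complex.norm_real, norm_div, norm_inv,
    norm_norm]
  field_simp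

theorem C_QJ_mono (F : E n → E n) {J J' : ℕ} (h : J ≤ J') (z v : E n) : QJ F J z v ≤ QJ F J' z v :=
  Finset.sum_le_sum_of_subset_of_nonneg (Finset.range_mono h) fun _ _ _ => sq_nonneg _

theorem C_CJ_anti (F : E n → E n) (s : ℕ) {J J' : ℕ} (h : J ≤ J') {M M' : ℝ} (hM : M ≤ M') :
    CJ F s J' M ⊆ CJ F s J M' := by
  rintro z (hz | ⟨V, h1, h2, h3⟩)
  · exact Or.inl hz
  · exact Or.inr ⟨V, h1, h2, fun v hv => ((C_QJ_mono F h z v).trans (h3 v hv)).trans
      (mul_le_mul_of_nonneg_right hM (sq_nonneg _))⟩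

theorem C_compact_on : IsCompact {e : Fin r → E n | Orthonormal ℂ e} := by
  refine isCompact_of_isClosed_isBounded ?_ ((isBounded_closedBall (x := 0) (r := 1)).subset
    fun e he => mem_closedBall_zero_iff.2 ((pi_norm_le_iff_of_nonneg zero_le_one).2 fun i =>
      (he.1 i).le))
  simp only [orthonormal_iff_ite, ofPred_forall]
  exact isClosed_iInter fun i => isClosed_iInter fun j => isClosed_eq (by fun_prop) continuous_const

/-- The bound on the span of a frame. -/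
def CFr (F : E n → E n) (J : ℕ) (M : ℝ) (z : E n) (e : Fin r → E n) : Prop :=
  ∀ c : Fin r → ℂ, QJ F J z (∑ i, c i • e i) ≤ M * ‖prj (un z) (∑ i, c i • e i)‖ ^ 2

theorem C_frame {V : Submodule ℂ (E n)} (h : r ≤ finrank ℂ V) :
    ∃ e : Fin r → E n, Orthonormal ℂ e ∧ ∀ i, e i ∈ V :=
  ⟨(V.subtypeₗᵢ ∘ stdOrthonormalBasis ℂ V) ∘ Fin.castLE h,
    (V.subtypeₗᵢ.orthonormal_comp_iff.2 (stdOrthonormalBasis ℂ V).orthonormal).comp _
      (Fin.castLE_injective h), fun _ => Subtype.prop _⟩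

theorem C_span {e : Fin r → E n} (he : Orthonormal ℂ e) :
    finrank ℂ (Submodule.span ℂ (range e)) = r := by
  rw [finrank_span_eq_card he.linearIndependent, Fintype.card_fin]

theorem C_mem_CJ (hF : IsLift d F) (hz : z ≠ 0) {J : ℕ} {M : ℝ} :
    z ∈ CJ F s J M ↔ ∃ e : Fin (n - s) → E n, Orthonormal ℂ e ∧ CFr F J M z e := by
  constructor
  · rintro (h | ⟨V, -, h2, h3⟩)
    · exact (hz h).elim
    obtain ⟨e, he, heV⟩ := C_frame (r := n - s) (V := V) (by omega)
    exact ⟨e, he, fun c => h3 _ (V.sum_mem fun i _ => V.smul_mem _ (heV i))⟩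
  · rintro ⟨e, he, h⟩
    refine Or.inr ⟨Submodule.span ℂ (range e) ⊔ Submodule.span ℂ {z},
      Submodule.mem_sup_right (Submodule.mem_span_singleton_self z), ?_, fun v hv => ?_⟩
    · have := Submodule.finrank_mono (le_sup_left :
        Submodule.span ℂ (range e) ≤ Submodule.span ℂ (range e) ⊔ Submodule.span ℂ {z})
      rw [C_span he] at this
      omega
    · obtain ⟨u, hu, y, hy, rfl⟩ := Submodule.mem_sup.1 hv
      obtain ⟨a, rfl⟩ := Submodule.mem_span_singleton.1 hy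
      obtain ⟨c, rfl⟩ := (Submodule.mem_span_range_iff_exists_fun ℂ).1 hu
      simpa only [QJ, map_add, map_smul, C_Bm_self (hF.iterate _) hz, prj_un_self hz, smul_zero,
        add_zero] using h c

theorem C_fr_lim (hF : IsLift d F) (hz : z ≠ 0) {J : ℕ} {M : ℝ} {y : ℕ → E n}
    {u : ℕ → Fin r → E n} {e : Fin r → E n} (hy : Tendsto y atTop (𝓝 z))
    (hu : Tendsto u atTop (𝓝 e)) (h : ∀ᶠ k in atTop, CFr F J M (y k) (u k)) : CFr F J M z e := by
  intro c
  have h1 : Tendsto (fun k => ∑ i, c i • u k i) atTop (𝓝 (∑ i, c i • e i)) :=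
    tendsto_finsetSum _ fun i _ => (tendsto_pi_nhds.1 hu i).const_smul _
  have h2 : ∀ {B : ℕ → E n →L[ℂ] E n} {B' : E n →L[ℂ] E n}, Tendsto B atTop (𝓝 B') →
      Tendsto (fun k => ‖B k (∑ i, c i • u k i)‖ ^ 2) atTop (𝓝 (‖B' (∑ i, c i • e i)‖ ^ 2)) :=
    fun hB => ((isBoundedBilinearMap_apply.continuous.tendsto (_, _)).comp
      (hB.prodMk_nhds h1)).norm.pow 2
  refine le_of_tendsto_of_tendsto (tendsto_finsetSum _ fun j _ =>
    h2 ((C_Bm_cont (hF.iterate j) hz).tendsto.comp hy))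
    ((h2 ((Coc1_cont_prj.tendsto _).comp
      ((hy.norm.inv₀ (norm_ne_zero_iff.2 hz)).smul hy))).const_mul M) (h.mono fun k hk => hk c)

theorem C_cc_CJ (hF : IsLift d F) (hd : 1 ≤ d) (s J : ℕ) (M : ℝ) : CC (CJ F s J M) := by
  constructor
  · refine IsSeqClosed.isClosed fun y z hy hz => ?_
    by_cases h0 : z = 0
    · exact Or.inl h0
    obtain ⟨N, hN⟩ := eventually_atTop.1 (hz.eventually_ne h0)
    choose u hu hu' using fun k => (C_mem_CJ hF (hN (k + N) (by omega))).1 (hy (k + N))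
    obtain ⟨e, he, ψ, hψ, hl⟩ := C_compact_on.tendsto_subseq hu
    exact (C_mem_CJ hF h0).2 ⟨e, he, C_fr_lim hF h0
      ((hz.comp (tendsto_add_atTop_nat N)).comp hψ.tendsto_atTop) hl
      (Eventually.of_forall fun k => hu' _)⟩
  · rintro c hc z (hz | ⟨V, h1, h2, h3⟩)
    · exact Or.inl (by rw [hz, smul_zero])
    · refine Or.inr ⟨V, V.smul_mem c h1, h2, fun v hv => ?_⟩
      simpa only [QJ, prj_un_smul hc,
        C_Bm_smul (hF.iterate _) (Nat.one_le_pow _ _ hd) hc] using h3 v hv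

theorem C_CJ_lim (hF : IsLift d F) (hz : z ≠ 0) {M : ℝ} (h : ∀ J, z ∈ CJ F s J M) :
    ∃ V : Submodule ℂ (E n), n ≤ finrank ℂ V + s ∧
      ∀ v ∈ V, ∀ J, QJ F J z v ≤ M * ‖prj (un z) v‖ ^ 2 := by
  choose u hu hu' using fun J => (C_mem_CJ hF hz).1 (h J)
  obtain ⟨e, he, ψ, hψ, hl⟩ := C_compact_on.tendsto_subseq hu
  refine ⟨Submodule.span ℂ (range e), by rw [C_span he]; omega, fun v hv J => ?_⟩
  obtain ⟨c, rfl⟩ := (Submodule.mem_span_range_iff_exists_fun ℂ).1 hv
  exact C_fr_lim hF hz tendsto_const_nhds hl ((hψ.tendsto_atTop.eventually_ge_atTop J).mono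
    fun k hk c => (C_QJ_mono F hk z _).trans (hu' _ c)) c

end Pool.Agent.Lib.MP_a47f92_an
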