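import Pool.Agent.Lib.MP_a47f92_an.G.CKing
import Pool.Agent.Lib.MP_a47f92_an.G.Cur4
import Pool.Agent.Lib.MP_a47f92_an.G.Ref
import Pool.Agent.Lib.MP_a47f92_an.Sm3

set_option autoImplicit false
set_option linter.unusedSectionVars false

/-! Estimates for the exponents. -/

namespace Pool.Agent.Lib.MP_a47f92_an

open MeasureTheory Filter Topology Set Complex Metric Function
open scoped ENNReal NNReal

variable {n d s : ℕ} {F : E n → E n} {τ φ φ' S : Measure (Fr n s)}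
  {Ψ Y Y' X : Measure (Fr n (s + 1))} {ν : Measure (E n)} {Z : Set (E n)} {δ : ℝ}

theorem C_p1_gs (hS : Cl1 S) (hF : IsLift d F) (hd : 1 ≤ d) (m : ℕ) : p1 S (gs d F m s) = 1 := by
  rw [hS.closed.p1_one hS.cur fun _ => (pl_green hF hd m).lh, hS.mass]

theorem C_low (h : Dyn d s F τ φ φ' Ψ Y Y' ν Z δ) (hX : IsCur X) (hD : DDC X S τ) (hle : LeP X Y)
    (p : ℕ) : ∃ C : ℝ, ∀ N : ℕ, ∫ z, hh d F p N z ∂ν - C ≤ pr S (hh d F p N) (gs d F N s) := by
  have hF := h.hF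
  have hd : 1 ≤ d := le_trans one_le_two h.hd
  obtain ⟨C₁, hC₁⟩ := h.y0.bddAbove_range
  obtain ⟨C₂, -, hC₂⟩ := green_cauchy hF h.hd
  refine ⟨(p + 1) * C₁ + 2 * s * (p + 1) * C₂, fun N => ?_⟩
  obtain ⟨h1, h2⟩ := D_hh_pl hF hd p N
  have h3 : PL ((d : ℝ) ^ N) fun z => lg (F^[N] z) := by
    simpa only [one_mul, Nat.cast_pow] using pl_lg.comp (hF.iterate N)
  have h4 := h3.const_mul (c := p + 1) (by positivity)
  push_cast at h1
  have hg := pps_gs hF hd N s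
  have e1 := hD _ h2 _ hg.pots
  have e2 := hX.pr_cons_add (bm_const 1) hg.pots h2 h4.lh
  rw [pr_cons_const_mul] at e2
  have e3 := hX.p1_nonneg (hg.cons h1)
  have e4 := hle _ (hg.cons h3)
  rw [← (h.cY.mass_lam_succ hF hd N).1] at e4
  have e5 : mass (lam d s F N Y) ≤ C₁ := hC₁ ⟨N, rfl⟩
  have e6 : ∫ z, hh d F p N z ∂ν ≤ pr τ (hh d F p N) (gs d F N s) + 2 * s * (p + 1) * C₂ := by
    refine le_of_tendsto' ((h.eq.lim _ h2).comp (tendsto_add_atTop_nat N)) fun j => ?_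
    have := h.cτ.closed.cmp h.cτ.cur h4 h1 (a := hh d F p N) (fun z _ => by simp only [lg]; ring)
      (q := gs d F N s) (q' := gs d F (j + N) s) (fun _ => pl_green hF hd _)
      (fun _ => pl_green hF hd _) fun _ z hz => by rw [add_comm j N]; exact hC₂ N j z hz
    have hd0 : (d : ℝ) ^ N ≠ 0 := by positivity
    rw [h.cτ.mass, mul_one, show 2 * s * (((p : ℝ) + 1) * (d : ℝ) ^ N) * (C₂ * ((d : ℝ) ^ N)⁻¹) =
      2 * s * (p + 1) * C₂ by field_simp] at this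
    exact sub_le_iff_le_add'.1 ((le_abs_self _).trans this)
  simp only [p1, lg] at e1 e2 e3 e4
  nlinarith [mul_le_mul_of_nonneg_left (e4.trans e5) (by positivity : (0 : ℝ) ≤ p + 1)]

theorem C_up (hF : IsLift d F) (hd : 1 ≤ d) (hS : Cl1 S) (hc : CV d s F S ν) (p : ℕ) {L : ℝ}
    (hL : Tendsto (fun N : ℕ => (∫ z, hh d F p N z ∂ν) / N) atTop (𝓝 L)) (ε : ℝ) (hε : 0 < ε) :
    ∃ N₀, ∀ N M : ℕ, N₀ ≤ N → N ≤ M → pr S (hh d F p N) (gs d F M s) ≤ N * (L + ε) := by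
  obtain ⟨K, hK, hb⟩ := C_hh_abs hF hd p
  have hl := D_hh_lh hF hd p
  obtain ⟨B, hB, h1⟩ := ((eventually_ge_atTop 1).and (hL.eventually_lt_const
    (lt_add_of_pos_right L (by positivity : 0 < ε / 3)))).exists
  have hB1 : (1 : ℝ) ≤ B := by exact_mod_cast hB
  rw [div_lt_iff₀ (by linarith)] at h1
  obtain ⟨N₁, hN₁⟩ := hc _ (hl B) (ε / 3) (by positivity)
  set c := (L + 2 * (ε / 3)) * B with hcdef
  set C := 2 * N₁ * (K * (B + 1) + |c|) + 2 * K * B * (B + 1) + B * |c| with hC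
  obtain ⟨N₂, hN₂⟩ := exists_nat_ge (C / (ε / 3))
  refine ⟨max B N₂, fun N M hN hM => ?_⟩
  obtain ⟨N', rfl⟩ : ∃ N', N = N' + B := ⟨N - B, by omega⟩
  have hg := pps_gs hF hd M s
  have hi : ∀ i, LH 0 fun z => hh d F p B (F^[i] z) := fun i => (hl B).comp0 (hF.iterate i)
  have hs : BM fun z => ∑ i ∈ Finset.range N', hh d F p B (F^[i] z) :=
    ⟨Finset.measurable_sum _ fun i _ => (hi i).measurable, N' * (K * (B + 1)), fun z =>
      Erg_bs_abs (f := F) (hb B) N' z⟩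
  have h2 := hS.cur.pr_mono_left ((bm_const B).mul (hl (N' + B)).bm)
    (by simpa only [sub_neg_eq_add] using hs.sub (bm_const (-(2 * K * B * (B + 1)))))
    (fun z _ => block_le (f := F) (fun N i => (le_abs_self _).trans (hb N _))
      (fun a b => C_hh_add hF hd p a b z) hK N' B) hg
  rw [pr_const_mul_left, hS.cur.pr_add_left hs (bm_const _) hg.pots, pr_const_left,
    C_p1_gs hS hF hd, hS.cur.pr_sum_left _ (fun i _ => (hi i).bm) hg.pots] at h2
  have h3 := C_sum_le (t := fun i => pr S (fun z => hh d F p B (F^[i] z)) (gs d F M s)) (c := c)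
    (C := K * (B + 1) + |c|) (by positivity) N' N₁
    (fun i => by
      have := hS.cur.abs_pr_le (a := fun z => hh d F p B (F^[i] z)) (fun z _ => hb B _) hg
      rw [C_p1_gs hS hF hd] at this
      linarith [le_abs_self (pr S (fun z => hh d F p B (F^[i] z)) (gs d F M s)), neg_abs_le c])
    fun i h4 h5 => by
      have := hN₁ i (M - i) h4 (by omega)
      rw [show i + (M - i) = M by omega] at this
      nlinarith [(abs_le.1 this).2]
  have h4 : C ≤ (N' + B) * (ε / 3) := by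
    rw [← div_le_iff₀ (by positivity)]
    exact hN₂.trans (by exact_mod_cast (le_max_right _ _).trans hN)
  refine le_of_mul_le_mul_left ?_ (by linarith : (0 : ℝ) < B)
  have h5 := mul_le_mul_of_nonneg_left (neg_abs_le c) (by linarith : (0 : ℝ) ≤ B)
  have h6 := mul_le_mul_of_nonneg_left hB1 (by positivity : (0 : ℝ) ≤ (N' + B) * (ε / 3))
  push_cast
  nlinarith

theorem C_hat (hF : IsLift d F) (hd : 1 ≤ d) (N p : ℕ) {w : E n} (hw : w ≠ 0) :
    hat (dn (gs d F N p)) w =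
      ((d : ℝ) ^ N)⁻¹ ^ p * wn p (Bm F^[N] w) ^ 2 / (2 * ‖w‖ ^ 2) ^ p := by
  rw [mul_div_assoc, ← hat_dens_fw (hF.iterate N) hw, hat, hat, Finset.mul_sum]
  refine Finset.sum_congr rfl fun J _ => ?_
  rw [dens, ← dn_fw pots_lg (hF.iterate N) (Nat.one_le_pow _ _ hd), dn, dn, if_neg hw, if_neg hw,
    ← re_ofReal_mul, ← Fin.prod_const, ofReal_prod, dc, dc, ← mdC_smul]
  refine congrArg (fun M => (mdC M).re) (funext fun l => ?_)
  rw [lv_eq_gl, lv_eq_gl, ← gl_const_mul]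
  exact congrArg (fun f => gl f w (evs J)) (funext fun z => ofReal_mul _ _)

theorem C_rf_le {W : Set (E n)} {p p₁ p₂ : ℕ} {g : Fr n p → ℝ} {g₁ : Fr n p₁ → ℝ}
    {g₂ : Fr n p₂ → ℝ} (h₁ : PT g₁) {c₁ c₂ : ℝ} (hc₁ : 0 ≤ c₁) (hc₂ : 0 ≤ c₂)
    (h : ∀ w : E n, 1 < ‖w‖ → ‖w‖ < 2 → hat g w ≤ c₁ * hat g₁ w + c₂ * hat g₂ w) :
    rf W g ≤ ENNReal.ofReal c₁ * rf W g₁ + ENNReal.ofReal c₂ * rf W g₂ := by
  have hm : Measurable fun w => ENNReal.ofReal (bw w * hat g₁ w) :=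
    (contDiff_bw.continuous.measurable.mul h₁.measurable_hat).ennreal_ofReal
  rw [rf, rf, rf, ← lintegral_const_mul' _ _ ENNReal.ofReal_ne_top,
    ← lintegral_const_mul' _ _ ENNReal.ofReal_ne_top, ← lintegral_add_left (hm.const_mul _)]
  refine lintegral_mono fun w => ?_
  rw [← ENNReal.ofReal_mul hc₁, ← ENNReal.ofReal_mul hc₂]
  refine (ENNReal.ofReal_le_ofReal ?_).trans ENNReal.ofReal_add_le
  rcases (bw_nonneg w).eq_or_lt with h0 | h0
  · simp only [← h0, zero_mul, mul_zero, add_zero, le_refl]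
  · obtain ⟨h1, h2⟩ := (bw_pos_iff w).1 h0
    nlinarith [mul_le_mul_of_nonneg_left (h w h1 h2) h0.le]

theorem C_ratio (h : Dyn d s F τ φ φ' Ψ Y Y' ν Z δ) : ∃ C : ℝ, 0 ≤ C ∧
    ∀ (N p₁ p₂ : ℕ) (b : E n → ℝ) (c₁ c₂ R₁ R₂ t : ℝ), LH 0 b → 0 ≤ c₁ → 0 ≤ c₂ → 0 ≤ R₁ → 0 ≤ R₂ →
      rf (nb δ Z) (dn (gs d F N p₁)) ≤ ENNReal.ofReal R₁ →
      rf (nb δ Z) (dn (gs d F N p₂)) ≤ ENNReal.ofReal R₂ →
      (∀ w : E n, 1 < ‖w‖ → ‖w‖ < 2 → Real.exp (b w) ^ 2 / Real.exp (hh d F s N w) ^ 2 *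
        hat (dn (gs d F N s)) w ≤ c₁ * hat (dn (gs d F N p₁)) w + c₂ * hat (dn (gs d F N p₂)) w) →
      2 * (pr φ' b (gs d F N s) - pr φ' (hh d F s N) (gs d F N s)) ≤
        Real.exp (-t) * (C * (c₁ * R₁ + c₂ * R₂)) + t := by
  have hF := h.hF
  have hd : 1 ≤ d := le_trans one_le_two h.hd
  obtain ⟨C, hC⟩ := h.ubφ'
  refine ⟨C, C.2, fun N p₁ p₂ b c₁ c₂ R₁ R₂ t hb hc₁ hc₂ hR₁ hR₂ h₁ h₂ hw => ?_⟩
  have hg := pps_gs hF hd N s
  have hS := h.cφ'.cur
  have hu : LH 0 fun z => b z - hh d F s N z := by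
    simpa only [sub_zero] using hb.sub (D_hh_lh hF hd s N)
  have ha : LH 0 fun z => Real.exp (2 * (b z - hh d F s N z)) :=
    hu.rcomp (φ := fun x => Real.exp (2 * x)) (by fun_prop)
  have h3 : pr φ' (fun z => Real.exp (2 * (b z - hh d F s N z))) (gs d F N s) ≤
      C * (c₁ * R₁ + c₂ * R₂) := by
    rw [← ENNReal.ofReal_le_ofReal_iff (by positivity),
      ← hS.lp_mul_dn ha.bm (fun z _ => (Real.exp_pos _).le) hg]
    refine (hC _ ((pt_dn hg).mul_left ha.measurable ha.inv0 fun z => (Real.exp_pos _).le)).trans ?_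
    rw [ENNReal.ofReal_mul C.coe_nonneg, ENNReal.ofReal_add (by positivity) (by positivity),
      ENNReal.ofReal_mul hc₁, ENNReal.ofReal_mul hc₂, ENNReal.ofReal_coe_nnreal]
    refine mul_le_mul_right ((rf_mono (nb_mono (r' := δ) (by linarith [h.δ0]) Subset.rfl)).trans
      ((C_rf_le (g₂ := dn (gs d F N p₂)) (pt_dn (pps_gs hF hd N p₁)) hc₁ hc₂
        fun w h1 h2 => le_trans (le_of_eq ?_) (hw w h1 h2)).trans (by gcongr))) _
    rw [← div_pow, ← Real.exp_sub, ← Real.exp_nat_mul, hat, hat, Finset.mul_sum, Nat.cast_ofNat]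
  have h4 := hS.pr_mono_left ((bm_const 2).mul hu.bm)
    (((bm_const (Real.exp (-t))).mul ha.bm).sub (bm_const (-t))) (fun z _ => by
      rw [← Real.exp_add]
      linarith [Real.add_one_le_exp (-t + 2 * (b z - hh d F s N z))]) hg
  rw [pr_const_mul_left, hS.pr_sub_left hb.bm (D_hh_lh hF hd s N).bm hg.pots,
    hS.pr_sub_left ((bm_const _).mul ha.bm) (bm_const _) hg.pots, pr_const_mul_left, pr_const_left,
    C_p1_gs h.cφ' hF hd] at h4
  linarith [mul_le_mul_of_nonneg_left h3 (Real.exp_pos (-t)).le]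

theorem C_lim {a b C : ℝ} (h : ∀ ε : ℝ, 0 < ε → ∀ᶠ N : ℕ in atTop, N * a ≤ N * (b + ε) + C) :
    a ≤ b := by
  refine le_of_forall_pos_le_add fun ε hε => ?_
  obtain ⟨N, h1, h2, h3⟩ := ((h _ (half_pos hε)).and ((eventually_gt_atTop 0).and
    (tendsto_natCast_atTop_atTop.eventually_ge_atTop (C / (ε / 2))))).exists
  rw [div_le_iff₀ (half_pos hε)] at h3
  exact le_of_mul_le_mul_left (by linarith) (by exact_mod_cast h2 : (0 : ℝ) < N)

theorem C_frac {a x k : ℝ} (ha : 0 ≤ a) (hx : 0 ≤ x) (hk : 0 < k) : a / (x + k) * x ≤ a := by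
  rw [div_mul_eq_mul_div, div_le_iff₀ (by positivity)]
  nlinarith [mul_nonneg ha hk.le]

theorem C_gaps (h : Dyn d s F τ φ φ' Ψ Y Y' ν Z δ) (hm : Mix d s F φ φ' Ψ ν) {L : ℕ → ℝ}
    (he : ExS d s F φ' L) :
    L (s + 1) ≤ L s ∧ (1 ≤ s → L (s - 1) + Real.log d / 2 ≤ L s) ∧ 0 ≤ L s := by
  have hF := h.hF
  have hd : 1 ≤ d := le_trans one_le_two h.hd
  have hd0 : (1 : ℝ) ≤ d := by exact_mod_cast hd
  obtain ⟨C, hC, hr⟩ := C_ratio h
  have hR : ∀ N p, rf (nb δ Z) (dn (gs d F N p)) ≤ ENNReal.ofReal (mass (ref n p)) := fun N p => by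
    simpa only [Finset.prod_const_one, one_mul] using
      rf_dn_le (q := gs d F N p) (D := fun _ => 1) (fun _ => pl_green hF hd N) (nb δ Z)
  have hR0 := fun p => (isCur_ref n p).mass_nonneg
  have hup : ∀ ε : ℝ, 0 < ε → ∀ᶠ N : ℕ in atTop,
      pr φ' (hh d F s N) (gs d F N s) ≤ N * (L s + ε) := fun ε hε => by
    obtain ⟨N₀, h1⟩ := he.up s ε hε
    exact (eventually_ge_atTop N₀).mono fun N hN => h1 N N hN le_rfl
  have hk : ∀ N : ℕ, 0 < ((d : ℝ) ^ N)⁻¹ ∧ ((d : ℝ) ^ N)⁻¹ ≤ 1 := fun N =>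
    ⟨by positivity, inv_le_one_of_one_le₀ (one_le_pow₀ hd0)⟩
  have hw0 : ∀ w : E n, 1 < ‖w‖ → w ≠ 0 ∧ 1 ≤ 2 * ‖w‖ ^ 2 := fun w h1 =>
    ⟨norm_pos_iff.1 (by linarith), by nlinarith⟩
  refine ⟨?_, fun hs => ?_, ?_⟩
  · obtain ⟨C₁, h1⟩ := he.low (s + 1)
    obtain ⟨C₂, h2⟩ := h.lbΨ
    obtain ⟨N₀, h3⟩ := hm.tail 1 one_pos
    refine C_lim (C := C₁ + C * (8 * C₂ + mass (ref n s)) / 2) fun ε hε => ?_
    filter_upwards [hup ε hε, eventually_ge_atTop N₀] with N h4 hN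
    have h5 := h3 {N} fun j hj => by rwa [Finset.mem_singleton.1 hj]
    rw [Finset.sum_singleton, ← (h.cΨ.mass_lam_succ hF hd N).1, (h.cΨ.mass_lam_succ hF hd N).2,
      ← le_div_iff₀' (by positivity), one_div] at h5
    have h6 := hr N (s + 1) s _ (8 * (d : ℝ) ^ N) 1 (C₂ * ((d : ℝ) ^ N)⁻¹) _ 0
      (D_hh_lh hF hd (s + 1) N) (by positivity) zero_le_one (by positivity) (hR0 s)
      ((h2 _ (pt_dn (pps_gs hF hd N _))).trans (by
        rw [h.cΨ.lp_dn (pps_gs hF hd N _), ENNReal.ofReal_mul C₂.coe_nonneg,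
          ENNReal.ofReal_coe_nnreal]
        gcongr)) (hR N s) fun w w1 w2 => by
        obtain ⟨w0, w3⟩ := hw0 w w1
        rw [C_hat hF hd _ _ w0, C_hat hF hd _ _ w0, hh, hh, D_exp_rg hd, D_exp_rg hd]
        obtain ⟨k0, -⟩ := hk N
        set k := ((d : ℝ) ^ N)⁻¹ with hk'
        set x := wn s (Bm F^[N] w) ^ 2
        set y := wn (s + 1) (Bm F^[N] w) ^ 2
        set t := 2 * ‖w‖ ^ 2
        have hx : 0 ≤ x := sq_nonneg _
        have hy : 0 ≤ y := sq_nonneg _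
        have e1 := C_frac hy hx (pow_pos k0 2)
        have e2 : k ^ 2 / (x + k ^ 2) * x ≤ x := mul_le_of_le_one_left hx
          ((div_le_one (by positivity)).2 (by linarith))
        have e3 : y ≤ 8 / t * y := le_mul_of_one_le_left hy
          ((one_le_div (by linarith)).2 (by nlinarith [norm_nonneg w]))
        calc _ = k ^ s / t ^ s * (y / (x + k ^ 2) * x + k ^ 2 / (x + k ^ 2) * x) := by ring
          _ ≤ k ^ s / t ^ s * (8 / t * y + x) :=
            mul_le_mul_of_nonneg_left (add_le_add (e1.trans e3) e2) (by positivity)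
          _ = _ := by
            rw [← inv_inv ((d : ℝ) ^ N), ← hk', pow_succ, pow_succ]
            field_simp
    rw [neg_zero, Real.exp_zero, show 8 * (d : ℝ) ^ N * (C₂ * ((d : ℝ) ^ N)⁻¹) = 8 * C₂ by
      field_simp] at h6
    linarith [h1 N]
  · obtain ⟨p, rfl⟩ : ∃ p, s = p + 1 := ⟨s - 1, by omega⟩
    obtain ⟨C₁, h1⟩ := he.low p
    rw [Nat.add_sub_cancel]
    refine C_lim (C := C₁ + C * (mass (ref n p) + mass (ref n 0)) / 2) fun ε hε => ?_
    filter_upwards [hup ε hε] with N h4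
    obtain ⟨k0, k1⟩ := hk N
    have h6 := hr N p 0 _ _ _ _ _ (-(N * Real.log d)) (D_hh_lh hF hd p N) k0.le k0.le (hR0 p)
      (hR0 0) (hR N p) (hR N 0) fun w w1 w2 => by
        obtain ⟨w0, w3⟩ := hw0 w w1
        rw [C_hat hF hd _ _ w0, C_hat hF hd _ _ w0, C_hat hF hd _ _ w0, hh, hh, D_exp_rg hd,
          D_exp_rg hd, wn_zero]
        set k := ((d : ℝ) ^ N)⁻¹
        set x := wn (p + 1) (Bm F^[N] w) ^ 2
        set y := wn p (Bm F^[N] w) ^ 2
        set t := 2 * ‖w‖ ^ 2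
        have hx : 0 ≤ x := sq_nonneg _
        have hy : 0 ≤ y := sq_nonneg _
        have e1 := C_frac (add_nonneg hy (sq_nonneg k)) hx (pow_pos k0 2)
        have e2 : k ^ p / t ^ p ≤ 1 :=
          (div_le_one (by positivity)).2 ((pow_le_one₀ k0.le k1).trans (one_le_pow₀ w3))
        have e3 : k ^ p / t ^ p * k ^ 2 ≤ 1 :=
          mul_le_one₀ e2 (sq_nonneg k) (pow_le_one₀ k0.le k1)
        calc _ = k / t * (k ^ p / t ^ p * ((y + k ^ 2) / (x + k ^ 2) * x)) := by ring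
          _ ≤ k * (k ^ p / t ^ p * (y + k ^ 2)) := by gcongr; exact div_le_self k0.le w3
          _ = k * (k ^ p * y / t ^ p) + k * (k ^ p / t ^ p * k ^ 2) := by ring
          _ ≤ _ := by
            simp only [pow_zero, one_pow, mul_one, div_one]
            nlinarith [mul_le_mul_of_nonneg_left e3 k0.le]
    rw [neg_neg, ← Real.log_pow, Real.exp_log (by positivity), show (d : ℝ) ^ N *
      (C * (((d : ℝ) ^ N)⁻¹ * mass (ref n p) + ((d : ℝ) ^ N)⁻¹ * mass (ref n 0))) =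
      C * (mass (ref n p) + mass (ref n 0)) by field_simp, Real.log_pow] at h6
    linarith [h1 N]
  · refine C_lim (C := C * mass (ref n 0) / 2) fun ε hε => ?_
    filter_upwards [hup ε hε] with N h4
    obtain ⟨k0, k1⟩ := hk N
    have h6 := hr N 0 0 _ 1 0 _ _ 0 (lh_const 0) zero_le_one le_rfl (hR0 0)
      (hR0 0) (hR N 0) (hR N 0) fun w w1 w2 => by
        obtain ⟨w0, w3⟩ := hw0 w w1
        rw [C_hat hF hd _ _ w0, C_hat hF hd _ _ w0, hh, D_exp_rg hd, wn_zero, Real.exp_zero]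
        set k := ((d : ℝ) ^ N)⁻¹
        set x := wn s (Bm F^[N] w) ^ 2
        set t := 2 * ‖w‖ ^ 2
        have e1 := C_frac zero_le_one (sq_nonneg (wn s (Bm F^[N] w))) (pow_pos k0 2)
        have e2 : k ^ s / t ^ s ≤ 1 :=
          (div_le_one (by positivity)).2 ((pow_le_one₀ k0.le k1).trans (one_le_pow₀ w3))
        calc _ = k ^ s / t ^ s * (1 / (x + k ^ 2) * x) := by ring
          _ ≤ 1 := mul_le_one₀ e2 (by positivity) e1
          _ = _ := by simp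
    rw [pr_const_left, neg_zero, Real.exp_zero] at h6
    linarith

theorem C_exponents (h : Dyn d s F τ φ φ' Ψ Y Y' ν Z δ) (hm : Mix d s F φ φ' Ψ ν) :
    ∃ L, Ex d s F φ φ' ν L := by
  have := hm.prob
  have hF := h.hF
  have hd : 1 ≤ d := le_trans one_le_two h.hd
  choose L h1 h2 h3 using C_king hF hd hm.inv hm.mix
  have h4 : ∀ (S : Measure (Fr n s)) (X : Measure (Fr n (s + 1))), Cl1 S → IsCur X → DDC X S τ →
      LeP X Y → CV d s F S ν → ExS d s F S L := fun S X hS hX hD hle hc =>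
    ⟨fun p => by
      obtain ⟨C, hC⟩ := C_low h hX hD hle p
      refine ⟨C + |∫ z, hh d F p 0 z ∂ν|, fun N => le_trans ?_ (hC N)⟩
      rcases N.eq_zero_or_pos with rfl | hN
      · rw [Nat.cast_zero]
        linarith [neg_abs_le (∫ z, hh d F p 0 z ∂ν)]
      · linarith [h3 p N hN, abs_nonneg (∫ z, hh d F p 0 z ∂ν)],
    fun p => C_up hF hd hS hc p (h2 p)⟩
  have h5 := h4 φ' Y' h.cφ' h.cY' h.dY' h.le hm.cv'
  obtain ⟨g1, g2, g3⟩ := C_gaps h hm h5
  exact ⟨L, h1, h2, h4 φ Y h.cφ h.cY h.dY (fun _ _ => le_rfl) hm.cv, h5, g1, g2,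
    le_trans (neg_nonpos.2 (half_pos (Real.log_pos (by exact_mod_cast h.hd))).le) g3⟩

end Pool.Agent.Lib.MP_a47f92_an
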