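import Pool.Agent.Lib.MP_a47f92_an.G.SVD

set_option autoImplicit false
set_option linter.unusedSectionVars false

/-! Linear algebra for the last step: expansion off a subspace on which a cocycle is bounded, and
contraction from the frequency of visits. -/

namespace Pool.Agent.Lib.MP_a47f92_an

open MeasureTheory Filter Topology Set Complex Metric Function Module

variable {n s : ℕ}

theorem C_inter {V W : Submodule ℂ (E n)} (h : n < finrank ℂ V + finrank ℂ W) :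
    ∃ w, w ≠ 0 ∧ w ∈ V ∧ w ∈ W := by
  have h1 := Submodule.finrank_sup_add_finrank_inf_eq V W
  have h2 : finrank ℂ (V ⊔ W : Submodule ℂ (E n)) ≤ n :=
    (Submodule.finrank_le _).trans (by simp)
  have h3 : V ⊓ W ≠ ⊥ := fun h0 => by
    rw [h0, finrank_bot] at h1
    omega
  obtain ⟨w, hw, hw0⟩ := Submodule.exists_mem_ne_zero_of_ne_bot h3
  exact ⟨w, hw0, hw.1, hw.2⟩

theorem C_expand {A : ℕ → E n →L[ℂ] E n} {V : Submodule ℂ (E n)} {M γ γ' : ℝ}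
    (hV : n ≤ finrank ℂ V + s) (hM : 0 ≤ M) (hb : ∀ m, ∀ v ∈ V, ‖A m v‖ ≤ M * ‖v‖)
    (h1 : 1 ≤ γ') (hγ : γ' < γ)
    (hW : ∀ᶠ m in atTop, ∃ W : Submodule ℂ (E n), finrank ℂ W = s ∧
      ∀ w ∈ W, γ ^ m * ‖w‖ ≤ ‖A m w‖) :
    finrank ℂ V + s = n ∧ ∀ v ∉ V, ∀ᶠ m in atTop, γ' ^ m ≤ ‖A m v‖ := by
  have h0 : 0 < γ' := by linarith
  constructor
  · refine le_antisymm (not_lt.1 fun hc => ?_) hV
    obtain ⟨m, ⟨W, hW1, hW2⟩, hm⟩ := (hW.and ((tendsto_pow_atTop_atTop_of_one_lt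
      (by linarith : 1 < γ)).eventually_gt_atTop M)).exists
    obtain ⟨w, hw, hwV, hwW⟩ := C_inter (V := V) (W := W) (by omega)
    have := (hW2 w hwW).trans (hb m w hwV)
    nlinarith [norm_pos_iff.2 hw]
  intro v hv
  obtain ⟨φ, hφ1, hφ⟩ := Submodule.exists_le_ker_of_notMem hv
  set ψ : E n →L[ℂ] ℂ := (φ v)⁻¹ • LinearMap.toContinuousLinearMap φ with hψ
  have hψv : ψ v = 1 := by simp [hψ, inv_mul_cancel₀ hφ1]
  have hψV : ∀ u ∈ V, ψ u = 0 := fun u hu => by simp [hψ, LinearMap.mem_ker.1 (hφ hu)]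
  have hlt : finrank ℂ V < finrank ℂ (V ⊔ Submodule.span ℂ {v} : Submodule ℂ (E n)) :=
    Submodule.finrank_lt_finrank_of_lt (left_lt_sup.2 fun h =>
      hv (h (Submodule.mem_span_singleton_self v)))
  filter_upwards [hW, (tendsto_pow_atTop_atTop_of_one_lt ((one_lt_div h0).2 hγ)).eventually_gt_atTop
    (M * (1 + ‖ψ‖ * ‖v‖) + ‖ψ‖)] with m ⟨W, hW1, hW2⟩ hm
  obtain ⟨w, hw, hwV, hwW⟩ := C_inter (V := V ⊔ Submodule.span ℂ {v}) (W := W) (by omega)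
  obtain ⟨u, hu, y, hy, rfl⟩ := Submodule.mem_sup.1 hwV
  obtain ⟨c, rfl⟩ := Submodule.mem_span_singleton.1 hy
  have hc : ‖c‖ ≤ ‖ψ‖ * ‖u + c • v‖ := by
    have := ψ.le_opNorm (u + c • v)
    rwa [map_add, map_smul, hψV u hu, hψv, zero_add, smul_eq_mul, mul_one] at this
  have hu1 : ‖u‖ ≤ ‖u + c • v‖ + ‖c‖ * ‖v‖ := by
    have := norm_sub_le (u + c • v) (c • v)
    rwa [add_sub_cancel_right, norm_smul] at this
  have h2 : γ ^ m * ‖u + c • v‖ ≤ M * ‖u‖ + ‖c‖ * ‖A m v‖ := by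
    refine (hW2 _ hwW).trans ?_
    rw [map_add, map_smul]
    exact (norm_add_le _ _).trans (add_le_add (hb m u hu) (norm_smul _ _).le)
  have hp := norm_pos_iff.2 hw
  set r := ‖u + c • v‖
  refine not_lt.1 fun hlt' => ?_
  have h3 : 1 ≤ γ' ^ m := one_le_pow₀ h1
  rw [div_pow, lt_div_iff₀ (by positivity)] at hm
  have h4 : ‖u‖ ≤ r * (1 + ‖ψ‖ * ‖v‖) := by
    nlinarith [mul_le_mul_of_nonneg_right hc (norm_nonneg v)]
  have h5 : ‖c‖ * ‖A m v‖ ≤ ‖ψ‖ * r * γ' ^ m :=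
    mul_le_mul hc hlt'.le (norm_nonneg _) (by positivity)
  have h6 : M * ‖u‖ ≤ M * (r * (1 + ‖ψ‖ * ‖v‖)) * γ' ^ m :=
    (mul_le_mul_of_nonneg_left h4 hM).trans (le_mul_of_one_le_right (by positivity) h3)
  nlinarith [mul_lt_mul_of_pos_left hm hp]

theorem C_contract {T : Set ℕ} {M η : ℝ} (hM : 0 < M) (hη : 0 < η)
    (hf : ∀ᶠ N : ℕ in atTop, η * N ≤ ∑ i ∈ Finset.range N, T.indicator 1 i) {a : ℕ → ℝ}
    (hs : Summable fun j => a j ^ 2)
    (hT : ∀ k ∈ T, ∑' j, a (j + k) ^ 2 ≤ M * a k ^ 2) :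
    ∀ᶠ N in atTop, a N ≤ Real.exp (-(η / (4 * M))) ^ N := by
  set q : ℕ → ℝ := fun k => ∑' j, a (j + k) ^ 2 with hq
  have hq0 : ∀ k, 0 ≤ q k := fun k => tsum_nonneg fun j => sq_nonneg _
  have hq1 : ∀ k, q k = a k ^ 2 + q (k + 1) := fun k => by
    have := ((summable_nat_add_iff (f := fun j => a j ^ 2) k).2 hs).tsum_eq_zero_add
    simp only [zero_add] at this
    simp only [hq, this, add_assoc, add_comm 1 k]
  have h1 : ∀ N, q N ≤ Real.exp (-((∑ i ∈ Finset.range N, T.indicator 1 i) / M)) * q 0 := by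
    intro N
    induction N with
    | zero => simp
    | succ N ih =>
      rw [Finset.sum_range_succ, add_div, neg_add, add_comm (-_), Real.exp_add, mul_assoc]
      refine le_trans ?_ (mul_le_mul_of_nonneg_left ih (Real.exp_pos _).le)
      by_cases hN : N ∈ T
      · rw [indicator_of_mem hN, Pi.one_apply]
        have h2 : q N / M ≤ a N ^ 2 := (div_le_iff₀' hM).2 (hT N hN)
        have h3 := mul_le_mul_of_nonneg_right (Real.add_one_le_exp (-(1 / M))) (hq0 N)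
        have h4 : q N / M = 1 / M * q N := by ring
        nlinarith [hq1 N]
      · rw [indicator_of_notMem hN, zero_div, neg_zero, Real.exp_zero, one_mul]
        nlinarith [hq1 N, sq_nonneg (a N)]
  have h2 : Tendsto (fun N : ℕ => Real.exp (η / (2 * M) * N)) atTop atTop :=
    Real.tendsto_exp_atTop.comp (tendsto_natCast_atTop_atTop.const_mul_atTop (by positivity))
  filter_upwards [hf, h2.eventually_ge_atTop (q 0)] with N hN hN'
  refine le_of_sq_le_sq ?_ (by positivity)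
  have h3 : Real.exp (-((∑ i ∈ Finset.range N, T.indicator 1 i) / M)) ≤ Real.exp (-(η * N / M)) :=
    Real.exp_le_exp.2 (neg_le_neg (div_le_div_of_nonneg_right hN hM.le))
  calc a N ^ 2 ≤ q N := by nlinarith [hq1 N, hq0 (N + 1)]
    _ ≤ Real.exp (-(η * N / M)) * Real.exp (η / (2 * M) * N) :=
      (h1 N).trans (mul_le_mul h3 hN' (hq0 0) (Real.exp_pos _).le)
    _ = _ := by
      rw [← Real.exp_add, ← Real.exp_nat_mul, ← Real.exp_nat_mul]
      congr 1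
      push_cast
      field_simp
      ring

theorem C_hyp {A : ℕ → ℕ → E n →L[ℂ] E n} (coc : ∀ i a b v, A i (b + a) v = A (i + a) b (A i a v))
    {T : Set ℕ} (h0 : 0 ∈ T) {M η : ℝ} (hM : 0 < M) (hη : 0 < η)
    (hf : ∀ᶠ N : ℕ in atTop, η * N ≤ ∑ i ∈ Finset.range N, T.indicator 1 i)
    (hV : ∀ i ∈ T, ∃ V : Submodule ℂ (E n), n ≤ finrank ℂ V + s ∧
      ∀ v ∈ V, ∀ J, ∑ j ∈ Finset.range J, ‖A i j v‖ ^ 2 ≤ M * ‖A i 0 v‖ ^ 2)
    (hP : ∀ i v, ‖A i 0 v‖ ≤ ‖v‖)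
    (hW : ∀ i ∈ T, ∃ γ : ℝ, 1 < γ ∧ ∀ᶠ m in atTop, ∃ W : Submodule ℂ (E n), finrank ℂ W = s ∧
      ∀ w ∈ W, γ ^ m * ‖w‖ ≤ ‖A i m w‖) :
    ∃ θ : ℝ, 0 < θ ∧ θ < 1 ∧ ∃ V : Submodule ℂ (E n), finrank ℂ V + s = n ∧
      (∀ v ∈ V, ∀ᶠ m in atTop, ‖A 0 m v‖ ≤ θ ^ m) ∧
      ∀ v ∉ V, ∀ᶠ m in atTop, θ⁻¹ ^ m ≤ ‖A 0 m v‖ := by
  choose! V hV1 hV2 using hV
  choose! γ hγ hW using hW
  have hb : ∀ i ∈ T, ∀ m, ∀ v ∈ V i, ‖A i m v‖ ≤ √M * ‖v‖ := fun i hi m v hv => by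
    refine le_of_sq_le_sq ?_ (by positivity)
    rw [mul_pow, Real.sq_sqrt hM.le]
    refine le_trans ?_ ((hV2 i hi v hv (m + 1)).trans (mul_le_mul_of_nonneg_left
      (pow_le_pow_left₀ (norm_nonneg _) (hP i v) 2) hM.le))
    exact Finset.single_le_sum (f := fun j => ‖A i j v‖ ^ 2) (fun j _ => sq_nonneg _)
      (Finset.self_mem_range_succ m)
  have hE : ∀ i ∈ T, ∀ v, (Summable fun j => ‖A i j v‖ ^ 2) → v ∈ V i := fun i hi v hv => by
    by_contra hc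
    obtain ⟨m, h1, h2⟩ := (((C_expand (hV1 i hi) (Real.sqrt_nonneg M) (hb i hi) le_rfl (hγ i hi)
      (hW i hi)).2 v hc).and (hv.tendsto_atTop_zero.eventually_lt_const one_pos)).exists
    rw [one_pow] at h1
    nlinarith
  have hg := hγ 0 h0
  set γ' := (1 + γ 0) / 2 with hγ'
  have hg1 : 1 < γ' := by linarith
  obtain ⟨h1, h2⟩ := C_expand (hV1 0 h0) (Real.sqrt_nonneg M) (hb 0 h0) hg1.le
    (by linarith : γ' < γ 0) (hW 0 h0)
  set θ := max (Real.exp (-(η / (4 * M)))) γ'⁻¹ with hθ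
  have hθ0 : 0 < θ := (Real.exp_pos _).trans_le (le_max_left _ _)
  refine ⟨θ, hθ0, max_lt (Real.exp_lt_one_iff.2 (neg_neg_of_pos (by positivity)))
    (inv_lt_one_of_one_lt₀ hg1), V 0, h1, fun v hv => ?_, fun v hv => (h2 v hv).mono fun m hm =>
      (pow_le_pow_left₀ (by positivity) (inv_le_of_inv_le₀ (by positivity)
        (le_max_right _ _)) m).trans hm⟩
  have hs : Summable fun j => ‖A 0 j v‖ ^ 2 :=
    summable_of_sum_range_le (fun j => sq_nonneg _) (hV2 0 h0 v hv)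
  refine (C_contract hM hη hf (a := fun j => ‖A 0 j v‖) hs
    fun k hk => ?_).mono fun m hm => hm.trans
      (pow_le_pow_left₀ (Real.exp_pos _).le (le_max_left _ _) m)
  have e : ∀ j, A 0 (j + k) v = A k j (A 0 k v) := fun j => by rw [coc, zero_add]
  have hs' := (summable_nat_add_iff (f := fun j => ‖A 0 j v‖ ^ 2) k).2 hs
  simp only [e] at hs' ⊢
  refine Real.tsum_le_of_sum_range_le (fun j => sq_nonneg _) fun J => ?_
  have := hV2 k hk _ (hE k hk _ hs') J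
  rwa [← e 0, zero_add] at this

end Pool.Agent.Lib.MP_a47f92_an
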