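import Pool.Agent.Lib.MP_a47f92_an.G.SOS
import Pool.Agent.Lib.MP_a47f92_an.G.Plk
import Pool.Agent.Lib.MP_a47f92_an.Lift
import Pool.Agent.Lib.MP_a47f92_an.GreenA
import Pool.Agent.Lib.MP_a47f92_an.Pair

set_option autoImplicit false
set_option linter.unusedSectionVars false

namespace Pool.Agent.Lib.MP_a47f92_an

open MeasureTheory Filter Topology Set Complex Metric Function
open scoped ContDiff ComplexConjugate ComplexOrder Matrix ENNReal NNReal

/-! Logarithmically homogeneous functions. -/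

variable {n d : ℕ} {D D' : ℝ} {q q' a b : E n → ℝ} {F : E n → E n} {z : E n}

theorem LH.contDiffAt (h : LH D q) (hz : z ≠ 0) : ContDiffAt ℝ ∞ q z :=
  h.1.contDiffAt (isOpen_compl_singleton.mem_nhds hz)

theorem LH.contDiffAt2 (h : LH D q) (hz : z ≠ 0) : ContDiffAt ℝ 2 q z :=
  (h.contDiffAt hz).of_le GreenA_two

theorem LH.measurable (h : LH D q) : Measurable q :=
  measurable_of_continuousOn_compl_singleton 0 h.1.continuousOn

theorem LH.congr (h : LH D q) (h' : ∀ z, z ≠ 0 → q' z = q z) : LH D q' :=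
  ⟨h.1.congr h', fun c hc z hz => by
    rw [h' z hz, h' _ (smul_ne_zero hc hz), h.2 c hc z hz]⟩

theorem lh_const (c : ℝ) : LH 0 fun _ : E n => c :=
  ⟨contDiffOn_const, fun _ _ _ _ => by rw [zero_mul, add_zero]⟩

theorem lh_lg : LH 1 (lg : E n → ℝ) :=
  ⟨spot_log.smooth, spot_log.hom⟩

theorem LH.add (h : LH D q) (h' : LH D' q') : LH (D + D') fun z => q z + q' z :=
  ⟨h.1.add h'.1, fun c hc z hz => by
    beta_reduce
    rw [h.2 c hc z hz, h'.2 c hc z hz]
    ring⟩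

theorem LH.sub (h : LH D q) (h' : LH D' q') : LH (D - D') fun z => q z - q' z :=
  ⟨h.1.sub h'.1, fun c hc z hz => by
    beta_reduce
    rw [h.2 c hc z hz, h'.2 c hc z hz]
    ring⟩

theorem LH.const_mul (h : LH D q) (c : ℝ) : LH (c * D) fun z => c * q z :=
  ⟨contDiffOn_const.mul h.1, fun c hc z hz => by
    beta_reduce
    rw [h.2 c hc z hz]
    ring⟩

theorem LH.mul (h : LH 0 a) (h' : LH 0 b) : LH 0 fun z => a z * b z :=
  ⟨h.1.mul h'.1, fun c hc z hz => by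
    beta_reduce
    rw [h.2 c hc z hz, h'.2 c hc z hz]
    ring⟩

theorem LH.rcomp (h : LH 0 a) {φ : ℝ → ℝ} (hφ : ContDiff ℝ ∞ φ) : LH 0 fun z => φ (a z) :=
  ⟨hφ.comp_contDiffOn h.1, fun c hc z hz => by
    beta_reduce
    rw [h.2 c hc z hz, zero_mul, add_zero, add_zero]⟩

theorem LH.comp (h : LH D q) (hF : IsLift d F) : LH (D * d) fun z => q (F z) :=
  ⟨h.1.comp hF.contDiffR.contDiffOn fun _ hz => hF.ne hz, fun c hc z hz => by
    beta_reduce
    rw [hF.hom, h.2 _ (pow_ne_zero d hc) _ (hF.ne hz), norm_pow, Real.log_pow, mul_assoc]⟩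

theorem LH.comp0 (h : LH 0 a) (hF : IsLift d F) : LH 0 fun z => a (F z) := by
  simpa only [zero_mul] using h.comp hF

theorem LH.inv0 (h : LH 0 a) : Inv0 a := fun c hc z hz => by
  rw [h.2 c hc z hz, zero_mul, add_zero]

theorem LH.bound (h : LH 0 a) : ∃ C : ℝ, 0 ≤ C ∧ ∀ z, |a z| ≤ C := by
  obtain ⟨C, hC⟩ := XHom.bound (c := 0) (p := a) h.2 h.1.continuousOn
  refine ⟨max C |a 0|, (abs_nonneg _).trans (le_max_right _ _), fun z => ?_⟩
  by_cases hz : z = 0
  · rw [hz]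
    exact le_max_right _ _
  · have h1 := hC z hz
    rw [zero_mul, sub_zero] at h1
    exact h1.trans (le_max_left _ _)

theorem PL.congr (h : PL D q) (h' : ∀ z, z ≠ 0 → q' z = q z) : PL D q' :=
  ⟨h.lh.congr h', fun z hz v => by
    have e : q' =ᶠ[𝓝 z] q := by
      filter_upwards [isOpen_compl_singleton.mem_nhds hz] with w hw using h' w hw
    rw [levi_eq_qf, (hess_congr e).eq_of_nhds]
    exact h.psh z hz v⟩

theorem pl_lg : PL 1 (lg : E n → ℝ) :=
  ⟨lh_lg, spot_log.psh⟩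

theorem PL.add (h : PL D q) (h' : PL D' q') : PL (D + D') fun z => q z + q' z :=
  ⟨h.lh.add h'.lh, fun z hz v => by
    rw [levi_add (h.lh.contDiffAt2 hz) (h'.lh.contDiffAt2 hz)]
    exact add_nonneg (h.psh z hz v) (h'.psh z hz v)⟩

theorem PL.const_mul (h : PL D q) {c : ℝ} (hc : 0 ≤ c) : PL (c * D) fun z => c * q z :=
  ⟨h.lh.const_mul c, fun z hz v => by
    rw [levi_const_mul]
    exact mul_nonneg hc (h.psh z hz v)⟩

theorem PL.comp (h : PL D q) (hF : IsLift d F) : PL (D * d) fun z => q (F z) :=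
  ⟨h.lh.comp hF, fun z hz v => by
    rw [levi_comp (hF.contDiff.contDiffAt.of_le GreenA_two) (h.lh.contDiffAt2 (hF.ne hz))]
    exact h.psh _ (hF.ne hz) _⟩

theorem PPs.pots {p : ℕ} {q : Fin p → E n → ℝ} (h : PPs q) : Pots q := fun l =>
  (h l).imp fun _ h => h.lh

/-- A homogeneous positive sum of squares has a plurisubharmonic logarithm. -/
theorem pl_of_sos {s : E n → ℝ} (h : SOS {0}ᶜ s) (h0 : ∀ z, z ≠ 0 → 0 < s z) {k : ℕ}
    (hh : ∀ c : ℂ, ∀ z, c ≠ 0 → z ≠ 0 → s (c • z) = (‖c‖ ^ k) ^ 2 * s z) :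
    PL k fun z => Real.log (s z) / 2 := by
  have h1 : LH k fun z => Real.log (s z) / 2 := by
    refine ⟨h.log_smooth h0, fun c hc z hz => ?_⟩
    have h2 : (‖c‖ ^ k) ^ 2 ≠ 0 := pow_ne_zero _ (pow_ne_zero _ (norm_ne_zero_iff.2 hc))
    beta_reduce
    rw [hh c z hc hz, Real.log_mul h2 (h0 z hz).ne', Real.log_pow, Real.log_pow]
    push_cast
    ring
  refine ⟨h1, fun z hz v => ?_⟩
  rw [← lap_eq_levi (h1.contDiffAt2 hz)]
  exact h.log_psh isOpen_compl_singleton h0 hz v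

theorem isLift_clm {T : E n →L[ℂ] E n} (h : ∀ z, T z = 0 → z = 0) : IsLift 1 T :=
  ⟨fun z _ => T.analyticAt z, fun c z => by rw [map_smul, pow_one], h⟩

theorem fw_clm {p : ℕ} (T : E n →L[ℂ] E n) : (fw T : Fr n p → Fr n p) = lin T := by
  funext x
  simp only [fw, lin, T.fderiv]

theorem pl_green (hF : IsLift d F) (hd : 1 ≤ d) (m : ℕ) : PL 1 (green d F m) :=
  ⟨⟨(green_spot hF hd m).smooth, (green_spot hF hd m).hom⟩, (green_spot hF hd m).psh⟩

theorem green_zero (d : ℕ) (F : E n → E n) : green d F 0 = lg := by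
  funext z
  simp only [green, lg, pow_zero, inv_one, one_mul, iterate_zero, id]

theorem green_comp (hd : 1 ≤ d) (F : E n → E n) (m j : ℕ) (z : E n) :
    green d F m (F^[j] z) = (d : ℝ) ^ j * green d F (m + j) z := by
  have hd0 : (d : ℝ) ^ j ≠ 0 := pow_ne_zero _ (Nat.cast_ne_zero.2 (by omega))
  rw [green_add, mul_inv_cancel_left₀ hd0]

theorem lg_comp (hd : 1 ≤ d) (F : E n → E n) (j : ℕ) (z : E n) :
    lg (F^[j] z) = (d : ℝ) ^ j * green d F j z := by
  rw [← green_zero d F, green_comp hd, zero_add]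

theorem green_cauchy (hF : IsLift d F) (hd : 2 ≤ d) : ∃ C : ℝ, 0 ≤ C ∧ ∀ m j z, z ≠ 0 →
    |green d F (m + j) z - green d F m z| ≤ C * ((d : ℝ) ^ m)⁻¹ := by
  obtain ⟨C, hC, h⟩ := green_bound hF hd
  refine ⟨C, hC, fun m j z hz => ?_⟩
  have h1 : (0 : ℝ) ≤ ((d : ℝ) ^ m)⁻¹ := by positivity
  rw [add_comm m j, green_add, green.eq_1 d F m z, ← mul_sub, abs_mul, abs_of_nonneg h1, mul_comm]
  exact mul_le_mul_of_nonneg_right (h j _ ((hF.iterate m).ne hz)) h1

end Pool.Agent.Lib.MP_a47f92_an
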