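import Pool.Agent.Lib.MP_a47f92_an.G.Plk
import Pool.Agent.Lib.MP_a47f92_an.G.LHa
import Pool.Agent.Lib.MP_a47f92_an.G.SOS

set_option autoImplicit false
set_option linter.unusedSectionVars false

namespace Pool.Agent.Lib.MP_a47f92_an

open MeasureTheory Filter Topology Set Complex Metric Function
open scoped ContDiff ComplexConjugate ComplexOrder Matrix ENNReal NNReal

/-! The derivative cocycle on projective space. -/

variable {n p d D : ℕ} {F G : E n → E n} {z : E n}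

theorem D_Bm_apply (G : E n → E n) (z v : E n) :
    Bm G z v = ((‖z‖ / ‖G z‖ : ℝ) : ℂ) • prj (un (G z)) (fderiv ℂ G z v) := rfl

theorem D_Bm_self (hG : IsLift D G) (hz : z ≠ 0) : Bm G z z = 0 := by
  rw [D_Bm_apply, hG.euler, map_smul, prj_un_self (hG.ne hz), smul_zero, smul_zero]

theorem D_Bm_prj (hG : IsLift D G) (hz : z ≠ 0) (v : E n) : Bm G z (prj (un z) v) = Bm G z v := by
  obtain ⟨c, hc⟩ := sub_prj_un z v
  conv_rhs => rw [hc]
  rw [map_add, map_smul, D_Bm_self hG hz, smul_zero, add_zero]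

theorem D_fderiv_comp (hF : IsLift d F) (hG : IsLift D G) (z v : E n) :
    fderiv ℂ (F ∘ G) z v = fderiv ℂ F (G z) (fderiv ℂ G z v) := by
  rw [fderiv_comp z (hF.differentiable _) (hG.differentiable _)]
  rfl

theorem D_Bm_comp (hF : IsLift d F) (hG : IsLift D G) (hz : z ≠ 0) :
    Bm (F ∘ G) z = (Bm F (G z)).comp (Bm G z) := by
  refine ContinuousLinearMap.ext fun v => ?_
  have h : (‖G z‖ : ℂ) ≠ 0 := ofReal_ne_zero.2 (norm_ne_zero_iff.2 (hG.ne hz))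
  rw [ContinuousLinearMap.comp_apply, D_Bm_apply G, map_smul, D_Bm_prj hF (hG.ne hz), D_Bm_apply,
    D_Bm_apply, D_fderiv_comp hF hG, smul_smul, comp_apply]
  congr 1
  push_cast
  field_simp

theorem D_iter (F : E n → E n) (a b : ℕ) : F^[a + b] = F^[b] ∘ F^[a] := by
  rw [add_comm, iterate_add]

theorem D_Bm_add (hF : IsLift d F) (a b : ℕ) (hz : z ≠ 0) :
    Bm F^[a + b] z = (Bm F^[b] (F^[a] z)).comp (Bm F^[a] z) := by
  rw [D_iter, D_Bm_comp (hF.iterate b) (hF.iterate a) hz]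

theorem D_Bm_id (hz : z ≠ 0) : Bm id z = prj (un z) := by
  rw [Bm, id, div_self (norm_ne_zero_iff.2 hz), fderiv_id]
  simp

theorem D_Bm_smul (hG : IsLift D G) (hD : 1 ≤ D) {c : ℂ} (hc : c ≠ 0) (z : E n) :
    ∃ u : ℂ, ‖u‖ = 1 ∧ Bm G (c • z) = u • Bm G z := by
  have h : ‖c‖ ≠ 0 := norm_ne_zero_iff.2 hc
  obtain ⟨k, rfl⟩ := Nat.exists_eq_add_of_le' hD
  refine ⟨(c / ‖c‖) ^ k, by simp [h], ?_⟩
  refine ContinuousLinearMap.ext fun v => ?_
  rw [_root_.smul_apply, D_Bm_apply, D_Bm_apply, hG.hom, prj_un_smul (pow_ne_zero _ hc),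
    hG.fderiv_smul hD hc, _root_.smul_apply, map_smul, smul_smul, smul_smul,
    norm_smul, norm_smul, norm_pow, Nat.add_sub_cancel]
  congr 1
  have h' : (‖c‖ : ℂ) ≠ 0 := ofReal_ne_zero.2 h
  push_cast
  rw [div_pow, pow_succ]
  by_cases h0 : (‖G z‖ : ℂ) = 0
  · simp [h0]
  field_simp

theorem D_wn_smul (hG : IsLift D G) (hD : 1 ≤ D) (p : ℕ) : Inv0 fun z => wn p (Bm G z) := by
  intro c hc z _
  obtain ⟨u, hu, h⟩ := D_Bm_smul hG hD hc z
  simp only [h, wn_smul, hu, one_pow, one_mul]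

theorem D_al_smul (hG : IsLift D G) (hD : 1 ≤ D) (J : Fin p → Fin n) : Inv0 (al G J) := by
  intro c hc z _
  obtain ⟨u, hu, h⟩ := D_Bm_smul hG hD hc z
  simp only [al, h, _root_.smul_apply, plk_smul, norm_smul, norm_pow, hu, one_pow,
    one_mul]

theorem D_cont_un : ContinuousOn (un : E n → E n) {0}ᶜ :=
  (continuous_norm.continuousOn.inv₀ fun _ hz => norm_ne_zero_iff.2 hz).smul continuousOn_id

theorem D_Bm_cont (hG : IsLift D G) : ContinuousOn (Bm G) {0}ᶜ := by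
  have hc := hG.contDiff.continuous
  refine ContinuousOn.smul (continuous_ofReal.comp_continuousOn
    (continuous_norm.continuousOn.div hc.norm.continuousOn
      fun _ hz => norm_ne_zero_iff.2 (hG.ne hz))) (ContinuousOn.clm_comp ?_ ?_)
  · exact Coc1_cont_prj.comp_continuousOn (D_cont_un.comp hc.continuousOn fun _ hz => hG.ne hz)
  · exact (hG.contDiff.continuous_fderiv (by simp)).continuousOn

theorem D_meas {Y : Type} [TopologicalSpace Y] [MeasurableSpace Y] [BorelSpace Y] {f : E n → Y}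
    (h : ContinuousOn f {0}ᶜ) : Measurable f :=
  measurable_of_continuousOn_compl_singleton 0 h

theorem D_al_cont (hG : IsLift D G) (J : Fin p → Fin n) : ContinuousOn (al G J) {0}ᶜ :=
  (contDiff_plk.continuous.comp_continuousOn (continuousOn_pi.2 fun _ =>
    (D_Bm_cont hG).clm_apply continuousOn_const)).norm

theorem D_wn_cont (hG : IsLift D G) (p : ℕ) : ContinuousOn (fun z => wn p (Bm G z)) {0}ᶜ :=
  (continuous_wn p).comp_continuousOn (D_Bm_cont hG)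

theorem D_Bm_bound (hG : IsLift D G) (hD : 1 ≤ D) :
    ∃ K : ℝ, 1 ≤ K ∧ ∀ z, z ≠ 0 → ‖Bm G z‖ ≤ K := by
  obtain ⟨K, hK⟩ := (isCompact_sphere (0 : E n) 1).exists_bound_of_continuousOn
    ((D_Bm_cont hG).mono fun x hx => ne_zero_of_mem_unit_sphere ⟨x, hx⟩)
  refine ⟨max K 1, le_max_right _ _, fun z hz => le_max_of_le_left ?_⟩
  have h : ((‖z‖⁻¹ : ℝ) : ℂ) ≠ 0 := ofReal_ne_zero.2 (inv_ne_zero (norm_ne_zero_iff.2 hz))
  obtain ⟨u, hu, e⟩ := D_Bm_smul hG hD h z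
  have h2 := hK (un z) (mem_sphere_zero_iff_norm.2 (norm_un hz))
  rwa [un, ← Complex.coe_smul, e, norm_smul, hu, one_mul] at h2

theorem D_Bm_iter_bound (hF : IsLift d F) (hd : 1 ≤ d) :
    ∃ K : ℝ, 1 ≤ K ∧ ∀ N z, z ≠ 0 → ‖Bm F^[N] z‖ ≤ K ^ N := by
  obtain ⟨K, hK, h⟩ := D_Bm_bound hF hd
  refine ⟨K, hK, fun N => ?_⟩
  induction N with
  | zero =>
    intro z hz
    rw [iterate_zero, D_Bm_id hz, pow_zero]
    exact ContinuousLinearMap.opNorm_le_bound _ zero_le_one fun v => by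
      rw [one_mul]
      exact norm_prj_un_le z v
  | succ N ih =>
    intro z hz
    rw [D_Bm_add hF N 1 hz, pow_succ']
    exact (ContinuousLinearMap.opNorm_comp_le _ _).trans (mul_le_mul (h _ ((hF.iterate N).ne hz))
      (ih z hz) (norm_nonneg _) (by positivity))

/-! ### The regularised logarithm -/

theorem D_rg_pos (hd : 1 ≤ d) (N : ℕ) (x : ℝ) : 0 < x ^ 2 + (((d : ℝ) ^ N)⁻¹) ^ 2 := by
  have : (0 : ℝ) < d := by exact_mod_cast hd
  positivity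

theorem D_rg_mono (hd : 1 ≤ d) (N : ℕ) {x y : ℝ} (hx : 0 ≤ x) (h : x ≤ y) : rg d N x ≤ rg d N y := by
  unfold rg
  have := D_rg_pos hd N x
  gcongr

theorem D_rg_mul (hd : 1 ≤ d) (a b : ℕ) {x y y' : ℝ} (hx : 0 ≤ x) (h : x ≤ y * y') :
    rg d (a + b) x ≤ rg d a y + rg d b y' := by
  refine (D_rg_mono hd _ hx h).trans ?_
  unfold rg
  rw [← add_div, ← Real.log_mul (D_rg_pos hd a y).ne' (D_rg_pos hd b y').ne']
  have := D_rg_pos hd (a + b) (y * y')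
  gcongr
  rw [pow_add, mul_inv]
  nlinarith [mul_nonneg (sq_nonneg y) (sq_nonneg ((d : ℝ) ^ b)⁻¹),
    mul_nonneg (sq_nonneg y') (sq_nonneg ((d : ℝ) ^ a)⁻¹)]

theorem D_rg_cmul (hd : 1 ≤ d) (N : ℕ) {x y C : ℝ} (hx : 0 ≤ x) (hC : 1 ≤ C) (h : x ≤ C * y) :
    rg d N x ≤ rg d N y + Real.log C := by
  refine (D_rg_mono hd _ hx h).trans ?_
  have h1 : Real.log C = Real.log (C ^ 2) / 2 := by
    rw [Real.log_pow]
    push_cast
    ring
  unfold rg
  rw [h1, ← add_div, ← Real.log_mul (D_rg_pos hd N y).ne' (by positivity)]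
  have := D_rg_pos hd N (C * y)
  gcongr
  nlinarith [mul_le_mul_of_nonneg_left (one_le_pow₀ hC : 1 ≤ C ^ 2) (sq_nonneg ((d : ℝ) ^ N)⁻¹)]

theorem D_exp_rg (hd : 1 ≤ d) (N : ℕ) (x : ℝ) :
    Real.exp (rg d N x) ^ 2 = x ^ 2 + (((d : ℝ) ^ N)⁻¹) ^ 2 := by
  rw [← Real.exp_nat_mul, rg, Nat.cast_ofNat, mul_div_cancel₀ _ two_ne_zero,
    Real.exp_log (D_rg_pos hd N x)]

theorem D_le_exp_rg (hd : 1 ≤ d) (N : ℕ) (x : ℝ) : x ≤ Real.exp (rg d N x) := by
  refine le_of_sq_le_sq ?_ (Real.exp_pos _).le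
  rw [D_exp_rg hd]
  exact le_add_of_nonneg_right (sq_nonneg _)

theorem D_exp_rg_le (hd : 1 ≤ d) (N : ℕ) {x : ℝ} (hx : 0 ≤ x) :
    Real.exp (rg d N x) ≤ x + ((d : ℝ) ^ N)⁻¹ := by
  have h : (0 : ℝ) ≤ ((d : ℝ) ^ N)⁻¹ := by positivity
  refine le_of_sq_le_sq ?_ (add_nonneg hx h)
  rw [D_exp_rg hd]
  nlinarith [mul_nonneg hx h]

theorem D_rg_ge (hd : 1 ≤ d) (N : ℕ) (x : ℝ) : -(N * Real.log d) ≤ rg d N x := by
  have h0 : (0 : ℝ) < d := by exact_mod_cast hd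
  rw [← Real.exp_le_exp, ← Real.log_pow, Real.exp_neg, Real.exp_log (by positivity)]
  refine le_of_sq_le_sq ?_ (Real.exp_pos _).le
  rw [D_exp_rg hd]
  exact le_add_of_nonneg_left (sq_nonneg _)

theorem D_rg_le (hd : 1 ≤ d) (N : ℕ) {x M : ℝ} (hx : 0 ≤ x) (h : x ≤ M) :
    rg d N x ≤ Real.log (M + 1) := by
  have h0 : (1 : ℝ) ≤ d := by exact_mod_cast hd
  rw [Real.le_log_iff_exp_le (by linarith)]
  exact (D_exp_rg_le hd N hx).trans (add_le_add h (inv_le_one_of_one_le₀ (one_le_pow₀ h0)))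

theorem D_rg_cont (hd : 1 ≤ d) (N : ℕ) : Continuous (rg d N) :=
  (((continuous_pow 2).add continuous_const).log fun x => (D_rg_pos hd N x).ne').div_const 2

/-! ### Logarithmic norms -/

theorem D_al_nonneg (G : E n → E n) (J : Fin p → Fin n) (z : E n) : 0 ≤ al G J z := norm_nonneg _

theorem D_al_le (G : E n → E n) (J : Fin p → Fin n) (z : E n) : al G J z ≤ wn p (Bm G z) :=
  le_wn _ J

theorem D_wn_sq (G : E n → E n) (p : ℕ) (z : E n) :
    wn p (Bm G z) ^ 2 = ∑ J : Fin p → Fin n, al G J z ^ 2 := Plk_wn_sq _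

theorem D_hh_add (hF : IsLift d F) (hd : 1 ≤ d) (p a b : ℕ) (hz : z ≠ 0) :
    hh d F p (a + b) z ≤ hh d F p a z + hh d F p b (F^[a] z) := by
  refine D_rg_mul hd a b (wn_nonneg _ _) ?_
  rw [D_Bm_add hF a b hz, mul_comm]
  exact wn_comp_le _ _

theorem D_al_mul (hF : IsLift d F) (J : Fin p → Fin n) (a b : ℕ) (hz : z ≠ 0) :
    al F^[a + b] J z ≤ al F^[a] J z * wn p (Bm F^[b] (F^[a] z)) := by
  rw [al, D_Bm_add hF a b hz, mul_comm]
  exact plk_map_le (Bm F^[b] (F^[a] z)) fun j => Bm F^[a] z (evs J j)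

theorem D_al_add (hF : IsLift d F) (hd : 1 ≤ d) (J : Fin p → Fin n) (a b : ℕ) (hz : z ≠ 0) :
    rg d (a + b) (al F^[a + b] J z) ≤ rg d a (al F^[a] J z) + hh d F p b (F^[a] z) :=
  D_rg_mul hd a b (D_al_nonneg _ _ _) (D_al_mul hF J a b hz)

theorem D_hh_abs (hF : IsLift d F) (hd : 1 ≤ d) (p : ℕ) :
    ∃ K : ℝ, 0 ≤ K ∧ ∀ N z, z ≠ 0 → |hh d F p N z| ≤ K * (N + 1) := by
  obtain ⟨K, hK, h⟩ := D_Bm_iter_bound hF hd
  obtain ⟨C, hC, h'⟩ := wn_le n p
  have h0 : (1 : ℝ) ≤ d := by exact_mod_cast hd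
  have l1 := Real.log_nonneg h0
  have l2 := Real.log_nonneg hK
  have l3 : 0 ≤ Real.log (C + 1) := Real.log_nonneg (by linarith)
  refine ⟨Real.log d + Real.log (C + 1) + p * Real.log K, by positivity, fun N z hz => ?_⟩
  have hN : (0 : ℝ) ≤ N := N.cast_nonneg
  have l4 : 0 ≤ p * Real.log K := by positivity
  refine abs_le.2 ⟨le_trans ?_ (D_rg_ge hd N _), ?_⟩
  · nlinarith
  · have h1 : wn p (Bm F^[N] z) ≤ C * (K ^ N) ^ p := (h' _ _).trans (by gcongr; exact h N z hz)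
    have h2 : (1 : ℝ) ≤ (K ^ N) ^ p := one_le_pow₀ (one_le_pow₀ hK)
    have h3 : Real.log (C * (K ^ N) ^ p + 1) ≤ Real.log ((C + 1) * (K ^ N) ^ p) :=
      Real.log_le_log (by positivity) (by linarith)
    rw [Real.log_mul (by positivity) (by positivity), Real.log_pow, Real.log_pow] at h3
    refine (D_rg_le hd N (wn_nonneg _ _) h1).trans (h3.trans ?_)
    nlinarith

theorem D_al_abs (hF : IsLift d F) (hd : 1 ≤ d) (p : ℕ) : ∃ K : ℝ, 0 ≤ K ∧
    ∀ N (J : Fin p → Fin n) z, z ≠ 0 → |rg d N (al F^[N] J z)| ≤ K * (N + 1) := by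
  obtain ⟨K, hK, h⟩ := D_hh_abs hF hd p
  have l1 : 0 ≤ Real.log d := Real.log_nonneg (by exact_mod_cast hd)
  refine ⟨K + Real.log d, by positivity, fun N J z hz => abs_le.2 ⟨?_, ?_⟩⟩
  · refine le_trans ?_ (D_rg_ge hd N _)
    nlinarith [(N.cast_nonneg : (0 : ℝ) ≤ N)]
  · refine (D_rg_mono hd N (D_al_nonneg _ _ _) (D_al_le _ _ _)).trans
      ((le_abs_self _).trans ((h N z hz).trans ?_))
    gcongr
    linarith

theorem D_al_sq (hG : IsLift D G) (J : Fin p → Fin n) (hz : z ≠ 0) :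
    (p + 1) * al G J z ^ 2 = (‖plk (fr G z (evs J))‖ * (‖z‖ ^ p / ‖G z‖ ^ (p + 1))) ^ 2 := by
  have h : ‖G z‖ ≠ 0 := norm_ne_zero_iff.2 (hG.ne hz)
  rw [mul_pow, fr, norm_plk_cons (hG.ne hz), al]
  simp only [D_Bm_apply, plk_smul, norm_smul, norm_pow, norm_real, norm_div, norm_norm, div_pow]
  field_simp
  ring

theorem D_fr_smooth {m : ℕ} {G : E n → E m} (hG : ContDiff ℂ ∞ G) (v : Fin p → E n) :
    ContDiff ℂ ∞ fun z => fr G z v := by
  refine contDiff_pi.2 fun j => ?_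
  refine Fin.cases hG (fun j => ?_) j
  exact (hG.fderiv_right (m := ∞) (by simp)).clm_apply contDiff_const

/-- Regularised logarithms of invariant functions with a sum of squares as numerator. -/
theorem D_pl_rg (hG : IsLift D G) (hd : 1 ≤ d) (N : ℕ) {x : E n → ℝ} (hx : Inv0 x)
    (hs : SOS {0}ᶜ fun z => x z ^ 2 * (‖G z‖ ^ 2) ^ p) :
    PL ((p * D : ℕ) : ℝ) (fun z => rg d N (x z) + p * Real.log ‖G z‖) ∧
      LH 0 fun z => rg d N (x z) := by
  have h0 : ∀ z : E n, z ≠ 0 → 0 < ‖G z‖ := fun z hz => norm_pos_iff.2 (hG.ne hz)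
  have h1 : SOS {0}ᶜ fun z => (x z ^ 2 + (((d : ℝ) ^ N)⁻¹) ^ 2) * (‖G z‖ ^ 2) ^ p :=
    (hs.add ((sos_const (sq_nonneg ((d : ℝ) ^ N)⁻¹)).mul
      ((sos_norm hG.contDiff.contDiffOn).pow p))).congr fun z _ => add_mul _ _ _
  have h2 : PL ((p * D : ℕ) : ℝ) fun z => rg d N (x z) + p * Real.log ‖G z‖ := by
    refine (pl_of_sos h1 (fun z hz => mul_pos (D_rg_pos hd N _) (by have := h0 z hz; positivity))
      fun c z hc hz => ?_).congr fun z hz => ?_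
    · rw [hx c hc z hz, hG.hom, norm_smul, norm_pow]
      ring
    · have := h0 z hz
      rw [Real.log_mul (D_rg_pos hd N _).ne' (by positivity), Real.log_pow, Real.log_pow, rg]
      push_cast
      ring
  refine ⟨h2, ?_⟩
  have h3 := h2.lh.sub ((lh_lg.comp hG).const_mul p)
  rw [one_mul, Nat.cast_mul, sub_self] at h3
  exact h3.congr fun z _ => by simp [lg]

theorem D_al_sos (hG : IsLift D G) (J : Fin p → Fin n) :
    SOS {0}ᶜ fun z => al G J z ^ 2 * (‖G z‖ ^ 2) ^ (p + 1) := by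
  have h1 : SOS {0}ᶜ fun z : E n =>
      ((p : ℝ) + 1)⁻¹ * (‖plk (fr G z (evs J))‖ ^ 2 * (‖z‖ ^ 2) ^ p) :=
    (sos_const (by positivity)).mul ((sos_norm (contDiff_plk.comp
      (D_fr_smooth hG.contDiff _)).contDiffOn).mul ((sos_norm contDiffOn_id).pow p))
  refine h1.congr fun z hz => ?_
  have h : ‖G z‖ ≠ 0 := norm_ne_zero_iff.2 (hG.ne hz)
  have h2 : (p : ℝ) + 1 ≠ 0 := by positivity
  rw [eq_inv_mul_iff_mul_eq₀ h2, ← mul_assoc, D_al_sq hG J hz]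
  field_simp
  ring

theorem D_hh_pl (hF : IsLift d F) (hd : 1 ≤ d) (p N : ℕ) :
    PL (((p + 1) * d ^ N : ℕ) : ℝ) (fun z => hh d F p N z + (p + 1 : ℕ) * Real.log ‖F^[N] z‖) ∧
      LH 0 (hh d F p N) := by
  refine D_pl_rg (hF.iterate N) hd N (D_wn_smul (hF.iterate N) (Nat.one_le_pow _ _ hd) p) ?_
  refine (SOS.sum Finset.univ fun (J : Fin p → Fin n) _ => D_al_sos (hF.iterate N) J).congr
    fun z _ => ?_
  rw [D_wn_sq, Finset.sum_mul]

theorem D_hh_lh (hF : IsLift d F) (hd : 1 ≤ d) (p N : ℕ) : LH 0 (hh d F p N) :=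
  (D_hh_pl hF hd p N).2

theorem D_al_pl (hF : IsLift d F) (hd : 1 ≤ d) (J : Fin p → Fin n) (N : ℕ) :
    PL (((p + 1) * d ^ N : ℕ) : ℝ)
      (fun z => rg d N (al F^[N] J z) + (p + 1 : ℕ) * Real.log ‖F^[N] z‖) ∧
      LH 0 fun z => rg d N (al F^[N] J z) :=
  D_pl_rg (hF.iterate N) hd N (D_al_smul (hF.iterate N) (Nat.one_le_pow _ _ hd) J)
    (D_al_sos (hF.iterate N) J)

end Pool.Agent.Lib.MP_a47f92_an
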