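import Pool.Agent.Lib.MP_a47f92_an.G.CCj
import Pool.Agent.Lib.MP_a47f92_an.G.CLin
import Pool.Agent.Lib.MP_a47f92_an.G.DBm
import Pool.Agent.Lib.MP_a47f92_an.G.Rep
import Pool.Agent.Lib.MP_a47f92_an.G.Erg
import Pool.Agent.Lib.MP_a47f92_an.G.Dyn

set_option autoImplicit false
set_option linter.unusedSectionVars false

/-! The last step: from the exponents and the sets `CJ` to hyperbolicity. -/

namespace Pool.Agent.Lib.MP_a47f92_an

open MeasureTheory Filter Topology Set Complex Metric Function Module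

variable {n d s : ℕ} {F : E n → E n} {ν : Measure (E n)} {z : E n}

theorem C_inv_iter (hF : IsLift d F) (h : ∀ a, LH 0 a → ∫ z, a (F z) ∂ν = ∫ z, a z ∂ν) (i : ℕ) :
    ∀ a, LH 0 a → ∫ z, a (F^[i] z) ∂ν = ∫ z, a z ∂ν := by
  induction i with
  | zero => exact fun a _ => rfl
  | succ i ih =>
    intro a ha
    simp only [iterate_succ_apply']
    rw [ih _ (ha.comp0 hF), h a ha]

theorem C_ae_orbit (hF : IsLift d F) [IsFiniteMeasure ν]
    (h : ∀ a, LH 0 a → ∫ z, a (F z) ∂ν = ∫ z, a z ∂ν) {P : E n → Prop}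
    (hm : MeasurableSet {z | P z}) (hi : Inv0 P) (hP : ∀ᵐ z ∂ν, P z) :
    ∀ᵐ z ∂ν, ∀ i, P (F^[i] z) := by
  refine ae_all_iff.2 fun i => ?_
  have hG : Measurable F^[i] := (hF.iterate i).contDiff.continuous.measurable
  refine ae_of_ae_map (p := P) hG.aemeasurable ?_
  rw [ae_iff] at hP ⊢
  rw [← hP]
  exact measure_eq_of_lh (fun a ha hm => by
    rw [integral_map hG.aemeasurable hm.aestronglyMeasurable, C_inv_iter hF h i a ha]) hm.compl
    fun c hc z hz => by rwa [mem_ofPred_eq, hi.smul hc]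

theorem C_visits (hF : IsLift d F) [IsProbabilityMeasure ν]
    (h : ∀ a, LH 0 a → ∫ z, a (F z) ∂ν = ∫ z, a z ∂ν) {A : Set (E n)} (hA : MeasurableSet A)
    (hc : IsCone A) : ∀ᵐ z ∂ν, z ∈ A → ∃ η : ℝ, 0 < η ∧ ∀ᶠ N : ℕ in atTop,
      η * N ≤ ∑ i ∈ Finset.range N, {i | F^[i] z ∈ A}.indicator 1 i := by
  have := Measure.isProbabilityMeasure_map (μ := ν) measurable_rep.aemeasurable
  have hi : Inv0 (· ∈ A) := fun c h0 z _ => propext
    ⟨fun hz => by simpa [inv_smul_smul₀ h0] using hc c⁻¹ (inv_ne_zero h0) _ hz, hc c h0 z⟩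
  filter_upwards [ae_of_ae_map measurable_rep.aemeasurable
    (visits (measurePreserving_rF hF fun a ha _ => h a ha) hA)] with z hz hzA
  obtain ⟨η, hη, h1⟩ := hz (by rwa [hi.rep])
  refine ⟨η, hη, h1.mono fun N hN => hN.trans_eq (Finset.sum_congr rfl fun i _ => ?_)⟩
  have e : (rF F)^[i] (rep z) ∈ A ↔ F^[i] z ∈ A := by
    rw [hi.rF hF, (hi.comp (hF.iterate i)).rep]
  by_cases hx : F^[i] z ∈ A
  · rw [indicator_of_mem (e.2 hx), indicator_of_mem (show i ∈ {i | F^[i] z ∈ A} from hx)]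
    rfl
  · rw [indicator_of_notMem (fun h => hx (e.1 h)),
      indicator_of_notMem (show i ∉ {i | F^[i] z ∈ A} from hx)]

theorem C_grow (hd : 2 ≤ d) (hs : s < n) {L : ℕ → ℝ}
    (hK : ∀ p, Tendsto (fun N : ℕ => hh d F p N z / N) atTop (𝓝 (L p)))
    (gap : 1 ≤ s → L (s - 1) + Real.log d / 2 ≤ L s) (fl : -(Real.log d / 2) ≤ L s) :
    ∃ γ : ℝ, 1 < γ ∧ ∀ᶠ m in atTop, ∃ W : Submodule ℂ (E n), finrank ℂ W = s ∧
      ∀ w ∈ W, γ ^ m * ‖w‖ ≤ ‖Bm F^[m] z w‖ := by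
  rcases s with _ | p
  · refine ⟨2, one_lt_two, Eventually.of_forall fun m => ⟨⊥, finrank_bot _ _, fun w hw => ?_⟩⟩
    rw [(Submodule.mem_bot ℂ).1 hw, norm_zero, mul_zero]
    exact norm_nonneg _
  have hg := gap (by omega)
  rw [Nat.add_sub_cancel] at hg
  obtain ⟨c, hc, h⟩ := exists_expanding (n := n) (p := p) (by omega)
  have hd0 : (1 : ℝ) < d := by exact_mod_cast hd
  have hd1 : 1 ≤ d := by omega
  have hl := Real.log_pos hd0
  set ε := Real.log d / 8 with hε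
  have h1 : 1 < Real.exp ε := Real.one_lt_exp_iff.2 (by positivity)
  refine ⟨Real.exp ε, h1, ?_⟩
  filter_upwards [(hK (p + 1)).eventually_const_lt (by linarith : L (p + 1) - ε < L (p + 1)),
    (hK p).eventually_lt_const (by linarith : L p < L p + ε),
    (tendsto_pow_atTop_atTop_of_one_lt h1).eventually_ge_atTop (max 2 (2 / c)),
    eventually_gt_atTop 0] with m h2 h3 h4 h5
  obtain ⟨W, hW, hW'⟩ := h (Bm F^[m] z)
  refine ⟨W, hW, fun w hw => ?_⟩
  have hm : (0 : ℝ) < m := by exact_mod_cast h5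
  rw [lt_div_iff₀ hm] at h2
  rw [div_lt_iff₀ hm] at h3
  rw [← Real.exp_nat_mul] at h4 ⊢
  set y := Real.exp (m * ε) with hy
  obtain ⟨hy2, hyc⟩ := max_le_iff.1 h4
  rw [div_le_iff₀ hc] at hyc
  set u := Real.exp (hh d F (p + 1) m z) with hu
  set v := Real.exp (hh d F p m z) with hv
  have hv0 : 0 < v := Real.exp_pos _
  have e1 : wn p (Bm F^[m] z) ≤ v := D_le_exp_rg hd1 _ _
  have e2 : u ≤ wn (p + 1) (Bm F^[m] z) + ((d : ℝ) ^ m)⁻¹ := D_exp_rg_le hd1 _ (wn_nonneg _ _)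
  have e3 : ((d : ℝ) ^ m)⁻¹ * y ≤ u := by
    rw [← Real.exp_log (by positivity : (0 : ℝ) < (d : ℝ) ^ m), ← Real.exp_neg, Real.log_pow,
      ← Real.exp_add, Real.exp_le_exp]
    nlinarith
  have e4 : v * y * y ≤ u := by
    rw [← Real.exp_add, ← Real.exp_add, Real.exp_le_exp]
    nlinarith
  have e5 : v * y * y ≤ 2 * wn (p + 1) (Bm F^[m] z) := by
    have : (0 : ℝ) ≤ ((d : ℝ) ^ m)⁻¹ := by positivity
    nlinarith
  have e6 := (hW' w hw).trans (mul_le_mul_of_nonneg_right e1 (norm_nonneg _))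
  have e7 : v * y ≤ c * wn (p + 1) (Bm F^[m] z) := by
    nlinarith [mul_le_mul_of_nonneg_left e5 hc.le,
      mul_le_mul_of_nonneg_left hyc (by positivity : 0 ≤ v * y)]
  refine le_of_mul_le_mul_left ?_ hv0
  nlinarith [mul_le_mul_of_nonneg_right e7 (norm_nonneg w)]

theorem C_est (hE : Est F s ν) :
    ∀ᵐ z ∂ν, ∃ k : ℕ, z ∈ ⋂ J, CJ F s J (k + 1) := by
  rw [ae_iff]
  refine le_antisymm (ENNReal.le_of_forall_pos_le_add fun ε hε _ => ?_) zero_le
  obtain ⟨M, hM⟩ := hE ε hε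
  obtain ⟨k, hk⟩ := exists_nat_ge M
  have h1 : {z | ¬∃ k : ℕ, z ∈ ⋂ J, CJ F s J (k + 1)} ⊆ ⋃ J, (CJ F s J (k + 1))ᶜ := fun z hz => by
    rw [← compl_iInter]
    exact fun h => hz ⟨k, h⟩
  refine (measure_mono h1).trans ?_
  rw [Monotone.measure_iUnion fun J J' h => compl_subset_compl.2 (C_CJ_anti F s h le_rfl),
    zero_add, ← ENNReal.ofReal_coe_nnreal]
  exact iSup_le fun J => (measure_mono (compl_subset_compl.2
    (C_CJ_anti F s le_rfl (by linarith)))).trans (hM J)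

variable {τ φ φ' : Measure (Fr n s)} {Ψ Y Y' : Measure (Fr n (s + 1))} {Z : Set (E n)} {δ : ℝ}

theorem C_final (h : Dyn d s F τ φ φ' Ψ Y Y' ν Z δ) (hm : Mix d s F φ φ' Ψ ν) {L : ℕ → ℝ}
    (he : Ex d s F φ φ' ν L) (hE : Est F s ν) : ∀ᵐ z ∂ν, Hyp F s z := by
  have := hm.prob
  have hF := h.hF
  have hd : 1 ≤ d := le_trans one_le_two h.hd
  have hK : ∀ p, ∀ᵐ z ∂ν, ∀ i, Tendsto (fun N : ℕ => hh d F p N (F^[i] z) / N) atTop (𝓝 (L p)) :=
    fun p => C_ae_orbit hF hm.inv (P := fun z =>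
      Tendsto (fun N : ℕ => hh d F p N z / N) atTop (𝓝 (L p)))
      (measurableSet_tendsto _ fun N => (D_hh_lh hF hd p N).measurable.div_const _)
      (fun c hc z hz => by simp only [(D_hh_lh hF hd p _).inv0 c hc z hz]) (he.king p)
  have hV := fun k : ℕ => C_visits hF hm.inv (A := ⋂ J, CJ F s J (k + 1))
    (MeasurableSet.iInter fun J => (C_cc_CJ hF hd s J _).1.measurableSet)
    fun c hc z hz => mem_iInter.2 fun J => (C_cc_CJ hF hd s J _).2 c hc z (mem_iInter.1 hz J)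
  filter_upwards [h.eq.ne, ae_all_iff.2 hK, ae_all_iff.2 hV, C_est hE] with z hz h1 h2 ⟨k, hk⟩
  obtain ⟨η, hη, h3⟩ := h2 k hk
  have hi : ∀ i, F^[i] z ≠ 0 := fun i => (hF.iterate i).ne hz
  obtain ⟨θ, t0, t1, V, hV1, hV2, hV3⟩ := C_hyp (s := s) (A := fun i j => Bm F^[j] (F^[i] z))
    (fun i a b v => by
      rw [add_comm b a, D_Bm_add hF a b (hi i), add_comm i a, iterate_add_apply]
      rfl)
    (T := {i | F^[i] z ∈ ⋂ J, CJ F s J (k + 1)}) hk (M := k + 1) (by positivity) hη h3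
    (fun i h4 => by
      simp only [C_Bm_id (hi i)]
      exact C_CJ_lim hF (hi i) (mem_iInter.1 h4))
    (fun i v => by
      simp only [C_Bm_id (hi i)]
      exact norm_prj_un_le _ _)
    fun i _ => C_grow h.hd h.hs (fun p => h1 p i) he.gap2 he.floor
  have h0 : ((‖z‖⁻¹ : ℝ) : ℂ) ≠ 0 := ofReal_ne_zero.2 (inv_ne_zero (norm_ne_zero_iff.2 hz))
  refine ⟨θ, t0, t1, V, by_contra fun hc => ?_, hV1, fun v hv => ?_, fun v hv => ?_⟩
  · obtain ⟨m, hm⟩ := (hV3 z hc).exists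
    rw [iterate_zero_apply, C_Bm_self (hF.iterate m) hz, norm_zero] at hm
    exact absurd hm (not_le.2 (by positivity))
  · simp only [C_fs (hF.iterate _) hz]
    exact hV2 _ (V.smul_mem _ hv)
  · simp only [C_fs (hF.iterate _) hz]
    exact hV3 _ fun hc => hv ((V.smul_mem_iff h0).1 hc)

end Pool.Agent.Lib.MP_a47f92_an
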