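import Pool.Agent.Lib.MP_a47f92_an.G.CFin

set_option autoImplicit false
set_option linter.unusedSectionVars false

/-! Existence of the exponents. -/

namespace Pool.Agent.Lib.MP_a47f92_an

open MeasureTheory Filter Topology Set Complex Metric Function

variable {n d s : ℕ} {F : E n → E n} {ν : Measure (E n)}

theorem C_hh_zero (d : ℕ) (F : E n → E n) (p N : ℕ) :
    hh d F p N 0 = rg d N (wn p (0 : E n →L[ℂ] E n)) := by
  rw [hh, Bm, norm_zero, zero_div, ofReal_zero]
  exact congrArg (fun B => rg d N (wn p B)) (ContinuousLinearMap.ext fun v => zero_smul ℂ _)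

theorem C_hh_add (hF : IsLift d F) (hd : 1 ≤ d) (p a b : ℕ) (z : E n) :
    hh d F p (a + b) z ≤ hh d F p a z + hh d F p b (F^[a] z) := by
  by_cases hz : z = 0
  · rw [hz, iterate_fixed (hF.zero hd), C_hh_zero, C_hh_zero, C_hh_zero]
    refine D_rg_mul hd a b (wn_nonneg _ _) ?_
    simpa only [ContinuousLinearMap.zero_comp] using
      wn_comp_le (p := p) (0 : E n →L[ℂ] E n) (0 : E n →L[ℂ] E n)
  · exact D_hh_add hF hd p a b hz

theorem C_hh_abs (hF : IsLift d F) (hd : 1 ≤ d) (p : ℕ) :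
    ∃ K : ℝ, 0 ≤ K ∧ ∀ N z, |hh d F p N z| ≤ K * (N + 1) := by
  obtain ⟨K, hK, h⟩ := D_hh_abs hF hd p
  have h0 := wn_nonneg p (0 : E n →L[ℂ] E n)
  have l1 : 0 ≤ Real.log d := Real.log_nonneg (by exact_mod_cast hd)
  have l2 : 0 ≤ Real.log (wn p (0 : E n →L[ℂ] E n) + 1) := Real.log_nonneg (by linarith)
  refine ⟨K + Real.log d + Real.log (wn p (0 : E n →L[ℂ] E n) + 1), by positivity, fun N z => ?_⟩
  have hN : (0 : ℝ) ≤ N := N.cast_nonneg
  by_cases hz : z = 0
  · rw [hz, C_hh_zero, abs_le]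
    have h1 := D_rg_ge hd N (wn p (0 : E n →L[ℂ] E n))
    have h2 := D_rg_le hd N h0 le_rfl
    constructor <;> nlinarith [mul_nonneg hK hN, mul_nonneg l1 hN, mul_nonneg l2 hN]
  · exact (h N z hz).trans (mul_le_mul_of_nonneg_right (by linarith) (by linarith))

theorem C_king (hF : IsLift d F) (hd : 1 ≤ d) [IsProbabilityMeasure ν]
    (hi : ∀ a, LH 0 a → ∫ z, a (F z) ∂ν = ∫ z, a z ∂ν)
    (hx : ∀ a, LH 0 a → Tendsto (fun N : ℕ => (N : ℝ)⁻¹ * ∑ i ∈ Finset.range N,
      ∫ z, a z * a (F^[i] z) ∂ν) atTop (𝓝 ((∫ z, a z ∂ν) ^ 2))) (p : ℕ) : ∃ L : ℝ,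
    (∀ᵐ z ∂ν, Tendsto (fun N : ℕ => hh d F p N z / N) atTop (𝓝 L)) ∧
    Tendsto (fun N : ℕ => (∫ z, hh d F p N z ∂ν) / N) atTop (𝓝 L) ∧
    ∀ N : ℕ, 1 ≤ N → L * N ≤ ∫ z, hh d F p N z ∂ν := by
  have := Measure.isProbabilityMeasure_map (μ := ν) measurable_rep.aemeasurable
  obtain ⟨K, hK, hb⟩ := C_hh_abs hF hd p
  have hl := D_hh_lh hF hd p
  have hm := fun N => (hl N).measurable
  have hs : Subadditive fun N => ∫ z, hh d F p N z ∂ν := fun a b => by
    beta_reduce
    rw [← C_inv_iter hF hi a _ (hl b), ← integral_add (Erg_int (hm a) (hb a))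
      (Erg_int ((hl b).comp0 (hF.iterate a)).measurable fun z => hb b _)]
    exact integral_mono (Erg_int (hm _) (hb _)) ((Erg_int (hm a) (hb a)).add
      (Erg_int ((hl b).comp0 (hF.iterate a)).measurable fun z => hb b _)) (C_hh_add hF hd p a b)
  have hbd : BddBelow (range fun N : ℕ => (∫ z, hh d F p N z ∂ν) / N) := by
    refine ⟨-(2 * K), ?_⟩
    rintro _ ⟨N, rfl⟩
    rcases N.eq_zero_or_pos with rfl | hN
    · simpa using hK
    · have h1 : (1 : ℝ) ≤ N := by exact_mod_cast hN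
      have h2 := norm_integral_le_of_norm_le_const (μ := ν) (f := hh d F p N) (ae_of_all _ (hb N))
      rw [probReal_univ, mul_one, Real.norm_eq_abs, abs_le] at h2
      rw [le_div_iff₀ (by linarith)]
      nlinarith [h2.1]
  have hlo : ∀ N : ℕ, 1 ≤ N → hs.lim * N ≤ ∫ z, hh d F p N z ∂ν := fun N hN =>
    (le_div_iff₀ (by exact_mod_cast hN)).1 (hs.lim_le_div hbd (by omega))
  refine ⟨hs.lim, ?_, hs.tendsto_lim hbd, hlo⟩
  have hf := measurePreserving_rF hF (ν := ν) fun a ha _ => hi a ha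
  have key := kingman hf hm hb (L := hs.lim)
    (fun a b x => by rw [(hl b).inv0.rF hF]; exact C_hh_add hF hd p a b x)
    (fun N => erg_of_corr hf (hm N) (hb N) (by
      simp only [(hl N).inv0.rF hF, integral_map_rep (hm N) (hl N).inv0]
      refine (hx _ (hl N)).congr fun M => congrArg _ (Finset.sum_congr rfl fun i _ => ?_)
      have h1 := (hl N).mul ((hl N).comp0 (hF.iterate i))
      exact (integral_map_rep h1.measurable h1.inv0).symm))
    (fun N hN => by rw [integral_map_rep (hm N) (hl N).inv0]; exact hlo N hN)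
    fun ε hε => by
      obtain ⟨B, h1, h2⟩ := ((eventually_ge_atTop 1).and ((hs.tendsto_lim hbd).eventually_lt_const
        (lt_add_of_pos_right _ hε))).exists
      refine ⟨B, h1, ?_⟩
      rw [integral_map_rep (hm B) (hl B).inv0]
      exact ((div_lt_iff₀ (by exact_mod_cast h1)).1 h2).le
  filter_upwards [ae_of_ae_map measurable_rep.aemeasurable key] with z hz
  simp only [(hl _).inv0.rep] at hz
  refine Metric.tendsto_nhds.2 fun ε hε => ?_
  filter_upwards [hz _ (half_pos hε), eventually_gt_atTop 0] with N ⟨h1, h2⟩ hN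
  have h3 : (0 : ℝ) < N := by exact_mod_cast hN
  rw [← le_div_iff₀ h3] at h1
  rw [← div_le_iff₀ h3] at h2
  rw [Real.dist_eq, abs_lt]
  constructor <;> linarith

theorem C_sum_le {t : ℕ → ℝ} {c C : ℝ} (hC : 0 ≤ C) (N N₀ : ℕ) (h1 : ∀ i, t i ≤ c + C)
    (h2 : ∀ i, N₀ ≤ i → i + N₀ ≤ N → t i ≤ c) :
    ∑ i ∈ Finset.range N, t i ≤ N * c + 2 * N₀ * C := by
  classical
  have h3 : ((Finset.range N).filter fun i => ¬(N₀ ≤ i ∧ i + N₀ ≤ N)).card ≤ 2 * N₀ := by
    refine (Finset.card_le_card (t := Finset.range N₀ ∪ Finset.Ico (N - N₀) N) fun i hi => ?_).trans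
      ((Finset.card_union_le _ _).trans ?_)
    · simp only [Finset.mem_filter, Finset.mem_range, Finset.mem_union, Finset.mem_Ico] at hi ⊢
      omega
    · rw [Finset.card_range, Nat.card_Ico]
      omega
  calc ∑ i ∈ Finset.range N, t i
      ≤ ∑ i ∈ Finset.range N, (c + if ¬(N₀ ≤ i ∧ i + N₀ ≤ N) then C else 0) :=
        Finset.sum_le_sum fun i _ => by
          split_ifs with h
          · rw [add_zero]
            exact h2 i h.1 h.2
          · exact h1 i
    _ ≤ _ := by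
      rw [Finset.sum_add_distrib, Finset.sum_const, Finset.card_range, nsmul_eq_mul,
        ← Finset.sum_filter, Finset.sum_const, nsmul_eq_mul]
      gcongr
      exact_mod_cast h3

end Pool.Agent.Lib.MP_a47f92_an
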