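import Pool.Agent.Lib.MP_a47f92_an.G.Fam

set_option autoImplicit false
set_option linter.unusedSectionVars false

namespace Pool.Agent.Lib.MP_a47f92_an

open MeasureTheory Filter Topology Set Complex Metric Function
open scoped ContDiff ComplexConjugate ComplexOrder Matrix ENNReal NNReal

/-! The families of test forms attached to linear perturbations. -/

variable {n p : ℕ} {a : E n → ℝ} {D : ℝ}

/-- Injective linear maps. -/
def Inj (n : ℕ) : Set (E n →L[ℂ] E n) := {T | ∀ z, T z = 0 → z = 0}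

/-- Pairs of an injective linear map and a linear map. -/
def Inj2 (n : ℕ) : Set ((E n →L[ℂ] E n) × (E n →L[ℂ] E n)) := {y | y.1 ∈ Inj n}

theorem Tm_inj {t : ℂ} {A : E (n * n)} (h : ‖t‖ * ‖A‖ < 1) : Tm t A ∈ Inj n :=
  fun z hz => ne_zero_of_near ((norm_Tm_sub t A).trans_lt h) z hz

theorem Tst.tf_lin {g : Fr n p → ℂ} (h : Tst g) : TF (Inj n) fun T x => g (lin T x) := by
  refine ⟨h.cont.comp continuous_lin.continuousOn fun y hy h0 => hy.2 (hy.1 _ h0), fun T hT => ?_⟩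
  have h1 := h.alg.comp_fw (isLift_clm hT) le_rfl
  rwa [fw_clm] at h1

theorem Tst.tf_su {g : Fr n (p + 1) → ℂ} (h : Tst g) :
    TF (Inj2 n) fun y (x : Fr n p) => g (su y.1 y.2 x) :=
  ⟨h.cont.comp (continuous_su.comp (continuous_fst.fst.prodMk
    (continuous_fst.snd.prodMk continuous_snd))).continuousOn fun _ hy h0 => hy.2 (hy.1 _ h0),
    fun y hy => h.alg.comp_su hy y.2⟩

/-- Joint smoothness of the first variation (`contDiffAt_gd_comp`). -/
theorem contDiffAt_dq {u : E n → ℝ} (hu : LH D u)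
    {y : ((E n →L[ℂ] E n) × (E n →L[ℂ] E n)) × E n} (hy : y.1.1 y.2 ≠ 0) :
    ContDiffAt ℝ ∞ (fun y : ((E n →L[ℂ] E n) × (E n →L[ℂ] E n)) × E n =>
      dq y.1.1 y.1.2 u y.2) y := by
  have h1 : ContDiffAt ℂ ∞ (fun y : ((E n →L[ℂ] E n) × (E n →L[ℂ] E n)) × E n => y.1.1 y.2) y :=
    contDiffAt_fst.fst.clm_apply contDiffAt_snd
  have h2 : ContDiffAt ℂ ∞ (fun y : ((E n →L[ℂ] E n) × (E n →L[ℂ] E n)) × E n => y.1.2 y.2) y :=
    contDiffAt_fst.snd.clm_apply contDiffAt_snd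
  exact contDiffAt_gd_comp (f := rc u) (contDiffAt_rc (hu.contDiffAt hy))
    (h1.restrict_scalars ℝ) (h2.restrict_scalars ℝ)

theorem FamT_fd {U : Type} [NormedAddCommGroup U] [NormedSpace ℝ U] {G : U → E n → ℂ} {w : U × E n}
    (h : ContDiffAt ℝ ∞ (fun w : U × E n => G w.1 w.2) w) :
    ContDiffAt ℝ ∞ (fun w : U × E n => fderiv ℝ (G w.1) w.2) w :=
  ContDiffAt.fderiv (f := fun (w : U × E n) z => G w.1 z) (g := Prod.snd)
    (ContDiffAt.comp (g := fun w : U × E n => G w.1 w.2)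
      (f := fun t : (U × E n) × E n => (t.1.1, t.2)) (w, w.2) h
      (contDiffAt_fst.fst.prodMk contDiffAt_snd)) contDiffAt_snd le_rfl

theorem FamT_gd {U : Type} [NormedAddCommGroup U] [NormedSpace ℝ U] {G : U → E n → ℂ} {w : U × E n}
    (h : ContDiffAt ℝ ∞ (fun w : U × E n => G w.1 w.2) w) {v : U → E n}
    (hv : ContDiffAt ℝ ∞ v w.1) :
    ContDiffAt ℝ ∞ (fun w : U × E n => gd (v w.1) (G w.1) w.2) w := by
  have h1 := FamT_fd h
  have h2 : ContDiffAt ℝ ∞ (fun w : U × E n => v w.1) w := hv.comp w contDiffAt_fst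
  exact ((h1.clm_apply h2).sub (contDiffAt_const.mul (h1.clm_apply (GW2_I h2)))).div_const 2

theorem FamT_gb {U : Type} [NormedAddCommGroup U] [NormedSpace ℝ U] {G : U → E n → ℂ} {w : U × E n}
    (h : ContDiffAt ℝ ∞ (fun w : U × E n => G w.1 w.2) w) {v : U → E n}
    (hv : ContDiffAt ℝ ∞ v w.1) :
    ContDiffAt ℝ ∞ (fun w : U × E n => gb (v w.1) (G w.1) w.2) w := by
  have h1 := FamT_fd h
  have h2 : ContDiffAt ℝ ∞ (fun w : U × E n => v w.1) w := hv.comp w contDiffAt_fst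
  exact ((h1.clm_apply h2).add (contDiffAt_const.mul (h1.clm_apply (GW2_I h2)))).div_const 2

/-- Mixed second derivatives in the second variable of a jointly smooth function. -/
theorem continuousAt_gl_param {P : Type} [NormedAddCommGroup P] [NormedSpace ℝ P]
    {f : P → E n → ℂ} {y : P × Fr n p}
    (hf : ContDiffAt ℝ ∞ (fun w : P × E n => f w.1 w.2) (y.1, y.2.1)) (i j : Fin p) :
    ContinuousAt (fun y : P × Fr n p => gl (f y.1) y.2.1 y.2.2 i j) y := by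
  have hv : ∀ k : Fin p, ContDiffAt ℝ ∞ (fun u : P × Fr n p => u.2.2 k) y := fun k =>
    (Tst_snd y.2 k).comp y contDiffAt_snd
  have h0 : ContDiffAt ℝ ∞ (fun w : (P × Fr n p) × E n => f w.1.1 w.2) (y, y.2.1) :=
    ContDiffAt.comp (g := fun w : P × E n => f w.1 w.2)
      (f := fun t : (P × Fr n p) × E n => (t.1.1, t.2)) (y, y.2.1) hf
      (contDiffAt_fst.fst.prodMk contDiffAt_snd)
  have h1 := FamT_gb (G := fun u : P × Fr n p => f u.1) h0 (hv j)
  have h2 := FamT_gd (G := fun u : P × Fr n p => gb (u.2.2 j) (f u.1)) h1 (hv i)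
  exact ContinuousAt.comp (f := fun u : P × Fr n p => (u, u.2.1)) h2.continuousAt
    (continuousAt_id.prodMk continuousAt_snd.fst)

theorem FamT_alg {g g' : Fr n p → ℂ} (h : Alg g) (e : ∀ x, x.1 ≠ 0 → g' x = g x) : Alg g' := by
  refine ⟨fun c hc x hx => ?_, fun P c x hx => ?_⟩
  · rw [e x hx, e _ (smul_ne_zero hc hx), h.hs c hc x hx]
  · rw [e x hx, e (chg P c x) hx, h.hc P c x hx]

theorem FamT_mul {g : (E n →L[ℂ] E n) × (E n →L[ℂ] E n) → Fr n p → ℂ} (h : TF (Inj2 n) g)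
    {c : (E n →L[ℂ] E n) × (E n →L[ℂ] E n) → E n → ℂ} (h1 : ∀ y ∈ Inj2 n, IC (c y))
    (h2 : ∀ w : ((E n →L[ℂ] E n) × (E n →L[ℂ] E n)) × E n, w.1.1 w.2 ≠ 0 →
      ContinuousAt (fun w : ((E n →L[ℂ] E n) × (E n →L[ℂ] E n)) × E n => c w.1 w.2) w) :
    TF (Inj2 n) fun y x => c y x.1 * g y x := by
  refine ⟨fun w hw => ContinuousWithinAt.mul ?_ (h.cont w hw),
    fun y hy => ((h.tst hy).mul_left (h1 y hy)).alg⟩
  exact (ContinuousAt.comp
    (f := fun w : ((E n →L[ℂ] E n) × (E n →L[ℂ] E n)) × Fr n p => (w.1, w.2.1))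
    (h2 (w.1, w.2.1) fun h0 => hw.2 (hw.1 _ h0))
    (continuousAt_fst.prodMk continuousAt_snd.fst)).continuousWithinAt

theorem FamT_mul_dq {g : (E n →L[ℂ] E n) × (E n →L[ℂ] E n) → Fr n p → ℂ} (h : TF (Inj2 n) g)
    {u : E n → ℝ} (hu : LH D u) : TF (Inj2 n) fun y x => dq y.1 y.2 u x.1 * g y x :=
  FamT_mul h (c := fun y => dq y.1 y.2 u) (fun y hy => ic_dq hy y.2 hu)
    fun _ hw => (contDiffAt_dq hu hw).continuousAt

theorem FamT_gl {q : Fin p → E n → ℝ} (hq : Pots q) (l : Fin p)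
    {f : (E n →L[ℂ] E n) × (E n →L[ℂ] E n) → E n → ℂ} (h1 : ∀ y ∈ Inj2 n, IC (f y))
    (h2 : ∀ w : ((E n →L[ℂ] E n) × (E n →L[ℂ] E n)) × E n, w.1.1 w.2 ≠ 0 →
      ContDiffAt ℝ ∞ (fun w : ((E n →L[ℂ] E n) × (E n →L[ℂ] E n)) × E n => f w.1 w.2) w) :
    TF (Inj2 n) fun y x =>
      mdC (update (fun l' => lv (q l') (lin y.1 x)) l (gl (f y) x.1 x.2)) := by
  refine ⟨fun w hw => continuousWithinAt_mdC fun l' i j => ?_, fun y hy => ?_⟩
  · have h0 : w.1.1 w.2.1 ≠ 0 := fun h0 => hw.2 (hw.1 _ h0)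
    rcases eq_or_ne l' l with rfl | h
    · simp only [update_self]
      exact (continuousAt_gl_param (h2 (w.1, w.2.1) h0) i j).continuousWithinAt
    · simp only [update_of_ne h]
      exact (ContinuousAt.comp
        (f := fun w : ((E n →L[ℂ] E n) × (E n →L[ℂ] E n)) × Fr n p => lin w.1.1 w.2)
        ((Tst_lv hq l').2.2 (lin w.1.1 w.2) h0 i j)
        (continuous_lin.comp
          (continuous_fst.fst.prodMk continuous_snd)).continuousAt).continuousWithinAt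
  · refine FamT_alg (tst_gl (hq.comp (isLift_clm hy)) l (h1 y hy)).alg fun x hx => ?_
    rw [Tst_lv_fw hq (isLift_clm hy) hx, fw_clm]

theorem tf_dq {u : E n → ℝ} (hu : LH D u) {q : Fin p → E n → ℝ} (hq : Pots q) :
    TF (Inj2 n) fun y x => dq y.1 y.2 u x.1 * dc q (lin y.1 x) :=
  FamT_mul_dq ((tst_dc hq).tf_lin.comp continuousOn_fst fun _ hy => hy) hu

theorem tf_gl_dq {u : E n → ℝ} (hu : LH D u) {q : Fin p → E n → ℝ} (hq : Pots q) (l : Fin p) :
    TF (Inj2 n) fun y x =>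
      mdC (update (fun l' => lv (q l') (lin y.1 x)) l (gl (dq y.1 y.2 u) x.1 x.2)) :=
  FamT_gl hq l (f := fun y => dq y.1 y.2 u) (fun y hy => ic_dq hy y.2 hu)
    fun _ hw => contDiffAt_dq hu hw

theorem tf_gl_conj_dq {u : E n → ℝ} (hu : LH D u) {q : Fin p → E n → ℝ} (hq : Pots q) (l : Fin p) :
    TF (Inj2 n) fun y x => mdC (update (fun l' => lv (q l') (lin y.1 x)) l
      (gl (fun z => conj (dq y.1 y.2 u z)) x.1 x.2)) :=
  FamT_gl hq l (f := fun y z => conj (dq y.1 y.2 u z)) (fun y hy => (ic_dq hy y.2 hu).conj)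
    fun w hw => conjCLE.contDiff.contDiffAt.comp w (contDiffAt_dq hu hw)

theorem TF.mul_dq {g : (E n →L[ℂ] E n) × (E n →L[ℂ] E n) → Fr n p → ℂ} (h : TF (Inj2 n) g)
    {u : E n → ℝ} (hu : LH D u) : TF (Inj2 n) fun y x => dq y.1 y.2 u x.1 * g y x :=
  FamT_mul_dq h hu

theorem tf_gv (ha : LH 0 a) {q : Fin p → E n → ℝ} (hq : Pots q) :
    TF (Inj2 n) fun y x => gv a q y.1 y.2 x := by
  refine (tf_dq ha hq).add (FamT_mul (c := fun y z => (a (y.1 z) : ℂ))
    (tf_sum Finset.univ fun j _ => (hq j).elim fun _ h => tf_gl_dq h hq j)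
    (fun y hy => ha.ic.comp (isLift_clm hy)) fun w hw => ?_)
  exact continuous_ofReal.continuousAt.comp (ContinuousAt.comp
    (f := fun w : ((E n →L[ℂ] E n) × (E n →L[ℂ] E n)) × E n => w.1.1 w.2)
    (ha.contDiffAt hw).continuousAt (continuous_fst.fst.clm_apply continuous_snd).continuousAt)

theorem dq_smul (T B : E n →L[ℂ] E n) (c : ℂ) (u : E n → ℝ) (z : E n) :
    dq T (c • B) u z = c * dq T B u z :=
  gd_vsmul c (rc u) (B z) (T z)

theorem dq_sum {ι : Type} (A : Finset ι) (T : E n →L[ℂ] E n) (B : ι → E n →L[ℂ] E n) (u : E n → ℝ)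
    (z : E n) : dq T (∑ i ∈ A, B i) u z = ∑ i ∈ A, dq T (B i) u z := by
  rw [dq, sum_apply]
  exact gd_vsum A (rc u) (fun i => B i z) (T z)

variable {S : Measure (Fr n p)} {q : Fin (p + 1) → E n → ℝ} {T : E n →L[ℂ] E n}

theorem Fv_smul (S : Measure (Fr n p)) (q : Fin (p + 1) → E n → ℝ) (T B : E n →L[ℂ] E n) (c : ℂ) :
    Fv S q T (c • B) = c * Fv S q T B := by
  simp only [Fv, dq_smul, mul_assoc, integral_const_mul, Finset.mul_sum]

theorem Fv_sum (hS : IsCur S) (hq : Pots q) (hT : T ∈ Inj n) {ι : Type} (A : Finset ι)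
    (B : ι → E n →L[ℂ] E n) : Fv S q T (∑ i ∈ A, B i) = ∑ i ∈ A, Fv S q T (B i) := by
  simp only [Fv, dq_sum, Finset.sum_mul]
  rw [Finset.sum_comm]
  refine Finset.sum_congr rfl fun j _ => integral_finsetSum A fun i _ => ?_
  obtain ⟨D, h⟩ := hq j
  exact hS.integrable ((tf_dq h fun l => hq (j.succAbove l)).tst (a := (T, B i)) hT)

theorem Fv_mt (hS : IsCur S) (hq : Pots q) (hT : T ∈ Inj n) (A : E (n * n)) :
    Fv S q T (mt n n A) = ∑ e, A e * Fv S q T (mt n n (ev e)) := by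
  have h : A = ∑ e, A e • ev e := by
    ext i
    simp [Mt_ev_apply]
  conv_lhs => rw [h, map_sum, Fv_sum hS hq hT]
  simp only [map_smul, Fv_smul]

/-- Use `Alg.hc` with a diagonal matrix. -/
theorem Sv_smul (hq : Pots q) (T B : E n →L[ℂ] E n) (c : ℂ) :
    Sv S q T (c • B) = ‖c‖ ^ 2 * Sv S q T B := by
  rw [Sv, Sv, ← integral_const_mul]
  refine integral_congr_ae (Eventually.of_forall fun x => ?_)
  change dn q (su T (c • B) x) = ‖c‖ ^ 2 * dn q (su T B x)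
  by_cases h0 : T x.1 = 0
  · rw [dn, dn, if_pos (c := (su T (c • B) x).1 = 0) h0, if_pos (c := (su T B x).1 = 0) h0,
      mul_zero]
  have e : su T (c • B) x =
      chg (Matrix.diagonal (Fin.cons c fun _ => 1 : Fin (p + 1) → ℂ)) 0 (su T B x) := by
    refine Prod.ext rfl (funext fun j => ?_)
    refine Fin.cases ?_ (fun j => ?_) j <;> simp [su, chg, Matrix.diagonal_apply]
  have h1 := (tst_dc hq).alg.hc (Matrix.diagonal (Fin.cons c fun _ => 1 : Fin (p + 1) → ℂ)) 0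
    (su T B x) h0
  rw [dn, dn, if_neg (c := (su T (c • B) x).1 = 0) h0, if_neg (c := (su T B x).1 = 0) h0, e, h1,
    re_ofReal_mul]
  simp [Fin.prod_univ_succ]

theorem Sv_eqC (hS : IsCur S) (hq : Pots q) (hT : T ∈ Inj n) (B : E n →L[ℂ] E n) :
    (Sv S q T B : ℂ) = ∫ x, dc q (su T B x) ∂S := by
  rw [Sv, ← integral_complex_ofReal]
  exact integral_congr_ae (hS.ne.mono fun x hx =>
    (dc_eq_dn hq (x := su T B x) fun h0 => hx (hT _ h0)).symm)

theorem lp_su (hS : IsCur S) (hq : PPs q) (hT : T ∈ Inj n) (B : E n →L[ℂ] E n) :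
    0 ≤ Sv S q T B ∧ lp S (fun x => dn q (su T B x)) = ENNReal.ofReal (Sv S q T B) := by
  refine ⟨integral_nonneg fun x => dn_nonneg hq _, (ofReal_integral_eq_lintegral_ofReal ?_
    (Eventually.of_forall fun x => dn_nonneg hq _)).symm⟩
  refine (hS.integrable ((tst_dc hq.pots).tf_su.tst (a := (T, B)) hT)).re.congr
    (hS.ne.mono fun x hx => ?_)
  exact (if_neg (fun h0 => hx (hT _ h0))).symm

theorem continuousOn_Fv (hS : IsCur S) (hq : Pots q) {K : Set ((E n →L[ℂ] E n) × (E n →L[ℂ] E n))}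
    (hK : IsCompact K) (hK' : K ⊆ Inj2 n) : ContinuousOn (fun y => Fv S q y.1 y.2) K :=
  continuousOn_finsetSum _ fun j _ => (hq j).elim fun _ h =>
    ((tf_dq h fun l => hq (j.succAbove l)).mono hK').continuousOn hK hS

theorem continuousOn_Sv (hS : IsCur S) (hq : Pots q) {K : Set ((E n →L[ℂ] E n) × (E n →L[ℂ] E n))}
    (hK : IsCompact K) (hK' : K ⊆ Inj2 n) : ContinuousOn (fun y => Sv S q y.1 y.2) K := by
  refine (continuous_re.comp_continuousOn
    (((tst_dc hq).tf_su.mono hK').continuousOn hK hS)).congr fun y hy => ?_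
  change Sv S q y.1 y.2 = (∫ x, dc q (su y.1 y.2 x) ∂S).re
  rw [← Sv_eqC hS hq (hK' hy), ofReal_re]

end Pool.Agent.Lib.MP_a47f92_an
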