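import Pool.Agent.Lib.MP_a47f92_an.G.Pol
import Pool.Agent.Lib.MP_a47f92_an.G.Kern
import Pool.Agent.Lib.MP_a47f92_an.G.FamT

set_option autoImplicit false
set_option linter.unusedSectionVars false

namespace Pool.Agent.Lib.MP_a47f92_an

open MeasureTheory Filter Topology Set Complex Metric Function
open scoped ContDiff ComplexConjugate ComplexOrder Matrix ENNReal NNReal

/-! The kernel of the smoothing operator. -/

variable {n p : ℕ} (κ : KM n) (κ' : Kn (E n) volume) {r : ℝ}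

/-- The kernel. -/
noncomputable def ck (r : ℝ) (I J : Fin p → Fin n) (x : Fr n p) (w : E n) : ℂ :=
  ((((r ^ n) ^ 2)⁻¹ : ℝ) : ℂ) * ∫ A : E (n * n),
    ((κ.k (sw x.1 A (r⁻¹ • (w - x.1))) * κ'.k (mt n n A x.1) : ℝ) : ℂ) *
      (plk (fun j => Tm r A (x.2 j)) I * conj (plk (fun j => Tm r A (x.2 j)) J))

/-- The integrand of the kernel. -/
noncomputable def Cont1_g (r : ℝ) (I J : Fin p → Fin n) (x : Fr n p) (u : E n) (A : E (n * n)) :
    ℂ :=
  ((κ.k (sw x.1 A u) * κ'.k (mt n n A x.1) : ℝ) : ℂ) *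
    (plk (fun j => Tm r A (x.2 j)) I * conj (plk (fun j => Tm r A (x.2 j)) J))

theorem Cont1_cont (r : ℝ) (I J : Fin p → Fin n) :
    Continuous fun y : (Fr n p × E n) × E (n * n) => Cont1_g κ κ' r I J y.1.1 y.1.2 y.2 := by
  have h1 : Continuous fun y : (Fr n p × E n) × E (n * n) => sw y.1.1.1 y.2 y.1.2 :=
    continuous_sw.comp (f := fun y : (Fr n p × E n) × E (n * n) => (y.1.1.1, y.2, y.1.2))
      (continuous_fst.fst.fst.prodMk (continuous_snd.prodMk continuous_fst.snd))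
  have h2 : Continuous fun y : (Fr n p × E n) × E (n * n) => mt n n y.2 y.1.1.1 :=
    ((mt n n).continuous.comp continuous_snd).clm_apply continuous_fst.fst.fst
  have h3 : Continuous fun y : (Fr n p × E n) × E (n * n) => Tm r y.2 :=
    continuous_Tm.comp (f := fun y : (Fr n p × E n) × E (n * n) => ((r : ℂ), y.2))
      (continuous_const.prodMk continuous_snd)
  have h4 : Continuous fun y : (Fr n p × E n) × E (n * n) =>
      plk fun j => Tm r y.2 (y.1.1.2 j) :=
    contDiff_plk.continuous.comp (continuous_pi fun j =>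
      h3.clm_apply ((continuous_apply j).comp continuous_fst.fst.snd))
  have h5 : ∀ K : Fin p → Fin n, Continuous fun y : (Fr n p × E n) × E (n * n) =>
      plk (fun j => Tm r y.2 (y.1.1.2 j)) K := fun K =>
    (EuclideanSpace.proj K : EuclideanSpace ℂ (Fin p → Fin n) →L[ℂ] ℂ).continuous.comp h4
  exact (continuous_ofReal.comp ((κ.sk.continuous.comp h1).mul (κ'.sk.continuous.comp h2))).mul
    ((h5 I).mul (continuous_conj.comp (h5 J)))

theorem Cont1_zero (r : ℝ) (I J : Fin p → Fin n) {x : Fr n p} (hx : ‖x.1‖ = 1) (u : E n)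
    {A : E (n * n)} (hA : A ∉ closedBall (0 : E (n * n)) 2) : Cont1_g κ κ' r I J x u A = 0 := by
  rw [mem_closedBall_zero_iff, not_le] at hA
  have h := norm_sw hx A u
  rcases le_or_gt 1 ‖sw x.1 A u‖ with h1 | h1
  · rw [Cont1_g, (κ.zero _ h1).1, zero_mul, ofReal_zero, zero_mul]
  rcases le_or_gt 1 ‖mt n n A x.1‖ with h2 | h2
  · rw [Cont1_g, (κ'.zero _ h2).1, mul_zero, ofReal_zero, zero_mul]
  exfalso
  nlinarith [norm_nonneg (sw x.1 A u), norm_nonneg (mt n n A x.1), sq_nonneg ‖u‖]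

theorem Cont1_sw {z : E n} (hz : ‖z‖ = 1) (A : E (n * n)) (u : E n) :
    mt n n (sw z A u) z = u := by
  rw [mt_sw, Mt_inner hz, one_smul, add_sub_cancel]

theorem Cont1_le {z : E n} (hz : ‖z‖ = 1) (A : E (n * n)) (u : E n) : ‖u‖ ≤ ‖sw z A u‖ := by
  have h := (mt n n (sw z A u)).le_opNorm z
  rw [Cont1_sw hz, hz, mul_one] at h
  exact h.trans (norm_mt_le _)

theorem Cont1_int (r : ℝ) (I J : Fin p → Fin n) {x : Fr n p} (hx : ‖x.1‖ = 1) (u : E n) :
    Integrable (Cont1_g κ κ' r I J x u) :=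
  ((Cont1_cont κ κ' r I J).comp (f := fun A : E (n * n) => ((x, u), A))
    (continuous_const.prodMk continuous_id)).integrable_of_hasCompactSupport
    (HasCompactSupport.intro (isCompact_closedBall 0 2) fun _ hA => Cont1_zero κ κ' r I J hx u hA)

theorem Cont1_dc {q : Fin p → E n → ℝ} (hq : Pots q) {y : Fr n p} (hy : y.1 ≠ 0) :
    dc q y = ∑ I, ∑ J, plk y.2 I * conj (plk y.2 J) * ∏ l, hess (q l) y.1 (I l) (J l) := by
  have h : ∀ l, lv (q l) y = rs (hess (q l) y.1) y.2 := fun l => by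
    obtain ⟨D, hD⟩ := hq l
    exact gl_eq_rs ((hD.1.contDiffAt (isOpen_compl_singleton.mem_nhds hy)).of_le GW2_two) _
  rw [dc, ← mdC_rs]
  simp only [h]

theorem Cont1_intF (hr : 0 < r) (hr' : r ≤ 1 / 2) {x : Fr n p} (hx : ‖x.1‖ = 1)
    {a : E n → ℝ} (ha : LH 0 a) {q : Fin p → E n → ℝ} (hq : Pots q) :
    Integrable fun A : E (n * n) =>
      (κ.k A : ℂ) * ((a (Tm r A x.1) : ℂ) * dc q (lin (Tm r A) x)) := by
  have h3 : Continuous fun A : E (n * n) => Tm r A :=
    continuous_Tm.comp (f := fun A : E (n * n) => ((r : ℂ), A))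
      (continuous_const.prodMk continuous_id)
  have h1 : Continuous fun A : E (n * n) => Tm r A x.1 := h3.clm_apply continuous_const
  have h4 : Continuous fun A : E (n * n) => plk fun j => Tm r A (x.2 j) :=
    contDiff_plk.continuous.comp (continuous_pi fun j => h3.clm_apply continuous_const)
  have h5 : ∀ K : Fin p → Fin n, Continuous fun A : E (n * n) =>
      plk (fun j => Tm r A (x.2 j)) K := fun K =>
    (EuclideanSpace.proj K : EuclideanSpace ℂ (Fin p → Fin n) →L[ℂ] ℂ).continuous.comp h4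
  refine Kern_int κ.sk κ.tsupport_k (isOpen_compl_singleton (x := (0 : E n)).preimage h1)
    (fun A hA h0 => ?_) ?_
  · have h2 := (norm_Tm (t := r) (by rwa [norm_real, Real.norm_of_nonneg hr.le])
      (mem_closedBall_zero_iff.1 hA) x.1).1
    rw [show Tm r A x.1 = 0 from h0, norm_zero, hx] at h2
    linarith
  · refine (continuous_ofReal.comp_continuousOn
      (ha.1.continuousOn.comp h1.continuousOn fun _ h => h)).mul ?_
    refine ContinuousOn.congr (f := fun A => ∑ I, ∑ J, plk (fun j => Tm r A (x.2 j)) I *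
      conj (plk (fun j => Tm r A (x.2 j)) J) * ∏ l, hess (q l) (Tm r A x.1) (I l) (J l))
      ?_ fun A hA => Cont1_dc hq hA
    refine continuousOn_finsetSum _ fun I _ => continuousOn_finsetSum _ fun J _ =>
      ((h5 I).mul (continuous_conj.comp (h5 J))).continuousOn.mul
        (continuousOn_finsetProd _ fun l _ => ?_)
    obtain ⟨D, hD⟩ := hq l
    exact (contDiffOn_hess isOpen_compl_singleton hD.1 _ _).continuousOn.comp h1.continuousOn
      fun _ h => h

theorem Cont1_pt (hr : 0 < r) (hr' : r ≤ 1 / 2) {x : Fr n p} (hx : ‖x.1‖ = 1)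
    (ho : ∀ j, inner ℂ x.1 (x.2 j) = 0) (a : E n → ℝ) {q : Fin p → E n → ℝ} (hq : Pots q)
    (A : E (n * n)) (u : E n) :
    (κ.k (sw x.1 A u) : ℂ) * ((a (Tm r (sw x.1 A u) x.1) : ℂ) * dc q (lin (Tm r (sw x.1 A u)) x)) *
      (κ'.k (mt n n A x.1) : ℂ) = (a (x.1 + r • u) : ℂ) *
        ∑ I, ∑ J, Cont1_g κ κ' r I J x u A * ∏ l, hess (q l) (x.1 + r • u) (I l) (J l) := by
  rcases le_or_gt 1 ‖sw x.1 A u‖ with h1 | h1
  · simp only [Cont1_g, (κ.zero _ h1).1, zero_mul, ofReal_zero, Finset.sum_const_zero, mul_zero]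
  have h2 : Tm r (sw x.1 A u) x.1 = x.1 + r • u := by
    rw [Tm_apply, Cont1_sw hx, Complex.coe_smul]
  have h3 : ∀ j, Tm r (sw x.1 A u) (x.2 j) = Tm r A (x.2 j) := fun j => by
    rw [Tm_apply, Tm_apply, mt_sw, ho, zero_smul, add_zero]
  have h4 : (lin (Tm r (sw x.1 A u)) x).1 ≠ 0 := fun h0 => by
    have h5 := (norm_Tm (t := r) (by rwa [norm_real, Real.norm_of_nonneg hr.le]) h1.le x.1).1
    rw [show Tm r (sw x.1 A u) x.1 = 0 from h0, norm_zero, hx] at h5
    linarith
  rw [Cont1_dc hq h4]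
  simp only [lin, h2, h3, Cont1_g, Finset.mul_sum, Finset.sum_mul, ofReal_mul]
  exact Finset.sum_congr rfl fun I _ => Finset.sum_congr rfl fun J _ => by ring

/-- The integrand vanishes for `2 ≤ ‖A‖` by `norm_sw`. -/
theorem continuousOn_ck (r : ℝ) (I J : Fin p → Fin n) :
    ContinuousOn (fun y : Fr n p × E n => ck κ κ' r I J y.1 y.2) ({x | ‖x.1‖ = 1} ×ˢ univ) := by
  refine continuousOn_const.mul (continuousOn_integral_of_compact_support
    (f := fun (y : Fr n p × E n) (A : E (n * n)) =>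
      Cont1_g κ κ' r I J y.1 (r⁻¹ • (y.2 - y.1.1)) A) (isCompact_closedBall 0 2) ?_
    fun y A hy hA => Cont1_zero κ κ' r I J hy.1 _ hA)
  exact ((Cont1_cont κ κ' r I J).comp (f := fun y : (Fr n p × E n) × E (n * n) =>
    ((y.1.1, r⁻¹ • (y.1.2 - y.1.1.1)), y.2)) ((continuous_fst.fst.prodMk
      ((continuous_fst.snd.sub continuous_fst.fst.fst).const_smul r⁻¹)).prodMk
        continuous_snd)).continuousOn

/-- `mt_sw`: the matrix `sw z A u` sends the unit vector `z` to `u`. -/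
theorem ck_eq_zero (hr : 0 < r) (I J : Fin p → Fin n) {x : Fr n p} (hx : ‖x.1‖ = 1) {w : E n}
    (hw : r ≤ ‖w - x.1‖) : ck κ κ' r I J x w = 0 := by
  have h1 : 1 ≤ ‖r⁻¹ • (w - x.1)‖ := by
    rw [norm_smul, Real.norm_of_nonneg (inv_nonneg.2 hr.le), ← div_eq_inv_mul, le_div_iff₀ hr,
      one_mul]
    exact hw
  have h2 : ∀ A, κ.k (sw x.1 A (r⁻¹ • (w - x.1))) = 0 := fun A =>
    (κ.zero _ (h1.trans (Cont1_le hx A _))).1
  simp only [ck, h2, zero_mul, ofReal_zero, integral_zero, mul_zero]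

/-- Multiply by `∫ u, κ'.k u = 1`, change variables by `measurePreserving_sw`, use `mdC_rs`,
`gl_eq_rs`, Fubini and the substitution `w = x.1 + r • u`. -/
theorem integral_kmu_eq (hr : 0 < r) (hr' : r ≤ 1 / 2) {x : Fr n p} (hx : ‖x.1‖ = 1)
    (ho : ∀ j, inner ℂ x.1 (x.2 j) = 0) {a : E n → ℝ} (ha : LH 0 a) {q : Fin p → E n → ℝ}
    (hq : Pots q) : ∫ A, (a (Tm r A x.1) : ℂ) * dc q (lin (Tm r A) x) ∂kmu κ =
      ∫ w, (a w : ℂ) * ∑ I, ∑ J, ck κ κ' r I J x w * ∏ l, hess (q l) w (I l) (J l) := by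
  have i1 := Cont1_intF κ hr hr' hx ha hq
  have i2 : Integrable fun u : E n => (κ'.k u : ℂ) :=
    (κ'.sk.continuous.integrable_of_hasCompactSupport κ'.hcs_k).ofReal
  have i3 := i1.mul_prod i2
  have hm := measurePreserving_sw hx
  have i4 := hm.integrable_comp_of_integrable i3
  have e1 := integral_prod_mul (μ := (volume : Measure (E (n * n)))) (ν := (volume : Measure (E n)))
    (fun A => (κ.k A : ℂ) * ((a (Tm r A x.1) : ℂ) * dc q (lin (Tm r A) x)))
    fun u => (κ'.k u : ℂ)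
  rw [integral_complex_ofReal, κ'.int, ofReal_one, mul_one] at e1
  have e2 := integral_map hm.measurable.aemeasurable
    (hm.map_eq.symm ▸ i3.aestronglyMeasurable)
  rw [hm.map_eq, e1] at e2
  have e3 := integral_prod_symm _ i4
  have e4 : ∀ u : E n, ∫ A : E (n * n), (a (x.1 + r • u) : ℂ) *
      ∑ I, ∑ J, Cont1_g κ κ' r I J x u A * ∏ l, hess (q l) (x.1 + r • u) (I l) (J l) =
      (((r ^ n) ^ 2 : ℝ) : ℂ) * ((a (x.1 + r • u) : ℂ) * ∑ I, ∑ J,
        ck κ κ' r I J x (x.1 + r • u) * ∏ l, hess (q l) (x.1 + r • u) (I l) (J l)) := fun u => by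
    have h1 : ∀ I J, (((r ^ n) ^ 2 : ℝ) : ℂ) * ck κ κ' r I J x (x.1 + r • u) =
        ∫ A, Cont1_g κ κ' r I J x u A := fun I J => by
      rw [ck, add_sub_cancel_left, inv_smul_smul₀ hr.ne', ← mul_assoc, ← ofReal_mul,
        mul_inv_cancel₀ (by positivity), ofReal_one, one_mul]
      rfl
    rw [integral_const_mul, integral_finsetSum _ fun I _ => integrable_finsetSum _ fun J _ =>
      (Cont1_int κ κ' r I J hx u).mul_const _, mul_left_comm]
    congr 1
    rw [Finset.mul_sum]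
    refine Finset.sum_congr rfl fun I _ => ?_
    rw [integral_finsetSum _ fun J _ => (Cont1_int κ κ' r I J hx u).mul_const _, Finset.mul_sum]
    refine Finset.sum_congr rfl fun J _ => ?_
    rw [integral_mul_const, ← h1, mul_assoc]
  simp only [comp_apply, Cont1_pt κ κ' hr hr' hx ho a hq, e4] at e3
  simp only [Cont1_pt κ κ' hr hr' hx ho a hq] at e2
  have e5 := Measure.integral_comp_smul_of_nonneg (volume : Measure (E n))
    (fun v => (a (x.1 + v) : ℂ) * ∑ I, ∑ J,
      ck κ κ' r I J x (x.1 + v) * ∏ l, hess (q l) (x.1 + v) (I l) (J l)) r (hR := hr.le)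
  rw [integral_add_left_eq_self (fun w => (a w : ℂ) * ∑ I, ∑ J,
      ck κ κ' r I J x w * ∏ l, hess (q l) w (I l) (J l)) x.1, Pair_finrank] at e5
  rw [integral_kmu]
  simp only [real_smul]
  rw [e2, e3, integral_const_mul, e5, real_smul, ← mul_assoc, ← ofReal_mul, ← pow_mul, mul_comm n,
    mul_inv_cancel₀ (by positivity), ofReal_one, one_mul]

end Pool.Agent.Lib.MP_a47f92_an
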