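import Pool.Agent.Lib.MP_a47f92_an.G.GInv

set_option autoImplicit false
set_option linter.unusedSectionVars false

namespace Pool.Agent.Lib.MP_a47f92_an

open MeasureTheory Filter Topology Set Complex Metric Function
open scoped ContDiff ComplexConjugate ComplexOrder Matrix ENNReal NNReal

/-! Compactness of bounded families of currents. -/

variable {n p : ℕ} {ι : Type} {𝒰 : Filter ι} {S : ι → Measure (Fr n p)} {T : Measure (Fr n p)}

/-- Weak convergence of currents. -/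
def Lim (𝒰 : Filter ι) (S : ι → Measure (Fr n p)) (T : Measure (Fr n p)) : Prop :=
  ∀ g, Tst g → Tendsto (fun j => ∫ x, g x ∂S j) 𝒰 (𝓝 (∫ x, g x ∂T))

/-- Weak limits along an ultrafilter of measures of bounded mass carried by a compact set. -/
theorem Cpt_gen {Y : Type} [TopologicalSpace Y] [T2Space Y] [MeasurableSpace Y] [BorelSpace Y]
    (𝕜 : Type) [RCLike 𝕜] {K : Set Y} (hK : IsCompact K) (𝒰 : Ultrafilter ι) (μ : ι → Measure Y)
    (hμ : ∀ j, ∀ᵐ x ∂μ j, x ∈ K) {C : ℝ≥0} (hC : ∀ j, μ j univ ≤ C) :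
    ∃ ν : Measure Y, IsFiniteMeasure ν ∧ (∀ᵐ x ∂ν, x ∈ K) ∧ ∀ g : Y → 𝕜, ContinuousOn g K →
      Tendsto (fun j => ∫ x, g x ∂μ j) 𝒰 (𝓝 (∫ x, g x ∂ν)) := by
  have : CompactSpace K := isCompact_iff_compactSpace.1 hK
  have hm : MeasurableSet K := hK.measurableSet
  have he := MeasurableEmbedding.subtype_coe hm
  have h1 : ∀ j, (μ j).comap (Subtype.val : K → Y) univ ≤ C := fun j => by
    rw [comap_subtype_coe_apply hm]
    exact (measure_mono (subset_univ _)).trans (hC j)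
  let ρ : ι → FiniteMeasure K := fun j =>
    ⟨(μ j).comap Subtype.val, ⟨(h1 j).trans_lt ENNReal.coe_lt_top⟩⟩
  have h2 : ∀ j, (ρ j).mass ≤ C := fun j => by
    rw [← ENNReal.coe_le_coe, FiniteMeasure.ennreal_mass]
    exact h1 j
  obtain ⟨σ, -, hσ⟩ :=
    (isCompact_setOfPred_finiteMeasure_le_of_compactSpace K C).ultrafilter_le_nhds' (𝒰.map ρ)
      (Ultrafilter.mem_map.2 (univ_mem' h2))
  refine ⟨(σ : Measure K).map Subtype.val, inferInstance,
    he.ae_map_iff.2 (Eventually.of_forall fun x => x.2), fun g hg => ?_⟩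
  have h3 := (FiniteMeasure.tendsto_iff_forall_integral_rclike_tendsto 𝕜 (F := (𝒰 : Filter ι))
    (μs := ρ) (μ := σ)).1 hσ
    (BoundedContinuousFunction.mkOfCompact ⟨fun x : K => g x, hg.domRestrict⟩)
  rw [he.integral_map]
  refine h3.congr fun j => ?_
  change ∫ x : K, g x ∂(μ j).comap Subtype.val = _
  rw [integral_subtype_comap hm, Measure.restrict_eq_self_of_ae_mem (hμ j)]

theorem Cpt_ne {x : Fr n p} (hx : x ∈ Xp n p) : x.1 ≠ 0 :=
  norm_ne_zero_iff.1 (by rw [hx.1]; exact one_ne_zero)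

/-- The normalised measure of a current. -/
noncomputable def Cpt_nm (T : Measure (Fr n p)) : Measure (Fr n p) :=
  (T.withDensity fun x => ((dens x / d0 p).toNNReal : ℝ≥0∞)).map nrm

theorem Cpt_meas : Measurable fun x : Fr n p => (dens x / d0 p).toNNReal :=
  (measurable_dens.div_const _).real_toNNReal

theorem Cpt_ae (h : IsCur T) : ∀ᵐ x ∂Cpt_nm T, x ∈ Xp n p :=
  (ae_map_iff measurable_nrm.aemeasurable isCompact_Xp.measurableSet).2
    ((withDensity_absolutelyContinuous _ _).ae_le (h.ne.mono fun _ hx => nrm_mem hx))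

theorem Cpt_univ (h : IsCur T) : Cpt_nm T univ = ENNReal.ofReal (mass T / d0 p) := by
  have hd := d0_pos p
  rw [Cpt_nm, Measure.map_apply measurable_nrm MeasurableSet.univ, preimage_univ,
    withDensity_apply _ MeasurableSet.univ, Measure.restrict_univ, div_eq_inv_mul,
    ENNReal.ofReal_mul (by positivity), ← h.lp_dens, ← lp_const_mul (by positivity), lp]
  refine lintegral_congr fun x => ?_
  rw [← div_eq_inv_mul]
  rfl

theorem Cpt_int (h : IsCur T) {g : Fr n p → ℂ} (hg : Tst g) :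
    ∫ x, g x ∂Cpt_nm T = ∫ x, g x ∂T := by
  have hd := d0_pos p
  have hm : AEStronglyMeasurable g (Cpt_nm T) := by
    rw [← Measure.restrict_eq_self_of_ae_mem (Cpt_ae h)]
    exact (hg.cont.mono fun _ hx => Cpt_ne hx).aestronglyMeasurable isCompact_Xp.measurableSet
  rw [Cpt_nm, integral_map measurable_nrm.aemeasurable hm,
    integral_withDensity_eq_integral_smul Cpt_meas]
  refine integral_congr_ae (h.ne.mono fun x hx => ?_)
  have h1 := dens_nonneg x
  beta_reduce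
  rw [hg.alg.eq_nrm hx, NNReal.smul_def, Real.coe_toNNReal _ (by positivity), real_smul]

/-- Push `(dens / d0 p) • S j` forward by `nrm` to the compact space `Xp n p`; by `Alg.eq_nrm` the
integrals of test forms do not change. The finite measures of bounded mass on a compact space form
a compact set (`Mathlib/MeasureTheory/Measure/Prokhorov`); the limit is mapped back by
`Subtype.val`. -/
theorem exists_lim (𝒰 : Ultrafilter ι) (h : ∀ j, IsCur (S j)) {C : ℝ} (hC : ∀ j, mass (S j) ≤ C) :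
    ∃ T, IsCur T ∧ Lim 𝒰 S T := by
  obtain ⟨ν, h1, h2, h3⟩ := Cpt_gen ℂ (isCompact_Xp (n := n) (p := p)) 𝒰 (fun j => Cpt_nm (S j))
    (fun j => Cpt_ae (h j)) (C := (C / d0 p).toNNReal) fun j => by
      rw [Cpt_univ (h j)]
      exact ENNReal.ofReal_le_ofReal (div_le_div_of_nonneg_right (hC j) (d0_pos p).le)
  refine ⟨ν, ⟨inferInstance, h2.mono fun _ hx => Cpt_ne hx, ?_⟩, fun g hg => ?_⟩
  · rw [← Measure.restrict_eq_self_of_ae_mem h2]
    exact (continuous_re.comp_continuousOn ((tst_dc pots_lg).cont.mono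
      fun _ hx => Cpt_ne hx)).integrableOn_compact isCompact_Xp
  · exact (h3 g (hg.cont.mono fun _ hx => Cpt_ne hx)).congr fun j => Cpt_int (h j) hg

theorem Lim.toPr (h : Lim 𝒰 S T) (hS : ∀ j, IsCur (S j)) (hT : IsCur T) {a : E n → ℝ}
    (ha : LH 0 a) {q : Fin p → E n → ℝ} (hq : Pots q) :
    Tendsto (fun j => pr (S j) a q) 𝒰 (𝓝 (pr T a q)) := by
  have h1 := h _ ((tst_dc hq).mul_left ha.ic)
  rw [← hT.pr_eqC a hq] at h1
  exact tendsto_ofReal_iff.1 (h1.congr fun j => ((hS j).pr_eqC a hq).symm)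

theorem Lim.toP1 (h : Lim 𝒰 S T) (hS : ∀ j, IsCur (S j)) (hT : IsCur T)
    {q : Fin p → E n → ℝ} (hq : Pots q) : Tendsto (fun j => p1 (S j) q) 𝒰 (𝓝 (p1 T q)) :=
  h.toPr hS hT (lh_const 1) hq

theorem Lim.toMass (h : Lim 𝒰 S T) (hS : ∀ j, IsCur (S j)) (hT : IsCur T) :
    Tendsto (fun j => mass (S j)) 𝒰 (𝓝 (mass T)) :=
  h.toP1 hS hT pots_lg

theorem Lim.closed_of_tendsto [𝒰.NeBot] (h : Lim 𝒰 S T) (hc : ∀ a b, LH 0 a → LH 0 b → ∀ q,
    Pots q → ∀ l, Tendsto (fun j => ∫ x, dx (rc a) (rc b) q l x ∂S j) 𝒰 (𝓝 0)) : Closed T :=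
  closed_iff.2 fun a b ha hb q hq l =>
    tendsto_nhds_unique (h _ (tst_dx ha.ic hb.ic hq l)) (hc a b ha hb q hq l)

theorem Lim.toClosed [𝒰.NeBot] (h : Lim 𝒰 S T) (hc : ∀ j, Closed (S j)) : Closed T :=
  h.closed_of_tendsto fun a b ha hb q hq l =>
    tendsto_const_nhds.congr fun j => (closed_iff.1 (hc j) a b ha hb q hq l).symm

theorem Lim.toOn [𝒰.NeBot] (h : Lim 𝒰 S T) (hS : ∀ j, IsCur (S j)) (hT : IsCur T) {K : Set (E n)}
    (hK : CC K) (h' : ∀ᶠ j in 𝒰, On (S j) K) : On T K :=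
  on_of_test hT hK fun _ ha _ h0 => tendsto_nhds_unique (h.toPr hS hT ha pots_lg)
    (tendsto_const_nhds.congr' (h'.mono fun j hj => (hj.pr_zero (hS j) h0 pots_lg).symm))

/-- The limit of the sum is the sum of the limits. -/
theorem Lim.add {S' : ι → Measure (Fr n p)} {T' : Measure (Fr n p)} (h : Lim 𝒰 S T)
    (h' : Lim 𝒰 S' T') (hS : ∀ j, IsCur (S j)) (hS' : ∀ j, IsCur (S' j)) (hT : IsCur T)
    (hT' : IsCur T') : Lim 𝒰 (fun j => S j + S' j) (T + T') := by
  intro g hg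
  rw [integral_add_measure (hT.integrable hg) (hT'.integrable hg)]
  exact ((h g hg).add (h' g hg)).congr fun j =>
    (integral_add_measure ((hS j).integrable hg) ((hS' j).integrable hg)).symm

theorem Lim.map_fw (h : Lim 𝒰 S T) (hS : ∀ j, IsCur (S j)) (hT : IsCur T) {d : ℕ} {F : E n → E n}
    (hF : IsLift d F) (hd : 1 ≤ d) : Lim 𝒰 (fun j => (S j).map (fw F)) (T.map (fw F)) := by
  intro g hg
  rw [integral_map_fw hT hF hg]
  exact (h _ (hg.comp_fw hF hd)).congr fun j => (integral_map_fw (hS j) hF hg).symm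

/-- A real sequence converges if it converges along every ultrafilter finer than `atTop`. -/
theorem tendsto_of_ultra {u : ℕ → ℝ} {c : ℝ}
    (h : ∀ 𝒰 : Ultrafilter ℕ, (𝒰 : Filter ℕ) ≤ atTop → Tendsto u 𝒰 (𝓝 c)) :
    Tendsto u atTop (𝓝 c) :=
  (tendsto_iff_ultrafilter u atTop (𝓝 c)).2 h

/-- Existence of `τ ∧ T ^ p`: apply `exists_lim` with `p = 0` to the measures
`wg τ (gs d F m p)` mapped by `z ↦ (z, Fin.elim0)`; `LH.cmp` and `green_cauchy` show that
`m ↦ pr τ a (gs d F m p)` is a Cauchy sequence. -/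
theorem exists_isEq {d : ℕ} {F : E n → E n} (hF : IsLift d F) (hd : 2 ≤ d) (h : Cl1 T) :
    ∃ ν, IsEq d F T ν := by
  have hd1 : 1 ≤ d := by omega
  have hu : Measurable (un : E n → E n) := measurable_id.norm.inv.smul measurable_id
  have hs : ∀ z ∈ sphere (0 : E n) 1, z ≠ 0 := fun z hz =>
    norm_ne_zero_iff.1 (by rw [mem_sphere_zero_iff_norm.1 hz]; exact one_ne_zero)
  have hne : ∀ m, ∀ᵐ z ∂wg T (gs d F m p), z ≠ 0 := fun m => wg_ne T (pps_gs hF hd1 m p).pots
  obtain ⟨ν, h1, h2, h3⟩ := Cpt_gen ℝ (isCompact_sphere (0 : E n) 1) (Ultrafilter.of atTop)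
    (fun m : ℕ => (wg T (gs d F m p)).map un)
    (fun m => (ae_map_iff hu.aemeasurable isClosed_sphere.measurableSet).2
      ((hne m).mono fun z hz => mem_sphere_zero_iff_norm.2 (norm_un hz))) (C := 1) fun m => by
      rw [Measure.map_apply hu MeasurableSet.univ, preimage_univ,
        h.cur.wg_univ (pps_gs hF hd1 m p),
        h.closed.p1_one h.cur fun _ => (pl_green hF hd1 m).lh, h.mass, ENNReal.ofReal_one]
      exact le_rfl
  refine ⟨ν, h1, h2.mono hs, fun a ha => ?_⟩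
  have h4 : Tendsto (fun m => pr T a (gs d F m p)) (Ultrafilter.of (atTop : Filter ℕ))
      (𝓝 (∫ z, a z ∂ν)) := by
    refine (h3 a (ha.1.continuousOn.mono hs)).congr fun m => ?_
    rw [integral_map hu.aemeasurable ha.measurable.aestronglyMeasurable,
      ← h.cur.integral_wg ha.measurable (pps_gs hF hd1 m p)]
    refine integral_congr_ae ((hne m).mono fun z hz => ?_)
    have h5 := ha.inv0 ((‖z‖⁻¹ : ℝ) : ℂ)
      (ofReal_ne_zero.2 (inv_ne_zero (norm_ne_zero_iff.2 hz))) z hz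
    rwa [Complex.coe_smul] at h5
  obtain ⟨C, -, hC⟩ := ha.cmp p
  obtain ⟨C', -, hC'⟩ := green_cauchy hF hd
  have h6 : CauchySeq fun m => pr T a (gs d F m p) := by
    refine cauchySeq_of_le_tendsto_0' (fun m => C * (C' * ((d : ℝ) ^ m)⁻¹)) (fun m k hk => ?_) ?_
    · obtain ⟨j, rfl⟩ := Nat.exists_eq_add_of_le hk
      have h7 := hC T (gs d F m p) (gs d F (m + j) p) _ h.cur h.closed
        (fun _ => pl_green hF hd1 m) (fun _ => pl_green hF hd1 (m + j)) fun _ z hz => hC' m j z hz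
      rwa [h.mass, mul_one, ← Real.dist_eq, dist_comm] at h7
    · have h8 : (1 : ℝ) < d := by exact_mod_cast hd
      have h9 := ((tendsto_inv_atTop_zero.comp
        (tendsto_pow_atTop_atTop_of_one_lt h8)).const_mul C').const_mul C
      rwa [mul_zero, mul_zero] at h9
  obtain ⟨c, hc⟩ := cauchySeq_tendsto_of_complete h6
  rw [← tendsto_nhds_unique (hc.mono_left (Ultrafilter.of_le atTop)) h4]
  exact hc

end Pool.Agent.Lib.MP_a47f92_an
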