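import Pool.Agent.Lib.MP_a47f92_an.G.MD2
import Pool.Agent.Lib.MP_a47f92_an.Hess

set_option autoImplicit false
set_option linter.unusedSectionVars false

namespace Pool.Agent.Lib.MP_a47f92_an

open MeasureTheory Filter Topology Set Complex Metric Function
open scoped ContDiff ComplexConjugate ComplexOrder Matrix ENNReal NNReal

/-! Inequalities for mixed discriminants. -/

variable {n p : ℕ} {A B : Fin p → Mat p}

theorem MD3_half {P : Mat p} (h : P.PosSemidef) : ((2⁻¹ : ℂ) • P).PosSemidef :=
  h.smul (by
    rw [show (2⁻¹ : ℂ) = ((2⁻¹ : ℝ) : ℂ) by simp]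
    exact Complex.zero_le_real.2 (by norm_num))

theorem MD3_ind (f g : (Fin p → Mat p) → ℝ) (T : Fin p → Prop)
    (hf : ∀ C l, T l → ∀ P Q, f (update C l (P - Q)) ≤ f (update C l P) + f (update C l Q))
    (hg : ∀ C l, T l → ∀ P Q, g (update C l (P + Q)) = g (update C l P) + g (update C l Q))
    (h0 : ∀ C, (∀ l, T l → (C l).PosSemidef) → f C ≤ g C) (S : Finset (Fin p)) :
    ∀ A B : Fin p → Mat p, (∀ l ∈ S, T l) →
      (∀ l, T l → (B l - A l).PosSemidef ∧ (B l + A l).PosSemidef) →
      (∀ l, l ∉ S → A l = B l) → f A ≤ g B := by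
  induction S using Finset.induction_on with
  | empty =>
    intro A B _ h hS
    obtain rfl : A = B := funext fun l => hS l (Finset.notMem_empty l)
    refine h0 A fun l hl => ?_
    have e : A l = (2⁻¹ : ℂ) • (A l + A l) := by module
    rw [e]
    exact MD3_half (h l hl).2
  | insert l S _ ih =>
    intro A B hT h hS
    have hl := hT l (Finset.mem_insert_self l S)
    have key : ∀ P : Mat p, P.PosSemidef → f (update A l P) ≤ g (update B l P) := by
      intro P hP
      refine ih _ _ (fun l' h' => hT l' (Finset.mem_insert_of_mem h')) (fun l' h' => ?_)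
        fun l' h' => ?_
      · by_cases e : l' = l
        · rw [e, update_self, update_self, sub_self]
          exact ⟨Matrix.PosSemidef.zero, hP.add hP⟩
        · rw [update_of_ne e, update_of_ne e]
          exact h l' h'
      · by_cases e : l' = l
        · rw [e, update_self, update_self]
        · rw [update_of_ne e, update_of_ne e]
          exact hS l' (by simp [e, h'])
    have h1 := key _ (MD3_half (h l hl).2)
    have h2 := key _ (MD3_half (h l hl).1)
    have h3 := hf A l hl ((2⁻¹ : ℂ) • (B l + A l)) ((2⁻¹ : ℂ) • (B l - A l))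
    have h4 := hg B l hl ((2⁻¹ : ℂ) • (B l + A l)) ((2⁻¹ : ℂ) • (B l - A l))
    rw [show (2⁻¹ : ℂ) • (B l + A l) - (2⁻¹ : ℂ) • (B l - A l) = A l by module,
      update_eq_self] at h3
    rw [show (2⁻¹ : ℂ) • (B l + A l) + (2⁻¹ : ℂ) • (B l - A l) = B l by module,
      update_eq_self] at h4
    linarith

theorem MD3_sub (C : Fin p → Mat p) (l : Fin p) (P Q : Mat p) :
    mdC (update C l (P - Q)) = mdC (update C l P) - mdC (update C l Q) := by
  rw [eq_sub_iff_add_eq, ← mdC_update_add, sub_add_cancel]

theorem MD3_add (C : Fin p → Mat p) (l : Fin p) (P Q : Mat p) :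
    md (update C l (P + Q)) = md (update C l P) + md (update C l Q) := by
  unfold md
  rw [mdC_update_add, Complex.add_re]

theorem MD3_abs (h : ∀ l, (B l - A l).PosSemidef) (h' : ∀ l, (B l + A l).PosSemidef) :
    |md A| ≤ md B := by
  refine MD3_ind (fun C => |md C|) md (fun _ => True) (fun C l _ P Q => ?_)
    (fun C l _ P Q => MD3_add C l P Q)
    (fun C hC => (abs_of_nonneg (md_nonneg fun l => hC l trivial)).le) Finset.univ A B
    (fun _ _ => trivial) (fun l _ => ⟨h l, h' l⟩) fun l hl => absurd (Finset.mem_univ l) hl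
  unfold md
  rw [MD3_sub, Complex.sub_re]
  exact abs_sub _ _

theorem MD3_psd {l : Fin p} (hA : ∀ l', l' ≠ l → (A l').PosSemidef) (x : Fin p → ℂ) (l' : Fin p) :
    (update A l (Matrix.of fun i j => x i * conj (x j)) l').PosSemidef := by
  by_cases e : l' = l
  · rw [e, update_self]
    exact Matrix.posSemidef_vecMulVec_self_star x
  · rw [update_of_ne e]
    exact hA l' e

theorem MD3_conj {l : Fin p} (hA : ∀ l', l' ≠ l → (A l').PosSemidef) (x y : Fin p → ℂ) :
    mdC (update A l (Matrix.of fun i j => y i * conj (x j))) =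
      conj (mdC (update A l (Matrix.of fun i j => x i * conj (y j)))) := by
  rw [mdC_conj]
  congr 1
  funext l'
  by_cases e : l' = l
  · rw [e, update_self, update_self]
    ext i j
    simp [mul_comm]
  · rw [update_of_ne e, update_of_ne e, (hA l' e).1.eq]

theorem MD3_expand {m : Fin p → ℕ} (a : ∀ l, Fin (m l) → Fin p → ℂ)
    (h : ∀ l i j, A l i j = ∑ k, a l k i * conj (a l k j)) :
    md A = ∑ κ : ∀ l, Fin (m l), ‖(Matrix.of fun l => a l (κ l)).det‖ ^ 2 := by
  have h1 : mdC A = ∑ κ ∈ Fintype.piFinset fun l => (Finset.univ : Finset (Fin (m l))),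
      mdC (fun l => Matrix.of fun i j => a l (κ l) i * conj (a l (κ l) j)) := by
    unfold mdC
    rw [Finset.sum_comm (s := Fintype.piFinset _)]
    refine Finset.sum_congr rfl fun σ _ => ?_
    rw [Finset.sum_comm (s := Fintype.piFinset _)]
    refine Finset.sum_congr rfl fun π _ => ?_
    rw [← Finset.mul_sum]
    congr 1
    simp only [Matrix.of_apply]
    rw [← Finset.prod_univ_sum (fun l => (Finset.univ : Finset (Fin (m l))))
      (fun l k => a l k (σ l) * conj (a l k (π l)))]
    exact Finset.prod_congr rfl fun l _ => h l _ _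
  unfold md
  rw [h1, Complex.re_sum, Fintype.piFinset_univ]
  refine Finset.sum_congr rfl fun κ _ => ?_
  rw [mdC_rank_one (fun l => a l (κ l)), Complex.ofReal_re]

theorem md_mono (hA : ∀ l, (A l).PosSemidef) (h : ∀ l, (B l - A l).PosSemidef) : md A ≤ md B := by
  refine (le_abs_self _).trans (MD3_abs h fun l => ?_)
  rw [show B l + A l = B l - A l + (A l + A l) by abel]
  exact (h l).add ((hA l).add (hA l))

/-- Write `2 A = (B + A) - (B - A)`, `2 B = (B + A) + (B - A)` slot by slot (induction on the
set of slots which have been replaced). -/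
theorem md_abs_le_md (h : ∀ l, (B l - A l).PosSemidef) (h' : ∀ l, (B l + A l).PosSemidef) :
    |md A| ≤ md B := MD3_abs h h'

/-- Cauchy-Schwarz: the cofactor matrix (`mdC_update_eq`) defines a positive Hermitian form. -/
theorem md_cs {l : Fin p} (hA : ∀ l', l' ≠ l → (A l').PosSemidef) (x y : Fin p → ℂ) :
    ‖mdC (update A l (Matrix.of fun i j => x i * conj (y j)))‖ ^ 2 ≤
      md (update A l (Matrix.of fun i j => x i * conj (x j))) *
        md (update A l (Matrix.of fun i j => y i * conj (y j))) := by
  have ha := md_nonneg (MD3_psd hA x)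
  have hb := md_nonneg (MD3_psd hA y)
  have ia := mdC_im fun l' => (MD3_psd hA x l').1
  have ib := mdC_im fun l' => (MD3_psd hA y l').1
  have hc := MD3_conj hA x y
  obtain ⟨w, hw⟩ : ∃ w, w = mdC (update A l (Matrix.of fun i j => x i * conj (y j))) := ⟨_, rfl⟩
  have key : ∀ s : ℝ, 0 ≤ (‖w‖ ^ 2 * md (update A l (Matrix.of fun i j => y i * conj (y j)))) *
      (s * s) + 2 * ‖w‖ ^ 2 * s + md (update A l (Matrix.of fun i j => x i * conj (x j))) := by
    intro s
    have h1 := md_nonneg (MD3_psd hA fun i => x i + (s * w) * y i)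
    have e : (Matrix.of fun i j => (x i + (s * w) * y i) * conj (x j + (s * w) * y j) : Mat p) =
        (Matrix.of fun i j => x i * conj (x j)) + ((s * conj w) • (Matrix.of fun i j =>
          x i * conj (y j)) + ((s * w) • (Matrix.of fun i j => y i * conj (x j)) +
            (s * s * (w * conj w)) • Matrix.of fun i j => y i * conj (y j))) := by
      ext i j
      simp only [Matrix.of_apply, Matrix.add_apply, Matrix.smul_apply, smul_eq_mul, map_add,
        map_mul, Complex.conj_ofReal]
      ring
    unfold md at h1 ⊢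
    rw [e, mdC_update_add, mdC_update_add, mdC_update_add, mdC_update_smul, mdC_update_smul,
      mdC_update_smul, hc, ← hw, mul_assoc (s : ℂ) (conj w) w, mul_comm (conj w) w,
      mul_assoc (s : ℂ) w (conj w), Complex.mul_conj', ← Complex.ofReal_pow, ← Complex.ofReal_mul,
      ← Complex.ofReal_mul, ← Complex.ofReal_mul, Complex.add_re, Complex.add_re, Complex.add_re,
      Complex.ofReal_re, Complex.re_ofReal_mul] at h1
    linarith
  have hd := discrim_le_zero key
  rw [← hw]
  unfold discrim at hd
  rcases (sq_nonneg ‖w‖).eq_or_lt with h0 | h0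
  · rw [← h0]
    exact mul_nonneg ha hb
  · exact le_of_mul_le_mul_left (by linarith) h0

/-- Version with Hermitian slots dominated by positive ones, in arithmetic-geometric form.
Expand `2 A = (B + A) - (B - A)` in the slots different from `l` and use `md_cs` for each term. -/
theorem md_cs' {l : Fin p} (h : ∀ l', l' ≠ l → (B l' - A l').PosSemidef)
    (h' : ∀ l', l' ≠ l → (B l' + A l').PosSemidef) (x y : Fin p → ℂ) {t : ℝ} (ht : 0 < t) :
    2 * ‖mdC (update A l (Matrix.of fun i j => x i * conj (y j)))‖ ≤
      t * md (update B l (Matrix.of fun i j => x i * conj (x j))) +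
        t⁻¹ * md (update B l (Matrix.of fun i j => y i * conj (y j))) := by
  have key := MD3_ind
    (fun C => 2 * ‖mdC (update C l (Matrix.of fun i j => x i * conj (y j)))‖)
    (fun C => t * md (update C l (Matrix.of fun i j => x i * conj (x j))) +
      t⁻¹ * md (update C l (Matrix.of fun i j => y i * conj (y j)))) (fun l' => l' ≠ l)
    (fun C l' hl P Q => by
      simp only [update_comm hl]
      rw [MD3_sub, ← mul_add]
      exact mul_le_mul_of_nonneg_left (norm_sub_le _ _) zero_le_two)
    (fun C l' hl P Q => by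
      simp only [update_comm hl]
      rw [MD3_add, MD3_add]
      ring)
    (fun C hC => by
      have h1 := md_cs hC x y
      have ha := mul_nonneg ht.le (md_nonneg (MD3_psd hC x))
      have hb := mul_nonneg (inv_pos.2 ht).le (md_nonneg (MD3_psd hC y))
      refine (sq_le_sq₀ (mul_nonneg zero_le_two (norm_nonneg _)) (add_nonneg ha hb)).1 ?_
      have e : ∀ a b : ℝ, (t * a + t⁻¹ * b) ^ 2 = (t * a - t⁻¹ * b) ^ 2 + 4 * (a * b) := by
        intro a b
        field_simp
        ring
      rw [e, mul_pow]
      linarith [sq_nonneg (t * md (update C l (Matrix.of fun i j => x i * conj (x j))) -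
        t⁻¹ * md (update C l (Matrix.of fun i j => y i * conj (y j))))])
    (Finset.univ.erase l) (update A l 0) (update B l 0) (fun l' hl => Finset.ne_of_mem_erase hl)
    (fun l' hl => by
      rw [update_of_ne hl, update_of_ne hl]
      exact ⟨h l' hl, h' l' hl⟩)
    (fun l' hl => by
      obtain rfl : l' = l := by simpa using hl
      rw [update_self, update_self])
  simpa only [update_idem] using key

theorem rs_psd {H : Mat n} (h : H.PosSemidef) (v : Fin p → E n) : (rs H v).PosSemidef := by
  have e : rs H v = (Matrix.of fun i a => v i a) * H * (Matrix.of fun i a => v i a)ᴴ := by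
    ext i j
    simp only [rs, Matrix.of_apply, Matrix.mul_apply, Matrix.conjTranspose_apply, Finset.sum_mul,
      Complex.star_def]
    rw [Finset.sum_comm]
    exact Finset.sum_congr rfl fun b _ => Finset.sum_congr rfl fun a _ => by ring
  rw [e]
  exact h.mul_mul_conjTranspose_same _

/-- Write `H l` as a sum of `n` matrices `η η^*` (square root); each `η` kills `z`. The forms are
`v ↦ det (η_l (v_j))`; see `mdC_rank_one` and the proof of `md_nonneg`. -/
theorem exists_alt_md {H : Fin p → Mat n} (h : ∀ l, (H l).PosSemidef) {z : E n}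
    (hz : ∀ l j, ∑ i, z i * H l i j = 0) :
    ∃ (ι : Type) (_ : Fintype ι) (θ : ι → E n [⋀^Fin p]→ₗ[ℂ] ℂ),
      (∀ i v j, v j = z → θ i v = 0) ∧ ∀ v, md (fun l => rs (H l) v) = ∑ i, ‖θ i v‖ ^ 2 := by
  choose m η hη using fun l => Matrix.posSemidef_iff_eq_sum_vecMulVec.1 (h l)
  have hH : ∀ l i j, H l i j = ∑ k, η l k i * conj (η l k j) := fun l i j => by
    rw [hη l, Matrix.sum_apply]
    rfl
  have hrs : ∀ l (u w : E n), ∑ a, ∑ b, u a * conj (w b) * H l a b =
      ∑ k, (∑ a, u a * η l k a) * conj (∑ b, w b * η l k b) := by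
    intro l u w
    simp only [hH, Finset.mul_sum, Finset.sum_mul, map_sum, map_mul]
    rw [Finset.sum_comm]
    conv_lhs => enter [2, b]; rw [Finset.sum_comm]
    rw [Finset.sum_comm]
    exact Finset.sum_congr rfl fun k _ => Finset.sum_congr rfl fun b _ =>
      Finset.sum_congr rfl fun a _ => by ring
  have hz0 : ∀ l k, ∑ a, z a * η l k a = 0 := by
    intro l k
    have h1 : ∑ a, ∑ b, z a * conj (z b) * H l a b = 0 := by
      rw [Finset.sum_comm]
      refine Finset.sum_eq_zero fun b _ => ?_
      rw [show ∑ a, z a * conj (z b) * H l a b = conj (z b) * ∑ a, z a * H l a b by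
        rw [Finset.mul_sum]
        exact Finset.sum_congr rfl fun a _ => by ring, hz, mul_zero]
    rw [hrs] at h1
    simp only [Complex.mul_conj'] at h1
    have h2 : ∑ k, ‖∑ a, z a * η l k a‖ ^ 2 = 0 := by exact_mod_cast h1
    have h3 := (Finset.sum_eq_zero_iff_of_nonneg fun k _ => sq_nonneg _).1 h2 k (Finset.mem_univ k)
    exact norm_eq_zero.1 (pow_eq_zero_iff two_ne_zero |>.1 h3)
  let L : (∀ l, Fin (m l)) → E n →ₗ[ℂ] Fin p → ℂ := fun κ =>
    { toFun := fun w l => ∑ a, w a * η l (κ l) a
      map_add' := fun u w => by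
        funext l
        simp [add_mul, Finset.sum_add_distrib]
      map_smul' := fun c w => by
        funext l
        simp [Finset.mul_sum, mul_assoc] }
  refine ⟨∀ l, Fin (m l), inferInstance,
    fun κ => Matrix.detRowAlternating.compLinearMap (L κ), fun κ v j hj => ?_, fun v => ?_⟩
  · rw [AlternatingMap.compLinearMap_apply]
    refine AlternatingMap.map_coord_zero _ j ?_
    rw [hj]
    exact funext fun l => hz0 l (κ l)
  · rw [MD3_expand (A := fun l => rs (H l) v) (fun l k i => ∑ a, v i a * η l k a)
      fun l i j => hrs l (v i) (v j)]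
    refine Finset.sum_congr rfl fun κ _ => ?_
    rw [← Matrix.det_transpose]
    rfl

end Pool.Agent.Lib.MP_a47f92_an
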