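import Pool.Agent.Lib.MP_a47f92_an.G.LHb
import Pool.Agent.Lib.MP_a47f92_an.G.MD3

set_option autoImplicit false
set_option linter.unusedSectionVars false

namespace Pool.Agent.Lib.MP_a47f92_an

open MeasureTheory Filter Topology Set Complex Metric Function
open scoped ContDiff ComplexConjugate ComplexOrder Matrix ENNReal NNReal

/-! Normal form of a frame. -/

variable {n p : ℕ}

theorem NF_exp {w : E n} (hw : w ≠ 0) : Real.exp (-2 * lg w) / 2 = (2 * ‖w‖ ^ 2)⁻¹ := by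
  have h : 0 < ‖w‖ := norm_pos_iff.2 hw
  rw [lg, show -2 * Real.log ‖w‖ = -(Real.log ‖w‖ + Real.log ‖w‖) by ring, Real.exp_neg,
    Real.exp_add, Real.exp_log h]
  field_simp

theorem NF_gd {w : E n} (hw : w ≠ 0) (v : E n) :
    gd v (rc lg) w = inner ℂ w v * (((2 * ‖w‖ ^ 2)⁻¹ : ℝ) : ℂ) := by
  have h := gd_log_norm (f := fun y : E n => y) (y := w) differentiableAt_id hw v
  rw [fderiv_fun_id, ContinuousLinearMap.id_apply] at h
  refine h.trans ?_
  push_cast
  rw [div_eq_mul_inv]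

theorem NF_gdgb {z : E n} (hz : z ≠ 0) (u v : E n) : gd u (gb v (rc lg)) z =
    ((2 * ‖z‖ ^ 2 : ℝ) : ℂ)⁻¹ * inner ℂ (prj (un z) v) (prj (un z) u) := by
  have e : gb v (rc lg) =ᶠ[𝓝 z] fun w : E n =>
      innerSL ℂ v w * rc (fun w : E n => Real.exp (-2 * lg w) / 2) w := by
    filter_upwards [isOpen_compl_singleton.mem_nhds hz] with w hw
    rw [gb_rc, NF_gd hw, map_mul, inner_conj_symm, conj_ofReal]
    change _ = inner ℂ v w * ((Real.exp (-2 * lg w) / 2 : ℝ) : ℂ)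
    rw [NF_exp hw]
  have hl : DifferentiableAt ℝ (lg : E n → ℝ) z := (SOS_lg hz).differentiableAt (by norm_num)
  have hφ : HasDerivAt (fun t : ℝ => Real.exp (-2 * t) / 2)
      (Real.exp (-2 * lg z) * (-2 * 1) / 2) (lg z) :=
    (((hasDerivAt_id (lg z)).const_mul (-2)).exp).div_const 2
  have h1 : DifferentiableAt ℂ (fun w : E n => innerSL ℂ v w) z := (innerSL ℂ v).differentiableAt
  have h2 : DifferentiableAt ℝ (rc fun w : E n => Real.exp (-2 * lg w) / 2) z :=
    ofRealCLM.differentiableAt.comp z (hφ.differentiableAt.comp z hl)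
  have h3 : Real.exp (-2 * lg z) * (-2 * 1) / 2 = -2 * (2 * ‖z‖ ^ 2)⁻¹ := by
    rw [← NF_exp hz]
    ring
  have h0 : (‖z‖ : ℂ) ≠ 0 := ofReal_ne_zero.2 (norm_ne_zero_iff.2 hz)
  rw [(gd_congr e u).eq_of_nhds, gd_mul (h1.restrictScalars ℝ) h2, gd_holo h1, gd_rcomp hl hφ,
    NF_gd hz, h3, (innerSL ℂ v).fderiv, Plk_prj z v, inner_sub_left, inner_smul_left,
    PlkA_un hz, mul_zero, sub_zero, Plk_prj, inner_sub_right, inner_smul_right]
  simp only [innerSL_apply_apply, rc, NF_exp hz]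
  push_cast
  field_simp
  ring

theorem lv_lg {x : Fr n p} (hx : x.1 ≠ 0) :
    lv lg x = ((2 * ‖x.1‖ ^ 2 : ℝ) : ℂ)⁻¹ • gram fun j => prj (un x.1) (x.2 j) := by
  ext i j
  exact NF_gdgb hx _ _

theorem dens_eq {x : Fr n p} (hx : x.1 ≠ 0) :
    dens x = ‖plk fun j => prj (un x.1) (x.2 j)‖ ^ 2 / (2 * ‖x.1‖ ^ 2) ^ p := by
  rw [dens, dn, if_neg hx, dc, mdC_const, lv_lg hx, Matrix.det_smul, Fintype.card_fin,
    mul_left_comm, ← norm_plk_sq, ← ofReal_inv, ← ofReal_pow, ← ofReal_mul, ofReal_re, inv_pow,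
    div_eq_inv_mul]

theorem dens_nonneg (x : Fr n p) : 0 ≤ dens x := by
  by_cases hx : x.1 = 0
  · rw [dens, dn, if_pos hx]
  · rw [dens_eq hx]
    positivity

theorem d0_pos (p : ℕ) : 0 < d0 p := by
  unfold d0
  positivity

theorem isCompact_Xp : IsCompact (Xp n p) := by
  have e : Xp n p = sphere 0 1 ×ˢ Set.pi univ fun _ => closedBall 0 1 := by
    ext x
    simp [Xp]
  rw [e]
  exact (isCompact_sphere 0 1).prod (isCompact_univ_pi fun _ => isCompact_closedBall 0 1)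

theorem NF_meas {X : Type} [MeasurableSpace X] {m : ℕ} {f : X → Fin m → E n}
    (hf : ∀ j, Measurable fun x => f x j) (j : Fin m) :
    Measurable fun x => InnerProductSpace.gramSchmidt ℂ (f x) j := by
  induction j using WellFoundedLT.induction with
  | ind j ih =>
    have e : (fun x => InnerProductSpace.gramSchmidt ℂ (f x) j) = fun x => f x j -
        ∑ i ∈ Finset.Iio j, (inner ℂ (InnerProductSpace.gramSchmidt ℂ (f x) i) (f x j) /
          (‖InnerProductSpace.gramSchmidt ℂ (f x) i‖ : ℂ) ^ 2) •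
            InnerProductSpace.gramSchmidt ℂ (f x) i :=
      funext fun x => eq_sub_of_add_eq (InnerProductSpace.gramSchmidt_def'' ℂ (f x) j).symm
    rw [e]
    refine (hf j).sub (Finset.measurable_sum _ fun i hi => ?_)
    have h := ih i (Finset.mem_Iio.1 hi)
    exact ((h.inner (hf j)).div ((measurable_ofReal.comp h.norm).pow_const 2)).smul h

/-- Strong induction on the index with `InnerProductSpace.gramSchmidt_def`. -/
theorem measurable_nrm : Measurable (nrm : Fr n p → Fr n p) := by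
  refine (measurable_fst.norm.inv.smul measurable_fst).prodMk (measurable_pi_lambda _ fun j => ?_)
  have h := NF_meas (f := fun x : Fr n p => (Fin.cons x.1 x.2 : Fin (p + 1) → E n))
    (fun j => Fin.cases measurable_fst
      (fun i => (measurable_pi_apply i).comp measurable_snd) j) j.succ
  exact (measurable_ofReal.comp h.norm).inv.smul h

theorem nrm_mem {x : Fr n p} (hx : x.1 ≠ 0) : nrm x ∈ Xp n p := by
  refine ⟨norm_un hx, fun j => ?_⟩
  by_cases h : (nrm x).2 j = 0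
  · rw [h, norm_zero]
    exact zero_le_one
  · exact (InnerProductSpace.gramSchmidtNormed_unit_length' h).le

theorem NF_zero (x : Fr n p) : InnerProductSpace.gramSchmidtNormed ℂ
    (Fin.cons x.1 x.2 : Fin (p + 1) → E n) 0 = un x.1 := by
  have h : InnerProductSpace.gramSchmidt ℂ (Fin.cons x.1 x.2 : Fin (p + 1) → E n) 0 = x.1 :=
    InnerProductSpace.gramSchmidt_bot ℂ _
  rw [InnerProductSpace.gramSchmidtNormed, h, un, ← Complex.coe_smul, ofReal_inv]
  rfl

theorem NF_orth {m : ℕ} (f : Fin m → E n) {i j : Fin m} (h : i ≠ j) :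
    inner ℂ (InnerProductSpace.gramSchmidtNormed ℂ f i)
      (InnerProductSpace.gramSchmidtNormed ℂ f j) = 0 := by
  rw [InnerProductSpace.gramSchmidtNormed, InnerProductSpace.gramSchmidtNormed, inner_smul_left,
    inner_smul_right, InnerProductSpace.gramSchmidt_orthogonal ℂ f h, mul_zero, mul_zero]

theorem NF_inner (x : Fr n p) (j : Fin p) : inner ℂ (nrm x).1 ((nrm x).2 j) = 0 := by
  change inner ℂ (un x.1) _ = 0
  rw [← NF_zero]
  exact NF_orth _ (Fin.succ_ne_zero j).symm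

/-- If the density does not vanish, `cons z v` is linearly independent (`norm_plk_cons`,
`plk_ne_zero_iff`). -/
theorem nrm_ortho {x : Fr n p} (hx : dens x ≠ 0) :
    Orthonormal ℂ (nrm x).2 ∧ ∀ j, inner ℂ (nrm x).1 ((nrm x).2 j) = 0 := by
  have h0 : x.1 ≠ 0 := fun h => hx (by rw [dens, dn, if_pos h])
  have h1 : (plk fun j => prj (un x.1) (x.2 j)) ≠ 0 := fun h => hx (by
    rw [dens_eq h0, h, norm_zero, zero_pow two_ne_zero, zero_div])
  have h2 : plk (Fin.cons x.1 x.2 : Fin (p + 1) → E n) ≠ 0 := fun h => by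
    have h3 := norm_plk_cons h0 x.2
    rw [h, norm_zero, zero_pow two_ne_zero] at h3
    have h4 := norm_pos_iff.2 h0
    have h5 := norm_pos_iff.2 h1
    exact absurd h3 (by positivity : (0 : ℝ) < _).ne
  exact ⟨(InnerProductSpace.gramSchmidtNormed_orthonormal ((plk_ne_zero_iff _).1 h2)).comp _
    (Fin.succ_injective p), NF_inner x⟩

theorem NF_scl {c : ℂ} (hc : c ≠ 0) {x : Fr n p} (hx : x.1 ≠ 0) : dens (scl c x) = dens x := by
  have h : (scl c x).1 ≠ 0 := smul_ne_zero hc hx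
  rw [dens, dens, dn, dn, if_neg h, if_neg hx, dc, dc, lh_lg.lv_scl hc hx]

theorem NF_chg (P : Mat p) (c : Fin p → ℂ) {x : Fr n p} (hx : x.1 ≠ 0) :
    dens (chg P c x) = ‖P.det‖ ^ 2 * dens x := by
  have h : (chg P c x).1 ≠ 0 := hx
  have e : (P.map conj).det = conj P.det := (RingHom.map_det (starRingEnd ℂ) P).symm
  rw [dens, dens, dn, dn, if_neg h, if_neg hx, dc, dc, lh_lg.lv_chg P c hx, mdC_const, mdC_const,
    cong, Matrix.det_mul, Matrix.det_mul, Matrix.det_transpose, e, ← re_ofReal_mul, ofReal_pow,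
    ← Complex.mul_conj']
  congr 1
  ring

theorem NF_dens {x : Fr n p} (h1 : ‖x.1‖ = 1) (h2 : Orthonormal ℂ x.2)
    (h3 : ∀ j, inner ℂ x.1 (x.2 j) = 0) : dens x = d0 p := by
  have h0 : x.1 ≠ 0 := norm_ne_zero_iff.1 (by rw [h1]; exact one_ne_zero)
  have e : (fun j => prj (un x.1) (x.2 j)) = x.2 := funext fun j => by
    rw [Plk_prj, h3, zero_div, zero_smul, sub_zero]
  rw [dens_eq h0, e, norm_plk_orthonormal h2, h1, one_pow, mul_one, d0]

/-- `x = scl ‖z‖ (chg P c (nrm x))` for a triangular matrix `P` whose diagonal entries are the norms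
of the Gram-Schmidt vectors divided by `‖z‖`, and `dens x = d0 p * ‖det P‖ ^ 2`. -/
theorem exists_nrm {x : Fr n p} (hx : x.1 ≠ 0) : ∃ (P : Mat p) (c : Fin p → ℂ),
    x = scl (‖x.1‖ : ℝ) (chg P c (nrm x)) ∧ dens x = d0 p * ‖P.det‖ ^ 2 := by
  classical
  have hs : ∀ j, ∃ a : Fin (p + 1) → ℂ, ∑ k, a k • InnerProductSpace.gramSchmidtNormed ℂ
      (Fin.cons x.1 x.2 : Fin (p + 1) → E n) k = x.2 j := fun j => by
    rw [← Submodule.mem_span_range_iff_exists_fun, InnerProductSpace.span_gramSchmidtNormed_range,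
      InnerProductSpace.span_gramSchmidt]
    exact Submodule.subset_span ⟨j.succ, rfl⟩
  choose a ha using hs
  have h0 : ((‖x.1‖ : ℝ) : ℂ) ≠ 0 := ofReal_ne_zero.2 (norm_ne_zero_iff.2 hx)
  have h1 : (nrm x).1 ≠ 0 := norm_ne_zero_iff.1 (by rw [(nrm_mem hx).1]; exact one_ne_zero)
  obtain ⟨P, hP⟩ : ∃ P : Mat p, P = Matrix.of fun i j =>
    if (nrm x).2 i = 0 then 0 else a j i.succ / (‖x.1‖ : ℝ) := ⟨_, rfl⟩
  have e : x = scl (‖x.1‖ : ℝ) (chg P (fun j => a j 0 / (‖x.1‖ : ℝ)) (nrm x)) := by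
    refine Prod.ext ?_ (funext fun j => ?_)
    · change x.1 = ((‖x.1‖ : ℝ) : ℂ) • un x.1
      rw [un, ← Complex.coe_smul, smul_smul, ofReal_inv, mul_inv_cancel₀ h0, one_smul]
    · change x.2 j = ((‖x.1‖ : ℝ) : ℂ) •
        (∑ i, P i j • (nrm x).2 i + (a j 0 / (‖x.1‖ : ℝ)) • un x.1)
      rw [← ha j, Fin.sum_univ_succ, NF_zero, smul_add, smul_smul, mul_div_cancel₀ _ h0, add_comm,
        Finset.smul_sum]
      congr 1
      refine Finset.sum_congr rfl fun i _ => ?_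
      change a j i.succ • (nrm x).2 i = _
      by_cases h : (nrm x).2 i = 0
      · rw [h, smul_zero, smul_zero, smul_zero]
      · rw [hP, Matrix.of_apply, if_neg h, smul_smul, mul_div_cancel₀ _ h0]
  refine ⟨P, _, e, ?_⟩
  have e' : dens x = ‖P.det‖ ^ 2 * dens (nrm x) := by
    rw [← NF_chg P (fun j => a j 0 / (‖x.1‖ : ℝ)) h1,
      ← NF_scl h0 (x := chg P (fun j => a j 0 / (‖x.1‖ : ℝ)) (nrm x)) h1, ← e]
  rw [e']
  by_cases hd : P.det = 0
  · rw [hd, norm_zero, zero_pow two_ne_zero, zero_mul, mul_zero]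
  · have h2 : ∀ i, (nrm x).2 i ≠ 0 := fun i h => hd
      (Matrix.det_eq_zero_of_row_eq_zero i fun j => by rw [hP, Matrix.of_apply, if_pos h])
    rw [NF_dens (nrm_mem hx).1 ⟨fun i => InnerProductSpace.gramSchmidtNormed_unit_length' (h2 i),
      fun i j h => NF_orth _ fun h' => h (Fin.succ_injective p h')⟩ (NF_inner x), mul_comm]

theorem Alg.eq_nrm {g : Fr n p → ℂ} (h : Alg g) {x : Fr n p} (hx : x.1 ≠ 0) :
    g x = ((dens x / d0 p : ℝ) : ℂ) * g (nrm x) := by
  obtain ⟨P, c, e, hd⟩ := exists_nrm hx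
  have h0 : ((‖x.1‖ : ℝ) : ℂ) ≠ 0 := ofReal_ne_zero.2 (norm_ne_zero_iff.2 hx)
  have h1 : (nrm x).1 ≠ 0 := norm_ne_zero_iff.1 (by rw [(nrm_mem hx).1]; exact one_ne_zero)
  rw [hd, mul_div_cancel_left₀ _ (d0_pos p).ne', ← h.hc P c _ h1,
    ← h.hs _ h0 (chg P c (nrm x)) h1, ← e]

/-- Uniform bound for a continuous family. -/
theorem exists_bound_family {P : Type} [TopologicalSpace P] {K : Set P} (hK : IsCompact K)
    {g : P → Fr n p → ℂ} (hc : ContinuousOn (fun y : P × Fr n p => g y.1 y.2) (K ×ˢ {x | x.1 ≠ 0}))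
    (ha : ∀ a ∈ K, Alg (g a)) :
    ∃ C : ℝ, 0 ≤ C ∧ ∀ a ∈ K, ∀ x : Fr n p, x.1 ≠ 0 → ‖g a x‖ ≤ C * dens x := by
  obtain ⟨C, hC⟩ := (hK.prod (isCompact_Xp (n := n) (p := p))).exists_bound_of_continuousOn
    (hc.mono (prod_mono_right fun x hx =>
      norm_ne_zero_iff.1 (by rw [hx.1]; exact one_ne_zero)))
  have hd := d0_pos p
  refine ⟨max C 0 / d0 p, by positivity, fun a haK x hx => ?_⟩
  have h1 := dens_nonneg x
  rw [(ha a haK).eq_nrm hx, norm_mul, norm_real, Real.norm_of_nonneg (by positivity)]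
  calc dens x / d0 p * ‖g a (nrm x)‖ ≤ dens x / d0 p * max C 0 :=
        mul_le_mul_of_nonneg_left ((hC (a, nrm x) ⟨haK, nrm_mem hx⟩).trans (le_max_left _ _))
          (by positivity)
    _ = max C 0 / d0 p * dens x := by ring

theorem Tst.bound {g : Fr n p → ℂ} (h : Tst g) :
    ∃ C : ℝ, 0 ≤ C ∧ ∀ x : Fr n p, x.1 ≠ 0 → ‖g x‖ ≤ C * dens x := by
  obtain ⟨C, h0, hC⟩ := exists_bound_family (P := Unit) (K := univ) isCompact_univ
    (g := fun _ => g) (h.cont.comp continuousOn_snd fun y hy => hy.2) fun _ _ => h.alg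
  exact ⟨C, h0, hC () trivial⟩

end Pool.Agent.Lib.MP_a47f92_an
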