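import Pool.Agent.Lib.MP_a47f92_an.G.Tst
import Pool.Agent.Lib.MP_a47f92_an.G.Mt

set_option autoImplicit false
set_option linter.unusedSectionVars false

namespace Pool.Agent.Lib.MP_a47f92_an

open MeasureTheory Filter Topology Set Complex Metric Function
open scoped ContDiff ComplexConjugate ComplexOrder Matrix ENNReal NNReal

/-! Positive measurable forms. -/

variable {n p d : ℕ} {q : Fin p → E n → ℝ} {F : E n → E n} {g : Fr n p → ℝ}

theorem PTs_kill0 {θ : E n [⋀^Fin p]→ₗ[ℂ] ℂ} {z : E n} (h : ∀ v j, v j = z → θ v = 0)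
    {v : Fin p → E n} {j : Fin p} {c : ℂ} (hv : v j = c • z) : θ v = 0 := by
  rw [← update_eq_self j v, hv, θ.map_update_smul, h _ j (update_self _ _ _), smul_zero]

theorem PTs_kill {θ : E n [⋀^Fin p]→ₗ[ℂ] ℂ} {z : E n} (h : ∀ v j, v j = z → θ v = 0)
    (w : Fin p → E n) (c : Fin p → ℂ) : θ (fun j => w j + c j • z) = θ w := by
  refine (θ.toMultilinearMap.map_add_univ w fun j => c j • z).trans ?_
  rw [Finset.sum_eq_single Finset.univ, Finset.piecewise_univ]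
  · rfl
  · intro s _ hs
    obtain ⟨j, hj⟩ := not_forall.1 fun h => hs (Finset.eq_univ_of_forall h)
    exact PTs_kill0 h (Finset.piecewise_eq_of_notMem _ _ _ hj)
  · exact fun h => absurd (Finset.mem_univ _) h

theorem PTs_det (θ : E n [⋀^Fin p]→ₗ[ℂ] ℂ) (P : Mat p) (v : Fin p → E n) :
    θ (fun j => ∑ i, P i j • v i) = P.det * θ v := by
  have h := DFunLike.congr_fun ((θ.compLinearMap (Fintype.linearCombination ℂ v)).eq_smul_basis_det
    (Pi.basisFun ℂ (Fin p))) fun j i => P i j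
  rw [Pi.basisFun_det, AlternatingMap.smul_apply, AlternatingMap.compLinearMap_apply,
    AlternatingMap.compLinearMap_apply] at h
  simp only [Pi.basisFun_apply, Fintype.linearCombination_apply_single, one_smul] at h
  rw [← Matrix.det_transpose, mul_comm]
  exact h

theorem measurable_dn (hq : Pots q) : Measurable (dn q) := by
  classical
  have h := ContinuousOn.measurable_piecewise (s := {x : Fr n p | x.1 = 0}) (f := fun _ => (0 : ℝ))
    (g := fun x => (dc q x).re) continuousOn_const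
    (continuous_re.comp_continuousOn (tst_dc hq).cont)
    (isClosed_eq continuous_fst continuous_const).measurableSet
  refine (congrArg Measurable (funext fun x => ?_)).mp h
  by_cases hx : x.1 = 0 <;> simp [dn, Set.piecewise, hx]

theorem measurable_dens : Measurable (dens : Fr n p → ℝ) :=
  measurable_dn fun _ => ⟨1, lh_lg⟩

theorem dn_nonneg (hq : PPs q) (x : Fr n p) : 0 ≤ dn q x := by
  unfold dn
  split_ifs with hx
  · exact le_rfl
  · exact md_nonneg fun l => (hq l).choose_spec.lv_psd hx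

theorem pt_dn (hq : PPs q) : PT (dn q) := by
  refine ⟨measurable_dn hq.pots, fun x hx => if_pos hx, fun c hc x => ?_, fun z hz => ?_⟩
  · by_cases hx : x.1 = 0
    · rw [dn, dn, if_pos hx, if_pos (show (scl c x).1 = 0 from smul_eq_zero_of_right c hx)]
    · rw [dn, dn, if_neg hx, if_neg (show ¬(scl c x).1 = 0 from smul_ne_zero hc hx),
        (tst_dc hq.pots).alg.hs c hc x hx]
  · choose D hD using hq
    obtain ⟨ι, i, θ, h1, h2⟩ := exists_alt_md (H := fun l => hess (q l) z)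
      (fun l => psd_hess ((hD l).lh.contDiffAt2 hz) ((hD l).psh z hz))
      fun l => (euler_hess (hD l).lh.1 (hD l).lh.2 hz).1
    refine ⟨ι, i, θ, h1, fun v => ?_⟩
    rw [dn, if_neg hz, ← h2]
    exact congrArg md (funext fun l => gl_eq_rs ((hD l).lh.contDiffAt2 hz) v)

theorem PT.nonneg (h : PT g) (x : Fr n p) : 0 ≤ g x := by
  by_cases hx : x.1 = 0
  · exact (h.zero x hx).ge
  · obtain ⟨ι, i, θ, -, h2⟩ := h.sos _ hx
    exact (h2 x.2).ge.trans' (Finset.sum_nonneg fun i _ => by positivity)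

theorem PT.mul_left (h : PT g) {a : E n → ℝ} (hm : Measurable a) (hi : Inv0 a) (h0 : ∀ z, 0 ≤ a z) :
    PT fun x => a x.1 * g x := by
  refine ⟨(hm.comp measurable_fst).mul h.meas, fun x hx => by rw [h.zero x hx, mul_zero],
    fun c hc x => ?_, fun z hz => ?_⟩
  · rw [h.hs c hc]
    by_cases hx : x.1 = 0
    · rw [h.zero x hx, mul_zero, mul_zero]
    · exact congrArg (· * g x) (hi c hc _ hx)
  · obtain ⟨ι, i, θ, h1, h2⟩ := h.sos z hz
    refine ⟨ι, i, fun i => ((√(a z) : ℝ) : ℂ) • θ i, fun i v j hv => ?_, fun v => ?_⟩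
    · rw [AlternatingMap.smul_apply, h1 i v j hv, smul_zero]
    · rw [h2, Finset.mul_sum]
      refine Finset.sum_congr rfl fun i _ => ?_
      rw [AlternatingMap.smul_apply, norm_smul, mul_pow, Complex.norm_real,
        Real.norm_of_nonneg (Real.sqrt_nonneg _), Real.sq_sqrt (h0 z)]

theorem PT.alg (h : PT g) : Alg fun x => (g x : ℂ) := by
  refine ⟨fun c hc x _ => by rw [h.hs c hc], fun P c x hx => ?_⟩
  obtain ⟨ι, i, θ, h1, h2⟩ := h.sos _ hx
  rw [← ofReal_mul, chg, h2, h2 x.2, Finset.mul_sum]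
  refine congrArg _ (Finset.sum_congr rfl fun i _ => ?_)
  rw [PTs_kill (h1 i), PTs_det, norm_mul, mul_pow]

theorem PT.comp_fw (h : PT g) (hF : IsLift d F) (hd : 1 ≤ d) : PT fun x => g (fw F x) := by
  refine ⟨h.meas.comp (continuous_fw hF).measurable, fun x hx => h.zero _ ?_, fun c hc x => ?_,
    fun z hz => ?_⟩
  · change F x.1 = 0
    rw [hx, hF.zero hd]
  · rw [← h.hs (c ^ d) (pow_ne_zero _ hc) (fw F x)]
    refine congrArg g (Prod.ext (hF.hom c x.1) (funext fun j => ?_))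
    change fderiv ℂ F (c • x.1) (c • x.2 j) = c ^ d • fderiv ℂ F x.1 (x.2 j)
    rw [hF.fderiv_smul hd hc, map_smul, _root_.smul_apply, smul_smul, ← pow_succ',
      Nat.sub_add_cancel hd]
  · obtain ⟨ι, i, θ, h1, h2⟩ := h.sos _ (hF.ne hz)
    exact ⟨ι, i, fun i => (θ i).compLinearMap (fderiv ℂ F z : E n →ₗ[ℂ] E n),
      fun i v j hv => PTs_kill0 (h1 i) (j := j) ((congrArg (fderiv ℂ F z) hv).trans (hF.euler z)),
      fun v => h2 _⟩

theorem PT.comp_su {g : Fr n (p + 1) → ℝ} (h : PT g) {T : E n →L[ℂ] E n} (hT : ∀ z, T z = 0 → z = 0)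
    (B : E n →L[ℂ] E n) : PT fun x : Fr n p => g (su T B x) := by
  refine ⟨h.meas.comp (continuous_su.comp
    (continuous_const.prodMk (continuous_const.prodMk continuous_id))).measurable,
    fun x hx => h.zero _ ?_, fun c hc x => ?_, fun z hz => ?_⟩
  · change T x.1 = 0
    rw [hx, map_zero]
  · rw [← h.hs c hc (su T B x)]
    refine congrArg g (Prod.ext (map_smul T c x.1) (funext fun j => ?_))
    refine Fin.cases ?_ (fun j => ?_) j
    · exact map_smul B c x.1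
    · exact map_smul T c (x.2 j)
  · obtain ⟨ι, i, θ, h1, h2⟩ := h.sos _ fun e => hz (hT z e)
    exact ⟨ι, i, fun i => ((θ i).curryLeft (B z)).compLinearMap (T : E n →ₗ[ℂ] E n),
      fun i v j hv => h1 i _ j.succ (congrArg T hv), fun v => h2 _⟩

theorem PTs_le (h : PT g) (z : E n) (v : Fin p → E n) : g (z, v) ≤ ‖plk v‖ ^ 2 * hat g z := by
  by_cases hz : z = 0
  · rw [h.zero _ hz]
    exact mul_nonneg (sq_nonneg _) (Finset.sum_nonneg fun J _ => h.nonneg _)
  obtain ⟨ι, i, θ, -, h2⟩ := h.sos _ hz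
  simp only [hat, h2]
  rw [Finset.sum_comm, Finset.mul_sum]
  refine Finset.sum_le_sum fun i _ => ?_
  refine (pow_le_pow_left₀ (norm_nonneg _) (alt_le (θ i) v) 2).trans_eq ?_
  rw [mul_pow, an, Real.sq_sqrt (Finset.sum_nonneg fun J _ => sq_nonneg _), mul_comm]

theorem PTs_shift (h : PT g) (z : E n) (v : Fin p → E n) (c : Fin p → ℂ) :
    g (z, fun j => v j + c j • z) = g (z, v) := by
  by_cases hz : z = 0
  · rw [h.zero _ hz, h.zero _ hz]
  obtain ⟨ι, i, θ, h1, h2⟩ := h.sos _ hz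
  rw [h2, h2]
  exact Finset.sum_congr rfl fun i _ => by rw [PTs_kill (h1 i)]

theorem PTs_smul (h : PT g) (z : E n) (v : Fin p → E n) (c : ℂ) :
    g (z, fun j => c • v j) = (‖c‖ ^ p) ^ 2 * g (z, v) := by
  by_cases hz : z = 0
  · rw [h.zero _ hz, h.zero _ hz, mul_zero]
  obtain ⟨ι, i, θ, -, h2⟩ := h.sos _ hz
  rw [h2, h2, Finset.mul_sum]
  refine Finset.sum_congr rfl fun i _ => ?_
  rw [(θ i).map_smul_univ (fun _ => c) v, Finset.prod_const, Finset.card_univ, Fintype.card_fin,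
    norm_smul, norm_pow, mul_pow]

theorem PT.le (h : PT g) (z : E n) (v : Fin p → E n) :
    g (z, v) ≤ ‖plk fun j => prj (un z) (v j)‖ ^ 2 * hat g z := by
  choose c hc using fun j => sub_prj_un z (v j)
  exact ((congrArg (fun w => g (z, w)) (funext hc)).trans (PTs_shift h z _ c)).trans_le
    (PTs_le h z _)

theorem PT.hat_nonneg (h : PT g) (w : E n) : 0 ≤ hat g w :=
  Finset.sum_nonneg fun _ _ => h.nonneg _

theorem PT.measurable_hat (h : PT g) : Measurable (hat g) :=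
  Finset.measurable_sum _ fun _ _ => h.meas.comp (measurable_id.prodMk measurable_const)

theorem PT.hat_smul (h : PT g) {c : ℂ} (hc : c ≠ 0) (w : E n) :
    hat g (c • w) = ((‖c‖ ^ p) ^ 2)⁻¹ * hat g w := by
  rw [hat, hat, Finset.mul_sum]
  refine Finset.sum_congr rfl fun J _ => ?_
  rw [← inv_pow, ← inv_pow, ← norm_inv, ← PTs_smul h, ← h.hs c hc (w, _)]
  exact congrArg (fun v => g (c • w, v)) (funext fun j => (smul_inv_smul₀ hc _).symm)

theorem PTs_un (h : PT g) (T : E n →L[ℂ] E n) {z : E n} (hz : z ≠ 0) :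
    hat g (T z) = ((‖z‖ ^ p) ^ 2)⁻¹ * hat g (T (un z)) := by
  have h0 : ‖z‖ ≠ 0 := norm_ne_zero_iff.2 hz
  have e : T z = ((‖z‖ : ℝ) : ℂ) • T (un z) := by
    rw [← map_smul, Complex.coe_smul, un, smul_inv_smul₀ h0]
  rw [e, h.hat_smul (ofReal_ne_zero.2 h0), Complex.norm_real, norm_norm]

theorem PTs_plk (n p : ℕ) : ∃ C : ℝ, 0 < C ∧ ∀ (T : E n →L[ℂ] E n) (x : Fr n p), ‖T‖ ≤ 2 →
    x.1 ≠ 0 → ‖plk fun j => T (prj (un x.1) (x.2 j))‖ ^ 2 ≤ C * dens x * (‖x.1‖ ^ p) ^ 2 := by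
  obtain ⟨C, hC, h⟩ := wn_le n p
  refine ⟨(C * 2 ^ p) ^ 2 * 2 ^ p, by positivity, fun T x hT hx => ?_⟩
  have h0 : ‖x.1‖ ≠ 0 := norm_ne_zero_iff.2 hx
  have h1 := (plk_map_le T fun j => prj (un x.1) (x.2 j)).trans (mul_le_mul_of_nonneg_right
    ((h n T).trans (mul_le_mul_of_nonneg_left (pow_le_pow_left₀ (norm_nonneg _) hT p) hC.le))
    (norm_nonneg _))
  refine (pow_le_pow_left₀ (norm_nonneg _) h1 2).trans_eq ?_
  rw [dens_eq hx, mul_pow 2, ← pow_mul, ← pow_mul, mul_comm 2 p]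
  field_simp

/-- Pointwise bounds for perturbed frames: `PT.le`, `norm_plk_cons`, `plk_map_le`, `wn_le`,
`norm_plk_cons_le`, `dens_eq`. -/
theorem pt_le_lin (n p : ℕ) : ∃ C : ℝ, 0 < C ∧ ∀ (g : Fr n p → ℝ) (t : ℂ) (A : E (n * n))
    (x : Fr n p), PT g → ‖t‖ ≤ 1 / 2 → ‖A‖ ≤ 1 →
      g (lin (Tm t A) x) ≤ C * dens x * hat g (Tm t A (un x.1)) := by
  obtain ⟨C, hC, h⟩ := PTs_plk n p
  refine ⟨C, hC, fun g t A x hg ht hA => ?_⟩
  by_cases hx : x.1 = 0
  · rw [hg.zero _ (show Tm t A x.1 = 0 by rw [hx, map_zero])]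
    exact mul_nonneg (mul_nonneg hC.le (dens_nonneg x)) (hg.hat_nonneg _)
  have h0 : ‖x.1‖ ≠ 0 := norm_ne_zero_iff.2 hx
  choose c hc using fun j => sub_prj_un x.1 (x.2 j)
  have e : g (lin (Tm t A) x) = g (Tm t A x.1, fun j => Tm t A (prj (un x.1) (x.2 j))) := by
    refine Eq.trans ?_ (PTs_shift hg _ _ c)
    refine congrArg (fun v => g (Tm t A x.1, v)) (funext fun j => ?_)
    rw [← map_smul, ← map_add, ← hc]
  rw [e]
  refine (PTs_le hg _ _).trans ((mul_le_mul_of_nonneg_right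
    (h _ x (norm_Tm ht hA 0).2.2 hx) (hg.hat_nonneg _)).trans_eq ?_)
  rw [PTs_un hg _ hx]
  field_simp

theorem pt_le_su (n p : ℕ) : ∃ C : ℝ, 0 < C ∧ ∀ (g : Fr n (p + 1) → ℝ) (t : ℂ) (A : E (n * n))
    (B : E n →L[ℂ] E n) (x : Fr n p), PT g → ‖t‖ ≤ 1 / 2 → ‖A‖ ≤ 1 → ‖B‖ ≤ 1 →
      g (su (Tm t A) B x) ≤ C * dens x * hat g (Tm t A (un x.1)) := by
  obtain ⟨C, hC, h⟩ := PTs_plk n p
  refine ⟨(p + 1) * C, by positivity, fun g t A B x hg ht hA hB => ?_⟩
  by_cases hx : x.1 = 0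
  · rw [hg.zero _ (show Tm t A x.1 = 0 by rw [hx, map_zero])]
    exact mul_nonneg (mul_nonneg (by positivity) (dens_nonneg x)) (hg.hat_nonneg _)
  have h0 : ‖x.1‖ ≠ 0 := norm_ne_zero_iff.2 hx
  choose c hc using fun j => sub_prj_un x.1 (x.2 j)
  have e : g (su (Tm t A) B x) =
      g (Tm t A x.1, Fin.cons (B x.1) fun j => Tm t A (prj (un x.1) (x.2 j))) := by
    refine Eq.trans ?_ (PTs_shift hg _ _ (Fin.cons 0 c))
    refine congrArg (fun v => g (Tm t A x.1, v)) (funext fun j => ?_)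
    refine Fin.cases ?_ (fun j => ?_) j
    · simp
    · simp only [Fin.cons_succ]
      rw [← map_smul, ← map_add, ← hc]
  rw [e]
  have h1 : ‖B x.1‖ ^ 2 ≤ ‖x.1‖ ^ 2 := pow_le_pow_left₀ (norm_nonneg _)
    ((B.le_of_opNorm_le hB _).trans_eq (one_mul _)) 2
  have h2 := (norm_plk_cons_le (B x.1) fun j => Tm t A (prj (un x.1) (x.2 j))).trans
    (mul_le_mul (mul_le_mul_of_nonneg_left h1 (by positivity)) (h _ x (norm_Tm ht hA 0).2.2 hx)
      (sq_nonneg _) (by positivity))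
  refine (PTs_le hg _ _).trans ((mul_le_mul_of_nonneg_right h2 (hg.hat_nonneg _)).trans_eq ?_)
  rw [PTs_un hg _ hx, pow_succ ‖x.1‖ p]
  field_simp

theorem PTs_eq_zero (h : PT g) {x : Fr n p} (hx : dens x = 0) : g x = 0 := by
  by_cases h0 : x.1 = 0
  · exact h.zero x h0
  have h1 : ‖x.1‖ ≠ 0 := norm_ne_zero_iff.2 h0
  rw [dens_eq h0, div_eq_zero_iff] at hx
  have h2 := h.le x.1 x.2
  rw [hx.resolve_right (by positivity), zero_mul] at h2
  exact h2.antisymm (h.nonneg x)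

theorem dens_fw (hF : IsLift d F) {z : E n} (hz : z ≠ 0) (v : Fin p → E n) :
    dens (fw F (z, v)) = ‖plk fun j => Bm F z (v j)‖ ^ 2 / (2 * ‖z‖ ^ 2) ^ p := by
  have h0 : ‖z‖ ≠ 0 := norm_ne_zero_iff.2 hz
  have h1 : ‖F z‖ ≠ 0 := norm_ne_zero_iff.2 (hF.ne hz)
  have e : (plk fun j => Bm F z (v j)) = _ :=
    plk_smul ((‖z‖ / ‖F z‖ : ℝ) : ℂ) fun j => prj (un (F z)) (fderiv ℂ F z (v j))
  rw [dens_eq (x := fw F (z, v)) (hF.ne hz), e, norm_smul, norm_pow, Complex.norm_real,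
    Real.norm_of_nonneg (by positivity)]
  simp only [fw, mul_pow, div_pow, ← pow_mul, mul_comm 2 p]
  field_simp

theorem hat_dens_fw (hF : IsLift d F) {z : E n} (hz : z ≠ 0) :
    hat (fun x : Fr n p => dens (fw F x)) z = wn p (Bm F z) ^ 2 / (2 * ‖z‖ ^ 2) ^ p := by
  rw [hat, wn, Real.sq_sqrt (Finset.sum_nonneg fun J _ => sq_nonneg _), Finset.sum_div]
  exact Finset.sum_congr rfl fun J _ => dens_fw hF hz _

theorem dens_fw_ne (hF : IsLift d F) (hd : 1 ≤ d) {x : Fr n p} (h : dens (fw F x) ≠ 0) :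
    dens x ≠ 0 := fun h0 =>
  h (PTs_eq_zero ((pt_dn (q := fun _ => lg) fun _ => ⟨1, pl_lg⟩).comp_fw hF hd) h0)

theorem dn_eq_zero (hq : Pots q) {x : Fr n p} (h : dens x = 0) : dn q x = 0 := by
  unfold dn
  split_ifs with hx
  · rfl
  · obtain ⟨C, -, hC⟩ := (tst_dc hq).bound
    have h1 := hC x hx
    rw [h, mul_zero, norm_le_zero_iff] at h1
    rw [h1, zero_re]

theorem PT.eq_zero (h : PT g) {x : Fr n p} (hx : dens x = 0) : g x = 0 :=
  PTs_eq_zero h hx

end Pool.Agent.Lib.MP_a47f92_an
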