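import Pool.Agent.Lib.MP_a47f92_an.G.Tst
import Pool.Agent.Lib.MP_a47f92_an.G.PTs
import Pool.Agent.Lib.MP_a47f92_an.G.NF

set_option autoImplicit false
set_option linter.unusedSectionVars false

namespace Pool.Agent.Lib.MP_a47f92_an

open MeasureTheory Filter Topology Set Complex Metric Function
open scoped ContDiff ComplexConjugate ComplexOrder Matrix ENNReal NNReal

/-! The pairing of a current with test forms. -/

variable {n p : ℕ} {S : Measure (Fr n p)} {q q' : Fin p → E n → ℝ} {a b u u' : E n → ℝ}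
  {g : Fr n p → ℂ} {D D' : ℝ}

/-- Bounded measurable functions. -/
structure BM (a : E n → ℝ) : Prop where
  meas : Measurable a
  bd : ∃ C : ℝ, ∀ z, |a z| ≤ C

theorem LH.bm (h : LH 0 a) : BM a := ⟨h.measurable, h.bound.imp fun _ hC => hC.2⟩

theorem bm_const (c : ℝ) : BM fun _ : E n => c := ⟨measurable_const, |c|, fun _ => le_rfl⟩

theorem BM.mul (h : BM a) (h' : BM b) : BM fun z => a z * b z := by
  obtain ⟨C, hC⟩ := h.bd
  obtain ⟨C', hC'⟩ := h'.bd
  refine ⟨h.meas.mul h'.meas, C * C', fun z => ?_⟩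
  rw [abs_mul]
  exact mul_le_mul (hC z) (hC' z) (abs_nonneg _) ((abs_nonneg _).trans (hC z))

theorem BM.sub (h : BM a) (h' : BM b) : BM fun z => a z - b z := by
  obtain ⟨C, hC⟩ := h.bd
  obtain ⟨C', hC'⟩ := h'.bd
  exact ⟨h.meas.sub h'.meas, C + C', fun z => (abs_sub _ _).trans (add_le_add (hC z) (hC' z))⟩

theorem BM.comp (h : BM a) {G : E n → E n} (hG : Measurable G) : BM fun z => a (G z) :=
  ⟨h.meas.comp hG, h.bd.imp fun _ hC z => hC (G z)⟩

theorem BM.indicator (h : BM a) {K : Set (E n)} (hK : MeasurableSet K) : BM (K.indicator a) := by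
  obtain ⟨C, hC⟩ := h.bd
  exact ⟨h.meas.indicator hK, C, fun z => (norm_indicator_le_norm_self a z).trans (hC z)⟩

theorem pots_lg : Pots fun _ : Fin p => (lg : E n → ℝ) := fun _ => ⟨1, lh_lg⟩

theorem pps_lg : PPs fun _ : Fin p => (lg : E n → ℝ) := fun _ => ⟨1, pl_lg⟩

theorem pps_gs {d : ℕ} {F : E n → E n} (hF : IsLift d F) (hd : 1 ≤ d) (m p : ℕ) :
    PPs (gs d F m p) := fun _ => ⟨1, pl_green hF hd m⟩

theorem IsCur.int_dens (h : IsCur S) : Integrable dens S :=
  h.int.congr (h.ne.mono fun _ hx => (if_neg hx).symm)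

theorem isCur_of (hs : SFinite S) (h0 : ∀ᵐ x ∂S, x.1 ≠ 0) (h : lp S dens ≠ ⊤) : IsCur S := by
  have hi : Integrable dens S := ⟨measurable_dens.aestronglyMeasurable,
    (hasFiniteIntegral_iff_ofReal (Eventually.of_forall dens_nonneg)).2 h.lt_top⟩
  exact ⟨hs, h0, hi.congr (h0.mono fun _ hx => if_neg hx)⟩

/-- A function continuous on the open set `x.1 ≠ 0`, which has full measure. -/
theorem IsCur.aesm (h : IsCur S) {Y : Type} [NormedAddCommGroup Y] [SecondCountableTopology Y]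
    {g : Fr n p → Y} (hg : ContinuousOn g {x | x.1 ≠ 0}) : AEStronglyMeasurable g S := by
  have hm : MeasurableSet {x : Fr n p | x.1 ≠ 0} :=
    (isOpen_compl_singleton.preimage continuous_fst).measurableSet
  have h1 := hg.aestronglyMeasurable (μ := S) hm
  rwa [Measure.restrict_eq_self_of_ae_mem (s := {x : Fr n p | x.1 ≠ 0}) h.ne] at h1

theorem IsCur.integrable_of_bound (h : IsCur S) {Y : Type} [NormedAddCommGroup Y] {g : Fr n p → Y}
    (hm : AEStronglyMeasurable g S) {C : ℝ} (hb : ∀ x : Fr n p, x.1 ≠ 0 → ‖g x‖ ≤ C * dens x) :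
    Integrable g S :=
  (h.int_dens.const_mul C).mono' hm (h.ne.mono hb)

theorem IsCur.integrable (h : IsCur S) (hg : Tst g) : Integrable g S :=
  hg.bound.elim fun _ hC => h.integrable_of_bound (h.aesm hg.cont) hC.2

theorem Pots.dn_le (hq : Pots q) : ∃ C : ℝ, 0 ≤ C ∧ ∀ x, |dn q x| ≤ C * dens x := by
  obtain ⟨C, h0, hC⟩ := (tst_dc hq).bound
  refine ⟨C, h0, fun x => ?_⟩
  by_cases hx : x.1 = 0
  · rw [dn, if_pos hx, abs_zero]
    exact mul_nonneg h0 (dens_nonneg x)
  · rw [dn, if_neg hx]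
    exact (abs_re_le_norm _).trans (hC x hx)

theorem IsCur.int_dn (h : IsCur S) (hq : Pots q) : Integrable (dn q) S :=
  hq.dn_le.elim fun _ hC =>
    h.integrable_of_bound (measurable_dn hq).aestronglyMeasurable fun x _ => hC.2 x

theorem IsCur.int_mul_dn (h : IsCur S) (ha : BM a) (hq : Pots q) :
    Integrable (fun x => a x.1 * dn q x) S :=
  ha.bd.elim fun _ hC => (h.int_dn hq).bdd_mul
    (ha.meas.comp measurable_fst).aestronglyMeasurable (Eventually.of_forall fun x => hC x.1)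

theorem IsCur.pr_eq (h : IsCur S) (a : E n → ℝ) (q : Fin p → E n → ℝ) :
    pr S a q = ∫ x, a x.1 * dn q x ∂S :=
  integral_congr_ae (h.ne.mono fun x hx => congrArg (a x.1 * ·) (if_neg hx).symm)

theorem IsCur.p1_eq (h : IsCur S) (q : Fin p → E n → ℝ) : p1 S q = ∫ x, dn q x ∂S := by
  rw [p1, h.pr_eq]
  simp only [one_mul]

theorem IsCur.mass_eq (h : IsCur S) : mass S = ∫ x, dens x ∂S := h.p1_eq _

theorem IsCur.pr_eqC (h : IsCur S) (a : E n → ℝ) (hq : Pots q) :
    (pr S a q : ℂ) = ∫ x, (a x.1 : ℂ) * dc q x ∂S := by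
  rw [h.pr_eq, ← integral_complex_ofReal]
  refine integral_congr_ae (h.ne.mono fun x hx => ?_)
  change ((a x.1 * dn q x : ℝ) : ℂ) = (a x.1 : ℂ) * dc q x
  rw [dc_eq_dn hq hx, ofReal_mul]

theorem IsCur.p1_eqC (h : IsCur S) (hq : Pots q) : (p1 S q : ℂ) = ∫ x, dc q x ∂S := by
  rw [p1, h.pr_eqC _ hq]
  simp only [ofReal_one, one_mul]

/-- Real and imaginary parts of the coefficient. -/
theorem IsCur.integral_ic (h : IsCur S) {a : E n → ℂ} (ha : IC a) (hq : Pots q) :
    ∫ x, a x.1 * dc q x ∂S =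
      (pr S (fun z => (a z).re) q : ℂ) + I * (pr S (fun z => (a z).im) q : ℂ) := by
  rw [h.pr_eqC _ hq, h.pr_eqC _ hq, ← integral_const_mul, ← integral_add
    (h.integrable ((tst_dc hq).mul_left ha.re.ic))
    ((h.integrable ((tst_dc hq).mul_left ha.im.ic)).const_mul I)]
  refine integral_congr_ae (Eventually.of_forall fun x => ?_)
  change a x.1 * dc q x = ((a x.1).re : ℂ) * dc q x + I * (((a x.1).im : ℂ) * dc q x)
  linear_combination -dc q x * re_add_im (a x.1)

theorem IsCur.mass_nonneg (h : IsCur S) : 0 ≤ mass S := by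
  rw [h.mass_eq]
  exact integral_nonneg dens_nonneg

theorem IsCur.norm_integral_le (h : IsCur S) {Y : Type} [NormedAddCommGroup Y] [NormedSpace ℝ Y]
    {g : Fr n p → Y} {C : ℝ} (hb : ∀ x : Fr n p, x.1 ≠ 0 → ‖g x‖ ≤ C * dens x) :
    ‖∫ x, g x ∂S‖ ≤ C * mass S := by
  rw [h.mass_eq, ← integral_const_mul]
  exact norm_integral_le_of_norm_le (h.int_dens.const_mul C) (h.ne.mono hb)

theorem IsCur.pr_congr (h : IsCur S) (ha : ∀ z, z ≠ 0 → a z = b z)
    (hq : ∀ l z, z ≠ 0 → q l z = q' l z) : pr S a q = pr S b q' := by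
  refine integral_congr_ae (h.ne.mono fun x hx => ?_)
  have e : (fun l => lv (q l) x) = fun l => lv (q' l) x := funext fun l =>
    gl_congr (GL_rc ((eventually_ne_nhds hx).mono fun z hz => hq l z hz)) x.2
  change a x.1 * (mdC fun l => lv (q l) x).re = b x.1 * (mdC fun l => lv (q' l) x).re
  rw [e, ha _ hx]

theorem IsCur.pr_add_left (h : IsCur S) (ha : BM a) (hb : BM b) (hq : Pots q) :
    pr S (fun z => a z + b z) q = pr S a q + pr S b q := by
  rw [h.pr_eq, h.pr_eq, h.pr_eq, ← integral_add (h.int_mul_dn ha hq) (h.int_mul_dn hb hq)]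
  simp only [add_mul]

theorem IsCur.pr_sub_left (h : IsCur S) (ha : BM a) (hb : BM b) (hq : Pots q) :
    pr S (fun z => a z - b z) q = pr S a q - pr S b q := by
  rw [h.pr_eq, h.pr_eq, h.pr_eq, ← integral_sub (h.int_mul_dn ha hq) (h.int_mul_dn hb hq)]
  simp only [sub_mul]

theorem pr_const_mul_left (S : Measure (Fr n p)) (c : ℝ) (a : E n → ℝ) (q : Fin p → E n → ℝ) :
    pr S (fun z => c * a z) q = c * pr S a q := by
  simp only [pr, mul_assoc, integral_const_mul]

theorem pr_const_left (S : Measure (Fr n p)) (c : ℝ) (q : Fin p → E n → ℝ) :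
    pr S (fun _ => c) q = c * p1 S q := by
  rw [p1, ← pr_const_mul_left]
  simp only [mul_one]

theorem IsCur.pr_sum_left (h : IsCur S) {ι : Type} (T : Finset ι) {a : ι → E n → ℝ}
    (ha : ∀ i ∈ T, BM (a i)) (hq : Pots q) :
    pr S (fun z => ∑ i ∈ T, a i z) q = ∑ i ∈ T, pr S (a i) q := by
  simp only [h.pr_eq, Finset.sum_mul]
  exact integral_finsetSum T fun i hi => h.int_mul_dn (ha i hi) hq

theorem pr_perm (S : Measure (Fr n p)) (a : E n → ℝ) (q : Fin p → E n → ℝ)
    (τ : Equiv.Perm (Fin p)) : pr S a (q ∘ τ) = pr S a q :=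
  integral_congr_ae (Eventually.of_forall fun x =>
    congrArg (fun t : ℂ => a x.1 * t.re) (mdC_perm (fun l => lv (q l) x) τ))

theorem Cur1_add (hu : LH D u) (hu' : LH D' u') {x : Fr n p} (hx : x.1 ≠ 0) :
    gl (rc fun z => u z + u' z) x.1 x.2 = gl (rc u) x.1 x.2 + gl (rc u') x.1 x.2 := by
  rw [show (rc fun z => u z + u' z) = fun w => rc u w + rc u' w from
    funext fun w => ofReal_add _ _, gl_add (LHb_rc hu hx) (LHb_rc hu' hx)]

theorem Cur1_smul (c : ℝ) (u : E n → ℝ) (x : Fr n p) :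
    gl (rc fun z => c * u z) x.1 x.2 = (c : ℂ) • gl (rc u) x.1 x.2 := by
  rw [show (rc fun z => c * u z) = fun w => c * rc u w from funext fun w => ofReal_mul _ _,
    gl_const_mul]

theorem IsCur.pr_update_add (h : IsCur S) (ha : BM a) (hq : Pots q) (l : Fin p) (hu : LH D u)
    (hu' : LH D' u') : pr S a (update q l fun z => u z + u' z) =
      pr S a (update q l u) + pr S a (update q l u') := by
  rw [h.pr_eq, h.pr_eq, h.pr_eq, ← integral_add (h.int_mul_dn ha (hq.update l hu))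
    (h.int_mul_dn ha (hq.update l hu'))]
  refine integral_congr_ae (h.ne.mono fun x hx => ?_)
  change _ * dn _ x = _ * dn _ x + _ * dn _ x
  rw [dn, dn, dn, if_neg hx, if_neg hx, if_neg hx, dc_update, dc_update, dc_update,
    Cur1_add hu hu' hx, mdC_update_add, add_re, mul_add]

theorem IsCur.pr_update_sub (h : IsCur S) (ha : BM a) (hq : Pots q) (l : Fin p) (hu : LH D u)
    (hu' : LH D' u') : pr S a (update q l fun z => u z - u' z) =
      pr S a (update q l u) - pr S a (update q l u') := by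
  rw [eq_sub_iff_add_eq, ← h.pr_update_add ha hq l (hu.sub hu') hu']
  simp only [sub_add_cancel]

theorem pr_update_const_mul (S : Measure (Fr n p)) (a : E n → ℝ) (q : Fin p → E n → ℝ) (l : Fin p)
    (c : ℝ) (u : E n → ℝ) :
    pr S a (update q l fun z => c * u z) = c * pr S a (update q l u) := by
  rw [pr, pr, ← integral_const_mul]
  refine integral_congr_ae (Eventually.of_forall fun x => ?_)
  change _ * (dc _ x).re = c * (_ * (dc _ x).re)
  rw [dc_update, dc_update, Cur1_smul, mdC_update_smul, re_ofReal_mul, mul_left_comm]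

theorem pr_update_const (S : Measure (Fr n p)) (a : E n → ℝ) (q : Fin p → E n → ℝ) (l : Fin p)
    (c : ℝ) : pr S a (update q l fun _ => c) = 0 := by
  have e : ∀ x : Fr n p, dc (update q l fun _ => c) x = 0 := fun x => by
    rw [dc_update]
    exact mdC_eq_zero (l := l) ((update_self _ _ _).trans (gl_const (c : ℂ) x.1 x.2))
  refine integral_eq_zero_of_ae (Eventually.of_forall fun x => ?_)
  change _ * (dc _ x).re = 0
  rw [e, zero_re, mul_zero]

theorem pr_const_mul_all (S : Measure (Fr n p)) (a : E n → ℝ) (q : Fin p → E n → ℝ)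
    (c : Fin p → ℝ) : pr S a (fun l z => c l * q l z) = (∏ l, c l) * pr S a q := by
  rw [pr, pr, ← integral_const_mul]
  refine integral_congr_ae (Eventually.of_forall fun x => ?_)
  have e : (fun l => lv (fun z => c l * q l z) x) = fun l => (c l : ℂ) • lv (q l) x :=
    funext fun l => Cur1_smul (c l) (q l) x
  change _ * (mdC fun l => lv (fun z => c l * q l z) x).re = _ * (_ * _)
  rw [e, mdC_smul, ← ofReal_prod, re_ofReal_mul, mul_left_comm]

theorem IsCur.pr_nonneg (h : IsCur S) (ha : ∀ z, z ≠ 0 → 0 ≤ a z) (hq : PPs q) : 0 ≤ pr S a q := by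
  rw [h.pr_eq]
  exact integral_nonneg_of_ae (h.ne.mono fun x hx => mul_nonneg (ha _ hx) (dn_nonneg hq x))

theorem IsCur.p1_nonneg (h : IsCur S) (hq : PPs q) : 0 ≤ p1 S q :=
  h.pr_nonneg (fun _ _ => zero_le_one) hq

theorem IsCur.pr_mono_left (h : IsCur S) (ha : BM a) (hb : BM b) (hab : ∀ z, z ≠ 0 → a z ≤ b z)
    (hq : PPs q) : pr S a q ≤ pr S b q := by
  rw [← sub_nonneg, ← h.pr_sub_left hb ha hq.pots]
  exact h.pr_nonneg (fun z hz => sub_nonneg.2 (hab z hz)) hq

theorem IsCur.abs_pr_le (h : IsCur S) {C : ℝ} (ha : ∀ z, z ≠ 0 → |a z| ≤ C) (hq : PPs q) :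
    |pr S a q| ≤ C * p1 S q := by
  rw [h.pr_eq, h.p1_eq, ← integral_const_mul, ← Real.norm_eq_abs]
  refine norm_integral_le_of_norm_le ((h.int_dn hq.pots).const_mul C) (h.ne.mono fun x hx => ?_)
  rw [Real.norm_eq_abs, abs_mul, abs_of_nonneg (dn_nonneg hq x)]
  exact mul_le_mul_of_nonneg_right (ha _ hx) (dn_nonneg hq x)

/-- Use `md_mono`. -/
theorem IsCur.pr_mono (h : IsCur S) (ha : BM a) (ha0 : ∀ z, z ≠ 0 → 0 ≤ a z) (hq : PPs q)
    (hq' : ∀ l, ∃ D, PL D fun z => q' l z - q l z) : pr S a q ≤ pr S a q' := by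
  have h1 : Pots q' := fun l => by
    obtain ⟨D, hD⟩ := hq l
    obtain ⟨D', hD'⟩ := hq' l
    exact ⟨_, (hD.lh.add hD'.lh).congr fun z _ => (add_sub_cancel _ _).symm⟩
  rw [h.pr_eq, h.pr_eq]
  refine integral_mono_ae (h.int_mul_dn ha hq.pots) (h.int_mul_dn ha h1)
    (h.ne.mono fun x hx => mul_le_mul_of_nonneg_left ?_ (ha0 _ hx))
  rw [dn, dn, if_neg hx, if_neg hx]
  refine md_mono (fun l => (hq l).choose_spec.lv_psd hx) fun l => ?_
  obtain ⟨D, hD⟩ := hq l
  obtain ⟨D', hD'⟩ := hq' l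
  have e := Cur1_add hD.lh hD'.lh hx
  simp only [add_sub_cancel] at e
  have e' : lv (q' l) x - lv (q l) x = lv (fun z => q' l z - q l z) x :=
    sub_eq_iff_eq_add'.2 e
  rw [e']
  exact hD'.lv_psd hx

theorem Pots.pr_le (hq : Pots q) : ∃ C : ℝ, 0 ≤ C ∧ ∀ (S : Measure (Fr n p)) (a : E n → ℝ) (c : ℝ),
    IsCur S → (∀ z, z ≠ 0 → |a z| ≤ c) → |pr S a q| ≤ C * c * mass S := by
  obtain ⟨C, h0, hC⟩ := hq.dn_le
  refine ⟨C, h0, fun S a c h ha => ?_⟩
  rw [h.pr_eq]
  refine h.norm_integral_le (g := fun x => a x.1 * dn q x) fun x hx => ?_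
  rw [Real.norm_eq_abs, abs_mul, mul_comm C, mul_assoc]
  exact mul_le_mul (ha _ hx) (hC x) (abs_nonneg _) ((abs_nonneg _).trans (ha _ hx))

/-- The family which uses `q'` before the slot `l` and `q` from the slot `l` on. -/
def mxq {α : Type} (q q' : Fin p → α) (l : Fin p) : Fin p → α := fun j => if j < l then q' j else q j

theorem mxq_forall {α : Type} {P : Fin p → α → Prop} {q q' : Fin p → α} (h : ∀ l, P l (q l))
    (h' : ∀ l, P l (q' l)) (l j : Fin p) : P j (mxq q q' l j) := by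
  unfold mxq
  split_ifs
  exacts [h' j, h j]

/-- Telescoping. -/
theorem IsCur.pr_telescope (h : IsCur S) (ha : BM a) (hq : Pots q) (hq' : Pots q') :
    pr S a q' - pr S a q = ∑ l, pr S a (update (mxq q q' l) l fun z => q' l z - q l z) := by
  let M : ℕ → Fin p → E n → ℝ := fun k j => if (j : ℕ) < k then q' j else q j
  have h0 : M 0 = q := funext fun j => if_neg (Nat.not_lt_zero _)
  have h1 : M p = q' := funext fun j => if_pos j.2
  rw [show pr S a q' - pr S a q = pr S a (M p) - pr S a (M 0) by rw [h0, h1],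
    ← Finset.sum_range_sub (fun k => pr S a (M k)), Finset.sum_range]
  refine Finset.sum_congr rfl fun l _ => ?_
  obtain ⟨D, hD⟩ := hq l
  obtain ⟨D', hD'⟩ := hq' l
  have e1 : update (mxq q q' l) l (q' l) = M (l + 1) := funext fun j => by
    rcases eq_or_ne j l with rfl | hj
    · rw [update_self]
      exact (if_pos (Nat.lt_succ_self _)).symm
    · rw [update_of_ne hj]
      refine if_congr ?_ rfl rfl
      have : (j : ℕ) ≠ l := fun e => hj (Fin.ext e)
      rw [Fin.lt_def]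
      omega
  have e2 : update (mxq q q' l) l (q l) = M l := funext fun j => by
    rcases eq_or_ne j l with rfl | hj
    · rw [update_self]
      exact (if_neg (lt_irrefl _)).symm
    · rw [update_of_ne hj]
      rfl
  rw [h.pr_update_sub ha (mxq_forall (P := fun _ u => ∃ D, LH D u) hq hq' l) l hD' hD, e1, e2]

section Cons

variable {S : Measure (Fr n (p + 1))}

theorem IsCur.pr_cons_add (h : IsCur S) (ha : BM a) (hq : Pots q) (hu : LH D u) (hu' : LH D' u') :
    pr S a (Fin.cons (fun z => u z + u' z) q) = pr S a (Fin.cons u q) + pr S a (Fin.cons u' q) := by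
  simpa only [Fin.update_cons_zero] using h.pr_update_add ha (hq.cons hu) 0 hu hu'

theorem IsCur.pr_cons_sub (h : IsCur S) (ha : BM a) (hq : Pots q) (hu : LH D u) (hu' : LH D' u') :
    pr S a (Fin.cons (fun z => u z - u' z) q) = pr S a (Fin.cons u q) - pr S a (Fin.cons u' q) := by
  simpa only [Fin.update_cons_zero] using h.pr_update_sub ha (hq.cons hu) 0 hu hu'

theorem pr_cons_const_mul (S : Measure (Fr n (p + 1))) (a : E n → ℝ) (q : Fin p → E n → ℝ) (c : ℝ)
    (u : E n → ℝ) : pr S a (Fin.cons (fun z => c * u z) q) = c * pr S a (Fin.cons u q) := by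
  simpa only [Fin.update_cons_zero] using pr_update_const_mul S a (Fin.cons u q) 0 c u

theorem IsCur.pr_cons_sum (h : IsCur S) (ha : BM a) (hq : Pots q) {ι : Type} (T : Finset ι)
    {u : ι → E n → ℝ} (hu : ∀ i ∈ T, ∃ D, LH D (u i)) :
    pr S a (Fin.cons (fun z => ∑ i ∈ T, u i z) q) = ∑ i ∈ T, pr S a (Fin.cons (u i) q) := by
  classical
  have key : (∃ D, LH D fun z => ∑ i ∈ T, u i z) ∧
      pr S a (Fin.cons (fun z => ∑ i ∈ T, u i z) q) = ∑ i ∈ T, pr S a (Fin.cons (u i) q) := by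
    induction T using Finset.induction_on with
    | empty =>
      simp only [Finset.sum_empty]
      refine ⟨⟨0, lh_const 0⟩, ?_⟩
      simpa only [Fin.update_cons_zero] using pr_update_const S a (Fin.cons (fun _ => 0) q) 0 0
    | insert i T hi ih =>
      obtain ⟨⟨D, hD⟩, e⟩ := ih fun j hj => hu j (Finset.mem_insert_of_mem hj)
      obtain ⟨D', hD'⟩ := hu i (Finset.mem_insert_self _ _)
      simp only [Finset.sum_insert hi]
      exact ⟨⟨_, hD'.add hD⟩, by rw [h.pr_cons_add ha hq hD' hD, e]⟩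
  exact key.2

/-- Use `cons_succAbove_perm`. -/
theorem pr_update_eq_cons (S : Measure (Fr n (p + 1))) (a : E n → ℝ) (q : Fin (p + 1) → E n → ℝ)
    (l : Fin (p + 1)) (u : E n → ℝ) :
    pr S a (update q l u) = pr S a (Fin.cons u fun j => q (l.succAbove j)) := by
  rw [← pr_perm S a _ l.cycleRange.symm, ← Fin.cons_removeNth_eq_comp_cycleRange_symm,
    update_self, Fin.removeNth_update]
  rfl

theorem cons_const {α : Type} (u : α) : (Fin.cons u fun _ : Fin p => u) = fun _ : Fin (p + 1) => u :=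
  funext fun i => Fin.cases rfl (fun _ => rfl) i

end Cons

end Pool.Agent.Lib.MP_a47f92_an
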