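import Pool.Agent.Lib.MP_a47f92_an.G.DOk
import Pool.Agent.Lib.MP_a47f92_an.G.DUp

set_option autoImplicit false
set_option linter.unusedSectionVars false

namespace Pool.Agent.Lib.MP_a47f92_an

open MeasureTheory Filter Topology Set Complex Metric Function
open scoped ContDiff ComplexConjugate ComplexOrder Matrix ENNReal NNReal

/-! Step 7: the angle is bounded below with large probability. -/

variable {n d s : ℕ} {F : E n → E n} {τ φ φ' : Measure (Fr n s)} {Ψ Y Y' : Measure (Fr n (s + 1))}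
  {ν σ : Measure (E n)} {Z : Set (E n)} {δ : ℝ}

theorem DAng_sum {N w : ℕ} {H x : ℕ → ℝ} {U lo hi : ℝ} (h0 : ∀ i < N, 0 ≤ H i - x (i + w) + x i)
    (hU : ∀ i < N, H i ≤ U) (hlo : ∀ j < w, lo ≤ x (N + j)) (hhi : ∀ j < w, x j ≤ hi)
    {S : Finset ℕ} {e : ℕ → ℕ} (he : InjOn e S) (hS : ∀ m ∈ S, e m < N) :
    ∑ m ∈ S, (H (e m) - x (e m + w) + x (e m)) ≤ N * U - w * (lo - hi) := by
  rw [← Finset.sum_image (f := fun i => H i - x (i + w) + x i) he]
  refine (Finset.sum_le_sum_of_subset_of_nonneg (t := Finset.range N) (fun i hi => ?_)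
    fun i hi _ => h0 i (Finset.mem_range.1 hi)).trans ?_
  · obtain ⟨m, hm, rfl⟩ := Finset.mem_image.1 hi
    exact Finset.mem_range.2 (hS m hm)
  have h1 := Finset.sum_le_card_nsmul (Finset.range N) H U fun i hi => hU i (Finset.mem_range.1 hi)
  have h2 := Finset.card_nsmul_le_sum (Finset.range w) (fun j => x (N + j) - x j) (lo - hi)
    fun j hj => sub_le_sub (hlo j (Finset.mem_range.1 hj)) (hhi j (Finset.mem_range.1 hj))
  rw [Finset.card_range, nsmul_eq_mul] at h1 h2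
  rw [← D_tel] at h2
  simp only [sub_add]
  rw [Finset.sum_sub_distrib]
  linarith

theorem DAng_markov [IsFiniteMeasure σ] {f : E n → ℝ} (hf : Integrable f σ) (h0 : 0 ≤ᵐ[σ] f)
    {S : Set (E n)} (h : ∀ᵐ z ∂σ, f z < 1 → z ∈ S) : σ Sᶜ ≤ ENNReal.ofReal (∫ z, f z ∂σ) := by
  have h1 := mul_meas_ge_le_integral_of_nonneg h0 hf 1
  rw [one_mul] at h1
  refine le_trans (measure_mono_ae (t := {z | 1 ≤ f z}) (h.mono fun z hz hS => ?_)) ?_
  · exact le_of_not_gt fun h2 => hS (hz h2)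
  · rw [← ofReal_measureReal]
    exact ENNReal.ofReal_le_ofReal h1

theorem DAng_le [IsProbabilityMeasure σ] (h0 : ∀ᵐ z ∂σ, z ≠ 0) {f g : E n → ℝ} {c : ℝ}
    (hf : Integrable f σ) (hg : Integrable g σ) (h : ∀ z, z ≠ 0 → f z ≤ g z + c) :
    ∫ z, f z ∂σ ≤ ∫ z, g z ∂σ + c := by
  have h1 : ∫ z, f z ∂σ ≤ ∫ z, (g z + c) ∂σ :=
    integral_mono_ae hf (hg.add (integrable_const c)) (h0.mono h)
  rwa [integral_add hg (integrable_const c), integral_const, probReal_univ, one_smul] at h1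

theorem DAng_int3 {f g u : E n → ℝ} (hf : Integrable f σ) (hg : Integrable g σ)
    (hu : Integrable u σ) : Integrable (fun z => f z - g z + u z) σ ∧
      ∫ z, (f z - g z + u z) ∂σ = ∫ z, f z ∂σ - ∫ z, g z ∂σ + ∫ z, u z ∂σ := by
  have h : Integrable (fun z => f z - g z) σ := hf.sub hg
  exact ⟨h.add hu, by rw [integral_add h hu, integral_sub hf hg]⟩

theorem DAng_al_int (hF : IsLift d F) (hd : 1 ≤ d) [IsFiniteMeasure σ] (h0 : ∀ᵐ z ∂σ, z ≠ 0)
    {J : E n → Fin s → Fin n}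
    (hJ : ∀ g : (Fin s → Fin n) → E n → ℝ, (∀ I, Measurable (g I)) → Measurable fun z => g (J z) z)
    (q : ℕ) : Integrable (fun z => rg d q (al F^[q] (J z) z)) σ := by
  obtain ⟨K, -, h⟩ := D_al_abs hF hd s
  exact Integrable.of_bound (hJ (fun I z => rg d q (al F^[q] I z))
    fun I => (D_al_pl hF hd I q).2.measurable).aestronglyMeasurable _
      (h0.mono fun z hz => h q _ z hz)

/-- The defects of subadditivity are small in the mean. -/
theorem DAng_core (hF : IsLift d F) (hd : 1 ≤ d) (hn : 0 < n) (s : ℕ) : ∃ K : ℝ, 0 ≤ K ∧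
    ∀ (σ : Measure (E n)) [IsProbabilityMeasure σ] (N w : ℕ) (S : Finset ℕ) (U : ℝ)
      (J : E n → Fin s → Fin n), (∀ᵐ z ∂σ, z ≠ 0) →
      (∀ z, wn s (Bm F^[N + w] z) ^ 2 ≤ n ^ s * al F^[N + w] (J z) z ^ 2) →
      (∀ g : (Fin s → Fin n) → E n → ℝ, (∀ I, Measurable (g I)) → Measurable fun z => g (J z) z) →
      (∀ m ∈ S, 0 < m ∧ m < N) → (∀ i ≤ N, ∫ z, hh d F s w (F^[i] z) ∂σ ≤ U) →
      ∑ m ∈ S, ∫ z, (hh d F s w (F^[N - m] z) - rg d (N - m + w) (al F^[N - m + w] (J z) z) +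
        rg d (N - m) (al F^[N - m] (J z) z)) ∂σ ≤
        N * U - w * (∫ z, hh d F s (N + w) z ∂σ - K * (w + 1)) ∧
      ∑ m ∈ S, ∫ z, (hh d F s w (F^[N - m] z) - bb d s F (m + w) (F^[N - m] z) +
        bb d s F m (F^[N - m + w] z)) ∂σ ≤
        N * U - w * (∫ z, hh d F s (N + w) z ∂σ - K * (w + 1)) := by
  obtain ⟨K, hK, h⟩ := D_hh_abs hF hd s
  obtain ⟨K', hK', h'⟩ := D_al_abs hF hd s
  obtain ⟨C, hC, hb⟩ := D_bb_near hF hd s
  have h1 : (1 : ℝ) ≤ n ^ s := one_le_pow₀ (by exact_mod_cast hn)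
  have l1 := Real.log_nonneg h1
  refine ⟨2 * K + K' + 2 * C + Real.log (n ^ s), by positivity,
    fun σ _ N w S U J h0 hJ hJm hS hU => ?_⟩
  have iH := fun k i => D_lh_int (D_hh_lh hF hd s k) hF i σ
  have iA := DAng_al_int hF hd h0 hJm
  have iB := fun m i => (D_bb_int hF hd s m i h0).1
  have hw : (0 : ℝ) ≤ w := w.cast_nonneg
  have hK1 : ∀ j : ℕ, j ≤ w → ∀ z, z ≠ 0 → hh d F s j z ≤ K * (w + 1) := fun j hj z hz =>
    ((le_abs_self _).trans (h j z hz)).trans (by gcongr)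
  constructor
  · rw [Finset.sum_congr rfl fun m _ => (DAng_int3 (iH w _) (iA _) (iA _)).2]
    refine (DAng_sum (N := N) (H := fun i => ∫ z, hh d F s w (F^[i] z) ∂σ)
      (x := fun q => ∫ z, rg d q (al F^[q] (J z) z) ∂σ) (e := fun m => N - m)
      (lo := ∫ z, hh d F s (N + w) z ∂σ - (Real.log (n ^ s) + K * (w + 1))) (hi := K' * (w + 1))
      (fun i _ => ?_) (fun i hi => hU i hi.le) (fun j hj => ?_) (fun j hj => ?_)
      (fun a ha b hb e => ?_) fun m hm => ?_).trans ?_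
    · rw [← (DAng_int3 (iH w _) (iA _) (iA _)).2]
      refine integral_nonneg_of_ae (h0.mono fun z hz => ?_)
      have := D_al_add hF hd (J z) i w hz
      simp only [Pi.zero_apply]
      linarith
    · refine sub_le_iff_le_add.2 (DAng_le h0 (iH _ 0) (iA _) fun z hz => ?_)
      have e1 : hh d F s (N + w) z ≤ rg d (N + w) (al F^[N + w] (J z) z) + Real.log (n ^ s) := by
        refine D_rg_cmul hd _ (wn_nonneg _ _) h1 (le_of_sq_le_sq ((hJ z).trans ?_)
          (mul_nonneg (by positivity) (D_al_nonneg _ _ _)))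
        rw [mul_pow]
        exact mul_le_mul_of_nonneg_right (by nlinarith) (sq_nonneg _)
      have e2 := D_al_add hF hd (J z) (N + j) (w - j) hz
      rw [show N + j + (w - j) = N + w by omega] at e2
      have e3 := hK1 (w - j) (by omega) _ ((hF.iterate (N + j)).ne hz)
      linarith
    · have := DAng_le h0 (iA j) (integrable_zero _ _ _) (c := K' * (w + 1)) fun z hz => by
        rw [Pi.zero_apply, zero_add]
        exact ((le_abs_self _).trans (h' j _ z hz)).trans (by gcongr)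
      simpa using this
    · have := hS a ha
      have := hS b hb
      simp only at e
      omega
    · have := hS m hm
      omega
    · nlinarith [mul_nonneg hw (mul_nonneg hw l1), mul_nonneg hw (mul_nonneg hw hK),
        mul_nonneg hw (mul_nonneg hw hC), mul_nonneg hw hK, mul_nonneg hw hC]
  · have e0 : ∀ m < N, ∫ z, (hh d F s w (F^[N - m] z) - bb d s F (m + w) (F^[N - m] z) +
        bb d s F m (F^[N - m + w] z)) ∂σ = ∫ z, hh d F s w (F^[N - m] z) ∂σ -
          ∫ z, bb d s F (m + w) (F^[N + w - (m + w)] z) ∂σ +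
          ∫ z, bb d s F m (F^[N + w - m] z) ∂σ := fun m hm => by
      rw [(DAng_int3 (iH w _) (iB _ _) (iB _ _)).2, show N + w - (m + w) = N - m by omega,
        show N + w - m = N - m + w by omega]
    rw [Finset.sum_congr rfl fun m hm => e0 m (hS m hm).2]
    refine (DAng_sum (N := N) (H := fun m => ∫ z, hh d F s w (F^[N - m] z) ∂σ)
      (x := fun q => ∫ z, bb d s F q (F^[N + w - q] z) ∂σ) (e := fun m => m)
      (lo := ∫ z, hh d F s (N + w) z ∂σ - (C + K * (w + 1))) (hi := C + K * (w + 1))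
      (fun i hi => ?_) (fun i _ => hU _ (Nat.sub_le _ _)) (fun j hj => ?_) (fun j hj => ?_)
      (fun a _ b _ e => e) fun m hm => (hS m hm).2).trans ?_
    · rw [← e0 i hi]
      refine integral_nonneg_of_ae (h0.mono fun z hz => ?_)
      have := D_bb_add hF hd s w i ((hF.iterate (N - i)).ne hz)
      rw [add_comm w i, ← comp_apply (f := F^[w]), ← D_iter] at this
      simp only [Pi.zero_apply]
      linarith
    · refine sub_le_iff_le_add.2 (DAng_le h0 (iH _ 0) (iB _ _) fun z hz => ?_)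
      have e1 := (abs_le.1 (hb (N + w) z hz)).1
      have e2 := D_bb_add hF hd s (w - j) (N + j) hz
      rw [show w - j + (N + j) = N + w by omega] at e2
      have e3 := hK1 (w - j) (by omega) z hz
      rw [show N + w - (N + j) = w - j by omega]
      linarith
    · have := DAng_le h0 (iB j (N + w - j)) (integrable_zero _ _ _) (c := C + K * (w + 1))
        fun z hz => by
          have hz' := (hF.iterate (N + w - j)).ne hz
          have e1 := (abs_le.1 (hb j _ hz')).2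
          have e2 := hK1 j hj.le _ hz'
          rw [Pi.zero_apply]
          linarith
      simpa using this
    · nlinarith [mul_nonneg hw (mul_nonneg hw l1), mul_nonneg hw (mul_nonneg hw hK'),
        mul_nonneg hw (mul_nonneg hw hC), mul_nonneg hw hK', mul_nonneg hw l1]

theorem DAng_m [IsFiniteMeasure σ] {f g : E n → ℝ} {q : ℕ → E n → ℝ} {P : Finset ℕ}
    (hf : Integrable f σ) (hg : Integrable g σ) (hq : ∀ p, Integrable (q p) σ) (f0 : 0 ≤ᵐ[σ] f)
    (g0 : 0 ≤ᵐ[σ] g) (q0 : ∀ p z, 0 ≤ q p z) {a b e : ℝ} (ha : 0 < a) (hb : 0 < b)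
    (he : ∀ p ∈ P, ∫ z, q p z ∂σ ≤ e) {S : Set (E n)}
    (h : ∀ᵐ z ∂σ, f z ≤ a → 4 * g z ≤ a → (∀ p ∈ P, q p z ≤ b) → z ∈ S) :
    σ Sᶜ ≤ ENNReal.ofReal ((∫ z, f z ∂σ + 4 * ∫ z, g z ∂σ) / a + P.card * e / b) := by
  have i1 : Integrable (fun z => f z + 4 * g z) σ := hf.add (hg.const_mul 4)
  have i2 : Integrable (fun z => ∑ p ∈ P, q p z) σ := integrable_finsetSum _ fun p _ => hq p
  have s0 : ∀ z, 0 ≤ ∑ p ∈ P, q p z := fun z => Finset.sum_nonneg fun p _ => q0 p z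
  refine (DAng_markov (f := fun z => (f z + 4 * g z) / a + (∑ p ∈ P, q p z) / b)
    ((i1.div_const a).add (i2.div_const b)) ?_ ?_).trans (ENNReal.ofReal_le_ofReal ?_)
  · filter_upwards [f0, g0] with z h1 h2
    have h1 : 0 ≤ f z := h1
    have h2 : 0 ≤ g z := h2
    have := s0 z
    exact add_nonneg (by positivity) (by positivity)
  · filter_upwards [f0, g0, h] with z h1 h2 h3 h4
    have h1 : 0 ≤ f z := h1
    have h2 : 0 ≤ g z := h2
    have h5 := div_nonneg (s0 z) hb.le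
    have h6 : 0 ≤ (f z + 4 * g z) / a := by positivity
    have h7 : f z + 4 * g z ≤ a := (div_le_one ha).1 (by linarith)
    have h8 : ∑ p ∈ P, q p z ≤ b := (div_le_one hb).1 (by linarith)
    exact h3 (by linarith) (by linarith) fun p hp =>
      (Finset.single_le_sum (fun p _ => q0 p z) hp).trans h8
  · rw [integral_add (i1.div_const a) (i2.div_const b), integral_div, integral_div,
      integral_add hf (hg.const_mul 4), integral_const_mul, integral_finsetSum _ fun p _ => hq p]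
    gcongr
    exact (Finset.sum_le_card_nsmul _ _ _ he).trans_eq (nsmul_eq_mul _ _)

theorem D_ang (h : Dyn d s F τ φ φ' Ψ Y Y' ν Z δ) (hm : Mix d s F φ φ' Ψ ν) {Λ : ℕ → ℝ}
    (he : Ex d s F φ φ' ν Λ) : ∀ ε : ℝ, 0 < ε → ∃ B₀, ∀ B, B₀ ≤ B → ∃ K : ℝ, 0 ≤ K ∧ ∃ L₀, ∀ L,
    L₀ ≤ L → ∑ w ∈ Finset.Ico B (2 * B), ∑ m ∈ Finset.Ico L (2 * L),
      wg φ' (gs d F (4 * L) s) (⋃ J, Ok d s F (4 * L - w - m) w m K J)ᶜ ≤
        ENNReal.ofReal (ε * B * L) := by
  have hF := h.hF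
  have hd : 1 ≤ d := le_trans one_le_two h.hd
  have hn : 0 < n := lt_of_le_of_lt (Nat.zero_le _) h.hs
  have := h.eq.fin
  obtain ⟨η, c, w₀, hη, hc, hw₀, hok⟩ := D_ok hF h.hd h.hs he.gap1 he.gap2 he.floor
  obtain ⟨K, hK, hcore⟩ := DAng_core hF hd hn s
  obtain ⟨C, hC⟩ := he.exφ'.low s
  intro ε hε
  obtain ⟨N₁, hup⟩ := D_up h.cφ' hF hd hm.cv' (he.avg s) (show 0 < ε * η / 60 by positivity)
  choose N₂ hN₂ using fun p => D_l2 h.cφ' hF hd hm.cv' h.eq.ne (he.king p)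
    (show 0 < ε * η ^ 2 / 9 by positivity)
  choose! i₀ hi₀ using hN₂
  refine ⟨w₀ + N₁ + (Finset.range (s + 2)).sup N₂, fun B hB => ⟨c * (2 * B), by positivity, ?_⟩⟩
  obtain ⟨L₁, hL₁⟩ := exists_nat_ge (15 * (2 * B * |Λ s| + |C| + K * (2 * B + 1)) / (ε * η))
  refine ⟨(Finset.range (s + 2) ×ˢ Finset.range (2 * B)).sup (uncurry i₀) + 2 * B + L₁ + 1,
    fun L hL => ?_⟩
  refine (Finset.sum_le_card_nsmul _ _ (ENNReal.ofReal (ε * L)) fun w hw => ?_).trans_eq ?_
  swap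
  · rw [Nat.card_Ico, nsmul_eq_mul, show 2 * B - B = B by omega, ← ENNReal.ofReal_natCast,
      ← ENNReal.ofReal_mul B.cast_nonneg]
    congr 1
    ring
  obtain ⟨hw1, hw2⟩ := Finset.mem_Ico.1 hw
  obtain ⟨N, hN⟩ : ∃ N, 4 * L = N + w := ⟨4 * L - w, by omega⟩
  obtain ⟨J, hJ, hJm⟩ := D_sel (hF.iterate (N + w)) hn s
  have hP : ∀ p ∈ ({s - 1, s, s + 1} : Finset ℕ), p ∈ Finset.range (s + 2) := by
    simp only [Finset.mem_insert, Finset.mem_singleton, Finset.mem_range]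
    omega
  have a1 : ∀ i ≤ N, ∫ z, hh d F s w (F^[i] z) ∂wg φ' (gs d F (N + w) s) ≤
      w * (Λ s + ε * η / 60) := fun i hi => by
    have := hup w i (N + w - i) (by omega) (by omega)
    rwa [show i + (N + w - i) = N + w by omega] at this
  have a2 := hC (N + w)
  rw [D_pr_eq h.cφ' hF hd (D_hh_lh hF hd s _).measurable] at a2
  have a3 : ∀ m ∈ Finset.Ico L (2 * L), ∀ p ∈ ({s - 1, s, s + 1} : Finset ℕ),
      ∫ z, (hh d F p w (F^[N - m] z) / w - Λ p) ^ 2 ∂wg φ' (gs d F (N + w) s) ≤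
        ε * η ^ 2 / 9 := fun m hm p hp => by
    obtain ⟨hm1, hm2⟩ := Finset.mem_Ico.1 hm
    have b1 : N₂ p ≤ _ := Finset.le_sup (f := N₂) (hP p hp)
    have b2 : i₀ p w ≤ _ := Finset.le_sup (f := uncurry i₀) (b := (p, w))
      (Finset.mk_mem_product (hP p hp) (Finset.mem_range.2 hw2))
    have := hi₀ p w (by omega) (N - m) (w + m) (by omega) (by omega)
    rwa [show N - m + (w + m) = N + w by omega] at this
  have a4 := D_prob h.cφ' hF hd (N + w)
  have a5 := wg_ne φ' (pps_gs hF hd (N + w) s).pots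
  rw [hN, Nat.add_sub_cancel]
  generalize wg φ' (gs d F (N + w) s) = σ at a1 a2 a3 a4 a5 ⊢
  have hS : ∀ m ∈ Finset.Ico L (2 * L), 0 < m ∧ m < N := fun m hm => by
    obtain ⟨hm1, hm2⟩ := Finset.mem_Ico.1 hm
    omega
  obtain ⟨c1, c2⟩ := hcore σ N w _ _ J a5 hJ hJm hS a1
  have hw0 : (0 : ℝ) < w := by exact_mod_cast (by omega : 0 < w)
  have hw3 : (w : ℝ) ≤ 2 * B := by exact_mod_cast hw2.le
  have iH := fun k i => D_lh_int (D_hh_lh hF hd s k) hF i σ
  have iA := DAng_al_int hF hd a5 hJm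
  have iB := fun m i => (D_bb_int hF hd s m i a5).1
  have f0 : ∀ i, 0 ≤ᵐ[σ] fun z => hh d F s w (F^[i] z) - rg d (i + w) (al F^[i + w] (J z) z) +
      rg d i (al F^[i] (J z) z) := fun i => a5.mono fun z hz => by
    have := D_al_add hF hd (J z) i w hz
    simp only [Pi.zero_apply]
    linarith
  have g0 : ∀ i m, 0 ≤ᵐ[σ] fun z => hh d F s w (F^[i] z) - bb d s F (m + w) (F^[i] z) +
      bb d s F m (F^[i + w] z) := fun i m => a5.mono fun z hz => by
    have := D_bb_add hF hd s w m ((hF.iterate i).ne hz)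
    rw [add_comm w m, ← comp_apply (f := F^[w]), ← D_iter] at this
    simp only [Pi.zero_apply]
    linarith
  have iq : ∀ i p, Integrable (fun z => (hh d F p w (F^[i] z) / w - Λ p) ^ 2) σ := fun i p =>
    D_lh_int ((D_hh_lh hF hd p w).rcomp (φ := fun x => (x / w - Λ p) ^ 2) (by fun_prop)) hF i σ
  refine (Finset.sum_le_sum fun m hm => DAng_m (DAng_int3 (iH w _) (iA _) (iA _)).1
    (DAng_int3 (iH w _) (iB _ _) (iB _ _)).1 (iq (N - m)) (f0 (N - m)) (g0 (N - m) m)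
    (fun _ _ => sq_nonneg _) (mul_pos hη hw0) (pow_pos hη 2) (a3 m hm)
    (a5.mono fun z hz h1 h2 h3 => mem_iUnion.2 ⟨J z, hok _ w m _ z _ (by omega)
      (by gcongr) hz (by
        rw [show N - m + w + m = N + w by have := hS m hm; omega]
        exact hJ z) h1 h2 h3⟩)).trans ?_
  rw [← ENNReal.ofReal_sum_of_nonneg fun m _ => by
    have := integral_nonneg_of_ae (f0 (N - m))
    have := integral_nonneg_of_ae (g0 (N - m) m)
    positivity]
  refine ENNReal.ofReal_le_ofReal ?_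
  rw [Finset.sum_add_distrib, ← Finset.sum_div, Finset.sum_add_distrib, ← Finset.mul_sum,
    Finset.sum_const, Nat.card_Ico, nsmul_eq_mul, show 2 * L - L = L by omega]
  have d1 : ((({s - 1, s, s + 1} : Finset ℕ).card : ℕ) : ℝ) ≤ 3 := by
    exact_mod_cast Finset.card_le_three
  have d2 : (({s - 1, s, s + 1} : Finset ℕ).card : ℝ) * (ε * η ^ 2 / 9) / η ^ 2 ≤ ε / 3 := by
    rw [div_le_iff₀ (pow_pos hη 2)]
    nlinarith [mul_pos hε (pow_pos hη 2)]
  have hL0 : (0 : ℝ) ≤ L := L.cast_nonneg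
  have d3 : (N : ℝ) ≤ 4 * L := by exact_mod_cast (by omega : N ≤ 4 * L)
  have d4 : 15 * (2 * B * |Λ s| + |C| + K * (2 * B + 1)) ≤ L * (ε * η) := by
    rw [div_le_iff₀ (mul_pos hε hη)] at hL₁
    refine hL₁.trans (mul_le_mul_of_nonneg_right ?_ (mul_pos hε hη).le)
    exact_mod_cast (by omega : L₁ ≤ L)
  have d5 : N * (w * (Λ s + ε * η / 60)) - w * (∫ z, hh d F s (N + w) z ∂σ - K * (w + 1)) ≤
      w * (2 / 15 * (L * (ε * η))) := by
    have e1 : -(w * Λ s) ≤ 2 * B * |Λ s| := by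
      nlinarith [neg_abs_le (Λ s), abs_nonneg (Λ s)]
    have e2 : K * (w + 1) ≤ K * (2 * B + 1) := by gcongr
    have e3 := mul_le_mul_of_nonneg_right d3 (mul_pos hε hη).le
    have e4 := le_abs_self C
    push_cast at a2
    rw [mul_left_comm, ← mul_sub]
    refine mul_le_mul_of_nonneg_left ?_ hw0.le
    linarith
  refine (add_le_add (b := 2 / 3 * (ε * L)) ((div_le_iff₀ (mul_pos hη hw0)).2 ?_)
    (mul_le_mul_of_nonneg_left d2 hL0)).trans_eq (by ring)
  linarith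

end Pool.Agent.Lib.MP_a47f92_an
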