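import Pool.Agent.Lib.MP_a47f92_an.G.DTh
import Pool.Agent.Lib.MP_a47f92_an.G.Ang

set_option autoImplicit false
set_option linter.unusedSectionVars false

namespace Pool.Agent.Lib.MP_a47f92_an

open MeasureTheory Filter Topology Set Complex Metric Function
open scoped ContDiff ComplexConjugate ComplexOrder Matrix ENNReal NNReal

/-! Step 7, pointwise: small defects and a gap give a lower bound for the angle. -/

variable {n s d D : ℕ} {F G : E n → E n} {z : E n}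

theorem DOk_real {a' b' A B X x y a b J C T κ : ℝ} (h : a' * b' ≤ C * (x * J + y * (a * b)))
    (hA : A * T ≤ a' + A * κ) (hB : B * T ≤ b' + B * κ) (hκ : 2 * κ ≤ T) (hy : 8 * C * y ≤ T ^ 2)
    (hx : x ≤ X) (ha0 : 0 ≤ a) (ha : a ≤ A) (hb0 : 0 ≤ b) (hb : b ≤ B) (hJ : 0 ≤ J)
    (hC : 0 ≤ C) (hT : 0 ≤ T) : A * B * T ^ 2 ≤ 8 * C * X * J := by
  have hA0 := ha0.trans ha
  have hB0 := hb0.trans hb
  have h1 : A * T / 2 ≤ a' := by nlinarith [mul_le_mul_of_nonneg_left hκ hA0]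
  have h2 : B * T / 2 ≤ b' := by nlinarith [mul_le_mul_of_nonneg_left hκ hB0]
  have h3 : A * T / 2 * (B * T / 2) ≤ a' * b' :=
    mul_le_mul h1 h2 (by positivity) (le_trans (by positivity) h1)
  have h4 : C * y * (a * b) ≤ T ^ 2 / 8 * (A * B) :=
    mul_le_mul (by linarith) (mul_le_mul ha hb hb0 hA0) (by positivity) (by positivity)
  have h5 : C * (x * J) ≤ C * (X * J) := by gcongr
  nlinarith

theorem DOk_exp (hd : 1 ≤ d) (a b : ℕ) {x y u : ℝ} (hy : 0 ≤ y) (h : rg d a x + u ≤ rg d (a + b) y) :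
    Real.exp (rg d a x) * Real.exp u ≤ y + Real.exp (rg d a x) * ((d : ℝ) ^ b)⁻¹ := by
  have h0 : (0 : ℝ) < d := by exact_mod_cast hd
  rw [← Real.exp_add]
  refine (Real.exp_le_exp.2 h).trans ((D_exp_rg_le hd _ hy).trans ?_)
  rw [pow_add, mul_inv]
  gcongr
  have := Real.exp_le_exp.2 (D_rg_ge hd a x)
  rwa [← Real.log_pow, Real.exp_neg, Real.exp_log (by positivity)] at this

theorem D_angle (hs : s < n) : ∃ C : ℝ, 2 ≤ C ∧ ∀ (d : ℕ) (F : E n → E n), IsLift d F → 1 ≤ d →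
    ∀ (i w m : ℕ) (ℓ : E n →L[ℂ] E (s + 1)) (J : Fin s → Fin n) (z : E n) (t : ℝ), z ≠ 0 →
      hh d F s w (F^[i] z) - rg d (i + w) (al F^[i + w] J z) + rg d i (al F^[i] J z) ≤ t →
      hh d F s w (F^[i] z) - bt d F ℓ (m + w) (F^[i] z) + bt d F ℓ m (F^[i + w] z) ≤ t →
      Real.log 2 - w * Real.log d ≤ hh d F s w (F^[i] z) - t →
      C * wn2 s (Bm F^[w] (F^[i] z)) ≤ Real.exp (2 * (hh d F s w (F^[i] z) - t)) →
      Real.exp (rg d i (al F^[i] J z) + bt d F ℓ m (F^[i + w] z) -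
        (w * Real.log d + 2 * t + Real.log C)) ≤ ‖th ℓ F^[i + w + m] z (evs J)‖ := by
  obtain ⟨C, hC, h⟩ := angle_ineq hs
  refine ⟨8 * (C + 1), by linarith, fun d F hF hd i w m ℓ J z t hz h1 h2 h3 h4 => ?_⟩
  have hz' := (hF.iterate i).ne hz
  have h0 : (0 : ℝ) < d := by exact_mod_cast hd
  obtain ⟨θ, hθ⟩ := D_th_alt ℓ F^[m] (F^[i + w] z)
  have e0 : F^[i + w] z = F^[w] (F^[i] z) := congrFun (D_iter F i w) z
  have e1 : ∀ u, θ (fun j => Bm F^[w] (F^[i] z) (u j)) = th ℓ F^[m + w] (F^[i] z) u := fun u => by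
    rw [hθ, add_comm m w, D_th_add hF ℓ w m hz', e0]
  have h5 := h (Bm F^[w] (F^[i] z)) θ fun j => Bm F^[i] z (evs J j)
  have e2 : ‖plk fun j => Bm F^[w] (F^[i] z) (Bm F^[i] z (evs J j))‖ = al F^[i + w] J z := by
    rw [al, D_Bm_add hF i w hz]
    rfl
  have e3 : th ℓ F^[m + w] (F^[i] z) (fun j => Bm F^[i] z (evs J j)) =
      th ℓ F^[i + w + m] z (evs J) := by
    rw [add_assoc, add_comm w m, D_th_add hF ℓ i _ hz]
  simp only [e1] at h5
  rw [e2, e3, funext hθ] at h5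
  set H := hh d F s w (F^[i] z) with hH
  have hy0 : 0 ≤ wn2 s (Bm F^[w] (F^[i] z)) := by
    unfold wn2
    split_ifs
    · exact le_rfl
    · exact mul_nonneg (wn_nonneg _ _) (wn_nonneg _ _)
  have h6 := DOk_real (C := C + 1) (X := Real.exp H) (T := Real.exp (H - t))
    (h5.trans (mul_le_mul_of_nonneg_right (le_add_of_nonneg_right zero_le_one)
      (add_nonneg (mul_nonneg (wn_nonneg _ _) (norm_nonneg _))
        (mul_nonneg hy0 (mul_nonneg (norm_nonneg _) (an_nonneg _))))))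
    (DOk_exp hd i w (x := al F^[i] J z) (D_al_nonneg _ _ _) (by linarith))
    (DOk_exp hd m w (x := an (th ℓ F^[m] (F^[i + w] z))) (an_nonneg _) (by
      unfold bt at h2
      linarith)) (by
      have := Real.exp_le_exp.2 h3
      rwa [Real.exp_sub, Real.exp_log two_pos, ← Real.log_pow, Real.exp_log (by positivity),
        div_eq_mul_inv] at this)
    (by rw [← Real.exp_nat_mul]; exact h4) (D_le_exp_rg hd w _) (norm_nonneg _)
    (D_le_exp_rg hd i _) (an_nonneg _) (D_le_exp_rg hd m _) (norm_nonneg _) (by linarith)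
    (Real.exp_pos _).le
  have h7 : -(w * Real.log d) ≤ H := D_rg_ge hd w _
  have hC' : 0 < 8 * (C + 1) := by linarith
  refine le_of_mul_le_mul_left (le_trans ?_ h6) (mul_pos hC' (Real.exp_pos H))
  rw [← Real.exp_nat_mul, ← Real.exp_add, ← Real.exp_add, mul_assoc, ← Real.exp_add,
    ← Real.exp_log hC', ← Real.exp_add, Real.log_exp, Real.exp_le_exp]
  unfold bt
  push_cast
  linarith

theorem DOk_near {x L η w : ℝ} (hw : 0 < w) (hη : 0 ≤ η) (h : (x / w - L) ^ 2 ≤ η ^ 2) :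
    w * (L - η) ≤ x ∧ x ≤ w * (L + η) := by
  obtain ⟨h1, h2⟩ := abs_le.1 (abs_le_of_sq_le_sq' h hη |> abs_le.2)
  rw [le_sub_iff_add_le, le_div_iff₀ hw] at h1
  rw [sub_le_iff_le_add, div_le_iff₀ hw] at h2
  constructor <;> linarith

theorem D_ok (hF : IsLift d F) (hd : 2 ≤ d) (hs : s < n) {Λ : ℕ → ℝ} (g1 : Λ (s + 1) ≤ Λ s)
    (g2 : 1 ≤ s → Λ (s - 1) + Real.log d / 2 ≤ Λ s) (fl : -(Real.log d / 2) ≤ Λ s) :
    ∃ (η c : ℝ) (w₀ : ℕ), 0 < η ∧ 0 ≤ c ∧ 1 ≤ w₀ ∧ ∀ (i w m : ℕ) (J : Fin s → Fin n) (z : E n) (K : ℝ),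
      w₀ ≤ w → c * w ≤ K → z ≠ 0 →
      wn s (Bm F^[i + w + m] z) ^ 2 ≤ n ^ s * al F^[i + w + m] J z ^ 2 →
      hh d F s w (F^[i] z) - rg d (i + w) (al F^[i + w] J z) + rg d i (al F^[i] J z) ≤ η * w →
      4 * (hh d F s w (F^[i] z) - bb d s F (m + w) (F^[i] z) + bb d s F m (F^[i + w] z)) ≤ η * w →
      (∀ p ∈ ({s - 1, s, s + 1} : Finset ℕ), (hh d F p w (F^[i] z) / w - Λ p) ^ 2 ≤ η ^ 2) →
      z ∈ Ok d s F i w m K J := by
  obtain ⟨C, hC, h⟩ := D_angle hs
  have hd1 : 1 ≤ d := by omega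
  have l0 : 0 < Real.log d := Real.log_pos (by exact_mod_cast hd)
  have l2 : Real.log 2 ≤ Real.log C := Real.log_le_log two_pos hC
  have l3 : 0 < Real.log 2 := Real.log_pos one_lt_two
  obtain ⟨w₀, hw₀⟩ := exists_nat_ge (4 * Real.log C / Real.log d)
  refine ⟨Real.log d / 24, 2 * Real.log d, w₀ + 1, by positivity, by positivity, by omega,
    fun i w m J z K hw hK hz hJ h1 h2 h3 => ⟨hJ, ?_⟩⟩
  have hw0 : (0 : ℝ) < w := by exact_mod_cast (by omega : 0 < w)
  have hw1 : 4 * Real.log C ≤ w * Real.log d := by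
    rw [div_le_iff₀ l0] at hw₀
    refine hw₀.trans (mul_le_mul_of_nonneg_right ?_ l0.le)
    exact_mod_cast (by omega : w₀ ≤ w)
  have hz' := (hF.iterate i).ne hz
  have hη : 0 < Real.log d / 24 := by positivity
  have a0 := (DOk_near hw0 hη.le (h3 s (by simp))).1
  have a1 := (DOk_near hw0 hη.le (h3 (s + 1) (by simp))).2
  have a2 := (DOk_near hw0 hη.le (h3 (s - 1) (by simp))).2
  have b0 := mul_le_mul_of_nonneg_left fl hw0.le
  have h4 : C * wn2 s (Bm F^[w] (F^[i] z)) ≤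
      Real.exp (2 * (hh d F s w (F^[i] z) - Real.log d / 24 * w)) := by
    unfold wn2
    split_ifs with h0
    · rw [mul_zero]
      exact (Real.exp_pos _).le
    have b1 := mul_le_mul_of_nonneg_left g1 hw0.le
    have b2 := mul_le_mul_of_nonneg_left (g2 (by omega)) hw0.le
    refine (mul_le_mul_of_nonneg_left (mul_le_mul (D_le_exp_rg hd1 w _) (D_le_exp_rg hd1 w _)
      (wn_nonneg _ _) (Real.exp_pos _).le) (by linarith)).trans ?_
    rw [← Real.exp_log (by linarith : 0 < C), ← Real.exp_add, ← Real.exp_add, Real.exp_le_exp]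
    unfold hh at a0 a1 a2 ⊢
    linarith
  have e0 : F^[i + w] z = F^[w] (F^[i] z) := congrFun (D_iter F i w) z
  have i1 := D_bt_int hF hd1 s (m + w) hz'
  have i2 := D_bt_int hF hd1 s m ((hF.iterate (i + w)).ne hz)
  have i3 : Integrable (fun ℓ => hh d F s w (F^[i] z) - bt d F (mt (s + 1) n ℓ) (m + w) (F^[i] z))
      (ub ((s + 1) * n)) := (integrable_const _).sub i1
  have h5 := mul_meas_ge_le_integral_of_nonneg (μ := ub ((s + 1) * n))
    (f := fun ℓ => hh d F s w (F^[i] z) - bt d F (mt (s + 1) n ℓ) (m + w) (F^[i] z) +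
      bt d F (mt (s + 1) n ℓ) m (F^[i + w] z))
    (ae_of_all _ fun ℓ => by
      have := D_bt_add hF hd1 (mt (s + 1) n ℓ) w m hz'
      rw [add_comm w m, ← e0] at this
      simp only [Pi.zero_apply]
      linarith) (i3.add i2) (Real.log d / 24 * w)
  rw [integral_add i3 i2, integral_sub (integrable_const _) i1,
    integral_const, probReal_univ, one_smul] at h5
  refine (measure_mono (t := {ℓ | Real.log d / 24 * w ≤ hh d F s w (F^[i] z) -
    bt d F (mt (s + 1) n ℓ) (m + w) (F^[i] z) + bt d F (mt (s + 1) n ℓ) m (F^[i + w] z)})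
    fun ℓ hℓ => ?_).trans ?_
  · rw [mem_ofPred_eq] at hℓ ⊢
    refine le_of_not_gt fun h6 => ?_
    refine (h d F hF hd1 i w m _ J z _ hz h1 h6.le (by linarith) h4).not_gt (lt_of_lt_of_le hℓ ?_)
    rw [Real.exp_le_exp]
    linarith
  · rw [← ofReal_measureReal, show (1 / 4 : ℝ≥0∞) = ENNReal.ofReal (1 / 4) by
      rw [ENNReal.ofReal_div_of_pos four_pos]; simp]
    refine ENNReal.ofReal_le_ofReal (le_of_mul_le_mul_left (h5.trans ?_) (mul_pos hη hw0))
    unfold bb at h2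
    linarith

theorem D_sel (hG : IsLift D G) (hn : 0 < n) (s : ℕ) : ∃ J : E n → Fin s → Fin n,
    (∀ z, wn s (Bm G z) ^ 2 ≤ n ^ s * al G (J z) z ^ 2) ∧
      ∀ g : (Fin s → Fin n) → E n → ℝ, (∀ I, Measurable (g I)) → Measurable fun z => g (J z) z := by
  classical
  have : Nonempty (Fin n) := ⟨⟨0, hn⟩⟩
  obtain ⟨e, he⟩ := exists_surjective_nat (Fin s → Fin n)
  have h : ∀ z, ∃ k, wn s (Bm G z) ^ 2 ≤ n ^ s * al G (e k) z ^ 2 := fun z => by
    obtain ⟨J, hJ⟩ := exists_wn_le (p := s) hn (Bm G z)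
    obtain ⟨k, rfl⟩ := he J
    exact ⟨k, hJ⟩
  exact ⟨fun z => e (Nat.find (h z)), fun z => Nat.find_spec (h z), fun g hg =>
    Measurable.find (f := fun k => g (e k)) (fun k => hg _) (fun k => measurableSet_le
      ((D_meas (D_wn_cont hG s)).pow_const 2)
      (((D_meas (D_al_cont hG _)).pow_const 2).const_mul _)) h⟩

instance D_ub_sf (N : ℕ) : SFinite (ub N) :=
  @instSFiniteOfSigmaFinite _ _ _ (IsFiniteMeasure.toSigmaFinite (ub N))

theorem D_ok_meas (hF : IsLift d F) (hd : 1 ≤ d) (i w m : ℕ) (K : ℝ) (J : Fin s → Fin n) :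
    MeasurableSet (Ok d s F i w m K J) := by
  have m1 : Measurable fun z => wn s (Bm F^[i + w + m] z) := D_meas (D_wn_cont (hF.iterate _) s)
  have m2 : Measurable (al F^[i + w + m] J) := D_meas (D_al_cont (hF.iterate _) J)
  have m3 : Measurable fun y : E ((s + 1) * n) × E n =>
      ‖th (mt (s + 1) n y.1) F^[i + w + m] y.2 (evs J)‖ := (D_th_meas (hF.iterate _) _).norm
  have m4 : Measurable fun y : E ((s + 1) * n) × E n => rg d i (al F^[i] J y.2) :=
    (D_al_pl hF hd J i).2.measurable.comp measurable_snd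
  have m5 : Measurable fun y : E ((s + 1) * n) × E n => (y.1, F^[i + w] y.2) :=
    measurable_fst.prodMk ((hF.iterate _).contDiff.continuous.measurable.comp measurable_snd)
  have m6 := (D_bt_meas hF hd s m).comp m5
  have m7 := measurable_measure_prodMk_right (μ := ub ((s + 1) * n))
    (measurableSet_lt m3 ((m4.add m6).sub_const K).exp)
  exact (measurableSet_le (m1.pow_const 2) ((m2.pow_const 2).const_mul _)).inter
    (measurableSet_le m7 measurable_const)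

theorem D_ok_cone (hF : IsLift d F) (hd : 1 ≤ d) (i w m : ℕ) (K : ℝ) (J : Fin s → Fin n) :
    IsCone (Ok d s F i w m K J) := by
  intro c hc z h
  rcases eq_or_ne z 0 with rfl | hz
  · rwa [smul_zero]
  have h1 : ∀ k, 1 ≤ d ^ k := fun k => Nat.one_le_pow _ _ hd
  have e1 := D_wn_smul (hF.iterate (i + w + m)) (h1 _) s c hc z hz
  have e2 := fun k => D_al_smul (hF.iterate k) (h1 _) J c hc z hz
  have e3 := fun ℓ : E n →L[ℂ] E (s + 1) =>
    D_th_smul (hF.iterate (i + w + m)) (h1 _) ℓ (evs J) c hc z hz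
  have e4 : ∀ ℓ : E n →L[ℂ] E (s + 1),
      bt d F ℓ m (F^[i + w] (c • z)) = bt d F ℓ m (F^[i + w] z) := fun ℓ =>
    ((D_pe_pl hF hd ℓ m).2.comp0 (hF.iterate (i + w))).inv0 c hc z hz
  simp only at e1 e3
  simp only [Ok, mem_ofPred_eq, e1, e2, e3, e4]
  exact h

end Pool.Agent.Lib.MP_a47f92_an
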