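import Pool.Agent.Lib.MP_a47f92_an.G.DBm
import Pool.Agent.Lib.MP_a47f92_an.G.AC
import Pool.Agent.Lib.MP_a47f92_an.G.Dyn

set_option autoImplicit false
set_option linter.unusedSectionVars false

namespace Pool.Agent.Lib.MP_a47f92_an

open MeasureTheory Filter Topology Set Complex Metric Function
open scoped ContDiff ComplexConjugate ComplexOrder Matrix ENNReal NNReal

/-! The conormal of a random leaf. -/

variable {n p d D : ℕ} {F G : E n → E n} {z : E n}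

/-- The mean of the logarithmic norm of the conormal. -/
noncomputable def bb (d p : ℕ) (F : E n → E n) (m : ℕ) (X : E n) : ℝ :=
  ∫ ℓ, bt d F (mt (p + 1) n ℓ) m X ∂ub ((p + 1) * n)

theorem DTh_shift (ℓ : E n →L[ℂ] E (p + 1)) (Y : E n) (u : Fin p → E n) (c : Fin p → ℂ) (a : ℂ) :
    (Matrix.of fun i j =>
      ℓ ((Fin.cons Y fun j => a • (u j + c j • Y) : Fin (p + 1) → E n) j) i).det =
      a ^ p * (Matrix.of fun i j => ℓ ((Fin.cons Y u : Fin (p + 1) → E n) j) i).det := by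
  obtain ⟨Θ, hΘ⟩ := exists_alt_det ℓ
  have h1 := (Θ.curryLeft Y).map_smul_univ (fun _ => a) fun j => u j + c j • Y
  rw [Finset.prod_const, Finset.card_univ, Fintype.card_fin, smul_eq_mul] at h1
  rw [← hΘ]
  refine h1.trans (congrArg _ ((hΘ _).trans ?_))
  rw [← Matrix.det_transpose, ← Matrix.det_transpose (Matrix.of fun i j =>
    ℓ ((Fin.cons Y u : Fin (p + 1) → E n) j) i)]
  refine Matrix.det_eq_of_forall_row_eq_smul_add_const (Fin.cons 0 c) 0 rfl fun i j => ?_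
  refine Fin.cases ?_ (fun i => ?_) i
  · simp
  · simp

theorem DTh_norm (ℓ : E n →L[ℂ] E (p + 1)) (G : E n → E n) (X : E n) (v : Fin p → E n) :
    ‖th ℓ G X v‖ =
      ‖(Matrix.of fun i j => ℓ (fr G X v j) i).det‖ * (‖X‖ ^ p / ‖G X‖ ^ (p + 1)) := by
  rw [th, norm_mul, norm_real, Real.norm_of_nonneg (by positivity)]

theorem DTh_smooth (hG : IsLift D G) (ℓ : E n →L[ℂ] E (p + 1)) (v : Fin p → E n) :
    ContDiff ℂ ∞ fun X => (Matrix.of fun i j => ℓ (fr G X v j) i).det :=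
  (EuclideanSpace.proj (id : Fin (p + 1) → Fin (p + 1)) :
    EuclideanSpace ℂ (Fin (p + 1) → Fin (p + 1)) →L[ℂ] ℂ).contDiff.comp (contDiff_plk.comp
      (contDiff_pi.2 fun j => ℓ.contDiff.comp (contDiff_pi.1 (D_fr_smooth hG.contDiff v) j)))

theorem D_th_alt (ℓ : E n →L[ℂ] E (p + 1)) (G : E n → E n) (X : E n) :
    ∃ θ : E n [⋀^Fin p]→ₗ[ℂ] ℂ, ∀ v, θ v = th ℓ G X v := by
  obtain ⟨Θ, hΘ⟩ := exists_alt_det ℓ
  refine ⟨((‖X‖ ^ p / ‖G X‖ ^ (p + 1) : ℝ) : ℂ) •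
    (Θ.curryLeft (G X)).compLinearMap (fderiv ℂ G X : E n →ₗ[ℂ] E n), fun v => ?_⟩
  rw [th, ← hΘ, mul_comm]
  rfl

theorem D_th_comp (hF : IsLift d F) (hG : IsLift D G) (ℓ : E n →L[ℂ] E (p + 1)) (hz : z ≠ 0)
    (v : Fin p → E n) : th ℓ (F ∘ G) z v = th ℓ F (G z) fun j => Bm G z (v j) := by
  choose c hc using fun j => sub_prj_un (G z) (fderiv ℂ G z (v j))
  have h1 : fr F (G z) (fun j => Bm G z (v j)) = Fin.cons (F (G z)) fun j =>
      ((‖z‖ / ‖G z‖ : ℝ) : ℂ) • (fderiv ℂ (F ∘ G) z (v j) + (-(c j * d)) • F (G z)) := by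
    unfold fr
    congr 1
    funext j
    beta_reduce
    rw [D_Bm_apply, map_smul, D_fderiv_comp hF hG, eq_sub_of_add_eq (hc j).symm, map_sub, map_smul,
      hF.euler, smul_smul, neg_smul, sub_eq_add_neg]
  have h : (‖G z‖ : ℂ) ≠ 0 := ofReal_ne_zero.2 (norm_ne_zero_iff.2 (hG.ne hz))
  rw [th, th, h1, DTh_shift, mul_right_comm, mul_comm]
  congr 1
  push_cast
  rw [div_pow, comp_apply]
  field_simp

theorem D_th_add (hF : IsLift d F) (ℓ : E n →L[ℂ] E (p + 1)) (a b : ℕ) (hz : z ≠ 0)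
    (v : Fin p → E n) :
    th ℓ F^[a + b] z v = th ℓ F^[b] (F^[a] z) fun j => Bm F^[a] z (v j) := by
  rw [D_iter, D_th_comp (hF.iterate b) (hF.iterate a) ℓ hz]

theorem D_th_smul (hG : IsLift D G) (hD : 1 ≤ D) (ℓ : E n →L[ℂ] E (p + 1)) (v : Fin p → E n) :
    Inv0 fun z => ‖th ℓ G z v‖ := by
  intro c hc z hz
  obtain ⟨k, rfl⟩ := Nat.exists_eq_add_of_le' hD
  obtain ⟨Θ, hΘ⟩ := exists_alt_det ℓ
  have h1 : fr G (c • z) v =
      fun j => (Fin.cons (c ^ (k + 1)) fun _ => c ^ k : Fin (p + 1) → ℂ) j • fr G z v j := by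
    funext j
    refine Fin.cases (hG.hom c z) (fun j => ?_) j
    simp [fr, hG.fderiv_smul hD hc]
  have h : ‖c‖ ≠ 0 := norm_ne_zero_iff.2 hc
  have h' : ‖G z‖ ≠ 0 := norm_ne_zero_iff.2 (hG.ne hz)
  simp only [th, ← hΘ]
  rw [h1, Θ.map_smul_univ, Fin.prod_univ_succ, hG.hom]
  simp only [Fin.cons_zero, Fin.cons_succ, Finset.prod_const, Finset.card_univ, Fintype.card_fin,
    norm_mul, norm_smul, norm_pow, norm_real, norm_div, norm_norm, mul_pow]
  field_simp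
  ring

theorem D_bt_add (hF : IsLift d F) (hd : 1 ≤ d) (ℓ : E n →L[ℂ] E (p + 1)) (a m : ℕ) (hz : z ≠ 0) :
    bt d F ℓ (a + m) z ≤ hh d F p a z + bt d F ℓ m (F^[a] z) := by
  obtain ⟨θ, hθ⟩ := D_th_alt ℓ F^[m] (F^[a] z)
  refine D_rg_mul hd a m (an_nonneg _) ?_
  rw [funext (D_th_add hF ℓ a m hz), ← funext hθ, mul_comm]
  exact an_comp_le θ _

theorem D_bt_le (n p : ℕ) : ∃ C : ℝ, 0 ≤ C ∧ ∀ (d : ℕ) (F : E n → E n) (ℓ : E n →L[ℂ] E (p + 1))
    (m : ℕ) (z : E n), IsLift d F → 1 ≤ d → ‖ℓ‖ ≤ 1 → z ≠ 0 →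
      bt d F ℓ m z ≤ hh d F p m z + C := by
  obtain ⟨C, hC, h⟩ := det_le n (p + 1)
  have h1 : 1 ≤ C * (p + 1) + 1 := le_add_of_nonneg_left (by positivity)
  refine ⟨Real.log (C * (p + 1) + 1), Real.log_nonneg h1, fun d F ℓ m z hF hd hℓ hz =>
    D_rg_cmul hd m (an_nonneg _) h1 (le_of_sq_le_sq ?_ (mul_nonneg (by positivity) (wn_nonneg _ _)))⟩
  rw [mul_pow, D_wn_sq, Plk_an_sq, Finset.mul_sum]
  refine Finset.sum_le_sum fun J _ => ?_
  have h2 : ‖th ℓ F^[m] z (evs J)‖ ≤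
      C * (‖plk (fr F^[m] z (evs J))‖ * (‖z‖ ^ p / ‖F^[m] z‖ ^ (p + 1))) := by
    rw [DTh_norm, ← mul_assoc]
    refine mul_le_mul_of_nonneg_right ((h ℓ _).trans ?_) (by positivity)
    gcongr
    exact mul_le_of_le_one_right hC.le (pow_le_one₀ (norm_nonneg _) hℓ)
  refine (pow_le_pow_left₀ (norm_nonneg _) h2 2).trans ?_
  rw [mul_pow, ← D_al_sq (hF.iterate m) J hz, ← mul_assoc]
  gcongr
  have h3 : (0 : ℝ) ≤ p := p.cast_nonneg
  nlinarith [mul_nonneg (mul_nonneg (sq_nonneg C) h3) h3, mul_nonneg (sq_nonneg C) h3,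
    mul_nonneg hC.le h3]

theorem D_bt_abs (hF : IsLift d F) (hd : 1 ≤ d) (p : ℕ) : ∃ K : ℝ, 0 ≤ K ∧
    ∀ (ℓ : E n →L[ℂ] E (p + 1)) m z, ‖ℓ‖ ≤ 1 → z ≠ 0 → |bt d F ℓ m z| ≤ K * (m + 1) := by
  obtain ⟨K, hK, h⟩ := D_hh_abs hF hd p
  obtain ⟨C, hC, h'⟩ := D_bt_le n p
  have l1 : 0 ≤ Real.log d := Real.log_nonneg (by exact_mod_cast hd)
  refine ⟨K + C + Real.log d, by positivity, fun ℓ m z hℓ hz => abs_le.2 ⟨?_, ?_⟩⟩
  · refine le_trans ?_ (D_rg_ge hd m _)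
    nlinarith [(m.cast_nonneg : (0 : ℝ) ≤ m)]
  · have h1 := h' d F ℓ m z hF hd hℓ hz
    have h2 := (le_abs_self _).trans (h m z hz)
    nlinarith [(m.cast_nonneg : (0 : ℝ) ≤ m)]

theorem D_pe_pl (hF : IsLift d F) (hd : 1 ≤ d) (ℓ : E n →L[ℂ] E (p + 1)) (m : ℕ) :
    PL ((p + 1) * d ^ m) (pe d F ℓ m) ∧ LH 0 (bt d F ℓ m) := by
  have hG := hF.iterate m
  have h := D_pl_rg (p := p + 1) hG hd m (x := fun z => an (th ℓ F^[m] z)) (fun c hc z hz => by
    simp only [an, fun J : Fin p → Fin n =>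
      D_th_smul hG (Nat.one_le_pow _ _ hd) ℓ (evs J) c hc z hz]) ?_
  · push_cast at h
    exact h
  refine ((SOS.sum Finset.univ fun (J : Fin p → Fin n) _ =>
    sos_normC (DTh_smooth hG ℓ (evs J)).contDiffOn).mul
      ((sos_norm contDiffOn_id).pow p)).congr fun z hz => ?_
  have h' : ‖F^[m] z‖ ≠ 0 := norm_ne_zero_iff.2 (hG.ne hz)
  rw [Plk_an_sq, Finset.sum_mul, Finset.sum_mul]
  refine Finset.sum_congr rfl fun J _ => ?_
  rw [DTh_norm, id]
  field_simp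
  ring

theorem D_th_meas (hG : IsLift D G) (v : Fin p → E n) :
    Measurable fun y : E ((p + 1) * n) × E n => th (mt (p + 1) n y.1) G y.2 v := by
  have hc := hG.contDiff.continuous
  refine Measurable.mul (Continuous.measurable ?_) (measurable_ofReal.comp
    (((continuous_snd.norm.pow p).measurable).div ((hc.comp continuous_snd).norm.pow _).measurable))
  refine Continuous.matrix_det (continuous_matrix fun i j => ?_)
  exact (EuclideanSpace.proj i : E (p + 1) →L[ℂ] ℂ).continuous.comp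
    (((mt (p + 1) n).continuous.comp continuous_fst).clm_apply
      ((continuous_apply j).comp ((D_fr_smooth hG.contDiff v).continuous.comp continuous_snd)))

theorem D_bt_meas (hF : IsLift d F) (hd : 1 ≤ d) (p m : ℕ) :
    Measurable fun y : E ((p + 1) * n) × E n => bt d F (mt (p + 1) n y.1) m y.2 := (D_rg_cont hd m).measurable.comp (Finset.measurable_fun_sum _ fun J _ =>
    (D_th_meas (hF.iterate m) (evs J)).norm.pow_const 2).sqrt

theorem D_bt_int (hF : IsLift d F) (hd : 1 ≤ d) (p m : ℕ) (hz : z ≠ 0) :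
    Integrable (fun ℓ => bt d F (mt (p + 1) n ℓ) m z) (ub ((p + 1) * n)) := by
  obtain ⟨K, -, h⟩ := D_bt_abs hF hd p
  exact Integrable.of_bound ((D_bt_meas hF hd p m).comp measurable_prodMk_right).aestronglyMeasurable
    (K * (m + 1)) ((ub_ae _).mono fun ℓ hℓ => h _ m z ((norm_mt_le ℓ).trans hℓ.le) hz)

theorem D_bb_meas (hF : IsLift d F) (hd : 1 ≤ d) (p m : ℕ) : Measurable (bb d p F m) := (D_bt_meas hF hd p m).stronglyMeasurable.integral_prod_left'.measurable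

theorem D_bb_near (hF : IsLift d F) (hd : 1 ≤ d) (p : ℕ) : ∃ C : ℝ, 0 ≤ C ∧
    ∀ m z, z ≠ 0 → |bb d p F m z - hh d F p m z| ≤ C := by
  rcases n.eq_zero_or_pos with rfl | hn
  · exact ⟨0, le_rfl, fun _ z hz => (hz (Subsingleton.elim _ _)).elim⟩
  obtain ⟨C, hC, h⟩ := D_bt_le n p
  obtain ⟨C', hC', h'⟩ := ac_det_log n (p + 1) hn
  obtain ⟨K, -, hK⟩ := D_bt_abs hF hd p
  have h1 : (1 : ℝ) ≤ n ^ p := one_le_pow₀ (by exact_mod_cast hn)
  have l1 := Real.log_nonneg h1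
  refine ⟨C + C' + Real.log (n ^ p), by positivity, fun m z hz => abs_le.2 ⟨?_, ?_⟩⟩
  · obtain ⟨J, hJ⟩ := exists_wn_le (p := p) hn (Bm F^[m] z)
    have h2 : hh d F p m z ≤ rg d m (al F^[m] J z) + Real.log (n ^ p) := by
      refine D_rg_cmul hd m (wn_nonneg _ _) h1 (le_of_sq_le_sq (hJ.trans ?_)
        (mul_nonneg (by positivity) (D_al_nonneg _ _ _)))
      rw [mul_pow]
      exact mul_le_mul_of_nonneg_right (by nlinarith) (sq_nonneg _)
    have h3 : rg d m (al F^[m] J z) ≤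
        rg d m (‖plk (fr F^[m] z (evs J))‖ * (‖z‖ ^ p / ‖F^[m] z‖ ^ (p + 1))) := by
      refine D_rg_mono hd m (D_al_nonneg _ _ _) (le_of_sq_le_sq ?_ (by positivity))
      rw [← D_al_sq (hF.iterate m) J hz]
      exact le_mul_of_one_le_left (sq_nonneg _) (le_add_of_nonneg_left p.cast_nonneg)
    have h0 : (0 : ℝ) < d := by exact_mod_cast hd
    have h4 := h' (fr F^[m] z (evs J)) (‖z‖ ^ p / ‖F^[m] z‖ ^ (p + 1)) ((d : ℝ) ^ m)⁻¹
      (by positivity) (by positivity)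
    simp only [← DTh_norm] at h4
    have h5 : ∀ ℓ, rg d m ‖th (mt (p + 1) n ℓ) F^[m] z (evs J)‖ ≤ bt d F (mt (p + 1) n ℓ) m z :=
      fun ℓ => D_rg_mono hd m (norm_nonneg _) (le_an _ J)
    have h6 : ∫ ℓ, rg d m ‖th (mt (p + 1) n ℓ) F^[m] z (evs J)‖ ∂ub ((p + 1) * n) ≤
        bb d p F m z := by
      refine integral_mono ((D_bt_int hF hd p m hz).abs.add (integrable_const (m * Real.log d))
        |>.mono' ((D_rg_cont hd m).measurable.comp ((D_th_meas (hF.iterate m) (evs J)).comp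
          measurable_prodMk_right).norm).aestronglyMeasurable (ae_of_all _ fun ℓ => ?_))
        (D_bt_int hF hd p m hz) h5
      have h7 := D_rg_ge hd m ‖th (mt (p + 1) n ℓ) F^[m] z (evs J)‖
      have h8 : 0 ≤ m * Real.log d := mul_nonneg m.cast_nonneg (Real.log_natCast_nonneg d)
      have h9 := abs_nonneg (bt d F (mt (p + 1) n ℓ) m z)
      exact abs_le.2 ⟨by simp only [Pi.add_apply]; linarith, by
        simp only [Pi.add_apply]; linarith [h5 ℓ, le_abs_self (bt d F (mt (p + 1) n ℓ) m z)]⟩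
    unfold rg at h3 h6 h2
    linarith
  · have h2 : bb d p F m z ≤ ∫ _, (hh d F p m z + C) ∂ub ((p + 1) * n) :=
      integral_mono_ae (D_bt_int hF hd p m hz) (integrable_const _)
        ((ub_ae _).mono fun ℓ hℓ => h d F _ m z hF hd ((norm_mt_le ℓ).trans hℓ.le) hz)
    rw [integral_const, probReal_univ, one_smul] at h2
    linarith

theorem D_bb_add (hF : IsLift d F) (hd : 1 ≤ d) (p a m : ℕ) (hz : z ≠ 0) :
    bb d p F (a + m) z ≤ hh d F p a z + bb d p F m (F^[a] z) := by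
  have h2 := integral_mono (D_bt_int hF hd p (a + m) hz) ((integrable_const (hh d F p a z)).add
    (D_bt_int hF hd p m ((hF.iterate a).ne hz))) fun ℓ => D_bt_add hF hd _ a m hz
  simp only [Pi.add_apply] at h2
  rwa [integral_add (integrable_const _) (D_bt_int hF hd p m ((hF.iterate a).ne hz)),
    integral_const, probReal_univ, one_smul] at h2

theorem D_bb_int (hF : IsLift d F) (hd : 1 ≤ d) (p m i : ℕ) {μ : Measure (E n)}
    [IsFiniteMeasure μ] (h0 : ∀ᵐ z ∂μ, z ≠ 0) :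
    Integrable (fun z => bb d p F m (F^[i] z)) μ ∧
      Integrable (fun ℓ => ∫ z, bt d F (mt (p + 1) n ℓ) m (F^[i] z) ∂μ) (ub ((p + 1) * n)) ∧
      ∫ ℓ, ∫ z, bt d F (mt (p + 1) n ℓ) m (F^[i] z) ∂μ ∂ub ((p + 1) * n) =
        ∫ z, bb d p F m (F^[i] z) ∂μ := by
  obtain ⟨K, -, h⟩ := D_bt_abs hF hd p
  have hi : Integrable (uncurry fun ℓ z => bt d F (mt (p + 1) n ℓ) m (F^[i] z))
      ((ub ((p + 1) * n)).prod μ) := by
    refine Integrable.of_bound ((D_bt_meas hF hd p m).comp (measurable_fst.prodMk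
      ((hF.iterate i).contDiff.continuous.measurable.comp measurable_snd))).aestronglyMeasurable
      (K * (m + 1)) ?_
    filter_upwards [Measure.quasiMeasurePreserving_fst.ae (ub_ae _),
      Measure.quasiMeasurePreserving_snd.ae h0] with y h1 h2
    exact h _ m _ ((norm_mt_le _).trans h1.le) ((hF.iterate i).ne h2)
  exact ⟨hi.integral_prod_right, hi.integral_prod_left, integral_integral_swap hi⟩

end Pool.Agent.Lib.MP_a47f92_an
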