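import Pool.Agent.Lib.MP_a47f92_an.G.EAvg

set_option autoImplicit false
set_option linter.unusedSectionVars false

namespace Pool.Agent.Lib.MP_a47f92_an

open MeasureTheory Filter Topology Set Complex Metric Function
open scoped ContDiff ComplexConjugate ComplexOrder Matrix ENNReal NNReal

/-! The average over the leaves. -/

variable {n d s : ℕ} {F : E n → E n} {τ φ φ' : Measure (Fr n s)} {Ψ Y Y' : Measure (Fr n (s + 1))}
  {ν : Measure (E n)} {Z : Set (E n)} {δ : ℝ}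

theorem EAv2_eb (c C C' ε M₂ : ℝ) (i w m N : ℕ) :
    eb d F Ψ (c * C) (c * C') ε M₂ i w m N = c * eb d F Ψ C C' ε M₂ i w m N := by
  simp only [eb]
  ring

theorem EAv2_cone (hF : IsLift d F) {K : Set (E n)} (hK : IsCone K) : IsCone (F ⁻¹' Kᶜ) := by
  intro c hc z hz h'
  have hc' : c ^ d ≠ 0 := pow_ne_zero _ hc
  rw [hF.hom] at h'
  exact hz (by simpa only [inv_smul_smul₀ hc'] using hK _ (inv_ne_zero hc') _ h')

theorem EAv2_meas (hF : IsLift d F) (hd : 1 ≤ d) (i N : ℕ) (M : ℝ) :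
    MeasurableSet (F^[i] ⁻¹' (CJ F s N M)ᶜ) :=
  ((C_cc_CJ hF hd s N M).1.isOpen_compl.preimage (hF.iterate i).contDiff.continuous).measurableSet

theorem EAv2_scale {c C e : ℝ} (hc : 0 ≤ c) (D G : ℝ≥0∞) :
    ENNReal.ofReal c * (D * (ENNReal.ofReal C * G + ENNReal.ofReal e)) =
      D * (ENNReal.ofReal (c * C) * G + ENNReal.ofReal (c * e)) := by
  rw [ENNReal.ofReal_mul hc, ENNReal.ofReal_mul hc]
  ring

/-- `exists_leaves`, `lintegral_le_two_mul` for `ub` (`measurableSet_cn`, `measurable_th`,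
`measurable_al`, `measurableSet_ok`), `ub_ae`, `norm_mt_le`, `th_le_jz`, `core_one`. -/
theorem Dyn.core (h : Dyn d s F τ φ φ' Ψ Y Y' ν Z δ) : ∃ C : ℝ, 0 ≤ C ∧
    ∀ (ε : ℝ) (B : ℕ) (K M₂ : ℝ), 0 < ε → 0 ≤ K → 1 ≤ M₂ → ∃ M₁ C' : ℝ, 0 ≤ C' ∧
    ∀ (i w m N : ℕ) (J : Fin s → Fin n), 1 ≤ i → w < B → N ≤ w + m →
      ∫⁻ z in nb (δ / 4) Z ∩ Sh n 1 2 ∩ F^[i] ⁻¹' (CJ F s N M₁)ᶜ ∩ Ok d s F i w m K J,
          ENNReal.ofReal (al F^[i + w + m] J z ^ 2) ≤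
        ENNReal.ofReal (((d : ℝ) ^ (i + w + m)) ^ s) *
          (ENNReal.ofReal C * ∫⁻ ℓ, ENNReal.ofReal (gam d F Ψ w m ℓ) ∂ub ((s + 1) * n) +
            ENNReal.ofReal (eb d F Ψ C C' ε M₂ i w m N)) := by
  have hF := h.hF
  have hd : 1 ≤ d := one_le_two.trans h.hd
  obtain ⟨δ₀, M, hδ, hM, hL⟩ := exists_leaves n s (lt_of_le_of_lt (Nat.zero_le _) h.hs)
  obtain ⟨C, hC, H⟩ := h.core_one hM
  obtain ⟨c, hc, hcc⟩ : ∃ c : ℝ, 0 ≤ c ∧ c * δ₀ ^ 2 = 4 ^ s :=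
    ⟨4 ^ s / δ₀ ^ 2, by positivity, div_mul_cancel₀ _ (by positivity)⟩
  refine ⟨2 * c * C, by positivity, fun ε B K M₂ hε hK hM₂ => ?_⟩
  obtain ⟨M₁, C', hC', H'⟩ := H ε B K M₂ hε hK hM₂
  refine ⟨M₁, 2 * c * C', by positivity, fun i w m N J hi hw hN => ?_⟩
  have hG := hF.iterate (i + w + m)
  have hcn := measurableSet_cn hF i w m J M K
  have hT0 : MeasurableSet (nb (δ / 4) Z ∩ Sh n 1 2 ∩ F^[i] ⁻¹' (CJ F s N M₁)ᶜ) :=
    ((isClosed_nb h.cZ.1).measurableSet.inter (measurableSet_Sh n 1 2)).inter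
      (EAv2_meas hF hd i N M₁)
  have hS : MeasurableSet {q : E ((s + 1) * n) × E n |
      q.2 ∈ Cn d F i w m (mt (s + 1) n q.1) J M K ∧
        δ₀ * al F^[i + w + m] J q.2 ≤ ‖th (mt (s + 1) n q.1) F^[i + w + m] q.2 (evs J)‖} :=
    hcn.inter (measurableSet_le (((measurable_al hG J).comp measurable_snd).const_mul _)
      (measurable_th hG J).norm)
  have key := lintegral_le_two_mul (ub ((s + 1) * n)) volume hS
    (hT0.inter (measurableSet_ok hF hd i w m K J).1)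
    (fun z hz => hL d F i w m K J z hF hd
      (norm_pos_iff.1 (one_pos.trans hz.1.1.2.1)) hz.2)
    (f := fun z => ENNReal.ofReal (al F^[i + w + m] J z ^ 2))
    ((measurable_al hG J).pow_const 2).ennreal_ofReal
  refine key.trans ?_
  have hb : ∀ᵐ ℓ ∂ub ((s + 1) * n),
      ∫⁻ z in nb (δ / 4) Z ∩ Sh n 1 2 ∩ F^[i] ⁻¹' (CJ F s N M₁)ᶜ ∩ Ok d s F i w m K J ∩
        {z | z ∈ Cn d F i w m (mt (s + 1) n ℓ) J M K ∧
          δ₀ * al F^[i + w + m] J z ≤ ‖th (mt (s + 1) n ℓ) F^[i + w + m] z (evs J)‖},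
        ENNReal.ofReal (al F^[i + w + m] J z ^ 2) ≤
      ENNReal.ofReal c * (ENNReal.ofReal (((d : ℝ) ^ (i + w + m)) ^ s) *
        (ENNReal.ofReal C * ENNReal.ofReal (gam d F Ψ w m ℓ) +
          ENNReal.ofReal (eb d F Ψ C C' ε M₂ i w m N))) := by
    filter_upwards [ub_ae ((s + 1) * n)] with ℓ hℓ
    have hℓ' : ‖mt (s + 1) n ℓ‖ ≤ 1 := (norm_mt_le ℓ).trans hℓ.le
    have hm : MeasurableSet (Cn d F i w m (mt (s + 1) n ℓ) J M K) :=
      measurable_prodMk_left hcn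
    refine le_trans ?_ (mul_le_mul_right (H' i w m N J _ hi hw hN hℓ' hm) _)
    rw [← lintegral_const_mul' _ _ ENNReal.ofReal_ne_top]
    refine le_trans (setLIntegral_mono' ((hT0.inter (measurableSet_ok hF hd i w m K J).1).inter
      (measurable_prodMk_left hS)) fun z hz => ?_)
      (lintegral_mono_set fun z hz => ⟨hz.1.1, hz.2.1⟩)
    have hz0 : z ≠ 0 := norm_pos_iff.1 (one_pos.trans hz.1.1.1.2.1)
    have h0 : mt (s + 1) n ℓ (F^[i + w + m] z) 0 ≠ 0 := fun e => by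
      have h1 := hz.2.1.1
      rw [e, norm_zero, mul_zero] at h1
      exact hG.ne hz0 (norm_le_zero_iff.1 h1)
    have h1 := th_le_jz hG hℓ' J hz0 hz.1.1.1.2.2.le h0
    have h2 : (δ₀ * al F^[i + w + m] J z) ^ 2 ≤ _ :=
      pow_le_pow_left₀ (mul_nonneg hδ.le (norm_nonneg _)) hz.2.2 2
    rw [← ENNReal.ofReal_mul hc]
    refine ENNReal.ofReal_le_ofReal (le_of_mul_le_mul_left ?_ (pow_pos hδ 2))
    rw [← mul_pow, ← mul_assoc, mul_comm _ c, hcc]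
    exact h2.trans h1
  refine (mul_le_mul_right (lintegral_mono_ae hb) _).trans (le_of_eq ?_)
  rw [lintegral_const_mul' _ _ ENNReal.ofReal_ne_top,
    lintegral_const_mul' _ _ ENNReal.ofReal_ne_top, lintegral_add_right _ measurable_const,
    lintegral_const_mul' _ _ ENNReal.ofReal_ne_top, lintegral_const, measure_univ, mul_one,
    EAv2_eb, ← EAv2_scale (by positivity), ENNReal.ofReal_mul zero_le_two, ENNReal.ofReal_ofNat,
    mul_assoc]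

/-- `dn_fw`, `hat_dens_fw`. -/
theorem hat_gs (hF : IsLift d F) (hd : 1 ≤ d) (L p : ℕ) {z : E n} (hz : 1 ≤ ‖z‖) :
    hat (dn (gs d F L p)) z ≤ (((d : ℝ) ^ L) ^ p)⁻¹ * wn p (Bm F^[L] z) ^ 2 := by
  have hz0 : z ≠ 0 := norm_pos_iff.1 (one_pos.trans_le hz)
  have hG := hF.iterate L
  have e : ∀ x : Fr n p, dn (gs d F L p) x = (((d : ℝ) ^ L) ^ p)⁻¹ * dens (fw F^[L] x) := by
    intro x
    rw [dens, ← dn_fw pots_lg hG (Nat.one_le_pow _ _ hd), dn, dn]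
    split_ifs with hx
    · exact (mul_zero _).symm
    · have e1 : dc (gs d F L p) x = mdC fun l : Fin p => ((((d : ℝ) ^ L)⁻¹ : ℝ) : ℂ) •
          lv (fun z => lg (F^[L] z)) x := by
        refine congrArg mdC (funext fun l => ?_)
        rw [lv_eq_gl, lv_eq_gl, ← gl_const_mul]
        congr 1
        funext w
        exact ofReal_mul _ _
      rw [e1, mdC_smul, Finset.prod_const, Finset.card_univ, Fintype.card_fin, ← ofReal_pow,
        re_ofReal_mul, inv_pow]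
      rfl
  have e2 : hat (dn (gs d F L p)) z =
      (((d : ℝ) ^ L) ^ p)⁻¹ * hat (fun x : Fr n p => dens (fw F^[L] x)) z := by
    simp only [hat, e, Finset.mul_sum]
  rw [e2, hat_dens_fw hG hz0]
  exact mul_le_mul_of_nonneg_left (div_le_self (sq_nonneg _)
    (one_le_pow₀ (by nlinarith))) (by positivity)

/-- `wg_le_rf` with `ubφ'`, `rf_le`, `hat_gs`, the first condition of `Ok`, `core`; the union over
the `n ^ s` frames `J`. -/
theorem Dyn.wg_le (h : Dyn d s F τ φ φ' Ψ Y Y' ν Z δ) : ∃ C : ℝ, 0 ≤ C ∧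
    ∀ (ε : ℝ) (B : ℕ) (K M₂ : ℝ), 0 < ε → 0 ≤ K → 1 ≤ M₂ → ∃ M₁ C' : ℝ, 0 ≤ C' ∧
    ∀ (i w m N : ℕ), 1 ≤ i → w < B → N ≤ w + m →
      wg φ' (gs d F (i + w + m) s) (F^[i] ⁻¹' (CJ F s N M₁)ᶜ) ≤
        wg φ' (gs d F (i + w + m) s) (⋃ J, Ok d s F i w m K J)ᶜ +
          (ENNReal.ofReal C * ∫⁻ ℓ, ENNReal.ofReal (gam d F Ψ w m ℓ) ∂ub ((s + 1) * n) +
            ENNReal.ofReal (eb d F Ψ C C' ε M₂ i w m N)) := by
  have hF := h.hF
  have hd : 1 ≤ d := one_le_two.trans h.hd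
  obtain ⟨C₀, h₀⟩ := h.ubφ'
  obtain ⟨C, hC, H⟩ := h.core
  refine ⟨C₀ * (n ^ s * n ^ s) * C, by positivity, fun ε B K M₂ hε hK hM₂ => ?_⟩
  obtain ⟨M₁, C', hC', H'⟩ := H ε B K M₂ hε hK hM₂
  refine ⟨M₁, C₀ * (n ^ s * n ^ s) * C', by positivity, fun i w m N hi hw hN => ?_⟩
  have hO := EAv2_meas (s := s) hF hd i N M₁
  have hOc := EAv2_cone (hF.iterate i) (C_cc_CJ hF hd s N M₁).2
  have hU : MeasurableSet (⋃ J, Ok d s F i w m K J) :=
    MeasurableSet.iUnion fun J => (measurableSet_ok hF hd i w m K J).1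
  have hUc : IsCone (F^[i] ⁻¹' (CJ F s N M₁)ᶜ ∩ ⋃ J, Ok d s F i w m K J) := fun c hc z hz =>
    ⟨hOc c hc z hz.1, by
      obtain ⟨J, hJ⟩ := mem_iUnion.1 hz.2
      exact mem_iUnion.2 ⟨J, (measurableSet_ok hF hd i w m K J).2 c hc z hJ⟩⟩
  have hq := pps_gs hF hd (i + w + m) s
  have hn : MeasurableSet (nb (δ / 4) Z) := (isClosed_nb h.cZ.1).measurableSet
  refine (measure_le_inter_add_sdiff _ _ (⋃ J, Ok d s F i w m K J)).trans ?_
  rw [add_comm]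
  refine add_le_add (measure_mono fun z hz => hz.2) ?_
  refine (wg_le_rf h₀ hq (hO.inter hU) hUc).trans ?_
  refine (mul_le_mul_right (rf_le _ (hn.inter (hO.inter hU)) (pt_dn hq)) _).trans ?_
  have hD : (0 : ℝ) < ((d : ℝ) ^ (i + w + m)) ^ s := by
    have : (0 : ℝ) < d := by exact_mod_cast hd
    positivity
  have h1 : ∀ J : Fin s → Fin n,
      ∫⁻ z in nb (δ / 4) Z ∩ Sh n 1 2 ∩ F^[i] ⁻¹' (CJ F s N M₁)ᶜ ∩ Ok d s F i w m K J,
        ENNReal.ofReal (hat (dn (gs d F (i + w + m) s)) z) ≤ ENNReal.ofReal (n ^ s) *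
          (ENNReal.ofReal C * ∫⁻ ℓ, ENNReal.ofReal (gam d F Ψ w m ℓ) ∂ub ((s + 1) * n) +
            ENNReal.ofReal (eb d F Ψ C C' ε M₂ i w m N)) := by
    intro J
    have h2 := mul_le_mul_right (H' i w m N J hi hw hN)
      (ENNReal.ofReal ((((d : ℝ) ^ (i + w + m)) ^ s)⁻¹ * n ^ s))
    rw [← mul_assoc, ← ENNReal.ofReal_mul (by positivity), mul_right_comm, inv_mul_cancel₀ hD.ne',
      one_mul, ← lintegral_const_mul' _ _ ENNReal.ofReal_ne_top] at h2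
    refine le_trans (setLIntegral_mono' (((hn.inter (measurableSet_Sh n 1 2)).inter hO).inter
      (measurableSet_ok hF hd i w m K J).1) fun z hz => ?_) h2
    rw [← ENNReal.ofReal_mul (by positivity), mul_assoc]
    exact ENNReal.ofReal_le_ofReal ((hat_gs hF hd _ s hz.1.1.2.1.le).trans
      (mul_le_mul_of_nonneg_left hz.2.1 (by positivity)))
  have h3 : nb (δ / 4) Z ∩ (F^[i] ⁻¹' (CJ F s N M₁)ᶜ ∩ ⋃ J, Ok d s F i w m K J) ∩ Sh n 1 2 ⊆
      ⋃ J, nb (δ / 4) Z ∩ Sh n 1 2 ∩ F^[i] ⁻¹' (CJ F s N M₁)ᶜ ∩ Ok d s F i w m K J := by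
    intro z hz
    obtain ⟨J, hJ⟩ := mem_iUnion.1 hz.1.2.2
    exact mem_iUnion.2 ⟨J, ⟨⟨hz.1.1, hz.2⟩, hz.1.2.1⟩, hJ⟩
  refine (mul_le_mul_right ((lintegral_mono_set h3).trans ((lintegral_iUnion_le _ _).trans
    (ENNReal.tsum_le_tsum h1))) _).trans (le_of_eq ?_)
  rw [tsum_fintype, Finset.sum_const, Finset.card_univ, Fintype.card_fun, Fintype.card_fin,
    Fintype.card_fin, nsmul_eq_mul, EAv2_eb,
    ← one_mul (_ + ENNReal.ofReal (_ * eb _ _ _ _ _ _ _ _ _ _ _)), ← EAv2_scale (by positivity),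
    one_mul, ENNReal.ofReal_mul (NNReal.coe_nonneg C₀), ENNReal.ofReal_mul (by positivity),
    ← ENNReal.ofReal_natCast, Nat.cast_pow, ENNReal.ofReal_coe_nnreal]
  simp only [mul_assoc]

end Pool.Agent.Lib.MP_a47f92_an
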