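import Pool.Agent.Lib.MP_a47f92_an.G.Dyn
import Pool.Agent.Lib.MP_a47f92_an.G.UB
import Pool.Agent.Lib.MP_a47f92_an.G.V2

set_option autoImplicit false
set_option linter.unusedSectionVars false

namespace Pool.Agent.Lib.MP_a47f92_an

open MeasureTheory Filter Topology Set Complex Metric Function
open scoped ContDiff ComplexConjugate ComplexOrder Matrix ENNReal NNReal

/-! The tube mass estimate. -/

variable {n p : ℕ}

theorem exists_disc_cut {r : ℝ} (hr : 0 < r) : ∃ (γ : ℂ → ℝ) (C : ℝ), ContDiff ℝ ∞ γ ∧ 0 ≤ C ∧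
    tsupport γ ⊆ closedBall 0 (2 * r) ∧ (∀ t, 0 ≤ γ t) ∧ (∀ t, ‖t‖ ≤ r → γ t = 1) ∧
      (∀ t, ‖t‖ < r → gb 1 (rc γ) t = 0) ∧ ∀ t, ‖gb 1 (rc γ) t‖ ≤ C := by
  let f : ContDiffBump (0 : ℂ) := ⟨r, 2 * r, hr, by linarith⟩
  have h1 : ContDiff ℝ ∞ (rc f) := ofRealCLM.contDiff.comp f.contDiff
  have h2 : HasCompactSupport (gb 1 (rc f)) :=
    f.hasCompactSupport.of_isClosed_subset (isClosed_tsupport _)
      ((GW2_gb_supp _ _).trans Kern_supp)
  obtain ⟨C, hC⟩ := (contDiff_gb h1 1).continuous.bounded_above_of_compact_support h2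
  refine ⟨f, C, f.contDiff, (norm_nonneg _).trans (hC 0), f.tsupport_eq.le, fun t => f.nonneg,
    fun t ht => f.one_of_mem_closedBall (mem_closedBall_zero_iff.2 ht), fun t ht => ?_, hC⟩
  have h3 : rc f =ᶠ[𝓝 t] fun _ => 1 := by
    filter_upwards [isOpen_ball.mem_nhds (mem_ball_zero_iff.2 ht)] with w hw
    rw [rc, f.one_of_mem_closedBall (ball_subset_closedBall hw), ofReal_one]
  rw [(gb_congr h3 1).eq_of_nhds, gb_const]

theorem TM_inj {t : ℂ} {A : E (n * n)} (ht : ‖t‖ ≤ 1 / 2) (hA : ‖A‖ ≤ 1) : Tm t A ∈ Inj n :=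
  Tm_inj (((mul_le_of_le_one_right (norm_nonneg _) hA).trans ht).trans_lt (by norm_num))

theorem TM_int (κ : KM n) {Y : Type} [NormedRing Y]
    {Φ : (E n →L[ℂ] E n) × (E n →L[ℂ] E n) → Y}
    (hΦ : ∀ K, IsCompact K → K ⊆ Inj2 n → ContinuousOn Φ K) {c : ℂ → Y} (hc : Continuous c)
    (h0 : ∀ t, t ∉ closedBall (0 : ℂ) (1 / 2) → c t = 0) :
    Integrable (fun y : E (n * n) × ℂ => c y.2 * Φ (Tm y.2 y.1, mt n n y.1))
      ((kmu κ).prod volume) := by
  have hK : IsCompact (closedBall (0 : E (n * n)) 1 ×ˢ closedBall (0 : ℂ) (1 / 2)) :=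
    (isCompact_closedBall _ _).prod (isCompact_closedBall _ _)
  have h1 : Continuous fun y : E (n * n) × ℂ => (Tm y.2 y.1, mt n n y.1) :=
    (continuous_Tm.comp continuous_swap).prodMk ((mt n n).continuous.comp continuous_fst)
  have h2 := (hΦ _ (hK.image h1) (by
    rintro _ ⟨y, hy, rfl⟩
    exact TM_inj (mem_closedBall_zero_iff.1 hy.2) (mem_closedBall_zero_iff.1 hy.1))).comp
      h1.continuousOn (mapsTo_image _ _)
  refine IntegrableOn.integrable_of_ae_notMem_eq_zero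
    (((hc.comp continuous_snd).continuousOn.mul h2).integrableOn_compact hK) ?_
  filter_upwards [Measure.quasiMeasurePreserving_fst.ae (kmu_ae κ)] with y hy h
  rw [h0 _ fun h' => h ⟨mem_closedBall_zero_iff.2 hy.le, h'⟩, zero_mul]

/-- `disc_Sv` for each `A`, Fubini on `closedBall 0 (2 r) × closedBall 0 1` (`continuousOn_Fv`),
then `avg_Fv` for `t ≠ 0`. -/
theorem avg_disc_Sv (κ : KM n) {S : Measure (Fr n p)} (hS : IsCur S) (hc : Closed S)
    {q : Fin (p + 1) → E n → ℝ} (hq : Pots q) {γ : ℂ → ℝ} (hγ : ContDiff ℝ ∞ γ)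
    (hs : tsupport γ ⊆ closedBall 0 (1 / 2)) :
    ((∫ A, ∫ t, γ t * Sv S q (Tm t A) (mt n n A) ∂volume ∂kmu κ : ℝ) : ℂ) =
      -∫ t, gb 1 (rc γ) t * (conj t *
        ((∑ e, ∫ A, κ.G A * Sv S q (Tm t A) (mt n n (ev e)) : ℝ) : ℂ)) := by
  have h1 : ContDiff ℝ ∞ (rc γ) := ofRealCLM.contDiff.comp hγ
  have h2 : tsupport (rc γ) ⊆ closedBall 0 (1 / 2) := Kern_supp.trans hs
  have h0 : ∀ t, t ∉ closedBall (0 : ℂ) (1 / 2) → gb 1 (rc γ) t = 0 := fun t ht =>
    gb_of_notMem_tsupport (fun h => ht (h2 h)) 1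
  have h3 := TM_int κ (Φ := fun y => Fv S q y.1 y.2) (fun K => continuousOn_Fv hS hq)
    (contDiff_gb h1 1).continuous h0
  have h4 : ∀ᵐ A ∂kmu κ, ((∫ t, γ t * Sv S q (Tm t A) (mt n n A) : ℝ) : ℂ) =
      -∫ t, gb 1 (rc γ) t * Fv S q (Tm t A) (mt n n A) := by
    filter_upwards [kmu_ae κ] with A hA
    rw [disc_Sv hS hc hq hA.le h1 h2, neg_neg, ← integral_complex_ofReal]
    simp only [ofReal_mul]
  rw [← integral_complex_ofReal, integral_congr_ae h4, integral_neg,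
    integral_integral_swap (f := fun A t => gb 1 (rc γ) t * Fv S q (Tm t A) (mt n n A)) h3]
  congr 1
  refine integral_congr_ae ?_
  filter_upwards [compl_mem_ae_iff.2 (measure_singleton (0 : ℂ))] with t ht
  by_cases h : t ∈ closedBall (0 : ℂ) (1 / 2)
  · rw [integral_const_mul, avg_Fv κ hS hc hq ht (mem_closedBall_zero_iff.1 h)]
  · simp only [h0 t h, zero_mul, integral_zero]

/-- The left side is at most `ofReal` of the left side of `avg_disc_Sv` (`lp_su`,
`continuousOn_Sv`); bound the right side by `ub_Sv` on `r ≤ ‖t‖ ≤ 2 r`. -/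
theorem tube_mass (κ : KM n) (p : ℕ) {r : ℝ} (hr : 0 < r) (hr1 : r ≤ 1 / 4) : ∃ C : ℝ≥0,
    ∀ (S : Measure (Fr n p)) (K : Set (E n)) (q : Fin (p + 1) → E n → ℝ),
      IsCur S → Closed S → CC K → On S K → PPs q →
      ∫⁻ A, (∫⁻ t in ball (0 : ℂ) r, lp S fun x => dn q (su (Tm t A) (mt n n A) x)) ∂kmu κ ≤
        C * ENNReal.ofReal (mass S) * rf (nb (4 * r) K) (dn q) := by
  obtain ⟨γ, C₀, hγ, hC₀, hs, hp, h1, h0, hb⟩ := exists_disc_cut hr
  obtain ⟨C₁, hC₁⟩ := ub_Sv κ p hr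
  have hv : volume (closedBall (0 : ℂ) (2 * r)) ≠ ⊤ := measure_closedBall_lt_top.ne
  refine ⟨(C₀ * (2 * r)).toNNReal * (volume (closedBall (0 : ℂ) (2 * r))).toNNReal * C₁,
    fun S K q hS hc hK hO hq => ?_⟩
  have hr2 : 2 * r ≤ 1 / 2 := by linarith
  have hs' : tsupport γ ⊆ closedBall 0 (1 / 2) := hs.trans (closedBall_subset_closedBall hr2)
  have hz : ∀ t, t ∉ closedBall (0 : ℂ) (1 / 2) → γ t = 0 := fun t ht =>
    image_eq_zero_of_notMem_tsupport fun h => ht (hs' h)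
  have h3 := TM_int κ (Φ := fun y => Sv S q y.1 y.2) (fun K => continuousOn_Sv hS hq.pots)
    hγ.continuous hz
  have h4 : 0 ≤ᵐ[(kmu κ).prod volume]
      fun y : E (n * n) × ℂ => γ y.2 * Sv S q (Tm y.2 y.1) (mt n n y.1) := by
    filter_upwards [Measure.quasiMeasurePreserving_fst.ae (kmu_ae κ)] with y hy
    by_cases h : y.2 ∈ closedBall (0 : ℂ) (1 / 2)
    · exact mul_nonneg (hp _) (lp_su hS hq (TM_inj (mem_closedBall_zero_iff.1 h) hy.le) _).1
    · simp only [hz _ h, zero_mul, Pi.zero_apply, le_refl]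
  have h5 := ofReal_integral_eq_lintegral_ofReal h3 h4
  rw [integral_prod _ h3, lintegral_prod _ h3.aemeasurable.ennreal_ofReal] at h5
  have h6 : ∀ t : ℂ, ‖gb 1 (rc γ) t * (conj t *
      ((∑ e, ∫ A, κ.G A * Sv S q (Tm t A) (mt n n (ev e)) : ℝ) : ℂ))‖ₑ ≤
      (closedBall (0 : ℂ) (2 * r)).indicator (fun _ => ENNReal.ofReal (C₀ * (2 * r)) *
        (C₁ * ENNReal.ofReal (mass S) * rf (nb (4 * r) K) (dn q))) t := fun t => by
    by_cases h : t ∈ closedBall (0 : ℂ) (2 * r)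
    · rcases lt_or_ge ‖t‖ r with h' | h'
      · rw [h0 t h', zero_mul, enorm_zero]
        exact zero_le
      have ht := mem_closedBall_zero_iff.1 h
      have h7 := hC₁ S K q t (2 * r) hS hK hO hq h' ht hr2
      rw [show 2 * (2 * r) = 4 * r by ring] at h7
      have h8 : 0 ≤ ∑ e, ∫ A, κ.G A * Sv S q (Tm t A) (mt n n (ev e)) :=
        Finset.sum_nonneg fun e _ => integral_nonneg fun A => by
          rcases le_or_gt 1 ‖A‖ with hA | hA
          · simp only [(κ.zero A hA).2, zero_mul, Pi.zero_apply, le_refl]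
          · exact mul_nonneg (κ.G_nonneg A) (lp_su hS hq (TM_inj (ht.trans hr2) hA.le) _).1
      rw [indicator_of_mem h, ← mul_assoc, ← ofReal_norm, norm_mul, norm_mul,
        RCLike.norm_conj, norm_real, Real.norm_of_nonneg h8, ENNReal.ofReal_mul (by positivity)]
      exact mul_le_mul' (ENNReal.ofReal_le_ofReal
        (mul_le_mul (hb t) ht (norm_nonneg _) hC₀)) h7
    · rw [gb_of_notMem_tsupport (fun h' => h (hs (Kern_supp h'))) 1, zero_mul, enorm_zero]
      exact zero_le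
  calc _ ≤ ∫⁻ A, (∫⁻ t, ENNReal.ofReal (γ t * Sv S q (Tm t A) (mt n n A))) ∂kmu κ := by
        refine lintegral_mono_ae ?_
        filter_upwards [kmu_ae κ] with A hA
        refine le_trans (le_of_eq ?_) (setLIntegral_le_lintegral (ball (0 : ℂ) r) _)
        refine setLIntegral_congr_fun measurableSet_ball fun t ht => ?_
        have ht' := (mem_ball_zero_iff.1 ht).le
        rw [h1 t ht', one_mul, (lp_su hS hq (TM_inj (by linarith) hA.le) _).2]
    _ ≤ ‖((∫ A, ∫ t, γ t * Sv S q (Tm t A) (mt n n A) ∂volume ∂kmu κ : ℝ) : ℂ)‖ₑ := by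
        rw [← h5, ← ofReal_norm, norm_real]
        exact ENNReal.ofReal_le_ofReal (le_abs_self _)
    _ ≤ _ := by
        rw [avg_disc_Sv κ hS hc hq.pots hγ hs', enorm_neg]
        refine (enorm_integral_le_lintegral_enorm _).trans ((lintegral_mono h6).trans (le_of_eq ?_))
        rw [lintegral_indicator_const measurableSet_closedBall, ENNReal.coe_mul, ENNReal.coe_mul,
          ENNReal.coe_toNNReal hv, ENNReal.ofReal]
        ring

end Pool.Agent.Lib.MP_a47f92_an
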