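import Pool.Agent.Lib.MP_a47f92_an.G.EMeas
import Pool.Agent.Lib.MP_a47f92_an.G.TM
import Pool.Agent.Lib.MP_a47f92_an.Sm3
import Pool.Agent.Lib.MP_a47f92_an.G.Cur4

set_option autoImplicit false
set_option linter.unusedSectionVars false

namespace Pool.Agent.Lib.MP_a47f92_an

open MeasureTheory Filter Topology Set Complex Metric Function
open scoped ContDiff ComplexConjugate ComplexOrder Matrix ENNReal NNReal

/-! The average of the masses of the tubes. -/

variable {n d s : ℕ} {F : E n → E n} {τ φ φ' : Measure (Fr n s)} {Ψ Y Y' : Measure (Fr n (s + 1))}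
  {ν : Measure (E n)} {Z : Set (E n)} {δ : ℝ}

theorem EFub_cont {D : ℕ} {G : E n → E n} (hG : IsLift D G) (A : E (n * n)) (J : Fin s → Fin n)
    {X : Type} [TopologicalSpace X] {t : X → ℂ} {b : X → E n} {y : X → E (s + 1)}
    (ht : Continuous t) (hb : Continuous b) (hy : Continuous y) :
    Continuous fun w => su (Tm (t w) A) (mt n n A) (fw G (Zb (b w) J (y w), evs J)) :=
  continuous_su.comp ((continuous_Tm.comp (ht.prodMk continuous_const)).prodMk
    (continuous_const.prodMk ((continuous_fw hG).comp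
      (((continuous_Zb J).comp (hb.prodMk hy)).prodMk continuous_const))))

theorem EFub_pps {u Q : E n → ℝ} {D₁ D₂ : ℝ} (hu : PL D₁ u) (hQ : PL D₂ Q) :
    PPs (Fin.cons u fun _ : Fin s => Q : Fin (s + 1) → E n → ℝ) :=
  PPs.cons (fun _ => ⟨D₂, hQ⟩) hu

/-- `ELT_cons`, `md_Ph` (`nv_Ph` gives `Ph ≠ 0`), `measurePreserving_cs'`, `Zb_cs`. -/
theorem mI_Ph {D : ℕ} {G : E n → E n} (hG : IsLift D G) {u Q : E n → ℝ} {D₁ D₂ : ℝ} (hu : PL D₁ u)
    (hQ : PL D₂ Q) {A : E (n * n)} (hA : ‖A‖ ≤ 1) {b : E n} {J : Fin s → Fin n} {R ρ : ℝ}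
    (hR : R ≤ 1 / 2) (h : Fat b J ρ) :
    mI (Tb s R ρ) (fun y => u (Ph G A b J y)) (fun y => Q (Ph G A b J y)) =
      ∫⁻ t in ball (0 : ℂ) R, ∫⁻ x in ball (0 : E s) ρ, ENNReal.ofReal
        (dn (Fin.cons u fun _ : Fin s => Q)
          (su (Tm t A) (mt n n A) (fw G (Zb b J (cs 0 x), evs J)))) := by
  have hq := (EFub_pps (s := s) hu hQ).pots
  set q : Fin (s + 1) → E n → ℝ := Fin.cons u fun _ : Fin s => Q with hq'
  have hm : Measurable fun y : E (s + 1) => ENNReal.ofReal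
      (dn q (su (Tm (y 0) A) (mt n n A) (fw G (Zb b J y, evs J)))) :=
    ((measurable_dn hq).comp (EFub_cont hG A J
      (EuclideanSpace.proj (𝕜 := ℂ) (0 : Fin (s + 1))).continuous continuous_const
      continuous_id).measurable).ennreal_ofReal
  have hT := (isOpen_Tb s R ρ).measurableSet
  have h1 : (fun w : ℂ × E s => cs w.1 w.2) ⁻¹' Tb s R ρ = ball 0 R ×ˢ ball 0 ρ := by
    ext w
    rw [mem_prod, mem_ball_zero_iff, mem_ball_zero_iff]
    rfl
  rw [mI, setLIntegral_congr_fun hT (g := fun y => ENNReal.ofReal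
      (dn q (su (Tm (y 0) A) (mt n n A) (fw G (Zb b J y, evs J))))) fun y hy => ?_,
    ← measurePreserving_cs'.setLIntegral_comp_preimage hT hm, h1, Measure.volume_eq_prod]
  · exact setLIntegral_prod _ (hm.comp measurePreserving_cs'.measurable).aemeasurable
  · beta_reduce
    rw [ELT_cons, ← md_Ph hG hq ((nv_Ph hG h hR hA).ne y hy)]
    congr 2
    funext l
    exact Fin.cases rfl (fun _ => rfl) l

/-- `box_geom`, `lintegral_Zb` for the indicator of `nb δ Z ∩ Sh n (1 / 2) 3`, `shell_le`,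
`isClosed_nb`, `isCone_nb`. -/
theorem exists_slab (n s : ℕ) {δ ρ : ℝ} (h0 : 0 < δ) (h1 : δ ≤ 1 / 4) (hρ0 : 0 < ρ)
    (hρ : 20 * (s + 1) * ρ ≤ δ) : ∃ C : ℝ≥0, ∀ (Z : Set (E n)) (J : Fin s → Fin n)
      (g : Fr n s → ℝ), CC Z → PT g →
      ∫⁻ b in nb (δ / 2) Z ∩ Sh n (3 / 4) (9 / 4), ∫⁻ x in ball (0 : E s) (3 * ρ),
        ENNReal.ofReal (g (Zb b J (cs 0 x), evs J)) ≤ C * rf (nb δ Z) g := by
  obtain ⟨C, hC⟩ := shell_le n s
  have hV : volume (ball (0 : E s) (3 * ρ)) ≠ ⊤ := measure_ball_lt_top.ne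
  refine ⟨(volume (ball (0 : E s) (3 * ρ))).toNNReal * C, fun Z J g hZ hg => ?_⟩
  have hW := (isClosed_nb (r := δ) hZ.1).measurableSet
  have hS := hW.inter (measurableSet_Sh n (1 / 2) 3)
  have hm : Measurable fun z => ENNReal.ofReal (hat g z) :=
    (Finset.measurable_sum _ fun J _ =>
      hg.meas.comp (measurable_id.prodMk measurable_const)).ennreal_ofReal
  calc _ ≤ ∫⁻ b in nb (δ / 2) Z ∩ Sh n (3 / 4) (9 / 4), ∫⁻ x in ball (0 : E s) (3 * ρ),
        (nb δ Z ∩ Sh n (1 / 2) 3).indicator (fun z => ENNReal.ofReal (hat g z))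
          (Zb b J (cs 0 x)) := by
        refine setLIntegral_mono' ((isClosed_nb hZ.1).measurableSet.inter (measurableSet_Sh _ _ _))
          fun b hb => setLIntegral_mono' measurableSet_ball fun x hx => ?_
        have h2 : ‖tl (cs 0 x)‖ < 4 * ρ := (mem_ball_zero_iff.1 hx).trans (by linarith)
        rw [indicator_of_mem ((box_geom h0 h1 hρ0.le hρ b J).2 hb _ h2)]
        exact ENNReal.ofReal_le_ofReal (Finset.single_le_sum
          (f := fun J : Fin s → Fin n => g (Zb b _ (cs 0 x), evs J))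
          (fun _ _ => hg.nonneg _) (Finset.mem_univ J))
    _ ≤ _ := setLIntegral_le_lintegral _ _
    _ = _ := lintegral_Zb J measurableSet_ball (hm.indicator hS)
    _ ≤ _ := by
        rw [lintegral_indicator hS, ENNReal.coe_mul, ENNReal.coe_toNNReal hV, mul_assoc]
        exact mul_le_mul_right (hC _ g hW (isCone_nb hZ.2) hg) _

/-- For `‖A‖ ≤ 1` (`kmu_ae`): `mI_Ph`, swap `b` and `t` (`measurable_dn`, `continuous_su`,
`continuous_fw`, `continuous_Zb`), `exists_slab` for `g = dn q ∘ su (Tm t A) (mt n n A) ∘ fw F^[i]`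
(`pt_dn`, `PT.comp_su`, `PT.comp_fw`), `lbφ`, `lp_lam`. Then `tube_mass` with `r = δ / 4` for
`lam d s F i φ` (`Cl1.toLam`, `onZ`), `lbΨ`, `IsCur.lp_dn`. -/
theorem Dyn.tube_avg (h : Dyn d s F τ φ φ' Ψ Y Y' ν Z δ) (κ : KM n) {ρ : ℝ} (hρ0 : 0 < ρ)
    (hρ : 20 * (s + 1) * ρ ≤ δ) : ∃ C : ℝ, 0 ≤ C ∧
    ∀ (i : ℕ) (J : Fin s → Fin n) (u Q : E n → ℝ) (D₁ D₂ : ℝ), 1 ≤ i → PL D₁ u → PL D₂ Q →
      ∫⁻ A, (∫⁻ b in nb (δ / 2) Z ∩ Sh n (3 / 4) (9 / 4), mI (Tb s (δ / 4) (3 * ρ))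
        (fun y => u (Ph F^[i] A b J y)) fun y => Q (Ph F^[i] A b J y)) ∂kmu κ ≤
        ENNReal.ofReal (C * ((d : ℝ) ^ i) ^ s * p1 Ψ (Fin.cons u fun _ => Q)) := by
  obtain ⟨C₁, h₁⟩ := exists_slab n s h.δ0 h.δ1 hρ0 hρ
  obtain ⟨C₂, h₂⟩ := h.lbφ
  have hδ0 := h.δ0
  have hδ1 := h.δ1
  obtain ⟨C₃, h₃⟩ := tube_mass κ s (r := δ / 4) (by linarith) (by linarith)
  obtain ⟨C₄, h₄⟩ := h.lbΨ
  refine ⟨(C₁ * C₂ * C₃ * C₄ : ℝ≥0), NNReal.coe_nonneg _, fun i J u Q D₁ D₂ hi hu hQ => ?_⟩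
  have hd : 1 ≤ d := le_trans one_le_two h.hd
  have hd' : (0 : ℝ) < (d : ℝ) ^ (s * i) := by positivity
  have hG := h.hF.iterate i
  have hq := EFub_pps (s := s) hu hQ
  set q : Fin (s + 1) → E n → ℝ := Fin.cons u fun _ : Fin s => Q with hq'
  have hS : MeasurableSet (nb (δ / 2) Z ∩ Sh n (3 / 4) (9 / 4)) :=
    (isClosed_nb h.cZ.1).measurableSet.inter (measurableSet_Sh _ _ _)
  have hK : (C₁ * C₂ * ENNReal.ofReal ((d : ℝ) ^ (s * i)) : ℝ≥0∞) ≠ ⊤ := by finiteness
  have hc := h.cφ.toLam h.hF hd i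
  calc _ ≤ ∫⁻ A, C₁ * C₂ * ENNReal.ofReal ((d : ℝ) ^ (s * i)) * (∫⁻ t in ball (0 : ℂ) (δ / 4),
        lp (lam d s F i φ) fun x => dn q (su (Tm t A) (mt n n A) x)) ∂kmu κ := by
        refine lintegral_mono_ae ?_
        filter_upwards [kmu_ae κ] with A hA
        rw [setLIntegral_congr_fun hS fun b hb => mI_Ph hG hu hQ hA.le (by linarith)
          fun y hy => ((box_geom hδ0 hδ1 hρ0.le hρ b J).2 hb y (hy.trans (by linarith))).2,
          lintegral_lintegral_swap, ← lintegral_const_mul' _ _ hK]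
        · refine setLIntegral_mono' measurableSet_ball fun t ht => ?_
          have ht' : ‖t‖ ≤ 1 / 2 := (mem_ball_zero_iff.1 ht).le.trans (by linarith)
          have hg : PT fun x : Fr n s => dn q (su (Tm t A) (mt n n A) x) :=
            (pt_dn hq).comp_su (fun z hz => by
              have h1 := (norm_Tm ht' hA.le z).1
              rw [hz, norm_zero, mul_zero] at h1
              exact norm_le_zero_iff.1 h1) _
          have hg' := hg.comp_fw hG (Nat.one_le_pow _ _ hd)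
          refine (h₁ Z J _ h.cZ hg').trans ?_
          rw [lp_lam φ h.hF s i hg.meas, mul_assoc, mul_assoc, ← mul_assoc (ENNReal.ofReal _),
            ← ENNReal.ofReal_mul hd'.le, mul_inv_cancel₀ hd'.ne', ENNReal.ofReal_one, one_mul]
          exact mul_le_mul_right (h₂ _ hg') _
        · refine (Measurable.lintegral_prod_right' (f := fun w : (E n × ℂ) × E s =>
            ENNReal.ofReal (dn q (su (Tm w.1.2 A) (mt n n A)
              (fw F^[i] (Zb w.1.1 J (cs 0 w.2), evs J))))) ?_).aemeasurable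
          exact ((measurable_dn hq.pots).comp (EFub_cont hG A J continuous_fst.snd
            continuous_fst.fst ((csE s).continuous.comp
              (continuous_const.prodMk continuous_snd))).measurable).ennreal_ofReal
    _ ≤ C₁ * C₂ * ENNReal.ofReal ((d : ℝ) ^ (s * i)) * (C₃ * (C₄ * lp Ψ (dn q))) := by
        rw [lintegral_const_mul' _ _ hK]
        refine mul_le_mul_right ((h₃ _ Z q hc.cur hc.closed h.cZ (h.onZ i hi) hq).trans ?_) _
        rw [hc.mass, ENNReal.ofReal_one, mul_one, show 4 * (δ / 4) = δ by ring]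
        exact mul_le_mul_right (h₄ _ (pt_dn hq)) _
    _ = _ := by
        rw [h.cΨ.lp_dn hq, ENNReal.ofReal_mul (by positivity),
          ENNReal.ofReal_mul (NNReal.coe_nonneg _), ENNReal.ofReal_coe_nnreal, ← pow_mul,
          mul_comm i s]
        push_cast
        ring

end Pool.Agent.Lib.MP_a47f92_an
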