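import Pool.Agent.Lib.MP_a47f92_an.G.EOne
import Pool.Agent.Lib.MP_a47f92_an.G.EFub
import Pool.Agent.Lib.MP_a47f92_an.G.CCj

set_option autoImplicit false
set_option linter.unusedSectionVars false

namespace Pool.Agent.Lib.MP_a47f92_an

open MeasureTheory Filter Topology Set Complex Metric Function
open scoped ContDiff ComplexConjugate ComplexOrder Matrix ENNReal NNReal

/-! Averages over the tubes. -/

variable {n d s : ℕ} {F : E n → E n} {τ φ φ' : Measure (Fr n s)} {Ψ Y Y' : Measure (Fr n (s + 1))}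
  {ν : Measure (E n)} {Z : Set (E n)} {δ : ℝ}

/-- The mass of `Ψ ∧ (f ^ j)^* ω ∧ T_l ^ s`. -/
noncomputable def aj (d : ℕ) (F : E n → E n) (Ψ : Measure (Fr n (s + 1))) (j l : ℕ) : ℝ :=
  p1 Ψ (Fin.cons (fun z => lg (F^[j] z)) (gs d F l s))

/-- The error terms. -/
noncomputable def eb (d : ℕ) (F : E n → E n) (Ψ : Measure (Fr n (s + 1))) (C C' ε M₂ : ℝ)
    (i w m N : ℕ) : ℝ :=
  C * ε + C' * (1 + i + w + m) * (aj d F Ψ (w + m) (w + m) + ((d : ℝ) ^ i)⁻¹) +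
    C * M₂⁻¹ * ∑ j ∈ Finset.range N, aj d F Ψ j (w + m)

theorem aj_nonneg (hF : IsLift d F) (hd : 1 ≤ d) (hΨ : IsCur Ψ) (j l : ℕ) : 0 ≤ aj d F Ψ j l :=
  hΨ.p1_nonneg ((pps_gs hF hd l s).cons (pl_lg.comp (hF.iterate j)))

/-- `IsCur.pr_cons_add`, `pr_cons_const_mul`, `IsCur.pr_cons_sum`. -/
theorem p1_ut (hF : IsLift d F) (hd : 1 ≤ d) (hΨ : IsCur Ψ) (ℓ : E n →L[ℂ] E (s + 1)) (w m N : ℕ)
    (c c' : ℝ) : p1 Ψ (Fin.cons (ut d F ℓ w m N c c') (gs d F (w + m) s)) =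
      p1 Ψ (Fin.cons (fun z => pe d F ℓ m (F^[w] z)) (gs d F (w + m) s)) +
        c * aj d F Ψ (w + m) (w + m) + c' * ∑ j ∈ Finset.range N, aj d F Ψ j (w + m) := by
  have hq := (pps_gs hF hd (w + m) s).pots
  have h1 := (pl_pe hF hd ℓ m).lh.comp (hF.iterate w)
  have h2 := (lh_lg.comp (hF.iterate (w + m))).const_mul c
  obtain ⟨D, h3⟩ := ETub_sum hF N
  have e := hΨ.pr_cons_add (bm_const 1) hq (h1.add h2) (h3.lh.const_mul c')
  rw [hΨ.pr_cons_add (bm_const 1) hq h1 h2, pr_cons_const_mul, pr_cons_const_mul,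
    hΨ.pr_cons_sum (bm_const 1) hq (Finset.range N) (u := fun j z => lg (F^[j] z))
      fun j _ => ⟨_, lh_lg.comp (hF.iterate j)⟩] at e
  exact e

theorem EAvg_real {u p q L C₀ X D P a S ε t k μ : ℝ} (hu : 0 ≤ u) (hp : 0 ≤ p) (hq : 0 ≤ q)
    (hL : 0 ≤ L) (hC : 0 ≤ C₀) (hX : 0 ≤ X) (hD : 0 ≤ D) (hP : 0 ≤ P) (ha : 0 ≤ a) (hS : 0 ≤ S)
    (hε : 0 ≤ ε) (ht : 0 ≤ t) (hk : 1 ≤ k) (hμ : 0 ≤ μ) :
    u * D * (p * X * (P + C₀ * k * a + μ * S) + (X * (ε + L * t) + C₀ * k * (X * (L * t))) * q) ≤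
      X * D * (u * (p + q) * P + (u * (p + q) * ε + u * (p * C₀ + q * L * (1 + C₀)) * k * (a + t) +
        u * (p + q) * μ * S)) := by
  obtain ⟨j, rfl⟩ : ∃ j, k = 1 + j := ⟨k - 1, by ring⟩
  have hj : 0 ≤ j := by linarith
  have h : 0 ≤ X * D * u * (q * P + p * ε + p * C₀ * (1 + j) * t + q * L * (1 + C₀) * (1 + j) * a +
      q * L * j * t + q * μ * S) := by positivity
  linarith [h]

theorem EAvg_fin {v c p q L C₀ X D P a S ε t k μ : ℝ} (hv : 0 ≤ v) (hc : 0 ≤ c) (hp : 0 ≤ p)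
    (hq : 0 ≤ q) (hL : 0 ≤ L) (hC : 0 ≤ C₀) (hX : 0 ≤ X) (hD : 0 ≤ D) (hP : 0 ≤ P) (ha : 0 ≤ a)
    (hS : 0 ≤ S) (hε : 0 ≤ ε) (ht : 0 ≤ t) (hk : 1 ≤ k) (hμ : 0 ≤ μ) :
    2 * (ENNReal.ofReal v * ENNReal.ofReal (c * D) *
      (ENNReal.ofReal (p * X * (P + C₀ * k * a + μ * S)) + (ENNReal.ofReal (X * (ε + L * t)) +
        ENNReal.ofReal (C₀ * k) * ENNReal.ofReal (X * (L * t))) * ENNReal.ofReal q)) ≤
      ENNReal.ofReal (X * D) * (ENNReal.ofReal (2 * v * c * (p + q)) * ENNReal.ofReal P +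
        ENNReal.ofReal (2 * v * c * (p + q) * ε + 2 * v * c * (p * C₀ + q * L * (1 + C₀)) * k *
          (a + t) + 2 * v * c * (p + q) * μ * S)) := by
  have hk0 : 0 ≤ k := zero_le_one.trans hk
  rw [← ENNReal.ofReal_mul (p := C₀ * k) (by positivity),
    ← ENNReal.ofReal_add (p := X * (ε + L * t)) (by positivity) (by positivity),
    ← ENNReal.ofReal_mul (q := q) (by positivity),
    ← ENNReal.ofReal_add (p := p * X * (P + C₀ * k * a + μ * S)) (by positivity) (by positivity),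
    ← ENNReal.ofReal_mul hv, ← ENNReal.ofReal_mul (p := v * (c * D)) (by positivity),
    ← ENNReal.ofReal_mul (q := P) (by positivity),
    ← ENNReal.ofReal_add (p := 2 * v * c * (p + q) * P) (by positivity) (by positivity),
    ← ENNReal.ofReal_mul (p := X * D) (by positivity), ← ENNReal.ofReal_ofNat 2,
    ← ENNReal.ofReal_mul zero_le_two]
  refine ENNReal.ofReal_le_ofReal ?_
  have h3 := EAvg_real (u := 2 * v * c) (by positivity) hp hq hL hC hX hD hP ha hS hε ht hk hμ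
  linarith [h3]

theorem EAvg_cs (b : E n) (J : Fin s → Fin n) : Measurable fun x : E s => Zb b J (cs 0 x) :=
  ((continuous_Zb J).comp (continuous_const.prodMk
    ((csE s).continuous.comp (continuous_const.prodMk continuous_id)))).measurable

/-- Integration over the boxes. -/
theorem EAvg_box {ρ : ℝ} (h0 : 0 < δ) (h1 : δ ≤ 1 / 4) (hρ0 : 0 < ρ) (hρ : 20 * (s + 1) * ρ ≤ δ)
    (hZ : IsClosed Z) (J : Fin s → Fin n) {T : Set (E n)} (hT : MeasurableSet T)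
    (hT' : T ⊆ nb (δ / 4) Z ∩ Sh n 1 2) {f I : E n → ℝ≥0∞} (hf : Measurable f) {c k : ℝ≥0∞}
    (hc : c ≠ ⊤) (h : ∀ b, Fat b J (4 * ρ) →
      ∫⁻ x in {x : E s | ‖x‖ ≤ ρ ∧ Zb b J (cs 0 x) ∈ T}, f (Zb b J (cs 0 x)) ≤ c * (I b + k)) :
    ∫⁻ z in T, f z ≤ (volume (closedBall (0 : E s) ρ))⁻¹ * c *
      ((∫⁻ b in nb (δ / 2) Z ∩ Sh n (3 / 4) (9 / 4), I b) +
        k * volume (nb (δ / 2) Z ∩ Sh n (3 / 4) (9 / 4))) := by
  have hB : MeasurableSet (nb (δ / 2) Z ∩ Sh n (3 / 4) (9 / 4)) :=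
    (isClosed_nb hZ).measurableSet.inter (measurableSet_Sh _ _ _)
  have hV0 : volume (closedBall (0 : E s) ρ) ≠ 0 := (measure_closedBall_pos _ _ hρ0).ne'
  have hV1 : volume (closedBall (0 : E s) ρ) ≠ ⊤ := measure_closedBall_lt_top.ne
  have e := lintegral_Zb J (measurableSet_closedBall (x := (0 : E s)) (ε := ρ)) (hf.indicator hT)
  rw [lintegral_indicator hT] at e
  rw [mul_assoc, ← ENNReal.mul_le_iff_le_inv hV0 hV1, ← e, ← setLIntegral_const,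
    ← lintegral_add_right _ measurable_const, ← lintegral_const_mul' _ _ hc,
    ← lintegral_indicator hB]
  refine lintegral_mono fun b => ?_
  have hS : MeasurableSet ((fun x : E s => Zb b J (cs 0 x)) ⁻¹' T) := EAvg_cs b J hT
  have e' : ∫⁻ x in closedBall (0 : E s) ρ, T.indicator f (Zb b J (cs 0 x)) =
      ∫⁻ x in {x : E s | ‖x‖ ≤ ρ ∧ Zb b J (cs 0 x) ∈ T}, f (Zb b J (cs 0 x)) := by
    rw [show (fun x : E s => T.indicator f (Zb b J (cs 0 x))) =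
      ((fun x : E s => Zb b J (cs 0 x)) ⁻¹' T).indicator fun x => f (Zb b J (cs 0 x)) from
      funext fun x => (indicator_comp_right (fun x : E s => Zb b J (cs 0 x))).symm,
      lintegral_indicator hS, Measure.restrict_restrict hS]
    congr 2
    ext x
    simp only [mem_inter_iff, mem_preimage, mem_closedBall_zero_iff, mem_ofPred_eq, and_comm]
  obtain ⟨g1, g2⟩ := box_geom (Z := Z) h0 h1 hρ0.le hρ b J
  rw [e']
  by_cases hb : b ∈ nb (δ / 2) Z ∩ Sh n (3 / 4) (9 / 4)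
  · rw [indicator_of_mem hb]
    exact h b fun y hy => (g2 hb y hy).2
  · rw [show {x : E s | ‖x‖ ≤ ρ ∧ Zb b J (cs 0 x) ∈ T} = ∅ from
      eq_empty_of_forall_notMem fun x hx => hb (g1 x hx.1 (hT' hx.2)), Measure.restrict_empty,
      lintegral_zero_measure]
    exact zero_le

/-- Let `ρ = δ / (20 (s + 1))`, `κ` from `exists_kn`, `δ₁` from `exists_half`, `r` from
`exists_local` with `r₁ = δ / 4`, `M', C'` from `exists_one`, `M₁ = M' / δ₁ + 1`. First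
`lintegral_le_two_mul` for `kmu κ` and `{(A, z) | M' < Sz …}` (`measurable_Sz`, `C_cc_CJ`, `isClosed_nb`, `isCone_nb`,
a section of `measurableSet_cn` is replaced by the hypothesis `hC`). For `‖A‖ ≤ 1` let `T` be the
set of integration; `lintegral_Zb` for `closedBall 0 ρ` and the indicator of `T` times
`ofReal jz`; by `box_geom` only `b ∈ nb (δ / 2) Z ∩ Sh n (3 / 4) (9 / 4)` contribute, and there
`exists_one`, `exists_local`, `mI_mono`, `Tb_mono` apply. Integrate in `b` and `A`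
(`lintegral_add_right` with constants), `tube_avg` with `pl_ut`, `p1_ut`. -/
theorem Dyn.core_one (h : Dyn d s F τ φ φ' Ψ Y Y' ν Z δ) {M : ℝ} (hM : 1 ≤ M) : ∃ C : ℝ, 0 ≤ C ∧
    ∀ (ε : ℝ) (B : ℕ) (K M₂ : ℝ), 0 < ε → 0 ≤ K → 1 ≤ M₂ → ∃ M₁ C' : ℝ, 0 ≤ C' ∧
    ∀ (i w m N : ℕ) (J : Fin s → Fin n) (ℓ : E n →L[ℂ] E (s + 1)), 1 ≤ i → w < B → N ≤ w + m →
      ‖ℓ‖ ≤ 1 → MeasurableSet (Cn d F i w m ℓ J M K) →
      ∫⁻ z in nb (δ / 4) Z ∩ Sh n 1 2 ∩ F^[i] ⁻¹' (CJ F s N M₁)ᶜ ∩ Cn d F i w m ℓ J M K,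
          ENNReal.ofReal (jz F^[i + w + m] ℓ J z) ≤
        ENNReal.ofReal (((d : ℝ) ^ (i + w + m)) ^ s) * (ENNReal.ofReal C * ENNReal.ofReal
          (p1 Ψ (Fin.cons (fun z => pe d F ℓ m (F^[w] z)) (gs d F (w + m) s))) +
            ENNReal.ofReal (eb d F Ψ C C' ε M₂ i w m N)) := by
  have hF := h.hF
  have hd : 1 ≤ d := one_le_two.trans h.hd
  have hδ := h.δ0
  have hδ1 := h.δ1
  obtain ⟨ρ, hρ0, hρ⟩ : ∃ ρ : ℝ, 0 < ρ ∧ 20 * (s + 1) * ρ ≤ δ :=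
    ⟨δ / (20 * (s + 1)), by positivity, (mul_div_cancel₀ _ (by positivity)).le⟩
  obtain ⟨κ⟩ := exists_kn (E (n * n)) volume
  obtain ⟨δ₁, hδ₁, hh⟩ := exists_half κ
  obtain ⟨L, hL, hl⟩ := exists_local hF h.hd s (r₁ := δ / 4) (by positivity) (by linarith) hρ0
  obtain ⟨C₁, hC₁, ho⟩ := exists_one hF h.hd s hρ0 hM
  obtain ⟨p, hp, ha⟩ := h.tube_avg κ hρ0 hρ
  obtain ⟨v, hv0, hv⟩ : ∃ v : ℝ, 0 ≤ v ∧ (volume (closedBall (0 : E s) ρ))⁻¹ = ENNReal.ofReal v :=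
    ⟨_, ENNReal.toReal_nonneg, (ENNReal.ofReal_toReal
      (ENNReal.inv_ne_top.2 (measure_closedBall_pos _ _ hρ0).ne')).symm⟩
  obtain ⟨q, hq0, hq⟩ : ∃ q : ℝ, 0 ≤ q ∧
      volume (nb (δ / 2) Z ∩ Sh n (3 / 4) (9 / 4)) = ENNReal.ofReal q :=
    ⟨_, ENNReal.toReal_nonneg, (ENNReal.ofReal_toReal (ne_top_of_le_ne_top
      (measure_ball_lt_top (x := (0 : E n)) (r := 9 / 4)).ne
      (measure_mono fun z hz => mem_ball_zero_iff.2 hz.2.2))).symm⟩
  refine ⟨2 * v * C₁ * (p + q), by positivity, fun ε B K M₂ hε hK hM₂ => ?_⟩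
  obtain ⟨r, hr0, hr, hl⟩ := hl ε hε
  obtain ⟨M', C₀, hM', hC₀, ho⟩ := ho r B K M₂ hr0 (by linarith) hK hM₂
  refine ⟨M' / δ₁ + 1, 2 * v * C₁ * (p * C₀ + q * L * (1 + C₀)), by positivity,
    fun i w m N J ℓ hi hw hN hℓ hC => ?_⟩
  obtain ⟨T, hT⟩ : ∃ T, T = nb (δ / 4) Z ∩ Sh n 1 2 ∩ F^[i] ⁻¹' (CJ F s N (M' / δ₁ + 1))ᶜ ∩
    Cn d F i w m ℓ J M K := ⟨_, rfl⟩
  have hTm : MeasurableSet T := hT ▸
    (((isClosed_nb h.cZ.1).measurableSet.inter (measurableSet_Sh _ _ _)).inter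
      ((hF.iterate i).contDiff.continuous.measurable
        (C_cc_CJ hF hd s N _).1.measurableSet.compl)).inter hC
  have hSz := measurable_Sz hF (w + m) i ℓ J N
  have hf := (measurable_jz (hF.iterate (i + w + m)) ℓ J).ennreal_ofReal
  have hk : (0 : ℝ) ≤ C₀ * (1 + i + w + m) := by positivity
  have hμ : 0 ≤ M₂⁻¹ := by positivity
  obtain ⟨D', hu⟩ := pl_ut hF hd ℓ w m N hk hμ (pl_pe hF hd ℓ m)
  have hP : 0 ≤ p1 Ψ (Fin.cons (fun z => pe d F ℓ m (F^[w] z)) (gs d F (w + m) s)) :=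
    h.cΨ.p1_nonneg ((pps_gs hF hd (w + m) s).cons ((pl_pe hF hd ℓ m).comp (hF.iterate w)))
  have hA := aj_nonneg hF hd h.cΨ (w + m) (w + m)
  have hS : 0 ≤ ∑ j ∈ Finset.range N, aj d F Ψ j (w + m) :=
    Finset.sum_nonneg fun j _ => aj_nonneg hF hd h.cΨ j (w + m)
  have ha' := ha i J _ _ _ _ hi hu (pl_green hF hd (w + m))
  rw [show p1 Ψ (Fin.cons (ut d F ℓ w m N (C₀ * (1 + i + w + m)) M₂⁻¹)
    fun _ => green d F (w + m)) = _ from p1_ut hF hd h.cΨ ℓ w m N _ _] at ha'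
  rw [← hT]
  refine (lintegral_le_two_mul (kmu κ) volume (measurableSet_lt (measurable_const (a := M')) hSz)
    hTm (fun z hz => ?_) hf).trans ?_
  · rw [hT] at hz
    refine (hh d s F (w + m) i ℓ J N z _ hF (by positivity) (fun e => ?_) hz.1.2).trans
      (measure_mono fun A hA => ?_)
    · have := hz.1.1.2.1
      rw [e, norm_zero] at this
      linarith
    · have h1 : δ₁ * (M' / δ₁ + 1) < _ := hA
      rw [mul_add, mul_div_cancel₀ _ hδ₁.ne'] at h1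
      exact (by linarith : M' < M' + δ₁ * 1).trans h1
  have key : ∀ A : E (n * n), ‖A‖ < 1 →
      ∫⁻ z in T ∩ {z | M' < Sz F (w + m) i ℓ J N z A}, ENNReal.ofReal (jz F^[i + w + m] ℓ J z) ≤
        ENNReal.ofReal v * ENNReal.ofReal (C₁ * ((d : ℝ) ^ (w + m)) ^ s) *
          ((∫⁻ b in nb (δ / 2) Z ∩ Sh n (3 / 4) (9 / 4), mI (Tb s (δ / 4) (3 * ρ))
            (fun y => ut d F ℓ w m N (C₀ * (1 + i + w + m)) M₂⁻¹ (Ph F^[i] A b J y))
            fun y => green d F (w + m) (Ph F^[i] A b J y)) +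
          (ENNReal.ofReal (((d : ℝ) ^ i) ^ s * (ε + L / d ^ i)) +
            ENNReal.ofReal (C₀ * (1 + i + w + m)) *
              ENNReal.ofReal (((d : ℝ) ^ i) ^ s * (L / d ^ i))) * ENNReal.ofReal q) := by
    intro A hA
    have hm : MeasurableSet (T ∩ {z | M' < Sz F (w + m) i ℓ J N z A}) :=
      hTm.inter (measurable_prodMk_left (x := A)
        (measurableSet_lt (measurable_const (a := M')) hSz))
    rw [← hv, ← hq]
    refine EAvg_box hδ hδ1 hρ0 hρ h.cZ.1 J hm (fun z hz => (hT ▸ hz.1).1.1) hf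
      ENNReal.ofReal_ne_top fun b hb => ?_
    obtain ⟨l1, l2⟩ := hl (w + m) i A b J hb hA.le
    have h2 := ho i w m N ℓ A b J {x : E s | ‖x‖ ≤ ρ ∧
      Zb b J (cs 0 x) ∈ T ∩ {z | M' < Sz F (w + m) i ℓ J N z A}} hw hN (hb.mono (by linarith))
      hA.le hℓ ((measurableSet_le measurable_norm measurable_const).inter (EAvg_cs b J hm))
      fun x hx => ⟨hx.1, (hT ▸ hx.2.1).2, hx.2.2⟩
    rw [show w + m + i = i + w + m by ring] at h2
    refine h2.trans (mul_le_mul_right ?_ _)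
    rw [add_assoc]
    exact add_le_add (mI_mono (Tb_mono hr le_rfl) _ _) (add_le_add l1 (mul_le_mul_right l2 _))
  refine (mul_le_mul_right (lintegral_mono_ae ((kmu_ae κ).mono key)) _).trans ?_
  rw [lintegral_const_mul' _ _ (ENNReal.mul_ne_top ENNReal.ofReal_ne_top ENNReal.ofReal_ne_top),
    lintegral_add_right _ measurable_const, lintegral_const, measure_univ, mul_one]
  refine (mul_le_mul_right (mul_le_mul_right (add_le_add_left ha' _) _) _).trans ?_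
  rw [eb, add_assoc i, pow_add _ i, mul_pow, div_eq_mul_inv]
  exact EAvg_fin hv0 hC₁ hp hq0 hL hC₀ (pow_nonneg (pow_nonneg d.cast_nonneg _) _)
    (pow_nonneg (pow_nonneg d.cast_nonneg _) _) hP hA hS hε.le
    (inv_nonneg.2 (pow_nonneg d.cast_nonneg _))
    (by linarith [i.cast_nonneg (α := ℝ), w.cast_nonneg (α := ℝ), m.cast_nonneg (α := ℝ)]) hμ

end Pool.Agent.Lib.MP_a47f92_an
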