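import Pool.Agent.Lib.MP_a47f92_an.G.ECutA

set_option autoImplicit false
set_option linter.unusedSectionVars false

namespace Pool.Agent.Lib.MP_a47f92_an

open MeasureTheory Filter Topology Set Complex Metric Function
open scoped ContDiff ComplexConjugate ComplexOrder Matrix ENNReal NNReal

/-! The cut-off function. -/

/-- A smooth step which is `0` at `a` and `1` at `b`. -/
noncomputable def ECut_st (a b t : ℝ) : ℝ := Real.smoothTransition ((t - a) / (b - a))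

theorem ECut_sm (a b : ℝ) : ContDiff ℝ ∞ (ECut_st a b) :=
  Real.smoothTransition.contDiff.comp ((contDiff_id.sub contDiff_const).div_const _)

theorem ECut_mem (a b t : ℝ) : 0 ≤ ECut_st a b t ∧ ECut_st a b t ≤ 1 :=
  ⟨Real.smoothTransition.nonneg _, Real.smoothTransition.le_one _⟩

theorem ECut_up {a b t : ℝ} (h : a < b) : (ECut_st a b t ≠ 0 → a ≤ t) ∧
    (b ≤ t → ECut_st a b t = 1) :=
  ⟨fun h1 => by_contra fun h2 => h1 (Real.smoothTransition.zero_of_nonpos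
    (div_nonpos_of_nonpos_of_nonneg (by linarith) (by linarith))),
    fun h1 => Real.smoothTransition.one_of_one_le ((one_le_div (by linarith)).2 (by linarith))⟩

theorem ECut_down {a b t : ℝ} (h : b < a) : (ECut_st a b t ≠ 0 → t ≤ a) ∧
    (t ≤ b → ECut_st a b t = 1) :=
  ⟨fun h1 => by_contra fun h2 => h1 (Real.smoothTransition.zero_of_nonpos
    (div_nonpos_of_nonneg_of_nonpos (by linarith) (by linarith))),
    fun h1 => Real.smoothTransition.one_of_one_le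
      ((one_le_div_of_neg (by linarith)).2 (by linarith))⟩

theorem ECut_bd {φ : ℝ → ℝ} (hφ : ContDiff ℝ ∞ φ) (R : ℝ) : ∃ B : ℝ, 1 ≤ B ∧ ∀ t ∈ Icc 0 R,
    |deriv φ t| ≤ B ∧ |deriv (deriv φ) t| ≤ B := by
  have h1 : ContDiff ℝ ∞ (deriv φ) := (contDiff_infty_iff_deriv.1 hφ).2
  have h2 : ContDiff ℝ ∞ (deriv (deriv φ)) := (contDiff_infty_iff_deriv.1 h1).2
  obtain ⟨B, hB⟩ := (isCompact_Icc (a := 0) (b := R)).exists_bound_of_continuousOn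
    h1.continuous.continuousOn
  obtain ⟨B', hB'⟩ := (isCompact_Icc (a := 0) (b := R)).exists_bound_of_continuousOn
    h2.continuous.continuousOn
  exact ⟨max 1 (max B B'), le_max_left _ _, fun t ht =>
    ⟨(hB t ht).trans (le_max_of_le_right (le_max_left _ _)),
      (hB' t ht).trans (le_max_of_le_right (le_max_right _ _))⟩⟩

theorem ECut_comp {k : ℕ} {φ : ℝ → ℝ} (hφ : ContDiff ℝ ∞ φ) {q : E k → ℝ} {y v : E k}
    (hq : ContDiffAt ℝ 2 q y) {B L : ℝ} (hB : 1 ≤ B) (h1 : |deriv φ (q y)| ≤ B)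
    (h2 : |deriv (deriv φ) (q y)| ≤ B) (h3 : ‖gd v (rc q) y‖ ^ 2 ≤ L) (h4 : |lap q y v| ≤ L) :
    |lap (fun w => φ (q w)) y v| + ‖gd v (rc fun w => φ (q w)) y‖ ^ 2 ≤ 3 * B ^ 2 * L := by
  have hL : 0 ≤ L := (abs_nonneg _).trans h4
  have hBB : B * L ≤ B ^ 2 * L := mul_le_mul_of_nonneg_right (by nlinarith) hL
  rw [lap_rcomp hq (hφ.contDiffAt.of_le GW2_two), gd_rcomp (hq.differentiableAt two_ne_zero)
    (hφ.differentiable (by simp) _).hasDerivAt, norm_mul, mul_pow, norm_real, Real.norm_eq_abs]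
  have h5 := abs_add_le (deriv φ (q y) * lap q y v)
    (deriv (deriv φ) (q y) * ‖gd v (rc q) y‖ ^ 2)
  rw [abs_mul, abs_mul, abs_of_nonneg (sq_nonneg ‖gd v (rc q) y‖)] at h5
  have h6 := mul_le_mul h1 h4 (abs_nonneg _) (by linarith)
  have h7 := mul_le_mul h2 h3 (sq_nonneg _) (by linarith)
  have h8 := mul_le_mul (pow_le_pow_left₀ (abs_nonneg _) h1 2) h3 (sq_nonneg _) (sq_nonneg B)
  linarith

theorem ECut_mul {k : ℕ} {a b : E k → ℝ} {y : E k} (v : E k) (ha : ContDiffAt ℝ 2 a y)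
    (hb : ContDiffAt ℝ 2 b y) (ha1 : 0 ≤ a y ∧ a y ≤ 1) (hb1 : 0 ≤ b y ∧ b y ≤ 1) :
    |lap (fun w => a w * b w) y v| ≤ (|lap a y v| + ‖gd v (rc a) y‖ ^ 2) +
      (|lap b y v| + ‖gd v (rc b) y‖ ^ 2) := by
  rw [lap_mul ha hb]
  have h1 := abs_add_three (a y * lap b y v) (b y * lap a y v)
    (2 * (gd v (rc a) y * conj (gd v (rc b) y)).re)
  rw [abs_mul, abs_mul, abs_mul, abs_of_nonneg ha1.1, abs_of_nonneg hb1.1, abs_two] at h1
  have h2 := mul_le_of_le_one_left (abs_nonneg (lap b y v)) ha1.2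
  have h3 := mul_le_of_le_one_left (abs_nonneg (lap a y v)) hb1.2
  have h4 := abs_re_le_norm (gd v (rc a) y * conj (gd v (rc b) y))
  rw [norm_mul, norm_conj] at h4
  nlinarith [sq_nonneg (‖gd v (rc a) y‖ - ‖gd v (rc b) y‖)]

theorem ECut_tq (s : ℕ) : ContDiff ℝ ∞ (Dc.tq : E (s + 1) → ℝ) := by
  obtain ⟨T, hT⟩ := exists_tl_clm s
  have e : (Dc.tq : E (s + 1) → ℝ) = fun y => ‖T y‖ ^ 2 := funext fun y => by rw [hT, Dc.tq]
  rw [e]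
  exact (T.contDiff.restrict_scalars ℝ).norm_sq ℂ

theorem ECut_gd_tq {s : ℕ} (y v : E (s + 1)) : ‖gd v (rc Dc.tq) y‖ ≤ ‖tl y‖ * ‖tl v‖ := by
  obtain ⟨T, hT⟩ := exists_tl_clm s
  have e : rc (Dc.tq : E (s + 1) → ℝ) = fun y => inner ℂ (T y) (T y) := funext fun y => by
    rw [hT, inner_self_eq_norm_sq_to_K, rc, Dc.tq, ofReal_pow]
    rfl
  have hd : HasFDerivAt T (T.restrictScalars ℝ) y := T.hasFDerivAt.restrictScalars ℝ
  have h : ∀ u, fderiv ℝ (fun y => inner ℂ (T y) (T y)) y u =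
      inner ℂ (T y) (T u) + inner ℂ (T u) (T y) := fun u => by
    rw [fderiv_inner_apply ℂ hd.differentiableAt hd.differentiableAt, hd.fderiv]
    rfl
  have h2 : gd v (rc Dc.tq) y = inner ℂ (T y) (T v) := by
    rw [e, gd, h, h, map_smul, inner_smul_left, inner_smul_right, conj_I]
    linear_combination ((inner ℂ (T v) (T y) - inner ℂ (T y) (T v)) / 2 : ℂ) * I_mul_I
  rw [h2, hT, hT]
  exact norm_inner_le_norm _ _

theorem ECut_rat {n s : ℕ} {ℓ : E n →L[ℂ] E (s + 1)} (hℓ : ‖ℓ‖ ≤ 1) (x : E n) :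
    rat ℓ x ∈ Icc (0 : ℝ) 1 :=
  ⟨div_nonneg (sq_nonneg _) (sq_nonneg _), div_le_one_of_le₀ (pow_le_pow_left₀ (norm_nonneg _)
    ((norm_fst_le _).trans ((ℓ.le_of_opNorm_le hℓ x).trans_eq (one_mul _))) 2) (sq_nonneg _)⟩

/-- `χ y = ψ (y 0) * φ (tl y) * θ (M ^ 2 * rat ℓ (X y))`, where `ψ` is a bump function equal to `1`
on `closedBall 0 r` with support in `closedBall 0 (3 r / 2)`, `φ` is a bump function equal to `1` on
`closedBall 0 (3 ρ / 2)` with support in `closedBall 0 (2 ρ)` (`ContDiffBump`, or `exists_bump`), and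
`θ t = Real.smoothTransition ((t - 1 / 9) / (1 / 4 - 1 / 9))`. The first and second derivatives of
`θ` and `φ` are bounded (compact support). On the support `‖y 0‖ ≤ 3 r / 2`, `‖tl y‖ ≤ 2 ρ`,
`1 / 9 ≤ M ^ 2 * rat` (a closed set, since `X` is continuous and nonzero on the tube); by `rat_lip`
on the ball (`ball_subset_Tb`) `1 / 16 < M ^ 2 * rat`. For `‖y 0‖ < r` the factor `ψ` is locally `1`
(`lap_congr`); use `lap_mul`, `lap_rcomp`, `lap_comp`, `gd_rat_le`, `levi_rat_le`, `levi_tq`. -/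
theorem exists_cut (s : ℕ) {ρ M : ℝ} (hρ : 0 < ρ) (hM : 1 ≤ M) : ∃ C : ℝ, 0 < C ∧
    ∀ (n : ℕ) (X : E (s + 1) → E n) (ℓ : E n →L[ℂ] E (s + 1)) (r Λ η ε : ℝ), 0 < r → ‖ℓ‖ ≤ 1 →
      Dc.NV X (Tb s (2 * r) (3 * ρ)) → 0 ≤ Λ →
      (∀ y ∈ Tb s (2 * r) (3 * ρ), ∀ v, levi (Dc.lf X) y v ≤ Λ ^ 2 * ‖v‖ ^ 2) →
      η ≤ r / 2 → η ≤ ρ → 75 * Λ * M ^ 2 * η ≤ 1 → ε ≤ ρ / 2 → ε ≤ (4 * M)⁻¹ →
      ∃ χ : E (s + 1) → ℝ, ContDiffOn ℝ 2 χ (Om X ℓ (2 * r) (3 * ρ) M) ∧ HasCompactSupport χ ∧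
        (∀ y, 0 ≤ χ y) ∧ (∀ y, χ y ≤ 1) ∧
        (∀ y ∈ tsupport χ, ball y η ⊆ Om X ℓ (2 * r) (3 * ρ) M) ∧
        (∀ y ∈ Om X ℓ (2 * r) (3 * ρ) M, ‖y 0‖ < r → ∀ v,
          |levi χ y v| ≤ C * (levi (Dc.lf X) y v + levi Dc.tq y v)) ∧
        ∀ x : E s, ‖x‖ ≤ ρ → ‖X (cs 0 x)‖ ≤ M * ‖ℓ (X (cs 0 x)) 0‖ →
          ∀ y ∈ Om X ℓ (2 * r) (3 * ρ) M, ‖y 0‖ ≤ r / 2 → ‖tl y - x‖ ≤ ε →
            Dc.Cl ε (X y) (X (cs 0 x)) → 1 / 2 ≤ χ y := by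
  have hM2 : 0 < M ^ 2 := by positivity
  have hθ : ContDiff ℝ ∞ fun t => ECut_st (1 / 9) (1 / 4) (M ^ 2 * t) :=
    (ECut_sm _ _).comp (contDiff_const.mul contDiff_id)
  obtain ⟨B, hB, hB'⟩ := ECut_bd hθ 1
  obtain ⟨D, hD, hD'⟩ := ECut_bd (ECut_sm ((2 * ρ) ^ 2) ((3 * ρ / 2) ^ 2)) ((3 * ρ) ^ 2)
  refine ⟨3 * B ^ 2 * 2 + 3 * D ^ 2 * ((3 * ρ) ^ 2 + 1), by positivity,
    fun n X ℓ r Λ η ε hr hℓ hX hΛ hL h1 h2 h3 h4 h5 => ?_⟩
  have hρ2 : (3 * ρ / 2) ^ 2 < (2 * ρ) ^ 2 := by nlinarith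
  have hr2 : r ^ 2 < (3 * r / 2) ^ 2 := by nlinarith
  have hc0 : ContDiff ℝ ∞ fun y : E (s + 1) => ‖y 0‖ ^ 2 :=
    ((EuclideanSpace.proj (𝕜 := ℂ) (0 : Fin (s + 1))).contDiff.restrict_scalars ℝ).norm_sq ℂ
  have hrat : ∀ y ∈ Tb s (2 * r) (3 * ρ), ContDiffAt ℝ ∞ (fun y => rat ℓ (X y)) y := fun y hy =>
    contDiffAt_rat (hX.an y hy) (hX.ne y hy) ℓ
  obtain ⟨χ, hχ⟩ : ∃ χ : E (s + 1) → ℝ, χ = fun y => ECut_st ((3 * r / 2) ^ 2) (r ^ 2) (‖y 0‖ ^ 2) *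
    (ECut_st (1 / 9) (1 / 4) (M ^ 2 * rat ℓ (X y)) *
      ECut_st ((2 * ρ) ^ 2) ((3 * ρ / 2) ^ 2) (Dc.tq y)) := ⟨_, rfl⟩
  have hsub : {y : E (s + 1) | ‖y 0‖ ≤ 3 * r / 2 ∧ ‖tl y‖ ≤ 2 * ρ} ⊆ Tb s (2 * r) (3 * ρ) :=
    fun y hy => ⟨by linarith [hy.1], by linarith [hy.2]⟩
  have hK : tsupport χ ⊆ {y : E (s + 1) | ‖y 0‖ ≤ 3 * r / 2 ∧ ‖tl y‖ ≤ 2 * ρ} ∩
      (fun y => M ^ 2 * rat ℓ (X y)) ⁻¹' Ici (1 / 9) := by
    refine closure_minimal (fun y hy => ?_) (ContinuousOn.preimage_isClosed_of_isClosed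
      (continuousOn_const.mul fun y hy => (hrat y (hsub hy)).continuousAt.continuousWithinAt)
      (isCompact_cTb s _ _).isClosed isClosed_Ici)
    rw [hχ, mem_support, mul_ne_zero_iff, mul_ne_zero_iff] at hy
    exact ⟨⟨le_of_pow_le_pow_left₀ two_ne_zero (by positivity) ((ECut_down hr2).1 hy.1),
      le_of_pow_le_pow_left₀ two_ne_zero (by positivity) ((ECut_down hρ2).1 hy.2.2)⟩,
      (ECut_up (by norm_num)).1 hy.2.1⟩
  refine ⟨χ, fun y hy => ?_, (isCompact_cTb s _ _).of_isClosed_subset (isClosed_tsupport _)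
    (hK.trans inter_subset_left), fun y => ?_, fun y => ?_, fun y hy y' hy' => ?_,
    fun y hy hy0 v => ?_, fun x hx hx' y hy hy0 hy1 hcl => ?_⟩
  · rw [hχ]
    exact (((((ECut_sm _ _).comp hc0).contDiffAt.mul ((hθ.contDiffAt.comp y (hrat y hy.1)).mul
      ((ECut_sm _ _).comp (ECut_tq s)).contDiffAt))).of_le GW2_two).contDiffWithinAt
  · rw [hχ]
    exact mul_nonneg (ECut_mem _ _ _).1 (mul_nonneg (ECut_mem _ _ _).1 (ECut_mem _ _ _).1)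
  · rw [hχ]
    exact mul_le_one₀ (ECut_mem _ _ _).2 (mul_nonneg (ECut_mem _ _ _).1 (ECut_mem _ _ _).1)
      (mul_le_one₀ (ECut_mem _ _ _).2 (ECut_mem _ _ _).1 (ECut_mem _ _ _).2)
  · obtain ⟨⟨h6, h7⟩, h8⟩ := hK hy
    have hb : ball y η ⊆ Tb s (2 * r) (3 * ρ) := fun w hw =>
      ⟨(ball_subset_Tb y η hw).1.trans_le (by linarith),
        (ball_subset_Tb y η hw).2.trans_le (by linarith)⟩
    have h9 := rat_lip hℓ (convex_ball y η) ⟨hX.an.mono hb, fun w hw => hX.ne w (hb hw)⟩ hΛ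
      (fun w hw => hL w (hb hw)) (mem_ball_self (pos_of_mem_ball hy')) hy'
    have h10 : 3 * Λ * ‖y' - y‖ ≤ 3 * Λ * η :=
      mul_le_mul_of_nonneg_left (mem_ball_iff_norm.1 hy').le (by positivity)
    have h11 := mul_le_mul_of_nonneg_left ((neg_le_of_abs_le h9).trans' (neg_le_neg h10)) hM2.le
    have h12 : 1 / 16 < M ^ 2 * rat ℓ (X y') := by
      have h13 : 1 / 9 ≤ M ^ 2 * rat ℓ (X y) := h8
      nlinarith
    refine ⟨hb hy', lt_of_pow_lt_pow_left₀ 2 (by positivity) ?_⟩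
    have h14 : 0 < ‖X y'‖ ^ 2 := pow_pos (norm_pos_iff.2 (hX.ne y' (hb hy'))) 2
    rw [rat, ← mul_div_assoc, lt_div_iff₀ h14] at h12
    nlinarith
  · have ha := (hrat y hy.1).of_le GW2_two
    have hb : ContDiffAt ℝ 2 Dc.tq y := (ECut_tq s).contDiffAt.of_le GW2_two
    have ha' := (hθ.contDiffAt.of_le GW2_two).comp y ha
    have hb' := ((ECut_sm ((2 * ρ) ^ 2) ((3 * ρ / 2) ^ 2)).contDiffAt.of_le GW2_two).comp y hb
    have e : χ =ᶠ[𝓝 y] fun y => ECut_st (1 / 9) (1 / 4) (M ^ 2 * rat ℓ (X y)) *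
        ECut_st ((2 * ρ) ^ 2) ((3 * ρ / 2) ^ 2) (Dc.tq y) := by
      filter_upwards [hc0.continuous.continuousAt.eventually_lt continuousAt_const
        (pow_lt_pow_left₀ hy0 (norm_nonneg _) two_ne_zero)] with w hw
      simp only [hχ, (ECut_down hr2).2 hw.le, one_mul]
    rw [← lap_eq_levi ((ha'.mul hb').congr_of_eventuallyEq e), lap_congr e]
    have h6 := gd_rat_le hℓ (hX.an y hy.1) (hX.ne y hy.1) v
    have h7 := levi_rat_le hℓ (hX.an y hy.1) (hX.ne y hy.1) v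
    rw [← lap_eq_levi ha] at h7
    have h8 := ECut_comp hθ ha hB (hB' _ (ECut_rat hℓ _)).1 (hB' _ (ECut_rat hℓ _)).2 h6 h7
    have h9 : ‖tl y‖ ^ 2 ≤ (3 * ρ) ^ 2 := pow_le_pow_left₀ (norm_nonneg _) hy.1.2.le 2
    have h10 := ECut_comp (ECut_sm ((2 * ρ) ^ 2) ((3 * ρ / 2) ^ 2)) hb (v := v)
      (L := ((3 * ρ) ^ 2 + 1) * ‖tl v‖ ^ 2) hD (hD' _ ⟨sq_nonneg _, h9⟩).1
      (hD' _ ⟨sq_nonneg _, h9⟩).2 (by
        refine (pow_le_pow_left₀ (norm_nonneg _) (ECut_gd_tq y v) 2).trans ?_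
        rw [mul_pow]
        exact mul_le_mul_of_nonneg_right (by linarith) (sq_nonneg _)) (by
        rw [lap_eq_levi hb, levi_tq, abs_of_nonneg (sq_nonneg _)]
        exact le_mul_of_one_le_left (sq_nonneg _) (by nlinarith))
    refine (ECut_mul v ha' hb' (ECut_mem _ _ _) (ECut_mem _ _ _)).trans
      ((add_le_add h8 h10).trans ?_)
    have h11 : 0 ≤ levi (Dc.lf X) y v := by linarith [sq_nonneg ‖gd v (rc fun y => rat ℓ (X y)) y‖]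
    have h12 : 0 ≤ 3 * B ^ 2 * 2 * ‖tl v‖ ^ 2 := by positivity
    have h13 : 0 ≤ 3 * D ^ 2 * ((3 * ρ) ^ 2 + 1) * levi (Dc.lf X) y v := by positivity
    rw [levi_tq]
    linarith
  · have h6 : cs 0 x ∈ Tb s (2 * r) (3 * ρ) :=
      ⟨show ‖(0 : ℂ)‖ < 2 * r by simpa using hr, show ‖x‖ < 3 * ρ by linarith⟩
    have h7 := rat_of_cl hℓ hM h5 (hX.ne _ h6) hx' hcl
    have h8 : ‖tl y‖ ≤ 3 * ρ / 2 := by linarith [norm_sub_norm_le (tl y) x]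
    have h9 : ‖y 0‖ ≤ r := by linarith
    rw [hχ]
    simp only [Dc.tq]
    rw [(ECut_down hr2).2 (pow_le_pow_left₀ (norm_nonneg _) h9 2), (ECut_up (by norm_num)).2 h7,
      (ECut_down hρ2).2 (pow_le_pow_left₀ (norm_nonneg _) h8 2)]
    norm_num

end Pool.Agent.Lib.MP_a47f92_an
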