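import Pool.Agent.Lib.MP_a47f92_an.G.ELL

set_option autoImplicit false
set_option linter.unusedSectionVars false

namespace Pool.Agent.Lib.MP_a47f92_an

open MeasureTheory Filter Topology Set Complex Metric Function
open scoped ContDiff ComplexConjugate ComplexOrder Matrix ENNReal NNReal

/-! The ratio `‖ℓ X 0‖ ^ 2 / ‖X‖ ^ 2`. -/

variable {n s : ℕ}

/-- The ratio. -/
noncomputable def rat (ℓ : E n →L[ℂ] E (s + 1)) (x : E n) : ℝ := ‖ℓ x 0‖ ^ 2 / ‖x‖ ^ 2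

variable {X : E (s + 1) → E n} {ℓ : E n →L[ℂ] E (s + 1)} {y : E (s + 1)}

theorem ECutA_fst (y : E (s + 1)) : ‖y 0‖ ≤ ‖y‖ := PiLp.norm_apply_le y 0

theorem ECutA_le (hℓ : ‖ℓ‖ ≤ 1) (x : E n) : ‖ℓ x 0‖ ≤ ‖x‖ :=
  (ECutA_fst _).trans ((ℓ.le_of_opNorm_le hℓ x).trans_eq (one_mul _))

theorem ECutA_exp {x : E n} (hx : x ≠ 0) : Real.exp (-2 * Real.log ‖x‖) = (‖x‖ ^ 2)⁻¹ := by
  rw [neg_mul, Real.exp_neg, ← Nat.cast_ofNat, ← Real.log_pow,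
    Real.exp_log (pow_pos (norm_pos_iff.2 hx) 2)]

theorem ECutA_rat (ℓ : E n →L[ℂ] E (s + 1)) (x : E n) :
    rat ℓ x = ‖ℓ x 0‖ ^ 2 * Real.exp (-2 * Real.log ‖x‖) := by
  by_cases hx : x = 0
  · simp [rat, hx]
  · rw [ECutA_exp hx, rat, div_eq_mul_inv]

theorem ECutA_an (hX : AnalyticAt ℂ X y) (ℓ : E n →L[ℂ] E (s + 1)) :
    AnalyticAt ℂ (fun w => ℓ (X w) 0) y :=
  (((EuclideanSpace.proj 0 : E (s + 1) →L[ℂ] ℂ).comp ℓ).analyticAt _).comp hX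

theorem ECutA_fd (hX : AnalyticAt ℂ X y) (ℓ : E n →L[ℂ] E (s + 1)) (v : E (s + 1)) :
    fderiv ℂ (fun w => ℓ (X w) 0) y v = ℓ (fderiv ℂ X y v) 0 :=
  congrArg (fun T : E (s + 1) →L[ℂ] ℂ => T v)
    (((EuclideanSpace.proj 0 : E (s + 1) →L[ℂ] ℂ).comp ℓ).hasFDerivAt.comp y
      hX.differentiableAt.hasFDerivAt).fderiv

theorem ECutA_sq (hX : AnalyticAt ℂ X y) (ℓ : E n →L[ℂ] E (s + 1)) {k : WithTop ℕ∞} :
    ContDiffAt ℝ k (fun w => ‖ℓ (X w) 0‖ ^ 2) y :=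
  ((ECutA_an hX ℓ).contDiffAt.restrict_scalars ℝ).norm_sq ℂ

theorem ECutA_log (hX : AnalyticAt ℂ X y) (h0 : X y ≠ 0) {k : WithTop ℕ∞} :
    ContDiffAt ℝ k (fun w => Real.log ‖X w‖) y :=
  ((hX.contDiffAt.restrict_scalars ℝ).norm ℂ h0).log (norm_ne_zero_iff.2 h0)

theorem ECutA_w (hX : AnalyticAt ℂ X y) (h0 : X y ≠ 0) {k : WithTop ℕ∞} :
    ContDiffAt ℝ k (fun w => Real.exp (-2 * Real.log ‖X w‖)) y :=
  (contDiffAt_const.mul (ECutA_log hX h0)).exp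

theorem ECutA_der (t : ℝ) :
    HasDerivAt (fun t : ℝ => Real.exp (-2 * t)) (-2 * Real.exp (-2 * t)) t := by
  simpa [mul_comm] using ((hasDerivAt_id t).const_mul (-2 : ℝ)).exp

theorem ECutA_gd_sq (hX : AnalyticAt ℂ X y) (ℓ : E n →L[ℂ] E (s + 1)) (v : E (s + 1)) :
    gd v (rc fun w => ‖ℓ (X w) 0‖ ^ 2) y = ℓ (fderiv ℂ X y v) 0 * conj (ℓ (X y) 0) := by
  have h := (ECutA_an hX ℓ).differentiableAt
  have e : (rc fun w => ‖ℓ (X w) 0‖ ^ 2) = fun w => ℓ (X w) 0 * conj (ℓ (X w) 0) :=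
    funext fun w => by rw [mul_conj', rc, ofReal_pow]
  have h' : DifferentiableAt ℝ (fun w => conj (ℓ (X w) 0)) y :=
    conjCLE.differentiableAt.comp y (h.restrictScalars ℝ)
  rw [e, gd_mul (h.restrictScalars ℝ) h', gd_holo h, gd_conj, gb_holo h, ECutA_fd hX, map_zero, mul_zero, add_zero]

theorem ECutA_gd_w (hX : AnalyticAt ℂ X y) (h0 : X y ≠ 0) (v : E (s + 1)) :
    gd v (rc fun w => Real.exp (-2 * Real.log ‖X w‖)) y =
      -(inner ℂ (X y) (fderiv ℂ X y v) / (‖X y‖ : ℂ) ^ 2 / (‖X y‖ : ℂ) ^ 2) := by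
  rw [gd_rcomp ((ECutA_log hX h0).differentiableAt one_ne_zero) (ECutA_der _),
    gd_log_norm hX.differentiableAt h0, ECutA_exp h0]
  push_cast
  ring

theorem ECutA_levi (hX : AnalyticAt ℂ X y) (h0 : X y ≠ 0) (v : E (s + 1)) :
    2 * levi (Dc.lf X) y v = ‖prj (un (X y)) (fderiv ℂ X y v)‖ ^ 2 / ‖X y‖ ^ 2 := by
  have h : levi (Dc.lf X) y v = lap (fun w => Real.log ‖X w‖) y v :=
    (lap_eq_levi (ECutA_log hX h0) v).symm
  rw [h, lap_log_norm hX.contDiffAt h0]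
  ring

theorem ECutA_prj (ℓ : E n →L[ℂ] E (s + 1)) (x u : E n) :
    ℓ (prj (un x) u) 0 = ℓ u 0 - inner ℂ x u / (‖x‖ : ℂ) ^ 2 * ℓ x 0 := by
  rw [Plk_prj, map_sub, map_smul]
  rfl

theorem contDiffAt_rat (hX : AnalyticAt ℂ X y) (h0 : X y ≠ 0) (ℓ : E n →L[ℂ] E (s + 1)) :
    ContDiffAt ℝ ∞ (fun y => rat ℓ (X y)) y := by
  simp only [ECutA_rat]
  exact (ECutA_sq hX ℓ).mul (ECutA_w hX h0)

/-- With `λ = ℓ · 0`, `x = X y`, `u = fderiv X y v = u' + c x`, `u' = prj (un x) u`: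
`gd v (rat ∘ X) = λ u' * conj (λ x) / ‖x‖ ^ 2`. Use `lap_log_norm`, `lap_eq_levi`. -/
theorem gd_rat_le (hℓ : ‖ℓ‖ ≤ 1) (hX : AnalyticAt ℂ X y) (h0 : X y ≠ 0) (v : E (s + 1)) :
    ‖gd v (rc fun y => rat ℓ (X y)) y‖ ^ 2 ≤ 2 * levi (Dc.lf X) y v := by
  have hN : 0 < ‖X y‖ := norm_pos_iff.2 h0
  have e : (rc fun y => rat ℓ (X y)) = fun w => rc (fun w => ‖ℓ (X w) 0‖ ^ 2) w *
      rc (fun w => Real.exp (-2 * Real.log ‖X w‖)) w :=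
    funext fun w => by rw [rc, ECutA_rat, ofReal_mul]
  have h : gd v (rc fun y => rat ℓ (X y)) y =
      ℓ (prj (un (X y)) (fderiv ℂ X y v)) 0 * conj (ℓ (X y) 0) / (‖X y‖ : ℂ) ^ 2 := by
    rw [e, gd_mul ((contDiffAt_rc (ECutA_sq hX ℓ)).differentiableAt one_ne_zero)
      ((contDiffAt_rc (ECutA_w hX h0)).differentiableAt one_ne_zero), ECutA_gd_sq hX,
      ECutA_gd_w hX h0, ECutA_prj, rc, rc, ECutA_exp h0, ofReal_pow, ← mul_conj']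
    push_cast
    ring
  rw [h, ECutA_levi hX h0, norm_div, norm_mul, norm_pow, norm_real, norm_norm, norm_conj]
  calc _ ≤ (‖prj (un (X y)) (fderiv ℂ X y v)‖ * ‖X y‖ / ‖X y‖ ^ 2) ^ 2 := by
        gcongr <;> exact ECutA_le hℓ _
    _ = _ := by field_simp

/-- The Levi form is `‖λ u'‖ ^ 2 / ‖x‖ ^ 2 - ‖λ x‖ ^ 2 ‖u'‖ ^ 2 / ‖x‖ ^ 4`. One way:
`rat ∘ X = ‖λ X‖ ^ 2 * exp (-2 log ‖X‖)`, `lap_mul`, `lap_rcomp`, `lap_normSqC`, `gd_log_norm`. -/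
theorem levi_rat_le (hℓ : ‖ℓ‖ ≤ 1) (hX : AnalyticAt ℂ X y) (h0 : X y ≠ 0) (v : E (s + 1)) :
    |levi (fun y => rat ℓ (X y)) y v| ≤ 2 * levi (Dc.lf X) y v := by
  have hN : 0 < ‖X y‖ := norm_pos_iff.2 h0
  have hd : deriv (fun t : ℝ => Real.exp (-2 * t)) = fun t => -2 * Real.exp (-2 * t) :=
    funext fun t => (ECutA_der t).deriv
  have h : levi (fun y => rat ℓ (X y)) y v =
      ‖ℓ (prj (un (X y)) (fderiv ℂ X y v)) 0‖ ^ 2 / ‖X y‖ ^ 2 -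
        ‖ℓ (X y) 0‖ ^ 2 / ‖X y‖ ^ 2 * (‖prj (un (X y)) (fderiv ℂ X y v)‖ ^ 2 / ‖X y‖ ^ 2) := by
    rw [← lap_eq_levi ((contDiffAt_rat hX h0 ℓ).of_le GW2_two)]
    simp only [ECutA_rat]
    rw [lap_mul (ECutA_sq hX ℓ) (ECutA_w hX h0), ECutA_gd_sq hX, ECutA_gd_w hX h0,
      lap_normSqC (ECutA_an hX ℓ).contDiffAt, ECutA_fd hX,
      lap_rcomp (φ := fun t => Real.exp (-2 * t)) (ECutA_log hX h0) (by fun_prop), hd,
      ((ECutA_der _).const_mul (-2)).deriv, lap_log_norm hX.contDiffAt h0,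
      gd_log_norm hX.differentiableAt h0, ECutA_prj]
    simp only [ECutA_exp h0]
    generalize ‖prj (un (X y)) (fderiv ℂ X y v)‖ = p
    generalize ℓ (fderiv ℂ X y v) 0 = a
    generalize ℓ (X y) 0 = b
    generalize inner ℂ (X y) (fderiv ℂ X y v) = c
    generalize ‖X y‖ = N at hN
    simp only [← normSq_eq_norm_sq, ← ofReal_pow, normSq_sub, normSq_ofReal,
      normSq_ofNat, map_neg, map_div₀, map_mul, conj_ofReal, mul_neg, neg_re, ← mul_div_assoc,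
      div_ofReal_re, div_mul_eq_mul_div]
    rw [mul_assoc a, mul_comm (conj b)]
    field_simp
    ring
  have h1 : ‖ℓ (prj (un (X y)) (fderiv ℂ X y v)) 0‖ ^ 2 / ‖X y‖ ^ 2 ≤
      ‖prj (un (X y)) (fderiv ℂ X y v)‖ ^ 2 / ‖X y‖ ^ 2 := by
    gcongr
    exact ECutA_le hℓ _
  have h2 : ‖ℓ (X y) 0‖ ^ 2 / ‖X y‖ ^ 2 ≤ 1 := by
    rw [div_le_one (by positivity)]
    gcongr
    exact ECutA_le hℓ _
  have h3 := mul_le_of_le_one_left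
    (by positivity : 0 ≤ ‖prj (un (X y)) (fderiv ℂ X y v)‖ ^ 2 / ‖X y‖ ^ 2) h2
  rw [h, ECutA_levi hX h0]
  exact abs_sub_le_of_nonneg_of_le (by positivity) h1 (by positivity) h3

/-- Mean value inequality on the convex set; `fderiv_eq_gd_add_gb`, `gb_rc`. -/
theorem rat_lip (hℓ : ‖ℓ‖ ≤ 1) {U : Set (E (s + 1))} (hU : Convex ℝ U) (hX : Dc.NV X U) {Λ : ℝ}
    (hΛ : 0 ≤ Λ) (h : ∀ y ∈ U, ∀ v, levi (Dc.lf X) y v ≤ Λ ^ 2 * ‖v‖ ^ 2) {y y' : E (s + 1)}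
    (hy : y ∈ U) (hy' : y' ∈ U) : |rat ℓ (X y') - rat ℓ (X y)| ≤ 3 * Λ * ‖y' - y‖ := by
  have h1 := hU.norm_image_sub_le_of_norm_fderiv_le (𝕜 := ℝ) (f := rc fun y => rat ℓ (X y))
    (C := 3 * Λ) (fun z hz => (contDiffAt_rc (contDiffAt_rat (hX.an z hz) (hX.ne z hz) ℓ)).differentiableAt
      (by simp)) (fun z hz => ContinuousLinearMap.opNorm_le_bound _ (by positivity) fun v => ?_) hy hy'
  · rwa [← ofReal_sub, norm_real, Real.norm_eq_abs] at h1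
  · have h2 := (gd_rat_le hℓ (hX.an z hz) (hX.ne z hz) v).trans
      (mul_le_mul_of_nonneg_left (h z hz v) zero_le_two)
    rw [fderiv_eq_gd_add_gb, gb_rc]
    refine (norm_add_le _ _).trans ?_
    rw [norm_conj]
    refine (pow_le_pow_iff_left₀ (by positivity) (by positivity) two_ne_zero).1 ?_
    nlinarith [sq_nonneg (Λ * ‖v‖)]

/-- `‖ℓ (c • a) 0‖ ≥ 1 / M - ε`, `‖c • a‖ ≤ 1 + ε`. -/
theorem rat_of_cl (hℓ : ‖ℓ‖ ≤ 1) {a b : E n} {M ε : ℝ} (hM : 1 ≤ M) (hε : ε ≤ (4 * M)⁻¹)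
    (hb : b ≠ 0) (h : ‖b‖ ≤ M * ‖ℓ b 0‖) (hc : Dc.Cl ε a b) : 1 / 4 ≤ M ^ 2 * rat ℓ a := by
  obtain ⟨c, hc⟩ := hc
  have hM0 : 0 < M := by linarith
  have hb0 : 0 < ‖b‖ := norm_pos_iff.2 hb
  have h1 : ‖c‖ * ‖a‖ ≤ 5 / 4 := by
    have h2 := norm_le_norm_add_norm_sub' (c • a) (un b)
    have h3 : (4 * M)⁻¹ ≤ 1 / 4 := by
      rw [one_div]
      gcongr
      linarith
    rw [norm_un hb, norm_smul] at h2
    linarith
  have h2 : 1 ≤ M * ‖ℓ (un b) 0‖ := by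
    rw [un, ℓ.map_smul_of_tower, PiLp.smul_apply, norm_smul, norm_inv, norm_norm, mul_left_comm,
      ← div_eq_inv_mul, one_le_div hb0]
    exact h
  have h3 : 3 / 4 ≤ M * (‖c‖ * ‖ℓ a 0‖) := by
    have h4 := (ECutA_le hℓ _).trans (hc.trans hε)
    have h5 := norm_le_norm_add_norm_sub (ℓ (c • a) 0) (ℓ (un b) 0)
    rw [map_sub, PiLp.sub_apply] at h4
    rw [map_smul, PiLp.smul_apply, norm_smul] at h5
    rw [map_smul, PiLp.smul_apply] at h4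
    have h6 : M * (4 * M)⁻¹ = 1 / 4 := by field_simp
    nlinarith
  have ha : 0 < ‖a‖ := norm_pos_iff.2 fun h0 => by norm_num [h0] at h3
  have h4 : ‖a‖ ≤ 2 * (M * ‖ℓ a 0‖) := by
    have := mul_nonneg hM0.le (norm_nonneg (ℓ a 0))
    nlinarith
  rw [rat, ← mul_div_assoc, le_div_iff₀ (by positivity)]
  nlinarith

theorem norm_fst_le (y : E (s + 1)) : ‖y 0‖ ≤ ‖y‖ := ECutA_fst y

theorem ECutA_pyth (y : E (s + 1)) : ‖y‖ ^ 2 = ‖y 0‖ ^ 2 + ‖tl y‖ ^ 2 := by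
  rw [EuclideanSpace.norm_sq_eq, EuclideanSpace.norm_sq_eq, Fin.sum_univ_succ]
  rfl

theorem norm_tl_le (y : E (s + 1)) : ‖tl y‖ ≤ ‖y‖ := by
  refine (pow_le_pow_iff_left₀ (norm_nonneg _) (norm_nonneg _) two_ne_zero).1 ?_
  rw [ECutA_pyth]
  exact le_add_of_nonneg_left (sq_nonneg _)

theorem exists_tl_clm (s : ℕ) : ∃ T : E (s + 1) →L[ℂ] E s, ∀ y, T y = tl y :=
  ⟨LinearMap.toContinuousLinearMap
    { toFun := tl, map_add' := fun _ _ => rfl, map_smul' := fun _ _ => rfl }, fun _ => rfl⟩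

theorem ball_subset_Tb (y : E (s + 1)) (η : ℝ) : ball y η ⊆ Tb s (‖y 0‖ + η) (‖tl y‖ + η) :=
  fun z hz => by
    rw [mem_ball_iff_norm] at hz
    exact ⟨(norm_le_norm_add_norm_sub' (z 0) (y 0)).trans_lt
        (add_lt_add_right ((norm_fst_le (z - y)).trans_lt hz) _),
      (norm_le_norm_add_norm_sub' (tl z) (tl y)).trans_lt
        (add_lt_add_right ((norm_tl_le (z - y)).trans_lt hz) _)⟩

theorem isCompact_cTb (s : ℕ) (r ρ : ℝ) :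
    IsCompact {y : E (s + 1) | ‖y 0‖ ≤ r ∧ ‖tl y‖ ≤ ρ} := by
  obtain ⟨T, hT⟩ := exists_tl_clm s
  refine isCompact_of_isClosed_isBounded
    ((isClosed_le (f := fun y : E (s + 1) => ‖y 0‖) (by fun_prop) continuous_const).and
      (isClosed_le (f := fun y => ‖tl y‖) ?_ continuous_const))
    ((isBounded_closedBall (x := 0) (r := r + ρ)).subset fun y hy => ?_)
  · exact (T.continuous.congr hT).norm
  · rw [mem_closedBall_zero_iff]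
    refine le_trans ?_ (add_le_add hy.1 hy.2)
    refine (pow_le_pow_iff_left₀ (norm_nonneg _) (by positivity) two_ne_zero).1 ?_
    rw [ECutA_pyth]
    nlinarith [mul_nonneg (norm_nonneg (y 0)) (norm_nonneg (tl y))]

end Pool.Agent.Lib.MP_a47f92_an
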