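import Pool.Agent.Lib.MP_a47f92_an.G.ELT
import Pool.Agent.Lib.MP_a47f92_an.G.Dyn
import Pool.Agent.Lib.MP_a47f92_an.Dc.Def

set_option autoImplicit false
set_option linter.unusedSectionVars false

namespace Pool.Agent.Lib.MP_a47f92_an

open MeasureTheory Filter Topology Set Complex Metric Function
open scoped ContDiff ComplexConjugate ComplexOrder Matrix ENNReal NNReal

/-! Definitions for the tubes. -/

variable {n k s : ℕ}

/-- The derivative of the affine coordinates `g (i + 1) / g 0`, if `g` has derivative `T`. -/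
noncomputable def rw (T : E k →L[ℂ] E (s + 1)) (g : E (s + 1)) (u : E k) : Fin s → ℂ :=
  fun i => (g 0 * T u i.succ - g i.succ * T u 0) / g 0 ^ 2

/-- The matrix of `rw T g` on the frame `h`. -/
noncomputable def lm (T : E k →L[ℂ] E (s + 1)) (g : E (s + 1)) (h : Fin s → E k) : Mat s :=
  Matrix.of fun i j => rw T g (h j) i

/-- The projection onto the kernel of `rw T g` along the span of `h`. -/
noncomputable def pj (T : E k →L[ℂ] E (s + 1)) (g : E (s + 1)) (h : Fin s → E k) (u : E k) : E k :=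
  u - ∑ j, ((lm T g h)⁻¹ *ᵥ rw T g u) j • h j

/-- The part of the tube on which the first coordinate of `ℓ ∘ X` is not small. -/
def Om (X : E (s + 1) → E n) (ℓ : E n →L[ℂ] E (s + 1)) (r ρ M : ℝ) : Set (E (s + 1)) :=
  {y | y ∈ Tb s r ρ ∧ ‖X y‖ < 4 * M * ‖ℓ (X y) 0‖}

/-- The mass of `dd^c u ∧ (dd^c Q) ^ s` on `U`. -/
noncomputable def mI (U : Set (E (s + 1))) (u Q : E (s + 1) → ℝ) : ℝ≥0∞ :=
  ∫⁻ y in U, ENNReal.ofReal (md (Fin.cons (hess u y) fun _ : Fin s => hess Q y))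

/-- The potential of the Gauss map of the horizontal discs. -/
noncomputable def phE (d : ℕ) (F : E n → E n) (a : ℕ) (J : Fin s → Fin n) (Z : E n) : ℝ :=
  rg d a (al F^[a] J Z) + (s + 1) * lg (F^[a] Z)

/-- The final image of the tube. -/
noncomputable def tX (F : E n → E n) (l a : ℕ) (A : E (n * n)) (b : E n) (J : Fin s → Fin n)
    (y : E (s + 1)) : E n :=
  F^[l] (Ph F^[a] A b J y)

/-- The map which defines the leaves in the tube. -/
noncomputable def tXi (F : E n → E n) (l a : ℕ) (ℓ : E n →L[ℂ] E (s + 1)) (A : E (n * n)) (b : E n)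
    (J : Fin s → Fin n) : E (s + 1) → E (s + 1) :=
  Xi fun y => ℓ (tX F l a A b J y)

/-- The Jacobian at a centre. -/
noncomputable def jz (G : E n → E n) (ℓ : E n →L[ℂ] E (s + 1)) (J : Fin s → Fin n) (z : E n) : ℝ :=
  ‖(Matrix.of fun i j => ℓ (fr G z (evs J) j) i).det‖ ^ 2 / (‖ℓ (G z) 0‖ ^ (s + 1)) ^ 2

/-- The projection onto the tangent space of the leaf. -/
noncomputable def pz (F : E n → E n) (l a : ℕ) (ℓ : E n →L[ℂ] E (s + 1)) (J : Fin s → Fin n)
    (z u : E n) : E n :=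
  pj (ℓ.comp (fderiv ℂ F^[l] (F^[a] z))) (ℓ (F^[l] (F^[a] z)))
    (fun j => fderiv ℂ F^[a] z (ev (J j))) u

/-- The total speed of the leaf disc in the direction `A`. -/
noncomputable def Sz (F : E n → E n) (l a : ℕ) (ℓ : E n →L[ℂ] E (s + 1)) (J : Fin s → Fin n)
    (N : ℕ) (z : E n) (A : E (n * n)) : ℝ :=
  QJ F N (F^[a] z) (pz F l a ℓ J z (mt n n A (un (F^[a] z))))

/-- The shell. -/
def Sh (n : ℕ) (a b : ℝ) : Set (E n) := {z | a < ‖z‖ ∧ ‖z‖ < b}

/-- The horizontal disc of radius `ρ` stays in a shell. -/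
def Fat (b : E n) (J : Fin s → Fin n) (ρ : ℝ) : Prop :=
  ∀ y : E (s + 1), ‖tl y‖ < ρ → Zb b J y ∈ Sh n (1 / 2) 3

/-- The sum of the potentials whose masses are controlled by the current `Ψ`. -/
noncomputable def ut (d : ℕ) (F : E n → E n) (ℓ : E n →L[ℂ] E (s + 1)) (w m N : ℕ) (c c' : ℝ)
    (X : E n) : ℝ :=
  pe d F ℓ m (F^[w] X) + c * lg (F^[w + m] X) + c' * ∑ j ∈ Finset.range N, lg (F^[j] X)

/-- The conditions on the leaves at a centre. -/
def Cn (d : ℕ) (F : E n → E n) (i w m : ℕ) (ℓ : E n →L[ℂ] E (s + 1)) (J : Fin s → Fin n)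
    (M K : ℝ) : Set (E n) :=
  {z | ‖F^[i + w + m] z‖ ≤ M * ‖ℓ (F^[i + w + m] z) 0‖ ∧
    Real.exp (rg d i (al F^[i] J z) + bt d F ℓ m (F^[i + w] z) - K) ≤
      ‖th ℓ F^[i + w + m] z (evs J)‖}

end Pool.Agent.Lib.MP_a47f92_an
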