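import Pool.Agent.Lib.MP_a47f92_an.G.ELin
import Pool.Agent.Lib.MP_a47f92_an.G.LHa

set_option autoImplicit false
set_option linter.unusedSectionVars false

namespace Pool.Agent.Lib.MP_a47f92_an

open MeasureTheory Filter Topology Set Complex Metric Function
open scoped ContDiff ComplexConjugate ComplexOrder Matrix ENNReal NNReal

/-! The leafwise Laplacian as a mixed discriminant. -/

variable {n s : ℕ}

/-- Directly from the definition of `mdC` (`Matrix.det_apply`). -/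
theorem mdC_rank_one' (a b : Fin n → Fin n → ℂ) :
    mdC (fun l => Matrix.of fun i j => a l i * conj (b l j)) =
      (Matrix.of a).det * conj (Matrix.of b).det := by
  have h : ∀ π : Equiv.Perm (Fin n), (Matrix.of fun i l =>
      (Matrix.of fun i j => a l i * conj (b l j) : Mat n) i (π l)).det =
      (∏ l, conj (b l (π l))) * (Matrix.of a).det := by
    intro π
    rw [← Matrix.det_transpose (Matrix.of a), ← Matrix.det_mul_row]
    congr 1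
    ext i l
    simp only [Matrix.of_apply, Matrix.transpose_apply, mul_comm]
  have h2 : conj (Matrix.of b).det = ∑ π : Equiv.Perm (Fin n),
      ((Equiv.Perm.sign π : ℤ) : ℂ) * ∏ l, conj (b l (π l)) := by
    rw [← Matrix.det_transpose, Matrix.det_apply', map_sum]
    refine Finset.sum_congr rfl fun π _ => ?_
    simp only [map_mul, map_intCast, map_prod, Matrix.transpose_apply, Matrix.of_apply]
  rw [MDiscA_left]
  simp only [h, ← mul_assoc, ← Finset.sum_mul]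
  rw [← h2, mul_comm]

theorem ELL_cons (H P : Mat (s + 1)) :
    md (Fin.cons H fun i : Fin s => Matrix.of fun j k => P i.succ j * conj (P i.succ k) :
        Fin (s + 1) → Mat (s + 1)) =
      (qf H (WithLp.toLp 2 (P.adjugate *ᵥ Pi.single 0 1))).re := by
  rw [md, ← Fin.update_cons_zero (x := 0), mdC_update_eq, qf]
  congr 1
  refine Finset.sum_congr rfl fun i _ => Finset.sum_congr rfl fun j _ => ?_
  rw [mul_comm, cof, Fin.update_cons_zero]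
  simp only [Matrix.mulVec_single_one, Matrix.col_apply, Matrix.adjugate_apply]
  congr 1
  refine Eq.trans ?_ (mdC_rank_one' (P.updateRow 0 (Pi.single i 1)) (P.updateRow 0 (Pi.single j 1)))
  congr 1
  funext l
  refine Fin.cases ?_ (fun l => ?_) l
  · ext a b
    simp only [Fin.cons_zero, Matrix.of_apply, Matrix.updateRow_self, Matrix.single_apply,
      Pi.single_apply]
    by_cases h1 : i = a <;> by_cases h2 : j = b <;> simp [h1, h2, @eq_comm _ a, @eq_comm _ b]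
  · ext a b
    simp only [Fin.cons_succ, Matrix.of_apply, Matrix.updateRow_ne (Fin.succ_ne_zero l)]

theorem ELL_co {ℓ : E n →L[ℂ] E (s + 1)} (hℓ : ‖ℓ‖ ≤ 1) (x : E n) (i : Fin (s + 1)) :
    ‖ℓ x i‖ ≤ ‖x‖ :=
  (PiLp.norm_apply_le (ℓ x) i).trans ((ℓ.le_of_opNorm_le hℓ x).trans_eq (one_mul _))

theorem ELL_qf (L : E n →L[ℂ] ℂ) (v : E n) : qf (r1 L) v = ((‖L v‖ ^ 2 : ℝ) : ℂ) := by
  have e : L v = ∑ i, v i * L (ev i) := by
    conv_lhs => rw [← sum_ev v]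
    simp only [map_sum, map_smul, smul_eq_mul]
  rw [ofReal_pow, ← Complex.mul_conj', e, map_sum, Finset.sum_mul_sum, qf]
  refine Finset.sum_congr rfl fun i _ => Finset.sum_congr rfl fun j _ => ?_
  rw [r1, Matrix.of_apply, map_mul]
  ring

theorem ELL_smul2 (c : ℝ) (H H' : Mat (s + 1)) :
    md (Fin.cons H fun _ : Fin s => (c : ℂ) • H') = c ^ s * md (Fin.cons H fun _ : Fin s => H') := by
  have e := mdC_smul (Fin.cons 1 fun _ : Fin s => (c : ℂ)) (Fin.cons H fun _ : Fin s => H')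
  rw [Fin.prod_univ_succ] at e
  simp only [Fin.cons_zero, Fin.cons_succ, Finset.prod_const, Finset.card_univ, Fintype.card_fin,
    one_mul] at e
  rw [md, md, ← re_ofReal_mul, ofReal_pow, ← e]
  congr 2
  funext l
  exact Fin.cases (one_smul _ _).symm (fun _ => rfl) l

theorem ELL_comp {D : ℝ} {q : E n → ℝ} (h : PL D q) {Φ : E (s + 1) → E n} {y : E (s + 1)}
    (hΦ : AnalyticAt ℂ Φ y) (h0 : Φ y ≠ 0) :
    ContDiffAt ℝ ∞ (fun y => q (Φ y)) y ∧ ∀ v, 0 ≤ levi (fun y => q (Φ y)) y v := by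
  have h1 : ContDiffAt ℝ ∞ (fun y => q (Φ y)) y :=
    (h.lh.contDiffAt h0).comp y (hΦ.contDiffAt.restrict_scalars ℝ)
  refine ⟨h1, fun v => ?_⟩
  rw [← lap_eq_levi (h1.of_le GW2_two), lap_comp hΦ.contDiffAt (h.lh.contDiffAt2 h0),
    lap_eq_levi (h.lh.contDiffAt2 h0)]
  exact h.psh _ h0 _

theorem ELL_psd {U : Set (E n)} (hU : IsOpen U) {u : E n → ℝ} (hu : SP U u) {y : E n}
    (hy : y ∈ U) : (hess u y).PosSemidef :=
  psd_hess ((hu.sm.contDiffAt (hU.mem_nhds hy)).of_le GW2_two) (hu.psh y hy)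

theorem ELL_tq : ContDiff ℝ ∞ (Dc.tq : E (s + 1) → ℝ) ∧
    ∀ y v : E (s + 1), levi Dc.tq y v = ‖tl v‖ ^ 2 := by
  let L : E (s + 1) →L[ℂ] E s := LinearMap.toContinuousLinearMap
    { toFun := tl, map_add' := fun _ _ => rfl, map_smul' := fun _ _ => rfl }
  have h1 : ContDiff ℝ ∞ (Dc.tq : E (s + 1) → ℝ) :=
    (L.contDiff.restrict_scalars ℝ).norm_sq ℂ
  refine ⟨h1, fun y v => ?_⟩
  rw [← lap_eq_levi (h1.contDiffAt.of_le GW2_two)]
  refine (lap_normSq (f := L) L.contDiff.contDiffAt v).trans ?_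
  rw [L.fderiv]
  rfl

/-- Expand the first slot with `mdC_update_eq`; the cofactors are given by `mdC_rank_one'` and
`Matrix.adjugate_apply`. -/
theorem LL_eq_md (Ξ : E (s + 1) → E (s + 1)) (u : E (s + 1) → ℝ) (y : E (s + 1)) :
    LL Ξ u y = md (Fin.cons (hess u y) fun i : Fin s => Matrix.of fun j k =>
      fderiv ℂ Ξ y (ev j) i.succ * conj (fderiv ℂ Ξ y (ev k) i.succ) :
        Fin (s + 1) → Mat (s + 1)) :=
  (ELL_cons (hess u y) (cmat (fderiv ℂ Ξ y))).symm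

/-- The numerator of `rw` is an alternating form in `(x, u)`: replace `u` by `prj (un x) u`
(`sub_prj_un`). -/
theorem norm_rw_le {ℓ : E n →L[ℂ] E (s + 1)} (hℓ : ‖ℓ‖ ≤ 1) {x : E n} {M : ℝ}
    (hx : ‖x‖ < 4 * M * ‖ℓ x 0‖) (hx0 : x ≠ 0) (u : E n) (i : Fin s) :
    ‖rw ℓ (ℓ x) u i‖ ^ 2 ≤ 2048 * M ^ 4 * (‖prj (un x) u‖ ^ 2 / (2 * ‖x‖ ^ 2)) := by
  obtain ⟨c, hc⟩ := sub_prj_un x u
  generalize prj (un x) u = w at hc
  have hx' : 0 < ‖x‖ := norm_pos_iff.2 hx0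
  have hg : 0 < ‖ℓ x 0‖ := (norm_nonneg _).lt_of_ne fun e => by
    rw [← e, mul_zero] at hx
    exact lt_asymm hx hx'
  have hM : 0 < 4 * M := (mul_pos_iff_of_pos_right hg).1 (hx'.trans hx)
  have e : ℓ x 0 * ℓ u i.succ - ℓ x i.succ * ℓ u 0 = ℓ x 0 * ℓ w i.succ - ℓ x i.succ * ℓ w 0 := by
    rw [hc]
    simp only [map_add, map_smul, PiLp.add_apply, PiLp.smul_apply, smul_eq_mul]
    ring
  have h1 : ‖ℓ x 0 * ℓ w i.succ - ℓ x i.succ * ℓ w 0‖ ≤ 2 * (‖x‖ * ‖w‖) := by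
    refine (norm_sub_le _ _).trans ?_
    rw [norm_mul, norm_mul, two_mul]
    exact add_le_add
      (mul_le_mul (ELL_co hℓ x 0) (ELL_co hℓ w _) (norm_nonneg _) (norm_nonneg _))
      (mul_le_mul (ELL_co hℓ x _) (ELL_co hℓ w 0) (norm_nonneg _) (norm_nonneg _))
  have h2 : ‖rw ℓ (ℓ x) u i‖ ≤ 32 * M ^ 2 * (‖w‖ / ‖x‖) := by
    rw [rw, e, norm_div, norm_pow, div_le_iff₀ (by positivity)]
    refine h1.trans ?_
    have h3 : ‖x‖ ^ 2 ≤ (4 * M * ‖ℓ x 0‖) ^ 2 := pow_le_pow_left₀ hx'.le hx.le 2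
    have h4 := mul_le_mul_of_nonneg_left h3 (by positivity : 0 ≤ 2 * (‖w‖ / ‖x‖))
    calc 2 * (‖x‖ * ‖w‖) = 2 * (‖w‖ / ‖x‖) * ‖x‖ ^ 2 := by field_simp
      _ ≤ _ := h4
      _ = _ := by ring
  refine (pow_le_pow_left₀ (norm_nonneg _) h2 2).trans_eq ?_
  field_simp
  ring

/-- `LL_eq_md`, `fderiv_Xi`, `rw_comp`, `norm_rw_le`, `lap_log_norm`, `md_mono`, `mdC_smul`,
`psd_of_qf`. -/
theorem LL_le_md {X : E (s + 1) → E n} {ℓ : E n →L[ℂ] E (s + 1)} (hℓ : ‖ℓ‖ ≤ 1) {y : E (s + 1)}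
    (hX : AnalyticAt ℂ X y) (h0 : X y ≠ 0) {M : ℝ} (hM : ‖X y‖ < 4 * M * ‖ℓ (X y) 0‖)
    {u : E (s + 1) → ℝ} (hu : (hess u y).PosSemidef) :
    LL (Xi fun y => ℓ (X y)) u y ≤ (2048 * M ^ 4) ^ s *
      md (Fin.cons (hess u y) fun _ : Fin s => hess (Dc.lf X) y) := by
  have hg : ℓ (X y) 0 ≠ 0 := fun e => by
    rw [e, norm_zero, mul_zero] at hM
    exact (norm_nonneg _).not_gt hM
  have hd : HasFDerivAt (fun y => ℓ (X y)) (ℓ.comp (fderiv ℂ X y)) y :=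
    ℓ.hasFDerivAt.comp y hX.differentiableAt.hasFDerivAt
  have hc : ContDiffAt ℝ 2 (Dc.lf X) y := (ELL_comp pl_lg hX h0).1.of_le GW2_two
  let L : Fin s → E (s + 1) →L[ℂ] ℂ := fun i =>
    (EuclideanSpace.proj i.succ).comp (fderiv ℂ (Xi fun y => ℓ (X y)) y)
  have hL : ∀ i v, L i v = rw ℓ (ℓ (X y)) (fderiv ℂ X y v) i := fun i v => by
    rw [← rw_comp, ← hd.fderiv]
    exact (fderiv_Xi hd.differentiableAt hg v).2 i
  rw [LL_eq_md]
  refine (md_mono (B := Fin.cons (hess u y) fun _ : Fin s =>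
    ((2048 * M ^ 4 : ℝ) : ℂ) • hess (Dc.lf X) y) ?_ ?_).trans_eq (ELL_smul2 _ _ _)
  · exact Fin.cases hu fun i => r1_psd (L i)
  · refine Fin.cases ?_ fun i => ?_
    · simp only [Fin.cons_zero, sub_self]
      exact Matrix.PosSemidef.zero
    · change (((2048 * M ^ 4 : ℝ) : ℂ) • hess (Dc.lf X) y - r1 (L i)).PosSemidef
      refine psd_of_qf (Matrix.IsHermitian.sub ?_ (r1_psd (L i)).isHermitian) fun v => ?_
      · rw [← hess_const_mul]
        exact hess_isHermitian (contDiffAt_const.mul hc)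
      · have e := MDisc2_qf_lin ((2048 * M ^ 4 : ℝ) : ℂ) (-1) (hess (Dc.lf X) y) (r1 (L i)) v
        rw [neg_one_smul, ← sub_eq_add_neg] at e
        rw [e, ELL_qf, neg_one_mul, add_re, re_ofReal_mul, neg_re, ofReal_re, ← levi_eq_qf,
          ← lap_eq_levi hc, hL, ← sub_eq_add_neg, sub_nonneg]
        refine (norm_rw_le hℓ hM h0 _ i).trans_eq ?_
        rw [← lap_log_norm hX.contDiffAt h0]
        rfl

variable {X : E (s + 1) → E n} {ℓ : E n →L[ℂ] E (s + 1)} {r ρ M : ℝ}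

theorem isOpen_Om (hX : Dc.NV X (Tb s r ρ)) (ℓ : E n →L[ℂ] E (s + 1)) (M : ℝ) :
    IsOpen (Om X ℓ r ρ M) := by
  have h1 : ContinuousOn (fun y => 4 * M * ‖ℓ (X y) 0‖ - ‖X y‖) (Tb s r ρ) := by
    have h := hX.an.continuousOn
    have h2 : Continuous fun z : E n => 4 * M * ‖ℓ z 0‖ - ‖z‖ := by fun_prop
    exact h2.comp_continuousOn h
  have h2 := h1.isOpen_inter_preimage (isOpen_Tb s r ρ) (isOpen_Ioi (a := 0))
  convert h2 using 1
  ext y
  simp only [Om, mem_ofPred_eq, mem_inter_iff, mem_preimage, mem_Ioi, sub_pos]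

theorem ne_of_mem_Om {y : E (s + 1)} (hy : y ∈ Om X ℓ r ρ M) : ℓ (X y) 0 ≠ 0 := fun e => by
  have h := hy.2
  rw [e, norm_zero, mul_zero] at h
  exact (norm_nonneg _).not_gt h

theorem fo_Xi (hX : Dc.NV X (Tb s r ρ)) (ℓ : E n →L[ℂ] E (s + 1)) (M : ℝ) :
    Dc.Fo (Xi fun y => ℓ (X y)) (Om X ℓ r ρ M) :=
  ⟨isOpen_Om hX ℓ M, fun y hy => analyticAt_Xi ((ℓ.analyticAt _).comp (hX.an y hy.1))
    (ne_of_mem_Om hy), fun _ _ => rfl⟩

theorem norm_Xi_le (hℓ : ‖ℓ‖ ≤ 1) (hr : r ≤ 1) (hM : 1 ≤ M) {y : E (s + 1)}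
    (hy : y ∈ Om X ℓ r ρ M) : ‖Xi (fun y => ℓ (X y)) y‖ ≤ 1 + 4 * M := by
  have hg := ne_of_mem_Om hy
  have e : Xi (fun y => ℓ (X y)) y = cs (y 0) ((ℓ (X y) 0)⁻¹ • tl (ℓ (X y))) := by
    simp only [Xi, cs]
    congr 2
    funext i
    exact div_eq_inv_mul _ _
  have h1 : ‖tl (ℓ (X y))‖ ≤ ‖ℓ (X y)‖ := by
    have h := norm_cs_sq' (ℓ (X y) 0) (tl (ℓ (X y)))
    rw [cs_tl'] at h
    exact (pow_le_pow_iff_left₀ (norm_nonneg _) (norm_nonneg _) two_ne_zero).1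
      (h ▸ le_add_of_nonneg_left (sq_nonneg _))
  have h2 : ‖(ℓ (X y) 0)⁻¹ • tl (ℓ (X y))‖ ≤ 4 * M := by
    rw [norm_smul, norm_inv, inv_mul_le_iff₀ (norm_pos_iff.2 hg), mul_comm]
    exact h1.trans ((ℓ.le_of_opNorm_le hℓ _).trans ((one_mul _).trans_le hy.2.le))
  have h3 : ‖y 0‖ ≤ 1 := hy.1.1.le.trans hr
  refine (pow_le_pow_iff_left₀ (norm_nonneg _) (by linarith) two_ne_zero).1 ?_
  rw [e, norm_cs_sq']
  have h4 := pow_le_pow_left₀ (norm_nonneg _) h2 2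
  have h5 := pow_le_pow_left₀ (norm_nonneg _) h3 2
  nlinarith

theorem log_ratio (hℓ : ‖ℓ‖ ≤ 1) (hX : Dc.NV X (Tb s r ρ)) {y : E (s + 1)}
    (hy : y ∈ Om X ℓ r ρ M) :
    Real.log ‖ℓ (X y) 0‖ ≤ lg (X y) ∧ lg (X y) ≤ Real.log (4 * M) + Real.log ‖ℓ (X y) 0‖ := by
  have hg : 0 < ‖ℓ (X y) 0‖ := norm_pos_iff.2 (ne_of_mem_Om hy)
  have hx : 0 < ‖X y‖ := norm_pos_iff.2 (hX.ne y hy.1)
  have hM : 0 < 4 * M := (mul_pos_iff_of_pos_right hg).1 (hx.trans hy.2)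
  refine ⟨Real.log_le_log hg (ELL_co hℓ _ 0), ?_⟩
  rw [← Real.log_mul hM.ne' hg.ne']
  exact Real.log_le_log hx hy.2.le

/-- Integrate `LL_le_md`; `lf X = c * Q` gives the factor `c ^ s` (`hess_const_mul`,
`hess_congr`). -/
theorem tot_le (hℓ : ‖ℓ‖ ≤ 1) (hX : Dc.NV X (Tb s r ρ)) {u u' Q : E (s + 1) → ℝ} {c : ℝ}
    (hc : 0 ≤ c) (hQ : ∀ y ∈ Tb s r ρ, Dc.lf X y = c * Q y) (hu : SP (Tb s r ρ) u)
    (hu' : ∀ y ∈ Om X ℓ r ρ M, ∀ v, levi u' y v = levi u y v) :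
    Dc.tot (Xi fun y => ℓ (X y)) (Om X ℓ r ρ M) u' ≤
      ENNReal.ofReal ((2048 * M ^ 4) ^ s * c ^ s) * mI (Tb s r ρ) u Q := by
  rw [mI, ← lintegral_const_mul' _ _ ENNReal.ofReal_ne_top]
  refine le_trans (setLIntegral_mono' (isOpen_Om hX ℓ M).measurableSet fun y hy => ?_)
    (lintegral_mono_set (t := Tb s r ρ) fun y hy => hy.1)
  have hn := (isOpen_Tb s r ρ).mem_nhds hy.1
  have e : hess (Dc.lf X) y = (c : ℂ) • hess Q y := by
    rw [← hess_const_mul]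
    exact (hess_congr (eventually_of_mem hn hQ)).self_of_nhds
  have h := LL_le_md hℓ (hX.an y hy.1) (hX.ne y hy.1) hy.2 (ELL_psd (isOpen_Tb s r ρ) hu hy.1)
  rw [e, ELL_smul2, ← mul_assoc] at h
  rw [← ENNReal.ofReal_mul (by positivity), LL, hu' y hy]
  exact ENNReal.ofReal_le_ofReal h

theorem mI_add {U : Set (E (s + 1))} (hU : IsOpen U) {u u' Q : E (s + 1) → ℝ} (hu : SP U u)
    (hu' : SP U u') (hQ : SP U Q) : mI U (fun y => u y + u' y) Q = mI U u Q + mI U u' Q := by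
  have hm : ContinuousOn (fun y => md (Fin.cons (hess u y) fun _ : Fin s => hess Q y)) U := by
    have h := continuousOn_md (p := Fin.cons u fun _ : Fin s => Q) hU
      (Fin.cases hu.sm fun _ => hQ.sm)
    refine h.congr fun y _ => ?_
    dsimp only
    congr 1
    funext l
    exact Fin.cases rfl (fun _ => rfl) l
  rw [mI, mI, mI, ← lintegral_add_left'
    (hm.aemeasurable hU.measurableSet).ennreal_ofReal]
  refine setLIntegral_congr_fun hU.measurableSet fun y hy => ?_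
  have hn := hU.mem_nhds hy
  have h : ∀ {w : E (s + 1) → ℝ}, SP U w →
      0 ≤ md (Fin.cons (hess w y) fun _ : Fin s => hess Q y) := fun hw =>
    md_nonneg (Fin.cases (ELL_psd hU hw hy) fun _ => ELL_psd hU hQ hy)
  rw [← ENNReal.ofReal_add (h hu) (h hu'), hess_add ((hu.sm.contDiffAt hn).of_le GW2_two)
    ((hu'.sm.contDiffAt hn).of_le GW2_two)]
  have e := MD3_add (Fin.cons 0 fun _ : Fin s => hess Q y) 0 (hess u y) (hess u' y)
  simp only [Fin.update_cons_zero] at e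
  rw [e]

theorem mI_const_mul {U : Set (E (s + 1))} {u Q : E (s + 1) → ℝ} {c : ℝ} (hc : 0 ≤ c) :
    mI U (fun y => c * u y) Q = ENNReal.ofReal c * mI U u Q := by
  rw [mI, mI, ← lintegral_const_mul' _ _ ENNReal.ofReal_ne_top]
  refine lintegral_congr fun y => ?_
  have e := mdC_update_smul (Fin.cons 0 fun _ : Fin s => hess Q y) 0 (c : ℂ) (hess u y)
  simp only [Fin.update_cons_zero] at e
  rw [← ENNReal.ofReal_mul hc, hess_const_mul, md, e, re_ofReal_mul]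

theorem mI_mono {U U' : Set (E (s + 1))} (h : U ⊆ U') (u Q : E (s + 1) → ℝ) :
    mI U u Q ≤ mI U' u Q := lintegral_mono_set h

theorem sp_tq (U : Set (E (s + 1))) : SP U Dc.tq :=
  ⟨ELL_tq.1.contDiffOn, fun y _ v => (ELL_tq.2 y v).ge.trans' (sq_nonneg _)⟩
theorem levi_tq (y v : E (s + 1)) : levi Dc.tq y v = ‖tl v‖ ^ 2 := ELL_tq.2 y v
theorem sp_lf {N : ℕ} {f : E (s + 1) → E N} {U : Set (E (s + 1))} (hf : Dc.NV f U) :
    SP U (Dc.lf f) :=
  ⟨fun y hy => (ELL_comp pl_lg (hf.an y hy) (hf.ne y hy)).1.contDiffWithinAt,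
    fun y hy => (ELL_comp pl_lg (hf.an y hy) (hf.ne y hy)).2⟩
theorem SP.mono {U U' : Set (E n)} {u : E n → ℝ} (h : SP U' u) (h' : U ⊆ U') : SP U u :=
  ⟨h.sm.mono h', fun y hy => h.psh y (h' hy)⟩
theorem SP.add {U : Set (E n)} (hU : IsOpen U) {u u' : E n → ℝ} (h : SP U u) (h' : SP U u') :
    SP U fun y => u y + u' y := by
  refine ⟨h.sm.add h'.sm, fun y hy v => ?_⟩
  rw [levi_add ((h.sm.contDiffAt (hU.mem_nhds hy)).of_le GW2_two)
    ((h'.sm.contDiffAt (hU.mem_nhds hy)).of_le GW2_two)]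
  exact add_nonneg (h.psh y hy v) (h'.psh y hy v)
theorem SP.const_mul {U : Set (E n)} {u : E n → ℝ} (h : SP U u) {c : ℝ} (hc : 0 ≤ c) :
    SP U fun y => c * u y := by
  refine ⟨contDiffOn_const.mul h.sm, fun y hy v => ?_⟩
  rw [levi_const_mul]
  exact mul_nonneg hc (h.psh y hy v)
theorem PL.sp_comp {D : ℝ} {q : E n → ℝ} (h : PL D q) {Φ : E (s + 1) → E n} {U : Set (E (s + 1))}
    (hΦ : Dc.NV Φ U) : SP U fun y => q (Φ y) :=
  ⟨fun y hy => (ELL_comp h (hΦ.an y hy) (hΦ.ne y hy)).1.contDiffWithinAt,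
    fun y hy => (ELL_comp h (hΦ.an y hy) (hΦ.ne y hy)).2⟩

end Pool.Agent.Lib.MP_a47f92_an
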