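import Pool.Agent.Lib.MP_a47f92_an.G.ELT0

set_option autoImplicit false
set_option linter.unusedSectionVars false

namespace Pool.Agent.Lib.MP_a47f92_an

open MeasureTheory Filter Topology Set Complex Metric Function
open scoped ContDiff ComplexConjugate ComplexOrder Matrix ENNReal NNReal

/-! Estimates on tubes for potentials which almost depend on the last coordinates only. -/

variable {n s : ℕ}

theorem ELT_hess_sub {Ω : Set (E n)} (hΩ : IsOpen Ω) {a b : E n → ℝ} (ha : ContDiffOn ℝ ∞ a Ω)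
    (hb : ContDiffOn ℝ ∞ b Ω) {y : E n} (hy : y ∈ Ω) :
    hess a y = hess b y + hess (fun w => a w - b w) y := by
  rw [← hess_add ((hb.contDiffAt (hΩ.mem_nhds hy)).of_le CLN_two_le)
    (((ha.sub hb).contDiffAt (hΩ.mem_nhds hy)).of_le CLN_two_le)]
  simp

/-- Replace the slots one at a time. -/
theorem ELT_tel {Ω : Set (E n)} (hΩ : IsOpen Ω) {q q₀ : Fin n → E n → ℝ} {χ : E n → ℝ}
    {B : Fin n → ℝ} (hq : ∀ l, ContDiffOn ℝ ∞ (q l) Ω) (hq₀ : ∀ l, ContDiffOn ℝ ∞ (q₀ l) Ω)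
    (hχ : Continuous χ) (hc : HasCompactSupport χ) (hs : tsupport χ ⊆ Ω)
    (hz : ∀ y, md (fun l => hess (q₀ l) y) = 0)
    (hB : ∀ (l : Fin n) (h : Fin n → E n → ℝ), (∀ l', h l' = q l' ∨ h l' = q₀ l') →
      ∫ y, χ y * md (update (fun l' => hess (h l') y) l (hess (fun w => q l w - q₀ l w) y)) ≤ B l) :
    ∫ y, χ y * md (fun l => hess (q l) y) ≤ ∑ l, B l := by
  have key : ∀ T : Finset (Fin n),
      ∫ y, χ y * md (fun l => hess (T.piecewise q q₀ l) y) ≤ ∑ l ∈ T, B l := by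
    intro T
    induction T using Finset.induction_on with
    | empty => simp [hz]
    | insert l T hl ih =>
      have h1 : ∀ l', T.piecewise q q₀ l' = q l' ∨ T.piecewise q q₀ l' = q₀ l' := fun l' => by
        by_cases e : l' ∈ T
        · exact Or.inl (Finset.piecewise_eq_of_mem _ _ _ e)
        · exact Or.inr (Finset.piecewise_eq_of_notMem _ _ _ e)
      have h2 : ∀ l', ContDiffOn ℝ ∞ (T.piecewise q q₀ l') Ω := fun l' => by
        rcases h1 l' with e | e <;> rw [e]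
        exacts [hq l', hq₀ l']
      have h3 := ELT_int (q := update (T.piecewise q q₀) l fun w => q l w - q₀ l w) hΩ
        (ELT_upd (P := fun a => ContDiffOn ℝ ∞ a Ω) (fun l' _ => h2 l') ((hq l).sub (hq₀ l)))
        hχ hc hs
      simp only [CLN_update] at h3
      rw [Finset.sum_insert hl, Finset.piecewise_insert, add_comm]
      refine le_trans (le_of_eq ?_) (add_le_add ih (hB l _ h1))
      rw [← integral_add (ELT_int hΩ h2 hχ hc hs) h3]
      refine integral_congr_ae (Eventually.of_forall fun y => ?_)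
      by_cases hy : y ∈ tsupport χ
      · have e : update (fun l' => hess (T.piecewise q q₀ l') y) l (hess (q₀ l) y) =
            fun l' => hess (T.piecewise q q₀ l') y := by
          rw [← Finset.piecewise_eq_of_notMem T q q₀ hl]
          exact update_eq_self l fun l' => hess (T.piecewise q q₀ l') y
        simp only [CLN_update, ELT_hess_sub hΩ (hq l) (hq₀ l) (hs hy), md, mdC_update_add, e,
          add_re, mul_add]
      · simp only [image_eq_zero_of_notMem_tsupport hy, zero_mul, add_zero]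
  simpa only [Finset.piecewise_univ] using key Finset.univ

theorem ELT_xo {q : Fin (s + 1) → E (s + 1) → ℝ} (h : ∀ l, XO (q l)) (y : E (s + 1)) :
    md (fun l => hess (q l) y) = 0 := by
  rw [md, mdC_eq_zero_of_row fun l j => (h l).row y j, zero_re]

/-- One power of `M` is gained if all slots almost depend on the last coordinates only. -/
theorem xe_gen {Ω K : Set (E (s + 1))} (hΩ : IsOpen Ω) (hK : IsCompact K) (h : K ⊆ Ω)
    (S : Finset (Fin (s + 1))) : ∃ C : ℝ, 0 ≤ C ∧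
    ∀ (q q₀ : Fin (s + 1) → E (s + 1) → ℝ) (M C₀ : ℝ), 1 ≤ M → 0 ≤ C₀ → (∀ l, SP Ω (q l)) →
      (∀ l, SP Ω (q₀ l)) → (∀ l, XO (q₀ l)) →
      (∀ l ∈ S, ∀ y ∈ Ω, |q l y| ≤ M ∧ |q₀ l y| ≤ M ∧ |q l y - q₀ l y| ≤ C₀) →
      (∀ l ∉ S, q l = q₀ l ∧ ∀ y ∈ Ω, ∀ v, levi (q l) y v ≤ ‖v‖ ^ 2) →
      ∫ y in K, md (fun l => hess (q l) y) ≤ C * C₀ * M ^ S.card / M := by
  obtain ⟨χ, hχ, hc, hs, h0, -, h1⟩ := ELT_bump hΩ hK h
  obtain ⟨c, c0, hl2⟩ := Chain_levi_bd hχ hc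
  choose C C0 hC using fun l => cln_gen hΩ hc hs (S.erase l)
  refine ⟨c * ∑ l, C l, mul_nonneg c0 (Finset.sum_nonneg fun l _ => C0 l),
    fun q q₀ M C₀ hM hC₀ hq hq₀ hx h2 h3 => ?_⟩
  have M0 : 0 < M := one_pos.trans_le hM
  refine (ELT_le hΩ hK.measurableSet hq hχ.continuous hc hs h0 h1).trans
    ((ELT_tel (B := fun l => c * C l * C₀ * M ^ S.card / M) hΩ (fun l => (hq l).sm)
      (fun l => (hq₀ l).sm) hχ.continuous hc hs (ELT_xo hx) fun l g hg => ?_).trans_eq ?_)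
  · have p0 := C0 l
    by_cases hl : l ∈ S
    swap
    · have e : ∀ y, md (update (fun l' => hess (g l') y) l
          (hess (fun w => q l w - q₀ l w) y)) = 0 := fun y => by
        rw [md, mdC_eq_zero (l := l) (by simp [(h3 l hl).1, hess_const]), zero_re]
      simp only [e, mul_zero, integral_zero]
      positivity
    have g1 : ∀ l', SP Ω (g l') := fun l' => by
      rcases hg l' with e | e <;> rw [e]
      exacts [hq l', hq₀ l']
    have hq' : ∀ l', SP Ω (update g l (fun w => ‖w‖ ^ 2) l') :=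
      ELT_upd (fun l' _ => g1 l') (sp_normSq Ω)
    have h4 := hC l (update g l fun w => ‖w‖ ^ 2) M M0.le hq' (fun l' hl' y hy => by
      rw [update_of_ne (Finset.ne_of_mem_erase hl')]
      rcases hg l' with e | e <;> rw [e]
      exacts [(h2 l' (Finset.mem_of_mem_erase hl') y hy).1,
        (h2 l' (Finset.mem_of_mem_erase hl') y hy).2.1]) fun l' hl' y hy v => by
      by_cases e : l' = l
      · rw [e, update_self, levi_normSq]
      · have h5 := h3 l' fun h5 => hl' (Finset.mem_erase.2 ⟨e, h5⟩)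
        rw [update_of_ne e, (hg l').elim id fun e' => e'.trans h5.1.symm]
        exact h5.2 y hy v
    refine (ELT_step (l := l) hΩ (fun l' _ => (g1 l').sm) ((hq l).sm.sub (hq₀ l).sm) hχ hc
      subset_rfl hs hC₀ (fun y hy => (h2 l hl y hy).2.2)
      ((ELT_intOn hΩ hc hs fun l' => (hq' l').sm).const_mul c) fun y hy => by
        rw [CLN_update, hess_normSq]
        exact md_abs_le (fun l' _ => (g1 l').psd hΩ (hs hy))
          (hess_isHermitian (hχ.contDiffAt.of_le CLN_two_le)) (hl2 y)).trans ?_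
    rw [integral_const_mul, ← Finset.card_erase_add_one hl, pow_succ, mul_div_assoc,
      mul_div_cancel_right₀ _ M0.ne']
    calc C₀ * (c * ∫ y in tsupport χ, md fun l' => hess (update g l (fun w => ‖w‖ ^ 2) l') y)
        ≤ C₀ * (c * (C l * M ^ (S.erase l).card)) := by gcongr
      _ = _ := by ring
  · simp only [Finset.mul_sum, Finset.sum_mul, Finset.sum_div]

/-- The closed tube. -/
def Tk (r : ℝ) (K : Set (E s)) : Set (E (s + 1)) := {y | y 0 ∈ closedBall (0 : ℂ) r ∧ tl y ∈ K}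

theorem isCompact_Tk (r : ℝ) {K : Set (E s)} (hK : IsCompact K) : IsCompact (Tk r K) :=
  (csE s).symm.toHomeomorph.isCompact_preimage.2 ((isCompact_closedBall (0 : ℂ) r).prod hK)

theorem Tk_subset {r R ρ : ℝ} {K : Set (E s)} (hr : r < R) (hK : K ⊆ ball 0 ρ) :
    Tk r K ⊆ Tb s R ρ := fun _ hy =>
  ⟨(mem_closedBall_zero_iff.1 hy.1).trans_lt hr, mem_ball_zero_iff.1 (hK hy.2)⟩

theorem ELT_lint {Ω K A : Set (E n)} (hΩ : IsOpen Ω) (hK : IsCompact K) (h : K ⊆ Ω) (hA : A ⊆ K)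
    {q : Fin n → E n → ℝ} (hq : ∀ l, SP Ω (q l)) {B : ℝ}
    (hB : ∫ y in K, md (fun l => hess (q l) y) ≤ B) :
    ∫⁻ y in A, ENNReal.ofReal (md fun l => hess (q l) y) ≤ ENNReal.ofReal B := by
  refine (lintegral_mono_set hA).trans ?_
  rw [← ofReal_integral_eq_lintegral_ofReal (ELT_intOn hΩ hK h fun l => (hq l).sm)
    ((ae_restrict_mem hK.measurableSet).mono fun y hy => md_nonneg fun l => (hq l).psd hΩ (h hy))]
  exact ENNReal.ofReal_le_ofReal hB

theorem contDiff_tq : ContDiff ℝ ∞ fun y : E (s + 1) => ‖tl y‖ ^ 2 :=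
  contDiff_normSq.comp ((tlL s).contDiff.restrict_scalars ℝ)

theorem ELT_levi_tq (y v : E (s + 1)) : levi (fun y : E (s + 1) => ‖tl y‖ ^ 2) y v = ‖tl v‖ ^ 2 := by
  rw [← lap_eq_levi (contDiff_tq.contDiffAt.of_le CLN_two_le)]
  refine (lap_normSq (f := tlL s) (tlL s).contDiff.contDiffAt v).trans ?_
  rw [(tlL s).fderiv]
  rfl

theorem norm_sq_eq_tl (v : E (s + 1)) : ‖v‖ ^ 2 = ‖v 0‖ ^ 2 + ‖tl v‖ ^ 2 := by
  rw [← norm_cs_sq', cs_tl']

theorem ELT_sp_tq (Ω : Set (E (s + 1))) : SP Ω fun y => ‖tl y‖ ^ 2 :=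
  ⟨contDiff_tq.contDiffOn, fun y _ v => by rw [ELT_levi_tq]; positivity⟩

theorem tl_add_ev (y : E (s + 1)) (t : ℂ) : tl (y + t • ev 0) = tl y := by
  ext i
  simp [tl, Fin.tail, ev]

theorem xo_tl (g : E s → ℝ) : XO fun y : E (s + 1) => g (tl y) := fun y t => by
  simp only [tl_add_ev]

theorem ELT_cons (p Q : E (s + 1) → ℝ) (y : E (s + 1)) :
    (Fin.cons (hess p y) fun _ : Fin s => hess Q y : Fin (s + 1) → Mat (s + 1)) =
      fun l => hess ((Fin.cons p fun _ : Fin s => Q : Fin (s + 1) → E (s + 1) → ℝ) l) y :=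
  funext fun l => Fin.cases rfl (fun _ => rfl) l

/-- XE. -/
theorem xe_bound (s : ℕ) {R r ρ₁ ρ₀ : ℝ} (hr : r < R) (hρ : ρ₀ < ρ₁) : ∃ C : ℝ, 0 ≤ C ∧
    ∀ (Q Q₀ : E (s + 1) → ℝ) (M C₀ : ℝ), 1 ≤ M → SP (Tb s R ρ₁) Q → SP (Tb s R ρ₁) Q₀ → XO Q₀ →
      (∀ y ∈ Tb s R ρ₁, |Q y| ≤ M ∧ |Q₀ y| ≤ M ∧ |Q y - Q₀ y| ≤ C₀) →
      ∫⁻ y in Tb s r ρ₀, ENNReal.ofReal
        (md (Fin.cons (hess (fun y => ‖tl y‖ ^ 2) y) fun _ : Fin s => hess Q y)) ≤
        ENNReal.ofReal (C * C₀ * M ^ s / M) := by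
  have hK := isCompact_Tk r (isCompact_closedBall (0 : E s) ρ₀)
  have hs := Tk_subset hr (closedBall_subset_ball (x := (0 : E s)) hρ)
  have hA : Tb s r ρ₀ ⊆ Tk r (closedBall (0 : E s) ρ₀) := fun y hy =>
    ⟨mem_closedBall_zero_iff.2 hy.1.le, mem_closedBall_zero_iff.2 hy.2.le⟩
  obtain ⟨C, C0, hC⟩ := xe_gen (isOpen_Tb s R ρ₁) hK hs (Finset.univ.erase 0)
  refine ⟨C, C0, fun Q Q₀ M C₀ hM hQ hQ₀ hx hb => ?_⟩
  rcases (Tb s r ρ₀).eq_empty_or_nonempty with e | ⟨y₀, hy₀⟩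
  · simp [e]
  have hq : ∀ l, SP (Tb s R ρ₁) ((Fin.cons (fun y => ‖tl y‖ ^ 2) fun _ : Fin s => Q :
      Fin (s + 1) → E (s + 1) → ℝ) l) := fun l => Fin.cases (ELT_sp_tq _) (fun _ => hQ) l
  simp only [ELT_cons]
  refine ELT_lint (isOpen_Tb s R ρ₁) hK hs hA hq ?_
  have h := hC _ (Fin.cons (fun y => ‖tl y‖ ^ 2) fun _ : Fin s => Q₀) M C₀ hM
    ((abs_nonneg _).trans (hb y₀ (hs (hA hy₀))).2.2) hq
    (fun l => Fin.cases (ELT_sp_tq _) (fun _ => hQ₀) l)
    (fun l => Fin.cases (xo_tl fun x => ‖x‖ ^ 2) (fun _ => hx) l)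
    (fun l => Fin.cases (fun h => absurd h (Finset.notMem_erase _ _)) (fun _ _ => hb) l)
    fun l => Fin.cases (fun _ => ⟨rfl, fun y _ v => by
      rw [Fin.cons_zero, ELT_levi_tq, norm_sq_eq_tl v]
      exact le_add_of_nonneg_left (sq_nonneg _)⟩) (fun i h => absurd (by simp) h) l
  simpa using h

theorem ELT_cs (t : ℂ) (x : E s) :
    HasFDerivAt (cs t) ((csE s).toContinuousLinearMap.comp (ContinuousLinearMap.inr ℂ ℂ (E s))) x :=
  (csE s).hasFDerivAt.comp x (hasFDerivAt_prodMk_right t x)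

theorem contDiff_cs' (t : ℂ) : ContDiff ℂ ∞ (cs t : E s → E (s + 1)) :=
  (csE s).contDiff.comp (contDiff_prodMk_right t)

theorem ELT_slice {q : E (s + 1) → ℝ} {t : ℂ} {x : E s} (h : ContDiffAt ℝ 2 q (cs t x)) :
    hess (fun x => q (cs t x)) x = low (hess q (cs t x)) := by
  rw [← gl_ev, ← gl_ev]
  refine (gl_comp (a := rc q) ((contDiff_cs' t).contDiffAt.of_le CLN_two_le)
    (contDiffAt_rc h)).trans ?_
  have e : ∀ j : Fin s, fderiv ℂ (cs t) x (ev j) = ev j.succ := fun j => by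
    rw [(ELT_cs t x).fderiv]
    ext i
    refine Fin.cases ?_ (fun i => ?_) i
    · exact (show (0 : ℂ) = _ by simp [ev])
    · exact (show ev j i = _ by simp [ev])
  simp only [e]
  rfl

theorem SP.slice {R ρ : ℝ} {q : E (s + 1) → ℝ} (h : SP (Tb s R ρ) q) {t : ℂ} (ht : ‖t‖ < R) :
    SP (ball 0 ρ) fun x => q (cs t x) := by
  have hm : ∀ x ∈ ball (0 : E s) ρ, cs t x ∈ Tb s R ρ := fun x hx => ⟨ht, mem_ball_zero_iff.1 hx⟩
  have h1 : ContDiffOn ℝ ∞ (fun x => q (cs t x)) (ball 0 ρ) :=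
    h.sm.comp ((contDiff_cs' t).restrict_scalars ℝ).contDiffOn hm
  refine ⟨h1, fun x hx v => ?_⟩
  have h2 := (h.sm.contDiffAt ((isOpen_Tb s R ρ).mem_nhds (hm x hx))).of_le CLN_two_le
  rw [← lap_eq_levi ((h1.contDiffAt (isOpen_ball.mem_nhds hx)).of_le CLN_two_le),
    lap_comp ((contDiff_cs' t).contDiffAt.of_le CLN_two_le) h2, lap_eq_levi h2]
  exact h.psh _ (hm x hx) _

theorem contDiff_co0 : ContDiff ℂ ∞ fun y : E (s + 1) => y 0 :=
  (EuclideanSpace.proj (𝕜 := ℂ) (0 : Fin (s + 1))).contDiff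

theorem hess_fst (y : E (s + 1)) :
    hess (fun y : E (s + 1) => ‖y 0‖ ^ 2) y = Matrix.single 0 0 1 := by
  refine (hess_r1 (EuclideanSpace.proj (𝕜 := ℂ) (0 : Fin (s + 1))) y).trans ?_
  ext i j
  by_cases hi : 0 = i <;> by_cases hj : 0 = j <;> simp [r1, ev, Matrix.single_apply, hi, hj]

theorem ELT_qf_single (v : E (s + 1)) : (qf (Matrix.single 0 0 1) v).re = ‖v 0‖ ^ 2 := by
  have h : ContDiff ℝ ∞ fun y : E (s + 1) => ‖y 0‖ ^ 2 :=
    (contDiff_norm_sq ℂ).comp (contDiff_co0.restrict_scalars ℝ)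
  rw [← hess_fst 0, ← levi_eq_qf, ← lap_eq_levi (h.contDiffAt.of_le CLN_two_le)]
  refine (lap_normSqC (contDiff_co0.contDiffAt.of_le CLN_two_le) v).trans ?_
  rw [show fderiv ℂ (fun y : E (s + 1) => y 0) 0 = _ from
    (EuclideanSpace.proj (𝕜 := ℂ) (0 : Fin (s + 1))).fderiv]
  rfl

/-- Slicing: one slot is the area form in the first coordinate. -/
theorem ELT_fub {R r ρ : ℝ} {K : Set (E s)} (hr : r < R) (hK : IsCompact K) (hs : K ⊆ ball 0 ρ) :
    ∃ C : ℝ, 0 ≤ C ∧ ∀ (q : Fin (s + 1) → E (s + 1) → ℝ) (l : Fin (s + 1)) (M : ℝ) (κ : ℂ → ℝ),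
      0 ≤ M → (∀ l, SP (Tb s R ρ) (q l)) → (∀ l, ∀ y ∈ Tb s R ρ, |q l y| ≤ M) → Continuous κ →
      (∀ t, 0 ≤ κ t) →
      IntegrableOn (fun y : E (s + 1) =>
        κ (y 0) * md (update (fun l' => hess (q l') y) l (Matrix.single 0 0 1))) (Tk r K) ∧
      ∫ y in Tk r K, κ (y 0) * md (update (fun l' => hess (q l') y) l (Matrix.single 0 0 1)) ≤
        (∫ t in closedBall (0 : ℂ) r, κ t) * (C * M ^ s) := by
  obtain ⟨C, C0, hC⟩ := cln_gen isOpen_ball hK hs Finset.univ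
  refine ⟨C, C0, fun q l M κ hM hq hb hκ κ0 => ?_⟩
  have h1 := continuousOn_md (p := update q l fun y => ‖y 0‖ ^ 2) (isOpen_Tb s R ρ)
    (ELT_upd (P := fun a => ContDiffOn ℝ ∞ a (Tb s R ρ)) (fun l' _ => (hq l').sm)
      ((contDiff_norm_sq ℂ).comp (contDiff_co0.restrict_scalars ℝ)).contDiffOn)
  simp only [CLN_update, hess_fst] at h1
  have hi : IntegrableOn (fun y : E (s + 1) =>
      κ (y 0) * md (update (fun l' => hess (q l') y) l (Matrix.single 0 0 1))) (Tk r K) :=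
    (((hκ.comp contDiff_co0.continuous).continuousOn.mul h1).mono
      (Tk_subset hr hs)).integrableOn_compact (isCompact_Tk r hK)
  refine ⟨hi, ?_⟩
  have he : MeasurableEmbedding fun q : ℂ × E s => cs q.1 q.2 :=
    (csE s).toHomeomorph.measurableEmbedding
  have hi' := (measurePreserving_cs'.integrableOn_comp_preimage he).2 hi
  rw [← measurePreserving_cs'.setIntegral_preimage_emb he]
  change IntegrableOn _ (closedBall (0 : ℂ) r ×ˢ K) (volume.prod volume) at hi'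
  refine (setIntegral_prod _ hi').trans_le ?_
  rw [IntegrableOn, ← Measure.prod_restrict] at hi'
  rw [← integral_mul_const]
  refine integral_mono_ae hi'.integral_prod_left
    ((hκ.continuousOn.integrableOn_compact (isCompact_closedBall _ _)).mul_const _) ?_
  filter_upwards [ae_restrict_mem measurableSet_closedBall] with t ht
  have ht' := (mem_closedBall_zero_iff.1 ht).trans_lt hr
  have h2 := hC (fun i x => q (l.succAbove i) (cs t x)) M hM (fun i => (hq _).slice ht')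
    (fun i _ x hx => hb _ _ ⟨ht', mem_ball_zero_iff.1 hx⟩) fun i hi => absurd (by simp) hi
  rw [Finset.card_univ, Fintype.card_fin] at h2
  refine le_trans (le_of_eq ?_) (mul_le_mul_of_nonneg_left h2 (κ0 t))
  rw [← integral_const_mul]
  refine setIntegral_congr_fun hK.measurableSet fun x hx => ?_
  have hm : cs t x ∈ Tb s R ρ := ⟨ht', mem_ball_zero_iff.1 (hs hx)⟩
  change κ t * md (update (fun l' => hess (q l') (cs t x)) l (Matrix.single 0 0 1)) = _
  simp only [md, mdC_unit,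
    ELT_slice (((hq _).sm.contDiffAt ((isOpen_Tb s R ρ).mem_nhds hm)).of_le CLN_two_le)]

theorem ELT_gd_bd {χ : E s → ℝ} (hχ : ContDiff ℝ ∞ χ) (hc : HasCompactSupport χ) :
    ∃ c : ℝ, 0 ≤ c ∧ ∀ x v, ‖gd v (rc χ) x‖ ≤ c * ‖v‖ := by
  have h : ContDiff ℝ ∞ (rc χ) := ofRealCLM.contDiff.comp hχ
  obtain ⟨c, hb⟩ := (h.continuous_fderiv (by simp)).bounded_above_of_compact_support
    ((hc.comp_left (g := fun x : ℝ => (x : ℂ)) ofReal_zero).fderiv ℝ)
  refine ⟨c, (norm_nonneg _).trans (hb 0), fun x v => ?_⟩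
  have h1 := (fderiv ℝ (rc χ) x).le_of_opNorm_le (hb x) v
  have h2 := (fderiv ℝ (rc χ) x).le_of_opNorm_le (hb x) (I • v)
  rw [norm_smul, norm_I, one_mul] at h2
  have h3 := norm_sub_le (fderiv ℝ (rc χ) x v) (I * fderiv ℝ (rc χ) x (I • v))
  rw [norm_mul, norm_I, one_mul] at h3
  rw [gd, norm_div, Complex.norm_two]
  linarith

theorem ELT_levi {χ : E s → ℝ} (hχ : ContDiff ℝ ∞ χ) (hc : HasCompactSupport χ)
    (h0 : ∀ x, 0 ≤ χ x) (h1 : ∀ x, χ x ≤ 1) : ∃ c : ℝ, 0 ≤ c ∧ ∀ w : ℂ → ℝ, ContDiff ℝ ∞ w →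
    (∀ t, 0 ≤ w t) → (∀ t, w t ≤ 1) → ∀ y v : E (s + 1),
      |levi (fun y : E (s + 1) => w (y 0) * χ (tl y)) y v| ≤
        (|lap w (y 0) 1| + ‖gd 1 (rc w) (y 0)‖ ^ 2) * ‖v 0‖ ^ 2 + c * ‖tl v‖ ^ 2 := by
  obtain ⟨c, c0, hb⟩ := Chain_levi_bd hχ hc
  obtain ⟨c', c0', hb'⟩ := ELT_gd_bd hχ hc
  refine ⟨c + c' ^ 2, by positivity, fun w hw w0 w1 y v => ?_⟩
  have a1 : ContDiffAt ℝ 2 (fun y : E (s + 1) => w (y 0)) y :=
    (hw.comp (contDiff_co0.restrict_scalars ℝ)).contDiffAt.of_le CLN_two_le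
  have a2 : ContDiffAt ℝ 2 (fun y : E (s + 1) => χ (tl y)) y :=
    (hχ.comp ((tlL s).contDiff.restrict_scalars ℝ)).contDiffAt.of_le CLN_two_le
  have f1 : fderiv ℂ (fun y : E (s + 1) => y 0) y v = v 0 • (1 : ℂ) := by
    rw [show fderiv ℂ (fun y : E (s + 1) => y 0) y = _ from
      (EuclideanSpace.proj (𝕜 := ℂ) (0 : Fin (s + 1))).fderiv, smul_eq_mul, mul_one]
    rfl
  have w2 : ContDiffAt ℝ 2 w (y 0) := hw.contDiffAt.of_le CLN_two_le
  have x2 : ContDiffAt ℝ 2 χ (tl y) := hχ.contDiffAt.of_le CLN_two_le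
  have e1 : lap (fun y : E (s + 1) => w (y 0)) y v = ‖v 0‖ ^ 2 * lap w (y 0) 1 := by
    rw [lap_comp (contDiff_co0.contDiffAt.of_le CLN_two_le) w2, f1, lap_smul w2]
  have e2 : lap (fun y : E (s + 1) => χ (tl y)) y v = levi χ (tl y) (tl v) := by
    refine (lap_comp (Φ := tlL s) (tlL s).contDiff.contDiffAt x2 v).trans ?_
    rw [(tlL s).fderiv]
    exact lap_eq_levi x2 _
  have e3 : gd v (rc fun y : E (s + 1) => w (y 0)) y = v 0 * gd 1 (rc w) (y 0) := by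
    rw [← gd_vsmul, ← f1]
    exact gd_comp (u := rc w) (contDiff_co0.differentiable (by simp) y)
      ((contDiffAt_rc w2).differentiableAt two_ne_zero)
  have e4 : gd v (rc fun y : E (s + 1) => χ (tl y)) y = gd (tl v) (rc χ) (tl y) := by
    refine (gd_comp (Φ := tlL s) (u := rc χ) (tlL s).differentiableAt
      ((contDiffAt_rc x2).differentiableAt two_ne_zero)).trans ?_
    rw [(tlL s).fderiv]
    rfl
  rw [← lap_eq_levi (a1.mul a2), lap_mul a1 a2, e1, e2, e3, e4]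
  have b1 : |w (y 0) * levi χ (tl y) (tl v)| ≤ c * ‖tl v‖ ^ 2 := by
    rw [abs_mul, abs_of_nonneg (w0 _)]
    exact (mul_le_of_le_one_left (abs_nonneg _) (w1 _)).trans (hb _ _)
  have b2 : |χ (tl y) * (‖v 0‖ ^ 2 * lap w (y 0) 1)| ≤ |lap w (y 0) 1| * ‖v 0‖ ^ 2 := by
    rw [abs_mul, abs_of_nonneg (h0 _), abs_mul, abs_of_nonneg (sq_nonneg ‖_‖), mul_comm (_ ^ 2)]
    exact mul_le_of_le_one_left (by positivity) (h1 _)
  have b3 := abs_re_le_norm (v 0 * gd 1 (rc w) (y 0) * conj (gd (tl v) (rc χ) (tl y)))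
  rw [norm_mul, norm_mul, RCLike.norm_conj] at b3
  have b4 := pow_le_pow_left₀ (norm_nonneg _) (hb' (tl y) (tl v)) 2
  refine (abs_add_le _ _).trans ((add_le_add (abs_add_le _ _) le_rfl).trans ?_)
  rw [abs_mul 2, abs_two]
  nlinarith [sq_nonneg (‖v 0‖ * ‖gd 1 (rc w) (y 0)‖ - ‖gd (tl v) (rc χ) (tl y)‖)]

theorem ELT_abs {A : Fin n → Mat n} {l : Fin n} (hA : ∀ l', (A l').PosSemidef) {B P Q : Mat n}
    (hB : B.IsHermitian) (hP : P.IsHermitian) (hQ : Q.IsHermitian) {a b : ℝ}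
    (h : ∀ v, |(qf B v).re| ≤ a * (qf P v).re + b * (qf Q v).re) :
    |md (update A l B)| ≤ a * md (update A l P) + b * md (update A l Q) := by
  have e : a * md (update A l P) + b * md (update A l Q) =
      md (update A l ((a : ℂ) • P + (b : ℂ) • Q)) := by
    simp only [md, mdC_update_add, mdC_update_smul, add_re, re_ofReal_mul]
  have hH : ((a : ℂ) • P + (b : ℂ) • Q).IsHermitian :=
    (hP.smul (conj_ofReal a)).add (hQ.smul (conj_ofReal b))
  have key : ∀ t : ℂ, ∀ v, (qf ((a : ℂ) • P + (b : ℂ) • Q + t • B) v).re =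
      a * (qf P v).re + b * (qf Q v).re + (t * qf B v).re := fun t v => by
    have := MDisc2_qf_lin 1 t ((a : ℂ) • P + (b : ℂ) • Q) B v
    rw [one_smul, one_mul, MDisc2_qf_lin] at this
    simp only [this, add_re, re_ofReal_mul]
  rw [e]
  refine md_abs_le_md (fun l' => ?_) fun l' => ?_ <;> by_cases e' : l' = l
  · rw [e', update_self, update_self]
    refine psd_of_qf (hH.sub hB) fun v => ?_
    rw [sub_eq_add_neg, ← neg_one_smul ℂ B, key, neg_one_mul, neg_re]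
    linarith [le_abs_self (qf B v).re, h v]
  · rw [update_of_ne e', update_of_ne e', sub_self]
    exact Matrix.PosSemidef.zero
  · rw [e', update_self, update_self]
    refine psd_of_qf (hH.add hB) fun v => ?_
    rw [← one_smul ℂ B, key, one_mul]
    linarith [neg_abs_le (qf B v).re, h v]
  · rw [update_of_ne e', update_of_ne e']
    exact (hA l').add (hA l')

/-- LT. -/
theorem lt_bound (s : ℕ) {R ρ₁ ρ₀ : ℝ} (hR : 0 < R) (hρ : ρ₀ < ρ₁) : ∃ C : ℝ, 0 ≤ C ∧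
    ∀ ε : ℝ, 0 < ε → ∃ r : ℝ, 0 < r ∧ r < R ∧
    ∀ (p Q Q₀ : E (s + 1) → ℝ) (M C₀ : ℝ), 1 ≤ M → 1 ≤ C₀ → SP (Tb s R ρ₁) p → XO p →
      SP (Tb s R ρ₁) Q → SP (Tb s R ρ₁) Q₀ → XO Q₀ →
      (∀ y ∈ Tb s R ρ₁, |p y| ≤ M ∧ |Q y| ≤ M ∧ |Q₀ y| ≤ M ∧ |Q y - Q₀ y| ≤ C₀) →
      ∫⁻ y in Tb s r ρ₀, ENNReal.ofReal (md (Fin.cons (hess p y) fun _ : Fin s => hess Q y)) ≤
        ENNReal.ofReal (C₀ ^ 2 * M ^ s * (ε + C / M)) := by
  have hΩ := isOpen_Tb s R ρ₁
  obtain ⟨χ, hχ, hc, hs, h0, h1, h2⟩ := ELT_bump isOpen_ball (isCompact_closedBall (0 : E s) ρ₀)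
    (closedBall_subset_ball hρ)
  obtain ⟨c, c0, hl⟩ := ELT_levi hχ hc h0 h1
  have hK := isCompact_Tk (R / 2) hc
  have hKΩ := Tk_subset (half_lt_self hR) hs
  obtain ⟨C₁, p1, hC₁⟩ := ELT_fub (half_lt_self hR) hc hs
  choose C₂ p2 hC₂ using fun l => xe_gen hΩ hK hKΩ (Finset.univ.erase l)
  refine ⟨c * ∑ l, C₂ l, mul_nonneg c0 (Finset.sum_nonneg fun l _ => p2 l), fun ε hε => ?_⟩
  set ε' := ε / ((s + 1) * (C₁ + 1)) with hε'
  obtain ⟨r, w, κ, r0, r1, hw, w0, w1, w2, w3, hκ, κ1, κ2⟩ :=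
    log_cutoff (half_pos hR) (show 0 < ε' by positivity)
  refine ⟨r, r0, by linarith, fun p Q Q₀ M C₀ hM hC₀ hp xp hQ hQ₀ hx hb => ?_⟩
  have M0 : 0 < M := one_pos.trans_le hM
  have C0 : 0 < C₀ := one_pos.trans_le hC₀
  set q : Fin (s + 1) → E (s + 1) → ℝ := Fin.cons p fun _ => Q
  set q₀ : Fin (s + 1) → E (s + 1) → ℝ := Fin.cons p fun _ => Q₀
  have hq : ∀ l, SP (Tb s R ρ₁) (q l) := fun l => Fin.cases hp (fun _ => hQ) l
  have hq₀ : ∀ l, SP (Tb s R ρ₁) (q₀ l) := fun l => Fin.cases hp (fun _ => hQ₀) l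
  have xq : ∀ l, XO (q₀ l) := fun l => Fin.cases xp (fun _ => hx) l
  have bq : ∀ l, ∀ y ∈ Tb s R ρ₁, |q l y| ≤ M ∧ |q₀ l y| ≤ M ∧ |q l y - q₀ l y| ≤ C₀ :=
    fun l y hy => Fin.cases ⟨(hb y hy).1, (hb y hy).1, (show |p y - p y| ≤ C₀ by simp [C0.le])⟩
      (fun _ => (hb y hy).2) l
  set ψ : E (s + 1) → ℝ := fun y => w (y 0) * χ (tl y)
  have hψ : ContDiff ℝ ∞ ψ := (hw.comp (contDiff_co0.restrict_scalars ℝ)).mul
    (hχ.comp ((tlL s).contDiff.restrict_scalars ℝ))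
  have sψ : tsupport ψ ⊆ Tk (R / 2) (tsupport χ) := closure_minimal (fun y hy =>
    ⟨mem_closedBall_zero_iff.2 (le_of_not_ge fun h => left_ne_zero_of_mul hy (w3 _ h)),
      subset_tsupport _ (right_ne_zero_of_mul hy)⟩) hK.isClosed
  have cψ : HasCompactSupport ψ := hK.of_isClosed_subset (isClosed_tsupport _) sψ
  have hK₀ := isCompact_Tk r (isCompact_closedBall (0 : E s) ρ₀)
  simp only [ELT_cons]
  refine ELT_lint hΩ hK₀ (Tk_subset (by linarith) (closedBall_subset_ball hρ))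
    (fun y hy => ⟨mem_closedBall_zero_iff.2 hy.1.le, mem_closedBall_zero_iff.2 hy.2.le⟩) hq ?_
  refine (ELT_le hΩ hK₀.measurableSet hq hψ.continuous cψ (sψ.trans hKΩ)
    (fun y => mul_nonneg (w0 _) (h0 _)) fun y hy => by
      simp only [ψ, w2 _ (mem_closedBall_zero_iff.1 hy.1), h2 _ hy.2, mul_one]).trans ?_
  refine (ELT_tel (B := fun l => C₀ * (ε' * (C₁ * M ^ s) + c * (C₂ l * C₀ * M ^ s / M))) hΩ
    (fun l => (hq l).sm) (fun l => (hq₀ l).sm) hψ.continuous cψ (sψ.trans hKΩ) (ELT_xo xq)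
    fun l g hg => ?_).trans ?_
  · have g1 : ∀ l', SP (Tb s R ρ₁) (g l') := fun l' => by
      rcases hg l' with e | e <;> rw [e]
      exacts [hq l', hq₀ l']
    have g2 : ∀ l', ∀ y ∈ Tb s R ρ₁,
        |g l' y| ≤ M ∧ |q₀ l' y| ≤ M ∧ |g l' y - q₀ l' y| ≤ C₀ := fun l' y hy => by
      rcases hg l' with e | e <;> rw [e]
      exacts [bq l' y hy, ⟨(bq l' y hy).2.1, (bq l' y hy).2.1, by simp [C0.le]⟩]
    have κ0 : ∀ t, 0 ≤ κ t := fun t => le_trans (by positivity) (κ1 t)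
    obtain ⟨i1, i2⟩ := hC₁ g l M κ M0.le g1 (fun l' y hy => (g2 l' y hy).1) hκ κ0
    have g3 : ∀ l', SP (Tb s R ρ₁) (update g l (fun y => ‖tl y‖ ^ 2) l') :=
      ELT_upd (fun l' _ => g1 l') (ELT_sp_tq _)
    have i3 := ELT_intOn hΩ hK hKΩ fun l' => (g3 l').sm
    have i4 := hC₂ l _ (update q₀ l fun y => ‖tl y‖ ^ 2) M C₀ hM C0.le g3
      (ELT_upd (fun l' _ => hq₀ l') (ELT_sp_tq _))
      (ELT_upd (fun l' _ => xq l') (xo_tl fun x => ‖x‖ ^ 2)) (fun l' hl' => by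
        rw [update_of_ne (Finset.ne_of_mem_erase hl'), update_of_ne (Finset.ne_of_mem_erase hl')]
        exact g2 l') fun l' hl' => by
        obtain rfl : l' = l := by simpa using hl'
        rw [update_self, update_self]
        refine ⟨rfl, fun y _ v => ?_⟩
        rw [ELT_levi_tq, norm_sq_eq_tl v]
        exact le_add_of_nonneg_left (sq_nonneg _)
    rw [Finset.card_erase_of_mem (Finset.mem_univ l), Finset.card_univ, Fintype.card_fin,
      Nat.add_sub_cancel] at i4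
    refine (ELT_step (l := l) hΩ (fun l' _ => (g1 l').sm) ((hq l).sm.sub (hq₀ l).sm) hψ hK sψ hKΩ
      C0.le (fun y hy => (bq l y hy).2.2) (i1.add (i3.const_mul c)) fun y hy => ?_).trans ?_
    · simp only [Pi.add_apply, CLN_update]
      refine ELT_abs (fun l' => (g1 l').psd hΩ (hKΩ hy))
        (hess_isHermitian (hψ.contDiffAt.of_le CLN_two_le)) ?_
        (hess_isHermitian (contDiff_tq.contDiffAt.of_le CLN_two_le)) fun v => ?_
      · rw [← hess_fst y]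
        exact hess_isHermitian (((contDiff_norm_sq ℂ).comp
          (contDiff_co0.restrict_scalars ℝ)).contDiffAt.of_le CLN_two_le)
      · rw [ELT_qf_single, ← levi_eq_qf, ← levi_eq_qf, ELT_levi_tq]
        exact (hl w hw w0 w1 y v).trans
          (add_le_add (mul_le_mul_of_nonneg_right (κ1 _) (sq_nonneg _)) le_rfl)
    · refine mul_le_mul_of_nonneg_left ?_ C0.le
      simp only [Pi.add_apply]
      rw [integral_add i1 (i3.const_mul c), integral_const_mul]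
      exact add_le_add (i2.trans (mul_le_mul_of_nonneg_right κ2 (by positivity)))
        (mul_le_mul_of_nonneg_left i4 c0)
  · have e1 : ∑ l, C₀ * (ε' * (C₁ * M ^ s) + c * (C₂ l * C₀ * M ^ s / M)) =
        C₀ * M ^ s * ((s + 1) * C₁ * ε') + C₀ ^ 2 * M ^ s * ((c * ∑ l, C₂ l) / M) := by
      simp only [mul_add, Finset.sum_add_distrib, Finset.sum_const, Finset.card_univ,
        Fintype.card_fin, nsmul_eq_mul, Finset.mul_sum, Finset.sum_div]
      congr 1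
      · push_cast
        ring
      · exact Finset.sum_congr rfl fun l _ => by ring
    have e2 : (s + 1) * C₁ * ε' ≤ ε := by
      rw [hε', ← mul_div_assoc, div_le_iff₀ (by positivity), mul_comm ε]
      gcongr
      linarith
    rw [e1, mul_add (C₀ ^ 2 * M ^ s)]
    gcongr
    nlinarith

end Pool.Agent.Lib.MP_a47f92_an
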