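import Pool.Agent.Lib.MP_a47f92_an.G.MD2

set_option autoImplicit false
set_option linter.unusedSectionVars false

namespace Pool.Agent.Lib.MP_a47f92_an

open MeasureTheory Filter Topology Set Complex Metric Function
open scoped ContDiff ComplexConjugate ComplexOrder Matrix ENNReal NNReal

/-! Block expansion of the mixed discriminant. -/

variable {p : ℕ}

/-- The lower right block. -/
abbrev low (M : Mat (p + 1)) : Mat p := M.submatrix Fin.succ Fin.succ

/-- Permutations are parametrised by the slot sent to `0`. -/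
theorem MDX_sum (f : Equiv.Perm (Fin (p + 1)) → ℂ) :
    ∑ σ, f σ = ∑ j : Fin (p + 1), ∑ τ : Equiv.Perm (Fin p),
      f (Equiv.Perm.decomposeFin.symm (0, τ) * j.cycleRange) := by
  rw [← Fintype.sum_prod_type']
  refine (Function.Bijective.sum_comp (e := fun x : Fin (p + 1) × Equiv.Perm (Fin p) =>
    Equiv.Perm.decomposeFin.symm (0, x.2) * x.1.cycleRange) ?_ f).symm
  refine (Fintype.bijective_iff_injective_and_card _).2
    ⟨?_, (Fintype.card_congr Equiv.Perm.decomposeFin).symm⟩
  rintro ⟨j, τ⟩ ⟨j', τ'⟩ h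
  have h1 : j = j' := by
    have h2 := congrArg (fun σ : Equiv.Perm (Fin (p + 1)) => σ j) h
    simp only [Equiv.Perm.mul_apply, Fin.cycleRange_self,
      Equiv.Perm.decomposeFin_symm_apply_zero] at h2
    refine j'.cycleRange.injective ((Equiv.Perm.decomposeFin.symm (0, τ')).injective ?_)
    rw [← h2, Fin.cycleRange_self, Equiv.Perm.decomposeFin_symm_apply_zero]
  subst h1
  exact Prod.ext rfl
    (Prod.ext_iff.1 (Equiv.Perm.decomposeFin.symm.injective (mul_right_cancel h))).2

/-- Expansion along the first row. -/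
theorem MDX_row (M : Fin (p + 1) → Mat (p + 1)) :
    mdC M = ∑ j, ∑ τ : Equiv.Perm (Fin p), ∑ π : Equiv.Perm (Fin (p + 1)),
      ((Equiv.Perm.sign τ : ℤ) : ℂ) * ((Equiv.Perm.sign π : ℤ) : ℂ) *
        (M j 0 (π 0) * ∏ l, M (j.succAbove l) (τ l).succ (π l.succ)) := by
  unfold mdC
  rw [MDX_sum]
  refine Finset.sum_congr rfl fun j _ => Finset.sum_congr rfl fun τ _ => ?_
  rw [← Equiv.sum_comp (Equiv.mulRight j.cycleRange)]
  refine Finset.sum_congr rfl fun π _ => ?_
  have h1 : ((Equiv.Perm.sign j.cycleRange : ℤ) : ℂ) *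
      ((Equiv.Perm.sign j.cycleRange : ℤ) : ℂ) = 1 := by
    rw [← Int.cast_mul, ← Units.val_mul, Int.units_mul_self, Units.val_one, Int.cast_one]
  rw [Fin.prod_univ_succAbove _ j]
  simp only [Equiv.coe_mulRight, Equiv.Perm.sign_mul, Units.val_mul, Int.cast_mul,
    Equiv.Perm.mul_apply, Fin.cycleRange_self, Fin.cycleRange_succAbove,
    Equiv.Perm.decomposeFin_symm_apply_zero, Equiv.Perm.decomposeFin_symm_apply_succ,
    Equiv.swap_self, Equiv.refl_apply, Equiv.Perm.decomposeFin.symm_sign, if_true, one_mul]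
  linear_combination (((Equiv.Perm.sign τ : ℤ) : ℂ) * ((Equiv.Perm.sign π : ℤ) : ℂ) *
    (M j 0 (π 0) * ∏ l, M (j.succAbove l) (τ l).succ (π l.succ))) * h1

/-- Expansion along the first row and the first column. Suggested route: both sides are
multilinear in the slots; or use `MDiscA_left` and `Matrix.det_succ_row_zero` twice; or
parametrise permutations of `Fin (p + 1)` by the slot sent to `0`
(`Equiv.Perm.decomposeFin`, `Fin.cycleRange`, as in the proof of `Matrix.det_succ_column_zero`).
The slot `j` gives an entry of row `0`, the slot `j.succAbove i` an entry of column `0`. -/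
theorem mdC_succ (M : Fin (p + 1) → Mat (p + 1)) :
    mdC M = ∑ j, M j 0 0 * mdC (fun l => low (M (j.succAbove l))) -
      ∑ j, ∑ i, mdC (update (fun l => low (M (j.succAbove l))) i
        (Matrix.of fun a b => M (j.succAbove i) a.succ 0 * M j 0 b.succ)) := by
  rw [MDX_row, ← Finset.sum_sub_distrib]
  refine Finset.sum_congr rfl fun j _ => ?_
  unfold mdC
  rw [Finset.sum_comm (s := (Finset.univ : Finset (Fin p))), Finset.mul_sum,
    ← Finset.sum_sub_distrib]
  refine Finset.sum_congr rfl fun τ _ => ?_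
  rw [← Equiv.sum_comp Equiv.Perm.decomposeFin.symm, Fintype.sum_prod_type, Fin.sum_univ_succ,
    Finset.sum_comm (s := (Finset.univ : Finset (Fin p))),
    Finset.sum_comm (s := (Finset.univ : Finset (Fin p))), Finset.mul_sum,
    ← Finset.sum_add_distrib, ← Finset.sum_sub_distrib]
  refine Finset.sum_congr rfl fun e _ => ?_
  rw [← Equiv.sum_comp e, sub_eq_add_neg, ← Finset.sum_neg_distrib]
  congr 1
  · simp only [Equiv.Perm.decomposeFin_symm_apply_zero, Equiv.Perm.decomposeFin_symm_apply_succ,
      Equiv.swap_self, Equiv.refl_apply, Equiv.Perm.decomposeFin.symm_sign, if_true, one_mul,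
      Matrix.submatrix_apply]
    ring
  · refine Finset.sum_congr rfl fun i _ => ?_
    rw [MDiscA_prod, ← Finset.mul_prod_erase Finset.univ _ (Finset.mem_univ i)]
    have h : ∏ l ∈ Finset.univ.erase i, M (j.succAbove l) (τ l).succ
        (Equiv.Perm.decomposeFin.symm ((e i).succ, e) l.succ) =
        ∏ l ∈ Finset.univ.erase i, low (M (j.succAbove l)) (τ l) (e l) :=
      Finset.prod_congr rfl fun l hl => by
        rw [Equiv.Perm.decomposeFin_symm_apply_succ, Equiv.swap_apply_of_ne_of_ne (Fin.succ_ne_zero _)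
          fun h => Finset.ne_of_mem_erase hl (e.injective (Fin.succ_injective _ h))]
        rfl
    rw [h]
    simp only [Equiv.Perm.decomposeFin_symm_apply_zero, Equiv.Perm.decomposeFin_symm_apply_succ,
      Equiv.swap_apply_right, Equiv.Perm.decomposeFin.symm_sign, if_neg (Fin.succ_ne_zero _),
      Matrix.of_apply, Units.val_mul, Units.val_neg, Units.val_one, Int.cast_mul, Int.cast_neg,
      Int.cast_one]
    ring

theorem mdC_eq_zero_of_row {M : Fin (p + 1) → Mat (p + 1)} (h : ∀ l j, M l 0 j = 0) :
    mdC M = 0 := by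
  rw [MDX_row]
  simp [h]

/-- If one slot is the matrix unit at `(0, 0)`, only the lower blocks of the other slots matter. -/
theorem mdC_unit (M : Fin (p + 1) → Mat (p + 1)) (l₀ : Fin (p + 1)) :
    mdC (update M l₀ (Matrix.single 0 0 1)) = mdC fun l => low (M (l₀.succAbove l)) := by
  have h0 : low (Matrix.single 0 0 1 : Mat (p + 1)) = 0 := by
    ext a b
    exact Matrix.single_apply_of_row_ne (Fin.succ_ne_zero a).symm (0 : Fin (p + 1)) b.succ (1 : ℂ)
  rw [mdC_succ, Finset.sum_eq_single l₀, Finset.sum_eq_zero, sub_zero]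
  · simp only [update_self, Matrix.single_apply_same, one_mul,
      update_of_ne (Fin.succAbove_ne l₀ _)]
  · intro j _
    refine Finset.sum_eq_zero fun i _ => ?_
    by_cases hj : j = l₀
    · subst hj
      refine mdC_eq_zero (l := i) ?_
      rw [update_self, update_self]
      ext a b
      rw [Matrix.of_apply, Matrix.single_apply_of_col_ne _ _ (Fin.succ_ne_zero b).symm, mul_zero]
      rfl
    obtain ⟨l, hl⟩ := Fin.exists_succAbove_eq (Ne.symm hj)
    refine mdC_eq_zero (l := l) ?_
    by_cases hi : l = i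
    · subst hi
      rw [update_self, hl, update_self]
      ext a b
      rw [Matrix.of_apply, Matrix.single_apply_of_row_ne (Fin.succ_ne_zero a).symm, zero_mul]
      rfl
    · rw [update_of_ne hi, hl, update_self, h0]
  · intro j _ hj
    obtain ⟨l, hl⟩ := Fin.exists_succAbove_eq (Ne.symm hj)
    rw [mdC_eq_zero (l := l) (by rw [hl, update_self, h0]), mul_zero]
  · simp

/-- If the slots other than `0` are the matrix units at `(i + 1, i + 1)`, the mixed discriminant
is the entry `(0, 0)` of the slot `0`. -/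
theorem mdC_units (H : Mat (p + 1)) :
    mdC (Fin.cons H fun i : Fin p => Matrix.single i.succ i.succ 1 : Fin (p + 1) → Mat (p + 1)) =
      H 0 0 := by
  rw [MDX_row, Fin.sum_univ_succ, Finset.sum_eq_zero (s := (Finset.univ : Finset (Fin p))),
    add_zero, Finset.sum_eq_single 1, Finset.sum_eq_single 1]
  · simp
  · intro π _ h
    obtain ⟨l, hl⟩ : ∃ l : Fin p, π l.succ ≠ l.succ := not_forall.1 fun h' => h (by
      have h0 : π 0 = 0 := by
        by_contra h0
        obtain ⟨l, hl⟩ := Fin.exists_succ_eq.2 h0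
        exact Fin.succ_ne_zero l (π.injective ((h' l).trans hl))
      exact Equiv.ext fun x => Fin.cases h0 h' x)
    rw [Finset.prod_eq_zero (Finset.mem_univ l), mul_zero, mul_zero]
    exact Matrix.single_apply_of_col_ne _ _ hl.symm _
  · simp
  · intro τ _ h
    obtain ⟨l, hl⟩ : ∃ l, τ l ≠ l := not_forall.1 fun h' => h (Equiv.ext h')
    refine Finset.sum_eq_zero fun π _ => ?_
    rw [Finset.prod_eq_zero (Finset.mem_univ l), mul_zero, mul_zero]
    exact Matrix.single_apply_of_row_ne (fun e => hl (Fin.succ_injective _ e).symm) _ _ _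
  · simp
  · intro j _
    refine Finset.sum_eq_zero fun τ _ => Finset.sum_eq_zero fun π _ => ?_
    rw [Fin.cons_succ, Matrix.single_apply_of_row_ne (Fin.succ_ne_zero j), zero_mul, mul_zero]

theorem cons_succAbove_perm {α : Type} (q : Fin (p + 1) → α) (j : Fin (p + 1)) :
    ∃ τ : Equiv.Perm (Fin (p + 1)), q ∘ τ = Fin.cons (q j) fun l => q (j.succAbove l) := by
  exact ⟨j.cycleRange.symm, (Fin.cons_removeNth_eq_comp_cycleRange_symm q j).symm⟩

end Pool.Agent.Lib.MP_a47f92_an
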