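import Pool.Agent.Lib.MP_a47f92_an.G.SOS
import Pool.Agent.Lib.MP_a47f92_an.G.MD3
import Pool.Agent.Lib.MP_a47f92_an.G.MDX
import Pool.Agent.Lib.MP_a47f92_an.CLN

set_option autoImplicit false
set_option linter.unusedSectionVars false

namespace Pool.Agent.Lib.MP_a47f92_an

open MeasureTheory Filter Topology Set Complex Metric Function
open scoped ContDiff ComplexConjugate ComplexOrder Matrix ENNReal NNReal

/-! Coordinates on tubes, the Chern-Levine-Nirenberg estimate, the logarithmic cut-off. -/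

variable {n s : ℕ}

/-- Smooth plurisubharmonic functions on `Ω`. -/
structure SP (Ω : Set (E n)) (q : E n → ℝ) : Prop where
  sm : ContDiffOn ℝ ∞ q Ω
  psh : ∀ y ∈ Ω, ∀ v, 0 ≤ levi q y v

/-- Functions which do not depend on the first coordinate. -/
def XO (q : E (s + 1) → ℝ) : Prop := ∀ (y : E (s + 1)) (t : ℂ), q (y + t • ev 0) = q y

/-- The tube `‖t‖ < r`, `‖x‖ < ρ`. -/
def Tb (s : ℕ) (r ρ : ℝ) : Set (E (s + 1)) := {y | ‖y 0‖ < r ∧ ‖tl y‖ < ρ}

theorem cs_tl' (y : E (s + 1)) : cs (y 0) (tl y) = y := by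
  ext i
  refine Fin.cases rfl (fun _ => rfl) i

theorem norm_cs_sq' (t : ℂ) (x : E s) : ‖cs t x‖ ^ 2 = ‖t‖ ^ 2 + ‖x‖ ^ 2 := by
  rw [EuclideanSpace.norm_sq_eq, EuclideanSpace.norm_sq_eq, Fin.sum_univ_succ]
  rfl

/-- The coordinates `(t, x)`. -/
noncomputable def csE (s : ℕ) : (ℂ × E s) ≃L[ℂ] E (s + 1) :=
  LinearEquiv.toContinuousLinearEquiv
    { toFun := fun q => cs q.1 q.2
      invFun := fun y => (y 0, tl y)
      map_add' := fun _ _ => by
        ext i
        refine Fin.cases rfl (fun _ => rfl) i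
      map_smul' := fun _ _ => by
        ext i
        refine Fin.cases rfl (fun _ => rfl) i
      left_inv := fun _ => rfl
      right_inv := cs_tl' }

theorem csE_apply (q : ℂ × E s) : csE s q = cs q.1 q.2 := rfl

/-- The projection to the last coordinates. -/
noncomputable def tlL (s : ℕ) : E (s + 1) →L[ℂ] E s :=
  (ContinuousLinearMap.snd ℂ ℂ (E s)).comp (csE s).symm.toContinuousLinearMap

theorem tlL_apply (y : E (s + 1)) : tlL s y = tl y := rfl

theorem continuous_tl : Continuous (tl : E (s + 1) → E s) := (tlL s).continuous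

theorem measurePreserving_cs' : MeasurePreserving fun q : ℂ × E s => cs q.1 q.2 := by
  let L : WithLp 2 (ℂ × E s) ≃ₗᵢ[ℝ] E (s + 1) :=
    { toLinearEquiv := (WithLp.linearEquiv 2 ℝ (ℂ × E s)).trans
        ((csE s).toLinearEquiv.restrictScalars ℝ)
      norm_map' := fun q => by
        refine (sq_eq_sq₀ (norm_nonneg _) (norm_nonneg _)).1 ?_
        rw [WithLp.prod_norm_sq_eq_of_L2]
        exact norm_cs_sq' _ _ }
  exact L.measurePreserving.comp (WithLp.volume_preserving_toLp ℂ (E s))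

theorem isOpen_Tb (s : ℕ) (r ρ : ℝ) : IsOpen (Tb s r ρ) :=
  (isOpen_lt (EuclideanSpace.proj (𝕜 := ℂ) (0 : Fin (s + 1))).continuous.norm
    continuous_const).inter (isOpen_lt continuous_tl.norm continuous_const)

theorem SP.psd {Ω : Set (E n)} {q : E n → ℝ} (h : SP Ω q) (hΩ : IsOpen Ω) {y : E n} (hy : y ∈ Ω) :
    (hess q y).PosSemidef := CLN_psd hΩ h.sm h.psh hy

theorem levi_normSq (y v : E n) : levi (fun w : E n => ‖w‖ ^ 2) y v = ‖v‖ ^ 2 := by
  rw [levi_eq_qf, hess_normSq, qf_one, ofReal_re]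

theorem sp_normSq (Ω : Set (E n)) : SP Ω fun w => ‖w‖ ^ 2 :=
  ⟨contDiff_normSq.contDiffOn, fun y _ v => by rw [levi_normSq]; positivity⟩

theorem XO.row {q : E (s + 1) → ℝ} (h : XO q) (y : E (s + 1)) (j : Fin (s + 1)) :
    hess q y 0 j = 0 := by
  set f := wb (ev j) fun w => (q w : ℂ) with hf
  have h1 : ∀ (w : E (s + 1)) (t : ℂ), f (w + t • ev 0) = f w := fun w t => by
    have e : (fun x => (q (x + t • ev 0) : ℂ)) = fun x => (q x : ℂ) := funext fun x => by rw [h]
    rw [hf, wb, wb, ← fderiv_comp_add_right, e]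
  have h2 : ∀ c : ℂ, fderiv ℝ f y (c • ev 0) = 0 := fun c => by
    by_cases hd : DifferentiableAt ℝ f y
    · have h3 : HasDerivAt (fun t : ℝ => y + ((t : ℂ) * c) • (ev 0 : E (s + 1))) (c • ev 0) 0 := by
        simpa using (((hasDerivAt_id (0 : ℝ)).ofReal_comp.mul_const c).smul_const
          (ev 0 : E (s + 1))).const_add y
      have h4 := hd.hasFDerivAt.comp_hasDerivAt_of_eq (0 : ℝ) h3 (by simp)
      have e : (f ∘ fun t : ℝ => y + ((t : ℂ) * c) • (ev 0 : E (s + 1))) = fun _ => f y :=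
        funext fun t => h1 y _
      rw [e] at h4
      exact h4.unique (hasDerivAt_const _ _)
    · rw [fderiv_zero_of_not_differentiableAt hd]
      rfl
  have h5 := h2 1
  rw [one_smul] at h5
  rw [hess_apply, ← hf, wd, h5, h2 I]
  simp

theorem ELT_bump {Ω K : Set (E n)} (hΩ : IsOpen Ω) (hK : IsCompact K) (h : K ⊆ Ω) :
    ∃ χ : E n → ℝ, ContDiff ℝ ∞ χ ∧ HasCompactSupport χ ∧ tsupport χ ⊆ Ω ∧ (∀ y, 0 ≤ χ y) ∧
      (∀ y, χ y ≤ 1) ∧ ∀ y ∈ K, χ y = 1 := by
  obtain ⟨K', h1, h2, h3⟩ := exists_compact_between hK hΩ h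
  obtain ⟨f, f0, f1, f2⟩ := exists_contMDiffMap_zero_one_of_isClosed (n := ⊤)
    (modelWithCornersSelf ℝ (E n)) (isOpen_interior (s := K')).isClosed_compl hK.isClosed
    (disjoint_compl_left_iff_subset.2 h2)
  have hs : tsupport f ⊆ K' := closure_minimal (fun y hy => by
    by_contra h0
    exact hy (f0 fun h4 => h0 (interior_subset h4))) h1.isClosed
  exact ⟨f, f.contMDiff.contDiff, h1.of_isClosed_subset (isClosed_tsupport _) hs, hs.trans h3,
    fun y => (f2 y).1, fun y => (f2 y).2, fun y hy => f1 hy⟩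

theorem ELT_upd {P : (E n → ℝ) → Prop} {q : Fin n → E n → ℝ} {l : Fin n} {b : E n → ℝ}
    (hq : ∀ l', l' ≠ l → P (q l')) (hb : P b) (l' : Fin n) : P (update q l b l') := by
  by_cases h : l' = l
  · rwa [h, update_self]
  · rw [update_of_ne h]
    exact hq l' h

/-- One integration by parts. -/
theorem ELT_step {Ω K : Set (E n)} (hΩ : IsOpen Ω) {q : Fin n → E n → ℝ} {l : Fin n}
    {a χ g : E n → ℝ} {c : ℝ} (hq : ∀ l', l' ≠ l → ContDiffOn ℝ ∞ (q l') Ω)
    (ha : ContDiffOn ℝ ∞ a Ω) (hχ : ContDiff ℝ ∞ χ) (hK : IsCompact K) (hs : tsupport χ ⊆ K)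
    (hKΩ : K ⊆ Ω) (hc0 : 0 ≤ c) (hc : ∀ y ∈ Ω, |a y| ≤ c) (hg : IntegrableOn g K)
    (hb : ∀ y ∈ K, |md (update (fun l' => hess (q l') y) l (hess χ y))| ≤ g y) :
    ∫ y, χ y * md (update (fun l' => hess (q l') y) l (hess a y)) ≤ c * ∫ y in K, g y := by
  rw [← byparts hΩ hq ha hχ (hK.of_isClosed_subset (isClosed_tsupport _) hs) (hs.trans hKΩ),
    ← setIntegral_eq_integral_of_forall_compl_eq_zero (s := K) fun y hy => by
      rw [md_update_of_notMem fun h => hy (hs h), mul_zero], ← integral_const_mul]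
  refine (Real.le_norm_self _).trans (norm_integral_le_of_norm_le (hg.const_mul c) ?_)
  filter_upwards [ae_restrict_mem hK.measurableSet] with y hy
  rw [Real.norm_eq_abs, abs_mul]
  exact mul_le_mul (hc y (hKΩ hy)) (hb y hy) (abs_nonneg _) hc0

theorem ELT_int {Ω : Set (E n)} (hΩ : IsOpen Ω) {q : Fin n → E n → ℝ} {χ : E n → ℝ}
    (hq : ∀ l, ContDiffOn ℝ ∞ (q l) Ω) (hχ : Continuous χ) (hc : HasCompactSupport χ)
    (hs : tsupport χ ⊆ Ω) : Integrable fun y => χ y * md fun l => hess (q l) y := by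
  simpa only [mul_comm] using (continuous_mul_of_tsupport hΩ (continuousOn_md hΩ hq) hχ
    hs).integrable_of_hasCompactSupport hc.mul_left

theorem ELT_le {Ω K : Set (E n)} (hΩ : IsOpen Ω) (hK : MeasurableSet K) {q : Fin n → E n → ℝ}
    {χ : E n → ℝ} (hq : ∀ l, SP Ω (q l)) (hχ : Continuous χ) (hc : HasCompactSupport χ)
    (hs : tsupport χ ⊆ Ω) (h0 : ∀ y, 0 ≤ χ y) (h1 : ∀ y ∈ K, χ y = 1) :
    ∫ y in K, md (fun l => hess (q l) y) ≤ ∫ y, χ y * md fun l => hess (q l) y := by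
  have e : ∫ y in K, md (fun l => hess (q l) y) = ∫ y in K, χ y * md fun l => hess (q l) y :=
    setIntegral_congr_fun hK fun y hy => by simp only [h1 y hy, one_mul]
  rw [e]
  refine setIntegral_le_integral (ELT_int hΩ (fun l => (hq l).sm) hχ hc hs)
    (Eventually.of_forall fun y => ?_)
  by_cases hy : y ∈ tsupport χ
  · exact mul_nonneg (h0 y) (md_nonneg fun l => (hq l).psd hΩ (hs hy))
  · simp only [image_eq_zero_of_notMem_tsupport hy, zero_mul, Pi.zero_apply, le_refl]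

theorem ELT_intOn {Ω K : Set (E n)} (hΩ : IsOpen Ω) (hK : IsCompact K) (h : K ⊆ Ω)
    {q : Fin n → E n → ℝ} (hq : ∀ l, ContDiffOn ℝ ∞ (q l) Ω) :
    IntegrableOn (fun y => md fun l => hess (q l) y) K :=
  ((continuousOn_md hΩ hq).mono h).integrableOn_compact hK

/-- CLN: the slots in `S` are bounded by `M`, the other slots have bounded Levi form. -/
theorem cln_gen {Ω K : Set (E n)} (hΩ : IsOpen Ω) (hK : IsCompact K) (h : K ⊆ Ω)
    (S : Finset (Fin n)) : ∃ C : ℝ, 0 ≤ C ∧ ∀ (q : Fin n → E n → ℝ) (M : ℝ), 0 ≤ M →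
      (∀ l, SP Ω (q l)) → (∀ l ∈ S, ∀ y ∈ Ω, |q l y| ≤ M) →
      (∀ l ∉ S, ∀ y ∈ Ω, ∀ v, levi (q l) y v ≤ ‖v‖ ^ 2) →
      ∫ y in K, md (fun l => hess (q l) y) ≤ C * M ^ S.card := by
  induction S using Finset.induction_on generalizing K with
  | empty =>
    have h0 : 0 ≤ md (fun _ : Fin n => (1 : Mat n)) := md_nonneg fun _ => Matrix.PosSemidef.one
    refine ⟨volume.real K * md (fun _ : Fin n => (1 : Mat n)), by positivity,
      fun q M _ hq _ h2 => ?_⟩
    rw [Finset.card_empty, pow_zero, mul_one, ← smul_eq_mul, ← setIntegral_const]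
    refine setIntegral_mono_on (ELT_intOn hΩ hK h fun l => (hq l).sm)
      (integrableOn_const hK.measure_lt_top.ne) hK.measurableSet fun y hy => ?_
    refine md_mono (fun l => (hq l).psd hΩ (h hy)) fun l => psd_of_qf
      (Matrix.isHermitian_one.sub ((hq l).psd hΩ (h hy)).isHermitian) fun v => ?_
    have e := MDisc2_qf_lin 1 (-1) 1 (hess (q l) y) v
    rw [one_smul, neg_one_smul, ← sub_eq_add_neg, qf_one] at e
    rw [e]
    simpa [← levi_eq_qf, ← ofReal_pow] using h2 l (Finset.notMem_empty l) y (h hy) v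
  | insert l S hl ih =>
    obtain ⟨χ, hχ, hc, hs, h0, -, h1⟩ := ELT_bump hΩ hK h
    obtain ⟨c, c0, hl2⟩ := Chain_levi_bd hχ hc
    obtain ⟨C, C0, hC⟩ := ih hc hs
    refine ⟨c * C, by positivity, fun q M hM hq h2 h3 => ?_⟩
    have hq' : ∀ l', SP Ω (update q l (fun w => ‖w‖ ^ 2) l') :=
      ELT_upd (fun l' _ => hq l') (sp_normSq Ω)
    have h4 := hC (update q l fun w => ‖w‖ ^ 2) M hM hq' (fun l' hl' y hy => by
      rw [update_of_ne (ne_of_mem_of_not_mem hl' hl)]
      exact h2 l' (Finset.mem_insert_of_mem hl') y hy) fun l' hl' y hy v => by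
      by_cases e : l' = l
      · rw [e, update_self, levi_normSq]
      · rw [update_of_ne e]
        exact h3 l' (by simp [e, hl']) y hy v
    have h5 := ELT_step (l := l) hΩ (fun l' _ => (hq l').sm) (hq l).sm hχ hc subset_rfl hs hM
      (h2 l (Finset.mem_insert_self l S))
      ((ELT_intOn hΩ hc hs fun l' => (hq' l').sm).const_mul c) fun y hy => by
        rw [CLN_update, hess_normSq]
        exact md_abs_le (fun l' _ => (hq l').psd hΩ (hs hy))
          (hess_isHermitian (hχ.contDiffAt.of_le CLN_two_le)) (hl2 y)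
    refine (ELT_le hΩ hK.measurableSet hq hχ.continuous hc hs h0 h1).trans ?_
    simp only [update_eq_self l fun l' => hess (q l') _] at h5
    refine h5.trans ?_
    rw [integral_const_mul, Finset.card_insert_of_notMem hl, pow_succ]
    calc M * (c * ∫ y in tsupport χ, md fun l' => hess (update q l (fun w => ‖w‖ ^ 2) l') y)
        ≤ M * (c * (C * M ^ S.card)) := by gcongr
      _ = _ := by ring

theorem ELT_trans : ∃ C : ℝ, 0 ≤ C ∧ (∀ x, |deriv Real.smoothTransition x| ≤ C) ∧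
    (∀ x, |deriv (deriv Real.smoothTransition) x| ≤ C) ∧
    ∀ x, 1 < x → deriv Real.smoothTransition x = 0 := by
  have hs : ContDiff ℝ ∞ Real.smoothTransition := Real.smoothTransition.contDiff
  have h1 : ∀ x, x ∉ Icc (0 : ℝ) 1 → deriv Real.smoothTransition =ᶠ[𝓝 x] fun _ => 0 := by
    intro x hx
    rcases not_and_or.1 hx with h | h
    · have : Real.smoothTransition =ᶠ[𝓝 x] fun _ => 0 := by
        filter_upwards [Iio_mem_nhds (not_le.1 h)] with y hy
        exact Real.smoothTransition.zero_of_nonpos (le_of_lt hy)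
      exact this.deriv.trans (Eventually.of_forall fun _ => deriv_const _ _)
    · have : Real.smoothTransition =ᶠ[𝓝 x] fun _ => 1 := by
        filter_upwards [Ioi_mem_nhds (not_le.1 h)] with y hy
        exact Real.smoothTransition.one_of_one_le (le_of_lt hy)
      exact this.deriv.trans (Eventually.of_forall fun _ => deriv_const _ _)
  have hd : ContDiff ℝ ∞ (deriv Real.smoothTransition) := (contDiff_infty_iff_deriv.1 hs).2
  obtain ⟨C₁, hC₁⟩ := hd.continuous.bounded_above_of_compact_support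
    (HasCompactSupport.intro isCompact_Icc fun x hx => (h1 x hx).eq_of_nhds)
  obtain ⟨C₂, hC₂⟩ := (contDiff_infty_iff_deriv.1 hd).2.continuous.bounded_above_of_compact_support
    (HasCompactSupport.intro isCompact_Icc fun x hx => by rw [(h1 x hx).deriv_eq, deriv_const])
  exact ⟨max C₁ C₂, (norm_nonneg _).trans ((hC₁ 0).trans (le_max_left _ _)),
    fun x => (hC₁ x).trans (le_max_left _ _), fun x => (hC₂ x).trans (le_max_right _ _),
    fun x hx => (h1 x fun h => hx.not_ge h.2).eq_of_nhds⟩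

theorem ELT_radial {R δ : ℝ} (hR : 0 < R) (hδ : 0 < δ) :
    ∫ t in closedBall (0 : ℂ) R, (‖t‖ ^ 2 + δ)⁻¹ =
      volume.real (ball (0 : ℂ) 1) * (Real.log (R ^ 2 + δ) - Real.log δ) := by
  have e : (closedBall (0 : ℂ) R).indicator (fun t => (‖t‖ ^ 2 + δ)⁻¹) =
      fun t => (Iic R).indicator (fun x => (x ^ 2 + δ)⁻¹) ‖t‖ := by
    funext t
    simp only [indicator, mem_closedBall_zero_iff, mem_Iic]
  have h1 : ∫ x in (0 : ℝ)..R, 2 * x / (x ^ 2 + δ) = Real.log (R ^ 2 + δ) - Real.log δ := by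
    have h := intervalIntegral.integral_eq_sub_of_hasDerivAt (a := 0) (b := R)
      (f := fun x => Real.log (x ^ 2 + δ)) (f' := fun x => 2 * x / (x ^ 2 + δ)) (fun x _ => by
        simpa using ((hasDerivAt_pow 2 x).add_const δ).log (by positivity))
      (Continuous.intervalIntegrable (by
        refine Continuous.div (by fun_prop) (by fun_prop) fun x => by positivity) _ _)
    simpa using h
  rw [← integral_indicator measurableSet_closedBall, e, integral_fun_norm_addHaar,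
    Complex.finrank_real_complex, ← h1, intervalIntegral.integral_of_le hR.le, nsmul_eq_mul,
    smul_eq_mul, mul_left_comm, ← integral_const_mul, ← Ioi_inter_Iic,
    ← setIntegral_indicator measurableSet_Iic]
  congr 2
  funext x
  by_cases hx : x ∈ Iic R
  · simp only [indicator_of_mem hx, smul_eq_mul]
    push_cast
    ring
  · simp [indicator_of_notMem hx]

/-- The logarithmic cut-off function. -/
theorem log_cutoff {R ε : ℝ} (hR : 0 < R) (hε : 0 < ε) : ∃ (r : ℝ) (w κ : ℂ → ℝ), 0 < r ∧ r < R ∧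
    ContDiff ℝ ∞ w ∧ (∀ t, 0 ≤ w t) ∧ (∀ t, w t ≤ 1) ∧ (∀ t, ‖t‖ ≤ r → w t = 1) ∧
    (∀ t, R ≤ ‖t‖ → w t = 0) ∧ Continuous κ ∧ (∀ t, |lap w t 1| + ‖gd 1 (rc w) t‖ ^ 2 ≤ κ t) ∧
    ∫ t in closedBall (0 : ℂ) R, κ t ≤ ε := by
  obtain ⟨C, C0, h1, h2, h3⟩ := ELT_trans
  set V := volume.real (ball (0 : ℂ) 1)
  have V0 : 0 ≤ V := measureReal_nonneg
  set A := 2 * C + C ^ 2 with hA
  set L := 1 + 3 * V * A / ε with hL
  have L1 : 1 ≤ L := le_add_of_nonneg_right (by positivity)
  have L0 : 0 < L := by positivity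
  set e := Real.exp (-L) with he
  have e0 : 0 < e := Real.exp_pos _
  have e1 : e * (L + 1) ≤ 1 := by
    rw [he, Real.exp_neg, inv_mul_le_one₀ (Real.exp_pos _)]
    exact Real.add_one_le_exp L
  set δ := (R * e) ^ 2 with hδ
  have δ0 : 0 < δ := by positivity
  have p0 : ∀ t : ℂ, 0 < ‖t‖ ^ 2 + δ := fun t => by positivity
  set φ : ℝ → ℝ := fun x => (Real.log (R ^ 2) - Real.log (x + δ)) / L with hφ
  have q1 : ContDiff ℝ ∞ fun t : ℂ => ‖t‖ ^ 2 := contDiff_norm_sq ℂ
  have g1 : ContDiff ℝ ∞ fun t : ℂ => φ (‖t‖ ^ 2) :=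
    (contDiff_const.sub ((q1.add contDiff_const).log fun t => (p0 t).ne')).div_const L
  have d1 : ∀ x, 0 < x + δ → HasDerivAt φ (-(x + δ)⁻¹ / L) x := fun x hx => by
    simpa using ((((hasDerivAt_id x).add_const δ).log hx.ne').const_sub
      (Real.log (R ^ 2))).div_const L
  have d2 : ∀ x, 0 < x + δ → deriv (deriv φ) x = ((x + δ) ^ 2)⁻¹ / L := fun x hx => by
    have h : deriv φ =ᶠ[𝓝 x] fun y => -(y + δ)⁻¹ / L := by
      filter_upwards [(isOpen_lt continuous_const (continuous_id.add continuous_const)).mem_nhds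
        hx] with y hy using (d1 y hy).deriv
    rw [h.deriv_eq]
    have := ((((hasDerivAt_id x).add_const δ).inv hx.ne').neg.div_const L).deriv
    simpa [neg_div] using this
  have c2 : ∀ t : ℂ, ContDiffAt ℝ 2 φ (‖t‖ ^ 2) := fun t =>
    (contDiffAt_const.sub ((contDiffAt_id.add contDiffAt_const).log (p0 t).ne')).div_const L
  have l1 : ∀ t : ℂ, lap (fun t : ℂ => ‖t‖ ^ 2) t 1 = 1 := fun t => by
    simpa using lap_normSqC (f := fun t : ℂ => t) (y := t) contDiffAt_id 1
  have l2 : ∀ t : ℂ, ‖gd 1 (rc fun t : ℂ => ‖t‖ ^ 2) t‖ = ‖t‖ := fun t => by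
    have e2 : (rc fun t : ℂ => ‖t‖ ^ 2) = fun t => t * conj t := funext fun t => by
      simp only [rc, Complex.mul_conj, Complex.normSq_eq_norm_sq]
    have hi : DifferentiableAt ℂ (fun t : ℂ => t) t := differentiableAt_id
    rw [e2, gd_mul (g := fun t => conj t) (hi.restrictScalars ℝ) conjCLE.differentiableAt,
      gd_holo hi,
      gd_conj (fun t : ℂ => t), gb_holo hi]
    simp
  have l3 : ∀ t : ℂ, ‖gd 1 (rc fun t : ℂ => φ (‖t‖ ^ 2)) t‖ ^ 2 ≤ (‖t‖ ^ 2 + δ)⁻¹ / L ^ 2 := by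
    intro t
    rw [gd_rcomp (q1.differentiable (by simp) t) (d1 _ (p0 t)), norm_mul, l2, Complex.norm_real,
      Real.norm_eq_abs, mul_pow, sq_abs, div_pow, neg_sq, div_mul_eq_mul_div]
    refine div_le_div_of_nonneg_right ?_ (by positivity)
    rw [sq, mul_assoc]
    exact mul_le_of_le_one_right (by positivity) ((inv_mul_le_one₀ (p0 t)).2 (by linarith))
  have l4 : ∀ t : ℂ, lap (fun t : ℂ => φ (‖t‖ ^ 2)) t 1 = -(δ / (‖t‖ ^ 2 + δ) ^ 2 / L) := by
    intro t
    rw [lap_rcomp (q1.contDiffAt.of_le CLN_two_le) (c2 t), l1, l2, (d1 _ (p0 t)).deriv,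
      d2 _ (p0 t)]
    have := p0 t
    field_simp
    ring
  have hs : ContDiff ℝ ∞ Real.smoothTransition := Real.smoothTransition.contDiff
  have lg1 : Real.log (R ^ 2 * e) = Real.log (R ^ 2) - L := by
    rw [Real.log_mul (by positivity) e0.ne', he, Real.log_exp, sub_eq_add_neg]
  refine ⟨R * e, fun t => Real.smoothTransition (φ (‖t‖ ^ 2)),
    fun t => A / L ^ 2 * (‖t‖ ^ 2 + δ)⁻¹, by positivity,
    mul_lt_of_lt_one_right hR (by nlinarith), hs.comp g1,
    fun t => Real.smoothTransition.nonneg _, fun t => Real.smoothTransition.le_one _,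
    fun t ht => Real.smoothTransition.one_of_one_le ?_,
    fun t ht => Real.smoothTransition.zero_of_nonpos ?_,
    continuous_const.mul ((q1.continuous.add continuous_const).inv₀ fun t => (p0 t).ne'),
    fun t => ?_, ?_⟩
  · rw [hφ, one_le_div L0, le_sub_comm, ← lg1]
    refine Real.log_le_log (p0 t) ?_
    have h4 : ‖t‖ ^ 2 ≤ δ := pow_le_pow_left₀ (norm_nonneg _) ht 2
    have h5 : 2 * e ≤ 1 := by nlinarith
    have h6 : 0 ≤ R ^ 2 * e := by positivity
    nlinarith
  · refine div_nonpos_of_nonpos_of_nonneg (sub_nonpos.2 (Real.log_le_log (by positivity) ?_)) L0.le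
    linarith [pow_le_pow_left₀ hR.le ht 2]
  · set u := (‖t‖ ^ 2 + δ)⁻¹ / L ^ 2 with hu
    have u0 : 0 ≤ u := by have := p0 t; positivity
    have h4 : |deriv Real.smoothTransition (φ (‖t‖ ^ 2)) *
        lap (fun t : ℂ => φ (‖t‖ ^ 2)) t 1| ≤ C * u := by
      by_cases h5 : 1 < φ (‖t‖ ^ 2)
      · rw [h3 _ h5, zero_mul, abs_zero]
        positivity
      rw [hφ, one_lt_div L0, lt_sub_comm, ← lg1, Real.log_lt_log_iff (p0 t) (by positivity),
        not_lt] at h5
      rw [abs_mul, l4, abs_neg, abs_of_nonneg (by have := p0 t; positivity : 0 ≤ δ / _ / L)]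
      refine mul_le_mul_of_nonneg_right (h1 _) (by have := p0 t; positivity) |>.trans
        (mul_le_mul_of_nonneg_left ?_ C0)
      have h6 : δ * L ≤ ‖t‖ ^ 2 + δ := by
        refine le_trans ?_ h5
        rw [hδ, mul_pow, sq e, mul_assoc, mul_assoc, ← mul_assoc]
        exact mul_le_of_le_one_right (by positivity) (by nlinarith)
      have := p0 t
      rw [hu, div_le_div_iff₀ L0 (by positivity), div_mul_eq_mul_div, div_le_iff₀ (by positivity)]
      calc δ * L ^ 2 = δ * L * L := by ring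
        _ ≤ (‖t‖ ^ 2 + δ) * L := by gcongr
        _ = _ := by field_simp
    have h7 := l3 t
    rw [lap_rcomp (g1.contDiffAt.of_le CLN_two_le) (hs.contDiffAt.of_le CLN_two_le),
      gd_rcomp (g1.differentiable (by simp) t) (hs.differentiable (by simp) _).hasDerivAt,
      norm_mul, Complex.norm_real, Real.norm_eq_abs, mul_pow]
    have h8 : |deriv (deriv Real.smoothTransition) (φ (‖t‖ ^ 2)) *
        ‖gd 1 (rc fun t : ℂ => φ (‖t‖ ^ 2)) t‖ ^ 2| ≤ C * u := by
      rw [abs_mul, abs_of_nonneg (sq_nonneg ‖_‖)]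
      exact mul_le_mul (h2 _) h7 (sq_nonneg _) C0
    have h9 := mul_le_mul (pow_le_pow_left₀ (abs_nonneg _) (h1 (φ (‖t‖ ^ 2))) 2) h7 (sq_nonneg _)
      (sq_nonneg _)
    have e3 : A / L ^ 2 * (‖t‖ ^ 2 + δ)⁻¹ = C * u + C * u + C ^ 2 * u := by
      rw [hu, hA]
      ring
    exact (add_le_add ((abs_add_le _ _).trans (add_le_add h4 h8)) h9).trans_eq e3.symm
  · rw [integral_const_mul, ELT_radial hR δ0]
    have h4 : Real.log (R ^ 2 + δ) - Real.log δ ≤ 3 * L := by
      rw [sub_le_iff_le_add', Real.log_le_iff_le_exp (by positivity), Real.exp_add,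
        Real.exp_log δ0]
      have e4 : Real.exp (3 * L) * e ^ 2 = Real.exp L := by
        rw [he, ← Real.exp_nat_mul, ← Real.exp_add]
        congr 1
        push_cast
        ring
      have e5 := Real.add_one_le_exp L
      have e6 : e ^ 2 ≤ 1 := by nlinarith
      calc R ^ 2 + δ = R ^ 2 * (1 + e ^ 2) := by rw [hδ]; ring
        _ ≤ R ^ 2 * (Real.exp (3 * L) * e ^ 2) := by rw [e4]; gcongr; linarith
        _ = _ := by rw [hδ]; ring
    have h5 : 3 * V * A ≤ ε * L := by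
      rw [hL, mul_add ε, mul_div_cancel₀ _ hε.ne']
      linarith
    calc A / L ^ 2 * (V * (Real.log (R ^ 2 + δ) - Real.log δ)) ≤ A / L ^ 2 * (V * (3 * L)) := by
          gcongr
      _ = 3 * V * A / L := by field_simp
      _ ≤ ε := (div_le_iff₀ L0).2 h5

end Pool.Agent.Lib.MP_a47f92_an
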