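import Pool.Agent.Lib.MP_a47f92_an.G.EDef
import Pool.Agent.Lib.MP_a47f92_an.G.MDX
import Pool.Agent.Lib.MP_a47f92_an.G.MD3
import Pool.Agent.Lib.MP_a47f92_an.G.Plk

set_option autoImplicit false
set_option linter.unusedSectionVars false

namespace Pool.Agent.Lib.MP_a47f92_an

open MeasureTheory Filter Topology Set Complex Metric Function
open scoped ContDiff ComplexConjugate ComplexOrder Matrix ENNReal NNReal

/-! Linear algebra of the leaves. -/

variable {n k k' s : ℕ} {T : E k →L[ℂ] E (s + 1)} {g : E (s + 1)} {h : Fin s → E k}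

theorem ELin_det_col (B : Mat (s + 1)) (hB : ∀ i : Fin s, B i.succ 0 = 0) :
    B.det = B 0 0 * (B.submatrix Fin.succ Fin.succ).det := by
  rw [Matrix.det_succ_column_zero, Fin.sum_univ_succ]
  simp [hB]

theorem ELin_det_row (B : Mat (s + 1)) (hB : ∀ j : Fin s, B 0 j.succ = 0) :
    B.det = B 0 0 * (B.submatrix Fin.succ Fin.succ).det := by
  rw [Matrix.det_succ_row_zero, Fin.sum_univ_succ]
  simp [hB]

/-- The map `rw T g` as a linear map. -/
noncomputable def ELin_rw (T : E k →L[ℂ] E (s + 1)) (g : E (s + 1)) : E k →ₗ[ℂ] (Fin s → ℂ) where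
  toFun := rw T g
  map_add' u v := by
    funext i
    simp only [rw, map_add, PiLp.add_apply, Pi.add_apply]
    ring
  map_smul' c u := by
    funext i
    simp only [rw, map_smul, PiLp.smul_apply, Pi.smul_apply, smul_eq_mul, RingHom.id_apply]
    ring

theorem ELin_rw_apply (T : E k →L[ℂ] E (s + 1)) (g : E (s + 1)) (u : E k) :
    ELin_rw T g u = rw T g u := rfl

theorem ELin_rw_pj (hd : (lm T g h).det ≠ 0) (u : E k) : rw T g (pj T g h u) = 0 := by
  have h1 : ELin_rw T g (∑ j, ((lm T g h)⁻¹ *ᵥ rw T g u) j • h j) =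
      lm T g h *ᵥ ((lm T g h)⁻¹ *ᵥ rw T g u) := by
    rw [map_sum]
    funext i
    simp only [map_smul, Finset.sum_apply, Pi.smul_apply, smul_eq_mul, ELin_rw_apply]
    exact Finset.sum_congr rfl fun j _ => mul_comm _ _
  rw [← ELin_rw_apply, pj, map_sub, h1, Matrix.mulVec_mulVec,
    Matrix.mul_nonsing_inv _ (isUnit_iff_ne_zero.2 hd), Matrix.one_mulVec, ELin_rw_apply, sub_self]

theorem ELin_cmat (S : E n →L[ℂ] E n) (v : E n) : cmat S *ᵥ v.ofLp = (S v).ofLp := by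
  have h2 := LinearMap.toMatrix_mulVec_repr (EuclideanSpace.basisFun (Fin n) ℂ).toBasis
    (EuclideanSpace.basisFun (Fin n) ℂ).toBasis (S : E n →ₗ[ℂ] E n) v
  rw [← MDisc_cmat] at h2
  exact h2

/-- Subtract multiples of the first column, expand along the first row. -/
theorem det_lm (hg : g 0 ≠ 0) (T : E k →L[ℂ] E (s + 1)) (h : Fin s → E k) :
    (lm T g h).det * g 0 ^ (s + 1) =
      (Matrix.of fun i j =>
        (Fin.cons g fun j => T (h j) : Fin (s + 1) → E (s + 1)) j i).det := by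
  obtain ⟨w, hw⟩ : ∃ w : Fin (s + 1) → E (s + 1), w = Fin.cons g fun j => T (h j) := ⟨_, rfl⟩
  have w0 : w 0 = g := by rw [hw, Fin.cons_zero]
  have w1 : ∀ j : Fin s, w j.succ = T (h j) := fun j => by rw [hw, Fin.cons_succ]
  obtain ⟨c, c0, c1⟩ : ∃ c : Fin (s + 1) → ℂ, c 0 = 0 ∧ ∀ i : Fin s, c i.succ = g i.succ / g 0 :=
    ⟨Fin.cons 0 fun i => g i.succ / g 0, rfl, fun _ => rfl⟩
  have h1 : (Matrix.of fun i j => w j i).det = (Matrix.of fun i j => w j i - c i * w j 0).det :=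
    Matrix.det_eq_of_forall_row_eq_smul_add_const c 0 c0 fun i j => by
      simp only [Matrix.of_apply, c0]
      ring
  have h2 : (Matrix.of fun i j => w j i - c i * w j 0).submatrix Fin.succ Fin.succ =
      g 0 • lm T g h := by
    ext i j
    simp only [Matrix.submatrix_apply, Matrix.of_apply, w1, c1, Matrix.smul_apply, lm, rw,
      smul_eq_mul]
    field_simp
  rw [← hw, h1, ELin_det_col _ fun i => by
    simp only [Matrix.of_apply, w0, c1]
    field_simp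
    ring, h2, Matrix.det_smul, Matrix.of_apply, w0, c0, Fintype.card_fin]
  ring

theorem exists_pj_clm (T : E k →L[ℂ] E (s + 1)) (g : E (s + 1)) (h : Fin s → E k) :
    ∃ P : E k →L[ℂ] E k, ∀ u, P u = pj T g h u :=
  ⟨LinearMap.toContinuousLinearMap (LinearMap.id - ∑ j, ((LinearMap.proj j).comp
    ((lm T g h)⁻¹.mulVecLin.comp (ELin_rw T g))).smulRight (h j)), fun u => by
      simp only [LinearMap.coe_toContinuousLinearMap', LinearMap.sub_apply, LinearMap.id_apply,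
        LinearMap.sum_apply, LinearMap.smulRight_apply]
      rfl⟩

theorem pj_eq_self {u : E k} (hu : rw T g u = 0) : pj T g h u = u := by
  simp [pj, hu]

/-- Rank-nullity for the linear map `rw T g` into `Fin s → ℂ`. -/
theorem exists_ker_rw (T : E k →L[ℂ] E (s + 1)) (g : E (s + 1)) :
    ∃ V : Submodule ℂ (E k), k ≤ Module.finrank ℂ V + s ∧ ∀ u, u ∈ V ↔ rw T g u = 0 := by
  refine ⟨LinearMap.ker (ELin_rw T g), ?_, fun u => Iff.rfl⟩
  have h1 := LinearMap.finrank_range_add_finrank_ker (ELin_rw T g)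
  have h2 := Submodule.finrank_le (LinearMap.range (ELin_rw T g))
  rw [finrank_euclideanSpace_fin] at h1
  rw [Module.finrank_fin_fun] at h2
  omega

theorem rw_eq_zero {u : E k} {c : ℂ} (hu : T u = c • g) : rw T g u = 0 := by
  funext i
  simp only [rw, hu, PiLp.smul_apply, smul_eq_mul, Pi.zero_apply]
  ring

theorem rw_comp (T : E k →L[ℂ] E (s + 1)) (S : E k' →L[ℂ] E k) (g : E (s + 1)) (u : E k') :
    rw (T.comp S) g u = rw T g (S u) := rfl

theorem map_pj (T : E k →L[ℂ] E (s + 1)) (S : E k' →L[ℂ] E k) (g : E (s + 1)) (h : Fin s → E k')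
    (u : E k') : S (pj (T.comp S) g h u) = pj T g (fun j => S (h j)) (S u) := by
  simp only [pj, map_sub, map_sum, map_smul]
  rfl

variable {Y : E (s + 1) → E (s + 1)} {y : E (s + 1)}

theorem Xi_zero (Y : E (s + 1) → E (s + 1)) (y : E (s + 1)) : Xi Y y 0 = y 0 := rfl
theorem Xi_succ (Y : E (s + 1) → E (s + 1)) (y : E (s + 1)) (i : Fin s) :
    Xi Y y i.succ = Y y i.succ / Y y 0 := rfl

theorem analyticAt_Xi (hY : AnalyticAt ℂ Y y) (h0 : Y y 0 ≠ 0) : AnalyticAt ℂ (Xi Y) y := by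
  have hc : ∀ i, AnalyticAt ℂ (fun y => Y y i) y := fun i =>
    ((EuclideanSpace.proj i : E (s + 1) →L[ℂ] ℂ).analyticAt _).comp hY
  have h1 : AnalyticAt ℂ (fun y => (Xi Y y).ofLp) y := analyticAt_pi_iff.2 fun i => by
    refine Fin.cases ?_ (fun i => ?_) i
    · exact (EuclideanSpace.proj 0 : E (s + 1) →L[ℂ] ℂ).analyticAt _
    · exact (hc i.succ).div (hc 0) h0
  exact ((EuclideanSpace.equiv (Fin (s + 1)) ℂ).symm.analyticAt _).comp h1

theorem ELin_div (hY : DifferentiableAt ℂ Y y) (h0 : Y y 0 ≠ 0) (i : Fin s) :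
    ∃ D : E (s + 1) →L[ℂ] ℂ, HasFDerivAt (fun y => Xi Y y i.succ) D y ∧
      ∀ v, D v = rw (fderiv ℂ Y y) (Y y) v i := by
  have hc : ∀ i, HasFDerivAt (fun y => Y y i)
      ((EuclideanSpace.proj i : E (s + 1) →L[ℂ] ℂ).comp (fderiv ℂ Y y)) y := fun i =>
    (EuclideanSpace.proj i : E (s + 1) →L[ℂ] ℂ).hasFDerivAt.comp y hY.hasFDerivAt
  have h1 := (hc i.succ).mul ((hasDerivAt_inv h0).comp_hasFDerivAt y (hc 0))
  refine ⟨_, h1.congr_of_eventuallyEq (Eventually.of_forall fun y => div_eq_mul_inv _ _),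
    fun v => ?_⟩
  change Y y i.succ * (-(Y y 0 ^ 2)⁻¹ * fderiv ℂ Y y v 0) +
    (Y y 0)⁻¹ * fderiv ℂ Y y v i.succ = _
  rw [rw]
  field_simp
  ring

theorem fderiv_Xi (hY : DifferentiableAt ℂ Y y) (h0 : Y y 0 ≠ 0) (v : E (s + 1)) :
    fderiv ℂ (Xi Y) y v 0 = v 0 ∧
      ∀ i : Fin s, fderiv ℂ (Xi Y) y v i.succ = rw (fderiv ℂ Y y) (Y y) v i := by
  have h1 : HasFDerivAt (fun y => Xi Y y 0) (EuclideanSpace.proj 0 : E (s + 1) →L[ℂ] ℂ) y :=
    (EuclideanSpace.proj 0 : E (s + 1) →L[ℂ] ℂ).hasFDerivAt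
  have hd : DifferentiableAt ℂ (Xi Y) y := differentiableAt_euclidean.2 fun i => by
    refine Fin.cases h1.differentiableAt (fun i => ?_) i
    obtain ⟨D, hD, -⟩ := ELin_div hY h0 i
    exact hD.differentiableAt
  have hc : ∀ i, HasFDerivAt (fun y => Xi Y y i)
      ((EuclideanSpace.proj i : E (s + 1) →L[ℂ] ℂ).comp (fderiv ℂ (Xi Y) y)) y := fun i =>
    (EuclideanSpace.proj i : E (s + 1) →L[ℂ] ℂ).hasFDerivAt.comp y hd.hasFDerivAt
  refine ⟨DFunLike.congr_fun ((hc 0).unique h1) v, fun i => ?_⟩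
  obtain ⟨D, hD, h2⟩ := ELin_div hY h0 i
  exact (DFunLike.congr_fun ((hc i.succ).unique hD) v).trans (h2 v)

/-- `cmat_det`; the first row of the matrix is `(1, 0, …, 0)`. -/
theorem dl_Xi (hY : DifferentiableAt ℂ Y y) (h0 : Y y 0 ≠ 0) :
    dl (Xi Y) y = (lm (fderiv ℂ Y y) (Y y) fun j => ev j.succ).det := by
  have h1 : (cmat (fderiv ℂ (Xi Y) y)).submatrix Fin.succ Fin.succ =
      lm (fderiv ℂ Y y) (Y y) fun j => ev j.succ := by
    ext i j
    exact (fderiv_Xi hY h0 (ev j.succ)).2 i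
  have h2 : cmat (fderiv ℂ (Xi Y) y) 0 0 = 1 := (fderiv_Xi hY h0 (ev 0)).1.trans (by simp [ev])
  rw [dl, ← cmat_det, ELin_det_row _ fun j => (fderiv_Xi hY h0 (ev j.succ)).1.trans (by simp [ev]),
    h1, h2, one_mul]

/-- Both sides are sent to `dl • ev 0` by the invertible matrix of `fderiv (Xi Y) y`
(`Matrix.mul_adjugate`, `Matrix.mul_nonsing_inv`). -/
theorem wv_Xi (hY : DifferentiableAt ℂ Y y) (h0 : Y y 0 ≠ 0) (h1 : dl (Xi Y) y ≠ 0) :
    wv (Xi Y) y = dl (Xi Y) y • pj (fderiv ℂ Y y) (Y y) (fun j => ev j.succ) (ev 0) := by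
  have hd : (cmat (fderiv ℂ (Xi Y) y)).det = dl (Xi Y) y := cmat_det _
  have h2 : (fderiv ℂ (Xi Y) y (pj (fderiv ℂ Y y) (Y y) (fun j => ev j.succ) (ev 0))).ofLp =
      Pi.single 0 1 := by
    funext i
    refine Fin.cases ?_ (fun i => ?_) i
    · refine (fderiv_Xi hY h0 _).1.trans ?_
      simp [pj, ev]
    · refine ((fderiv_Xi hY h0 _).2 i).trans ?_
      rw [ELin_rw_pj (dl_Xi hY h0 ▸ h1)]
      simp
  have h3 : Function.Injective (cmat (fderiv ℂ (Xi Y) y)).mulVec :=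
    Matrix.mulVec_injective_iff_isUnit.2
      ((Matrix.isUnit_iff_isUnit_det _).2 (isUnit_iff_ne_zero.2 (hd ▸ h1)))
  refine WithLp.ofLp_injective 2 (h3 ?_)
  rw [ELin_cmat _ (dl (Xi Y) y • _), map_smul, WithLp.ofLp_smul, h2, wv, WithLp.ofLp_toLp,
    Matrix.mulVec_mulVec, Matrix.mul_adjugate, Matrix.smul_mulVec, Matrix.one_mulVec, hd]

theorem jac_eq_dl (Ξ : E n → E n) (y : E n) : jac Ξ y = ‖dl Ξ y‖ ^ 2 := rfl

end Pool.Agent.Lib.MP_a47f92_an
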