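import Pool.Agent.Lib.MP_a47f92_an.G.ETub

set_option autoImplicit false
set_option linter.unusedSectionVars false

namespace Pool.Agent.Lib.MP_a47f92_an

open MeasureTheory Filter Topology Set Complex Metric Function
open scoped ContDiff ComplexConjugate ComplexOrder Matrix ENNReal NNReal

/-! Measurability and two lemmas of Fubini type. -/

variable {n s d D : ℕ} {F G : E n → E n}

section helpers

variable {U : Type} [MeasurableSpace U] {k m : ℕ}

theorem EMeas_det {M : U → Matrix (Fin k) (Fin k) ℂ} (h : ∀ i j, Measurable fun u => M u i j) :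
    Measurable fun u => (M u).det := by
  simp only [Matrix.det_apply']
  exact Finset.measurable_sum _ fun σ _ =>
    measurable_const.mul (Finset.measurable_prod _ fun i _ => h _ _)

theorem EMeas_inv {M : U → Matrix (Fin k) (Fin k) ℂ} (h : ∀ i j, Measurable fun u => M u i j)
    (i j : Fin k) : Measurable fun u => (M u)⁻¹ i j := by
  simp only [Matrix.inv_def, Ring.inverse_eq_inv', Matrix.smul_apply, smul_eq_mul,
    Matrix.adjugate_apply]
  refine (EMeas_det h).inv.mul (EMeas_det fun a b => ?_)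
  simp only [Matrix.updateRow_apply]
  split_ifs
  exacts [measurable_const, h _ _]

theorem EMeas_co {v : U → E k} (hv : Measurable v) (i : Fin k) : Measurable fun u => v u i :=
  (EuclideanSpace.proj i : E k →L[ℂ] ℂ).continuous.measurable.comp hv

theorem EMeas_app {Y : Type} [TopologicalSpace Y] [MeasurableSpace Y] [OpensMeasurableSpace Y]
    [SecondCountableTopology Y] {L : Y → E k →L[ℂ] E m} (hL : Continuous L) {y : U → Y}
    (hy : Measurable y) {v : U → E k} (hv : Measurable v) : Measurable fun u => L (y u) (v u) :=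
  (((hL.comp continuous_fst).clm_apply continuous_snd).measurable).comp (hy.prodMk hv)

theorem EMeas_G (hG : IsLift D G) : Measurable G := hG.contDiff.continuous.measurable

theorem EMeas_fd (hG : IsLift D G) {z v : U → E n} (hz : Measurable z) (hv : Measurable v) :
    Measurable fun u => fderiv ℂ G (z u) (v u) :=
  EMeas_app (hG.contDiff.continuous_fderiv (by simp)) hz hv

theorem EMeas_un {z : U → E n} (hz : Measurable z) : Measurable fun u => un (z u) :=
  hz.norm.inv.smul hz

theorem EMeas_Bm (hG : IsLift D G) {z v : U → E n} (hz : Measurable z) (hv : Measurable v) :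
    Measurable fun u => Bm G (z u) (v u) := by
  have h1 := (EMeas_G hG).comp hz
  have h2 := EMeas_fd hG hz hv
  have h3 := EMeas_un h1
  have h4 : Measurable fun u => ((‖z u‖ / ‖G (z u)‖ : ℝ) : ℂ) :=
    measurable_ofReal.comp (hz.norm.div h1.norm)
  exact h4.smul (h2.sub ((h3.inner (𝕜 := ℂ) h2).smul h3))

theorem EMeas_fr (hG : IsLift D G) {z : U → E n} (hz : Measurable z) (v : Fin s → E n)
    (j : Fin (s + 1)) : Measurable fun u => fr G (z u) v j := by
  induction j using Fin.cases with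
  | zero => exact (EMeas_G hG).comp hz
  | succ j => exact EMeas_fd hG hz measurable_const

theorem EMeas_th (hG : IsLift D G) {A : U → E ((s + 1) * n)} (hA : Measurable A) {z : U → E n}
    (hz : Measurable z) (v : Fin s → E n) :
    Measurable fun u => th (mt (s + 1) n (A u)) G (z u) v :=
  (EMeas_det fun i j => EMeas_co (EMeas_app (mt (s + 1) n).continuous hA (EMeas_fr hG hz v j)) i).mul
    (measurable_ofReal.comp ((hz.norm.pow_const _).div (((EMeas_G hG).comp hz).norm.pow_const _)))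

theorem EMeas_rg (d N : ℕ) : Measurable (rg d N) :=
  ((measurable_id.pow_const 2).add_const _).log.div_const 2

theorem EMeas_rw {T : U → E k →L[ℂ] E (s + 1)} {g : U → E (s + 1)} (hg : Measurable g)
    {v : U → E k} (hv : Measurable fun u => T u (v u)) (i : Fin s) :
    Measurable fun u => rw (T u) (g u) (v u) i :=
  (((EMeas_co hg 0).mul (EMeas_co hv i.succ)).sub
    ((EMeas_co hg i.succ).mul (EMeas_co hv 0))).div ((EMeas_co hg 0).pow_const 2)

theorem EMeas_pj {T : U → E k →L[ℂ] E (s + 1)}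
    (hT : ∀ v : U → E k, Measurable v → Measurable fun u => T u (v u)) {g : U → E (s + 1)}
    (hg : Measurable g) {h : U → Fin s → E k} (hh : ∀ j, Measurable fun u => h u j) {v : U → E k}
    (hv : Measurable v) : Measurable fun u => pj (T u) (g u) (h u) (v u) := by
  have h1 : ∀ j, Measurable fun u => ((lm (T u) (g u) (h u))⁻¹ *ᵥ rw (T u) (g u) (v u)) j := by
    intro j
    simp only [Matrix.mulVec, dotProduct]
    exact Finset.measurable_sum _ fun i _ =>
      (EMeas_inv (M := fun u => lm (T u) (g u) (h u))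
        (fun a b => EMeas_rw hg (hT _ (hh b)) a) j i).mul (EMeas_rw hg (hT _ hv) i)
  exact hv.sub (Finset.measurable_sum _ fun j _ => (h1 j).smul (hh j))

end helpers

theorem measurable_al (hG : IsLift D G) (J : Fin s → Fin n) : Measurable (al G J) := by
  unfold al
  simp only [EuclideanSpace.norm_eq]
  refine (Finset.measurable_sum _ fun I _ => (Measurable.norm ?_).pow_const 2).sqrt
  exact EMeas_det fun i j => EMeas_co (EMeas_Bm hG measurable_id measurable_const) _

theorem measurable_jz (hG : IsLift D G) (ℓ : E n →L[ℂ] E (s + 1)) (J : Fin s → Fin n) :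
    Measurable (jz G ℓ J) :=
  ((EMeas_det fun i j => EMeas_co (ℓ.continuous.measurable.comp
    (EMeas_fr hG measurable_id (evs J) j)) i).norm.pow_const 2).div
    (((EMeas_co (ℓ.continuous.measurable.comp (EMeas_G hG)) 0).norm.pow_const _).pow_const 2)

theorem measurable_th (hG : IsLift D G) (J : Fin s → Fin n) :
    Measurable fun q : E ((s + 1) * n) × E n => th (mt (s + 1) n q.1) G q.2 (evs J) :=
  EMeas_th hG measurable_fst measurable_snd _

theorem measurableSet_cn (hF : IsLift d F) (i w m : ℕ) (J : Fin s → Fin n) (M K : ℝ) :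
    MeasurableSet {q : E ((s + 1) * n) × E n | q.2 ∈ Cn d F i w m (mt (s + 1) n q.1) J M K} := by
  have h1 : ∀ a, Measurable fun q : E ((s + 1) * n) × E n => F^[a] q.2 := fun a =>
    (EMeas_G (hF.iterate a)).comp measurable_snd
  refine (measurableSet_le (h1 _).norm (measurable_const.mul (EMeas_co
    (EMeas_app (mt (s + 1) n).continuous measurable_fst (h1 _)) 0).norm)).inter
    (measurableSet_le (Measurable.exp ?_) (measurable_th (hF.iterate _) J).norm)
  refine (Measurable.add ((EMeas_rg d i).comp ((measurable_al (hF.iterate i) J).comp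
    measurable_snd)) ((EMeas_rg d m).comp (Measurable.sqrt ?_))).sub_const K
  exact Finset.measurable_sum _ fun I _ =>
    (EMeas_th (hF.iterate m) measurable_fst (h1 _) _).norm.pow_const 2

/-- `Matrix.inv_def`, `Ring.inverse_eq_inv`; the determinant and the adjugate are continuous. -/
theorem measurable_Sz (hF : IsLift d F) (l a : ℕ) (ℓ : E n →L[ℂ] E (s + 1)) (J : Fin s → Fin n)
    (N : ℕ) : Measurable fun q : E (n * n) × E n => Sz F l a ℓ J N q.2 q.1 := by
  have h1 : Measurable fun q : E (n * n) × E n => F^[a] q.2 :=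
    (EMeas_G (hF.iterate a)).comp measurable_snd
  have h2 : Measurable fun q : E (n * n) × E n =>
      pz F l a ℓ J q.2 (mt n n q.1 (un (F^[a] q.2))) :=
    EMeas_pj (T := fun q : E (n * n) × E n => ℓ.comp (fderiv ℂ F^[l] (F^[a] q.2)))
      (fun v hv => ℓ.continuous.measurable.comp (EMeas_fd (hF.iterate l) h1 hv))
      (ℓ.continuous.measurable.comp ((EMeas_G (hF.iterate l)).comp h1))
      (h := fun q j => fderiv ℂ F^[a] q.2 (ev (J j)))
      (fun i => EMeas_fd (hF.iterate a) measurable_snd measurable_const)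
      (EMeas_app (mt n n).continuous measurable_fst (EMeas_un h1))
  unfold Sz QJ
  exact Finset.measurable_sum _ fun j _ => (EMeas_Bm (hF.iterate j) h1 h2).norm.pow_const 2

theorem measurableSet_Sh (n : ℕ) (a b : ℝ) : MeasurableSet (Sh n a b) :=
  (measurableSet_lt measurable_const measurable_norm).inter
    (measurableSet_lt measurable_norm measurable_const)

/-- Tonelli. -/
theorem lintegral_le_two_mul {P Z : Type} [MeasurableSpace P] [MeasurableSpace Z] (π : Measure P)
    [SFinite π] (μ : Measure Z) [SFinite μ] {S : Set (P × Z)} (hS : MeasurableSet S) {T : Set Z}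
    (hT : MeasurableSet T) (h : ∀ z ∈ T, 1 / 2 ≤ π {p | (p, z) ∈ S}) {f : Z → ℝ≥0∞}
    (hf : Measurable f) :
    ∫⁻ z in T, f z ∂μ ≤ 2 * ∫⁻ p, (∫⁻ z in T ∩ {z | (p, z) ∈ S}, f z ∂μ) ∂π := by
  have h1 : ∀ p, ∫⁻ z in T ∩ {z | (p, z) ∈ S}, f z ∂μ =
      ∫⁻ z in T, S.indicator (fun q => f q.2) (p, z) ∂μ := fun p => by
    have h2 : MeasurableSet {z | (p, z) ∈ S} := measurable_prodMk_left hS
    rw [inter_comm, ← Measure.restrict_restrict h2, ← lintegral_indicator h2]
    rfl
  simp only [h1]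
  rw [lintegral_lintegral_swap (f := fun p z => S.indicator (fun q => f q.2) (p, z))
    ((hf.comp measurable_snd).indicator hS).aemeasurable,
    ← lintegral_const_mul' _ _ ENNReal.ofNat_ne_top]
  refine setLIntegral_mono' hT fun z hz => ?_
  have h2 : MeasurableSet {p | (p, z) ∈ S} := measurable_prodMk_right hS
  have h3 : ∫⁻ p, S.indicator (fun q => f q.2) (p, z) ∂π = f z * π {p | (p, z) ∈ S} :=
    lintegral_indicator_const h2 (f z)
  rw [h3]
  calc f z = 2 * (f z * (1 / 2)) := by
        rw [mul_left_comm, one_div, ENNReal.mul_inv_cancel two_ne_zero ENNReal.ofNat_ne_top,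
          mul_one]
    _ ≤ _ := by gcongr; exact h z hz

/-- Tonelli and translation invariance. -/
theorem lintegral_Zb (J : Fin s → Fin n) {B : Set (E s)} (hB : MeasurableSet B) {f : E n → ℝ≥0∞}
    (hf : Measurable f) :
    ∫⁻ b, ∫⁻ x in B, f (Zb b J (cs 0 x)) = volume B * ∫⁻ z, f z := by
  simp only [Zb_cs]
  have h1 : Continuous fun q : E n × E s => q.1 + ∑ i, q.2 i • ev (J i) := by fun_prop
  rw [lintegral_lintegral_swap (f := fun (b : E n) (x : E s) => f (b + ∑ i, x i • ev (J i)))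
    (hf.comp h1.measurable).aemeasurable]
  simp only [lintegral_add_right_eq_self]
  rw [setLIntegral_const, mul_comm]

/-- A pair of indices at which three averages are small. -/
theorem exists_pair {B L : ℕ} (hB : 0 < B) (hL : 0 < L) {f g h : ℕ → ℕ → ℝ≥0∞} {a b c : ℝ}
    (ha : 0 < a) (hb : 0 < b) (hc : 0 < c)
    (hf : ∑ w ∈ Finset.Ico B (2 * B), ∑ m ∈ Finset.Ico L (2 * L), f w m ≤ ENNReal.ofReal (a * B * L))
    (hg : ∑ w ∈ Finset.Ico B (2 * B), ∑ m ∈ Finset.Ico L (2 * L), g w m ≤ ENNReal.ofReal (b * B * L))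
    (hh : ∑ w ∈ Finset.Ico B (2 * B), ∑ m ∈ Finset.Ico L (2 * L), h w m ≤ ENNReal.ofReal (c * B * L)) :
    ∃ w ∈ Finset.Ico B (2 * B), ∃ m ∈ Finset.Ico L (2 * L), f w m ≤ ENNReal.ofReal (3 * a) ∧
      g w m ≤ ENNReal.ofReal (3 * b) ∧ h w m ≤ ENNReal.ofReal (3 * c) := by
  have key : ∀ {u : ℕ → ℕ → ℝ≥0∞} {e : ℝ}, 0 < e →
      ∑ w ∈ Finset.Ico B (2 * B), ∑ m ∈ Finset.Ico L (2 * L), u w m ≤ ENNReal.ofReal (e * B * L) →
      ∑ x ∈ Finset.Ico B (2 * B) ×ˢ Finset.Ico L (2 * L), u x.1 x.2 / ENNReal.ofReal (3 * e) ≤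
        ENNReal.ofReal (B * L / 3) := by
    intro u e he hu
    simp only [div_eq_mul_inv (b := ENNReal.ofReal (3 * e))]
    rw [← Finset.sum_mul, Finset.sum_product', ← div_eq_mul_inv]
    refine (ENNReal.div_le_div_right hu _).trans (le_of_eq ?_)
    rw [← ENNReal.ofReal_div_of_pos (by positivity)]
    congr 1
    field_simp
  have k2 : ∀ {x : ℝ≥0∞} {e : ℝ}, x / ENNReal.ofReal (3 * e) ≤ 1 → 0 < e →
      x ≤ ENNReal.ofReal (3 * e) := by
    intro x e hx he
    rwa [ENNReal.div_le_iff (ENNReal.ofReal_pos.2 (by positivity)).ne' ENNReal.ofReal_ne_top,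
      one_mul] at hx
  obtain ⟨x, hx, h1⟩ := ENNReal.exists_le_of_sum_le
    (s := Finset.Ico B (2 * B) ×ˢ Finset.Ico L (2 * L))
    (Finset.Nonempty.product (Finset.nonempty_Ico.2 (by omega)) (Finset.nonempty_Ico.2 (by omega)))
    (f := fun x => f x.1 x.2 / ENNReal.ofReal (3 * a) + g x.1 x.2 / ENNReal.ofReal (3 * b) +
      h x.1 x.2 / ENNReal.ofReal (3 * c)) (g := fun _ => 1) (by
      rw [Finset.sum_add_distrib, Finset.sum_add_distrib]
      refine (add_le_add (add_le_add (key ha hf) (key hb hg)) (key hc hh)).trans (le_of_eq ?_)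
      rw [← ENNReal.ofReal_add (by positivity) (by positivity),
        ← ENNReal.ofReal_add (by positivity) (by positivity), Finset.sum_const, Finset.card_product,
        Nat.card_Ico, Nat.card_Ico, show 2 * B - B = B by omega, show 2 * L - L = L by omega,
        nsmul_one, ← ENNReal.ofReal_natCast]
      congr 1
      push_cast
      ring)
  rw [Finset.mem_product] at hx
  exact ⟨x.1, hx.1, x.2, hx.2, k2 ((le_self_add.trans le_self_add).trans h1) ha,
    k2 ((le_add_self.trans le_self_add).trans h1) hb, k2 (le_add_self.trans h1) hc⟩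

/-- Geometry of the boxes: `norm_Zb_sub`. -/
theorem box_geom {Z : Set (E n)} {δ ρ : ℝ} (h0 : 0 < δ) (h1 : δ ≤ 1 / 4) (hρ0 : 0 ≤ ρ)
    (hρ : 20 * (s + 1) * ρ ≤ δ) (b : E n) (J : Fin s → Fin n) :
    (∀ x : E s, ‖x‖ ≤ ρ → Zb b J (cs 0 x) ∈ nb (δ / 4) Z ∩ Sh n 1 2 →
      b ∈ nb (δ / 2) Z ∩ Sh n (3 / 4) (9 / 4)) ∧
    (b ∈ nb (δ / 2) Z ∩ Sh n (3 / 4) (9 / 4) → ∀ y : E (s + 1), ‖tl y‖ < 4 * ρ →
      Zb b J y ∈ nb δ Z ∩ Sh n (1 / 2) 3) := by
  have hs : (0 : ℝ) ≤ s := Nat.cast_nonneg s
  constructor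
  · rintro x hx ⟨⟨y, hy, h2⟩, h3, h4⟩
    have h5 : ‖Zb b J (cs 0 x) - b‖ ≤ s * ‖x‖ := norm_Zb_sub b J (cs 0 x)
    generalize Zb b J (cs 0 x) = z at *
    have h6 : ‖z - b‖ ≤ δ / 20 := by nlinarith [mul_le_mul_of_nonneg_left hx hs]
    have h7 := norm_sub_norm_le z b
    have h8 := norm_sub_norm_le b z
    rw [norm_sub_rev] at h8
    have h9 := norm_sub_le_norm_sub_add_norm_sub y z b
    refine ⟨⟨y, hy, ?_⟩, by linarith, by linarith⟩
    nlinarith
  · rintro ⟨⟨y, hy, h2⟩, h3, h4⟩ x hx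
    have h5 := norm_Zb_sub b J x
    generalize Zb b J x = z at *
    have h6 : ‖z - b‖ ≤ δ / 5 := by nlinarith [mul_le_mul_of_nonneg_left hx.le hs]
    have h7 := norm_sub_norm_le z b
    have h8 := norm_sub_norm_le b z
    have h9 := norm_sub_le_norm_sub_add_norm_sub y b z
    rw [norm_sub_rev b z] at h8 h9
    refine ⟨⟨y, hy, ?_⟩, by linarith, by linarith⟩
    nlinarith

/-- The integral over the shell is controlled by the reference current. -/
def EMeas_P (n p : ℕ) (a b : ℝ) : Prop :=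
  ∃ C : ℝ≥0, ∀ (W : Set (E n)) (g : Fr n p → ℝ), MeasurableSet W → IsCone W → PT g →
    ∫⁻ z in W ∩ Sh n a b, ENNReal.ofReal (hat g z) ≤ C * rf W g

theorem EMeas_join {p : ℕ} {a b a' b' c : ℝ} (h : EMeas_P n p a b) (h' : EMeas_P n p a' b')
    (h1 : a' < b) (h2 : c ≤ b') : EMeas_P n p a c := by
  obtain ⟨C, hC⟩ := h
  obtain ⟨C', hC'⟩ := h'
  refine ⟨C + C', fun W g hW hc hg => ?_⟩
  have h3 : W ∩ Sh n a c ⊆ W ∩ Sh n a b ∪ W ∩ Sh n a' b' := fun z hz => by
    rcases lt_or_ge ‖z‖ b with h4 | h4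
    · exact Or.inl ⟨hz.1, hz.2.1, h4⟩
    · exact Or.inr ⟨hz.1, h1.trans_le h4, hz.2.2.trans_le h2⟩
  refine ((lintegral_mono_set h3).trans (lintegral_union_le _ _ _)).trans ?_
  rw [ENNReal.coe_add, add_mul]
  exact add_le_add (hC W g hW hc hg) (hC' W g hW hc hg)

theorem EMeas_bw : Measurable (bw : E n → ℝ) := by
  have h := (expNegInvGlue.contDiff (n := 0)).continuous
  exact ((h.comp (by fun_prop)).mul (h.comp (by fun_prop))).measurable

theorem EMeas_one (n p : ℕ) {c : ℝ} (hc : 0 < c) : EMeas_P n p (5 / 4 / c) (7 / 4 / c) := by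
  have hβ : 0 < expNegInvGlue (9 / 16) * expNegInvGlue (15 / 16) :=
    mul_pos (expNegInvGlue.pos_of_pos (by norm_num)) (expNegInvGlue.pos_of_pos (by norm_num))
  set β := expNegInvGlue (9 / 16) * expNegInvGlue (15 / 16) with hβe
  refine ⟨((c ^ p) ^ 2 / β).toNNReal * |(c ^ Module.finrank ℝ (E n))⁻¹|.toNNReal,
    fun W g hW hWc hg => ?_⟩
  have hm : Measurable (W.indicator fun w => ENNReal.ofReal (bw w * hat g w)) :=
    (EMeas_bw.mul hg.measurable_hat).ennreal_ofReal.indicator hW
  have h1 := lintegral_map (μ := volume) hm (measurable_const_smul c)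
  rw [Measure.map_addHaar_smul volume hc.ne', lintegral_smul_measure, lintegral_indicator hW] at h1
  rw [ENNReal.coe_mul, mul_assoc]
  refine le_trans ?_ (le_of_eq (congrArg _ h1.symm))
  rw [← lintegral_const_mul' _ _ ENNReal.coe_ne_top,
    ← lintegral_indicator (hW.inter (measurableSet_Sh _ _ _))]
  refine lintegral_mono fun z => ?_
  by_cases hz : z ∈ W ∩ Sh n (5 / 4 / c) (7 / 4 / c)
  swap
  · rw [indicator_of_notMem hz]
    exact zero_le
  have hc' : (c : ℂ) ≠ 0 := ofReal_ne_zero.2 hc.ne'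
  have h2 : c • z ∈ W := hWc c hc' z hz.1
  have h3 : hat g (c • z) = ((c ^ p) ^ 2)⁻¹ * hat g z := by
    have := hg.hat_smul hc' z
    rwa [Complex.norm_real, Real.norm_of_nonneg hc.le] at this
  have h4 : ‖c • z‖ = c * ‖z‖ := by rw [norm_smul, Real.norm_of_nonneg hc.le]
  have h5 : 5 / 4 < ‖c • z‖ := by
    rw [h4, mul_comm]
    exact (div_lt_iff₀ hc).1 hz.2.1
  have h6 : ‖c • z‖ < 7 / 4 := by
    rw [h4, mul_comm]
    exact (lt_div_iff₀ hc).1 hz.2.2
  have h7 : β ≤ bw (c • z) :=
    mul_le_mul (expNegInvGlue.monotone (by nlinarith)) (expNegInvGlue.monotone (by nlinarith))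
      (expNegInvGlue.nonneg _) (expNegInvGlue.nonneg _)
  rw [indicator_of_mem hz, indicator_of_mem h2]
  refine le_trans (ENNReal.ofReal_le_ofReal ?_)
    (ENNReal.ofReal_mul (p := (c ^ p) ^ 2 / β) (by positivity)).le
  have h8 := hg.hat_nonneg z
  calc hat g z = (c ^ p) ^ 2 / β * (β * (((c ^ p) ^ 2)⁻¹ * hat g z)) := by field_simp
    _ ≤ _ := by rw [h3]; gcongr

/-- Cover the shell by finitely many dilates `c • Sh n (5 / 4) (7 / 4)`, on which `bw` is bounded
below; change variables (`PT.hat_smul`, `Measure.addHaar_smul` or `lintegral_comp_smul`). -/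
theorem shell_le (n p : ℕ) : ∃ C : ℝ≥0, ∀ (W : Set (E n)) (g : Fr n p → ℝ), MeasurableSet W →
    IsCone W → PT g →
      ∫⁻ z in W ∩ Sh n (1 / 2) 3, ENNReal.ofReal (hat g z) ≤ C * rf W g := by
  have h := EMeas_join (EMeas_join (EMeas_join (EMeas_join (EMeas_join (EMeas_join
    (EMeas_one n p (c := 5 / 2) (by norm_num)) (EMeas_one n p (c := 2) (by norm_num))
    (by norm_num) le_rfl) (EMeas_one n p (c := 3 / 2) (by norm_num)) (by norm_num) le_rfl)
    (EMeas_one n p (c := 10 / 9) (by norm_num)) (by norm_num) le_rfl)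
    (EMeas_one n p (c := 5 / 6) (by norm_num)) (by norm_num) le_rfl)
    (EMeas_one n p (c := 5 / 8) (by norm_num)) (by norm_num) le_rfl)
    (EMeas_one n p (c := 1 / 2) (by norm_num)) (c := 3) (by norm_num) (by norm_num)
  rw [show (5 / 4 / (5 / 2) : ℝ) = 1 / 2 by norm_num] at h
  exact h

theorem rf_le (W : Set (E n)) (hW : MeasurableSet W) {p : ℕ} {g : Fr n p → ℝ} (hg : PT g) :
    rf W g ≤ ∫⁻ z in W ∩ Sh n 1 2, ENNReal.ofReal (hat g z) := by
  have h1 : ∀ x, expNegInvGlue x ≤ 1 := fun x => by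
    unfold expNegInvGlue
    split_ifs with h
    · exact zero_le_one
    · exact Real.exp_le_one_iff.2 (neg_nonpos.2 (inv_nonneg.2 (not_le.1 h).le))
  rw [inter_comm, ← Measure.restrict_restrict (measurableSet_Sh _ _ _),
    ← lintegral_indicator (measurableSet_Sh _ _ _)]
  refine lintegral_mono fun z => ?_
  by_cases hz : z ∈ Sh n 1 2
  · rw [indicator_of_mem hz]
    exact ENNReal.ofReal_le_ofReal (mul_le_of_le_one_left (hg.hat_nonneg z)
      (mul_le_one₀ (h1 _) (expNegInvGlue.nonneg _) (h1 _)))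
  · have h2 : bw z = 0 := by
      have h0 := norm_nonneg z
      rcases not_and_or.1 hz with h | h
      · rw [bw, expNegInvGlue.zero_of_nonpos (by nlinarith [not_lt.1 h]), zero_mul]
      · rw [bw, expNegInvGlue.zero_of_nonpos (x := 4 - _) (by nlinarith [not_lt.1 h]), mul_zero]
    simp [h2]

end Pool.Agent.Lib.MP_a47f92_an
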