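import Pool.Agent.Lib.MP_a47f92_an.G.ESpd
import Pool.Agent.Lib.MP_a47f92_an.G.ECut
import Pool.Agent.Lib.MP_a47f92_an.G.BlkD
import Pool.Agent.Lib.MP_a47f92_an.Dc.Main

set_option autoImplicit false
set_option linter.unusedSectionVars false

namespace Pool.Agent.Lib.MP_a47f92_an

open MeasureTheory Filter Topology Set Complex Metric Function
open scoped ContDiff ComplexConjugate ComplexOrder Matrix ENNReal NNReal

/-! The disc count in one tube. -/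

variable {n s d : ℕ} {F : E n → E n}

theorem mI_sum {U : Set (E (s + 1))} (hU : IsOpen U) {u : ℕ → E (s + 1) → ℝ} {Q : E (s + 1) → ℝ}
    (N : ℕ) (hu : ∀ j, SP U (u j)) (hQ : SP U Q) :
    SP U (fun y => ∑ j ∈ Finset.range N, u j y) ∧
      mI U (fun y => ∑ j ∈ Finset.range N, u j y) Q = ∑ j ∈ Finset.range N, mI U (u j) Q := by
  induction N with
  | zero =>
    have e : (fun y => ∑ j ∈ Finset.range 0, u j y) = fun y => 0 * Q y := by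
      funext y
      rw [Finset.sum_range_zero, zero_mul]
    rw [e, mI_const_mul le_rfl, ENNReal.ofReal_zero, zero_mul, Finset.sum_range_zero]
    exact ⟨hQ.const_mul le_rfl, rfl⟩
  | succ N ih =>
    simp only [Finset.sum_range_succ]
    rw [mI_add hU ih.1 (hu N) hQ, ih.2]
    exact ⟨ih.1.add hU (hu N), rfl⟩

/-- `mI_add`, `mI_const_mul`, `mI_sum`, `PL.sp_comp`, `pl_pe`. -/
theorem mI_ut (hF : IsLift d F) (hd : 1 ≤ d) (ℓ : E n →L[ℂ] E (s + 1)) (w m N : ℕ) {c c' : ℝ}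
    (hc : 0 ≤ c) (hc' : 0 ≤ c') {U : Set (E (s + 1))} (hU : IsOpen U) {Φ : E (s + 1) → E n}
    (hΦ : Dc.NV Φ U) {Q : E (s + 1) → ℝ} (hQ : SP U Q) :
    mI U (fun y => ut d F ℓ w m N c c' (Φ y)) Q =
      mI U (fun y => pe d F ℓ m (F^[w] (Φ y))) Q +
        ENNReal.ofReal c * mI U (Dc.lf fun y => F^[w + m] (Φ y)) Q +
        ENNReal.ofReal c' * ∑ j ∈ Finset.range N, mI U (Dc.lf fun y => F^[j] (Φ y)) Q := by
  have h1 : SP U fun y => pe d F ℓ m (F^[w] (Φ y)) :=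
    (pl_pe hF hd ℓ m).sp_comp ((hF.iterate w).nv_comp hΦ)
  have h2 : ∀ j, SP U (Dc.lf fun y => F^[j] (Φ y)) := fun j => sp_lf ((hF.iterate j).nv_comp hΦ)
  have h3 := mI_sum hU N h2 hQ
  have h4 := mI_add hU (h1.add hU ((h2 (w + m)).const_mul hc)) (h3.1.const_mul hc') hQ
  rw [mI_add hU h1 ((h2 (w + m)).const_mul hc) hQ, mI_const_mul hc, mI_const_mul hc', h3.2] at h4
  exact h4

/-- `|LL Ξ χ y| ≤ C * LL Ξ (lf X + tq) y` (`levi_add`), `tot_le`, `mI_add`. -/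
theorem err_le {X : E (s + 1) → E n} {ℓ : E n →L[ℂ] E (s + 1)} {R ρ M r c C : ℝ} (hℓ : ‖ℓ‖ ≤ 1)
    (hX : Dc.NV X (Tb s R ρ)) {Q χ : E (s + 1) → ℝ} (hc : 0 ≤ c) (hC : 0 ≤ C)
    (hQ : ∀ y ∈ Tb s R ρ, Dc.lf X y = c * Q y) (hQ' : SP (Tb s R ρ) Q)
    (hχ : ∀ y ∈ Om X ℓ R ρ M, ‖y 0‖ < r → ∀ v,
      |levi χ y v| ≤ C * (levi (Dc.lf X) y v + levi Dc.tq y v)) :
    ∫⁻ y in Om X ℓ R ρ M ∩ {y | ‖y 0‖ < r}, ENNReal.ofReal |LL (Xi fun y => ℓ (X y)) χ y| ≤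
      ENNReal.ofReal C * (ENNReal.ofReal ((2048 * M ^ 4) ^ s * c ^ s) *
        (mI (Tb s R ρ) (Dc.lf X) Q + mI (Tb s R ρ) Dc.tq Q)) := by
  have hU := isOpen_Tb s R ρ
  have h1 := sp_lf hX
  have h2 := sp_tq (Tb s R ρ)
  have hm : MeasurableSet (Om X ℓ R ρ M ∩ {y | ‖y 0‖ < r}) :=
    ((isOpen_Om hX ℓ M).inter (isOpen_lt contDiff_co0.continuous.norm continuous_const)).measurableSet
  rw [← mI_add hU h1 h2 hQ']
  refine le_trans ?_ (mul_le_mul_right (tot_le hℓ hX hc hQ (h1.add hU h2) fun _ _ _ => rfl) _)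
  rw [Dc.tot, ← lintegral_const_mul' _ _ ENNReal.ofReal_ne_top]
  refine le_trans (setLIntegral_mono' hm fun y hy => ?_) (lintegral_mono_set inter_subset_left)
  have hn := hU.mem_nhds hy.1.1
  rw [← ENNReal.ofReal_mul hC, LL, LL, levi_add ((h1.sm.contDiffAt hn).of_le GW2_two)
    ((h2.sm.contDiffAt hn).of_le GW2_two)]
  exact ENNReal.ofReal_le_ofReal (hχ y hy.1 hy.2 _)

theorem EOne_arith {T a b x q z e c μ κ t₁ t₂ t₃ t₄ I : ℝ≥0∞} (h₁ : t₁ ≤ T * (a + b))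
    (h₂ : t₂ ≤ T * x) (h₃ : t₃ ≤ T * q) (h₄ : t₄ ≤ T * z) (hI : I ≤ c * (T * (x + q)))
    (hκ : 1 + e * c ≤ κ) :
    t₁ + t₂ + t₃ + μ * t₄ + e * I ≤ T * (a + κ * x + μ * z + b + κ * q) :=
  calc t₁ + t₂ + t₃ + μ * t₄ + e * I
      ≤ T * (a + b) + T * x + T * q + μ * (T * z) + e * (c * (T * (x + q))) := by gcongr
    _ = T * (a + (1 + e * c) * x + μ * z + b + (1 + e * c) * q) := by ring
    _ ≤ _ := by gcongr

theorem EOne_const {C L k D t u : ℝ} (hC : 0 ≤ C) (hL : 0 ≤ L) (hD : 0 ≤ D)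
    (ht : 1 ≤ t) (hu : u ≤ t) :
    1 + (1 + (L + t * k) + u * D) * C ≤ (1 + C * (1 + L + k + D)) * t := by
  have h1 : 1 + (L + t * k) + u * D ≤ (1 + L + k + D) * t := by
    nlinarith [mul_le_mul_of_nonneg_right hu hD, mul_le_mul_of_nonneg_left ht hL]
  nlinarith [mul_le_mul_of_nonneg_right h1 hC]

theorem EOne_ctr (hF : IsLift d F) {i w m : ℕ} {ℓ : E n →L[ℂ] E (s + 1)} (A : E (n * n))
    {b : E n} {J : Fin s → Fin n} {R ρ M K : ℝ} (hR : 0 < R) (hρ : 0 < ρ)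
    (h : Fat b J (3 * ρ)) {x : E s} (hx : ‖x‖ ≤ ρ)
    (hc : Zb b J (cs 0 x) ∈ Cn d F i w m ℓ J M K) :
    tX F (w + m) i A b J (cs 0 x) = F^[w + m + i] (Zb b J (cs 0 x)) ∧
      ‖tX F (w + m) i A b J (cs 0 x)‖ ≤ M * ‖ℓ (tX F (w + m) i A b J (cs 0 x)) 0‖ ∧
      cs 0 x ∈ Om (tX F (w + m) i A b J) ℓ R (3 * ρ) M := by
  have h1 : tX F (w + m) i A b J (cs 0 x) = F^[w + m + i] (Zb b J (cs 0 x)) := by
    rw [tX, Ph_cs, iterate_add_apply F (w + m) i]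
  have h2 : cs 0 x ∈ Tb s R (3 * ρ) := by
    refine ⟨?_, ?_⟩
    · rw [Dc.cs_zero, norm_zero]
      exact hR
    · rw [Dc.tl_cs]
      linarith
  have h3 : ‖tX F (w + m) i A b J (cs 0 x)‖ ≤ M * ‖ℓ (tX F (w + m) i A b J (cs 0 x)) 0‖ := by
    rw [h1, show w + m + i = i + w + m by omega]
    exact hc.1
  have h4 : 0 < ‖tX F (w + m) i A b J (cs 0 x)‖ := by
    rw [h1]
    exact norm_pos_iff.2 ((hF.iterate _).ne (h.ne h2))
  exact ⟨h1, h3, h2, by linarith⟩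

theorem EOne_levi {U : Set (E (s + 1))} (hU : IsOpen U) {u u' : E (s + 1) → ℝ} {c : ℝ}
    (h : ∀ y ∈ U, u' y = u y + c) {y : E (s + 1)} (hy : y ∈ U) (v : E (s + 1)) :
    levi u' y v = levi u y v := by
  rw [levi, levi, ← hess_add_const c u y,
    (hess_congr (eventually_of_mem (hU.mem_nhds hy) h)).self_of_nhds]

/-- Apply `Dc.dc_main` with `ε = min (ρ / 2) (4 M)⁻¹`, `X = tX F l i A b J`, `l = w + m`,
`Ξ = tXi F l i ℓ A b J`, `Ω = Om X ℓ (2 r) (3 ρ) M`, `G y = ℓ (X y) 0`, `γ = (s + 1) (1 + d ^ (-l))`,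
`H` from `exists_vec` with the constant `c` of `exists_pot` for `w`, `K + ∑ w < B, c' w` for `K`,
`1 + 4 M` for `M`, `P = (m + i) log d`, `f j = F^[j] ∘ Φ`, `C₀ = C + log (4 M)` (`exists_cmp`,
`log_ratio`), `χ` from `exists_cut` with `Λ = K₀ ^ (l + i + 1)` (`exists_speed`), `η = η₀ / Λ`,
`η₀ = min (min (r / 2) ρ) (75 M ^ 2)⁻¹`. Then `M' = 2 M'_dc` (`sum_LL`, `jac_eq_dl`),
`C = C_dc (2048 M ^ 4) ^ s`, `C' = 1 + C_cut (1 + log ((1 + 4 M) / η₀) + log K₀ + log d)`;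
`jac_tXi`, `tot_le` with `lf_tX`, `err_le`, `mI_ut`, `mI_add`, `sp_phE`. -/
theorem exists_one (hF : IsLift d F) (hd : 2 ≤ d) (s : ℕ) {ρ M : ℝ} (hρ : 0 < ρ) (hM : 1 ≤ M) :
    ∃ C : ℝ, 0 ≤ C ∧ ∀ (r : ℝ) (B : ℕ) (K M₂ : ℝ), 0 < r → r ≤ 1 / 4 → 0 ≤ K → 1 ≤ M₂ →
    ∃ M' C' : ℝ, 0 ≤ M' ∧ 0 ≤ C' ∧ ∀ (i w m N : ℕ) (ℓ : E n →L[ℂ] E (s + 1)) (A : E (n * n))
      (b : E n) (J : Fin s → Fin n) (S : Set (E s)), w < B → N ≤ w + m → Fat b J (3 * ρ) →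
      ‖A‖ ≤ 1 → ‖ℓ‖ ≤ 1 → MeasurableSet S →
      (∀ x ∈ S, ‖x‖ ≤ ρ ∧ Zb b J (cs 0 x) ∈ Cn d F i w m ℓ J M K ∧
        M' < Sz F (w + m) i ℓ J N (Zb b J (cs 0 x)) A) →
      ∫⁻ x in S, ENNReal.ofReal (jz F^[w + m + i] ℓ J (Zb b J (cs 0 x))) ≤
        ENNReal.ofReal (C * ((d : ℝ) ^ (w + m)) ^ s) *
          (mI (Tb s (2 * r) (3 * ρ))
              (fun y => ut d F ℓ w m N (C' * (1 + i + w + m)) M₂⁻¹ (Ph F^[i] A b J y))
              (fun y => green d F (w + m) (Ph F^[i] A b J y)) +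
            mI (Tb s (2 * r) (3 * ρ)) (fun y => phE d F i J (Zb b J y))
              (fun y => green d F (w + m) (Ph F^[i] A b J y)) +
            ENNReal.ofReal (C' * (1 + i + w + m)) * mI (Tb s (2 * r) (3 * ρ)) Dc.tq
              fun y => green d F (w + m) (Ph F^[i] A b J y)) := by
  have hd1 : 1 ≤ d := by omega
  have hM0 : 0 < M := by linarith
  obtain ⟨Cd, hCd, hdc⟩ := Dc.dc_main s (ε := min (ρ / 2) (4 * M)⁻¹) (by positivity)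
  obtain ⟨Cc, hCc, hcut⟩ := exists_cut s hρ hM
  obtain ⟨K₀, hK₀, hspd⟩ := exists_speed hF hd1 s
  obtain ⟨Cm, -, hcmp⟩ := exists_cmp hF hd
  choose c c' hc' hpot using fun w => exists_pot hF hd s hM w
  refine ⟨Cd * (2048 * M ^ 4) ^ s, by positivity, fun r B K M₂ hr hr4 hK hM₂ => ?_⟩
  obtain ⟨M', hM', hmain⟩ := hdc (K + ∑ w ∈ Finset.range B, c' w) r M₂ (Cm + Real.log (4 * M))
    (add_nonneg hK (Finset.sum_nonneg fun w _ => hc' w)) hr hM₂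
  obtain ⟨η₀, hη₀, h₁, h₂, h₃⟩ : ∃ η₀ : ℝ, 0 < η₀ ∧ η₀ ≤ r / 2 ∧ η₀ ≤ ρ ∧ η₀ ≤ (75 * M ^ 2)⁻¹ :=
    ⟨min (min (r / 2) ρ) (75 * M ^ 2)⁻¹, by positivity, (min_le_left _ _).trans (min_le_left _ _),
      (min_le_left _ _).trans (min_le_right _ _), min_le_right _ _⟩
  have hL : 0 ≤ Real.log ((1 + 4 * M) / η₀) :=
    Real.log_nonneg ((one_le_div hη₀).2 (by linarith))
  have hk := Real.log_nonneg hK₀
  have hD : 0 ≤ Real.log d := Real.log_natCast_nonneg d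
  refine ⟨2 * M', 1 + Cc * (1 + Real.log ((1 + 4 * M) / η₀) + Real.log K₀ + Real.log d),
    by positivity, by positivity, fun i w m N ℓ A b J S hw hN hfat hA hℓ hS hx => ?_⟩
  have hR : 2 * r ≤ 1 / 2 := by linarith
  have hU := isOpen_Tb s (2 * r) (3 * ρ)
  have hΦ := nv_Ph (hF.iterate i) hfat hR hA
  have hX : Dc.NV (tX F (w + m) i A b J) (Tb s (2 * r) (3 * ρ)) := (hF.iterate (w + m)).nv_comp hΦ
  have hf : ∀ j, Dc.NV (fun y => F^[j] (Ph F^[i] A b J y)) (Tb s (2 * r) (3 * ρ)) :=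
    fun j => (hF.iterate j).nv_comp hΦ
  have hsub : Om (tX F (w + m) i A b J) ℓ (2 * r) (3 * ρ) M ⊆ Tb s (2 * r) (3 * ρ) :=
    fun _ hy => hy.1
  obtain ⟨NH, H, hH, hHe⟩ := exists_vec hF hd1 w m i ℓ hfat hR hA (c w)
  have hp := hpot w m i ℓ A b J (2 * r) (3 * ρ) NH H hfat hR hA hℓ hHe
  have hΛ : 1 ≤ K₀ ^ (w + m + i + 1) := one_le_pow₀ hK₀
  have hΛ0 : 0 < K₀ ^ (w + m + i + 1) := by linarith
  have hη : η₀ / K₀ ^ (w + m + i + 1) ≤ η₀ := div_le_self hη₀.le hΛ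
  obtain ⟨χ, hχ1, hχ2, hχ3, hχ4, hχ5, hχ6, hχ7⟩ := hcut n _ ℓ r _ (η₀ / K₀ ^ (w + m + i + 1))
    (min (ρ / 2) (4 * M)⁻¹) hr hℓ hX hΛ0.le (hspd (w + m) i A b J _ _ hfat hR hA) (hη.trans h₁)
    (hη.trans h₂) (by
      rw [show 75 * K₀ ^ (w + m + i + 1) * M ^ 2 * (η₀ / K₀ ^ (w + m + i + 1)) =
        75 * M ^ 2 * η₀ by field_simp]
      exact (mul_le_mul_of_nonneg_left h₃ (by positivity)).trans
        (mul_inv_cancel₀ (by positivity)).le) (min_le_left _ _) (min_le_right _ _)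
  have hctr := fun x hx' => EOne_ctr hF A (R := 2 * r) (by linarith) hρ hfat (hx x hx').1
    (hx x hx').2.1
  have hdl := fun x hx' => (hp _ (hctr x hx').2.2).2.2 x K rfl (hx x hx').2.1
  have hm := hmain NH n (tXi F (w + m) i ℓ A b J) _ _ (1 + 4 * M) ((m + i) * Real.log d) H
    (fun y => ℓ (tX F (w + m) i A b J y) 0) _ χ _ (fun j y => F^[j] (Ph F^[i] A b J y)) N S
    ⟨fo_Xi hX ℓ M, hr, by linarith, div_pos hη₀ hΛ0, by linarith, by linarith,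
      fun y hy => norm_Xi_le hℓ (by linarith) hM hy, nv_mono hH hsub,
      fun y hy => ECutA_an (hX.an y hy.1) ℓ, fun y hy => ne_of_mem_Om hy, by positivity,
      fun y hy => (hp y hy).2.1, fun y hy => (hp y hy).1, hχ1, hχ2, hχ3, hχ4, hχ5⟩
    (nv_mono hX hsub)
    (fun j hj => ⟨nv_mono (hf j) hsub, _, fun y hy => hcmp (w + m) j _ _ M (by omega)
      (hΦ.ne y hy.1) hM (log_ratio hℓ hX hy).1 (log_ratio hℓ hX hy).2⟩)
    (fun x hx' => (hctr x hx').2.2)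
    (fun x hx' => hχ7 x (hx x hx').1 (hctr x hx').2.1)
    (fun x hx' => le_trans (Real.exp_le_exp.2 (sub_le_sub_left (add_le_add_right
      (Finset.single_le_sum (fun w _ => hc' w) (Finset.mem_range.2 hw)) K) _)) (hdl x hx'))
    (fun x hx' => by
      have h0 : 0 < ‖dl (tXi F (w + m) i ℓ A b J) (cs 0 x)‖ := (Real.exp_pos _).trans_le (hdl x hx')
      rw [sum_LL hF (w + m) i ℓ A b J N (hfat.ne (hctr x hx').2.2.1)
        (ne_of_mem_Om (hctr x hx').2.2) (norm_pos_iff.1 h0), mul_comm, jac_eq_dl]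
      exact mul_lt_mul_of_pos_left (by linarith [(hx x hx').2.2]) (pow_pos h0 2))
  have hQ : SP (Tb s (2 * r) (3 * ρ)) fun y => green d F (w + m) (Ph F^[i] A b J y) :=
    (pl_green hF hd1 _).sp_comp hΦ
  have hc0 : (0 : ℝ) ≤ (d : ℝ) ^ (w + m) := by positivity
  have hXQ := fun y (_ : y ∈ Tb s (2 * r) (3 * ρ)) => lf_tX hd1 F (w + m) i A b J y
  have hpe : SP (Tb s (2 * r) (3 * ρ)) fun y => pe d F ℓ m (F^[w] (Ph F^[i] A b J y)) :=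
    (pl_pe hF hd1 ℓ m).sp_comp (hf w)
  have hph := sp_phE hF hd1 i hfat (2 * r)
  have t₁ := tot_le (M := M) hℓ hX hc0 hXQ (hpe.add hU hph) fun y hy => EOne_levi hU hHe hy.1
  rw [mI_add hU hpe hph hQ] at t₁
  have t₄ := Finset.sum_le_sum fun j (_ : j ∈ Finset.range N) =>
    tot_le (M := M) hℓ hX hc0 hXQ (sp_lf (hf j)) fun _ _ _ => rfl
  rw [← Finset.mul_sum] at t₄
  have hlog : Real.log ((1 + 4 * M) / (η₀ / K₀ ^ (w + m + i + 1))) =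
      Real.log ((1 + 4 * M) / η₀) + (1 + i + w + m) * Real.log K₀ := by
    rw [div_div_eq_mul_div, mul_div_right_comm, Real.log_mul (by positivity) hΛ0.ne', Real.log_pow]
    push_cast
    ring
  rw [← setLIntegral_congr_fun hS fun x hx' => congrArg ENNReal.ofReal
      (jac_tXi hF (w + m) i ℓ A b J ((hctr x hx').1 ▸ ne_of_mem_Om (hctr x hx').2.2)),
    mI_ut hF hd1 ℓ w m N (by positivity) (by positivity) hU hΦ hQ, mul_assoc Cd,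
    ENNReal.ofReal_mul (by linarith : 0 ≤ Cd), mul_assoc]
  refine hm.trans (mul_le_mul_right (EOne_arith t₁
    (tot_le hℓ hX hc0 hXQ (sp_lf hX) fun _ _ _ => rfl)
    (tot_le hℓ hX hc0 hXQ (sp_tq _) fun _ _ _ => rfl) t₄
    (err_le hℓ hX hc0 hCc.le hXQ hQ hχ6) ?_) _)
  rw [hlog, ← ENNReal.ofReal_mul (by positivity), ← ENNReal.ofReal_one,
    ← ENNReal.ofReal_add zero_le_one (by positivity)]
  have hi : (0 : ℝ) ≤ i := i.cast_nonneg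
  have hw' : (0 : ℝ) ≤ w := w.cast_nonneg
  have hm' : (0 : ℝ) ≤ m := m.cast_nonneg
  exact ENNReal.ofReal_le_ofReal (EOne_const hCc.le hL hD (by linarith) (by linarith))

end Pool.Agent.Lib.MP_a47f92_an
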