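import Pool.Agent.Lib.MP_a47f92_an.G.EUp
import Pool.Agent.Lib.MP_a47f92_an.G.AC
import Pool.Agent.Lib.MP_a47f92_an.G.Kern

set_option autoImplicit false
set_option linter.unusedSectionVars false

namespace Pool.Agent.Lib.MP_a47f92_an

open MeasureTheory Filter Topology Set Complex Metric Function
open scoped ContDiff ComplexConjugate ComplexOrder Matrix ENNReal NNReal

/-! The speed of the leaf discs at the centre. -/

variable {n s d : ℕ} {F : E n → E n}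

theorem ESpd_half {X : Type} [MeasurableSpace X] (μ : Measure X) [IsProbabilityMeasure μ]
    {S : Set X} (h : μ Sᶜ ≤ 1 / 2) : 1 / 2 ≤ μ S := by
  have h1 : (1 : ℝ≥0∞) / 2 + 1 / 2 ≤ μ S + 1 / 2 := by
    rw [ENNReal.add_halves]
    exact (measure_univ (μ := μ)).symm.le.trans
      ((measure_univ_le_add_compl S).trans (add_le_add le_rfl h))
  exact ENNReal.le_of_add_le_add_right (by simp) h1

theorem ESpd_Bm (G : E n → E n) (z v : E n) :
    Bm G z v = ((‖z‖ / ‖G z‖ : ℝ) : ℂ) • prj (un (G z)) (fderiv ℂ G z v) := rfl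

theorem ESpd_prj {D : ℕ} {G : E n → E n} (hG : IsLift D G) {z : E n} (hz : z ≠ 0) (v : E n) :
    Bm G z (prj (un z) v) = Bm G z v := by
  obtain ⟨c, hc⟩ := sub_prj_un z v
  conv_rhs => rw [hc]
  rw [map_add, map_smul, ESpd_Bm G z z, hG.euler, map_smul, prj_un_self (hG.ne hz), smul_zero,
    smul_zero, smul_zero, add_zero]

theorem ESpd_un {z : E n} (hz : z ≠ 0) : ((‖z‖ : ℝ) : ℂ) • un z = z := by
  rw [un, Complex.coe_smul, smul_smul, mul_inv_cancel₀ (norm_ne_zero_iff.2 hz), one_smul]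

theorem ESpd_al {D : ℕ} {G : E n → E n} (hG : IsLift D G) (J : Fin s → Fin n) {z : E n}
    (hz : z ≠ 0) : al G J z ≤ ‖plk (fr G z (evs J))‖ * (‖z‖ ^ s / ‖G z‖ ^ (s + 1)) := by
  have h : ‖G z‖ ≠ 0 := norm_ne_zero_iff.2 (hG.ne hz)
  have h1 : (s + 1) * al G J z ^ 2 =
      (‖plk (fr G z (evs J))‖ * (‖z‖ ^ s / ‖G z‖ ^ (s + 1))) ^ 2 := by
    rw [mul_pow, fr, norm_plk_cons (hG.ne hz), al]
    simp only [ESpd_Bm, plk_smul, norm_smul, norm_pow, norm_real, norm_div, norm_norm, div_pow]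
    field_simp
    ring
  refine le_of_sq_le_sq ?_ (by positivity)
  rw [← h1]
  exact le_mul_of_one_le_left (sq_nonneg _) (le_add_of_nonneg_left (Nat.cast_nonneg s))

theorem ESpd_levi {D : ℕ} {G : E n → E n} (hG : IsLift D G) {Φ : E (s + 1) → E n} {y : E (s + 1)}
    (hΦ : AnalyticAt ℂ Φ y) (h0 : Φ y ≠ 0) {v : E (s + 1)} {c : ℂ} {u : E n}
    (hv : fderiv ℂ Φ y v = c • ((‖Φ y‖ : ℝ) : ℂ) • u) :
    levi (Dc.lf fun y => G (Φ y)) y v = ‖c‖ ^ 2 * (‖Bm G (Φ y) u‖ ^ 2 / 2) := by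
  have h1 : ContDiffAt ℂ 2 (fun y => G (Φ y)) y :=
    (hG.contDiff.contDiffAt.of_le GW2_two).comp y hΦ.contDiffAt
  have h2 : G (Φ y) ≠ 0 := hG.ne h0
  have h3 : ‖G (Φ y)‖ ≠ 0 := norm_ne_zero_iff.2 h2
  have h4 : ContDiffAt ℝ 2 (Dc.lf fun y => G (Φ y)) y :=
    ((h1.restrict_scalars ℝ).norm ℂ h2).log h3
  have h5 : fderiv ℂ (fun y => G (Φ y)) y v = fderiv ℂ G (Φ y) (fderiv ℂ Φ y v) := by
    rw [fderiv_fun_comp y (hG.differentiable _) hΦ.differentiableAt]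
    rfl
  rw [← lap_eq_levi h4]
  refine (lap_log_norm h1 h2 v).trans ?_
  rw [h5, hv, ESpd_Bm]
  simp only [map_smul, norm_smul, norm_real, norm_div, norm_norm]
  field_simp

/-- `wv_Xi`, `map_pj` with `S = fderiv Φ`, `fderiv_Ph`, `fderiv_Zb`, `lap_log_norm`; `pj` is linear
(`exists_pj_clm`), `F^[a] z = ‖F^[a] z‖ • un (F^[a] z)`. -/
theorem sum_LL (hF : IsLift d F) (l a : ℕ) (ℓ : E n →L[ℂ] E (s + 1)) (A : E (n * n)) (b : E n)
    (J : Fin s → Fin n) (N : ℕ) {x : E s} (hz : Zb b J (cs 0 x) ≠ 0)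
    (h0 : ℓ (tX F l a A b J (cs 0 x)) 0 ≠ 0) (h1 : dl (tXi F l a ℓ A b J) (cs 0 x) ≠ 0) :
    ∑ j ∈ Finset.range N, LL (tXi F l a ℓ A b J) (Dc.lf fun y => F^[j] (Ph F^[a] A b J y))
        (cs 0 x) =
      jac (tXi F l a ℓ A b J) (cs 0 x) * (Sz F l a ℓ J N (Zb b J (cs 0 x)) A / 2) := by
  have ha := hF.iterate a
  have hΦ : AnalyticAt ℂ (Ph F^[a] A b J) (cs 0 x) := analytic_Ph ha A b J _ (mem_univ _)
  have e0 : Ph F^[a] A b J (cs 0 x) = F^[a] (Zb b J (cs 0 x)) := Ph_cs _ A b J x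
  have hX : F^[a] (Zb b J (cs 0 x)) ≠ 0 := ha.ne hz
  have hd : HasFDerivAt (fun y => ℓ (tX F l a A b J y))
      ((ℓ.comp (fderiv ℂ F^[l] (F^[a] (Zb b J (cs 0 x))))).comp
        (fderiv ℂ (Ph F^[a] A b J) (cs 0 x))) (cs 0 x) := by
    rw [← e0]
    exact (ℓ.hasFDerivAt.comp _ ((hF.iterate l).differentiable _).hasFDerivAt).comp (cs 0 x)
      hΦ.differentiableAt.hasFDerivAt
  have e1 : (cs 0 x : E (s + 1)) 0 = 0 := rfl
  have e2 : fderiv ℂ (Ph F^[a] A b J) (cs 0 x) (ev 0) =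
      ((‖F^[a] (Zb b J (cs 0 x))‖ : ℝ) : ℂ) • mt n n A (un (F^[a] (Zb b J (cs 0 x)))) := by
    rw [fderiv_Ph ha, (fderiv_Zb b J _).1, map_zero, map_zero, add_zero, Mt_ev_apply, if_pos rfl,
      one_smul, ← map_smul, ESpd_un hX]
  have e3 : (fun j : Fin s => fderiv ℂ (Ph F^[a] A b J) (cs 0 x) (ev j.succ)) =
      fun j => fderiv ℂ F^[a] (Zb b J (cs 0 x)) (ev (J j)) := by
    funext j
    rw [fderiv_Ph ha, (fderiv_Zb b J _).2, e1, Tm_zero, Mt_ev_apply,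
      if_neg (Fin.succ_ne_zero j).symm, zero_smul, zero_add]
    rfl
  have hv : fderiv ℂ (Ph F^[a] A b J) (cs 0 x) (wv (tXi F l a ℓ A b J) (cs 0 x)) =
      dl (tXi F l a ℓ A b J) (cs 0 x) • ((‖Ph F^[a] A b J (cs 0 x)‖ : ℝ) : ℂ) •
        pz F l a ℓ J (Zb b J (cs 0 x)) (mt n n A (un (F^[a] (Zb b J (cs 0 x))))) := by
    obtain ⟨P, hP⟩ := exists_pj_clm (ℓ.comp (fderiv ℂ F^[l] (F^[a] (Zb b J (cs 0 x)))))
      (ℓ (F^[l] (F^[a] (Zb b J (cs 0 x))))) fun j => fderiv ℂ F^[a] (Zb b J (cs 0 x)) (ev (J j))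
    rw [tXi, wv_Xi hd.differentiableAt h0 h1, map_smul, hd.fderiv, map_pj, e3, e2, tX, e0, pz,
      ← hP, ← hP, map_smul]
  rw [Sz, QJ, Finset.sum_div, Finset.mul_sum]
  refine Finset.sum_congr rfl fun j _ => ?_
  rw [LL, ESpd_levi (hF.iterate j) hΦ (e0 ▸ hX) hv, e0, jac_eq_dl]

/-- Let `X = F^[a] z`. The subspace `V` of `exists_ker_rw` contains `X` (`IsLift.euler`,
`rw_eq_zero`), so some `v ∈ V` has `M ‖prj (un X) v‖ ^ 2 < QJ F N X v`. Since `Bm F^[j] X` kills `X`,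
`v' = prj (un X) v ∈ V` is not zero and the unit vector `u = v' / ‖v'‖` has `M ≤ QJ F N X u`. Apply
`ac_lin` to `L j = Bm F^[j] X ∘ P ∘ (A ↦ mt n n A (un X))` at the rank one matrix given by
`exists_mt_rank_one`, `pj_eq_self`; then `kmu_le`. -/
theorem exists_half (κ : KM n) : ∃ δ : ℝ, 0 < δ ∧ ∀ (d s : ℕ) (F : E n → E n) (l a : ℕ)
    (ℓ : E n →L[ℂ] E (s + 1)) (J : Fin s → Fin n) (N : ℕ) (z : E n) (M : ℝ), IsLift d F → 0 < M →
      z ≠ 0 → F^[a] z ∉ CJ F s N M → 1 / 2 ≤ kmu κ {A | δ * M < Sz F l a ℓ J N z A} := by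
  obtain ⟨C, hC⟩ := kmu_le κ
  have hε : (((2 * (C + 1))⁻¹ : ℝ≥0) : ℝ≥0∞) ≠ 0 := ENNReal.coe_ne_zero.2 (by positivity)
  obtain ⟨δ, h0, -, h⟩ := ac_lin (n * n) hε
  refine ⟨δ, h0, fun d s F l a ℓ J N z M hF hM hz hX => ESpd_half _ ?_⟩
  have hX0 : F^[a] z ≠ 0 := (hF.iterate a).ne hz
  unfold Sz pz
  generalize (fun j => fderiv ℂ F^[a] z (ev (J j))) = k
  generalize F^[a] z = X at hX hX0
  obtain ⟨V, hV, hm⟩ := exists_ker_rw (ℓ.comp (fderiv ℂ F^[l] X)) (ℓ (F^[l] X))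
  obtain ⟨P, hP⟩ := exists_pj_clm (ℓ.comp (fderiv ℂ F^[l] X)) (ℓ (F^[l] X)) k
  have hXV : X ∈ V := (hm X).2 (rw_eq_zero (c := ((d ^ l : ℕ) : ℂ)) (by
    rw [ContinuousLinearMap.comp_apply, (hF.iterate l).euler, map_smul]))
  obtain ⟨v, hv, h1⟩ : ∃ v ∈ V, M * ‖prj (un X) v‖ ^ 2 < QJ F N X v := by
    by_contra hc
    exact hX (Or.inr ⟨V, hXV, hV, fun v hv => le_of_not_gt fun h1 => hc ⟨v, hv, h1⟩⟩)
  have h2 : QJ F N X v = QJ F N X (prj (un X) v) :=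
    Finset.sum_congr rfl fun j _ => by rw [ESpd_prj (hF.iterate j) hX0]
  have h3 : prj (un X) v ∈ V := by
    obtain ⟨c, hc⟩ := sub_prj_un X v
    rw [eq_sub_of_add_eq hc.symm]
    exact V.sub_mem hv (V.smul_mem c hXV)
  rw [h2] at h1
  generalize prj (un X) v = u at h1 h3
  have hu : u ≠ 0 := by
    rintro rfl
    simp [QJ] at h1
  have hu' : 0 < ‖u‖ ^ 2 := by positivity
  have h4 : QJ F N X u = QJ F N X (un u) * ‖u‖ ^ 2 := by
    conv_lhs => rw [← ESpd_un hu]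
    simp only [QJ, map_smul, norm_smul, norm_real, norm_norm, mul_pow, Finset.sum_mul]
    exact Finset.sum_congr rfl fun j _ => mul_comm _ _
  have h5 : un u ∈ V := by
    rw [un, ← Complex.coe_smul]
    exact V.smul_mem _ h3
  obtain ⟨B, hB, hB'⟩ := exists_mt_rank_one (un u) (un X)
  have h6 : mt n n B (un X) = un u := by
    rw [hB, inner_self_eq_norm_sq_to_K, norm_un hX0]
    simp
  have h7 := h n N (fun j => (Bm F^[j] X).comp (P.comp ((mt n n).flip (un X)))) M B hM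
    (by rw [hB', norm_un hu, norm_un hX0, one_mul]) (by
      simp only [ContinuousLinearMap.comp_apply, ContinuousLinearMap.flip_apply, h6, hP,
        pj_eq_self ((hm _).1 h5)]
      rw [h4] at h1
      exact (lt_of_mul_lt_mul_right h1 hu'.le).le)
  simp only [ContinuousLinearMap.comp_apply, ContinuousLinearMap.flip_apply, hP] at h7
  refine (Measure.le_iff'.1 hC _).trans ?_
  rw [Measure.coe_nnreal_smul_apply]
  refine (mul_le_mul' le_rfl ((measure_mono fun A hA => ?_).trans h7)).trans ?_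
  · simp only [mem_compl_iff, mem_ofPred_eq, not_lt] at hA
    exact hA
  · have h8 : C * (2 * (C + 1))⁻¹ ≤ 1 / 2 := by
      rw [← div_eq_mul_inv, div_le_div_iff₀ (by positivity) two_pos, one_mul, mul_comm]
      exact mul_le_mul' le_rfl le_self_add
    rw [← ENNReal.coe_mul]
    refine (ENNReal.coe_le_coe.2 h8).trans (le_of_eq ?_)
    rw [ENNReal.coe_div two_ne_zero]
    rfl

/-- `ac_det` for the frame `fr F^[L] z (evs J)` (if its Plücker vector vanishes then `al = 0`), and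
`ac_row`, both with `ε = 1 / 8`; `norm_plk_cons` compares `‖plk (fr …)‖` with `al`. -/
theorem exists_leaves (n s : ℕ) (hn : 0 < n) : ∃ δ M : ℝ, 0 < δ ∧ 1 ≤ M ∧ ∀ (d : ℕ) (F : E n → E n)
    (i w m : ℕ) (K : ℝ) (J : Fin s → Fin n) (z : E n), IsLift d F → 1 ≤ d → z ≠ 0 →
      z ∈ Ok d s F i w m K J → 1 / 2 ≤ ub ((s + 1) * n)
        {ℓ | z ∈ Cn d F i w m (mt (s + 1) n ℓ) J M K ∧
          δ * al F^[i + w + m] J z ≤ ‖th (mt (s + 1) n ℓ) F^[i + w + m] z (evs J)‖} := by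
  have hε : (1 / 2 / 2 / 2 : ℝ≥0∞) ≠ 0 := by simp
  obtain ⟨δ, h0, -, h⟩ := ac_det n (s + 1) hn hε
  obtain ⟨δ', h0', h1', h'⟩ := ac_row n s hε
  refine ⟨δ, δ'⁻¹, h0, (one_le_inv₀ h0').2 h1', fun d F i w m K J z hF _ hz hO => ESpd_half _ ?_⟩
  have hG := hF.iterate (i + w + m)
  have h1 := ESpd_al hG J hz
  have h2 := h' _ (hG.ne hz)
  have h3 := hO.2
  have h4 : ub ((s + 1) * n) {ℓ | ‖th (mt (s + 1) n ℓ) F^[i + w + m] z (evs J)‖ <
      δ * al F^[i + w + m] J z} ≤ 1 / 2 / 2 / 2 := by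
    by_cases hp : plk (fr F^[i + w + m] z (evs J)) = 0
    · rw [hp, norm_zero, zero_mul] at h1
      refine (measure_mono (t := ∅) fun ℓ hℓ => ?_).trans (by simp)
      exact absurd (lt_of_lt_of_le hℓ (mul_nonpos_of_nonneg_of_nonpos h0.le h1))
        (not_lt.2 (norm_nonneg _))
    · refine le_trans (measure_mono fun ℓ hℓ => ?_) (h _ hp)
      by_contra hc
      simp only [mem_ofPred_eq, not_le] at hc hℓ
      refine absurd hℓ (not_lt.2 ((mul_le_mul_of_nonneg_left h1 h0.le).trans ?_))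
      rw [th, norm_mul, norm_real, Real.norm_of_nonneg (by positivity), ← mul_assoc]
      exact mul_le_mul_of_nonneg_right hc.le (by positivity)
  have h5 : (1 : ℝ≥0∞) / 4 = 1 / 2 / 2 := by
    rw [one_div, one_div, div_eq_mul_inv, ← ENNReal.mul_inv (by simp) (by simp)]
    norm_num
  rw [h5] at h3
  refine le_trans (measure_mono fun ℓ hℓ => ?_) ((measure_union_le _ _).trans
    ((add_le_add ((measure_union_le _ _).trans (add_le_add h4 h2)) h3).trans (le_of_eq ?_)))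
  · by_contra hc
    simp only [mem_union, mem_ofPred_eq, not_or, not_lt, not_le] at hc
    refine hℓ ⟨⟨?_, hc.2⟩, hc.1.1⟩
    rw [inv_mul_eq_div, le_div_iff₀ h0', mul_comm]
    exact hc.1.2.le
  · rw [ENNReal.add_halves, ENNReal.add_halves]

end Pool.Agent.Lib.MP_a47f92_an
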