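import Pool.Agent.Lib.MP_a47f92_an.G.NF

set_option autoImplicit false
set_option linter.unusedSectionVars false

namespace Pool.Agent.Lib.MP_a47f92_an

open MeasureTheory Filter Topology Set Complex Metric Function
open scoped ContDiff ComplexConjugate ComplexOrder Matrix ENNReal NNReal

/-! Examples of continuous forms. -/

variable {n p d : ℕ} {q : Fin p → E n → ℝ} {a b : E n → ℂ} {F : E n → E n} {g g' : Fr n p → ℂ}

theorem continuous_fw (hF : IsLift d F) : Continuous (fw F : Fr n p → Fr n p) := by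
  have h1 : Continuous fun x : Fr n p => fderiv ℂ F x.1 :=
    (hF.contDiff.continuous_fderiv (by simp)).comp continuous_fst
  exact (hF.contDiff.continuous.comp continuous_fst).prodMk
    (continuous_pi fun j => h1.clm_apply ((continuous_apply j).comp continuous_snd))

theorem fw_comp {d' : ℕ} {G : E n → E n} (hF : IsLift d F) (hG : IsLift d' G) (x : Fr n p) :
    fw (F ∘ G) x = fw F (fw G x) := by
  simp only [fw, fderiv_comp x.1 (hF.differentiable _) (hG.differentiable _),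
    ContinuousLinearMap.comp_apply, comp_apply]

theorem fw_id (x : Fr n p) : fw id x = x := by
  simp only [fw, fderiv_id, ContinuousLinearMap.id_apply, id]

theorem continuous_lin : Continuous fun y : (E n →L[ℂ] E n) × Fr n p => lin y.1 y.2 :=
  (continuous_fst.clm_apply continuous_snd.fst).prodMk
    (continuous_pi fun j => continuous_fst.clm_apply
      ((continuous_apply j).comp continuous_snd.snd))

theorem continuous_su :
    Continuous fun y : (E n →L[ℂ] E n) × (E n →L[ℂ] E n) × Fr n p => su y.1 y.2.1 y.2.2 := by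
  refine (continuous_fst.clm_apply continuous_snd.snd.fst).prodMk (continuous_pi fun j => ?_)
  refine Fin.cases ?_ (fun j => ?_) j
  · exact continuous_snd.fst.clm_apply continuous_snd.snd.fst
  · exact continuous_fst.clm_apply ((continuous_apply j).comp continuous_snd.snd.snd)

theorem Tst_two (hF : IsLift d F) (z : E n) : ContDiffAt ℂ 2 F z :=
  hF.contDiff.contDiffAt.of_le GW2_two

theorem Tst_ic2 (ha : IC a) {z : E n} (hz : z ≠ 0) : ContDiffAt ℝ 2 a z :=
  (ha.contDiffAt hz).of_le GW2_two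

theorem lv_fw {D : ℝ} {u : E n → ℝ} (hu : LH D u) (hF : IsLift d F) {x : Fr n p} (hx : x.1 ≠ 0) :
    lv (fun z => u (F z)) x = lv u (fw F x) :=
  gl_comp (a := rc u) (u := x.2) (Tst_two hF x.1) (contDiffAt_rc (hu.contDiffAt2 (hF.ne hx)))

theorem Tst_lv_fw (hq : Pots q) (hF : IsLift d F) {x : Fr n p} (hx : x.1 ≠ 0) :
    (fun l => lv (fun z => q l (F z)) x) = fun l => lv (q l) (fw F x) :=
  funext fun l => (hq l).elim fun _ h => lv_fw h hF hx

theorem dc_fw (hq : Pots q) (hF : IsLift d F) {x : Fr n p} (hx : x.1 ≠ 0) :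
    dc (fun l z => q l (F z)) x = dc q (fw F x) :=
  congrArg mdC (Tst_lv_fw hq hF hx)

theorem dn_fw (hq : Pots q) (hF : IsLift d F) (hd : 1 ≤ d) (x : Fr n p) :
    dn (fun l z => q l (F z)) x = dn q (fw F x) := by
  by_cases hx : x.1 = 0
  · have h : (fw F x).1 = 0 := by
      change F x.1 = 0
      rw [hx, hF.zero hd]
    rw [dn, dn, if_pos hx, if_pos h]
  · have h : ¬(fw F x).1 = 0 := hF.ne hx
    rw [dn, dn, if_neg hx, if_neg h, dc_fw hq hF hx]

theorem dx_fw (ha : IC a) (hb : IC b) (hq : Pots q) (hF : IsLift d F) (l : Fin p) {x : Fr n p}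
    (hx : x.1 ≠ 0) :
    dx (fun z => a (F z)) (fun z => b (F z)) (fun l z => q l (F z)) l x = dx a b q l (fw F x) := by
  have h := hF.ne hx
  unfold dx
  rw [Tst_lv_fw hq hF hx, gl_comp (Tst_two hF x.1) (Tst_ic2 hb h),
    gg_comp (hF.differentiable x.1) (GL_d (Tst_ic2 ha h)) (GL_d (Tst_ic2 hb h))]
  rfl

theorem Pots.comp (hq : Pots q) (hF : IsLift d F) : Pots fun l z => q l (F z) :=
  fun l => (hq l).elim fun _ h => ⟨_, h.comp hF⟩

theorem PPs.comp (hq : PPs q) (hF : IsLift d F) : PPs fun l z => q l (F z) :=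
  fun l => (hq l).elim fun _ h => ⟨_, h.comp hF⟩

theorem Pots.update (hq : Pots q) (l : Fin p) {D : ℝ} {u : E n → ℝ} (hu : LH D u) :
    Pots (update q l u) := by
  intro l'
  rcases eq_or_ne l' l with rfl | h
  · exact ⟨D, by rwa [update_self]⟩
  · rw [update_of_ne h]
    exact hq l'

theorem PPs.update (hq : PPs q) (l : Fin p) {D : ℝ} {u : E n → ℝ} (hu : PL D u) :
    PPs (update q l u) := by
  intro l'
  rcases eq_or_ne l' l with rfl | h
  · exact ⟨D, by rwa [update_self]⟩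
  · rw [update_of_ne h]
    exact hq l'

theorem Pots.cons (hq : Pots q) {D : ℝ} {u : E n → ℝ} (hu : LH D u) :
    Pots (Fin.cons u q : Fin (p + 1) → E n → ℝ) :=
  fun l => Fin.cases (motive := fun l => ∃ D, LH D ((Fin.cons u q : Fin (p + 1) → E n → ℝ) l))
    ⟨D, hu⟩ (fun l => hq l) l

theorem PPs.cons (hq : PPs q) {D : ℝ} {u : E n → ℝ} (hu : PL D u) :
    PPs (Fin.cons u q : Fin (p + 1) → E n → ℝ) :=
  fun l => Fin.cases (motive := fun l => ∃ D, PL D ((Fin.cons u q : Fin (p + 1) → E n → ℝ) l))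
    ⟨D, hu⟩ (fun l => hq l) l

theorem dc_eq_dn (hq : Pots q) {x : Fr n p} (hx : x.1 ≠ 0) : dc q x = (dn q x : ℝ) := by
  have h : (dc q x).im = 0 := mdC_im fun l => (hq l).elim fun _ h => h.lv_herm hx
  rw [dn, if_neg hx]
  exact Complex.ext rfl h

theorem dc_update (q : Fin p → E n → ℝ) (l : Fin p) (u : E n → ℝ) (x : Fr n p) :
    dc (update q l u) x = mdC (update (fun l' => lv (q l') x) l (gl (rc u) x.1 x.2)) := by
  unfold dc
  congr 1
  funext l'
  rcases eq_or_ne l' l with rfl | h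
  · rw [update_self, update_self, lv_eq_gl]
  · rw [update_of_ne h, update_of_ne h]

theorem Tst_snd (x : Fr n p) (i : Fin p) : ContDiffAt ℝ ∞ (fun y : Fr n p => y.2 i) x :=
  (contDiff_apply ℝ (E n) i).contDiffAt.comp x contDiffAt_snd

theorem Tst_cgl {f : E n → ℂ} {x : Fr n p} (hf : ContDiffAt ℝ ∞ f x.1) (i j : Fin p) :
    ContinuousAt (fun y : Fr n p => gl f y.1 y.2 i j) x :=
  (contDiffAt_gd_gb_comp (a := fun y : Fr n p => y.1) hf contDiffAt_fst (Tst_snd x i)
    (Tst_snd x j)).continuousAt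

theorem Tst_cgg {x : Fr n p} (ha : ContDiffAt ℝ ∞ a x.1) (hb : ContDiffAt ℝ ∞ b x.1)
    (i j : Fin p) : ContinuousAt (fun y : Fr n p => gg a b y.1 y.2 i j) x :=
  (contDiffAt_gd_comp (a := fun y : Fr n p => y.1) ha contDiffAt_fst
    (Tst_snd x i)).continuousAt.mul (contDiffAt_gb_comp (a := fun y : Fr n p => y.1) hb
      contDiffAt_fst (Tst_snd x j)).continuousAt

/-- Matrix valued functions with the transformation rules of a form of bidegree `(1,1)`. -/
def Tst_M (M : Fr n p → Mat p) : Prop :=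
  (∀ c : ℂ, c ≠ 0 → ∀ x, x.1 ≠ 0 → M (scl c x) = M x) ∧
    (∀ P c x, x.1 ≠ 0 → M (chg P c x) = cong P (M x)) ∧
      ∀ x, x.1 ≠ 0 → ∀ i j, ContinuousAt (fun y => M y i j) x

theorem Tst_md {M : Fin p → Fr n p → Mat p} (h : ∀ l, Tst_M (M l)) :
    Tst fun x => mdC fun l => M l x := by
  refine ⟨⟨fun c hc x hx => ?_, fun P c x hx => ?_⟩, fun x hx => ?_⟩
  · exact congrArg mdC (funext fun l => (h l).1 c hc x hx)
  · rw [← mdC_cong]
    exact congrArg mdC (funext fun l => (h l).2.1 P c x hx)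
  · exact continuousWithinAt_mdC fun l i j => ((h l).2.2 x hx i j).continuousWithinAt

theorem Tst_lv (hq : Pots q) (l : Fin p) : Tst_M (lv (q l) : Fr n p → Mat p) := by
  obtain ⟨D, h⟩ := hq l
  exact ⟨fun c hc x hx => h.lv_scl hc hx, fun P c x hx => h.lv_chg P c hx,
    fun x hx i j => Tst_cgl (contDiffAt_rc (h.contDiffAt hx)) i j⟩

theorem Tst_upd (hq : Pots q) (l : Fin p) {M : Fr n p → Mat p} (hM : Tst_M M) :
    Tst fun x => mdC (update (fun l' => lv (q l') x) l (M x)) := by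
  have h : ∀ l', Tst_M fun x => update (fun l' => lv (q l') x) l (M x) l' := by
    intro l'
    rcases eq_or_ne l' l with rfl | h
    · simpa only [update_self] using hM
    · simpa only [update_of_ne h] using Tst_lv hq l'
  exact Tst_md h


theorem tst_dc (hq : Pots q) : Tst (dc q) := Tst_md (Tst_lv hq)

theorem tst_gl (hq : Pots q) (l : Fin p) (hb : IC b) :
    Tst fun x => mdC (update (fun l' => lv (q l') x) l (gl b x.1 x.2)) :=
  Tst_upd hq l (M := fun x => gl b x.1 x.2) ⟨fun _ hc _ hx => hb.gl_scl hc hx,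
    fun P c _ hx => hb.gl_chg P c hx, fun _ hx i j => Tst_cgl (hb.contDiffAt hx) i j⟩

theorem tst_gg (hq : Pots q) (l : Fin p) (ha : IC a) (hb : IC b) :
    Tst fun x => mdC (update (fun l' => lv (q l') x) l (gg a b x.1 x.2)) :=
  Tst_upd hq l (M := fun x => gg a b x.1 x.2) ⟨fun _ hc _ hx => ha.gg_scl hb hc hx,
    fun P c _ hx => ha.gg_chg hb P c hx,
    fun _ hx i j => Tst_cgg (ha.contDiffAt hx) (hb.contDiffAt hx) i j⟩

theorem Tst.mul_left (h : Tst g) (ha : IC a) : Tst fun x => a x.1 * g x := by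
  refine ⟨⟨fun c hc x hx => ?_, fun P c x hx => ?_⟩, fun x hx => ?_⟩
  · change a (c • x.1) * g (scl c x) = _
    rw [ha.2 c hc x.1 hx, h.alg.hs c hc x hx]
  · change a x.1 * g (chg P c x) = _
    rw [h.alg.hc P c x hx]
    ring
  · exact ((ha.contDiffAt hx).continuousAt.comp continuousAt_fst).continuousWithinAt.mul
      (h.cont x hx)

theorem Tst.add (h : Tst g) (h' : Tst g') : Tst fun x => g x + g' x := by
  refine ⟨⟨fun c hc x hx => ?_, fun P c x hx => ?_⟩, h.cont.add h'.cont⟩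
  · rw [h.alg.hs c hc x hx, h'.alg.hs c hc x hx]
  · rw [h.alg.hc P c x hx, h'.alg.hc P c x hx, mul_add]

theorem Tst_dx_eq (a b : E n → ℂ) (q : Fin p → E n → ℝ) (l : Fin p) (x : Fr n p) :
    dx a b q l x = mdC (update (fun l' => lv (q l') x) l (gg a b x.1 x.2)) +
      a x.1 * mdC (update (fun l' => lv (q l') x) l (gl b x.1 x.2)) := by
  rw [dx, mdC_update_add, mdC_update_smul]

theorem tst_dx (ha : IC a) (hb : IC b) (hq : Pots q) (l : Fin p) : Tst (dx a b q l) := by
  rw [show dx a b q l = _ from funext (Tst_dx_eq a b q l)]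
  exact (tst_gg hq l ha hb).add ((tst_gl hq l hb).mul_left ha)

theorem dx_eq (a b : E n → ℂ) (q : Fin p → E n → ℝ) (l : Fin p) (x : Fr n p) :
    dx a b q l x = mdC (update (fun l' => lv (q l') x) l (gg a b x.1 x.2)) +
      a x.1 * mdC (update (fun l' => lv (q l') x) l (gl b x.1 x.2)) :=
  Tst_dx_eq a b q l x

theorem Tst_fw_scl (hF : IsLift d F) (hd : 1 ≤ d) {c : ℂ} (hc : c ≠ 0) (x : Fr n p) :
    fw F (scl c x) = scl (c ^ d) (fw F x) := by
  refine Prod.ext (hF.hom c x.1) (funext fun j => ?_)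
  change fderiv ℂ F (c • x.1) (c • x.2 j) = c ^ d • fderiv ℂ F x.1 (x.2 j)
  rw [hF.fderiv_smul hd hc, smul_apply, map_smul, smul_smul, ← pow_succ,
    Nat.sub_add_cancel hd]

theorem Tst_fw_chg (hF : IsLift d F) (P : Mat p) (c : Fin p → ℂ) (x : Fr n p) :
    fw F (chg P c x) = chg P (fun j => c j * d) (fw F x) := by
  refine Prod.ext rfl (funext fun j => ?_)
  change fderiv ℂ F x.1 (∑ i, P i j • x.2 i + c j • x.1) =
    ∑ i, P i j • fderiv ℂ F x.1 (x.2 i) + (c j * d) • F x.1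
  simp only [map_add, map_sum, map_smul, hF.euler, smul_smul]

theorem Alg.comp_fw (h : Alg g) (hF : IsLift d F) (hd : 1 ≤ d) : Alg fun x => g (fw F x) := by
  refine ⟨fun c hc x hx => ?_, fun P c x hx => ?_⟩
  · rw [Tst_fw_scl hF hd hc, h.hs _ (pow_ne_zero d hc) _ (hF.ne hx)]
  · rw [Tst_fw_chg hF, h.hc _ _ _ (hF.ne hx)]

theorem Tst.comp_fw (h : Tst g) (hF : IsLift d F) (hd : 1 ≤ d) : Tst fun x => g (fw F x) :=
  ⟨h.alg.comp_fw hF hd, h.cont.comp (continuous_fw hF).continuousOn fun _ hx => hF.ne hx⟩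

/-- The block matrix with blocks `1` and `P`. -/
noncomputable def Tst_blk (P : Mat p) : Mat (p + 1) :=
  Matrix.of (Fin.cons (Fin.cons 1 fun _ => 0) fun i => Fin.cons 0 (P i))

theorem Tst_blk_det (P : Mat p) : (Tst_blk P).det = P.det := by
  rw [Matrix.det_succ_row_zero, Fin.sum_univ_succ]
  have h : (Tst_blk P).submatrix Fin.succ (Fin.succAbove 0) = P := by
    ext i j
    simp [Tst_blk]
  rw [h]
  simp [Tst_blk]

theorem Tst_su_scl (T B : E n →L[ℂ] E n) (c : ℂ) (x : Fr n p) :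
    su T B (scl c x) = scl c (su T B x) := by
  refine Prod.ext (map_smul T c x.1) (funext fun j => ?_)
  refine Fin.cases ?_ (fun j => ?_) j
  · exact map_smul B c x.1
  · exact map_smul T c (x.2 j)

theorem Tst_su_chg (T B : E n →L[ℂ] E n) (P : Mat p) (c : Fin p → ℂ) (x : Fr n p) :
    su T B (chg P c x) = chg (Tst_blk P) (Fin.cons 0 c) (su T B x) := by
  refine Prod.ext rfl (funext fun j => ?_)
  refine Fin.cases ?_ (fun j => ?_) j
  · simp [su, chg, Tst_blk, Fin.sum_univ_succ]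
  · simp [su, chg, Tst_blk, Fin.sum_univ_succ]


/-- `su T B (chg P c x) = chg P' c' (su T B x)` with the block matrix `P' = 1 ⊕ P`. -/
theorem Alg.comp_su {g : Fr n (p + 1) → ℂ} (h : Alg g) {T : E n →L[ℂ] E n} (hT : ∀ z, T z = 0 → z = 0)
    (B : E n →L[ℂ] E n) : Alg fun x : Fr n p => g (su T B x) := by
  refine ⟨fun c hc x hx => ?_, fun P c x hx => ?_⟩
  · rw [Tst_su_scl, h.hs c hc _ fun h0 => hx (hT _ h0)]
  · rw [Tst_su_chg, h.hc _ _ _ fun h0 => hx (hT _ h0), Tst_blk_det]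

end Pool.Agent.Lib.MP_a47f92_an
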