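import Pool.Agent.Lib.MP_a47f92_an.G.ELL
import Pool.Agent.Lib.MP_a47f92_an.G.Mt
import Pool.Agent.Lib.MP_a47f92_an.G.Tst
import Pool.Agent.Lib.MP_a47f92_an.G.PTs

set_option autoImplicit false
set_option linter.unusedSectionVars false

namespace Pool.Agent.Lib.MP_a47f92_an

open MeasureTheory Filter Topology Set Complex Metric Function
open scoped ContDiff ComplexConjugate ComplexOrder Matrix ENNReal NNReal

/-! The tubes: derivatives and pull-backs. -/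

variable {n s d D : ℕ} {F G : E n → E n} {A : E (n * n)} {b : E n} {J : Fin s → Fin n} {R ρ : ℝ}
  {y : E (s + 1)}

/-- The linear part of `Zb`. -/
noncomputable def ETub_L (J : Fin s → Fin n) : E (s + 1) →L[ℂ] E n :=
  ∑ i : Fin s, (EuclideanSpace.proj i.succ : E (s + 1) →L[ℂ] ℂ).smulRight (ev (J i))

theorem ETub_L_apply (J : Fin s → Fin n) (y : E (s + 1)) :
    ETub_L J y = ∑ i : Fin s, y i.succ • ev (J i) := by
  rw [ETub_L, sum_apply]
  rfl

theorem ETub_Zb (b : E n) (J : Fin s → Fin n) : Zb b J = fun y => b + ETub_L J y :=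
  funext fun y => by rw [ETub_L_apply, Zb]

theorem ETub_has (b : E n) (J : Fin s → Fin n) (y : E (s + 1)) :
    HasFDerivAt (Zb b J) (ETub_L J) y := by
  rw [ETub_Zb]
  exact (ETub_L J).hasFDerivAt.const_add b

theorem ETub_norm (J : Fin s → Fin n) (y : E (s + 1)) {c : ℝ} (h : ∀ i : Fin s, ‖y i.succ‖ ≤ c) :
    ‖ETub_L J y‖ ≤ s * c := by
  rw [ETub_L_apply]
  refine (norm_sum_le _ _).trans ((Finset.sum_le_card_nsmul _ _ c fun i _ => ?_).trans_eq ?_)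
  · rw [norm_smul, ev, PiLp.norm_single, norm_one, mul_one]
    exact h i
  · rw [Finset.card_univ, Fintype.card_fin, nsmul_eq_mul]

theorem ETub_sum (hF : IsLift d F) (N : ℕ) :
    ∃ D' : ℝ, PL D' fun X => ∑ j ∈ Finset.range N, lg (F^[j] X) := by
  induction N with
  | zero => exact ⟨_, (pl_lg.const_mul le_rfl).congr fun z _ => by
      rw [Finset.sum_range_zero, zero_mul]⟩
  | succ N ih =>
    obtain ⟨D', h⟩ := ih
    exact ⟨_, (h.add (pl_lg.comp (hF.iterate N))).congr fun z _ => Finset.sum_range_succ _ _⟩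

theorem Zb_add (b : E n) (J : Fin s → Fin n) (y : E (s + 1)) (t : ℂ) :
    Zb b J (y + t • ev 0) = Zb b J y := by
  simp [Zb, Mt_ev_apply]

theorem Zb_cs (b : E n) (J : Fin s → Fin n) (t : ℂ) (x : E s) :
    Zb b J (cs t x) = b + ∑ i, x i • ev (J i) := rfl

theorem Zb_tl (b : E n) (J : Fin s → Fin n) (y : E (s + 1)) :
    Zb b J y = Zb b J (cs 0 (tl y)) := rfl

theorem norm_Zb_sub (b : E n) (J : Fin s → Fin n) (y : E (s + 1)) :
    ‖Zb b J y - b‖ ≤ s * ‖tl y‖ := by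
  rw [ETub_Zb, add_sub_cancel_left]
  exact ETub_norm J y fun i => PiLp.norm_apply_le (tl y) i

theorem analytic_Zb (b : E n) (J : Fin s → Fin n) : AnalyticOnNhd ℂ (Zb b J) univ := by
  rw [ETub_Zb]
  exact fun y _ => analyticAt_const.add ((ETub_L J).analyticAt y)

theorem continuous_Zb (J : Fin s → Fin n) :
    Continuous fun q : E n × E (s + 1) => Zb q.1 J q.2 := by
  simp only [ETub_Zb]
  exact continuous_fst.add ((ETub_L J).continuous.comp continuous_snd)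

theorem fderiv_Zb (b : E n) (J : Fin s → Fin n) (y : E (s + 1)) :
    fderiv ℂ (Zb b J) y (ev 0) = 0 ∧ ∀ i : Fin s, fderiv ℂ (Zb b J) y (ev i.succ) = ev (J i) := by
  rw [(ETub_has b J y).fderiv]
  refine ⟨?_, fun i => ?_⟩
  · simp [ETub_L_apply, Mt_ev_apply]
  · simp [ETub_L_apply, Mt_ev_apply]

theorem norm_fderiv_Zb (b : E n) (J : Fin s → Fin n) (y v : E (s + 1)) :
    ‖fderiv ℂ (Zb b J) y v‖ ≤ s * ‖v‖ := by
  rw [(ETub_has b J y).fderiv]
  exact ETub_norm J v fun i => PiLp.norm_apply_le v i.succ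

theorem analytic_Ph (hG : IsLift D G) (A : E (n * n)) (b : E n) (J : Fin s → Fin n) :
    AnalyticOnNhd ℂ (Ph G A b J) univ := fun y _ => by
  have h1 : AnalyticAt ℂ (fun y => G (Zb b J y)) y :=
    (hG.an _ (mem_univ _)).comp (analytic_Zb b J y (mem_univ _))
  exact h1.add (((EuclideanSpace.proj 0 : E (s + 1) →L[ℂ] ℂ).analyticAt y).smul
    (((mt n n A).analyticAt _).comp h1))

theorem fderiv_Ph (hG : IsLift D G) (A : E (n * n)) (b : E n) (J : Fin s → Fin n)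
    (y v : E (s + 1)) :
    fderiv ℂ (Ph G A b J) y v = v 0 • mt n n A (G (Zb b J y)) +
      Tm (y 0) A (fderiv ℂ G (Zb b J y) (fderiv ℂ (Zb b J) y v)) := by
  have h1 : HasFDerivAt (fun y => G (Zb b J y))
      ((fderiv ℂ G (Zb b J y)).comp (fderiv ℂ (Zb b J) y)) y :=
    (hG.differentiable _).hasFDerivAt.comp y (ETub_has b J y).differentiableAt.hasFDerivAt
  have h2 : HasFDerivAt (Ph G A b J) _ y :=
    h1.add ((EuclideanSpace.proj 0 : E (s + 1) →L[ℂ] ℂ).hasFDerivAt.smul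
      ((mt n n A).hasFDerivAt.comp y h1))
  rw [h2.fderiv, Tm_apply, add_comm (v 0 • _), add_assoc]
  rfl

theorem Ph_cs (G : E n → E n) (A : E (n * n)) (b : E n) (J : Fin s → Fin n) (x : E s) :
    Ph G A b J (cs 0 x) = G (Zb b J (cs 0 x)) := by
  rw [Ph, show cs 0 x 0 = 0 from rfl, Tm_zero]
  rfl

theorem Fat.mono (h : Fat b J ρ) {ρ' : ℝ} (h' : ρ' ≤ ρ) : Fat b J ρ' :=
  fun y hy => h y (hy.trans_le h')

theorem Fat.ne (h : Fat b J ρ) (hy : y ∈ Tb s R ρ) : Zb b J y ≠ 0 :=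
  norm_pos_iff.1 (lt_trans (by norm_num) (h y hy.2).1)

theorem Tb_mono {R' ρ' : ℝ} (hR : R ≤ R') (hρ : ρ ≤ ρ') : Tb s R ρ ⊆ Tb s R' ρ' :=
  fun _ hy => ⟨hy.1.trans_le hR, hy.2.trans_le hρ⟩

theorem nv_Zb (hG : IsLift D G) (h : Fat b J ρ) (R : ℝ) :
    Dc.NV (fun y => G (Zb b J y)) (Tb s R ρ) :=
  ⟨fun y _ => (hG.an _ (mem_univ _)).comp (analytic_Zb b J y (mem_univ _)),
    fun _ hy => hG.ne (h.ne hy)⟩

theorem nv_Ph (hG : IsLift D G) (h : Fat b J ρ) (hR : R ≤ 1 / 2) (hA : ‖A‖ ≤ 1) :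
    Dc.NV (Ph G A b J) (Tb s R ρ) := by
  refine ⟨(analytic_Ph hG A b J).mono (subset_univ _), fun y hy h0 => hG.ne (h.ne hy) ?_⟩
  have h1 := (norm_Tm (hy.1.le.trans hR) hA (G (Zb b J y))).1
  rw [show Tm (y 0) A (G (Zb b J y)) = 0 from h0, norm_zero, mul_zero] at h1
  exact norm_le_zero_iff.1 h1

theorem IsLift.nv_comp (hF : IsLift d F) {Φ : E (s + 1) → E n} {U : Set (E (s + 1))}
    (h : Dc.NV Φ U) : Dc.NV (fun y => F (Φ y)) U :=
  ⟨fun y hy => (hF.an _ (mem_univ _)).comp (h.an y hy), fun y hy => hF.ne (h.ne y hy)⟩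

theorem nv_mono {N : ℕ} {Φ : E (s + 1) → E N} {U U' : Set (E (s + 1))} (h : Dc.NV Φ U')
    (h' : U ⊆ U') : Dc.NV Φ U :=
  ⟨h.an.mono h', fun y hy => h.ne y (h' hy)⟩

/-- `gl_ev`, `gl_comp`, `fderiv_Ph`, `fderiv_Zb`. -/
theorem md_Ph (hG : IsLift D G) {q : Fin (s + 1) → E n → ℝ} (hq : Pots q)
    (h0 : Ph G A b J y ≠ 0) :
    md (fun l => hess (fun y => q l (Ph G A b J y)) y) =
      dn q (su (Tm (y 0) A) (mt n n A) (fw G (Zb b J y, evs J))) := by
  have e : (fun j => fderiv ℂ (Ph G A b J) y (ev j)) =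
      (su (Tm (y 0) A) (mt n n A) (fw G (Zb b J y, evs J))).2 := by
    funext j
    rw [fderiv_Ph hG]
    refine Fin.cases ?_ (fun i => ?_) j
    · rw [(fderiv_Zb b J y).1, map_zero, map_zero, add_zero, Mt_ev_apply, if_pos rfl, one_smul]
      rfl
    · rw [(fderiv_Zb b J y).2, Mt_ev_apply, if_neg (Fin.succ_ne_zero i).symm, zero_smul, zero_add]
      rfl
  have h1 : (su (Tm (y 0) A) (mt n n A) (fw G (Zb b J y, evs J))).1 ≠ 0 := h0
  rw [dn, if_neg h1, dc, md]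
  congr 2
  funext l
  obtain ⟨D', h⟩ := hq l
  rw [← gl_ev, lv_eq_gl, ← e]
  exact gl_comp (a := rc (q l)) (analytic_Ph hG A b J y (mem_univ _)).contDiffAt
    (contDiffAt_rc (h.contDiffAt2 h0))

/-- `lg (F^[l] X) = d ^ l * green d F l X` (`lg_comp`). -/
theorem lf_tX (hd : 1 ≤ d) (F : E n → E n) (l a : ℕ) (A : E (n * n)) (b : E n) (J : Fin s → Fin n)
    (y : E (s + 1)) :
    Dc.lf (tX F l a A b J) y = (d : ℝ) ^ l * green d F l (Ph F^[a] A b J y) :=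
  lg_comp hd F l _

theorem pl_ut (hF : IsLift d F) (hd : 1 ≤ d) (ℓ : E n →L[ℂ] E (s + 1)) (w m N : ℕ) {c c' : ℝ}
    (hc : 0 ≤ c) (hc' : 0 ≤ c') (hp : PL ((s + 1) * d ^ m) (pe d F ℓ m)) :
    ∃ D' : ℝ, PL D' (ut d F ℓ w m N c c') := by
  obtain ⟨D', h⟩ := ETub_sum hF N
  exact ⟨_, ((hp.comp (hF.iterate w)).add ((pl_lg.comp (hF.iterate (w + m))).const_mul hc)).add
    (h.const_mul hc')⟩

end Pool.Agent.Lib.MP_a47f92_an
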