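import Pool.Agent.Lib.MP_a47f92_an.G.ETub
import Pool.Agent.Lib.MP_a47f92_an.G.ECutA
import Pool.Agent.Lib.MP_a47f92_an.G.DTh

set_option autoImplicit false
set_option linter.unusedSectionVars false

namespace Pool.Agent.Lib.MP_a47f92_an

open MeasureTheory Filter Topology Set Complex Metric Function
open scoped ContDiff ComplexConjugate ComplexOrder Matrix ENNReal NNReal

/-! The tubes: estimates. -/

variable {n s d : ℕ} {F : E n → E n}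

theorem ETub2_ratio {D : ℕ} {G : E n → E n} (hG : IsLift D G) {z : E n} (hz : z ≠ 0) (u : E n) :
    ‖prj (un (G z)) (fderiv ℂ G z u)‖ = ‖Bm G z u‖ / ‖z‖ * ‖G z‖ := by
  have h : 0 < ‖G z‖ := norm_pos_iff.2 (hG.ne hz)
  have h' : 0 < ‖z‖ := norm_pos_iff.2 hz
  rw [D_Bm_apply, norm_smul, norm_real, Real.norm_of_nonneg (by positivity)]
  field_simp

theorem ETub2_sos {D : ℕ} {G : E n → E n} (hG : IsLift D G) (hd : 1 ≤ d) (N p : ℕ) {x : E n → ℝ}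
    (hs : SOS {0}ᶜ fun z => x z ^ 2 * (‖G z‖ ^ 2) ^ p) :
    ∃ σ : E n → ℝ, SOS {0}ᶜ σ ∧
      ∀ z, z ≠ 0 → 0 < σ z ∧ rg d N (x z) + p * lg (G z) = Real.log (σ z) / 2 := by
  refine ⟨fun z => (x z ^ 2 + (((d : ℝ) ^ N)⁻¹) ^ 2) * (‖G z‖ ^ 2) ^ p,
    (hs.add ((sos_const (sq_nonneg ((d : ℝ) ^ N)⁻¹)).mul
      ((sos_norm hG.contDiff.contDiffOn).pow p))).congr fun z _ => add_mul _ _ _, fun z hz => ?_⟩
  have h : 0 < ‖G z‖ := norm_pos_iff.2 (hG.ne hz)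
  refine ⟨mul_pos (D_rg_pos hd N _) (by positivity), ?_⟩
  rw [Real.log_mul (D_rg_pos hd N _).ne' (by positivity), Real.log_pow, Real.log_pow, rg, lg]
  push_cast
  ring

theorem ETub2_log {a b : ℝ} (ha : 0 < a) (hb : 0 < b) (h : a ≤ 3 * b) (h' : b ≤ 3 * a) :
    |Real.log a - Real.log b| ≤ 2 := by
  have h3 : Real.log 3 ≤ 2 := (Real.log_le_sub_one_of_pos (by norm_num)).trans (by norm_num)
  have h1 := Real.log_le_log ha h
  have h2 := Real.log_le_log hb h'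
  rw [Real.log_mul (by norm_num) hb.ne'] at h1
  rw [Real.log_mul (by norm_num) ha.ne'] at h2
  rw [abs_le]
  constructor <;> linarith

/-- `lap_log_norm`: the Levi form is `‖Bm F^[l] Φ (DΦ v)‖ ^ 2 / (2 ‖Φ‖ ^ 2)`, and
`‖Bm F^[l] Φ u‖ ≤ K ^ l ‖prj (un Φ) u‖`. With `W = F^[a] Z`, `Φ = T W`,
`DΦ v = v 0 • A W + T u'`, `u' = DF^[a] (DZ v) = prj (un W) u' + c W`; the part `c T W` is killed by
`prj (un Φ)`, and `‖prj (un W) u'‖ = ‖Bm F^[a] Z (DZ v)‖ ‖W‖ / ‖Z‖ ≤ K ^ a s ‖v‖ 2 ‖W‖`;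
`norm_Tm`. -/
theorem exists_speed (hF : IsLift d F) (hd : 1 ≤ d) (s : ℕ) : ∃ K : ℝ, 1 ≤ K ∧
    ∀ (l a : ℕ) (A : E (n * n)) (b : E n) (J : Fin s → Fin n) (R ρ : ℝ), Fat b J ρ → R ≤ 1 / 2 →
      ‖A‖ ≤ 1 → ∀ y ∈ Tb s R ρ, ∀ v,
        levi (Dc.lf (tX F l a A b J)) y v ≤ (K ^ (l + a + 1)) ^ 2 * ‖v‖ ^ 2 := by
  obtain ⟨K, K1, hK⟩ := D_Bm_iter_bound hF hd
  have s0 : (0 : ℝ) ≤ s := s.cast_nonneg
  have c1 : (1 : ℝ) ≤ 2 + 8 * s := by linarith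
  refine ⟨K * (2 + 8 * s), one_le_mul_of_one_le_of_one_le K1 c1,
    fun l a A b J R ρ h hR hA y hy v => ?_⟩
  have hG := hF.iterate a
  have hL := hF.iterate l
  have nv := nv_Ph hG h hR hA
  have hΦ := nv.ne y hy
  have nX := hL.nv_comp nv
  have hZ := h.ne hy
  have hZ2 : 1 / 2 < ‖Zb b J y‖ := (h y hy.2).1
  have ht : ‖y 0‖ ≤ 1 / 2 := hy.1.le.trans hR
  have e := ECutA_levi (X := tX F l a A b J) (nX.an y hy) (nX.ne y hy) v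
  have e1 : fderiv ℂ (tX F l a A b J) y v =
      fderiv ℂ F^[l] (Ph F^[a] A b J y) (fderiv ℂ (Ph F^[a] A b J) y v) := by
    rw [show tX F l a A b J = F^[l] ∘ Ph F^[a] A b J from rfl, fderiv_comp y (hL.differentiable _)
      (analytic_Ph hG A b J y trivial).differentiableAt]
    rfl
  have hX : 0 < ‖tX F l a A b J y‖ := norm_pos_iff.2 (nX.ne y hy)
  have e2 : ‖prj (un (tX F l a A b J y)) (fderiv ℂ (tX F l a A b J) y v)‖ =
      ‖Bm F^[l] (Ph F^[a] A b J y) (fderiv ℂ (Ph F^[a] A b J) y v)‖ / ‖Ph F^[a] A b J y‖ *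
        ‖tX F l a A b J y‖ := by
    rw [e1]
    exact ETub2_ratio hL hΦ _
  rw [e2, mul_pow, mul_div_assoc, div_self (by positivity), mul_one] at e
  obtain ⟨c, hc⟩ := sub_prj_un (F^[a] (Zb b J y))
    (fderiv ℂ F^[a] (Zb b J y) (fderiv ℂ (Zb b J) y v))
  have e3 := ETub2_ratio hG hZ (fderiv ℂ (Zb b J) y v)
  have e4 := fderiv_Ph hG A b J y v
  have hT := norm_Tm ht hA (F^[a] (Zb b J y))
  have e5 : Ph F^[a] A b J y = Tm (y 0) A (F^[a] (Zb b J y)) := rfl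
  rw [← e5] at hT
  set Φ := Ph F^[a] A b J y
  set W := F^[a] (Zb b J y)
  set u := prj (un W) (fderiv ℂ F^[a] (Zb b J y) (fderiv ℂ (Zb b J) y v))
  have hp : 0 < ‖Φ‖ := norm_pos_iff.2 hΦ
  have Ka : 1 ≤ K ^ a := one_le_pow₀ K1
  have Kl : 1 ≤ K ^ l := one_le_pow₀ K1
  have b1 : ‖Bm F^[a] (Zb b J y) (fderiv ℂ (Zb b J) y v)‖ ≤ K ^ a * (s * ‖v‖) :=
    (Bm F^[a] (Zb b J y)).le_of_opNorm_le_of_le (hK a _ hZ) (norm_fderiv_Zb b J y v)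
  have b2 : ‖u‖ ≤ 2 * (K ^ a * (s * ‖v‖)) * ‖W‖ := by
    rw [e3]
    refine mul_le_mul_of_nonneg_right ?_ (norm_nonneg _)
    rw [div_le_iff₀ (by linarith)]
    have : 0 ≤ K ^ a * (s * ‖v‖) := by positivity
    nlinarith
  have b3 : ‖v 0 • mt n n A W + Tm (y 0) A u‖ ≤ (1 + 4 * s) * K ^ a * ‖v‖ * ‖W‖ := by
    have h1 : ‖mt n n A W‖ ≤ 1 * ‖W‖ := (mt n n A).le_of_opNorm_le ((norm_mt_le A).trans hA) W
    have h2 : ‖Tm (y 0) A u‖ ≤ 2 * (2 * (K ^ a * (s * ‖v‖)) * ‖W‖) :=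
      (Tm (y 0) A).le_of_opNorm_le_of_le hT.2.2 b2
    have h3 : ‖v 0 • mt n n A W‖ ≤ ‖v‖ * (1 * ‖W‖) := by
      rw [norm_smul]
      exact mul_le_mul (norm_fst_le v) h1 (norm_nonneg _) (norm_nonneg _)
    have h4 : ‖v‖ * ‖W‖ ≤ K ^ a * (‖v‖ * ‖W‖) := le_mul_of_one_le_left (by positivity) Ka
    refine (norm_add_le _ _).trans ?_
    nlinarith
  have b4 : ‖Bm F^[l] Φ (fderiv ℂ (Ph F^[a] A b J) y v)‖ ≤
      K ^ l * ((1 + 4 * s) * K ^ a * ‖v‖ * ‖W‖) := by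
    rw [e4, hc, map_add (Tm (y 0) A), map_smul (Tm (y 0) A), ← e5, ← add_assoc, map_add, map_smul,
      D_Bm_self hL hΦ, smul_zero, add_zero]
    exact (Bm F^[l] Φ).le_of_opNorm_le_of_le (hK l _ hΦ) b3
  have b5 : ‖Bm F^[l] Φ (fderiv ℂ (Ph F^[a] A b J) y v)‖ / ‖Φ‖ ≤
      (K * (2 + 8 * s)) ^ (l + a + 1) * ‖v‖ := by
    have h1 : K ^ l * K ^ a * (2 + 8 * s) ≤ (K * (2 + 8 * s)) ^ (l + a + 1) := by
      rw [mul_pow, ← pow_add]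
      exact mul_le_mul (pow_le_pow_right₀ K1 (Nat.le_succ _))
        (le_self_pow₀ c1 (Nat.succ_ne_zero _)) (by linarith) (by positivity)
    rw [div_le_iff₀ hp]
    refine b4.trans ?_
    calc K ^ l * ((1 + 4 * s) * K ^ a * ‖v‖ * ‖W‖)
        ≤ K ^ l * ((1 + 4 * s) * K ^ a * ‖v‖ * (2 * ‖Φ‖)) := by gcongr; exact hT.1
      _ = K ^ l * K ^ a * (2 + 8 * s) * ‖v‖ * ‖Φ‖ := by ring
      _ ≤ _ := by gcongr
  have b6 := pow_le_pow_left₀ (by positivity) b5 2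
  rw [mul_pow] at b6
  have b7 : 0 ≤ ((K * (2 + 8 * s)) ^ (l + a + 1)) ^ 2 * ‖v‖ ^ 2 := by positivity
  linarith

/-- The squared norm of `plk (fr G Z (evs J))` is `(s + 1) ‖G Z‖ ^ (2 s + 2) al ^ 2 / ‖Z‖ ^ (2 s)`
(`norm_plk_cons`, `plk_smul`), so `exp (2 phE) = ‖plk (fr …)‖ ^ 2 (‖Z‖ ^ 2) ^ s / (s + 1) +
d ^ (-2 a) (‖G Z‖ ^ 2) ^ (s + 1)`. -/
theorem sos_phE (hF : IsLift d F) (hd : 1 ≤ d) (a : ℕ) (J : Fin s → Fin n) :
    ∃ σ : E n → ℝ, SOS {0}ᶜ σ ∧ ∀ z, z ≠ 0 → 0 < σ z ∧ phE d F a J z = Real.log (σ z) / 2 := by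
  have h := ETub2_sos (hF.iterate a) hd a (s + 1) (D_al_sos (hF.iterate a) J)
  push_cast at h
  exact h

/-- The same for `pe`: `an (th …) ^ 2 (‖G X‖ ^ 2) ^ (s + 1) = ∑ J, ‖det‖ ^ 2 (‖X‖ ^ 2) ^ s`. -/
theorem sos_pe (hF : IsLift d F) (hd : 1 ≤ d) (ℓ : E n →L[ℂ] E (s + 1)) (m : ℕ) :
    ∃ σ : E n → ℝ, SOS {0}ᶜ σ ∧ ∀ z, z ≠ 0 → 0 < σ z ∧ pe d F ℓ m z = Real.log (σ z) / 2 := by
  have hG := hF.iterate m
  have h := ETub2_sos hG hd m (s + 1) (x := fun z => an (th ℓ F^[m] z)) ?_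
  · push_cast at h
    exact h
  refine ((SOS.sum Finset.univ fun (J : Fin s → Fin n) _ =>
    sos_normC (DTh_smooth hG ℓ (evs J)).contDiffOn).mul
      ((sos_norm contDiffOn_id).pow s)).congr fun z hz => ?_
  have h' : ‖F^[m] z‖ ≠ 0 := norm_ne_zero_iff.2 (hG.ne hz)
  rw [Plk_an_sq, Finset.sum_mul, Finset.sum_mul]
  refine Finset.sum_congr rfl fun J _ => ?_
  rw [DTh_norm, id]
  field_simp
  ring

theorem sp_phE (hF : IsLift d F) (hd : 1 ≤ d) (a : ℕ) {J : Fin s → Fin n} {b : E n} {ρ : ℝ}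
    (h : Fat b J ρ) (R : ℝ) : SP (Tb s R ρ) fun y => phE d F a J (Zb b J y) := by
  have h1 := (D_al_pl hF hd J a).1.sp_comp (Φ := Zb b J) (U := Tb s R ρ)
    ⟨(analytic_Zb b J).mono (subset_univ _), fun y hy => h.ne hy⟩
  push_cast at h1
  exact h1

/-- `green_bound`, `norm_Tm`; `lg (F^[a] Z) = d ^ a green d F a Z`; `al ≤ wn ≤ C K ^ (a s)`,
`-a log d ≤ rg d a x`, `a ≤ d ^ a`. -/
theorem exists_osc (hF : IsLift d F) (hd : 2 ≤ d) (s : ℕ) : ∃ C : ℝ, 1 ≤ C ∧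
    ∀ (l a : ℕ) (A : E (n * n)) (b : E n) (J : Fin s → Fin n) (R ρ : ℝ), Fat b J ρ → R ≤ 1 / 2 →
      ‖A‖ ≤ 1 → ∀ y ∈ Tb s R ρ,
        |phE d F a J (Zb b J y)| ≤ C * d ^ a ∧ |green d F l (Ph F^[a] A b J y)| ≤ C * d ^ a ∧
        |lg (F^[a] (Zb b J y))| ≤ C * d ^ a ∧
        |green d F l (Ph F^[a] A b J y) - lg (F^[a] (Zb b J y))| ≤ C := by
  have hd1 : 1 ≤ d := le_trans one_le_two hd
  obtain ⟨C, C0, hC⟩ := green_bound hF hd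
  obtain ⟨K, K0, hK⟩ := D_al_abs hF hd1 s
  have s0 : (0 : ℝ) ≤ s := s.cast_nonneg
  have p0 : 0 ≤ (s + 1) * (C + 2) := by positivity
  refine ⟨K + (s + 1) * (C + 2) + 2 * (C + 2), by linarith, fun l a A b J R ρ h hR hA y hy => ?_⟩
  have hG := hF.iterate a
  have hΦ := (nv_Ph hG h hR hA).ne y hy
  have hZ := h.ne hy
  have hZ2 : 1 / 2 < ‖Zb b J y‖ ∧ ‖Zb b J y‖ < 3 := h y hy.2
  have hT := norm_Tm (hy.1.le.trans hR) hA (F^[a] (Zb b J y))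
  rw [show Tm (y 0) A (F^[a] (Zb b J y)) = Ph F^[a] A b J y from rfl] at hT
  have hW := norm_pos_iff.2 (hG.ne hZ)
  have hP := norm_pos_iff.2 hΦ
  have d1 : (a : ℝ) + 1 ≤ d ^ a := by
    have : a + 1 ≤ d ^ a := Nat.lt_pow_self hd
    exact_mod_cast this
  have a0 : (0 : ℝ) ≤ a := a.cast_nonneg
  have h1 := ETub2_log (a := ‖Zb b J y‖) (b := 1) (by linarith) one_pos (by linarith) (by linarith)
  rw [Real.log_one, sub_zero] at h1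
  have h2 : |green d F a (Zb b J y)| ≤ C + 2 := by
    have := abs_add_le (green d F a (Zb b J y) - Real.log ‖Zb b J y‖) (Real.log ‖Zb b J y‖)
    rw [sub_add_cancel] at this
    linarith [hC a _ hZ]
  have h3 : |lg (F^[a] (Zb b J y))| ≤ (C + 2) * d ^ a := by
    rw [lg_comp hd1, abs_mul, abs_of_nonneg (by positivity), mul_comm]
    gcongr
  have h4 : |green d F l (Ph F^[a] A b J y) - lg (F^[a] (Zb b J y))| ≤ C + 2 := by
    have := abs_sub_le (green d F l (Ph F^[a] A b J y)) (Real.log ‖Ph F^[a] A b J y‖)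
      (Real.log ‖F^[a] (Zb b J y)‖)
    rw [lg]
    linarith [hC l _ hΦ, ETub2_log hP hW (by linarith [hT.2.1]) (by linarith [hT.1])]
  have h5 : C + 2 ≤ (C + 2) * d ^ a := le_mul_of_one_le_right (by linarith) (by linarith)
  have h6 : K * (a + 1) ≤ K * d ^ a := by gcongr
  have h7 : 0 ≤ K * d ^ a := by positivity
  have h8 : 0 ≤ (s + 1) * (C + 2) * d ^ a := by positivity
  refine ⟨?_, ?_, by nlinarith, by linarith⟩
  · refine (abs_add_le _ _).trans ?_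
    rw [abs_mul, abs_of_nonneg (a := (s : ℝ) + 1) (by linarith)]
    have := mul_le_mul_of_nonneg_left h3 (show (0 : ℝ) ≤ s + 1 by linarith)
    nlinarith [hK a J _ hZ]
  · have := abs_add_le (green d F l (Ph F^[a] A b J y) - lg (F^[a] (Zb b J y)))
      (lg (F^[a] (Zb b J y)))
    rw [sub_add_cancel] at this
    nlinarith

/-- `lt_bound` with `R = r₁ / 2` and `xe_bound` with `R = r₁`, `r = r₁ / 2`, for
`Q = green l ∘ Φ`, `Q₀ = lg ∘ F^[a] ∘ Z`, `M = C d ^ a` (`exists_osc`, `PL.sp_comp`, `sp_lf`,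
`Zb_add`). -/
theorem exists_local (hF : IsLift d F) (hd : 2 ≤ d) (s : ℕ) {r₁ ρ : ℝ} (hr : 0 < r₁)
    (hr' : r₁ ≤ 1 / 2) (hρ : 0 < ρ) : ∃ C : ℝ, 0 ≤ C ∧ ∀ ε : ℝ, 0 < ε →
    ∃ r : ℝ, 0 < r ∧ 2 * r ≤ r₁ ∧
      ∀ (l a : ℕ) (A : E (n * n)) (b : E n) (J : Fin s → Fin n), Fat b J (4 * ρ) → ‖A‖ ≤ 1 →
        mI (Tb s (2 * r) (3 * ρ)) (fun y => phE d F a J (Zb b J y))
            (fun y => green d F l (Ph F^[a] A b J y)) ≤
          ENNReal.ofReal (((d : ℝ) ^ a) ^ s * (ε + C / d ^ a)) ∧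
        mI (Tb s (2 * r) (3 * ρ)) Dc.tq (fun y => green d F l (Ph F^[a] A b J y)) ≤
          ENNReal.ofReal (((d : ℝ) ^ a) ^ s * (C / d ^ a)) := by
  have hd1 : 1 ≤ d := le_trans one_le_two hd
  have hρ' : 3 * ρ < 4 * ρ := by linarith
  obtain ⟨B, B1, hB⟩ := exists_osc hF hd s
  obtain ⟨C, C0, hC⟩ := lt_bound s (half_pos hr) hρ'
  obtain ⟨C', C0', hC'⟩ := xe_bound s (half_lt_self hr) hρ'
  have B0 : 0 < B := by linarith
  refine ⟨(C * B + C') * B ^ s, by positivity, fun ε hε => ?_⟩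
  obtain ⟨r, r0, r1, hr2⟩ := hC (ε / (B ^ 2 * B ^ s)) (by positivity)
  refine ⟨r / 2, by linarith, by linarith, fun l a A b J h hA => ?_⟩
  rw [show 2 * (r / 2) = r by ring]
  have hG := hF.iterate a
  have d1 : (1 : ℝ) ≤ d ^ a := one_le_pow₀ (by exact_mod_cast hd1)
  have M1 : 1 ≤ B * d ^ a := one_le_mul_of_one_le_of_one_le B1 d1
  have hQ := (pl_green hF hd1 l).sp_comp (nv_Ph hG h hr' hA)
  have hQ₀ := pl_lg.sp_comp (nv_Zb hG h r₁)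
  have x0 : XO fun y => lg (F^[a] (Zb b J y)) := fun y t => by simp only [Zb_add]
  have hs : Tb s (r₁ / 2) (4 * ρ) ⊆ Tb s r₁ (4 * ρ) := Tb_mono (half_le_self hr.le) le_rfl
  have hb := hB l a A b J r₁ (4 * ρ) h hr' hA
  constructor
  · refine (hr2 _ _ _ (B * d ^ a) B M1 B1 (sp_phE hF hd1 a h _) (fun y t => by simp only [Zb_add])
      (hQ.mono hs) (hQ₀.mono hs) x0 fun y hy => hb y (hs hy)).trans (ENNReal.ofReal_le_ofReal ?_)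
    have e : B ^ 2 * (B * d ^ a) ^ s * (ε / (B ^ 2 * B ^ s) + C / (B * d ^ a)) =
        ((d : ℝ) ^ a) ^ s * (ε + C * B * B ^ s / d ^ a) := by
      rw [mul_pow]
      field_simp
    rw [e]
    gcongr
    linarith
  · refine (mI_mono (Tb_mono r1.le le_rfl) _ _).trans ?_
    refine (hC' _ _ (B * d ^ a) B M1 hQ hQ₀ x0 fun y hy => (hb y hy).2).trans
      (ENNReal.ofReal_le_ofReal ?_)
    have e : C' * B * (B * d ^ a) ^ s / (B * d ^ a) =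
        ((d : ℝ) ^ a) ^ s * (C' * B ^ s / d ^ a) := by
      rw [mul_pow]
      field_simp
    rw [e]
    gcongr
    exact le_add_of_nonneg_left (by positivity)

/-- `green_bound` at `F^[j] Φ` with `l - j` iterates, and `log_ratio`. -/
theorem exists_cmp (hF : IsLift d F) (hd : 2 ≤ d) : ∃ C : ℝ, 0 ≤ C ∧
    ∀ (l j : ℕ) (X : E n) (g : ℂ) (M : ℝ), j ≤ l → X ≠ 0 → 1 ≤ M →
      Real.log ‖g‖ ≤ lg (F^[l] X) → lg (F^[l] X) ≤ Real.log (4 * M) + Real.log ‖g‖ →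
      |lg (F^[j] X) - ((d : ℝ) ^ (l - j))⁻¹ * Real.log ‖g‖| ≤ C + Real.log (4 * M) := by
  obtain ⟨C, C0, hC⟩ := green_bound hF hd
  refine ⟨C, C0, fun l j X g M hj hX hM h1 h2 => ?_⟩
  have h3 := hC (l - j) _ ((hF.iterate j).ne hX)
  rw [green, ← iterate_add_apply, Nat.sub_add_cancel hj] at h3
  have d1 : (1 : ℝ) ≤ d ^ (l - j) := one_le_pow₀ (by exact_mod_cast le_trans one_le_two hd)
  have c0 : 0 ≤ ((d : ℝ) ^ (l - j))⁻¹ := by positivity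
  have c1 : ((d : ℝ) ^ (l - j))⁻¹ ≤ 1 := inv_le_one_of_one_le₀ d1
  simp only [lg] at h1 h2 ⊢
  have h4 := mul_nonneg c0 (sub_nonneg.2 h1)
  have h5 := mul_le_of_le_one_left (sub_nonneg.2 h1) c1
  rw [abs_le] at h3 ⊢
  constructor <;> nlinarith [h3.1, h3.2]

end Pool.Agent.Lib.MP_a47f92_an
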