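import Pool.Agent.Lib.MP_a47f92_an.G.ETub2
import Pool.Agent.Lib.MP_a47f92_an.G.DBm
import Pool.Agent.Lib.MP_a47f92_an.G.Osg

set_option autoImplicit false
set_option linter.unusedSectionVars false

namespace Pool.Agent.Lib.MP_a47f92_an

open MeasureTheory Filter Topology Set Complex Metric Function
open scoped ContDiff ComplexConjugate ComplexOrder Matrix ENNReal NNReal

/-! The majorant of the Jacobian. -/

variable {n s d : ℕ} {F : E n → E n}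

theorem EUp_alt (ℓ : E n →L[ℂ] E (s + 1)) (G : E n → E n) (X : E n) :
    ∃ θ : E n [⋀^Fin s]→ₗ[ℂ] ℂ, ⇑θ = th ℓ G X := by
  obtain ⟨θ, hθ⟩ := exists_alt_det ℓ
  refine ⟨((‖X‖ ^ s / ‖G X‖ ^ (s + 1) : ℝ) : ℂ) •
    (θ.curryLeft (G X)).compLinearMap (fderiv ℂ G X).toLinearMap, funext fun v => ?_⟩
  rw [AlternatingMap.smul_apply, AlternatingMap.compLinearMap_apply,
    AlternatingMap.curryLeft_apply_apply, hθ, smul_eq_mul, mul_comm]
  rfl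

theorem EUp_prj {D : ℕ} {G : E n → E n} (hG : IsLift D G) (ℓ : E n →L[ℂ] E (s + 1)) (X : E n)
    (v : Fin s → E n) : th ℓ G X v = th ℓ G X fun j => prj (un X) (v j) := by
  choose c hc using fun j => sub_prj_un X (v j)
  unfold th
  congr 1
  rw [← Matrix.det_transpose, ← Matrix.det_transpose (Matrix.of fun i j =>
    ℓ (fr G X (fun j => prj (un X) (v j)) j) i)]
  refine Matrix.det_eq_of_forall_row_eq_smul_add_const
    (Fin.cons 0 fun j => c j * D) 0 rfl fun i j => ?_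
  refine Fin.cases ?_ (fun i => ?_) i
  · simp [fr]
  · simp only [Matrix.transpose_apply, Matrix.of_apply, fr, Fin.cons_succ, Fin.cons_zero]
    conv_lhs => rw [hc i]
    rw [map_add, map_smul, hG.euler, smul_smul, map_add, map_smul, PiLp.add_apply,
      PiLp.smul_apply, smul_eq_mul]

theorem EUp_fr {D D' : ℕ} {G H : E n → E n} (hG : IsLift D G) (hH : IsLift D' H) (z : E n)
    (v : Fin s → E n) : fr (G ∘ H) z v = fr G (H z) fun j => fderiv ℂ H z (v j) := by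
  simp only [fr, D_fderiv_comp hG hH, comp_apply]

theorem EUp_det {D D' : ℕ} {G H : E n → E n} (hG : IsLift D G) (hH : IsLift D' H)
    (ℓ : E n →L[ℂ] E (s + 1)) {z : E n} (hz : z ≠ 0) (v : Fin s → E n) :
    ‖(Matrix.of fun i j => ℓ (fr (G ∘ H) z v j) i).det‖ * ‖z‖ ^ s ≤
      an (th ℓ G (H z)) * ‖plk fun j => Bm H z (v j)‖ * ‖G (H z)‖ ^ (s + 1) := by
  obtain ⟨θ, hθ⟩ := EUp_alt ℓ G (H z)
  have h1 := alt_le θ fun j => prj (un (H z)) (fderiv ℂ H z (v j))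
  rw [hθ, ← EUp_prj hG, th, ← EUp_fr hG hH, norm_mul, norm_real,
    Real.norm_of_nonneg (by positivity)] at h1
  have h2 : 0 < ‖H z‖ := norm_pos_iff.2 (hH.ne hz)
  have h3 : 0 < ‖G (H z)‖ := norm_pos_iff.2 (hG.ne (hH.ne hz))
  simp only [D_Bm_apply, plk_smul, norm_smul, norm_pow, norm_real, norm_div, norm_norm, div_pow]
  have h4 := mul_le_mul_of_nonneg_right h1
    (show 0 ≤ ‖z‖ ^ s / ‖H z‖ ^ s * ‖G (H z)‖ ^ (s + 1) by positivity)
  refine le_trans (le_of_eq ?_) (h4.trans (le_of_eq ?_))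
  · field_simp
  · ring

theorem EUp_lift {t : ℂ} {A : E (n * n)} (ht : ‖t‖ ≤ 1 / 2) (hA : ‖A‖ ≤ 1) : IsLift 1 (Tm t A) :=
  isLift_clm fun z hz => by
    have h := (norm_Tm ht hA z).1
    rw [hz, norm_zero, mul_zero] at h
    exact norm_le_zero_iff.1 h

theorem EUp_Bm {t : ℂ} {A : E (n * n)} (ht : ‖t‖ ≤ 1 / 2) (hA : ‖A‖ ≤ 1) {z : E n} (hz : z ≠ 0) :
    ‖Bm (Tm t A) z‖ ≤ 4 := by
  obtain ⟨h1, -, h2⟩ := norm_Tm ht hA z
  have h3 : 0 < ‖Tm t A z‖ := norm_pos_iff.2 ((EUp_lift ht hA).ne hz)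
  refine ContinuousLinearMap.opNorm_le_bound _ (by norm_num) fun v => ?_
  rw [D_Bm_apply, norm_smul, norm_real, Real.norm_of_nonneg (by positivity),
    ContinuousLinearMap.fderiv]
  calc _ ≤ 2 * (2 * ‖v‖) := mul_le_mul ((div_le_iff₀ h3).2 h1)
        ((norm_prj_un_le _ _).trans (norm_Tm ht hA v).2.1) (norm_nonneg _) zero_le_two
    _ = _ := by ring

/-- `dl_Xi`, `det_lm`, chain rule. -/
theorem dl_tXi (hF : IsLift d F) (l a : ℕ) (ℓ : E n →L[ℂ] E (s + 1)) (A : E (n * n)) (b : E n)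
    (J : Fin s → Fin n) {y : E (s + 1)} (h0 : ℓ (tX F l a A b J y) 0 ≠ 0) :
    dl (tXi F l a ℓ A b J) y * ℓ (tX F l a A b J y) 0 ^ (s + 1) =
      (Matrix.of fun i j => ℓ (fr F^[l] (Ph F^[a] A b J y)
        (fun k => Tm (y 0) A (fderiv ℂ F^[a] (Zb b J y) (ev (J k)))) j) i).det := by
  have h1 : DifferentiableAt ℂ (Ph F^[a] A b J) y :=
    (analytic_Ph (hF.iterate a) A b J y trivial).differentiableAt
  have h2 : HasFDerivAt (fun y => ℓ (tX F l a A b J y))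
      (ℓ.comp ((fderiv ℂ F^[l] (Ph F^[a] A b J y)).comp (fderiv ℂ (Ph F^[a] A b J) y))) y :=
    ℓ.hasFDerivAt.comp y (((hF.iterate l).differentiable _).hasFDerivAt.comp y h1.hasFDerivAt)
  rw [tXi, dl_Xi h2.differentiableAt h0, det_lm h0, h2.fderiv]
  congr 1
  ext i j
  refine Fin.cases rfl (fun j => ?_) j
  simp only [Matrix.of_apply, Fin.cons_succ, fr, ContinuousLinearMap.comp_apply,
    fderiv_Ph (hF.iterate a), (fderiv_Zb b J y).2, Mt_ev_apply, if_neg (Fin.succ_ne_zero j).symm,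
    zero_smul, zero_add]

/-- With `X' = F^[w] Φ`, `W = F^[a] Z`, `T = Tm t A` (a lift of degree one, `isLift_clm`): the
determinant is `th ℓ F^[m] X' v * ‖X‖ ^ (s + 1) / ‖X'‖ ^ s` for `v = DF^[w] T DF^[a] e_J`; `th` is
alternating and kills `X'`, so `‖th v‖ ≤ an th * ‖plk (prj (un X') v)‖` and
`prj (un X') v = (‖X'‖ / ‖Z‖) • Bm F^[w] Φ (Bm T W (Bm F^[a] Z e_J))` (cocycle rule);
`plk_map_le`, `wn_le`, `‖Bm F^[w] Φ‖ ≤ K ^ w`, `‖Bm T W‖ ≤ 4`; `x ≤ exp (rg d N x)`. -/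
theorem exists_det_le (hF : IsLift d F) (hd : 1 ≤ d) (s w : ℕ) : ∃ C : ℝ, 1 ≤ C ∧
    ∀ (m a : ℕ) (ℓ : E n →L[ℂ] E (s + 1)) (A : E (n * n)) (t : ℂ) (Z : E n) (J : Fin s → Fin n),
      ‖t‖ ≤ 1 / 2 → ‖A‖ ≤ 1 → 1 / 2 ≤ ‖Z‖ →
      ‖(Matrix.of fun i j => ℓ (fr F^[w + m] (Tm t A (F^[a] Z))
        (fun k => Tm t A (fderiv ℂ F^[a] Z (ev (J k)))) j) i).det‖ ≤
        C * Real.exp (bt d F ℓ m (F^[w] (Tm t A (F^[a] Z))) + rg d a (al F^[a] J Z)) *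
          ‖F^[w + m] (Tm t A (F^[a] Z))‖ ^ (s + 1) := by
  obtain ⟨K, hK, hB⟩ := D_Bm_iter_bound hF hd
  obtain ⟨C, hC, hw⟩ := wn_le n s
  refine ⟨max 1 (C * (K ^ w * 4) ^ s * 2 ^ s), le_max_left _ _,
    fun m a ℓ A t Z J ht hA hZ => ?_⟩
  have h0 : 0 < ‖Z‖ := by linarith
  have hz : Z ≠ 0 := norm_pos_iff.1 h0
  have hT := EUp_lift ht hA
  have ha := hF.iterate a
  have h1 := EUp_det (hF.iterate m) ((hF.iterate w).comp (hT.comp ha)) ℓ hz (evs J)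
  have h2 : fr (F^[m] ∘ F^[w] ∘ Tm t A ∘ F^[a]) Z (evs J) = fr F^[w + m] (Tm t A (F^[a] Z))
      fun k => Tm t A (fderiv ℂ F^[a] Z (ev (J k))) := by
    rw [← comp_assoc, ← D_iter, EUp_fr (hF.iterate _) (hT.comp ha)]
    simp only [D_fderiv_comp hT ha, ContinuousLinearMap.fderiv, comp_apply, evs]
  have h3 : ‖plk fun j => Bm (F^[w] ∘ Tm t A ∘ F^[a]) Z (evs J j)‖ ≤
      C * (K ^ w * 4) ^ s * al F^[a] J Z := by
    rw [← comp_assoc, D_Bm_comp ((hF.iterate w).comp hT) ha hz]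
    refine (plk_map_le (Bm (F^[w] ∘ Tm t A) (F^[a] Z)) fun j => Bm F^[a] Z (evs J j)).trans
      (mul_le_mul_of_nonneg_right ((hw _ _).trans ?_) (norm_nonneg _))
    gcongr
    rw [D_Bm_comp (hF.iterate w) hT (ha.ne hz)]
    exact (ContinuousLinearMap.opNorm_comp_le _ _).trans (mul_le_mul (hB _ _ (hT.ne (ha.ne hz)))
      (EUp_Bm ht hA (ha.ne hz)) (norm_nonneg _) (by positivity))
  have h4 : 1 ≤ ‖Z‖ ^ s * 2 ^ s := by
    rw [← mul_pow]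
    exact one_le_pow₀ (by linarith)
  have h5 : F^[w + m] (Tm t A (F^[a] Z)) = F^[m] ((F^[w] ∘ Tm t A ∘ F^[a]) Z) := by
    rw [D_iter]
    rfl
  rw [h2, ← h5] at h1
  have h6 := D_le_exp_rg hd m (an (th ℓ F^[m] ((F^[w] ∘ Tm t A ∘ F^[a]) Z)))
  have h7 := D_le_exp_rg hd a (al F^[a] J Z)
  have h8 := an_nonneg (th ℓ F^[m] ((F^[w] ∘ Tm t A ∘ F^[a]) Z))
  have h9 := D_al_nonneg F^[a] J Z
  refine (le_mul_of_one_le_right (norm_nonneg _) h4).trans ?_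
  rw [← mul_assoc, Real.exp_add]
  calc _ ≤ Real.exp (bt d F ℓ m (F^[w] (Tm t A (F^[a] Z)))) *
        (C * (K ^ w * 4) ^ s * Real.exp (rg d a (al F^[a] J Z))) *
        ‖F^[w + m] (Tm t A (F^[a] Z))‖ ^ (s + 1) * 2 ^ s := by
        refine mul_le_mul_of_nonneg_right (h1.trans (mul_le_mul_of_nonneg_right
          (mul_le_mul h6 (h3.trans ?_) (norm_nonneg _) (Real.exp_pos _).le)
          (by positivity))) (by positivity)
        gcongr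
    _ = C * (K ^ w * 4) ^ s * 2 ^ s * (Real.exp (bt d F ℓ m (F^[w] (Tm t A (F^[a] Z)))) *
        Real.exp (rg d a (al F^[a] J Z))) * ‖F^[w + m] (Tm t A (F^[a] Z))‖ ^ (s + 1) := by ring
    _ ≤ _ := by
        gcongr
        exact le_max_right _ _

/-- One vector for the sum of the two potentials and a constant: `sos_pe`, `sos_phE`, `SOS.comp`,
`SOS.mul`, `sos_const`, and `Osg.analyticOnNhd_of_differentiableOn`. -/
theorem exists_vec (hF : IsLift d F) (hd : 1 ≤ d) (w m a : ℕ) (ℓ : E n →L[ℂ] E (s + 1))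
    {A : E (n * n)} {b : E n} {J : Fin s → Fin n} {R ρ : ℝ} (h : Fat b J ρ) (hR : R ≤ 1 / 2)
    (hA : ‖A‖ ≤ 1) (c : ℝ) : ∃ (N : ℕ) (H : E (s + 1) → E N), Dc.NV H (Tb s R ρ) ∧
      ∀ y ∈ Tb s R ρ, Dc.lf H y =
        pe d F ℓ m (F^[w] (Ph F^[a] A b J y)) + phE d F a J (Zb b J y) + c := by
  obtain ⟨σ, h1, h2⟩ := sos_pe hF hd ℓ m
  obtain ⟨σ', h3, h4⟩ := sos_phE hF hd a J
  have h5 := (hF.iterate w).nv_comp (nv_Ph (A := A) (hF.iterate a) h hR hA)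
  obtain ⟨N, H, h6, h7⟩ := ((h1.comp h5.cd fun y hy => h5.ne y hy).mul
    (h3.comp ((analytic_Zb b J).mono (subset_univ _)).contDiffOn_of_completeSpace
      fun y hy => h.ne hy)).mul (sos_const (Real.exp_pos (2 * c)).le)
  refine ⟨N, H, ⟨Osg.analyticOnNhd_of_differentiableOn (isOpen_Tb s R ρ)
    (h6.differentiableOn (by simp)), fun y hy e => ?_⟩, fun y hy => ?_⟩
  · have h8 := h7 y hy
    have := (h2 _ (h5.ne y hy)).1
    have := (h4 _ (h.ne hy)).1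
    rw [e, norm_zero, zero_pow two_ne_zero] at h8
    exact absurd h8 (by positivity)
  · obtain ⟨h8, h9⟩ := h2 _ (h5.ne y hy)
    obtain ⟨h10, h11⟩ := h4 _ (h.ne hy)
    have h12 := congrArg Real.log (h7 y hy)
    rw [Real.log_mul (by positivity) (Real.exp_pos _).ne', Real.log_mul h8.ne' h10.ne',
      Real.log_exp, Real.log_pow] at h12
    rw [h9, h11, Dc.lf, lg]
    push_cast at h12
    linarith

/-- At a centre the determinant is `th ℓ F^[L] z (evs J) * ‖F^[L] z‖ ^ (s + 1) / ‖z‖ ^ s`. -/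
theorem jac_tXi (hF : IsLift d F) (l a : ℕ) (ℓ : E n →L[ℂ] E (s + 1)) (A : E (n * n)) (b : E n)
    (J : Fin s → Fin n) {x : E s} (h0 : ℓ (F^[l + a] (Zb b J (cs 0 x))) 0 ≠ 0) :
    jac (tXi F l a ℓ A b J) (cs 0 x) = jz F^[l + a] ℓ J (Zb b J (cs 0 x)) := by
  have h1 : tX F l a A b J (cs 0 x) = F^[l + a] (Zb b J (cs 0 x)) := by
    rw [tX, Ph_cs, iterate_add_apply]
  have h2 := dl_tXi hF l a ℓ A b J (y := cs 0 x) (by rwa [h1])
  have h3 : fr F^[l + a] (Zb b J (cs 0 x)) (evs J) = fr F^[l] (Ph F^[a] A b J (cs 0 x))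
      fun k => Tm (cs 0 x 0) A (fderiv ℂ F^[a] (Zb b J (cs 0 x)) (ev (J k))) := by
    rw [iterate_add, EUp_fr (hF.iterate l) (hF.iterate a), Ph_cs,
      show cs 0 x 0 = 0 from rfl, Tm_zero]
    rfl
  have h4 : ‖ℓ (F^[l + a] (Zb b J (cs 0 x))) 0‖ ≠ 0 := norm_ne_zero_iff.2 h0
  rw [jac_eq_dl, jz, h3, ← h2, h1, norm_mul, norm_pow, mul_pow, mul_div_cancel_right₀]
  positivity

theorem jz_eq {D : ℕ} {G : E n → E n} (hG : IsLift D G) (ℓ : E n →L[ℂ] E (s + 1))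
    (J : Fin s → Fin n) {z : E n} (hz : z ≠ 0) :
    jz G ℓ J z = (‖th ℓ G z (evs J)‖ * ‖G z‖ ^ (s + 1) / (‖z‖ ^ s * ‖ℓ (G z) 0‖ ^ (s + 1))) ^ 2 := by
  have h1 : ‖z‖ ^ s ≠ 0 := pow_ne_zero _ (norm_ne_zero_iff.2 hz)
  have h2 : ‖G z‖ ^ (s + 1) ≠ 0 := pow_ne_zero _ (norm_ne_zero_iff.2 (hG.ne hz))
  rw [jz, ← div_pow, th, norm_mul, norm_real, Real.norm_of_nonneg (by positivity), mul_assoc,
    div_mul_cancel₀ _ h2, mul_comm _ (‖z‖ ^ s), mul_div_mul_left _ _ h1]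

theorem th_le_jz {D : ℕ} {G : E n → E n} (hG : IsLift D G) {ℓ : E n →L[ℂ] E (s + 1)} (hℓ : ‖ℓ‖ ≤ 1)
    (J : Fin s → Fin n) {z : E n} (hz : z ≠ 0) (hz2 : ‖z‖ ≤ 2) (h0 : ℓ (G z) 0 ≠ 0) :
    ‖th ℓ G z (evs J)‖ ^ 2 ≤ 4 ^ s * jz G ℓ J z := by
  have h1 : 0 < ‖z‖ := norm_pos_iff.2 hz
  have h2 : 0 < ‖ℓ (G z) 0‖ := norm_pos_iff.2 h0
  have h3 := ELL_co hℓ (G z) 0
  rw [jz_eq hG ℓ J hz, show (4 : ℝ) ^ s = (2 ^ s) ^ 2 by rw [← pow_mul, mul_comm, pow_mul]; norm_num,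
    ← mul_pow, ← mul_div_assoc]
  refine pow_le_pow_left₀ (norm_nonneg _) ?_ 2
  rw [le_div_iff₀ (by positivity), mul_left_comm, ← mul_assoc, ← mul_assoc, mul_comm (‖z‖ ^ s)]
  rw [mul_comm _ ‖th ℓ G z (evs J)‖]
  gcongr

/-- Put `l = w + m`, `g = ℓ X 0`, `W = F^[a] Z`. Then
`pot = bt + rg + (s + 1) (lg X - log ‖g‖) + (s + 1) (lg W - d ^ (-l) log ‖g‖) + c`, where
`0 ≤ lg X - log ‖g‖ ≤ log (4 M)` (`log_ratio`) and `|lg W - d ^ (-l) log ‖g‖| ≤ C + log (4 M)`, more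
precisely `≥ -C` (`green_bound`, `norm_Tm`). Take `c = log C_w + (s + 1) C` with `C_w` from
`exists_det_le`. Lower bound: `-N log d ≤ rg d N x`. Centres: `jac_tXi`, `jz_eq`, `‖z‖ ≤ 3`. -/
theorem exists_pot (hF : IsLift d F) (hd : 2 ≤ d) (s : ℕ) {M : ℝ} (hM : 1 ≤ M) (w : ℕ) :
    ∃ c c' : ℝ, 0 ≤ c' ∧ ∀ (m a : ℕ) (ℓ : E n →L[ℂ] E (s + 1)) (A : E (n * n)) (b : E n)
      (J : Fin s → Fin n) (R ρ : ℝ) (N : ℕ) (H : E (s + 1) → E N), Fat b J ρ → R ≤ 1 / 2 →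
      ‖A‖ ≤ 1 → ‖ℓ‖ ≤ 1 →
      (∀ y ∈ Tb s R ρ, Dc.lf H y =
        pe d F ℓ m (F^[w] (Ph F^[a] A b J y)) + phE d F a J (Zb b J y) + c) →
      ∀ y ∈ Om (tX F (w + m) a A b J) ℓ R ρ M,
        ‖dl (tXi F (w + m) a ℓ A b J) y‖ ≤ Real.exp (Dc.pot H
          (fun y => ℓ (tX F (w + m) a A b J y) 0) ((s + 1) * (1 + ((d : ℝ) ^ (w + m))⁻¹)) y) ∧
        -((m + a) * Real.log d) ≤ Dc.pot H
          (fun y => ℓ (tX F (w + m) a A b J y) 0) ((s + 1) * (1 + ((d : ℝ) ^ (w + m))⁻¹)) y ∧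
        ∀ (x : E s) (K : ℝ), y = cs 0 x → Zb b J y ∈ Cn d F a w m ℓ J M K →
          Real.exp (Dc.pot H (fun y => ℓ (tX F (w + m) a A b J y) 0)
            ((s + 1) * (1 + ((d : ℝ) ^ (w + m))⁻¹)) y - (K + c')) ≤
            ‖dl (tXi F (w + m) a ℓ A b J) y‖ := by
  have hd1 : 1 ≤ d := by omega
  obtain ⟨Cw, hCw, h1⟩ := exists_det_le hF hd1 s w
  obtain ⟨C, hC, h2⟩ := green_bound hF hd
  have l2 : 0 ≤ Real.log 2 := Real.log_nonneg one_le_two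
  have l3 : 0 ≤ Real.log 3 := Real.log_nonneg (by norm_num)
  have l4 : 0 ≤ Real.log (4 * M) := Real.log_nonneg (by linarith)
  have l5 : 0 ≤ Real.log Cw := Real.log_nonneg hCw
  refine ⟨Real.log Cw + (s + 1) * (C + Real.log 2), Real.log Cw +
    2 * ((s + 1) * (C + Real.log 2 + Real.log (4 * M))) + s * Real.log 3, by positivity,
    fun m a ℓ A b J R ρ N H hb hR hA hℓ hH y hy => ?_⟩
  have hnv := nv_Ph (A := A) (hF.iterate a) hb hR hA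
  have hX : Dc.NV (tX F (w + m) a A b J) (Tb s R ρ) := (hF.iterate (w + m)).nv_comp hnv
  obtain ⟨r1, r2⟩ := log_ratio hℓ hX hy
  have hg := ne_of_mem_Om hy
  have ht : ‖y 0‖ ≤ 1 / 2 := hy.1.1.le.trans hR
  have hZ := hb y hy.1.2
  have hz := hb.ne hy.1
  have hW := (hF.iterate a).ne hz
  have hΦ := hnv.ne y hy.1
  obtain ⟨t1, t2, -⟩ := norm_Tm ht hA (F^[a] (Zb b J y))
  have t3 : lg (F^[a] (Zb b J y)) ≤ Real.log 2 + Real.log ‖Ph F^[a] A b J y‖ := by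
    rw [← Real.log_mul two_ne_zero (norm_ne_zero_iff.2 hΦ)]
    exact Real.log_le_log (norm_pos_iff.2 hW) t1
  have t4 : Real.log ‖Ph F^[a] A b J y‖ ≤ Real.log 2 + lg (F^[a] (Zb b J y)) := by
    rw [lg, ← Real.log_mul two_ne_zero (norm_ne_zero_iff.2 hW)]
    exact Real.log_le_log (norm_pos_iff.2 hΦ) t2
  obtain ⟨g1, g2⟩ := abs_le.1 (h2 (w + m) _ hΦ)
  have e1 : (0 : ℝ) ≤ ((d : ℝ) ^ (w + m))⁻¹ := by positivity
  have e2 : ((d : ℝ) ^ (w + m))⁻¹ ≤ 1 :=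
    inv_le_one_of_one_le₀ (one_le_pow₀ (by exact_mod_cast hd1))
  have e3 : green d F (w + m) (Ph F^[a] A b J y) =
      ((d : ℝ) ^ (w + m))⁻¹ * lg (tX F (w + m) a A b J y) := rfl
  have e4 : F^[m] (F^[w] (Ph F^[a] A b J y)) = tX F (w + m) a A b J y := by
    rw [tX, add_comm w m, iterate_add_apply]
  obtain ⟨u, hu, u1, u2⟩ : ∃ u : ℝ, u = lg (tX F (w + m) a A b J y) -
      Real.log ‖ℓ (tX F (w + m) a A b J y) 0‖ ∧ 0 ≤ u ∧ u ≤ Real.log (4 * M) :=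
    ⟨_, rfl, by linarith, by linarith⟩
  obtain ⟨v, hv, v1, v2⟩ : ∃ v : ℝ, v = lg (F^[a] (Zb b J y)) - ((d : ℝ) ^ (w + m))⁻¹ *
      Real.log ‖ℓ (tX F (w + m) a A b J y) 0‖ + (C + Real.log 2) ∧ 0 ≤ v ∧
      v ≤ 2 * (C + Real.log 2) + Real.log (4 * M) := by
    have k1 := mul_nonneg e1 u1
    have k2 := mul_le_of_le_one_left u1 e2
    rw [hu, mul_sub, ← e3] at k1 k2
    exact ⟨_, rfl, by linarith, by linarith⟩
  have hp : Dc.pot H (fun y => ℓ (tX F (w + m) a A b J y) 0)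
      ((s + 1) * (1 + ((d : ℝ) ^ (w + m))⁻¹)) y =
      bt d F ℓ m (F^[w] (Ph F^[a] A b J y)) + rg d a (al F^[a] J (Zb b J y)) + Real.log Cw +
        (s + 1) * u + (s + 1) * v := by
    rw [Dc.pot, hH y hy.1, pe, phE, e4, hu, hv]
    ring
  have hs : (0 : ℝ) ≤ s + 1 := by positivity
  have p1 := mul_nonneg hs u1
  have p2 := mul_nonneg hs v1
  have hg' : 0 < ‖ℓ (tX F (w + m) a A b J y) 0‖ := norm_pos_iff.2 hg
  rw [hp]
  refine ⟨?_, ?_, fun x K hx hK => ?_⟩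
  · have k1 := h1 m a ℓ A (y 0) (Zb b J y) J ht hA hZ.1.le
    have k2 := congrArg norm (dl_tXi hF (w + m) a ℓ A b J hg)
    rw [norm_mul, norm_pow] at k2
    have k3 := k2.trans_le k1
    have k4 : Real.exp ((s + 1) * u) * ‖ℓ (tX F (w + m) a A b J y) 0‖ ^ (s + 1) =
        ‖tX F (w + m) a A b J y‖ ^ (s + 1) := by
      rw [← Nat.cast_add_one, Real.exp_nat_mul, ← mul_pow, hu, Real.exp_sub, lg, Real.exp_log hg',
        Real.exp_log (norm_pos_iff.2 (hX.ne y hy.1)), div_mul_cancel₀ _ hg'.ne']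
    refine le_trans ?_ (Real.exp_le_exp.2 (le_add_of_nonneg_right p2))
    rw [Real.exp_add, Real.exp_add, Real.exp_log (by linarith)]
    refine le_of_mul_le_mul_right ?_ (pow_pos hg' (s + 1))
    rw [mul_assoc, k4, mul_comm _ Cw]
    exact k3
  · have k1 := D_rg_ge hd1 m (an (th ℓ F^[m] (F^[w] (Ph F^[a] A b J y))))
    have k2 := D_rg_ge hd1 a (al F^[a] J (Zb b J y))
    rw [bt]
    linarith
  · subst hx
    have k1 : tX F (w + m) a A b J (cs 0 x) = F^[w + m + a] (Zb b J (cs 0 x)) := by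
      rw [tX, Ph_cs, ← iterate_add_apply]
    have k2 := jac_tXi hF (w + m) a ℓ A b J (x := x) (by rwa [← k1])
    rw [jac_eq_dl, jz_eq (hF.iterate _) ℓ J hz, sq_eq_sq₀ (norm_nonneg _) (by positivity)] at k2
    have k3 := hK.2
    rw [show a + w + m = w + m + a by ring, add_comm a w, iterate_add_apply,
      ← Ph_cs F^[a] A] at k3
    have k4 := mul_le_mul_of_nonneg_left u2 hs
    have k5 := mul_le_mul_of_nonneg_left v2 hs
    have k6 := ELL_co hℓ (F^[w + m + a] (Zb b J (cs 0 x))) 0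
    have k7 : 0 < ‖Zb b J (cs 0 x)‖ := norm_pos_iff.2 hz
    rw [k1] at hg'
    calc _ ≤ Real.exp (rg d a (al F^[a] J (Zb b J (cs 0 x))) +
          bt d F ℓ m (F^[w] (Ph F^[a] A b J (cs 0 x))) - K - s * Real.log 3) :=
          Real.exp_le_exp.2 (by linarith)
      _ ≤ ‖th ℓ F^[w + m + a] (Zb b J (cs 0 x)) (evs J)‖ / 3 ^ s := by
          rw [Real.exp_sub, Real.exp_nat_mul, Real.exp_log (by norm_num)]
          gcongr
      _ ≤ _ := by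
          rw [k2, div_le_div_iff₀ (by positivity) (by positivity), mul_assoc, mul_comm _ (3 ^ s)]
          have := hZ.2.le
          gcongr

end Pool.Agent.Lib.MP_a47f92_an
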