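import Pool.Agent.Lib.MP_a47f92_an.G.Cur3

set_option autoImplicit false

/-! A sanity check: the hypotheses of the main theorem are satisfiable (`s = 0`, an attracting
fixed point of the power map on projective space of any dimension). -/

namespace Pool.Agent.Lib.MP_a47f92_an

open MeasureTheory Filter Topology Set Complex Metric Function

variable {k d : ℕ}

/-- The power map. -/
noncomputable def exF (k d : ℕ) (z : E (k + 1)) : E (k + 1) := WithLp.toLp 2 fun i => z i ^ d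

/-- A cone around the first coordinate axis. -/
def exD (k : ℕ) : Set (E (k + 1)) := {z | z 0 ≠ 0 ∧ ∀ i, i ≠ 0 → ‖z i‖ < ‖z 0‖ / 2}

/-- The Dirac mass at the fixed point. -/
noncomputable def exT (k : ℕ) : Measure (Fr (k + 1) 0) := Measure.dirac (ev 0, Fin.elim0)

theorem Exa_app (z : E (k + 1)) (i : Fin (k + 1)) : exF k d z i = z i ^ d := rfl

theorem Exa_iter (m : ℕ) (z : E (k + 1)) (i : Fin (k + 1)) :
    (exF k d)^[m] z i = z i ^ d ^ m := by
  induction m with
  | zero => simp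
  | succ m ih => rw [iterate_succ_apply', Exa_app, ih, ← pow_mul, pow_succ]

theorem Exa_lift (hd : 2 ≤ d) : IsLift d (exF k d) := by
  refine ⟨?_, fun c z => ?_, fun z hz => ?_⟩
  · refine ContDiff.analyticOnNhd (𝕜 := ℂ) (contDiff_euclidean.2 fun i => ?_)
    exact ((EuclideanSpace.proj i : E (k + 1) →L[ℂ] ℂ).contDiff (n := ⊤)).pow d
  · ext i
    simp [Exa_app, mul_pow]
  · ext i
    have := congrArg (fun w : E (k + 1) => w i) hz
    exact pow_eq_zero_iff (by omega) |>.1 this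

theorem Exa_cont (i : Fin (k + 1)) : Continuous fun z : E (k + 1) => z i :=
  (EuclideanSpace.proj i : E (k + 1) →L[ℂ] ℂ).continuous

theorem Exa_trap (hd : 2 ≤ d) : Trap (exF k d) (exD k) := by
  refine ⟨?_, fun c hc z hz => ⟨?_, fun i hi => ?_⟩, ?_⟩
  · have : exD k = {z | z 0 ≠ 0} ∩ ⋂ i, ⋂ _ : i ≠ 0, {z | ‖z i‖ < ‖z 0‖ / 2} := by
      ext z
      simp [exD]
    rw [this]
    exact (isOpen_ne.preimage (Exa_cont 0)).inter (isOpen_iInter_of_finite fun i =>
      isOpen_iInter_of_finite fun _ =>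
        isOpen_lt (Exa_cont i).norm ((Exa_cont 0).norm.div_const 2))
  · exact mul_ne_zero hc hz.1
  · change ‖c * z i‖ < ‖c * z 0‖ / 2
    rw [norm_mul, norm_mul, mul_div_assoc]
    exact mul_lt_mul_of_pos_left (hz.2 i hi) (norm_pos_iff.2 hc)
  · have hcl : IsClosed {z : E (k + 1) | ∀ i, i ≠ 0 → ‖z i‖ ≤ ‖z 0‖ / 4} := by
      simp only [ofPred_forall]
      exact isClosed_iInter fun i => isClosed_iInter fun _ =>
        isClosed_le (Exa_cont i).norm ((Exa_cont 0).norm.div_const 4)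
    have hsub : exF k d '' exD k ⊆ {z : E (k + 1) | ∀ i, i ≠ 0 → ‖z i‖ ≤ ‖z 0‖ / 4} := by
      rintro _ ⟨z, hz, rfl⟩ i hi
      rw [Exa_app, Exa_app, norm_pow, norm_pow]
      calc ‖z i‖ ^ d ≤ (‖z 0‖ / 2) ^ d := pow_le_pow_left₀ (norm_nonneg _) (hz.2 i hi).le d
        _ = ‖z 0‖ ^ d / 2 ^ d := div_pow _ _ _
        _ ≤ ‖z 0‖ ^ d / 4 := by
          refine div_le_div_of_nonneg_left (by positivity) (by norm_num) ?_
          calc (4 : ℝ) = 2 ^ 2 := by norm_num
            _ ≤ 2 ^ d := pow_le_pow_right₀ (by norm_num) hd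
    rintro z ⟨hz, h0⟩
    have h1 := closure_minimal hsub hcl hz
    have h2 : z 0 ≠ 0 := fun h2 => h0 (by
      ext i
      by_cases hi : i = 0
      · rw [hi, h2]; rfl
      · have := h1 i hi
        rw [h2, norm_zero, zero_div] at this
        exact norm_le_zero_iff.1 this)
    have h3 := norm_pos_iff.2 h2
    exact ⟨h2, fun i hi => (h1 i hi).trans_lt (by linarith)⟩

theorem Exa_ratio (hd : 2 ≤ d) {z : E (k + 1)} (hz : z ∈ exD k) (m : ℕ) {i : Fin (k + 1)}
    (hi : i ≠ 0) : ‖(exF k d)^[m] z i‖ ≤ (1 / 2) ^ m * ‖(exF k d)^[m] z 0‖ := by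
  rw [Exa_iter, Exa_iter, norm_pow, norm_pow]
  calc ‖z i‖ ^ d ^ m ≤ (1 / 2 * ‖z 0‖) ^ d ^ m :=
        pow_le_pow_left₀ (norm_nonneg _) (by linarith [hz.2 i hi]) _
    _ = (1 / 2) ^ d ^ m * ‖z 0‖ ^ d ^ m := mul_pow _ _ _
    _ ≤ (1 / 2) ^ m * ‖z 0‖ ^ d ^ m := by
      refine mul_le_mul_of_nonneg_right ?_ (by positivity)
      exact pow_le_pow_of_le_one (by norm_num) (by norm_num)
        (Nat.lt_pow_self (by omega)).le

theorem Exa_line (hd : 2 ≤ d) {z : E (k + 1)} (hz : z ∈ ⋂ m, (exF k d)^[m] '' exD k)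
    {i : Fin (k + 1)} (hi : i ≠ 0) : z i = 0 := by
  have h1 : ∀ m : ℕ, ‖z i‖ ≤ (1 / 2) ^ m * ‖z 0‖ := fun m => by
    obtain ⟨w, hw, rfl⟩ := mem_iInter.1 hz m
    exact Exa_ratio hd hw m hi
  have h2 : Tendsto (fun m : ℕ => (1 / 2 : ℝ) ^ m * ‖z 0‖) atTop (𝓝 (0 * ‖z 0‖)) :=
    (tendsto_pow_atTop_nhds_zero_of_lt_one (by norm_num) (by norm_num)).mul_const _
  rw [zero_mul] at h2
  exact norm_le_zero_iff.1 (ge_of_tendsto' h2 h1)

theorem Exa_der (hd : 2 ≤ d) (z v : E (k + 1)) (i : Fin (k + 1)) :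
    fderiv ℂ (exF k d) z v i = d * z i ^ (d - 1) * v i := by
  have h1 := (EuclideanSpace.proj i : E (k + 1) →L[ℂ] ℂ).hasFDerivAt.comp z
    ((Exa_lift (k := k) hd).differentiable z).hasFDerivAt
  have h2 := ((EuclideanSpace.proj i : E (k + 1) →L[ℂ] ℂ).hasFDerivAt (x := z)).pow d
  have h3 := congrArg (fun L : E (k + 1) →L[ℂ] ℂ => L v) (h1.unique h2)
  simpa using h3

theorem Exa_dim (hd : 2 ≤ d) :
    ¬ ∃ S : Measure (Fr (k + 1) (0 + 1)), InC (⋂ m, (exF k d)^[m] '' exD k) S := by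
  rintro ⟨S, hS⟩
  have hF := Exa_lift (k := k) hd
  have h1 := hS.closed.p1_deg hS.cur (q := fun _ z => lg (exF k d z)) (D := fun _ => 1 * d)
    fun _ => lh_lg.comp hF
  have h2 : mass S = 1 := hS.mass
  obtain ⟨K, -, -, hK, hae⟩ := hS.supp
  have h3 : p1 S (fun _ z => lg (exF k d z)) = 0 := by
    rw [hS.cur.p1_eq]
    refine integral_eq_zero_of_ae ?_
    filter_upwards [hae, hS.cur.ne] with x hx h0
    have hx' := hK ⟨hx, h0⟩
    have hz0 : x.1 0 ≠ 0 := by
      obtain ⟨w, hw, e⟩ := mem_iInter.1 hx' 0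
      rw [← e]
      exact hw.1
    rw [dn_fw (q := fun _ => lg) pots_lg hF (by omega)]
    have e : fw (exF k d) x = chg 0 (fun j => d * x.2 j 0 / x.1 0) (fw (exF k d) x) := by
      refine Prod.ext rfl (funext fun j => ?_)
      ext i
      simp only [chg, fw, Matrix.zero_apply, zero_smul, Finset.sum_const_zero, zero_add,
        PiLp.smul_apply, smul_eq_mul, Exa_der hd, Exa_app]
      obtain ⟨d, rfl⟩ : ∃ d', d = d' + 2 := ⟨d - 2, by omega⟩
      by_cases hi : i = 0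
      · subst hi
        rw [show d + 2 - 1 = d + 1 from rfl]
        field_simp
        ring
      · rw [Exa_line hd hx' hi]
        simp
    have h4 := (tst_dc (q := fun _ : Fin (0 + 1) => lg) pots_lg).alg.hc 0
      (fun j => d * x.2 j 0 / x.1 0) (fw (exF k d) x) (hF.ne h0)
    rw [← e, Matrix.det_zero, norm_zero, zero_pow two_ne_zero, ofReal_zero, zero_mul] at h4
    rw [dn, h4]
    simp
  rw [h3, h2] at h1
  have h5 : (0 : ℝ) < d := Nat.cast_pos.2 (by omega)
  simp only [one_mul, Finset.prod_const, mul_one] at h1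
  exact (pow_pos h5 _).ne h1

theorem Exa_md (A : Fin 0 → Mat 0) : mdC A = 1 := by
  simp [mdC]

theorem Exa_pr (S : Measure (Fr (k + 1) 0)) (a : E (k + 1) → ℝ) (q : Fin 0 → E (k + 1) → ℝ) :
    pr S a q = ∫ x, a x.1 ∂S := by
  simp [pr, Exa_md]

theorem Exa_ev : (ev 0 : E (k + 1)) ≠ 0 := fun h => by
  have := congrArg (fun w : E (k + 1) => w 0) h
  simp [ev] at this

theorem Exa_inC : InC (exD k) (exT k) := by
  refine ⟨⟨by unfold exT; infer_instance, ?_, ?_⟩, fun _ _ _ _ _ _ l => l.elim0, ?_,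
    {z | ∀ i, i ≠ 0 → z i = 0}, ?_, ?_, ?_, ?_⟩
  · simpa [exT] using Exa_ev
  · simp only [Exa_md, exT]
    exact integrable_const _
  · simp [Exa_pr, exT]
  · simp only [ofPred_forall]
    exact isClosed_iInter fun i => isClosed_iInter fun _ => isClosed_eq (Exa_cont i) continuous_const
  · intro c _ z hz i hi
    change c * z i = 0
    rw [hz i hi, mul_zero]
  · rintro z ⟨hz, h0⟩
    have h2 : z 0 ≠ 0 := fun h2 => h0 (by
      ext i
      by_cases hi : i = 0
      · rw [hi, h2]; rfl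
      · exact hz i hi)
    exact ⟨h2, fun i hi => by rw [hz i hi, norm_zero]; exact half_pos (norm_pos_iff.2 h2)⟩
  · simp only [exT, ae_dirac_eq, eventually_pure, mem_ofPred_eq]
    intro i hi
    simp [ev, hi]

theorem Exa_conv (hd : 2 ≤ d) {a : E (k + 1) → ℝ} (ha : LH 0 a) {z : E (k + 1)} (hz : z ∈ exD k) :
    Tendsto (fun m => a ((exF k d)^[m] z)) atTop (𝓝 (a (ev 0))) := by
  have h0 : ∀ m, (exF k d)^[m] z 0 ≠ 0 := fun m => by
    rw [Exa_iter]
    exact pow_ne_zero _ hz.1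
  have h1 : Tendsto (fun m => ((exF k d)^[m] z 0)⁻¹ • (exF k d)^[m] z) atTop (𝓝 (ev 0)) := by
    refine (PiLp.homeomorph 2 fun _ : Fin (k + 1) => ℂ).isInducing.tendsto_nhds_iff.2
      (tendsto_pi_nhds.2 fun i => ?_)
    change Tendsto (fun m => ((exF k d)^[m] z 0)⁻¹ * (exF k d)^[m] z i) atTop (𝓝 ((ev 0 : E (k + 1)) i))
    by_cases hi : i = 0
    · subst hi
      simp only [inv_mul_cancel₀ (h0 _)]
      simp [ev]
    · have : (ev 0 : E (k + 1)) i = 0 := by simp [ev, hi]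
      rw [this]
      refine squeeze_zero_norm (fun m => ?_)
        (tendsto_pow_atTop_nhds_zero_of_lt_one (r := 1 / 2) (by norm_num) (by norm_num))
      rw [norm_mul, norm_inv, inv_mul_le_iff₀ (norm_pos_iff.2 (h0 m)), mul_comm]
      exact Exa_ratio hd hz m hi
  refine ((ha.contDiffAt Exa_ev).continuousAt.tendsto.comp h1).congr fun m => ?_
  exact ha.inv0 _ (inv_ne_zero (h0 m)) _ fun h => h0 m (by rw [h]; rfl)

theorem Exa_attr (hd : 2 ≤ d) : Attr d (exF k d) (exD k) (exT k) := by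
  intro S hS _ a ha q hq
  have hF := Exa_lift (k := k) hd
  have hfin : IsFiniteMeasure S := by
    have := hS.cur.int
    simp only [Exa_md, one_re] at this
    exact (integrable_const_iff_isFiniteMeasure one_ne_zero).1 this
  have hm : S.real univ = 1 := by simpa [Exa_pr] using hS.mass
  obtain ⟨K, -, -, hK, hae⟩ := hS.supp
  obtain ⟨C, -, hC⟩ := ha.bound
  have h1 : Tendsto (fun m => ∫ x, a ((exF k d)^[m] x.1) ∂S) atTop (𝓝 (∫ _, a (ev 0) ∂S)) := by
    refine tendsto_integral_of_dominated_convergence (fun _ => C) (fun m => ?_)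
      (integrable_const _) (fun m => Eventually.of_forall fun x => hC _) ?_
    · exact ((ha.measurable.comp (hF.iterate m).contDiff.continuous.measurable).comp
        measurable_fst).aestronglyMeasurable
    · filter_upwards [hae, hS.cur.ne] with x hx h0
      exact Exa_conv hd ha (hK ⟨hx, h0⟩)
  have h2 : pr (exT k) a q = ∫ _, a (ev 0) ∂S := by
    simp [Exa_pr, exT, hm]
  rw [h2]
  refine h1.cesaro.congr fun N => ?_
  congr 1
  refine Finset.sum_congr rfl fun m _ => ?_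
  rw [hS.cur.pr_map_fw (hF.iterate m) (Nat.one_le_pow _ _ (by omega)) ha.measurable hq, Exa_pr]
  simp

theorem Exa_eq : IsEq d (exF k d) (exT k) (Measure.dirac (ev 0)) := by
  refine ⟨inferInstance, by simpa using Exa_ev, fun a _ => ?_⟩
  simp [Exa_pr, exT]

/-- All hypotheses of the main theorem hold in this example. -/
theorem exa (hd : 2 ≤ d) : IsLift d (exF k d) ∧ Trap (exF k d) (exD k) ∧
    (¬ ∃ S : Measure (Fr (k + 1) (0 + 1)), InC (⋂ m, (exF k d)^[m] '' exD k) S) ∧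
    InC (exD k) (exT k) ∧ Attr d (exF k d) (exD k) (exT k) ∧
    IsEq d (exF k d) (exT k) (Measure.dirac (ev 0)) :=
  ⟨Exa_lift hd, Exa_trap hd, Exa_dim hd, Exa_inC, Exa_attr hd, Exa_eq⟩

end Pool.Agent.Lib.MP_a47f92_an
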