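import Pool.Agent.Lib.MP_a47f92_an.G.Cur1

set_option autoImplicit false
set_option linter.unusedSectionVars false

namespace Pool.Agent.Lib.MP_a47f92_an

open MeasureTheory Filter Topology Set Complex Metric Function
open scoped ContDiff ComplexConjugate ComplexOrder Matrix ENNReal NNReal

/-! Families of test forms depending on a parameter. -/

variable {n p : ℕ} {S : Measure (Fr n p)} {P : Type} [TopologicalSpace P] {K : Set P}
  {g : P → Fr n p → ℂ}

/-- Continuous families of test forms. -/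
structure TF (K : Set P) (g : P → Fr n p → ℂ) : Prop where
  cont : ContinuousOn (fun y : P × Fr n p => g y.1 y.2) (K ×ˢ {x | x.1 ≠ 0})
  alg : ∀ a ∈ K, Alg (g a)

theorem TF.tst (h : TF K g) {a : P} (ha : a ∈ K) : Tst (g a) :=
  ⟨h.alg a ha, h.cont.comp (Continuous.prodMk_right a).continuousOn fun _ hx => ⟨ha, hx⟩⟩

theorem TF.mono (h : TF K g) {K' : Set P} (h' : K' ⊆ K) : TF K' g :=
  ⟨h.cont.mono (prod_mono_left h'), fun a ha => h.alg a (h' ha)⟩

theorem TF.comp (h : TF K g) {Q : Type} [TopologicalSpace Q] {L : Set Q} {φ : Q → P}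
    (hφ : ContinuousOn φ L) (hm : MapsTo φ L K) : TF L fun b => g (φ b) :=
  ⟨h.cont.comp (f := fun y : Q × Fr n p => (φ y.1, y.2))
    ((hφ.comp continuousOn_fst fun _ hy => hy.1).prodMk continuousOn_snd)
    fun _ hy => ⟨hm hy.1, hy.2⟩, fun _ hb => h.alg _ (hm hb)⟩

theorem TF.mul (h : TF K g) {c : P → ℂ} (hc : ContinuousOn c K) : TF K fun a x => c a * g a x := by
  refine ⟨(hc.comp continuousOn_fst fun _ hy => hy.1).mul h.cont,
    fun a ha => ⟨fun b hb x hx => ?_, fun M b x hx => ?_⟩⟩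
  · rw [(h.alg a ha).hs b hb x hx]
  · rw [(h.alg a ha).hc M b x hx, mul_left_comm]

theorem TF.add {g' : P → Fr n p → ℂ} (h : TF K g) (h' : TF K g') :
    TF K fun a x => g a x + g' a x :=
  ⟨h.cont.add h'.cont, fun _ ha => ((h.tst ha).add (h'.tst ha)).alg⟩

theorem tf_sum {ι : Type} (A : Finset ι) {g : ι → P → Fr n p → ℂ} (h : ∀ i ∈ A, TF K (g i)) :
    TF K fun a x => ∑ i ∈ A, g i a x := by
  refine ⟨continuousOn_finsetSum A fun i hi => (h i hi).cont,
    fun a ha => ⟨fun b hb x hx => ?_, fun M b x hx => ?_⟩⟩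
  · exact Finset.sum_congr rfl fun i hi => ((h i hi).alg a ha).hs b hb x hx
  · rw [Finset.mul_sum]
    exact Finset.sum_congr rfl fun i hi => ((h i hi).alg a ha).hc M b x hx

theorem TF.bound (h : TF K g) (hK : IsCompact K) : ∃ C : ℝ, 0 ≤ C ∧
    ∀ S : Measure (Fr n p), IsCur S → ∀ a ∈ K, ‖∫ x, g a x ∂S‖ ≤ C * mass S := by
  obtain ⟨C, h0, hC⟩ := exists_bound_family hK h.cont h.alg
  exact ⟨C, h0, fun S hS a ha => hS.norm_integral_le (hC a ha)⟩

theorem TF.continuousOn [FirstCountableTopology P] (h : TF K g) (hK : IsCompact K) (hS : IsCur S) :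
    ContinuousOn (fun a => ∫ x, g a x ∂S) K := by
  obtain ⟨C, -, hC⟩ := exists_bound_family hK h.cont h.alg
  exact continuousOn_of_dominated (bound := fun x => C * dens x)
    (fun a ha => hS.aesm (h.tst ha).cont) (fun a ha => hS.ne.mono fun x hx => hC a ha x hx)
    (hS.int_dens.const_mul C) (hS.ne.mono fun x hx =>
      h.cont.comp (Continuous.prodMk_left x).continuousOn fun _ ha => ⟨ha, hx⟩)

variable [MeasurableSpace P] [BorelSpace P] [SecondCountableTopology P] [T2Space P]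
  {μ : Measure P} [IsFiniteMeasure μ]

theorem TF.integrable (h : TF K g) (hK : IsCompact K) (hS : IsCur S) (hμ : ∀ᵐ a ∂μ, a ∈ K) :
    Integrable (fun y : P × Fr n p => g y.1 y.2) (μ.prod S) := by
  have := hS.sf
  obtain ⟨C, -, hC⟩ := exists_bound_family hK h.cont h.alg
  have h1 : ∀ᵐ y ∂μ.prod S, y ∈ K ×ˢ {x : Fr n p | x.1 ≠ 0} :=
    (Measure.quasiMeasurePreserving_fst.ae hμ).and (Measure.quasiMeasurePreserving_snd.ae hS.ne)
  have h2 : MeasurableSet (K ×ˢ {x : Fr n p | x.1 ≠ 0}) :=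
    hK.measurableSet.prod (measurable_fst (measurableSet_singleton 0).compl)
  refine ((hS.int_dens.const_mul C).comp_snd μ).mono' ?_
    (h1.mono fun y hy => hC y.1 hy.1 y.2 hy.2)
  rw [← Measure.restrict_eq_self_of_ae_mem h1]
  exact h.cont.aestronglyMeasurable h2

theorem TF.integrable_integral (h : TF K g) (hK : IsCompact K) (hS : IsCur S)
    (hμ : ∀ᵐ a ∂μ, a ∈ K) : Integrable (fun a => ∫ x, g a x ∂S) μ := by
  have := hS.sf
  exact (h.integrable hK hS hμ).integral_prod_left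

theorem TF.swap (h : TF K g) (hK : IsCompact K) (hS : IsCur S) (hμ : ∀ᵐ a ∂μ, a ∈ K) :
    ∫ a, ∫ x, g a x ∂S ∂μ = ∫ x, ∫ a, g a x ∂μ ∂S := by
  have := hS.sf
  exact integral_integral_swap (h.integrable hK hS hμ)

/-- The version for a compactly supported weight and a locally finite measure. -/
theorem TF.swap_mul {ν : Measure P} [IsFiniteMeasureOnCompacts ν] [SFinite ν] (h : TF K g)
    (hK : IsCompact K) (hS : IsCur S) {γ : P → ℂ} (hγ : Continuous γ) (h0 : ∀ a, a ∉ K → γ a = 0) :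
    Integrable (fun a => γ a * ∫ x, g a x ∂S) ν ∧
      ∫ a, γ a * ∫ x, g a x ∂S ∂ν = ∫ x, ∫ a, γ a * g a x ∂ν ∂S := by
  have : IsFiniteMeasure (ν.restrict K) := isFiniteMeasure_restrict.2 hK.measure_lt_top.ne
  have h1 := h.mul hγ.continuousOn
  have h2 : ∀ᵐ a ∂ν.restrict K, a ∈ K := ae_restrict_mem hK.measurableSet
  have h3 : ∀ a, a ∉ K → γ a * ∫ x, g a x ∂S = 0 := fun a ha => by rw [h0 a ha, zero_mul]
  have h4 := h1.integrable_integral hK hS h2
  have h5 := h1.swap hK hS h2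
  simp only [integral_const_mul] at h4 h5
  refine ⟨IntegrableOn.integrable_of_forall_notMem_eq_zero h4 h3, ?_⟩
  rw [← setIntegral_eq_integral_of_forall_compl_eq_zero h3, h5]
  refine integral_congr_ae (Eventually.of_forall fun x => ?_)
  exact setIntegral_eq_integral_of_forall_compl_eq_zero fun a ha => by rw [h0 a ha, zero_mul]

end Pool.Agent.Lib.MP_a47f92_an
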