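import Pool.Agent.Lib.MP_a47f92_an.Def

set_option autoImplicit false

/-! Definitions used in the statement for arbitrary codimension. A strongly positive current of
bidimension `(p, p)` on the projective space of `E n` is given by a measure on pairs of a nonzero
point `z` of `E n` and a family of `p` vectors. -/

namespace Pool.Agent.Lib.MP_a47f92_an

open MeasureTheory Filter Topology Set Complex
open scoped ContDiff ComplexConjugate

variable {n p : ℕ}

/-- A point together with `p` vectors. -/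
abbrev Fr (n p : ℕ) := E n × (Fin p → E n)

/-- The form `∂ ∂bar q` evaluated on the vectors of `x`. -/
noncomputable def lv (q : E n → ℝ) (x : Fr n p) : Mat p :=
  Matrix.of fun i j => wd (x.2 i) (wb (x.2 j) fun w => (q w : ℂ)) x.1

/-- The form `∂ a ∧ ∂bar b` evaluated on the vectors of `x`. -/
noncomputable def gr (a b : E n → ℝ) (x : Fr n p) : Mat p :=
  Matrix.of fun i j => wd (x.2 i) (fun w => (a w : ℂ)) x.1 * wb (x.2 j) (fun w => (b w : ℂ)) x.1

/-- Smooth functions off the origin which are logarithmically homogeneous of degree `D`. For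
`D = 0` these are the smooth functions on projective space. -/
def LH (D : ℝ) (q : E n → ℝ) : Prop :=
  ContDiffOn ℝ ∞ q {0}ᶜ ∧ ∀ c : ℂ, c ≠ 0 → ∀ z, z ≠ 0 → q (c • z) = q z + D * Real.log ‖c‖

/-- A family of potentials of smooth closed forms of bidegree `(1,1)` on projective space. -/
def Pots (q : Fin p → E n → ℝ) : Prop := ∀ l, ∃ D, LH D (q l)

/-- The potential of the Fubini-Study form. -/
noncomputable def lg (z : E n) : ℝ := Real.log ‖z‖

/-- The value of the current `S` on the test form `a dd^c q_1 ∧ … ∧ dd^c q_p`. -/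
noncomputable def pr (S : Measure (Fr n p)) (a : E n → ℝ) (q : Fin p → E n → ℝ) : ℝ :=
  ∫ x, a x.1 * (mdC fun l => lv (q l) x).re ∂S

/-- `S` represents a positive current of finite mass. -/
structure IsCur (S : Measure (Fr n p)) : Prop where
  sf : SFinite S
  ne : ∀ᵐ x ∂S, x.1 ≠ 0
  int : Integrable (fun x => (mdC fun _ => lv lg x).re) S

/-- `S` vanishes on the forms `∂ (a ∂bar b) ∧ dd^c q_2 ∧ … ∧ dd^c q_p`. -/
def Closed (S : Measure (Fr n p)) : Prop :=
  ∀ a b, LH 0 a → LH 0 b → ∀ q, Pots q → ∀ l,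
    ∫ x, mdC (Function.update (fun l' => lv (q l') x) l (gr a b x + (a x.1 : ℂ) • lv b x)) ∂S = 0

/-- `S` is a positive closed current of mass one supported in `D`. -/
structure InC (D : Set (E n)) (S : Measure (Fr n p)) : Prop where
  cur : IsCur S
  closed : Closed S
  mass : pr S (fun _ => 1) (fun _ => lg) = 1
  supp : ∃ K, IsClosed K ∧ IsCone K ∧ K \ {0} ⊆ D ∧ ∀ᵐ x ∂S, x.1 ∈ K

/-- `S` is a continuous current: it is the fibre integral of a form with continuous coefficients
and compact support in `E n` minus the origin. -/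
def IsCont (S : Measure (Fr n p)) : Prop :=
  ∃ Φ : (Fin p → Fin n) → (Fin p → Fin n) → E n → ℂ,
    (∀ I J, Continuous (Φ I J) ∧ HasCompactSupport (Φ I J) ∧ 0 ∉ tsupport (Φ I J)) ∧
    ∀ a, LH 0 a → ∀ q, Pots q →
      pr S a q = ∫ w, a w * (∑ I, ∑ J, Φ I J w * ∏ l, hess (q l) w (I l) (J l)).re

/-- The action of `G` on points and vectors; the image measure is the push-forward current. -/
noncomputable def fw (G : E n → E n) (x : Fr n p) : Fr n p :=
  (G x.1, fun j => fderiv ℂ G x.1 (x.2 j))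

/-- The Cesàro means of `d ^ (-p m) (f ^ m)_* S` converge to `τ` for every continuous positive
closed current `S` of mass one supported in `D`. -/
def Attr (d : ℕ) (F : E n → E n) (D : Set (E n)) (τ : Measure (Fr n p)) : Prop :=
  ∀ S : Measure (Fr n p), InC D S → IsCont S → ∀ a, LH 0 a → ∀ q, Pots q →
    Tendsto (fun N : ℕ => (N : ℝ)⁻¹ * ∑ m ∈ Finset.range N,
      ((d : ℝ) ^ (p * m))⁻¹ * pr (S.map (fw F^[m])) a q) atTop (𝓝 (pr τ a q))

/-- The image of `ν` in projective space is `τ ∧ T ^ p = lim τ ∧ (d ^ (-m) (f ^ m)^* ω) ^ p`. -/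
structure IsEq (d : ℕ) (F : E n → E n) (τ : Measure (Fr n p)) (ν : Measure (E n)) : Prop where
  fin : IsFiniteMeasure ν
  ne : ∀ᵐ z ∂ν, z ≠ 0
  lim : ∀ a, LH 0 a →
    Tendsto (fun m => pr τ a fun _ => green d F m) atTop (𝓝 (∫ z, a z ∂ν))

/-- At `[z]` the tangent vectors in a subspace of codimension `s` are contracted exponentially by
the iterates of `f`, and all other tangent vectors are expanded exponentially. -/
def Hyp (F : E n → E n) (s : ℕ) (z : E n) : Prop :=
  ∃ θ : ℝ, 0 < θ ∧ θ < 1 ∧ ∃ V : Submodule ℂ (E n), z ∈ V ∧ Module.finrank ℂ V + s = n ∧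
    (∀ v ∈ V, ∀ᶠ m in atTop, fsNorm (F^[m] z) (fderiv ℂ F^[m] z v) ≤ θ ^ m) ∧
    ∀ v ∉ V, ∀ᶠ m in atTop, θ⁻¹ ^ m ≤ fsNorm (F^[m] z) (fderiv ℂ F^[m] z v)

end Pool.Agent.Lib.MP_a47f92_an
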