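import Pool.Agent.Lib.MP_a47f92_an.Int
import Pool.Agent.Lib.MP_a47f92_an.G.GDef

set_option autoImplicit false
set_option linter.unusedSectionVars false

/-! Internal definitions for arbitrary codimension. -/

namespace Pool.Agent.Lib.MP_a47f92_an

open MeasureTheory Filter Topology Set Complex Metric Function
open scoped ContDiff ComplexConjugate ComplexOrder Matrix ENNReal NNReal

section General

variable {V : Type} [NormedAddCommGroup V] [NormedSpace ℝ V] [NormedSpace ℂ V] {p : ℕ}

/-- Holomorphic Wirtinger derivative on a general space. -/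
noncomputable def gd (v : V) (f : V → ℂ) (z : V) : ℂ :=
  (fderiv ℝ f z v - I * fderiv ℝ f z (I • v)) / 2

/-- Antiholomorphic Wirtinger derivative on a general space. -/
noncomputable def gb (v : V) (f : V → ℂ) (z : V) : ℂ :=
  (fderiv ℝ f z v + I * fderiv ℝ f z (I • v)) / 2

/-- A real function seen as a complex function. -/
abbrev rc (q : V → ℝ) : V → ℂ := fun w => (q w : ℂ)

/-- The complex Hessian of `f` on the vectors `u`. -/
noncomputable def gl (f : V → ℂ) (z : V) (u : Fin p → V) : Mat p :=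
  Matrix.of fun i j => gd (u i) (gb (u j) f) z

/-- The form `∂ f ∧ ∂bar g` on the vectors `u`. -/
noncomputable def gg (f g : V → ℂ) (z : V) (u : Fin p → V) : Mat p :=
  Matrix.of fun i j => gd (u i) f z * gb (u j) g z

/-- The Levi form on a general space. -/
noncomputable def lap (f : V → ℝ) (z v : V) : ℝ := (gd v (gb v (rc f)) z).re

/-- Squared norms of holomorphic vector valued maps. -/
def SOS (Ω : Set V) (s : V → ℝ) : Prop :=
  ∃ (N : ℕ) (f : V → E N), ContDiffOn ℂ ∞ f Ω ∧ ∀ y ∈ Ω, s y = ‖f y‖ ^ 2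

end General

/-- A radial probability density `k` on the unit ball and a function `G` with `∂bar G = - k A`. -/
structure Kn (V : Type) [NormedAddCommGroup V] [InnerProductSpace ℂ V] [NormedSpace ℝ V]
    [MeasurableSpace V] (μ : Measure V) where
  k : V → ℝ
  G : V → ℝ
  sk : ContDiff ℝ ∞ k
  sG : ContDiff ℝ ∞ G
  pos : ∀ A, ‖A‖ < 1 → 0 < k A ∧ 0 < G A
  zero : ∀ A, 1 ≤ ‖A‖ → k A = 0 ∧ G A = 0
  rad : ∀ A B, ‖A‖ = ‖B‖ → k A = k B ∧ G A = G B
  int : ∫ A, k A ∂μ = 1
  der : ∀ A B, gb B (rc G) A = -(k A : ℂ) * inner ℂ B A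

variable {n m p : ℕ}

theorem wd_eq_gd (v : E n) (f : E n → ℂ) : wd v f = gd v f := rfl
theorem wb_eq_gb (v : E n) (f : E n → ℂ) : wb v f = gb v f := rfl
theorem lv_eq_gl (q : E n → ℝ) (x : Fr n p) : lv q x = gl (rc q) x.1 x.2 := rfl
theorem gr_eq_gg (a b : E n → ℝ) (x : Fr n p) : gr a b x = gg (rc a) (rc b) x.1 x.2 := rfl

/-! ### Frames, tensors -/

/-- The frame of coordinate vectors. -/
noncomputable def evs (J : Fin p → Fin n) : Fin p → E n := fun j => ev (J j)

/-- Restriction of a sesquilinear form to a frame. -/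
noncomputable def rs (H : Mat n) (v : Fin p → E n) : Mat p :=
  Matrix.of fun i j => ∑ a, ∑ b, v i a * conj (v j b) * H a b

/-- Plücker coordinates. -/
noncomputable def plk (w : Fin p → E n) : EuclideanSpace ℂ (Fin p → Fin n) :=
  WithLp.toLp 2 fun J => (Matrix.of fun i j => w j (J i)).det

/-- The Gram matrix. -/
noncomputable def gram (w : Fin p → E n) : Mat p := Matrix.of fun i j => inner ℂ (w j) (w i)

/-- Norm of a function of frames. -/
noncomputable def an (θ : (Fin p → E n) → ℂ) : ℝ := √(∑ J : Fin p → Fin n, ‖θ (evs J)‖ ^ 2)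

/-- A norm of the `p`-th exterior power. -/
noncomputable def wn (p : ℕ) (B : E n →L[ℂ] E m) : ℝ :=
  √(∑ J : Fin p → Fin n, ‖plk fun j => B (evs J j)‖ ^ 2)

/-- The product of the norms of the neighbouring exterior powers. -/
noncomputable def wn2 (s : ℕ) (B : E n →L[ℂ] E n) : ℝ :=
  if s = 0 then 0 else wn (s + 1) B * wn (s - 1) B

/-- The unit vector in the direction of `z`. -/
noncomputable def un (z : E n) : E n := ‖z‖⁻¹ • z

/-- The derivative on projective space, in unitary frames. -/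
noncomputable def Bm (G : E n → E n) (z : E n) : E n →L[ℂ] E n :=
  ((‖z‖ / ‖G z‖ : ℝ) : ℂ) • (prj (un (G z))).comp (fderiv ℂ G z)

/-- The image of the frame `z, v` up to the degree. -/
noncomputable def fr (G : E n → E m) (z : E n) (v : Fin p → E n) : Fin (p + 1) → E m :=
  Fin.cons (G z) fun j => fderiv ℂ G z (v j)

/-- The linear map with matrix `A`. -/
noncomputable def mt (m n : ℕ) : E (m * n) →L[ℂ] (E n →L[ℂ] E m) :=
  LinearMap.toContinuousLinearMap
    { toFun := fun A => LinearMap.toContinuousLinearMap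
        (Matrix.toLpLin 2 2 (Matrix.of fun i j => A (finProdFinEquiv (i, j))))
      map_add' := fun A B => by
        rw [← map_add, ← map_add]
        rfl
      map_smul' := fun c A => by
        rw [RingHom.id_apply, ← map_smul, ← map_smul]
        rfl }

/-- The perturbation `1 + t A` of the identity. -/
noncomputable def Tm (t : ℂ) (A : E (n * n)) : E n →L[ℂ] E n :=
  ContinuousLinearMap.id ℂ (E n) + t • mt n n A

/-! ### Test densities -/

/-- Closed cones. -/
def CC (K : Set (E n)) : Prop := IsClosed K ∧ IsCone K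

/-- Complex valued smooth functions on projective space. -/
def IC (a : E n → ℂ) : Prop :=
  ContDiffOn ℝ ∞ a {0}ᶜ ∧ ∀ c : ℂ, c ≠ 0 → ∀ z, z ≠ 0 → a (c • z) = a z

/-- Invariance under scalars. -/
def Inv0 {Y : Type} (a : E n → Y) : Prop := ∀ c : ℂ, c ≠ 0 → ∀ z, z ≠ 0 → a (c • z) = a z

/-- Plurisubharmonic potentials of degree `D`. -/
structure PL (D : ℝ) (q : E n → ℝ) : Prop where
  lh : LH D q
  psh : ∀ z, z ≠ 0 → ∀ v, 0 ≤ levi q z v

/-- Families of plurisubharmonic potentials. -/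
def PPs (q : Fin p → E n → ℝ) : Prop := ∀ l, ∃ D, PL D (q l)

/-- The complex density of the wedge product. -/
noncomputable def dc (q : Fin p → E n → ℝ) (x : Fr n p) : ℂ := mdC fun l => lv (q l) x

open Classical in
/-- The real density of the wedge product, with value zero over the origin. -/
noncomputable def dn (q : Fin p → E n → ℝ) (x : Fr n p) : ℝ := if x.1 = 0 then 0 else (dc q x).re

/-- The mass density. -/
noncomputable def dens (x : Fr n p) : ℝ := dn (fun _ => lg) x

/-- The density of the exact form in the definition of closedness, for complex functions. -/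
noncomputable def dx (a b : E n → ℂ) (q : Fin p → E n → ℝ) (l : Fin p) (x : Fr n p) : ℂ :=
  mdC (update (fun l' => lv (q l') x) l (gg a b x.1 x.2 + a x.1 • gl b x.1 x.2))

/-- Scaling of a point and a frame. -/
noncomputable def scl (c : ℂ) (x : Fr n p) : Fr n p := (c • x.1, fun j => c • x.2 j)

/-- Change of frame. -/
noncomputable def chg (P : Mat p) (c : Fin p → ℂ) (x : Fr n p) : Fr n p :=
  (x.1, fun j => ∑ i, P i j • x.2 i + c j • x.1)

/-- The transformation rules of a form of bidegree `(p, p)` on projective space. -/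
structure Alg (g : Fr n p → ℂ) : Prop where
  hs : ∀ c : ℂ, c ≠ 0 → ∀ x, x.1 ≠ 0 → g (scl c x) = g x
  hc : ∀ P c x, x.1 ≠ 0 → g (chg P c x) = ((‖P.det‖ ^ 2 : ℝ) : ℂ) * g x

/-- Continuous forms. -/
structure Tst (g : Fr n p → ℂ) : Prop where
  alg : Alg g
  cont : ContinuousOn g {x | x.1 ≠ 0}

/-- Positive measurable forms which are sums of squares of alternating forms. -/
structure PT (g : Fr n p → ℝ) : Prop where
  meas : Measurable g
  zero : ∀ x, x.1 = 0 → g x = 0
  hs : ∀ c : ℂ, c ≠ 0 → ∀ x, g (scl c x) = g x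
  sos : ∀ z, z ≠ 0 → ∃ (ι : Type) (_ : Fintype ι) (θ : ι → E n [⋀^Fin p]→ₗ[ℂ] ℂ),
    (∀ i v j, v j = z → θ i v = 0) ∧ ∀ v, g (z, v) = ∑ i, ‖θ i v‖ ^ 2

/-- The compact set of normalised frames. -/
def Xp (n p : ℕ) : Set (Fr n p) := {x | ‖x.1‖ = 1 ∧ ∀ j, ‖x.2 j‖ ≤ 1}

/-- Gram-Schmidt normalisation. -/
noncomputable def nrm (x : Fr n p) : Fr n p :=
  (un x.1, fun j => InnerProductSpace.gramSchmidtNormed ℂ
    (Fin.cons x.1 x.2 : Fin (p + 1) → E n) j.succ)

/-- The mass density of an orthonormal frame. -/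
noncomputable def d0 (p : ℕ) : ℝ := (p.factorial : ℝ) / 2 ^ p

/-! ### Currents -/

/-- Pairing with coefficient one. -/
noncomputable def p1 (S : Measure (Fr n p)) (q : Fin p → E n → ℝ) : ℝ := pr S (fun _ => 1) q

/-- The mass. -/
noncomputable def mass (S : Measure (Fr n p)) : ℝ := p1 S fun _ => lg

/-- Integral of a positive density. -/
noncomputable def lp (S : Measure (Fr n p)) (g : Fr n p → ℝ) : ℝ≥0∞ :=
  ∫⁻ x, ENNReal.ofReal (g x) ∂S

/-- The current is carried by `K`. -/
def On (S : Measure (Fr n p)) (K : Set (E n)) : Prop := ∀ᵐ x ∂S, dens x ≠ 0 → x.1 ∈ K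

/-- The cone over the support. -/
def Sp (S : Measure (Fr n p)) : Set (E n) :=
  {z | z = 0 ∨ ∀ O, IsOpen O → IsCone O → z ∈ O →
    0 < ∫⁻ x in {x | x.1 ∈ O}, ENNReal.ofReal (dens x) ∂S}

/-- Positive closed currents of mass one. -/
structure Cl1 (S : Measure (Fr n p)) : Prop where
  cur : IsCur S
  closed : Closed S
  mass : mass S = 1

/-- Equality as currents. -/
def Eqv (S S' : Measure (Fr n p)) : Prop := ∀ a, LH 0 a → ∀ q, Pots q → pr S a q = pr S' a q

/-- `dd^c Y = S - S'`. -/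
def DDC (Y : Measure (Fr n (p + 1))) (S S' : Measure (Fr n p)) : Prop :=
  ∀ a, LH 0 a → ∀ q, Pots q → p1 Y (Fin.cons a q) = pr S a q - pr S' a q

/-- `Y ≤ Y'` on closed positive forms. -/
def LeP (Y Y' : Measure (Fr n p)) : Prop := ∀ q, PPs q → p1 Y q ≤ p1 Y' q

/-- The normalised push-forward `d ^ (-s j) (f ^ j)_*`. -/
noncomputable def lam (d s : ℕ) (F : E n → E n) (j : ℕ) (S : Measure (Fr n p)) : Measure (Fr n p) :=
  ENNReal.ofReal ((d : ℝ) ^ (s * j))⁻¹ • S.map (fw F^[j])

/-- Multiplication by a function. -/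
noncomputable def mlt (S : Measure (Fr n p)) (χ : E n → ℝ) : Measure (Fr n p) :=
  S.withDensity fun x => ENNReal.ofReal (χ x.1)

/-- The wedge product as a measure on `E n`. -/
noncomputable def wg (S : Measure (Fr n p)) (q : Fin p → E n → ℝ) : Measure (E n) :=
  (S.withDensity fun x => ENNReal.ofReal (dn q x)).map Prod.fst

/-- A radial weight which is positive exactly on the shell `1 < ‖w‖ < 2`. -/
noncomputable def bw (w : E n) : ℝ := expNegInvGlue (‖w‖ ^ 2 - 1) * expNegInvGlue (4 - ‖w‖ ^ 2)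

/-- The reference current. -/
noncomputable def ref (n p : ℕ) : Measure (Fr n p) :=
  ∑ J : Fin p → Fin n,
    (volume.withDensity fun w : E n => ENNReal.ofReal (bw w)).map fun w => (w, evs J)

/-- The trace of a density. -/
noncomputable def hat (g : Fr n p → ℝ) (w : E n) : ℝ := ∑ J : Fin p → Fin n, g (w, evs J)

/-- The reference current restricted to `W`. -/
noncomputable def rf (W : Set (E n)) (g : Fr n p → ℝ) : ℝ≥0∞ :=
  ∫⁻ w in W, ENNReal.ofReal (bw w * hat g w)

/-- Action of a linear map. -/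
noncomputable def lin (T : E n →L[ℂ] E n) (x : Fr n p) : Fr n p := (T x.1, fun j => T (x.2 j))

/-- Suspension frames. -/
noncomputable def su (T B : E n →L[ℂ] E n) (x : Fr n p) : Fr n (p + 1) :=
  (T x.1, Fin.cons (B x.1) fun j => T (x.2 j))

/-- Kernels on matrices. -/
abbrev KM (n : ℕ) := Kn (E (n * n)) volume

/-- The probability measure with density `k`. -/
noncomputable def kmu (κ : KM n) : Measure (E (n * n)) :=
  volume.withDensity fun A => ENNReal.ofReal (κ.k A)

/-- The smoothing operator. -/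
noncomputable def Sm (κ : KM n) (r : ℝ) (S : Measure (Fr n p)) : Measure (Fr n p) :=
  ((kmu κ).prod S).map fun y => lin (Tm r y.1) y.2

/-- The measure on radii and matrices used by the homotopy operator. -/
noncomputable def hmu (κ : KM n) (r : ℝ) : Measure (ℝ × E (n * n)) :=
  ((volume.restrict (Ioo 0 r)).prod volume).withDensity
    fun y => ENNReal.ofReal (2 * y.1 * κ.G y.2)

/-- The homotopy operator. -/
noncomputable def Ho (κ : KM n) (r : ℝ) (S : Measure (Fr n p)) : Measure (Fr n (p + 1)) :=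
  ∑ a : Fin (n * n),
    ((hmu κ r).prod S).map fun y => su (Tm y.1.1 y.1.2) (mt n n (ev a)) y.2

/-- First variation of `q ∘ T` in the direction `B`. -/
noncomputable def dq (T B : E n →L[ℂ] E n) (q : E n → ℝ) (z : E n) : ℂ := wd (B z) (rc q) (T z)

/-- First variation of the energy. -/
noncomputable def Fv (S : Measure (Fr n p)) (q : Fin (p + 1) → E n → ℝ) (T B : E n →L[ℂ] E n) : ℂ :=
  ∑ j, ∫ x, dq T B (q j) x.1 * dc (fun l => q (j.succAbove l)) (lin T x) ∂S

/-- Pairing of the suspension. -/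
noncomputable def Sv (S : Measure (Fr n p)) (q : Fin (p + 1) → E n → ℝ) (T B : E n →L[ℂ] E n) : ℝ :=
  ∫ x, dn q (su T B x) ∂S

/-- Density of the first variation of the pairing. -/
noncomputable def gv (a : E n → ℝ) (q : Fin p → E n → ℝ) (T B : E n →L[ℂ] E n) (x : Fr n p) : ℂ :=
  dq T B a x.1 * dc q (lin T x) + (a (T x.1) : ℂ) *
    ∑ j, mdC (update (fun l => lv (q l) (lin T x)) j (gl (dq T B (q j)) x.1 x.2))

/-! ### Dynamics -/

/-- The family `G_m, …, G_m`. -/
noncomputable abbrev gs (d : ℕ) (F : E n → E n) (m p : ℕ) : Fin p → E n → ℝ := fun _ => green d F m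

/-- Regularised logarithm at level `N`. -/
noncomputable def rg (d N : ℕ) (x : ℝ) : ℝ := Real.log (x ^ 2 + (((d : ℝ) ^ N)⁻¹) ^ 2) / 2

/-- Logarithmic norm of the `p`-th exterior power of the derivative of `f ^ N`. -/
noncomputable def hh (d : ℕ) (F : E n → E n) (p N : ℕ) (z : E n) : ℝ :=
  rg d N (wn p (Bm F^[N] z))

/-- Norm of the image of a coordinate frame. -/
noncomputable def al (G : E n → E n) (J : Fin p → Fin n) (z : E n) : ℝ :=
  ‖plk fun j => Bm G z (evs J j)‖

/-- The conormal of the leaf through `X`. -/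
noncomputable def th (ℓ : E n →L[ℂ] E (p + 1)) (G : E n → E n) (X : E n) (v : Fin p → E n) : ℂ :=
  (Matrix.of fun i j => ℓ (fr G X v j) i).det * ((‖X‖ ^ p / ‖G X‖ ^ (p + 1) : ℝ) : ℂ)

/-- Regularised logarithmic norm of the conormal. -/
noncomputable def bt (d : ℕ) (F : E n → E n) (ℓ : E n →L[ℂ] E (p + 1)) (m : ℕ) (X : E n) : ℝ :=
  rg d m (an (th ℓ F^[m] X))

/-- The energy of a tangent vector along the first `J` iterates. -/
noncomputable def QJ (F : E n → E n) (J : ℕ) (z v : E n) : ℝ :=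
  ∑ j ∈ Finset.range J, ‖Bm F^[j] z v‖ ^ 2

/-- Points with a large subspace of bounded energy. -/
def CJ (F : E n → E n) (s J : ℕ) (M : ℝ) : Set (E n) :=
  {z | z = 0 ∨ ∃ V : Submodule ℂ (E n), z ∈ V ∧ n ≤ Module.finrank ℂ V + s ∧
    ∀ v ∈ V, QJ F J z v ≤ M * ‖prj (un z) v‖ ^ 2}

/-- The uniform probability measure on the unit ball. -/
noncomputable def ub (N : ℕ) : Measure (E N) :=
  (volume (ball (0 : E N) 1))⁻¹ • volume.restrict (ball 0 1)

/-! ### Leaves -/

section Leaves

variable {s : ℕ}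

/-- The point with first coordinate `t` and other coordinates `x`. -/
noncomputable def cs (t : ℂ) (x : E s) : E (s + 1) := WithLp.toLp 2 (Fin.cons t x.ofLp)

/-- The last coordinates. -/
noncomputable def tl (y : E (s + 1)) : E s := WithLp.toLp 2 (Fin.tail y.ofLp)

/-- The complex Jacobian. -/
noncomputable def dl (Ξ : E n → E n) (y : E n) : ℂ := (fderiv ℂ Ξ y).det

/-- The holomorphic vector field tangent to the leaves. -/
noncomputable def wv (Ξ : E (s + 1) → E (s + 1)) (y : E (s + 1)) : E (s + 1) :=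
  WithLp.toLp 2 ((cmat (fderiv ℂ Ξ y)).adjugate *ᵥ Pi.single 0 1)

/-- The Laplacian along the leaves, with weight `‖dl‖ ^ 2`. -/
noncomputable def LL (Ξ : E (s + 1) → E (s + 1)) (u : E (s + 1) → ℝ) (y : E (s + 1)) : ℝ :=
  levi u y (wv Ξ y)

/-- The unramified part of the domain. -/
def Ur (Ξ : E n → E n) (Ω : Set (E n)) : Set (E n) := {y | y ∈ Ω ∧ dl Ξ y ≠ 0}

/-- The data defining the leaves. -/
structure Fol (Ξ : E (s + 1) → E (s + 1)) (Ω : Set (E (s + 1))) : Prop where
  op : IsOpen Ω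
  bd : Ω ⊆ ball 0 1
  diff : ContDiffOn ℂ ∞ Ξ Ω
  fst : ∀ y ∈ Ω, Ξ y 0 = y 0

/-- `h` parametrises the leaf through `y` over `O`. -/
structure Lf (Ξ : E (s + 1) → E (s + 1)) (Ω : Set (E (s + 1))) (y : E (s + 1)) (O : Set ℂ)
    (h : ℂ → E (s + 1)) : Prop where
  diff : DifferentiableOn ℂ h O
  ctr : h 0 = y
  mem : ∀ ζ ∈ O, h ζ ∈ Ur Ξ Ω
  eq : ∀ ζ ∈ O, Ξ (h ζ) = Ξ y + ζ • ev 0

/-- The radius of the largest leaf disc, capped at `r`. -/
noncomputable def rho (Ξ : E (s + 1) → E (s + 1)) (Ω : Set (E (s + 1))) (r : ℝ) (y : E (s + 1)) : ℝ :=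
  sSup {ρ | 0 ≤ ρ ∧ ρ ≤ r ∧ ∃ h, Lf Ξ Ω y (ball 0 ρ) h}

open Classical in
/-- The largest leaf disc. -/
noncomputable def tau (Ξ : E (s + 1) → E (s + 1)) (Ω : Set (E (s + 1))) (r : ℝ) (y : E (s + 1)) :
    ℂ → E (s + 1) :=
  if h : ∃ h, Lf Ξ Ω y (ball 0 (rho Ξ Ω r y)) h then h.choose else fun _ => y

/-- The horizontal disc through `b`. -/
noncomputable def Zb (b : E n) (J : Fin s → Fin n) (y : E (s + 1)) : E n :=
  b + ∑ i : Fin s, y i.succ • ev (J i)

/-- The perturbed image of the horizontal disc. -/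
noncomputable def Ph (G : E n → E n) (A : E (n * n)) (b : E n) (J : Fin s → Fin n)
    (y : E (s + 1)) : E n :=
  Tm (y 0) A (G (Zb b J y))

/-- The map whose last coordinates define the leaves. -/
noncomputable def Xi (X : E (s + 1) → E (s + 1)) (y : E (s + 1)) : E (s + 1) :=
  WithLp.toLp 2 (Fin.cons (y 0) fun i : Fin s => X y i.succ / X y 0)

end Leaves

end Pool.Agent.Lib.MP_a47f92_an
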