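import Pool.Agent.Lib.MP_a47f92_an.G.BlkA
import Pool.Agent.Lib.MP_a47f92_an.G.BlkB
import Pool.Agent.Lib.MP_a47f92_an.G.BlkC
import Pool.Agent.Lib.MP_a47f92_an.G.BlkD
import Pool.Agent.Lib.MP_a47f92_an.G.BlkE

set_option autoImplicit false
set_option linter.unusedSectionVars false

namespace Pool.Agent.Lib.MP_a47f92_an

open MeasureTheory Filter Topology Set Complex Metric Function
open scoped ContDiff ComplexConjugate ComplexOrder Matrix ENNReal NNReal

variable {n d s : ℕ} {F : E n → E n} {U D : Set (E n)} {τ : Measure (Fr n s)} {ν : Measure (E n)}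

theorem gmain (hd : 2 ≤ d) (hF : IsLift d F) (hU : Trap F U) (hD : Trap F D) (hDU : D ⊆ U)
    (hA : ¬ ∃ S : Measure (Fr n (s + 1)), InC (⋂ m, F^[m] '' U) S) (hτ : InC D τ)
    (ha : Attr d F D τ) (hν : IsEq d F τ ν) :
    IsProbabilityMeasure ν ∧ ∀ᵐ z ∂ν, Hyp F s z := by
  obtain ⟨φ, φ', Ψ, Y, Y', Z, δ, h⟩ := exists_dyn hd hF hU hD hDU hA hτ ha hν
  have hm := h.mixing
  obtain ⟨L, he⟩ := h.exponents hm
  exact ⟨hm.prob, h.final hm he (h.estimate hm (h.good hm he))⟩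

end Pool.Agent.Lib.MP_a47f92_an
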