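import Pool.Agent.Lib.MP_a47f92_an.G.GInt

set_option autoImplicit false
set_option linter.unusedSectionVars false

namespace Pool.Agent.Lib.MP_a47f92_an

open MeasureTheory Filter Topology Set Complex Metric Function
open scoped ContDiff ComplexConjugate ComplexOrder Matrix ENNReal NNReal

/-! Wirtinger calculus on general spaces. The proofs are those of `Wirt.lean` (for `E n`). -/

variable {V W : Type} [NormedAddCommGroup V] [NormedSpace ℝ V] [NormedSpace ℂ V]
  [IsScalarTower ℝ ℂ V] [NormedAddCommGroup W] [NormedSpace ℝ W] [NormedSpace ℂ W]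
  [IsScalarTower ℝ ℂ W] {f g : V → ℂ} {z v : V}

theorem GW_const_mul (c : ℂ) (f : V → ℂ) (v z : V) :
    fderiv ℝ (fun w => c * f w) z v = c * fderiv ℝ f z v := by
  have h : fderiv ℝ (c • f) = c • fderiv ℝ f := fderiv_const_smul_field c
  have e : (fun w => c * f w) = c • f := rfl
  rw [e, h]
  rfl

theorem GW_conj (f : V → ℂ) (v z : V) :
    fderiv ℝ (fun w => conj (f w)) z v = conj (fderiv ℝ f z v) := by
  have h := ContinuousLinearEquiv.comp_fderiv conjCLE (f := f) (x := z)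
  have e : (fun w => conj (f w)) = conjCLE ∘ f := rfl
  rw [e, h]
  rfl

theorem GW_smul (L : V →L[ℝ] ℂ) (c : ℂ) (v : V) :
    L (c • v) = c.re * L v + c.im * L (I • v) := by
  have h : ∀ (r : ℝ) (x : V), (r : ℂ) • x = r • x := fun r x => by
    rw [← smul_one_smul ℂ r x]
    simp
  have e : c • v = c.re • v + c.im • (I • v) := by
    conv_lhs => rw [← re_add_im c]
    rw [add_smul, mul_smul, h, h]
  rw [e, map_add, map_smul, map_smul, real_smul, real_smul]

theorem GW_rcomp {q : V → ℝ} {φ : ℝ → ℝ} {c : ℝ} (hq : DifferentiableAt ℝ q z)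
    (hφ : HasDerivAt φ c (q z)) (v : V) :
    fderiv ℝ (rc fun w => φ (q w)) z v = c * fderiv ℝ (rc q) z v := by
  have h1 : HasFDerivAt (rc q) (ofRealCLM.comp (fderiv ℝ q z)) z :=
    ofRealCLM.hasFDerivAt.comp z hq.hasFDerivAt
  have h2 : HasFDerivAt (rc fun w => φ (q w)) (ofRealCLM.comp (c • fderiv ℝ q z)) z :=
    ofRealCLM.hasFDerivAt.comp z (hφ.comp_hasFDerivAt z hq.hasFDerivAt)
  rw [h1.fderiv, h2.fderiv]
  simp

theorem gd_congr (h : f =ᶠ[𝓝 z] g) (v : V) : gd v f =ᶠ[𝓝 z] gd v g := by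
  filter_upwards [h.fderiv (𝕜 := ℝ)] with w hw
  simp only [gd, hw]

theorem gb_congr (h : f =ᶠ[𝓝 z] g) (v : V) : gb v f =ᶠ[𝓝 z] gb v g := by
  filter_upwards [h.fderiv (𝕜 := ℝ)] with w hw
  simp only [gb, hw]

theorem gd_const (c : ℂ) (v z : V) : gd v (fun _ => c) z = 0 := by
  simp [gd]

theorem gb_const (c : ℂ) (v z : V) : gb v (fun _ => c) z = 0 := by
  simp [gb]

theorem gd_add (hf : DifferentiableAt ℝ f z) (hg : DifferentiableAt ℝ g z) :
    gd v (fun w => f w + g w) z = gd v f z + gd v g z := by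
  simp only [gd, fderiv_fun_add hf hg, add_apply]
  ring

theorem gb_add (hf : DifferentiableAt ℝ f z) (hg : DifferentiableAt ℝ g z) :
    gb v (fun w => f w + g w) z = gb v f z + gb v g z := by
  simp only [gb, fderiv_fun_add hf hg, add_apply]
  ring

theorem gd_mul (hf : DifferentiableAt ℝ f z) (hg : DifferentiableAt ℝ g z) :
    gd v (fun w => f w * g w) z = gd v f z * g z + f z * gd v g z := by
  simp only [gd, fderiv_fun_mul hf hg, add_apply, smul_apply, smul_eq_mul]
  ring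

theorem gb_mul (hf : DifferentiableAt ℝ f z) (hg : DifferentiableAt ℝ g z) :
    gb v (fun w => f w * g w) z = gb v f z * g z + f z * gb v g z := by
  simp only [gb, fderiv_fun_mul hf hg, add_apply, smul_apply, smul_eq_mul]
  ring

theorem gd_const_mul (c : ℂ) (f : V → ℂ) (v z : V) :
    gd v (fun w => c * f w) z = c * gd v f z := by
  simp only [gd, GW_const_mul]
  ring

theorem gb_const_mul (c : ℂ) (f : V → ℂ) (v z : V) :
    gb v (fun w => c * f w) z = c * gb v f z := by
  simp only [gb, GW_const_mul]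
  ring

theorem gd_sum {ι : Type} (s : Finset ι) {f : ι → V → ℂ}
    (h : ∀ i ∈ s, DifferentiableAt ℝ (f i) z) :
    gd v (fun w => ∑ i ∈ s, f i w) z = ∑ i ∈ s, gd v (f i) z := by
  simp only [gd, fderiv_fun_sum h, sum_apply, Finset.mul_sum]
  rw [← Finset.sum_sub_distrib, Finset.sum_div]

theorem gb_sum {ι : Type} (s : Finset ι) {f : ι → V → ℂ}
    (h : ∀ i ∈ s, DifferentiableAt ℝ (f i) z) :
    gb v (fun w => ∑ i ∈ s, f i w) z = ∑ i ∈ s, gb v (f i) z := by
  simp only [gb, fderiv_fun_sum h, sum_apply, Finset.mul_sum]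
  rw [← Finset.sum_add_distrib, Finset.sum_div]

theorem gd_prod {ι : Type} [DecidableEq ι] (s : Finset ι) {f : ι → V → ℂ}
    (h : ∀ i ∈ s, DifferentiableAt ℝ (f i) z) :
    gd v (fun w => ∏ i ∈ s, f i w) z = ∑ i ∈ s, gd v (f i) z * ∏ j ∈ s.erase i, f j z := by
  simp only [gd, fderiv_finsetProd h, sum_apply, Finset.mul_sum, smul_apply, smul_eq_mul]
  rw [← Finset.sum_sub_distrib, Finset.sum_div]
  refine Finset.sum_congr rfl fun i _ => ?_
  ring

theorem gb_prod {ι : Type} [DecidableEq ι] (s : Finset ι) {f : ι → V → ℂ}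
    (h : ∀ i ∈ s, DifferentiableAt ℝ (f i) z) :
    gb v (fun w => ∏ i ∈ s, f i w) z = ∑ i ∈ s, gb v (f i) z * ∏ j ∈ s.erase i, f j z := by
  simp only [gb, fderiv_finsetProd h, sum_apply, Finset.mul_sum, smul_apply, smul_eq_mul]
  rw [← Finset.sum_add_distrib, Finset.sum_div]
  refine Finset.sum_congr rfl fun i _ => ?_
  ring

theorem gb_conj (f : V → ℂ) (v z : V) : gb v (fun w => conj (f w)) z = conj (gd v f z) := by
  simp only [gd, gb, GW_conj, map_div₀, map_sub, map_mul, conj_I, map_ofNat]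
  ring

theorem gd_conj (f : V → ℂ) (v z : V) : gd v (fun w => conj (f w)) z = conj (gb v f z) := by
  simp only [gd, gb, GW_conj, map_div₀, map_add, map_mul, conj_I, map_ofNat]
  ring

theorem gb_rc (q : V → ℝ) (v z : V) : gb v (rc q) z = conj (gd v (rc q) z) := by
  rw [← gb_conj]
  simp only [rc, conj_ofReal]

theorem gd_vadd (f : V → ℂ) (u v z : V) : gd (u + v) f z = gd u f z + gd v f z := by
  simp only [gd, smul_add, map_add]
  ring

theorem gb_vadd (f : V → ℂ) (u v z : V) : gb (u + v) f z = gb u f z + gb v f z := by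
  simp only [gb, smul_add, map_add]
  ring

theorem gd_vsmul (c : ℂ) (f : V → ℂ) (v z : V) : gd (c • v) f z = c * gd v f z := by
  simp only [gd]
  rw [smul_comm I c v, GW_smul _ c v, GW_smul _ c (I • v), smul_smul, I_mul_I, neg_smul,
    one_smul, map_neg]
  conv_rhs => rw [← re_add_im c]
  linear_combination ((c.im : ℂ) * (fderiv ℝ f z) (I • v) / 2) * I_mul_I

theorem gb_vsmul (c : ℂ) (f : V → ℂ) (v z : V) : gb (c • v) f z = conj c * gb v f z := by
  simp only [gb]
  rw [smul_comm I c v, GW_smul _ c v, GW_smul _ c (I • v), smul_smul, I_mul_I, neg_smul,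
    one_smul, map_neg]
  conv_rhs => rw [← re_add_im c]
  simp only [map_add, map_mul, conj_ofReal, conj_I]
  linear_combination ((c.im : ℂ) * (fderiv ℝ f z) (I • v) / 2) * I_mul_I

theorem gd_vsum {ι : Type} (s : Finset ι) (f : V → ℂ) (u : ι → V) (z : V) :
    gd (∑ i ∈ s, u i) f z = ∑ i ∈ s, gd (u i) f z := by
  simp only [gd, Finset.smul_sum, map_sum, Finset.mul_sum]
  rw [← Finset.sum_sub_distrib, Finset.sum_div]

theorem gb_vsum {ι : Type} (s : Finset ι) (f : V → ℂ) (u : ι → V) (z : V) :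
    gb (∑ i ∈ s, u i) f z = ∑ i ∈ s, gb (u i) f z := by
  simp only [gb, Finset.smul_sum, map_sum, Finset.mul_sum]
  rw [← Finset.sum_add_distrib, Finset.sum_div]

theorem fderiv_eq_gd_add_gb (f : V → ℂ) (v z : V) : fderiv ℝ f z v = gd v f z + gb v f z := by
  simp only [gd, gb]
  ring

theorem gd_holo (hf : DifferentiableAt ℂ f z) : gd v f z = fderiv ℂ f z v := by
  simp only [gd, hf.fderiv_restrictScalars ℝ, ContinuousLinearMap.coe_restrictScalars', map_smul,
    smul_eq_mul]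
  linear_combination (-(fderiv ℂ f z) v / 2) * I_mul_I

theorem gb_holo (hf : DifferentiableAt ℂ f z) : gb v f z = 0 := by
  simp only [gb, hf.fderiv_restrictScalars ℝ, ContinuousLinearMap.coe_restrictScalars', map_smul,
    smul_eq_mul]
  linear_combination ((fderiv ℂ f z) v / 2) * I_mul_I

theorem gd_comp {Φ : V → W} {u : W → ℂ} (hΦ : DifferentiableAt ℂ Φ z)
    (hu : DifferentiableAt ℝ u (Φ z)) :
    gd v (fun w => u (Φ w)) z = gd (fderiv ℂ Φ z v) u (Φ z) := by
  simp only [gd, fderiv_fun_comp z hu (hΦ.restrictScalars ℝ), hΦ.fderiv_restrictScalars ℝ,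
    ContinuousLinearMap.comp_apply, ContinuousLinearMap.coe_restrictScalars', map_smul]

theorem gb_comp {Φ : V → W} {u : W → ℂ} (hΦ : DifferentiableAt ℂ Φ z)
    (hu : DifferentiableAt ℝ u (Φ z)) :
    gb v (fun w => u (Φ w)) z = gb (fderiv ℂ Φ z v) u (Φ z) := by
  simp only [gb, fderiv_fun_comp z hu (hΦ.restrictScalars ℝ), hΦ.fderiv_restrictScalars ℝ,
    ContinuousLinearMap.comp_apply, ContinuousLinearMap.coe_restrictScalars', map_smul]

theorem gd_rcomp {q : V → ℝ} {φ : ℝ → ℝ} {c : ℝ} (hq : DifferentiableAt ℝ q z)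
    (hφ : HasDerivAt φ c (q z)) : gd v (rc fun w => φ (q w)) z = c * gd v (rc q) z := by
  simp only [gd, GW_rcomp hq hφ]
  ring

theorem gb_rcomp {q : V → ℝ} {φ : ℝ → ℝ} {c : ℝ} (hq : DifferentiableAt ℝ q z)
    (hφ : HasDerivAt φ c (q z)) : gb v (rc fun w => φ (q w)) z = c * gb v (rc q) z := by
  simp only [gb, GW_rcomp hq hφ]
  ring

theorem gd_of_notMem_tsupport (h : z ∉ tsupport f) (v : V) : gd v f z = 0 := by
  simp [gd, fderiv_of_notMem_tsupport ℝ h]

theorem gb_of_notMem_tsupport (h : z ∉ tsupport f) (v : V) : gb v f z = 0 := by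
  simp [gb, fderiv_of_notMem_tsupport ℝ h]

theorem contDiffAt_rc {k : WithTop ℕ∞} {q : V → ℝ} (h : ContDiffAt ℝ k q z) :
    ContDiffAt ℝ k (rc q) z :=
  ofRealCLM.contDiff.contDiffAt.comp z h

theorem contDiffOn_rc {k : WithTop ℕ∞} {q : V → ℝ} {Ω : Set V} (h : ContDiffOn ℝ k q Ω) :
    ContDiffOn ℝ k (rc q) Ω :=
  ofRealCLM.contDiff.comp_contDiffOn h

end Pool.Agent.Lib.MP_a47f92_an
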