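import Pool.Agent.Lib.MP_a47f92_an.G.Pol
import Pool.Agent.Lib.MP_a47f92_an.G.AC
import Pool.Agent.Lib.MP_a47f92_an.G.Kern
import Pool.Agent.Lib.MP_a47f92_an.G.FamT

set_option autoImplicit false
set_option linter.unusedSectionVars false

namespace Pool.Agent.Lib.MP_a47f92_an

open MeasureTheory Filter Topology Set Complex Metric Function
open scoped ContDiff ComplexConjugate ComplexOrder Matrix ENNReal NNReal

/-! Pointwise lower bounds for the smoothing operators. -/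

variable {n p : ℕ}

theorem LB1_cmt (w : E n) : Continuous fun A : E (n * n) => mt n n A w :=
  (mt n n).continuous.clm_apply continuous_const

theorem LB1_cTm (w : E n) : Continuous fun y : ℝ × E (n * n) => Tm y.1 y.2 w :=
  (continuous_Tm.comp ((continuous_ofReal.comp continuous_fst).prodMk continuous_snd)).clm_apply
    continuous_const

/-- For `‖A‖, ‖u‖ < 1 / 4` the matrix `sw z A u` has norm `< 3 / 4`, sends `z` to `u` and agrees
with `A` on the vectors `v j`; use `measurePreserving_sw` and Tonelli. -/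
theorem swap_le (n p : ℕ) : ∃ C : ℝ≥0, ∀ (z : E n) (v : Fin p → E n)
    (f : E n × (Fin p → E n) → ℝ≥0∞), ‖z‖ = 1 → (∀ j, inner ℂ z (v j) = 0) → Measurable f →
      ∫⁻ u in ball (0 : E n) (1 / 4), ∫⁻ A in ball (0 : E (n * n)) (1 / 4),
        f (u, fun j => mt n n A (v j)) ≤
      C * ∫⁻ A in ball (0 : E (n * n)) (3 / 4), f (mt n n A z, fun j => mt n n A (v j)) := by
  refine ⟨(volume (ball (0 : E n) (1 / 4))).toNNReal, fun z v f hz hv hf => ?_⟩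
  rw [ENNReal.coe_toNNReal measure_ball_lt_top.ne]
  have h1 : Measurable fun y : E (n * n) × E n => f (y.2, fun j => mt n n y.1 (v j)) :=
    hf.comp (continuous_snd.prodMk (continuous_pi fun j =>
      (LB1_cmt (v j)).comp continuous_fst)).measurable
  have h2 : Measurable fun A : E (n * n) => f (mt n n A z, fun j => mt n n A (v j)) :=
    hf.comp ((LB1_cmt z).prodMk (continuous_pi fun j => LB1_cmt (v j))).measurable
  have h3 := (measurePreserving_sw hz).setLIntegral_comp_preimage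
    (s := ball (0 : E (n * n)) (3 / 4) ×ˢ ball (0 : E n) (1 / 4))
    (measurableSet_ball.prod measurableSet_ball) (h2.comp measurable_fst)
  rw [← lintegral_prod_symm' _ h1, Measure.prod_restrict]
  rw [← Measure.prod_restrict, lintegral_prod _ (h2.comp measurable_fst).aemeasurable] at h3
  simp only [comp_apply, lintegral_const, Measure.restrict_apply_univ] at h3
  rw [lintegral_mul_const _ h2] at h3
  rw [mul_comm (volume _), ← h3]
  refine lintegral_mono' (Measure.restrict_mono_set _ fun y hy => ?_) fun y => le_of_eq ?_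
  · have h4 := mem_ball_zero_iff.1 hy.1
    have h5 := mem_ball_zero_iff.1 hy.2
    have h6 := norm_sw hz y.1 y.2
    have h7 : ‖mt n n y.1 z‖ ≤ ‖y.1‖ :=
      ((mt n n y.1).le_of_opNorm_le (norm_mt_le _) z).trans_eq (by rw [hz, mul_one])
    refine ⟨mem_ball_zero_iff.2 ?_, mem_ball_zero_iff.2 (h7.trans_lt h4)⟩
    refine lt_of_pow_lt_pow_left₀ 2 (by norm_num) ?_
    nlinarith [norm_nonneg y.1, norm_nonneg y.2, sq_nonneg ‖mt n n y.1 z‖]
  · simp only [mt_sw, hv, Mt_inner hz, zero_smul, one_smul, add_zero, add_sub_cancel]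

theorem LB1_fam (n p : ℕ) {ρ₀ : ℝ} (hρ : 0 < ρ₀) : ∃ C : ℝ≥0,
    ∀ (ρ : ℝ) (ι : Type) [Fintype ι] (θ : ι → E n [⋀^Fin p]→ₗ[ℂ] ℂ) (v : Fin p → E n), ρ₀ ≤ ρ →
      ρ ≤ 1 → Orthonormal ℂ v →
      ENNReal.ofReal (∑ i, ∑ J : Fin p → Fin n, ‖θ i (evs J)‖ ^ 2) ≤
        C * ∫⁻ A in ball (0 : E (n * n)) (1 / 4),
          ENNReal.ofReal (∑ i, ‖θ i fun j => Tm ρ A (v j)‖ ^ 2) := by
  obtain ⟨c, hc, h⟩ := ac_alt n p hρ
  refine ⟨c⁻¹.toNNReal, fun ρ ι _ θ v h0 h1 hv => ?_⟩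
  have hm : ∀ i, Measurable fun A : E (n * n) =>
      ENNReal.ofReal (‖θ i fun j => Tm ρ A (v j)‖ ^ 2) := fun i =>
    ((((AC_cdalt (θ i)).continuous.comp (continuous_pi fun j =>
      (LB1_cTm (v j)).comp (Continuous.prodMk_right ρ))).norm.pow 2).measurable).ennreal_ofReal
  simp only [ENNReal.ofReal_sum_of_nonneg fun i _ => sq_nonneg ‖θ i _‖]
  rw [lintegral_finsetSum _ fun i _ => hm i, Finset.mul_sum,
    ENNReal.ofReal_sum_of_nonneg fun i _ => Finset.sum_nonneg fun J _ => sq_nonneg _]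
  refine Finset.sum_le_sum fun i _ => ?_
  have h2 := h ρ (θ i) v h0 h1 hv
  rw [an, Real.sq_sqrt (Finset.sum_nonneg fun J _ => sq_nonneg _)] at h2
  refine le_trans (le_of_eq ?_) (mul_le_mul_right h2 _)
  rw [← ENNReal.ofReal.eq_1, ← ENNReal.ofReal_mul (inv_pos.2 hc).le, inv_mul_cancel_left₀ hc.ne']

theorem LB1_hat0 {g : Fr n p → ℝ} (hg : PT g) : hat g 0 = 0 :=
  Finset.sum_eq_zero fun _ _ => hg.zero _ rfl

/-- `ac_alt` for each alternating form in `PT.sos`. -/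
theorem hat_le_avg (n p : ℕ) {ρ₀ : ℝ} (hρ : 0 < ρ₀) : ∃ C : ℝ≥0,
    ∀ (ρ : ℝ) (g : Fr n p → ℝ) (w : E n) (v : Fin p → E n), ρ₀ ≤ ρ → ρ ≤ 1 → PT g →
      Orthonormal ℂ v → ENNReal.ofReal (hat g w) ≤
        C * ∫⁻ A in ball (0 : E (n * n)) (1 / 4), ENNReal.ofReal (g (w, fun j => Tm ρ A (v j))) := by
  obtain ⟨C, h⟩ := LB1_fam n p hρ
  refine ⟨C, fun ρ g w v h0 h1 hg hv => ?_⟩
  rcases eq_or_ne w 0 with rfl | hw
  · rw [LB1_hat0 hg, ENNReal.ofReal_zero]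
    exact zero_le
  obtain ⟨ι, _, θ, -, hθ⟩ := hg.sos w hw
  simp only [hat, hθ]
  rw [Finset.sum_comm]
  exact h ρ ι θ v h0 h1 hv

/-- `sum_mt_ev` and `ac_alt` for the forms `θ.curryLeft (ev i)`. -/
theorem hat_le_avg_su (n p : ℕ) {ρ₀ : ℝ} (hρ : 0 < ρ₀) : ∃ C : ℝ≥0,
    ∀ (ρ : ℝ) (g : Fr n (p + 1) → ℝ) (z w : E n) (v : Fin p → E n), ρ₀ ≤ ρ → ρ ≤ 1 → PT g →
      ‖z‖ = 1 → Orthonormal ℂ v → ENNReal.ofReal (hat g w) ≤
        C * ∫⁻ A in ball (0 : E (n * n)) (1 / 4), ∑ e, ENNReal.ofReal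
          (g (w, Fin.cons (mt n n (ev e) z) fun j => Tm ρ A (v j))) := by
  obtain ⟨C, h⟩ := LB1_fam n p hρ
  refine ⟨C, fun ρ g z w v h0 h1 hg hz hv => ?_⟩
  rcases eq_or_ne w 0 with rfl | hw
  · rw [LB1_hat0 hg, ENNReal.ofReal_zero]
    exact zero_le
  obtain ⟨ι, _, θ, -, hθ⟩ := hg.sos w hw
  have h2 := h ρ (ι × Fin n) (fun y => (θ y.1).curryLeft (ev y.2)) v h0 h1 hv
  have e1 : hat g w = ∑ y : ι × Fin n, ∑ J : Fin p → Fin n,
      ‖(θ y.1).curryLeft (ev y.2) (evs J)‖ ^ 2 := by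
    simp only [hat, hθ]
    rw [Finset.sum_comm, Fintype.sum_prod_type]
    refine Finset.sum_congr rfl fun i _ => ?_
    rw [← Fintype.sum_prod_type']
    refine (Fintype.sum_equiv (Fin.consEquiv fun _ : Fin (p + 1) => Fin n) _ _ fun y => ?_).symm
    exact congrArg (fun u => ‖θ i u‖ ^ 2) (funext fun j => Fin.cases rfl (fun _ => rfl) j)
  have e2 : ∀ u : Fin p → E n, ∑ e, ENNReal.ofReal (g (w, Fin.cons (mt n n (ev e) z) u)) =
      ENNReal.ofReal (∑ y : ι × Fin n, ‖(θ y.1).curryLeft (ev y.2) u‖ ^ 2) := fun u => by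
    rw [← ENNReal.ofReal_sum_of_nonneg fun e _ => hg.nonneg _]
    simp only [hθ]
    rw [Finset.sum_comm, Fintype.sum_prod_type]
    congr 1
    refine Finset.sum_congr rfl fun i _ => ?_
    rw [sum_mt_ev, hz, one_pow, one_mul]
    rfl
  simp only [e1, e2]
  exact h2

theorem LB1_nf {m : ℕ} {g : Fr n m → ℝ} (hg : PT g) {L : Fr n p → Fr n m} {x : Fr n p}
    (hx : x.1 ≠ 0) (h1 : ∀ c y, L (scl c y) = scl c (L y))
    (h2 : ∀ P c y, ∃ P' c', L (chg P c y) = chg P' c' (L y) ∧ P'.det = P.det) :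
    g (L x) = dens x / d0 p * g (L (nrm x)) := by
  obtain ⟨P, c, e1, e2⟩ := exists_nrm hx
  obtain ⟨P', c', e3, e4⟩ := h2 P c (nrm x)
  have h3 : g (L x) = g (chg P' c' (L (nrm x))) := by
    conv_lhs => rw [e1]
    rw [h1, hg.hs _ (ofReal_ne_zero.2 (norm_ne_zero_iff.2 hx)), e3]
  rw [h3, e2, mul_div_cancel_left₀ _ (d0_pos p).ne', ← e4]
  rcases eq_or_ne (L (nrm x)).1 0 with h | h
  · rw [hg.zero _ h, hg.zero (chg P' c' _) h, mul_zero]
  · exact_mod_cast hg.alg.hc P' c' _ h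

theorem LB1_lin {g : Fr n p → ℝ} (hg : PT g) (T : E n →L[ℂ] E n) {x : Fr n p} (hx : x.1 ≠ 0) :
    g (lin T x) = dens x / d0 p * g (lin T (nrm x)) :=
  LB1_nf hg hx (fun c y => by simp only [lin, scl, map_smul]) fun P c y =>
    ⟨P, c, by simp only [lin, chg, map_add, map_sum, map_smul], rfl⟩

theorem LB1_su {g : Fr n (p + 1) → ℝ} (hg : PT g) (T B : E n →L[ℂ] E n) {x : Fr n p}
    (hx : x.1 ≠ 0) : g (su T B x) = dens x / d0 p * g (su T B (nrm x)) :=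
  LB1_nf hg hx (Tst_su_scl T B) fun P c y => ⟨_, _, Tst_su_chg T B P c y, Tst_blk_det P⟩

theorem LB1_wd {X : Type} [MeasurableSpace X] (μ : Measure X) {s : Set X} (hs : MeasurableSet s)
    {c : ℝ≥0∞} {f : X → ℝ≥0∞} (h : ∀ y ∈ s, c ≤ f y) (F : X → ℝ≥0∞) :
    c * ∫⁻ y in s, F y ∂μ ≤ ∫⁻ y, F y ∂μ.withDensity f := by
  rw [← smul_eq_mul, ← lintegral_smul_measure, ← withDensity_const, ← withDensity_indicator hs]
  refine lintegral_mono' (withDensity_mono (Eventually.of_forall fun y => ?_)) le_rfl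
  exact indicator_le' h (fun _ _ => zero_le) y

theorem LB1_core (n p m : ℕ) {ρ₀ : ℝ} (hρ : 0 < ρ₀) (C₂ : ℝ≥0) : ∃ (δ : ℝ) (C : ℝ≥0),
    0 < δ ∧ δ ≤ 1 ∧ ∀ (ρ : ℝ) (g : Fr n m → ℝ) (z : E n) (v : Fin p → E n)
      (f : E n × (Fin p → E n) → ℝ≥0∞), ρ₀ ≤ ρ → ρ ≤ 1 → PT g → ‖z‖ = 1 →
      (∀ j, inner ℂ z (v j) = 0) → Measurable f →
      (∀ u, ENNReal.ofReal (hat g (z + (ρ : ℂ) • u)) ≤
        C₂ * ∫⁻ A in ball (0 : E (n * n)) (1 / 4), f (u, fun j => mt n n A (v j))) →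
      rf (nb δ (ln z)) g ≤
        C * ∫⁻ A in ball (0 : E (n * n)) (3 / 4), f (mt n n A z, fun j => mt n n A (v j)) := by
  obtain ⟨C₁, h1⟩ := swap_le n p
  obtain ⟨δ, C₃, d0, d1, h3⟩ := rf_le_ball n m (c := ρ₀ * (1 / 4)) (by positivity)
  refine ⟨δ, C₃ * (C₂ * C₁), d0, d1, fun ρ g z v f r0 r1 hg hz hv hf h2 => ?_⟩
  have r2 : 0 < ρ := hρ.trans_le r0
  have h4 := lintegral_ball_affine z (t := (ρ : ℂ)) (ofReal_ne_zero.2 r2.ne') (1 / 4)
    hg.measurable_hat.ennreal_ofReal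
  rw [norm_real, Real.norm_of_nonneg r2.le] at h4
  have h5 : (1 : ℝ≥0∞) ≤ ENNReal.ofReal ((ρ ^ n) ^ 2)⁻¹ :=
    ENNReal.one_le_ofReal.2 ((one_le_inv₀ (by positivity)).2
      (pow_le_one₀ (by positivity) (pow_le_one₀ r2.le r1)))
  refine (h3 g z hg hz).trans ?_
  rw [ENNReal.coe_mul, ENNReal.coe_mul, mul_assoc, mul_assoc]
  refine mul_le_mul_right ?_ _
  calc _ ≤ ∫⁻ w in ball z (ρ * (1 / 4)), ENNReal.ofReal (hat g w) :=
        lintegral_mono_set (ball_subset_ball (by linarith))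
    _ ≤ _ := le_mul_of_one_le_left' h5
    _ = _ := h4.symm
    _ ≤ _ := lintegral_mono h2
    _ = _ := lintegral_const_mul' _ _ ENNReal.coe_ne_top
    _ ≤ _ := mul_le_mul_right (h1 z v f hz hv hf) _

theorem LB1_fin {a c d : ℝ} (hc : 0 < c) (hd : 0 < d) (C : ℝ≥0) {R I J : ℝ≥0∞}
    (h1 : R ≤ C * I) (h2 : ENNReal.ofReal c * (ENNReal.ofReal (a / d) * I) ≤ J) :
    ENNReal.ofReal a * R ≤ (C * (d / c).toNNReal : ℝ≥0) * J := by
  have e : ENNReal.ofReal a = ENNReal.ofReal (d / c) * (ENNReal.ofReal c * ENNReal.ofReal (a / d)) := by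
    rw [← ENNReal.ofReal_mul hc.le, ← ENNReal.ofReal_mul (div_pos hd hc).le]
    congr 1
    field_simp
  calc _ ≤ ENNReal.ofReal a * (C * I) := mul_le_mul_right h1 _
    _ = C * ENNReal.ofReal (d / c) * (ENNReal.ofReal c * (ENNReal.ofReal (a / d) * I)) := by
      rw [e]
      ring
    _ ≤ _ := by
      rw [ENNReal.coe_mul]
      exact mul_le_mul_right h2 _

theorem LB1_un {x : Fr n p} (hx : x.1 ≠ 0) : ‖(nrm x).1‖ = 1 := (nrm_mem hx).1

/-- Reduce to `nrm x` by `Alg.eq_nrm` (`PT.comp_fw`, `PT.alg`, `nrm_ortho`); `Kn.lower`,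
`swap_le`, `hat_le_avg`, `lintegral_ball_affine`, `rf_le_ball`. -/
theorem lb_point (κ : KM n) (p : ℕ) {r : ℝ} (hr : 0 < r) (hr' : r ≤ 1 / 2) :
    ∃ (δ : ℝ) (C : ℝ≥0), 0 < δ ∧ δ ≤ 1 ∧ ∀ (g : Fr n p → ℝ) (x : Fr n p), PT g →
      ENNReal.ofReal (dens x) * rf (nb δ (ln x.1)) g ≤
        C * ∫⁻ A, ENNReal.ofReal (g (lin (Tm r A) x)) ∂kmu κ := by
  obtain ⟨c, hc, hk⟩ := κ.lower
  obtain ⟨C₂, h2⟩ := hat_le_avg n p hr
  obtain ⟨δ, C, d0', d1, h3⟩ := LB1_core n p p hr C₂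
  refine ⟨δ, C * (d0 p / c).toNNReal, d0', d1, fun g x hg => ?_⟩
  rcases eq_or_ne (dens x) 0 with h0 | h0
  · rw [h0, ENNReal.ofReal_zero, zero_mul]
    exact zero_le
  have hx := Cur1b_ne h0
  obtain ⟨ho, hv⟩ := nrm_ortho h0
  have h4 := h3 r g (nrm x).1 (nrm x).2 (fun y => ENNReal.ofReal
      (g ((nrm x).1 + (r : ℂ) • y.1, fun j => (nrm x).2 j + (r : ℂ) • y.2 j))) le_rfl
    (by linarith) hg (LB1_un hx) hv
    (hg.meas.comp (Continuous.measurable (by fun_prop))).ennreal_ofReal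
    fun u => h2 r g _ _ le_rfl (by linarith) hg ho
  rw [show ln (nrm x).1 = ln x.1 from ln_un x.1] at h4
  refine LB1_fin hc (d0_pos p) C h4 ?_
  rw [← lintegral_const_mul' _ _ ENNReal.ofReal_ne_top]
  refine le_trans (le_of_eq ?_) (LB1_wd volume measurableSet_ball (fun A hA =>
    ENNReal.ofReal_le_ofReal (hk A (mem_ball_zero_iff.1 hA).le).1) _)
  congr 1
  refine lintegral_congr fun A => ?_
  rw [LB1_lin hg _ hx, ENNReal.ofReal_mul (div_nonneg (dens_nonneg x) (d0_pos p).le)]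
  rfl

/-- The same with `PT.comp_su`, using the radii in `Ioo (r / 2) r`. -/
theorem lb_point_su (κ : KM n) (p : ℕ) {r : ℝ} (hr : 0 < r) (hr' : r ≤ 1 / 2) :
    ∃ (δ : ℝ) (C : ℝ≥0), 0 < δ ∧ δ ≤ 1 ∧ ∀ (g : Fr n (p + 1) → ℝ) (x : Fr n p), PT g →
      ENNReal.ofReal (dens x) * rf (nb δ (ln x.1)) g ≤
        C * ∑ e, ∫⁻ y, ENNReal.ofReal (g (su (Tm y.1 y.2) (mt n n (ev e)) x)) ∂hmu κ r := by
  obtain ⟨c, hc, hk⟩ := κ.lower
  have hr2 : 0 < r / 2 := half_pos hr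
  obtain ⟨C₂, h2⟩ := hat_le_avg_su n p hr2
  obtain ⟨δ, C, d0', d1, h3⟩ := LB1_core n p (p + 1) hr2 C₂
  refine ⟨δ, (r / 2)⁻¹.toNNReal * C * (d0 p / (r * c)).toNNReal, d0', d1, fun g x hg => ?_⟩
  rcases eq_or_ne (dens x) 0 with h0 | h0
  · rw [h0, ENNReal.ofReal_zero, zero_mul]
    exact zero_le
  have hx := Cur1b_ne h0
  obtain ⟨ho, hv⟩ := nrm_ortho h0
  have hm : ∀ (y : Fr n p) e, Measurable fun a : ℝ × E (n * n) =>
      ENNReal.ofReal (g (su (Tm a.1 a.2) (mt n n (ev e)) y)) := fun y e =>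
    (hg.meas.comp ((LB1_cTm _).prodMk (continuous_const.finCons
      (continuous_pi fun j => LB1_cTm _))).measurable).ennreal_ofReal
  have h4 : ∀ ρ ∈ Ioo (r / 2) r, rf (nb δ (ln x.1)) g ≤
      C * ∫⁻ A in ball (0 : E (n * n)) (3 / 4),
        ∑ e, ENNReal.ofReal (g (su (Tm ρ A) (mt n n (ev e)) (nrm x))) := fun ρ hρ => by
    rw [← ln_un x.1]
    exact h3 ρ g (nrm x).1 (nrm x).2 (fun y => ∑ e, ENNReal.ofReal
        (g ((nrm x).1 + (ρ : ℂ) • y.1, Fin.cons (mt n n (ev e) (nrm x).1)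
          fun j => (nrm x).2 j + (ρ : ℂ) • y.2 j))) hρ.1.le
      (by linarith [hρ.2]) hg (LB1_un hx) hv
      (Finset.measurable_sum _ fun e _ => (hg.meas.comp (Continuous.measurable
        (Continuous.prodMk (by fun_prop) (continuous_const.finCons (by fun_prop))))).ennreal_ofReal)
      fun u => h2 ρ g _ _ _ hρ.1.le (by linarith [hρ.2]) hg (LB1_un hx) ho
  have h5 : rf (nb δ (ln x.1)) g ≤ ((r / 2)⁻¹.toNNReal * C : ℝ≥0) *
      ∫⁻ a in Ioo (r / 2) r ×ˢ ball (0 : E (n * n)) (3 / 4),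
        ∑ e, ENNReal.ofReal (g (su (Tm a.1 a.2) (mt n n (ev e)) (nrm x)))
          ∂(volume.restrict (Ioo 0 r)).prod volume := by
    rw [← Measure.prod_restrict, Measure.restrict_restrict_of_subset (Ioo_subset_Ioo_left hr2.le),
      lintegral_prod _ (Finset.measurable_sum _ fun e _ => hm _ e).aemeasurable, ENNReal.coe_mul,
      mul_assoc, ← lintegral_const_mul' _ _ ENNReal.coe_ne_top]
    refine le_trans (le_of_eq ?_) (mul_le_mul_right (setLIntegral_mono' measurableSet_Ioo h4) _)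
    rw [setLIntegral_const, Real.volume_Ioo, ← ENNReal.ofReal.eq_1, mul_left_comm,
      ← ENNReal.ofReal_mul (inv_pos.2 hr2).le, show r - r / 2 = r / 2 by ring,
      inv_mul_cancel₀ hr2.ne', ENNReal.ofReal_one, mul_one]
  refine LB1_fin (mul_pos hr hc) (d0_pos p) _ h5 ?_
  rw [← lintegral_const_mul' _ _ ENNReal.ofReal_ne_top, ← lintegral_finsetSum _ fun e _ => hm _ e]
  have h6 : ∀ a ∈ Ioo (r / 2) r ×ˢ ball (0 : E (n * n)) (3 / 4),
      ENNReal.ofReal (r * c) ≤ ENNReal.ofReal (2 * a.1 * κ.G a.2) := fun a ha =>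
    ENNReal.ofReal_le_ofReal (mul_le_mul (by linarith [ha.1.1])
      (hk a.2 (mem_ball_zero_iff.1 ha.2).le).2 hc.le (by linarith [ha.1.1]))
  refine le_trans (le_of_eq ?_) (LB1_wd _ (measurableSet_Ioo.prod measurableSet_ball) h6 _)
  congr 1
  refine lintegral_congr fun a => ?_
  rw [Finset.mul_sum]
  refine Finset.sum_congr rfl fun e _ => ?_
  rw [LB1_su hg _ _ hx, ENNReal.ofReal_mul (div_nonneg (dens_nonneg x) (d0_pos p).le)]

end Pool.Agent.Lib.MP_a47f92_an
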