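import Pool.Agent.Lib.MP_a47f92_an.Def

set_option autoImplicit false

/-! Lyapunov exponents of the endomorphism of projective space with lift `F`. -/

namespace Pool.Agent.Lib.MP_a47f92_an

open Filter

variable {n : ℕ}

/-- The number `(1 / m) log |D f ^ m v|` for the tangent vector at `[z]` represented by `v`, in the
Fubini-Study norm, with `log 0 = -∞`. -/
noncomputable def rate (F : E n → E n) (z v : E n) (m : ℕ) : EReal :=
  ENNReal.log (ENNReal.ofReal (fsNorm (F^[m] z) (fderiv ℂ F^[m] z v))) / m

/-- The Lyapunov exponent of the tangent vector at `[z]` represented by `v`. -/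
noncomputable def lyap (F : E n → E n) (z v : E n) : EReal := limsup (rate F z v) atTop

/-- The Lyapunov exponents `χ 1 ≥ χ 2 ≥ …` at `[z]`, counted with multiplicity: `χ j` is the least
value, over the subspaces `W` of codimension less than `j` of the tangent space, of the largest
exponent of a vector in `W`. Subspaces of the tangent space at `[z]` correspond to subspaces of
`E n` that contain `z`. -/
noncomputable def chi (F : E n → E n) (z : E n) (j : ℕ) : EReal :=
  ⨅ (W : Submodule ℂ (E n)) (_ : z ∈ W ∧ n < Module.finrank ℂ W + j), ⨆ v ∈ W, lyap F z v

end Pool.Agent.Lib.MP_a47f92_an
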