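import Pool.Agent.Lib.MP_a47f92_an.G.LHa

set_option autoImplicit false
set_option linter.unusedSectionVars false

namespace Pool.Agent.Lib.MP_a47f92_an

open MeasureTheory Filter Topology Set Complex Metric Function
open scoped ContDiff ComplexConjugate ComplexOrder Matrix ENNReal NNReal

/-! Radial directions, scaling, domination by the Fubini-Study form. -/

variable {n p d : ℕ} {D : ℝ} {q : E n → ℝ} {a b : E n → ℂ} {F : E n → E n} {z : E n}

theorem LHb_nh (hz : z ≠ 0) : ({0}ᶜ : Set (E n)) ∈ 𝓝 z := isOpen_compl_singleton.mem_nhds hz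

theorem LH.ic {a : E n → ℝ} (h : LH 0 a) : IC (rc a) :=
  ⟨contDiffOn_rc h.1, fun c hc z hz => by simp only [rc, h.2 c hc z hz, zero_mul, add_zero]⟩

theorem IC.contDiffAt (h : IC a) (hz : z ≠ 0) : ContDiffAt ℝ ∞ a z := h.1.contDiffAt (LHb_nh hz)

theorem IC.re (h : IC a) : LH 0 fun z => (a z).re :=
  ⟨reCLM.contDiff.comp_contDiffOn h.1, fun c hc z hz => by
    simp only [h.2 c hc z hz, zero_mul, add_zero]⟩

theorem IC.im (h : IC a) : LH 0 fun z => (a z).im :=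
  ⟨imCLM.contDiff.comp_contDiffOn h.1, fun c hc z hz => by
    simp only [h.2 c hc z hz, zero_mul, add_zero]⟩

theorem IC.conj (h : IC a) : IC fun z => conj (a z) :=
  ⟨conjCLE.contDiff.comp_contDiffOn h.1, fun c hc z hz => by simp only [h.2 c hc z hz]⟩

theorem IC.mul (h : IC a) (h' : IC b) : IC fun z => a z * b z :=
  ⟨h.1.mul h'.1, fun c hc z hz => by simp only [h.2 c hc z hz, h'.2 c hc z hz]⟩

theorem IC.comp (h : IC a) (hF : IsLift d F) : IC fun z => a (F z) :=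
  ⟨h.1.comp hF.contDiffR.contDiffOn fun _ hz => hF.ne hz, fun c hc z hz => by
    simp only [hF.hom, h.2 _ (pow_ne_zero d hc) _ (hF.ne hz)]⟩

theorem ic_const (c : ℂ) : IC fun _ : E n => c := ⟨contDiffOn_const, fun _ _ _ _ => rfl⟩

theorem LHb_two (h : IC a) (hz : z ≠ 0) : ContDiffAt ℝ 2 a z := (h.contDiffAt hz).of_le GW2_two

theorem LHb_rc (h : LH D q) (hz : z ≠ 0) : ContDiffAt ℝ 2 (rc q) z :=
  contDiffAt_rc (h.contDiffAt2 hz)

theorem LHb_split (h : IC a) (hz : z ≠ 0) (u v : E n) : gd u (gb v a) z =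
    gd u (gb v (rc fun w => (a w).re)) z + I * gd u (gb v (rc fun w => (a w).im)) z := by
  rw [← GL_const_mul, ← GL_add (LHb_rc h.re hz) (contDiffAt_const.mul (LHb_rc h.im hz))]
  simp only [rc, mul_comm I, re_add_im]

theorem gl_split (h : IC a) (hz : z ≠ 0) (u : Fin p → E n) :
    gl a z u = gl (rc fun w => (a w).re) z u + I • gl (rc fun w => (a w).im) z u :=
  Matrix.ext fun _ _ => LHb_split h hz _ _

theorem LHb_euler (h : IC a) (hz : z ≠ 0) (c : ℂ) : fderiv ℝ a z (c • z) = 0 := by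
  have h1 : DifferentiableAt ℝ a z := GL_d (LHb_two h hz)
  have h2 : HasDerivAt (fun t : ℝ => cexp (t * c) • z) (c • z) 0 := by
    simpa using (((hasDerivAt_id (0 : ℝ)).ofReal_comp.mul_const c).cexp).smul_const z
  have h3 := h1.hasFDerivAt.comp_hasDerivAt_of_eq (0 : ℝ) h2 (by simp)
  have e : (a ∘ fun t : ℝ => cexp (t * c) • z) = fun _ => a z :=
    funext fun t => h.2 _ (exp_ne_zero _) z hz
  rw [e] at h3
  exact h3.unique (hasDerivAt_const _ _)

/-- Differentiate the homogeneity relation (`Chain_euler`, `euler_hess`). -/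
theorem IC.radial (h : IC a) (hz : z ≠ 0) : gd z a z = 0 ∧ gb z a z = 0 := by
  have h1 := LHb_euler h hz 1
  rw [one_smul] at h1
  simp [gd, gb, h1, LHb_euler h hz I]

theorem LH.radial (h : LH D q) (hz : z ≠ 0) (v : E n) :
    gd z (gb v (rc q)) z = 0 ∧ gd v (gb z (rc q)) z = 0 := by
  obtain ⟨h1, h2⟩ := euler_hess h.1 h.2 hz
  have h3 : ∀ u w : E n, gd u (gb w (rc q)) z = ∑ i, ∑ j, u i * conj (w j) * hess q z i j :=
    fun u w => by
      have := GL_sum (LHb_rc h hz) (fun i => u i) (fun i => w i) ev ev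
      rwa [sum_ev, sum_ev] at this
  constructor
  · rw [h3, Finset.sum_comm]
    refine Finset.sum_eq_zero fun j _ => ?_
    rw [← mul_zero (conj (v j)), ← h1 j, Finset.mul_sum]
    exact Finset.sum_congr rfl fun i _ => by ring
  · rw [h3]
    refine Finset.sum_eq_zero fun i _ => ?_
    rw [← mul_zero (v i), ← h2 i, Finset.mul_sum]
    exact Finset.sum_congr rfl fun j _ => by ring

theorem IC.radial2 (h : IC a) (hz : z ≠ 0) (v : E n) :
    gd z (gb v a) z = 0 ∧ gd v (gb z a) z = 0 := by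
  simp [LHb_split h hz, h.re.radial hz v, h.im.radial hz v]

theorem LHb_fd (c : ℂ) (z v : E n) : fderiv ℂ (fun w : E n => c • w) z v = c • v :=
  congrArg (fun T : E n →L[ℂ] E n => T v) ((hasFDerivAt_id (𝕜 := ℂ) z).const_smul c).fderiv

theorem LHb_scl {c κ : ℂ} (h1 : ContDiffAt ℝ 2 a z) (h2 : ContDiffAt ℝ 2 a (c • z))
    (h : ∀ w, w ≠ 0 → a (c • w) = a w + κ) (hz : z ≠ 0) (u v : E n) :
    gd (c • v) a (c • z) = gd v a z ∧ gb (c • v) a (c • z) = gb v a z ∧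
      gd (c • u) (gb (c • v) a) (c • z) = gd u (gb v a) z := by
  have e : (fun w => a (c • w)) =ᶠ[𝓝 z] fun w => a w + κ := mem_of_superset (LHb_nh hz) h
  have h3 : ContDiffAt ℂ 2 (fun w : E n => c • w) z := contDiffAt_id.const_smul c
  have h4 := h3.differentiableAt two_ne_zero
  refine ⟨?_, ?_, ?_⟩
  · rw [← LHb_fd c z v, ← gd_comp h4 (GL_d h2), (gd_congr e v).eq_of_nhds,
      gd_add (GL_d h1) (differentiableAt_const κ), gd_const, add_zero]
  · rw [← LHb_fd c z v, ← gb_comp h4 (GL_d h2), (gb_congr e v).eq_of_nhds,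
      gb_add (GL_d h1) (differentiableAt_const κ), gb_const, add_zero]
  · rw [← LHb_fd c z v, ← LHb_fd c z u, ← GL_comp h3 h2, GL_congr e, GL_add h1 contDiffAt_const,
      GL_const, add_zero]

theorem LHb_lh (h : LH D q) {c : ℂ} (hc : c ≠ 0) (hz : z ≠ 0) (u v : E n) :
    gd (c • v) (rc q) (c • z) = gd v (rc q) z ∧ gb (c • v) (rc q) (c • z) = gb v (rc q) z ∧
      gd (c • u) (gb (c • v) (rc q)) (c • z) = gd u (gb v (rc q)) z :=
  LHb_scl (κ := (D * Real.log ‖c‖ : ℝ)) (LHb_rc h hz) (LHb_rc h (smul_ne_zero hc hz))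
    (fun w hw => by simp only [rc, h.2 c hc w hw, ofReal_add]) hz u v

theorem LHb_ic (h : IC a) {c : ℂ} (hc : c ≠ 0) (hz : z ≠ 0) (u v : E n) :
    gd (c • v) a (c • z) = gd v a z ∧ gb (c • v) a (c • z) = gb v a z ∧
      gd (c • u) (gb (c • v) a) (c • z) = gd u (gb v a) z :=
  LHb_scl (κ := 0) (LHb_two h hz) (LHb_two h (smul_ne_zero hc hz))
    (fun w hw => by rw [h.2 c hc w hw, add_zero]) hz u v

theorem LH.gd_scl (h : LH D q) {c : ℂ} (hc : c ≠ 0) (hz : z ≠ 0) (v : E n) :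
    gd (c • v) (rc q) (c • z) = gd v (rc q) z := (LHb_lh h hc hz v v).1

theorem IC.gd_scl (h : IC a) {c : ℂ} (hc : c ≠ 0) (hz : z ≠ 0) (v : E n) :
    gd (c • v) a (c • z) = gd v a z ∧ gb (c • v) a (c • z) = gb v a z :=
  ⟨(LHb_ic h hc hz v v).1, (LHb_ic h hc hz v v).2.1⟩

theorem LH.lv_scl (h : LH D q) {c : ℂ} (hc : c ≠ 0) {x : Fr n p} (hx : x.1 ≠ 0) :
    lv q (scl c x) = lv q x := Matrix.ext fun _ _ => (LHb_lh h hc hx _ _).2.2

theorem LHb_rad (h1 : ContDiffAt ℝ 2 a z)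
    (h : ∀ v, gd z (gb v a) z = 0 ∧ gd v (gb z a) z = 0) (u v : E n) (c e : ℂ) :
    gd (u + c • z) (gb (v + e • z) a) z = gd u (gb v a) z := by
  rw [gd_vadd, gd_vsmul, (h _).1, mul_zero, add_zero,
    show gb (v + e • z) a = fun w => gb v a w + conj e * gb z a w from
      funext fun w => by rw [gb_vadd, gb_vsmul],
    gd_add (GL_db h1 v) ((GL_db h1 z).const_mul _), gd_const_mul, (h u).2, mul_zero, add_zero]

theorem LH.lv_chg (h : LH D q) (P : Mat p) (c : Fin p → ℂ) {x : Fr n p} (hx : x.1 ≠ 0) :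
    lv q (chg P c x) = cong P (lv q x) := by
  rw [lv_eq_gl q x, ← gl_chg (LHb_rc h hx)]
  exact Matrix.ext fun _ _ => LHb_rad (LHb_rc h hx) (h.radial hx) _ _ _ _

theorem IC.gl_scl (h : IC a) {c : ℂ} (hc : c ≠ 0) {x : Fr n p} (hx : x.1 ≠ 0) :
    gl a (scl c x).1 (scl c x).2 = gl a x.1 x.2 := Matrix.ext fun _ _ => (LHb_ic h hc hx _ _).2.2

theorem IC.gl_chg (h : IC a) (P : Mat p) (c : Fin p → ℂ) {x : Fr n p} (hx : x.1 ≠ 0) :
    gl a (chg P c x).1 (chg P c x).2 = cong P (gl a x.1 x.2) := by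
  rw [← MP_a47f92_an.gl_chg (LHb_two h hx)]
  exact Matrix.ext fun _ _ => LHb_rad (LHb_two h hx) (h.radial2 hx) _ _ _ _

theorem IC.gg_scl (h : IC a) (h' : IC b) {c : ℂ} (hc : c ≠ 0) {x : Fr n p} (hx : x.1 ≠ 0) :
    gg a b (scl c x).1 (scl c x).2 = gg a b x.1 x.2 :=
  Matrix.ext fun _ _ => congrArg₂ (· * ·) (h.gd_scl hc hx _).1 (h'.gd_scl hc hx _).2

theorem LHb_rad1 (h : IC a) (hz : z ≠ 0) (v : E n) (c : ℂ) :
    gd (v + c • z) a z = gd v a z ∧ gb (v + c • z) a z = gb v a z := by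
  simp [gd_vadd, gb_vadd, gd_vsmul, gb_vsmul, h.radial hz]

theorem IC.gg_chg (h : IC a) (h' : IC b) (P : Mat p) (c : Fin p → ℂ) {x : Fr n p} (hx : x.1 ≠ 0) :
    gg a b (chg P c x).1 (chg P c x).2 = cong P (gg a b x.1 x.2) := by
  rw [← MP_a47f92_an.gg_chg]
  exact Matrix.ext fun _ _ => congrArg₂ (· * ·) (LHb_rad1 h hx _ _).1 (LHb_rad1 h' hx _ _).2

theorem PL.lv_psd (h : PL D q) {x : Fr n p} (hx : x.1 ≠ 0) : (lv q x).PosSemidef :=
  gl_psd (h.lh.contDiffAt2 hx) fun v => (lap_eq_levi (h.lh.contDiffAt2 hx) v).symm ▸ h.psh _ hx v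

theorem LH.lv_herm (h : LH D q) {x : Fr n p} (hx : x.1 ≠ 0) : (lv q x).IsHermitian :=
  gl_herm (h.contDiffAt2 hx)

theorem LHb_bound {Φ : E n → E n → ℝ}
    (h1 : ∀ x : E n × E n, x.1 ≠ 0 → ContinuousAt (fun y : E n × E n => Φ y.1 y.2) x)
    (h2 : ∀ z, z ≠ 0 → ∀ (c : ℂ) v, Φ z (c • v) = ‖c‖ ^ 2 * Φ z v)
    (h3 : ∀ z, z ≠ 0 → ∀ c : ℂ, c ≠ 0 → ∀ v, Φ (c • z) (c • v) = Φ z v)
    (h4 : ∀ z, z ≠ 0 → ∀ (c : ℂ) v, Φ z (v + c • z) = Φ z v) :
    ∃ C : ℝ, 0 ≤ C ∧ ∀ z, z ≠ 0 → ∀ v, Φ z v ≤ C * levi lg z v := by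
  obtain ⟨C, hC⟩ := ((isCompact_sphere (0 : E n) 1).prod (isCompact_closedBall (0 : E n) 1)
    ).exists_bound_of_continuousOn (f := fun y : E n × E n => Φ y.1 y.2) fun x hx =>
      (h1 x (ne_zero_of_mem_unit_sphere ⟨x.1, hx.1⟩)).continuousWithinAt
  refine ⟨2 * max C 0, by positivity, fun z hz v => ?_⟩
  obtain ⟨c, hc⟩ := sub_prj_un z v
  rw [levi_lg hz]
  generalize prj (un z) v = w at hc
  have h0 : ‖z‖ ≠ 0 := norm_ne_zero_iff.2 hz
  have h5 : ((‖z‖⁻¹ : ℝ) : ℂ) ≠ 0 := ofReal_ne_zero.2 (inv_ne_zero h0)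
  have h6 : ((‖z‖⁻¹ : ℝ) : ℂ) • w = ((‖z‖⁻¹ * ‖w‖ : ℝ) : ℂ) • un w := by
    rw [Complex.coe_smul, Complex.coe_smul, un, smul_smul]
    by_cases hw : w = 0
    · simp [hw]
    · rw [mul_assoc, mul_inv_cancel₀ (norm_ne_zero_iff.2 hw), mul_one]
  have h7 : ‖un w‖ ≤ 1 := by
    rw [un, norm_smul, norm_inv, norm_norm]
    exact inv_mul_le_one
  have h8 : Φ (un z) (un w) ≤ max C 0 := ((le_abs_self _).trans (hC (un z, un w)
    ⟨mem_sphere_zero_iff_norm.2 (norm_un hz), mem_closedBall_zero_iff.2 h7⟩)).trans (le_max_left _ _)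
  rw [hc, h4 z hz, ← h3 z hz _ h5, h6, h2 _ (smul_ne_zero h5 hz), Complex.coe_smul, norm_real,
    Real.norm_eq_abs, sq_abs]
  refine (mul_le_mul_of_nonneg_left h8 (sq_nonneg _)).trans_eq ?_
  field_simp

/-- Bound on the unit sphere by compactness, then replace `v` by its projection and scale. -/
theorem LH.levi_le (h : LH D q) :
    ∃ C : ℝ, 0 ≤ C ∧ ∀ z, z ≠ 0 → ∀ v, |levi q z v| ≤ C * levi lg z v := by
  obtain ⟨C, h0, hC⟩ := LHb_bound (Φ := fun z v => |lap q z v|)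
    (fun x hx => (continuous_re.continuousAt.comp (contDiffAt_gd_gb_comp
      (contDiffAt_rc (h.contDiffAt hx)) contDiffAt_fst contDiffAt_snd
        contDiffAt_snd).continuousAt).abs)
    (fun z hz c v => by rw [lap_smul (h.contDiffAt2 hz), abs_mul, abs_sq])
    (fun z hz c hc v => by rw [lap, (LHb_lh h hc hz v v).2.2, lap])
    fun z hz c v => by rw [lap, LHb_rad (LHb_rc h hz) (h.radial hz), lap]
  exact ⟨C, h0, fun z hz v => lap_eq_levi (h.contDiffAt2 hz) v ▸ hC z hz v⟩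

theorem LH.dom (h : LH D q) : ∃ C : ℝ, 0 ≤ C ∧
    PL (C + D) (fun z => C * lg z + q z) ∧ PL (C - D) fun z => C * lg z - q z := by
  obtain ⟨C, h0, hC⟩ := h.levi_le
  have h1 : LH C fun z : E n => C * lg z := by simpa only [mul_one] using lh_lg.const_mul C
  refine ⟨C, h0, ⟨h1.add h, fun z hz v => ?_⟩, ⟨h1.sub h, fun z hz v => ?_⟩⟩
  · rw [← lap_eq_levi ((h1.add h).contDiffAt2 hz), lap_add (h1.contDiffAt2 hz) (h.contDiffAt2 hz),
      lap_const_mul, lap_eq_levi (lh_lg.contDiffAt2 hz), lap_eq_levi (h.contDiffAt2 hz)]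
    linarith [hC z hz v, neg_abs_le (levi q z v)]
  · rw [← lap_eq_levi ((h1.sub h).contDiffAt2 hz),
      show (fun z => C * lg z - q z) = fun z => C * lg z + -1 * q z from funext fun _ => by ring,
      lap_add (h1.contDiffAt2 hz) ((h.const_mul (-1)).contDiffAt2 hz), lap_const_mul, lap_const_mul,
      lap_eq_levi (lh_lg.contDiffAt2 hz), lap_eq_levi (h.contDiffAt2 hz)]
    linarith [hC z hz v, le_abs_self (levi q z v)]

theorem IC.grad_le (h : IC a) :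
    ∃ C : ℝ, 0 ≤ C ∧ ∀ z, z ≠ 0 → ∀ v, ‖gd v a z‖ ^ 2 ≤ C * levi lg z v :=
  LHb_bound (Φ := fun z v => ‖gd v a z‖ ^ 2)
    (fun _ hx => ((contDiffAt_gd_comp (h.contDiffAt hx) contDiffAt_fst
      contDiffAt_snd).continuousAt.norm).pow 2)
    (fun z _ c v => by rw [gd_vsmul, norm_mul, mul_pow])
    (fun z hz c hc v => by rw [(h.gd_scl hc hz v).1])
    fun z hz c v => by rw [(LHb_rad1 h hz v c).1]

theorem ic_dq {T : E n →L[ℂ] E n} (hT : ∀ z, T z = 0 → z = 0) (B : E n →L[ℂ] E n) (h : LH D q) :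
    IC (dq T B q) := by
  refine ⟨fun z hz => (contDiffAt_gd_comp (contDiffAt_rc (h.contDiffAt fun h0 => hz (hT z h0)))
    (T.contDiff.restrict_scalars ℝ).contDiffAt
    (B.contDiff.restrict_scalars ℝ).contDiffAt).contDiffWithinAt, fun c hc z hz => ?_⟩
  rw [dq, map_smul, map_smul]
  exact h.gd_scl hc (fun h0 => hz (hT z h0)) _

end Pool.Agent.Lib.MP_a47f92_an
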