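import Pool.Agent.Lib.MP_a47f92_an.G.GDef
import Pool.Agent.Lib.MP_a47f92_an.G.LDef

set_option autoImplicit false

namespace Pool.Agent.Lib.MP_a47f92_an

open Filter ExpGrowth

variable {n s : ℕ} {F : E n → E n} {z : E n}

theorem Hyp.exp (h : Hyp F s z) : ∃ c : ℝ, 0 < c ∧ ∃ V : Submodule ℂ (E n), z ∈ V ∧
    Module.finrank ℂ V + s = n ∧ (∀ v ∈ V, lyap F z v ≤ (-c : ℝ)) ∧
    ∀ v ∉ V, (c : EReal) ≤ liminf (rate F z v) atTop := by
  obtain ⟨θ, h0, h1, V, hz, hV, ha, hb⟩ := h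
  refine ⟨-Real.log θ, neg_pos.2 (Real.log_neg h0 h1), V, hz, hV, fun v hv => ?_, fun v hv => ?_⟩
  · have h2 := expGrowthSup_eventually_monotone (v := fun m => ENNReal.ofReal θ ^ m)
      (u := fun m => ENNReal.ofReal (fsNorm (F^[m] z) (fderiv ℂ F^[m] z v)))
      ((ha v hv).mono fun m hm =>
        (ENNReal.ofReal_le_ofReal hm).trans_eq (ENNReal.ofReal_pow h0.le m))
    rw [expGrowthSup_pow, ENNReal.log_ofReal_of_pos h0] at h2
    rw [neg_neg]
    exact h2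
  · have h3 := inv_pos.2 h0
    have h2 := expGrowthInf_eventually_monotone (u := fun m => ENNReal.ofReal θ⁻¹ ^ m)
      (v := fun m => ENNReal.ofReal (fsNorm (F^[m] z) (fderiv ℂ F^[m] z v)))
      ((hb v hv).mono fun m hm =>
        (ENNReal.ofReal_pow h3.le m).ge.trans (ENNReal.ofReal_le_ofReal hm))
    rw [expGrowthInf_pow, ENNReal.log_ofReal_of_pos h3, Real.log_inv] at h2
    exact h2

theorem Hyp.chi_ne (h : Hyp F s z) (j : ℕ) : chi F z j ≠ 0 ∧ (0 < chi F z j ↔ j ≤ s) := by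
  obtain ⟨c, hc, V, hz, hV, ha, hb⟩ := h.exp
  rcases le_or_gt j s with hj | hj
  · have h1 : (c : EReal) ≤ chi F z j := by
      refine le_iInf₂ fun W hW => ?_
      have h2 : ¬ W ≤ V := fun e => by
        have := Submodule.finrank_mono e
        omega
      obtain ⟨v, hv, hv'⟩ := SetLike.not_le_iff_exists.1 h2
      exact le_iSup₂_of_le v hv ((hb v hv').trans liminf_le_limsup)
    have h3 := (EReal.coe_pos.2 hc).trans_le h1
    exact ⟨h3.ne', iff_of_true h3 hj⟩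
  · have h1 : chi F z j ≤ (-c : ℝ) :=
      iInf₂_le_of_le V ⟨hz, by omega⟩ (iSup₂_le ha)
    have h3 := h1.trans_lt (EReal.coe_neg'.2 (neg_neg_of_pos hc))
    exact ⟨h3.ne, iff_of_false h3.not_gt hj.not_ge⟩

end Pool.Agent.Lib.MP_a47f92_an
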