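import Pool.Agent.Lib.MP_a47f92_an.G.Cur1b
import Pool.Agent.Lib.MP_a47f92_an.G.Mt
import Pool.Agent.Lib.MP_a47f92_an.Sm3

set_option autoImplicit false
set_option linter.unusedSectionVars false

namespace Pool.Agent.Lib.MP_a47f92_an

open MeasureTheory Filter Topology Set Complex Metric Function
open scoped ContDiff ComplexConjugate ComplexOrder Matrix ENNReal NNReal

/-! Comparison of integrals of traces over shells and balls; laws of random matrices. -/

variable {n p : ℕ}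

theorem Pol_smul {c : ℂ} (hc : c ≠ 0) (f : E n → ℝ≥0∞) :
    ∫⁻ w, f (c • w) = ENNReal.ofReal ((‖c‖ ^ n) ^ 2)⁻¹ * ∫⁻ w, f w := by
  let T : E n ≃L[ℂ] E n := ContinuousLinearEquiv.smulLeft (Units.mk0 c hc)
  have hT : ∀ w, T w = c • w := fun w => rfl
  have hd : (T : E n →L[ℂ] E n).det = c ^ n := by
    have e : ((T : E n →L[ℂ] E n) : E n →ₗ[ℂ] E n) = c • LinearMap.id := by
      ext1 w
      exact hT w
    rw [ContinuousLinearMap.det, e, LinearMap.det_smul]
    simp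
  have h1 := lintegral_comp_equiv T f
  simp only [hT, hd, norm_pow] at h1
  exact h1

theorem Pol_image {c : ℂ} (hc : c ≠ 0) (A : Set (E n)) :
    (fun u => c • u) '' A = (fun u => c⁻¹ • u) ⁻¹' A := by
  ext w
  constructor
  · rintro ⟨u, hu, rfl⟩
    simpa only [mem_preimage, inv_smul_smul₀ hc] using hu
  · intro h
    exact ⟨_, h, smul_inv_smul₀ hc w⟩

/-- Change of variables `w = c • u` and `PT.hat_smul`. -/
theorem lintegral_hat_smul {g : Fr n p → ℝ} (hg : PT g) {c : ℂ} (hc : c ≠ 0) {A : Set (E n)}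
    (hA : MeasurableSet A) : ∫⁻ w in (fun u => c • u) '' A, ENNReal.ofReal (hat g w) =
      ENNReal.ofReal ((‖c‖ ^ n) ^ 2 / (‖c‖ ^ p) ^ 2) * ∫⁻ w in A, ENNReal.ofReal (hat g w) := by
  have h0 : 0 < ‖c‖ := norm_pos_iff.2 hc
  have hm : MeasurableSet ((fun u : E n => c • u) '' A) := by
    rw [Pol_image hc]
    exact (measurable_const_smul c⁻¹) hA
  have h1 := Pol_smul hc (((fun u : E n => c • u) '' A).indicator fun w => ENNReal.ofReal (hat g w))
  have h2 : ∀ w : E n, (((fun u : E n => c • u) '' A).indicator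
      fun w => ENNReal.ofReal (hat g w)) (c • w) =
      ENNReal.ofReal ((‖c‖ ^ p) ^ 2)⁻¹ * A.indicator (fun w => ENNReal.ofReal (hat g w)) w := by
    intro w
    by_cases hw : w ∈ A
    · rw [indicator_of_mem hw, indicator_of_mem (mem_image_of_mem _ hw), hg.hat_smul hc,
        ENNReal.ofReal_mul (by positivity)]
    · rw [indicator_of_notMem hw, indicator_of_notMem, mul_zero]
      rw [Pol_image hc, mem_preimage, inv_smul_smul₀ hc]
      exact hw
  simp only [h2] at h1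
  rw [lintegral_const_mul' _ _ ENNReal.ofReal_ne_top, lintegral_indicator hA,
    lintegral_indicator hm] at h1
  rw [div_eq_mul_inv, ENNReal.ofReal_mul (by positivity), mul_assoc, h1, ← mul_assoc,
    ← ENNReal.ofReal_mul (by positivity), mul_inv_cancel₀ (by positivity), ENNReal.ofReal_one,
    one_mul]

theorem Pol_cover (n p : ℕ) (T : Finset ℂ) (hT : ∀ a ∈ T, a ≠ 0) : ∃ C : ℝ≥0,
    ∀ (g : Fr n p → ℝ) (A S : Set (E n)), PT g → MeasurableSet A →
      (∀ w ∈ S, ∃ a ∈ T, a⁻¹ • w ∈ A) →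
      ∫⁻ w in S, ENNReal.ofReal (hat g w) ≤ C * ∫⁻ w in A, ENNReal.ofReal (hat g w) := by
  refine ⟨∑ a ∈ T, Real.toNNReal ((‖a‖ ^ n) ^ 2 / (‖a‖ ^ p) ^ 2), fun g A S hg hA hS => ?_⟩
  have h1 : S ⊆ ⋃ a : T, (fun u : E n => (a : ℂ) • u) '' A := by
    intro w hw
    obtain ⟨a, ha, h⟩ := hS w hw
    exact mem_iUnion.2 ⟨⟨a, ha⟩, _, h, smul_inv_smul₀ (hT a ha) w⟩
  refine (lintegral_mono_set h1).trans ((lintegral_iUnion_le _ _).trans (le_of_eq ?_))
  rw [tsum_fintype, ENNReal.ofNNReal_finsetSum, Finset.sum_mul, ← Finset.sum_coe_sort T]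
  exact Finset.sum_congr rfl fun a _ => lintegral_hat_smul hg (hT a a.2) hA

theorem Pol_bw_ge : ∃ μ : ℝ, 0 < μ ∧ ∀ w : E n, 5 / 4 ≤ ‖w‖ → ‖w‖ ≤ 7 / 4 → 1 ≤ μ * bw w := by
  have h1 : 0 < expNegInvGlue (9 / 16) * expNegInvGlue (15 / 16) :=
    mul_pos (expNegInvGlue.pos_of_pos (by norm_num)) (expNegInvGlue.pos_of_pos (by norm_num))
  refine ⟨_, inv_pos.2 h1, fun w h2 h3 => ?_⟩
  rw [← div_eq_inv_mul, le_div_iff₀ h1, one_mul]
  exact mul_le_mul (expNegInvGlue.monotone (by nlinarith)) (expNegInvGlue.monotone (by nlinarith))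
    (expNegInvGlue.nonneg _) (expNegInvGlue.nonneg _)

theorem Pol_glue_le (x : ℝ) : expNegInvGlue x ≤ 1 := by
  unfold expNegInvGlue
  split_ifs with h
  · exact zero_le_one
  · exact Real.exp_le_one_iff.2 (neg_nonpos.2 (inv_nonneg.2 (not_le.1 h).le))

theorem Pol_bw_le (w : E n) : bw w ≤ 1 :=
  mul_le_one₀ (Pol_glue_le _) (expNegInvGlue.nonneg _) (Pol_glue_le _)

/-- Cover the shell by finitely many dilates of the shell `5 / 4 < ‖w‖ < 7 / 4`, on which `bw` is
bounded below. -/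
theorem shell_le_rf (n p : ℕ) {a : ℝ} (ha : 0 < a) (b : ℝ) : ∃ C : ℝ≥0,
    ∀ (g : Fr n p → ℝ) (W : Set (E n)), PT g → MeasurableSet W → IsCone W →
      ∫⁻ w in W ∩ {w | a ≤ ‖w‖ ∧ ‖w‖ ≤ b}, ENNReal.ofReal (hat g w) ≤ C * rf W g := by
  obtain ⟨T, hT, hc⟩ := (isCompact_Icc (a := a) (b := b)).elim_nhds_subcover
    (fun t => Ioo (5 / 6 * t) (7 / 6 * t))
    (fun t ht => Ioo_mem_nhds (by linarith [ht.1]) (by linarith [ht.1]))
  obtain ⟨C, hC⟩ := Pol_cover n p (T.image fun t : ℝ => ((2 / 3 * t : ℝ) : ℂ)) (by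
    intro x hx
    obtain ⟨t, ht, rfl⟩ := Finset.mem_image.1 hx
    exact ofReal_ne_zero.2 (by linarith [(hT t ht).1] : 0 < 2 / 3 * t).ne')
  obtain ⟨μ, hμ, hb⟩ := Pol_bw_ge (n := n)
  refine ⟨C * μ.toNNReal, fun g W hg hW hWc => ?_⟩
  have hm : MeasurableSet (W ∩ {w : E n | 5 / 4 ≤ ‖w‖ ∧ ‖w‖ ≤ 7 / 4}) :=
    hW.inter ((measurableSet_le measurable_const measurable_norm).inter
      (measurableSet_le measurable_norm measurable_const))
  refine (hC g _ _ hg hm ?_).trans ?_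
  · rintro w ⟨hw, h1⟩
    obtain ⟨t, ht, h2⟩ := mem_iUnion₂.1 (hc (show ‖w‖ ∈ Icc a b from h1))
    have h3 : 0 < 2 / 3 * t := by linarith [(hT t ht).1]
    refine ⟨_, Finset.mem_image_of_mem _ ht, hWc _ (inv_ne_zero (ofReal_ne_zero.2 h3.ne')) _ hw, ?_⟩
    rw [mem_setOf_eq, norm_smul, norm_inv, Complex.norm_real, Real.norm_of_nonneg h3.le, ← div_eq_inv_mul,
      le_div_iff₀ h3, div_le_iff₀ h3]
    constructor <;> linarith [h2.1, h2.2]
  · rw [ENNReal.coe_mul, mul_assoc]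
    refine mul_le_mul_right ?_ _
    rw [rf, ← lintegral_const_mul' _ _ ENNReal.coe_ne_top]
    refine le_trans (setLIntegral_mono' hm fun w hw => ?_) (lintegral_mono_set inter_subset_left)
    change _ ≤ ENNReal.ofReal μ * _
    rw [← ENNReal.ofReal_mul hμ.le, ← mul_assoc]
    exact ENNReal.ofReal_le_ofReal
      (le_mul_of_one_le_left (hg.hat_nonneg w) (hb w hw.2.1 hw.2.2))

/-- The line through `z`. -/
def ln (z : E n) : Set (E n) := (Submodule.span ℂ {z} : Set (E n))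

theorem cc_ln (z : E n) : CC (ln z) :=
  ⟨(Submodule.span ℂ {z}).closed_of_finiteDimensional, fun c _ _ hw => Submodule.smul_mem _ c hw⟩

theorem ln_un (z : E n) : ln (un z) = ln z := by
  by_cases hz : z = 0
  · rw [hz, un, smul_zero]
  · rw [ln, ln, un, ← Complex.coe_smul, Submodule.span_singleton_smul_eq
      (IsUnit.mk0 _ (ofReal_ne_zero.2 (inv_ne_zero (norm_ne_zero_iff.2 hz))))]

/-- The part of `nb δ (ln z)` in the shell `1 ≤ ‖w‖ ≤ 2` is covered by the sets `a • ball z c`,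
where `a` runs through a finite `δ`-net of the annulus `1 / 2 ≤ ‖a‖ ≤ 3`. -/
theorem rf_le_ball (n p : ℕ) {c : ℝ} (hc : 0 < c) : ∃ (δ : ℝ) (C : ℝ≥0), 0 < δ ∧ δ ≤ 1 ∧
    ∀ (g : Fr n p → ℝ) (z : E n), PT g → ‖z‖ = 1 →
      rf (nb δ (ln z)) g ≤ C * ∫⁻ w in ball z c, ENNReal.ofReal (hat g w) := by
  obtain ⟨δ, hδ, h1, h2⟩ : ∃ δ : ℝ, 0 < δ ∧ δ ≤ 1 / 4 ∧ δ ≤ c / 6 :=
    ⟨min (1 / 4) (c / 6), by positivity, min_le_left _ _, min_le_right _ _⟩
  have hK : IsCompact (closedBall (0 : ℂ) 3 ∩ {a | 1 / 2 ≤ ‖a‖}) :=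
    (isCompact_closedBall _ _).inter_right (isClosed_le continuous_const continuous_norm)
  obtain ⟨T, hT, hc'⟩ := hK.elim_nhds_subcover (fun a => ball a δ) fun a _ => ball_mem_nhds a hδ
  obtain ⟨C, hC⟩ := Pol_cover n p T fun a ha h0 => by
    have h3 : 1 / 2 ≤ ‖a‖ := (hT a ha).2
    rw [h0, norm_zero] at h3
    linarith
  refine ⟨δ, C, hδ, by linarith, fun g z hg hz => ?_⟩
  have hm : MeasurableSet {w : E n | 1 < ‖w‖ ∧ ‖w‖ < 2} :=
    (measurableSet_lt measurable_const measurable_norm).inter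
      (measurableSet_lt measurable_norm measurable_const)
  refine le_trans ?_ (hC g _ ({w : E n | 1 < ‖w‖ ∧ ‖w‖ < 2} ∩ nb δ (ln z)) hg measurableSet_ball ?_)
  · rw [rf, ← Measure.restrict_restrict hm, ← lintegral_indicator hm]
    refine lintegral_mono fun w => ?_
    by_cases hw : w ∈ {w : E n | 1 < ‖w‖ ∧ ‖w‖ < 2}
    · rw [indicator_of_mem hw]
      exact ENNReal.ofReal_le_ofReal (mul_le_of_le_one_left (hg.hat_nonneg w) (Pol_bw_le w))
    · have h3 : bw w = 0 := ((bw_nonneg w).lt_or_eq.resolve_left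
        fun h => hw ((bw_pos_iff w).1 h)).symm
      rw [h3, zero_mul, ENNReal.ofReal_zero]
      exact zero_le
  · rintro w ⟨hw, y, hy, h3⟩
    obtain ⟨a₀, rfl⟩ := Submodule.mem_span_singleton.1 hy
    have h4 : ‖a₀ • z - w‖ ≤ 2 * δ := h3.trans (by nlinarith [hw.2])
    have h5 := abs_le.1 ((abs_norm_sub_norm_le _ _).trans h4)
    rw [norm_smul, hz, mul_one] at h5
    obtain ⟨a, ha, h6⟩ := mem_iUnion₂.1 (hc' (show a₀ ∈ closedBall (0 : ℂ) 3 ∩ {a | 1 / 2 ≤ ‖a‖} from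
      ⟨mem_closedBall_zero_iff.2 (by linarith [h5.2, hw.2]),
        show 1 / 2 ≤ ‖a₀‖ by linarith [h5.1, hw.1]⟩))
    have h7 : 1 / 2 ≤ ‖a‖ := (hT a ha).2
    have h8 : 0 < ‖a‖ := by linarith
    refine ⟨a, ha, mem_ball_iff_norm.2 ?_⟩
    have e : a⁻¹ • w - z = a⁻¹ • ((a₀ - a) • z - (a₀ • z - w)) := by
      rw [sub_smul, sub_sub_sub_cancel_left, smul_sub, inv_smul_smul₀ (norm_pos_iff.1 h8)]
    have h9 := norm_sub_le ((a₀ - a) • z) (a₀ • z - w)
    rw [norm_smul, hz, mul_one] at h9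
    have h10 := mem_ball_iff_norm.1 h6
    rw [e, norm_smul, norm_inv, ← div_eq_inv_mul, div_lt_iff₀ h8]
    nlinarith

/-- Use `measurePreserving_sw` with an auxiliary vector `u` in the unit ball (`norm_sw`). -/
theorem law_le (n : ℕ) : ∃ C : ℝ≥0, ∀ (z : E n) (f : E n → ℝ≥0∞), ‖z‖ = 1 → Measurable f →
    ∫⁻ A in ball (0 : E (n * n)) 1, f (mt n n A z) ≤ C * ∫⁻ u in ball (0 : E n) 1, f u := by
  have hB0 : volume (ball (0 : E n) 1) ≠ 0 := (measure_ball_pos _ _ one_pos).ne'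
  have hB1 : volume (ball (0 : E n) 1) ≠ ⊤ := measure_ball_lt_top.ne
  have hV : volume (ball (0 : E (n * n)) 2) / volume (ball (0 : E n) 1) ≠ ⊤ :=
    ENNReal.div_ne_top measure_ball_lt_top.ne hB0
  refine ⟨(volume (ball (0 : E (n * n)) 2) / volume (ball (0 : E n) 1)).toNNReal,
    fun z f hz hf => ?_⟩
  have hz' : Measurable fun A : E (n * n) => mt n n A z :=
    ((mt n n).continuous.clm_apply continuous_const).measurable
  have m1 : Measurable ((ball (0 : E (n * n)) 1).indicator fun A => f (mt n n A z)) :=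
    (hf.comp hz').indicator measurableSet_ball
  have m2 : Measurable ((ball (0 : E n) 1).indicator (1 : E n → ℝ≥0∞)) :=
    measurable_one.indicator measurableSet_ball
  have m3 : Measurable ((ball (0 : E (n * n)) 2).indicator (1 : E (n * n) → ℝ≥0∞)) :=
    measurable_one.indicator measurableSet_ball
  have m4 : Measurable ((ball (0 : E n) 1).indicator f) := hf.indicator measurableSet_ball
  have h1 := lintegral_prod_mul (μ := volume) (ν := volume) m1.aemeasurable m2.aemeasurable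
  have h2 := lintegral_prod_mul (μ := volume) (ν := volume) m3.aemeasurable m4.aemeasurable
  have h3 := (measurePreserving_sw hz).lintegral_comp
    (f := fun y : E (n * n) × E n => (ball (0 : E (n * n)) 2).indicator (1 : E (n * n) → ℝ≥0∞) y.1 *
      (ball (0 : E n) 1).indicator f y.2) ((m3.comp measurable_fst).mul (m4.comp measurable_snd))
  rw [lintegral_indicator_one measurableSet_ball, lintegral_indicator measurableSet_ball] at h1 h2
  rw [ENNReal.coe_toNNReal hV, ENNReal.div_eq_inv_mul, mul_assoc, ← h2, ← h3,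
    ← ENNReal.div_eq_inv_mul, ENNReal.le_div_iff_mul_le (Or.inl hB0) (Or.inl hB1), ← h1]
  refine lintegral_mono fun y => ?_
  by_cases hA : y.1 ∈ ball (0 : E (n * n)) 1
  · by_cases hu : y.2 ∈ ball (0 : E n) 1
    · have h4 := mem_ball_zero_iff.1 hA
      have h5 := mem_ball_zero_iff.1 hu
      have h6 : ‖mt n n y.1 z‖ < 1 := by
        have h7 := (mt n n y.1).le_opNorm z
        rw [hz, mul_one] at h7
        exact (h7.trans (norm_mt_le _)).trans_lt h4
      have h7 : ‖sw z y.1 y.2‖ < 2 := by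
        have h8 := norm_sw hz y.1 y.2
        by_contra h9
        nlinarith [norm_nonneg y.1, norm_nonneg y.2, sq_nonneg ‖mt n n y.1 z‖, not_lt.1 h9]
      simp only [indicator_of_mem hA, indicator_of_mem hu, indicator_of_mem (mem_ball_zero_iff.2 h6),
        indicator_of_mem (mem_ball_zero_iff.2 h7), Pi.one_apply, mul_one, one_mul, le_refl]
    · simp only [indicator_of_notMem hu, mul_zero, zero_le]
  · simp only [indicator_of_notMem hA, zero_mul, zero_le]

theorem lintegral_ball_affine (z : E n) {t : ℂ} (ht : t ≠ 0) (c : ℝ) {f : E n → ℝ≥0∞}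
    (hf : Measurable f) : ∫⁻ u in ball (0 : E n) c, f (z + t • u) =
      ENNReal.ofReal ((‖t‖ ^ n) ^ 2)⁻¹ * ∫⁻ w in ball z (‖t‖ * c), f w := by
  have h1 := Pol_smul ht fun v : E n => (ball z (‖t‖ * c)).indicator f (z + v)
  rw [lintegral_add_left_eq_self ((ball z (‖t‖ * c)).indicator f) z,
    lintegral_indicator measurableSet_ball] at h1
  rw [← h1, ← lintegral_indicator measurableSet_ball]
  refine lintegral_congr fun u => ?_
  have h2 : z + t • u ∈ ball z (‖t‖ * c) ↔ u ∈ ball (0 : E n) c := by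
    rw [mem_ball_iff_norm, add_sub_cancel_left, norm_smul, mem_ball_zero_iff,
      mul_lt_mul_iff_right₀ (norm_pos_iff.2 ht)]
  by_cases hu : u ∈ ball (0 : E n) c
  · rw [indicator_of_mem hu, indicator_of_mem (h2.2 hu)]
  · rw [indicator_of_notMem hu, indicator_of_notMem fun h => hu (h2.1 h)]

/-- `law_le`, `lintegral_ball_affine`, `shell_le_rf`; `ball (un z) r ⊆ nb (2 r) K`. -/
theorem avg_hat_le (n p : ℕ) {r₀ : ℝ} (hr₀ : 0 < r₀) : ∃ C : ℝ≥0,
    ∀ (g : Fr n p → ℝ) (K : Set (E n)) (z : E n) (t : ℂ) (r : ℝ), PT g → CC K → z ∈ K → z ≠ 0 →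
      r₀ ≤ ‖t‖ → ‖t‖ ≤ r → r ≤ 1 / 2 →
      ∫⁻ A in ball (0 : E (n * n)) 1, ENNReal.ofReal (hat g (Tm t A (un z))) ≤
        C * rf (nb (2 * r) K) g := by
  obtain ⟨C₁, h₁⟩ := law_le n
  obtain ⟨C₂, h₂⟩ := shell_le_rf n p (a := 1 / 2) (by norm_num) (3 / 2)
  refine ⟨C₁ * (Real.toNNReal ((r₀ ^ n) ^ 2)⁻¹ * C₂), fun g K z t r hg hK hz hz0 ht htr hr => ?_⟩
  have ht0 : t ≠ 0 := norm_pos_iff.1 (hr₀.trans_le ht)
  have hf : Measurable fun w : E n => ENNReal.ofReal (hat g w) := hg.measurable_hat.ennreal_ofReal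
  have hu := norm_un hz0
  have hK' : un z ∈ K := by
    rw [un, ← Complex.coe_smul]
    exact hK.2 _ (ofReal_ne_zero.2 (inv_ne_zero (norm_ne_zero_iff.2 hz0))) _ hz
  refine (h₁ (un z) (fun u => ENNReal.ofReal (hat g (un z + t • u))) hu
    (hf.comp ((measurable_const_smul t).const_add _))).trans ?_
  rw [lintegral_ball_affine (un z) ht0 1 hf, ENNReal.coe_mul, ENNReal.coe_mul, mul_assoc, mul_assoc]
  refine mul_le_mul_right (mul_le_mul' (ENNReal.ofReal_le_ofReal ?_) (le_trans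
    (lintegral_mono_set fun w hw => ?_) (h₂ g _ hg (isClosed_nb hK.1).measurableSet
      (isCone_nb hK.2)))) _
  · gcongr
  · have h3 : ‖un z - w‖ ≤ r := by
      rw [norm_sub_rev]
      linarith [mem_ball_iff_norm.1 hw]
    have h4 := abs_le.1 ((abs_norm_sub_norm_le _ _).trans h3)
    rw [hu] at h4
    have h5 : 1 / 2 ≤ ‖w‖ := by linarith [h4.2]
    refine ⟨⟨un z, hK', h3.trans ?_⟩, h5, by linarith [h4.1]⟩
    nlinarith [(norm_nonneg t).trans htr]

end Pool.Agent.Lib.MP_a47f92_an
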