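import Pool.Agent.Lib.MP_a47f92_an.G.Plk

set_option autoImplicit false
set_option linter.unusedSectionVars false

namespace Pool.Agent.Lib.MP_a47f92_an

open MeasureTheory Filter Topology Set Complex Metric Function
open scoped ContDiff ComplexConjugate ComplexOrder Matrix ENNReal NNReal

/-! Singular values. -/

variable {n p : ℕ}

theorem SVD_norm_sum {ι : Type} [Fintype ι] {e : ι → E n} (he : Orthonormal ℂ e) (a : ι → ℂ) :
    ‖∑ i, a i • e i‖ ^ 2 = ∑ i, ‖a i‖ ^ 2 := by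
  have h := he.inner_sum a a Finset.univ
  rw [inner_self_eq_norm_sq_to_K] at h
  have h2 : ((‖∑ i, a i • e i‖ ^ 2 : ℝ) : ℂ) = ((∑ i, ‖a i‖ ^ 2 : ℝ) : ℂ) := by
    push_cast
    refine h.trans (Finset.sum_congr rfl fun i _ => ?_)
    exact Complex.conj_mul' (a i)
  exact_mod_cast h2

theorem SVD_plk_scale (c : Fin p → ℂ) (w : Fin p → E n) :
    plk (fun j => c j • w j) = (∏ j, c j) • plk w := by
  ext J
  rw [PiLp.smul_apply, plk_apply, plk_apply, smul_eq_mul, ← Matrix.det_mul_row]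
  rfl

theorem SVD_le_of_strictMono {f : Fin p → Fin n} (hf : StrictMono f) (j : Fin p) :
    (j : ℕ) ≤ f j := by
  obtain ⟨j, hj⟩ := j
  induction j with
  | zero => exact Nat.zero_le _
  | succ j ih =>
    have h1 := ih (Nat.lt_of_succ_lt hj)
    have h2 : f ⟨j, Nat.lt_of_succ_lt hj⟩ < f ⟨j + 1, hj⟩ := hf (Fin.mk_lt_mk.2 (Nat.lt_succ_self j))
    exact Nat.succ_le_of_lt (lt_of_le_of_lt h1 h2)

theorem SVD_prod_le (hp : p ≤ n) {σ : Fin n → ℝ} (hσ : Antitone σ) (h0 : ∀ i, 0 ≤ σ i)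
    {J : Fin p → Fin n} (hJ : Injective J) :
    ∏ j, σ (J j) ≤ ∏ j : Fin p, σ (Fin.castLE hp j) := by
  have hm : StrictMono (J ∘ Tuple.sort J) :=
    (Tuple.monotone_sort J).strictMono_of_injective (hJ.comp (Tuple.sort J).injective)
  rw [← Equiv.prod_comp (Tuple.sort J) fun j => σ (J j)]
  refine Finset.prod_le_prod (fun j _ => h0 _) fun j _ => hσ ?_
  exact SVD_le_of_strictMono hm j

theorem SVD_term {B : E n →L[ℂ] E n} {u v : OrthonormalBasis (Fin n) ℂ (E n)}
    {σ : Fin n → ℝ} (h0 : ∀ i, 0 ≤ σ i) (h : ∀ i, B (v i) = (σ i : ℂ) • u i)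
    (J : Fin p → Fin n) :
    ‖plk fun j => B (v (J j))‖ ^ 2 = (∏ j, σ (J j)) ^ 2 * ‖plk fun j => u (J j)‖ ^ 2 := by
  simp only [h]
  rw [SVD_plk_scale (fun j => (σ (J j) : ℂ)) fun j => u (J j), norm_smul, mul_pow,
    ← Complex.ofReal_prod, Complex.norm_real, Real.norm_of_nonneg (Finset.prod_nonneg fun j _ => h0 _)]

/-- Use an orthonormal eigenbasis of `B† B` with antitone eigenvalues
(`LinearMap.IsSymmetric.eigenvectorBasis`), and complete the normalised nonzero images to an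
orthonormal basis (`Orthonormal.exists_orthonormalBasis_extension_of_card_eq`). -/
theorem exists_svd (B : E n →L[ℂ] E n) :
    ∃ (u v : OrthonormalBasis (Fin n) ℂ (E n)) (σ : Fin n → ℝ),
      Antitone σ ∧ (∀ i, 0 ≤ σ i) ∧ ∀ i, B (v i) = (σ i : ℂ) • u i := by
  have hn : Module.finrank ℂ (E n) = n := by simp
  set L : E n →ₗ[ℂ] E n := (B : E n →ₗ[ℂ] E n) with hL
  have hT := L.isSymmetric_adjoint_comp_self
  set v := hT.eigenvectorBasis hn with hv
  have hin : ∀ i j, inner ℂ (B (v i)) (B (v j)) =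
      (hT.eigenvalues hn j : ℂ) * inner ℂ (v i) (v j) := by
    intro i j
    have h1 := hT.apply_eigenvectorBasis hn j
    have h2 : inner ℂ (L (v i)) (L (v j)) = inner ℂ (v i) ((LinearMap.adjoint L ∘ₗ L) (v j)) := by
      rw [LinearMap.comp_apply, LinearMap.adjoint_inner_right]
    rw [hv] at h2 ⊢
    rw [h1, inner_smul_right] at h2
    exact h2
  have hsq : ∀ i, ‖B (v i)‖ ^ 2 = hT.eigenvalues hn i := by
    intro i
    have h1 := hin i i
    rw [inner_self_eq_norm_sq_to_K, inner_self_eq_norm_sq_to_K, v.orthonormal.1 i] at h1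
    have h2 : ((‖B (v i)‖ ^ 2 : ℝ) : ℂ) = (hT.eigenvalues hn i : ℂ) := by
      push_cast
      simpa using h1
    exact_mod_cast h2
  have horth : Orthonormal ℂ (Set.domRestrict {i | ‖B (v i)‖ ≠ 0}
      fun i => ((‖B (v i)‖⁻¹ : ℝ) : ℂ) • B (v i)) := by
    constructor
    · rintro ⟨i, hi⟩
      change ‖((‖B (v i)‖⁻¹ : ℝ) : ℂ) • B (v i)‖ = 1
      rw [norm_smul, Complex.norm_real, norm_inv, norm_norm]
      exact inv_mul_cancel₀ hi
    · rintro ⟨i, hi⟩ ⟨j, hj⟩ hij
      have hij' : i ≠ j := fun h => hij (Subtype.ext h)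
      change inner ℂ (((‖B (v i)‖⁻¹ : ℝ) : ℂ) • B (v i)) (((‖B (v j)‖⁻¹ : ℝ) : ℂ) • B (v j)) = 0
      rw [inner_smul_left, inner_smul_right, hin, v.orthonormal.2 hij']
      simp
  obtain ⟨u, hu⟩ := horth.exists_orthonormalBasis_extension_of_card_eq (by simp)
  refine ⟨u, v, fun i => ‖B (v i)‖, fun i j hij => ?_, fun i => norm_nonneg _, fun i => ?_⟩
  · have := hT.eigenvalues_antitone hn hij
    rw [← hsq, ← hsq] at this
    exact le_of_sq_le_sq this (norm_nonneg _)
  · by_cases hi : ‖B (v i)‖ = 0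
    · simp only [hi]
      rw [norm_eq_zero.1 hi]
      simp
    · rw [hu i hi, smul_smul, ← Complex.ofReal_mul, mul_inv_cancel₀ hi]
      simp

/-- The norm of the exterior power is comparable to the product of the largest singular values:
`wn_sq_basis`, the terms with `J` not injective vanish, the others are `p! (∏ σ (J j)) ^ 2`. -/
theorem wn_svd (hp : p ≤ n) {B : E n →L[ℂ] E n} {u v : OrthonormalBasis (Fin n) ℂ (E n)}
    {σ : Fin n → ℝ} (hσ : Antitone σ) (h0 : ∀ i, 0 ≤ σ i) (h : ∀ i, B (v i) = (σ i : ℂ) • u i) :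
    ∏ j : Fin p, σ (Fin.castLE hp j) ≤ wn p B ∧
      wn p B ^ 2 ≤ n ^ p * p.factorial * (∏ j : Fin p, σ (Fin.castLE hp j)) ^ 2 := by
  have hP : 0 ≤ ∏ j : Fin p, σ (Fin.castLE hp j) := Finset.prod_nonneg fun j _ => h0 _
  constructor
  · refine le_of_sq_le_sq ?_ (wn_nonneg p B)
    rw [wn_sq_basis B v]
    refine le_trans ?_ (Finset.single_le_sum (f := fun J : Fin p → Fin n =>
      ‖plk fun j => B (v (J j))‖ ^ 2) (fun J _ => sq_nonneg _) (Finset.mem_univ (Fin.castLE hp)))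
    have ho : Orthonormal ℂ fun j : Fin p => u (Fin.castLE hp j) :=
      u.orthonormal.comp _ (Fin.castLE_injective hp)
    rw [SVD_term h0 h, norm_plk_orthonormal ho]
    have h1 : (1 : ℝ) ≤ p.factorial := by exact_mod_cast p.factorial_pos
    nlinarith [sq_nonneg (∏ j : Fin p, σ (Fin.castLE hp j))]
  · rw [wn_sq_basis B v]
    have hle : ∀ J : Fin p → Fin n, ‖plk fun j => B (v (J j))‖ ^ 2 ≤
        p.factorial * (∏ j : Fin p, σ (Fin.castLE hp j)) ^ 2 := by
      intro J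
      rw [SVD_term h0 h]
      by_cases hJ : Injective J
      · have ho : Orthonormal ℂ fun j : Fin p => u (J j) := u.orthonormal.comp _ hJ
        rw [norm_plk_orthonormal ho, mul_comm]
        exact mul_le_mul_of_nonneg_left
          (pow_le_pow_left₀ (Finset.prod_nonneg fun j _ => h0 _) (SVD_prod_le hp hσ h0 hJ) 2)
          (Nat.cast_nonneg _)
      · have hz : plk (fun j => u (J j)) = 0 := by
          by_contra hne
          have hli := ((plk_ne_zero_iff _).1 hne).injective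
          exact hJ fun a b hab => hli (by simp only [hab])
        rw [hz, norm_zero]
        have : (0 : ℝ) ≤ p.factorial * (∏ j : Fin p, σ (Fin.castLE hp j)) ^ 2 := by positivity
        simpa using this
    refine (Finset.sum_le_sum fun J _ => hle J).trans (le_of_eq ?_)
    rw [Finset.sum_const, Finset.card_univ, Fintype.card_fun, Fintype.card_fin, Fintype.card_fin,
      nsmul_eq_mul]
    push_cast
    ring

/-- A subspace of dimension `p + 1` on which `B` expands at least by the singular value number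
`p + 1`. -/
theorem exists_expanding (hp : p < n) : ∃ c : ℝ, 0 < c ∧ ∀ B : E n →L[ℂ] E n,
    ∃ V : Submodule ℂ (E n), Module.finrank ℂ V = p + 1 ∧
      ∀ w ∈ V, c * wn (p + 1) B * ‖w‖ ≤ wn p B * ‖B w‖ := by
  have hn : (0 : ℝ) < n := by exact_mod_cast lt_of_le_of_lt (Nat.zero_le p) hp
  have hp1 : p + 1 ≤ n := hp
  set K : ℝ := √((n : ℝ) ^ (p + 1) * (p + 1).factorial) with hK
  have hKK : (0 : ℝ) < (n : ℝ) ^ (p + 1) * (p + 1).factorial := by positivity
  have hK0 : 0 < K := Real.sqrt_pos.2 hKK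
  refine ⟨K⁻¹, inv_pos.2 hK0, fun B => ?_⟩
  obtain ⟨u, v, σ, hσ, h0, h⟩ := exists_svd B
  have hov : Orthonormal ℂ fun j : Fin (p + 1) => v (Fin.castLE hp1 j) :=
    v.orthonormal.comp _ (Fin.castLE_injective hp1)
  have hou : Orthonormal ℂ fun j : Fin (p + 1) => u (Fin.castLE hp1 j) :=
    u.orthonormal.comp _ (Fin.castLE_injective hp1)
  refine ⟨Submodule.span ℂ (Set.range fun j : Fin (p + 1) => v (Fin.castLE hp1 j)), ?_, ?_⟩
  · rw [finrank_span_eq_card hov.linearIndependent, Fintype.card_fin]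
  intro w hw
  obtain ⟨a, rfl⟩ := (Submodule.mem_span_range_iff_exists_fun ℂ).1 hw
  set s : ℝ := σ (Fin.castLE hp1 (Fin.last p)) with hs
  have hs0 : 0 ≤ s := h0 _
  have hexp : s * ‖∑ j, a j • v (Fin.castLE hp1 j)‖ ≤ ‖B (∑ j, a j • v (Fin.castLE hp1 j))‖ := by
    refine le_of_sq_le_sq ?_ (norm_nonneg _)
    have hB : B (∑ j, a j • v (Fin.castLE hp1 j)) =
        ∑ j, (a j * (σ (Fin.castLE hp1 j) : ℂ)) • u (Fin.castLE hp1 j) := by
      rw [map_sum]
      refine Finset.sum_congr rfl fun j _ => ?_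
      rw [map_smul, h, smul_smul]
    rw [hB, mul_pow, SVD_norm_sum hov, SVD_norm_sum hou, Finset.mul_sum]
    refine Finset.sum_le_sum fun j _ => ?_
    rw [norm_mul, mul_pow, Complex.norm_real, Real.norm_of_nonneg (h0 _), mul_comm]
    refine mul_le_mul_of_nonneg_left (pow_le_pow_left₀ hs0 (hσ ?_) 2) (sq_nonneg _)
    exact Fin.le_last j
  have h1 := (wn_svd hp.le hσ h0 h).1
  have h2 := (wn_svd hp1 hσ h0 h).2
  have hP : 0 ≤ ∏ j : Fin p, σ (Fin.castLE hp.le j) := Finset.prod_nonneg fun j _ => h0 _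
  have h3 : ∏ j : Fin (p + 1), σ (Fin.castLE hp1 j) = (∏ j : Fin p, σ (Fin.castLE hp.le j)) * s := by
    rw [Fin.prod_univ_castSucc]
    rfl
  have h4 : wn (p + 1) B ≤ K * ((∏ j : Fin p, σ (Fin.castLE hp.le j)) * s) := by
    refine le_of_sq_le_sq ?_ (by positivity)
    rw [mul_pow, hK, Real.sq_sqrt hKK.le, ← h3]
    exact h2
  have h5 : K⁻¹ * wn (p + 1) B ≤ wn p B * s := by
    rw [inv_mul_le_iff₀ hK0]
    exact h4.trans (mul_le_mul_of_nonneg_left (mul_le_mul_of_nonneg_right h1 hs0) hK0.le)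
  calc K⁻¹ * wn (p + 1) B * ‖∑ j, a j • v (Fin.castLE hp1 j)‖
      ≤ wn p B * s * ‖∑ j, a j • v (Fin.castLE hp1 j)‖ :=
        mul_le_mul_of_nonneg_right h5 (norm_nonneg _)
    _ ≤ _ := by
        rw [mul_assoc]
        exact mul_le_mul_of_nonneg_left hexp (wn_nonneg p B)

end Pool.Agent.Lib.MP_a47f92_an
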