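import Pool.Agent.Lib.MP_a47f92_an.G.V2a
import Pool.Agent.Lib.MP_a47f92_an.G.Cur3
import Pool.Agent.Lib.MP_a47f92_an.G.Mt

set_option autoImplicit false
set_option linter.unusedSectionVars false

namespace Pool.Agent.Lib.MP_a47f92_an

open MeasureTheory Filter Topology Set Complex Metric Function
open scoped ContDiff ComplexConjugate ComplexOrder Matrix ENNReal NNReal

/-! The first variation. -/

variable {n p : ℕ} {S S' : Measure (Fr n p)} {a : E n → ℝ} {T : E n →L[ℂ] E n}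

theorem V1_deriv (ha : LH 0 a) {q : Fin p → E n → ℝ} (hq : Pots q) {A : E (n * n)} {x : Fr n p}
    {ρ : ℝ} (hx : Tm ρ A x.1 ≠ 0) :
    HasDerivAt (fun t : ℝ => a (Tm t A x.1) * dn q (lin (Tm t A) x))
      (2 * (gv a q (Tm ρ A) (mt n n A) x).re) ρ := by
  let L : ℂ →L[ℂ] (E n →L[ℂ] E n) := (ContinuousLinearMap.id ℂ ℂ).smulRight (mt n n A)
  have hL : ∀ t : ℂ, TL L t = Tm t A := fun _ => rfl
  have hL1 : L 1 = mt n n A := one_smul ℂ (mt n n A)
  have hx' : TL L (ρ : ℂ) x.1 ≠ 0 := hx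
  have hc : Continuous fun t : ℂ => Tm t A x.1 :=
    (continuous_Tm.comp (continuous_id.prodMk continuous_const)).clm_apply continuous_const
  have hT : ContDiff ℝ ∞ fun t : ℂ => Tm t A x.1 :=
    contDiff_const.add (contDiff_id.smul contDiff_const)
  let φ : ℂ → ℂ := fun t => (a (TL L t x.1) : ℂ) * dc q (lin (TL L t) x)
  let ψ : ℂ → ℝ := fun t => a (Tm t A x.1) * dn q (lin (Tm t A) x)
  have h1 : ContDiffAt ℝ ∞ φ ρ := by
    refine (contDiffAt_rc ((ha.contDiffAt hx).comp (ρ : ℂ) hT.contDiffAt)).mul ?_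
    exact contDiffAt_mdC fun l i j => (hq l).elim fun _ h => contDiffAt_lv_TL h hx' i j
  have h2 : φ =ᶠ[𝓝 (ρ : ℂ)] rc ψ := by
    filter_upwards [hc.continuousAt.eventually_ne hx] with t ht
    simp only [φ, ψ, rc, hL, ofReal_mul]
    rw [dc_eq_dn hq (x := lin (Tm t A) x) ht]
  have h3 : gd 1 (rc ψ) ρ = gv a q (Tm ρ A) (mt n n A) x := by
    rw [← (gd_congr h2 1).eq_of_nhds, gd_pr_density ha hq hx', hL, hL1]
  have h4 : DifferentiableAt ℝ (rc ψ) ρ :=
    (h1.differentiableAt (by simp)).congr_of_eventuallyEq h2.symm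
  have h5 := reCLM.hasFDerivAt.comp_hasDerivAt ρ
    (h4.hasFDerivAt.comp_hasDerivAt ρ ofRealCLM.hasDerivAt)
  rw [ofRealCLM_apply, ofReal_one, fderiv_eq_gd_add_gb, gb_rc, h3, add_conj] at h5
  simpa [Function.comp_def, ψ] using h5

theorem V1_pr (hS : IsCur S) (ha : LH 0 a) {q : Fin p → E n → ℝ} (hq : Pots q) (hT : T ∈ Inj n) :
    Integrable (fun x => a (T x.1) * dn q (lin T x)) S ∧
      pr (S.map (lin T)) a q = ∫ x, a (T x.1) * dn q (lin T x) ∂S := by
  have hF := isLift_clm hT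
  have e : ∀ x : Fr n p, dn (fun l z => q l (T z)) x = dn q (lin T x) := fun x => by
    rw [dn_fw hq hF le_rfl, fw_clm]
  have h1 := hS.int_mul_dn (ha.comp0 hF).bm (hq.comp hF)
  simp only [e] at h1
  refine ⟨h1, ?_⟩
  rw [← fw_clm, hS.pr_map_fw hF le_rfl ha.measurable hq, hS.pr_eq, fw_clm]
  simp only [e]

/-- For fixed `x` the function `t ↦ a (Tm t A x.1) * dc q (lin (Tm t A) x)` is real valued
(`dc_eq_dn`), so its derivative along the real axis is `2 * re` of `gd 1` (`fderiv_eq_gd_add_gb`,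
`gb_rc`, `gd_pr_density`). Fundamental theorem of calculus and Fubini (`TF.swap`, `tf_gv`). -/
theorem ray_pr (hS : IsCur S) (ha : LH 0 a) {q : Fin p → E n → ℝ} (hq : Pots q) {A : E (n * n)}
    (hA : ‖A‖ ≤ 1) {r : ℝ} (hr : 0 ≤ r) (hr' : r ≤ 1 / 2) :
    pr (S.map (lin (Tm r A))) a q - pr S a q =
      ∫ ρ in Ioo 0 r, 2 * (∫ x, gv a q (Tm ρ A) (mt n n A) x ∂S).re := by
  have hi : ∀ ρ ∈ Icc (0 : ℝ) r, Tm ρ A ∈ Inj n := fun ρ h => Tm_inj (by
    rw [norm_real, Real.norm_of_nonneg h.1]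
    nlinarith [h.1, h.2, norm_nonneg A])
  have hf : TF (Icc (0 : ℝ) r) fun ρ x => gv a q (Tm ρ A) (mt n n A) x :=
    (tf_gv ha hq).comp (φ := fun ρ : ℝ => (Tm ρ A, mt n n A))
      ((continuous_Tm.comp (continuous_ofReal.prodMk continuous_const)).prodMk
        continuous_const).continuousOn hi
  have hμ : ∀ᵐ ρ ∂volume.restrict (Ioo (0 : ℝ) r), ρ ∈ Icc (0 : ℝ) r :=
    (ae_restrict_mem measurableSet_Ioo).mono fun _ h => Ioo_subset_Icc_self h
  have := hS.sf
  have h1 := hf.integrable isCompact_Icc hS hμ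
  have h0 := V1_pr hS ha hq (hi 0 ⟨le_rfl, hr⟩)
  have e0 : lin (Tm ((0 : ℝ) : ℂ) A) = (id : Fr n p → Fr n p) := by
    rw [ofReal_zero, Tm_zero]
    rfl
  have h0' : pr S a q = ∫ x, a (Tm ((0 : ℝ) : ℂ) A x.1) * dn q (lin (Tm ((0 : ℝ) : ℂ) A) x) ∂S := by
    rw [← h0.2, e0, Measure.map_id]
  have hr1 := V1_pr hS ha hq (hi r ⟨hr, le_rfl⟩)
  rw [hr1.2, h0', ← integral_sub hr1.1 h0.1, integral_const_mul,
    show (fun ρ : ℝ => (∫ x, gv a q (Tm ρ A) (mt n n A) x ∂S).re) =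
      fun ρ : ℝ => reCLM (∫ x, gv a q (Tm ρ A) (mt n n A) x ∂S) from rfl,
    reCLM.integral_comp_comm h1.integral_prod_left, hf.swap isCompact_Icc hS hμ,
    ← reCLM.integral_comp_comm h1.integral_prod_right, ← integral_const_mul]
  refine integral_congr_ae (hS.ne.mono fun x hx => ?_)
  have hc : ContinuousOn (fun ρ : ℝ => gv a q (Tm ρ A) (mt n n A) x) (Icc 0 r) :=
    hf.cont.comp (f := fun ρ : ℝ => (ρ, x)) (continuous_id.prodMk continuous_const).continuousOn
      fun _ h => ⟨h, hx⟩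
  have h2 := intervalIntegral.integral_eq_sub_of_hasDerivAt (a := 0) (b := r)
    (fun ρ h => V1_deriv ha hq (A := A) (x := x) (ρ := ρ)
      fun h0 => hx (hi ρ (uIcc_of_le hr ▸ h) _ h0))
    (((continuous_const.mul continuous_re).comp_continuousOn hc).intervalIntegrable_of_Icc hr)
  simp only
  rw [← h2, ← reCLM.integral_comp_comm
    (hc.integrableOn_Icc.mono_set Ioo_subset_Icc_self), ← integral_const_mul,
    intervalIntegral.integral_of_le hr, integral_Ioc_eq_integral_Ioo]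
  rfl

theorem dc_update_eq (q : Fin p → E n → ℝ) (a : E n → ℝ) (i : Fin p) (x : Fr n p) :
    dc (update q i a) x =
      dc (fun l => (Fin.cons a q : Fin (p + 1) → E n → ℝ) (i.succ.succAbove l)) x := by
  obtain ⟨p, rfl⟩ := Nat.exists_eq_add_one_of_ne_zero i.pos.ne'
  obtain ⟨τ, hτ⟩ := cons_succAbove_perm (update q i a) i
  have e : (fun l => (Fin.cons a q : Fin (p + 1 + 1) → E n → ℝ) (i.succ.succAbove l)) =
      update q i a ∘ τ := by
    rw [hτ]
    funext l
    refine Fin.cases ?_ (fun l => ?_) l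
    · simp
    · simp
  rw [e]
  exact (mdC_perm (fun l => lv (update q i a l) x) τ).symm

theorem V1_lv {q : Fin p → E n → ℝ} (hq : Pots q) (hT : T ∈ Inj n) {x : Fr n p} (hx : x.1 ≠ 0) :
    (fun l => lv (q l) (lin T x)) = fun l => lv (fun z => q l (T z)) x := by
  rw [Tst_lv_fw hq (isLift_clm hT) hx, fw_clm]

theorem V1_dc {q : Fin p → E n → ℝ} (hq : Pots q) (hT : T ∈ Inj n) {x : Fr n p} (hx : x.1 ≠ 0) :
    dc q (lin T x) = dc (fun l z => q l (T z)) x :=
  congrArg mdC (V1_lv hq hT hx)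

/-- `Closed.gg_eq`, `Closed.gg_eq'`, `dc_update_eq`. -/
theorem integral_gv (hS : IsCur S) (hc : Closed S) (ha : LH 0 a) {q : Fin p → E n → ℝ}
    (hq : Pots q) (hT : T ∈ Inj n) (B : E n →L[ℂ] E n) :
    ∫ x, gv a q T B x ∂S = Fv S (Fin.cons a q) T B := by
  have hF := isLift_clm hT
  have hq' := hq.comp hF
  have ha' := (ha.comp0 hF).ic
  have hb : ∀ j, IC (dq T B (q j)) := fun j => (hq j).elim fun _ h => ic_dq hT B h
  have h1 : ∀ j, Integrable (fun x : Fr n p => rc (fun z => a (T z)) x.1 *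
      mdC (update (fun l => lv (fun z => q l (T z)) x) j (gl (dq T B (q j)) x.1 x.2))) S :=
    fun j => hS.integrable ((tst_gl hq' j (hb j)).mul_left ha')
  have h2 : Integrable (fun x : Fr n p => dq T B a x.1 * dc q (lin T x)) S :=
    hS.integrable ((tf_dq ha hq).tst (a := (T, B)) hT)
  rw [Fv, Fin.sum_univ_succ, integral_congr_ae (g := fun x => dq T B a x.1 * dc q (lin T x) +
    ∑ j, rc (fun z => a (T z)) x.1 * mdC (update (fun l => lv (fun z => q l (T z)) x) j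
      (gl (dq T B (q j)) x.1 x.2))) (hS.ne.mono fun x hx => by
        simp only [gv, V1_lv hq hT hx, Finset.mul_sum]),
    integral_add h2 (integrable_finsetSum _ fun j _ => h1 j),
    integral_finsetSum _ fun j _ => h1 j]
  refine congrArg₂ (· + ·) (by simp) (Finset.sum_congr rfl fun j _ => ?_)
  rw [neg_inj.1 ((hc.gg_eq hS ha' (hb j) hq' j).symm.trans (hc.gg_eq' hS ha' (hb j) hq' j))]
  refine integral_congr_ae (hS.ne.mono fun x hx => ?_)
  simp only [Fin.cons_succ]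
  rw [← dc_update_eq, dc_update, V1_lv hq hT hx, ← lv_eq_gl, ← lv_eq_gl, lv_fw ha hF hx, fw_clm]

/-- `DDC.slotC` for the potentials `q ∘ T`. -/
theorem DDC.integral_gv {Y : Measure (Fr n (p + 1))} (h : DDC Y S S') (hY : IsCur Y) (hS : IsCur S)
    (hS' : IsCur S') {q : Fin (p + 1) → E n → ℝ} (hq : Pots q) (hT : T ∈ Inj n)
    (B : E n →L[ℂ] E n) :
    ∫ x, gv (fun _ => 1) q T B x ∂Y = Fv S q T B - Fv S' q T B := by
  have hq' := hq.comp (isLift_clm hT)
  have hb : ∀ j, IC (dq T B (q j)) := fun j => (hq j).elim fun _ h => ic_dq hT B h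
  have h0 : ∀ z, dq T B (fun _ => 1) z = 0 := fun z => gd_const _ _ _
  have e : ∀ {M : Measure (Fr n p)}, IsCur M → ∀ j : Fin (p + 1),
      ∫ x, dq T B (q j) x.1 * dc (fun l => q (j.succAbove l)) (lin T x) ∂M =
        ∫ x, dq T B (q j) x.1 * dc (fun l z => q (j.succAbove l) (T z)) x ∂M := fun hR j =>
    integral_congr_ae (hR.ne.mono fun x hx => by
      simp only [V1_dc (q := fun l => q (j.succAbove l)) (fun l => hq _) hT hx])
  rw [Fv, Fv, ← Finset.sum_sub_distrib, integral_congr_ae (g := fun x =>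
    ∑ j, mdC (update (fun l => lv (fun z => q l (T z)) x) j (gl (dq T B (q j)) x.1 x.2)))
      (hY.ne.mono fun x hx => by simp [gv, V1_lv hq hT hx, h0]),
    integral_finsetSum _ fun j _ => hY.integrable (tst_gl hq' j (hb j))]
  refine Finset.sum_congr rfl fun j _ => ?_
  rw [h.slotC hY hS hS' (hb j) hq' j, e hS, e hS']

end Pool.Agent.Lib.MP_a47f92_an
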