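import Pool.Agent.Lib.MP_a47f92_an.G.FamT
import Pool.Agent.Lib.MP_a47f92_an.G.MDX

set_option autoImplicit false
set_option linter.unusedSectionVars false

namespace Pool.Agent.Lib.MP_a47f92_an

open MeasureTheory Filter Topology Set Complex Metric Function
open scoped ContDiff ComplexConjugate ComplexOrder Matrix ENNReal NNReal

/-! Derivatives with respect to a linear perturbation `1 + L y`. -/

variable {n p : ℕ} {P : Type} [NormedAddCommGroup P] [NormedSpace ℝ P] [NormedSpace ℂ P]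
  [IsScalarTower ℝ ℂ P] {L : P →L[ℂ] (E n →L[ℂ] E n)} {y e : P} {u : E n → ℝ} {D : ℝ}
  {T B : E n →L[ℂ] E n} {z : E n}

/-- The perturbation. -/
noncomputable def TL (L : P →L[ℂ] (E n →L[ℂ] E n)) (y : P) : E n →L[ℂ] E n :=
  ContinuousLinearMap.id ℂ (E n) + L y

theorem V2a_has (L : P →L[ℂ] (E n →L[ℂ] E n)) (y : P) (z : E n) :
    HasFDerivAt (fun y' => TL L y' z) (L.flip z) y :=
  (L.flip z).hasFDerivAt.const_add z

theorem V2a_sm (L : P →L[ℂ] (E n →L[ℂ] E n)) (y : P) (z : E n) :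
    ContDiffAt ℝ ∞ (fun y' => TL L y' z) y :=
  ContDiffAt.restrict_scalars (𝕜' := ℂ) ℝ (contDiffAt_const.add (L.flip z).contDiff.contDiffAt)

theorem V2a_sm2 (L : P →L[ℂ] (E n →L[ℂ] E n)) : ContDiff ℂ ∞ fun w : P × E n => TL L w.1 w.2 :=
  (contDiff_const.add (L.contDiff.comp contDiff_fst)).clm_apply contDiff_snd

theorem V2a_fd (L : P →L[ℂ] (E n →L[ℂ] E n)) (w a : P × E n) :
    fderiv ℂ (fun w : P × E n => TL L w.1 w.2) w a = TL L w.1 a.2 + L a.1 w.2 := by
  have h := (((L.hasFDerivAt (x := w.1)).comp w hasFDerivAt_fst).const_add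
    (ContinuousLinearMap.id ℂ (E n))).clm_apply hasFDerivAt_snd
  exact DFunLike.congr_fun h.fderiv a

theorem V2a_d (hu : LH D u) (hz : z ≠ 0) : DifferentiableAt ℝ (rc u) z :=
  GL_d (contDiffAt_rc (hu.contDiffAt2 hz))

theorem V2a_dd (hu : LH D u) (hz : z ≠ 0) (v : E n) : DifferentiableAt ℝ (gd v (rc u)) z :=
  (contDiffAt_gd (k := 1) (contDiffAt_rc (hu.contDiffAt2 hz)) one_add_one_eq_two.le
    v).differentiableAt one_ne_zero

theorem V2a_U (hu : LH D u) (hz : TL L y z ≠ 0) :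
    ContDiffAt ℝ ∞ (fun w : P × E n => rc u (TL L w.1 w.2)) (y, z) :=
  ContDiffAt.comp (g := rc u) (y, z) (contDiffAt_rc (hu.contDiffAt hz))
    ((V2a_sm2 L).contDiffAt.restrict_scalars ℝ)

theorem V2a_lv (hu : LH D u) {x : Fr n p} (hx : TL L y x.1 ≠ 0) (i j : Fin p) :
    (fun y' => lv u (lin (TL L y') x) i j) =ᶠ[𝓝 y] fun y' => gd ((0 : P), x.2 i)
      (gb ((0 : P), x.2 j) fun w : P × E n => rc u (TL L w.1 w.2)) (y', x.1) := by
  filter_upwards [(V2a_has L y x.1).continuousAt.eventually_ne hx] with y' hy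
  have h := GL_comp (Φ := fun w : P × E n => TL L w.1 w.2) (z := (y', x.1)) (A := rc u)
    ((V2a_sm2 L).contDiffAt.of_le GW2_two) (contDiffAt_rc (hu.contDiffAt2 hy)) (0, x.2 i) (0, x.2 j)
  rw [V2a_fd, V2a_fd, map_zero, zero_apply, add_zero, add_zero] at h
  exact h.symm

theorem V2a_inr {H : P × E n → ℂ} (hH : ContDiffAt ℝ 2 H (y, z)) (a b : E n) :
    gd a (gb b fun w => H (y, w)) z = gd ((0 : P), a) (gb ((0 : P), b) H) (y, z) := by
  rw [GL_comp (Φ := fun w => (y, w)) (contDiffAt_const.prodMk contDiffAt_id) hH,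
    (hasFDerivAt_prodMk_right y z).fderiv]
  rfl

theorem V2a_ne (hz : T z ≠ 0) : ∀ᶠ w in 𝓝 z, T w ≠ 0 := T.continuous.continuousAt.eventually_ne hz

theorem gd_comp_TL (hu : LH D u) (hz : TL L y z ≠ 0) :
    gd e (rc fun y' => u (TL L y' z)) y = dq (TL L y) (L e) u z := by
  refine (gd_comp (u := rc u) (V2a_has L y z).differentiableAt (V2a_d hu hz)).trans ?_
  rw [(V2a_has L y z).fderiv]
  rfl

theorem gb_dq_TL (hu : LH D u) (hz : TL L y z ≠ 0) (B : E n →L[ℂ] E n) :
    gb e (fun y' => dq (TL L y') B u z) y = gd (B z) (gb (L e z) (rc u)) (TL L y z) := by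
  refine (gb_comp (u := gd (B z) (rc u)) (V2a_has L y z).differentiableAt
    (V2a_dd hu hz _)).trans ?_
  rw [(V2a_has L y z).fderiv, gd_gb_comm (contDiffAt_rc (hu.contDiffAt2 hz))]
  rfl

/-- Consider `U (y, z) = u (TL L y z)` on `P × E n`; the entries of `lv` are second derivatives of
`U` in the constant directions `(0, v)` (`gl_comp`), and derivatives commute. -/
theorem gd_lv_TL (hu : LH D u) {x : Fr n p} (hx : TL L y x.1 ≠ 0) (i j : Fin p) :
    gd e (fun y' => lv u (lin (TL L y') x) i j) y = gl (dq (TL L y) (L e) u) x.1 x.2 i j := by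
  have hU := V2a_U hu hx
  have h1 := contDiffAt_gb (k := ∞) hU le_rfl ((0 : P), x.2 j)
  have h2 : dq (TL L y) (L e) u =ᶠ[𝓝 x.1] fun w =>
      gd (e, (0 : E n)) (fun w : P × E n => rc u (TL L w.1 w.2)) (y, w) := by
    filter_upwards [V2a_ne hx] with w hw
    have h := gd_comp (Φ := fun w : P × E n => TL L w.1 w.2) (z := (y, w)) (v := (e, 0))
      (u := rc u) ((V2a_sm2 L).differentiable (by simp) _) (V2a_d hu hw)
    rw [V2a_fd, map_zero, zero_add] at h
    exact h.symm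
  rw [(gd_congr (V2a_lv hu hx i j) e).eq_of_nhds, gl_congr h2, gl, Matrix.of_apply,
    V2a_inr ((contDiffAt_gd (k := ∞) hU le_rfl _).of_le GW2_two),
    gd_comp (hasFDerivAt_prodMk_left y x.1).differentiableAt
      ((contDiffAt_gd (k := ∞) h1 le_rfl _).differentiableAt (by simp)),
    (hasFDerivAt_prodMk_left y x.1).fderiv, gd_gd_comm (h1.of_le GW2_two)]
  refine (gd_congr ?_ _).eq_of_nhds
  exact ((hU.of_le GW2_two).eventually (by simp)).mono fun w hw => gd_gb_comm hw _ _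

theorem gb_lv_TL (hu : LH D u) {x : Fr n p} (hx : TL L y x.1 ≠ 0) (i j : Fin p) :
    gb e (fun y' => lv u (lin (TL L y') x) i j) y =
      gl (fun w => conj (dq (TL L y) (L e) u w)) x.1 x.2 i j := by
  have hU := V2a_U hu hx
  have h1 := contDiffAt_gb (k := ∞) hU le_rfl ((0 : P), x.2 j)
  have h2 : (fun w => conj (dq (TL L y) (L e) u w)) =ᶠ[𝓝 x.1] fun w =>
      gb (e, (0 : E n)) (fun w : P × E n => rc u (TL L w.1 w.2)) (y, w) := by
    filter_upwards [V2a_ne hx] with w hw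
    have h := gb_comp (Φ := fun w : P × E n => TL L w.1 w.2) (z := (y, w)) (v := (e, 0))
      (u := rc u) ((V2a_sm2 L).differentiable (by simp) _) (V2a_d hu hw)
    rw [V2a_fd, map_zero, zero_add] at h
    exact (h.trans (gb_rc _ _ _)).symm
  rw [(gb_congr (V2a_lv hu hx i j) e).eq_of_nhds, gl_congr h2, gl, Matrix.of_apply,
    V2a_inr ((contDiffAt_gb (k := ∞) hU le_rfl _).of_le GW2_two),
    gb_comp (hasFDerivAt_prodMk_left y x.1).differentiableAt
      ((contDiffAt_gd (k := ∞) h1 le_rfl _).differentiableAt (by simp)),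
    (hasFDerivAt_prodMk_left y x.1).fderiv, ← gd_gb_comm (h1.of_le GW2_two)]
  refine (gd_congr ?_ _).eq_of_nhds
  exact ((hU.of_le GW2_two).eventually (by simp)).mono fun w hw => gb_gb_comm hw _ _

theorem contDiffAt_lv_TL (hu : LH D u) {x : Fr n p} (hx : TL L y x.1 ≠ 0) (i j : Fin p) :
    ContDiffAt ℝ ∞ (fun y' => lv u (lin (TL L y') x) i j) y :=
  contDiffAt_gd_gb_comp (a := fun y' => TL L y' x.1) (contDiffAt_rc (hu.contDiffAt hx))
    (V2a_sm L y _) (V2a_sm L y _) (V2a_sm L y _)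

theorem contDiffAt_dq_TL (hu : LH D u) (hz : TL L y z ≠ 0) (B : E n →L[ℂ] E n) :
    ContDiffAt ℝ ∞ (fun y' => dq (TL L y') B u z) y :=
  contDiffAt_gd_comp (a := fun y' => TL L y' z) (contDiffAt_rc (hu.contDiffAt hz))
    (V2a_sm L y _) contDiffAt_const

/-- `dq T B u w = ∑ a, B w a * gd (ev a) (rc u) (T w)` and `w ↦ B w a` is holomorphic. -/
theorem gb_dq (hu : LH D u) (hz : T z ≠ 0) (v : E n) :
    gb v (dq T B u) z = gd (B z) (gb (T v) (rc u)) (T z) := by
  have e1 : dq T B u = fun w => ∑ a, B w a * gd (ev a) (rc u) (T w) := funext fun w => by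
    conv_lhs => rw [dq, wd_eq_gd, ← sum_ev (B w), gd_vsum]
    exact Finset.sum_congr rfl fun a _ => gd_vsmul _ _ _ _
  have h1 : ∀ a, DifferentiableAt ℂ (fun w => B w a) z := fun a =>
    ((EuclideanSpace.proj a : E n →L[ℂ] ℂ).comp B).differentiableAt
  have h2 : ∀ a, DifferentiableAt ℝ (fun w => gd (ev a) (rc u) (T w)) z := fun a =>
    (V2a_dd hu hz _).comp z (T.differentiableAt.restrictScalars ℝ)
  rw [e1, gb_sum _ fun a _ => ((h1 a).restrictScalars ℝ).fun_mul (h2 a)]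
  conv_rhs => rw [← sum_ev (B z), gd_vsum]
  refine Finset.sum_congr rfl fun a _ => ?_
  rw [gb_mul ((h1 a).restrictScalars ℝ) (h2 a), gb_holo (h1 a), zero_mul, zero_add, gd_vsmul,
    gb_comp T.differentiableAt (V2a_dd hu hz _), T.fderiv,
    gd_gb_comm (contDiffAt_rc (hu.contDiffAt2 hz))]

theorem gd_conj_dq (hu : LH D u) (hz : T z ≠ 0) (v : E n) :
    gd v (fun w => conj (dq T B u w)) z = gd (T v) (gb (B z) (rc u)) (T z) := by
  rw [gd_conj, gb_dq hu hz, ← GL_conj (contDiffAt_rc (hu.contDiffAt2 hz))]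
  simp only [conj_ofReal]

theorem low_lv_su (u : E n → ℝ) (T B : E n →L[ℂ] E n) (x : Fr n p) :
    low (lv u (su T B x)) = lv u (lin T x) := rfl

/-- The block expansion `mdC_succ` of the density of the suspension. -/
theorem dc_su {q : Fin (p + 1) → E n → ℝ} (hq : Pots q) {x : Fr n p} (hx : T x.1 ≠ 0) :
    dc q (su T B x) =
      ∑ j, gd (B x.1) (gb (B x.1) (rc (q j))) (T x.1) * dc (fun l => q (j.succAbove l)) (lin T x) -
      ∑ j, ∑ i, mdC (update (fun l => lv (q (Fin.succAbove j l)) (lin T x)) i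
        (gg (fun w => conj (dq T B (q (j.succAbove i)) w)) (dq T B (q j)) x.1 x.2)) := by
  rw [dc, mdC_succ]
  refine congrArg₂ (· - ·) rfl (Finset.sum_congr rfl fun j _ => Finset.sum_congr rfl fun i _ => ?_)
  obtain ⟨_, h1⟩ := hq (j.succAbove i)
  obtain ⟨_, h2⟩ := hq j
  refine congrArg (fun M => mdC (update _ i M)) (Matrix.ext fun a b => ?_)
  rw [gg, Matrix.of_apply, Matrix.of_apply, gd_conj_dq h1 hx, gb_dq h2 hx]
  rfl

/-- The density of the antiholomorphic derivative of the first variation. -/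
noncomputable def gw (q : Fin (p + 1) → E n → ℝ) (T B : E n →L[ℂ] E n) (j : Fin (p + 1))
    (x : Fr n p) : ℂ :=
  gd (B x.1) (gb (B x.1) (rc (q j))) (T x.1) * dc (fun l => q (j.succAbove l)) (lin T x) +
    dq T B (q j) x.1 * ∑ i, mdC (update (fun l => lv (q (j.succAbove l)) (lin T x)) i
      (gl (fun w => conj (dq T B (q (j.succAbove i)) w)) x.1 x.2))

theorem gb_Fv_density {q : Fin (p + 1) → E n → ℝ} (hq : Pots q) {x : Fr n p}
    (hx : TL L y x.1 ≠ 0) (j : Fin (p + 1)) :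
    gb e (fun y' => dq (TL L y') (L e) (q j) x.1 *
      dc (fun l => q (j.succAbove l)) (lin (TL L y') x)) y = gw q (TL L y) (L e) j x := by
  obtain ⟨_, h⟩ := hq j
  have h1 : ∀ l a b, ContDiffAt ℝ ∞
      (fun y' => lv (q (j.succAbove l)) (lin (TL L y') x) a b) y := fun l a b =>
    (hq _).elim fun _ h => contDiffAt_lv_TL h hx a b
  unfold dc
  rw [gb_mul ((contDiffAt_dq_TL h hx _).differentiableAt (by simp))
    ((contDiffAt_mdC h1).differentiableAt (by simp)), gb_dq_TL h hx,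
    gb_mdC fun l a b => (h1 l a b).differentiableAt (by simp)]
  refine congrArg₂ (· + ·) rfl (congrArg _ (Finset.sum_congr rfl fun i _ => ?_))
  obtain ⟨_, h2⟩ := hq (j.succAbove i)
  exact congrArg (fun M => mdC (update _ i M)) (Matrix.ext fun a b => gb_lv_TL h2 hx a b)

theorem gd_pr_density {a : E n → ℝ} (ha : LH 0 a) {q : Fin p → E n → ℝ} (hq : Pots q) {x : Fr n p}
    (hx : TL L y x.1 ≠ 0) :
    gd e (fun y' => (a (TL L y' x.1) : ℂ) * dc q (lin (TL L y') x)) y =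
      gv a q (TL L y) (L e) x := by
  have h1 : ∀ l a b, ContDiffAt ℝ ∞ (fun y' => lv (q l) (lin (TL L y') x) a b) y := fun l a b =>
    (hq _).elim fun _ h => contDiffAt_lv_TL h hx a b
  have h2 : DifferentiableAt ℝ (rc fun y' => a (TL L y' x.1)) y :=
    (V2a_d ha hx).comp y ((V2a_has L y x.1).differentiableAt.restrictScalars ℝ)
  unfold dc
  rw [gd_mul h2 ((contDiffAt_mdC h1).differentiableAt (by simp)), gd_comp_TL ha hx,
    gd_mdC fun l a b => (h1 l a b).differentiableAt (by simp)]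
  refine congrArg₂ (· + ·) rfl (congrArg _ (Finset.sum_congr rfl fun i _ => ?_))
  obtain ⟨_, h2⟩ := hq i
  exact congrArg (fun M => mdC (update _ i M)) (Matrix.ext fun a b => gd_lv_TL h2 hx a b)

theorem V2a_tf (hu : LH D u) {g : (E n →L[ℂ] E n) × (E n →L[ℂ] E n) → Fr n p → ℂ}
    (h : TF (Inj2 n) g) :
    TF (Inj2 n) fun y x => gd (y.2 x.1) (gb (y.2 x.1) (rc u)) (y.1 x.1) * g y x := by
  have e : ∀ (T B : E n →L[ℂ] E n) (x : Fr n p),
      gd (B x.1) (gb (B x.1) (rc u)) (T x.1) = lv u (su T B x) 0 0 := fun _ _ _ => rfl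
  refine ⟨ContinuousOn.mul (fun w hw => ?_) h.cont, fun y hy => ⟨fun c hc x hx => ?_,
    fun M c x hx => ?_⟩⟩
  · have h2 : Continuous fun w : ((E n →L[ℂ] E n) × (E n →L[ℂ] E n)) × Fr n p =>
        su w.1.1 w.1.2 w.2 :=
      continuous_su.comp (continuous_fst.fst.prodMk (continuous_fst.snd.prodMk continuous_snd))
    have h3 : ContinuousAt (fun y : Fr n (p + 1) => lv u y 0 0) (su w.1.1 w.1.2 w.2) :=
      Tst_cgl (contDiffAt_rc (hu.contDiffAt fun h0 => hw.2 (hw.1 _ h0))) 0 0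
    simp only [e]
    exact (ContinuousAt.comp_of_eq h3 h2.continuousAt rfl).continuousWithinAt
  · rw [e, e, Tst_su_scl, hu.lv_scl hc fun h0 => hx (hy _ h0), (h.alg y hy).hs c hc x hx]
  · rw [(h.alg y hy).hc M c x hx, mul_left_comm]
    rfl

/-- The first factor `z ↦ gd (B z) (gb (B z) (rc u)) (T z)` is invariant and jointly continuous. -/
theorem tf_gw {q : Fin (p + 1) → E n → ℝ} (hq : Pots q) (j : Fin (p + 1)) :
    TF (Inj2 n) fun y (x : Fr n p) => gw q y.1 y.2 j x := by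
  obtain ⟨_, h⟩ := hq j
  have hq' : Pots fun l => q (j.succAbove l) := fun l => hq _
  have h1 : TF (Inj2 n) fun y (x : Fr n p) => dc (fun l => q (j.succAbove l)) (lin y.1 x) :=
    (tst_dc hq').tf_lin.comp continuousOn_fst fun _ hy => hy
  have h2 : TF (Inj2 n) fun y (x : Fr n p) => ∑ i, mdC (update
      (fun l => lv (q (j.succAbove l)) (lin y.1 x)) i
      (gl (fun w => conj (dq y.1 y.2 (q (j.succAbove i)) w)) x.1 x.2)) :=
    tf_sum _ fun i _ => (hq' i).elim fun _ h' => tf_gl_conj_dq h' hq' i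
  exact (V2a_tf h h1).add (h2.mul_dq h)

end Pool.Agent.Lib.MP_a47f92_an
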