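import Pool.Agent.Lib.MP_a47f92_an.G.GDef

set_option autoImplicit false

/-! Real currents of order zero, written as differences of two strongly positive currents. Both
the weakly and the strongly positive currents are of this form. -/

namespace Pool.Agent.Lib.MP_a47f92_an

open MeasureTheory Filter Topology Set Complex

variable {n p : ℕ}

/-- Pairs of measures on frames; the pair `τ` stands for the current `τ.1 - τ.2`. -/
abbrev Cu (n p : ℕ) := Measure (Fr n p) × Measure (Fr n p)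

/-- The value of `τ.1 - τ.2` on the test form `a dd^c q_1 ∧ … ∧ dd^c q_p`. -/
noncomputable def prR (τ : Cu n p) (a : E n → ℝ) (q : Fin p → E n → ℝ) : ℝ :=
  pr τ.1 a q - pr τ.2 a q

/-- `τ.1 - τ.2` is a closed real current of order zero and mass one supported in `D`. -/
structure InR (D : Set (E n)) (τ : Cu n p) : Prop where
  cur₁ : IsCur τ.1
  cur₂ : IsCur τ.2
  closed : ∀ a b, LH 0 a → LH 0 b → ∀ q, Pots q → ∀ l,
    ∫ x, mdC (Function.update (fun l' => lv (q l') x) l (gr a b x + (a x.1 : ℂ) • lv b x)) ∂τ.1 =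
    ∫ x, mdC (Function.update (fun l' => lv (q l') x) l (gr a b x + (a x.1 : ℂ) • lv b x)) ∂τ.2
  one : prR τ (fun _ => 1) (fun _ => lg) = 1
  supp : ∃ K, IsClosed K ∧ IsCone K ∧ K \ {0} ⊆ D ∧ (∀ᵐ x ∂τ.1, x.1 ∈ K) ∧ ∀ᵐ x ∂τ.2, x.1 ∈ K

/-- The Cesàro means of `d ^ (-p m) (f ^ m)_* S` converge to `τ.1 - τ.2` for every continuous
strongly positive closed current `S` of mass one supported in `D`. -/
def AttrR (d : ℕ) (F : E n → E n) (D : Set (E n)) (τ : Cu n p) : Prop :=
  ∀ S : Measure (Fr n p), InC D S → IsCont S → ∀ a, LH 0 a → ∀ q, Pots q →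
    Tendsto (fun N : ℕ => (N : ℝ)⁻¹ * ∑ m ∈ Finset.range N,
      ((d : ℝ) ^ (p * m))⁻¹ * pr (S.map (fw F^[m])) a q) atTop (𝓝 (prR τ a q))

/-- The image of `ν` in projective space is `τ ∧ T ^ p = lim τ ∧ (d ^ (-m) (f ^ m)^* ω) ^ p`. -/
structure IsEqR (d : ℕ) (F : E n → E n) (τ : Cu n p) (ν : Measure (E n)) : Prop where
  fin : IsFiniteMeasure ν
  ne : ∀ᵐ z ∂ν, z ≠ 0
  lim : ∀ a, LH 0 a →
    Tendsto (fun m => prR τ a fun _ => green d F m) atTop (𝓝 (∫ z, a z ∂ν))

end Pool.Agent.Lib.MP_a47f92_an
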