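import Pool.Agent.Lib.MP_a47f92_an.G.WRep
import Pool.Agent.Lib.MP_a47f92_an.G.GMain

set_option autoImplicit false
set_option linter.unusedSectionVars false

namespace Pool.Agent.Lib.MP_a47f92_an

open MeasureTheory Filter Topology Set Complex Metric Function
open scoped ContDiff ComplexConjugate ComplexOrder Matrix ENNReal NNReal

variable {n d s : ℕ} {F : E n → E n} {U D : Set (E n)} {τ : Cu n s}

theorem wmain (hd : 2 ≤ d) (hF : IsLift d F) (hU : Trap F U) (hD : Trap F D) (hDU : D ⊆ U)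
    (hA : ¬ ∃ S : Measure (Fr n (s + 1)), InC (⋂ m, F^[m] '' U) S) (hτ : InR D τ)
    (ha : AttrR d F D τ) : (∃ ν, IsEqR d F τ ν) ∧
      ∀ ν, IsEqR d F τ ν → IsProbabilityMeasure ν ∧ ∀ᵐ z ∂ν, Hyp F s z := by
  obtain ⟨T, hT, e⟩ := hτ.exists_rep ha hd hF hD
  have hq := fun m => (pps_gs hF (le_trans one_le_two hd) m s).pots
  have ha' : Attr d F D T := fun S h1 h2 a h3 q h4 => by
    rw [e a h3 q h4]
    exact ha S h1 h2 a h3 q h4
  obtain ⟨ν, hν⟩ := exists_isEq hF hd hT.cl1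
  refine ⟨⟨ν, hν.fin, hν.ne, fun a h => (hν.lim a h).congr fun m => e a h _ (hq m)⟩,
    fun ν' h' => gmain hd hF hU hD hDU hA hT ha'
      ⟨h'.fin, h'.ne, fun a h => (h'.lim a h).congr fun m => (e a h _ (hq m)).symm⟩⟩

end Pool.Agent.Lib.MP_a47f92_an
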