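import Pool.Agent.Lib.MP_a47f92_an.G.WDef
import Pool.Agent.Lib.MP_a47f92_an.G.A1

set_option autoImplicit false
set_option linter.unusedSectionVars false

namespace Pool.Agent.Lib.MP_a47f92_an

open MeasureTheory Filter Topology Set Complex Metric Function
open scoped ContDiff ComplexConjugate ComplexOrder Matrix ENNReal NNReal

/-! An attracting current of order zero is strongly positive. -/

variable {n p d : ℕ} {F : E n → E n} {D : Set (E n)} {τ : Cu n p}

theorem InR.p1_update (h : InR D τ) {b : E n → ℝ} (hb : LH 0 b) {q : Fin p → E n → ℝ}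
    (hq : Pots q) (l : Fin p) : p1 τ.1 (update q l b) = p1 τ.2 (update q l b) := by
  have h1 := h.closed _ b (lh_const 1) hb q hq l
  have e : ∀ x : Fr n p, mdC (update (fun l' => lv (q l') x) l
      (gr (fun _ => 1) b x + (((1 : ℝ) : ℝ) : ℂ) • lv b x)) = dc (update q l b) x := fun x => by
    have h0 : gr (fun _ : E n => (1 : ℝ)) b x = 0 := by
      ext i j
      simp only [gr, Matrix.of_apply, wd_eq_gd, gd_const, zero_mul, Matrix.zero_apply]
    rw [h0, zero_add, ofReal_one, one_smul, dc_update, lv_eq_gl]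
  simp only [e] at h1
  rw [← h.cur₁.p1_eqC (hq.update l hb), ← h.cur₂.p1_eqC (hq.update l hb)] at h1
  exact_mod_cast h1

theorem InR.coh (h : InR D τ) {q : Fin p → E n → ℝ} (hq : ∀ l, LH 1 (q l)) :
    p1 τ.1 q - p1 τ.2 q = 1 := by
  have hq' : Pots q := fun l => ⟨1, hq l⟩
  have h1 := h.cur₁.pr_telescope (bm_const 1) pots_lg hq'
  have h2 := h.cur₂.pr_telescope (bm_const 1) pots_lg hq'
  have h3 : ∀ l, p1 τ.1 (update (mxq (fun _ => lg) q l) l fun z => q l z - lg z) =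
      p1 τ.2 (update (mxq (fun _ => lg) q l) l fun z => q l z - lg z) := fun l =>
    h.p1_update (by simpa using (hq l).sub lh_lg)
      (mxq_forall (P := fun _ u => ∃ D, LH D u) pots_lg hq' l) l
  have h4 := h.one
  simp only [p1] at h3 ⊢
  simp only [h3] at h1
  simp only [prR] at h4
  linarith

theorem InR.exists_inC (h : InR D τ) (hd : 2 ≤ d) (hF : IsLift d F) (hD : Trap F D) :
    ∃ S : Measure (Fr n p), InC (⋂ m, F^[m] '' D) S := by
  by_contra hA
  have hd1 : 1 ≤ d := le_trans one_le_two hd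
  obtain ⟨κ⟩ : Nonempty (KM n) := exists_kn _ _
  obtain ⟨K, k1, k2, k3, k4, -⟩ := h.supp
  have hK : CC K := ⟨k1, k2⟩
  obtain ⟨ρ, hρ, hρD⟩ := exists_nb_subset k1 k2 hD.op hD.cone k3
  set r := min (ρ / 2) (1 / 2) with hr
  have r0 : 0 < r := lt_min (by linarith) (by norm_num)
  have r1 : r ≤ 1 / 2 := min_le_right _ _
  have r2 : 2 * r ≤ ρ := by linarith [min_le_left (ρ / 2) (1 / 2)]
  obtain ⟨η, e1, e2, e3⟩ := A_zp hd hF hD hA (hK.nb (2 * r))
    ((diff_subset_diff_left (nb_mono r2 Subset.rfl)).trans hρD)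
  obtain ⟨C, hC⟩ := ub_Sm κ p r0 r1
  have hon : On τ.1 K := k4.mono fun x hx _ => hx
  have key : ∀ j, 1 ≤ (C : ℝ) * mass τ.1 * η j := fun j => by
    have hq := pps_gs hF hd1 j p
    obtain ⟨i1, f1⟩ := h.cur₁.pr_Sm κ r0.le r1 (lh_const 1) hq.pots
    obtain ⟨i2, f2⟩ := h.cur₂.pr_Sm κ r0.le r1 (lh_const 1) hq.pots
    have g1 : p1 (Sm κ r τ.1) (gs d F j p) - p1 (Sm κ r τ.2) (gs d F j p) = 1 := by
      simp only [p1]
      rw [f1, f2, ← integral_sub i1 i2, integral_congr_ae (g := fun _ => 1)]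
      · simp
      filter_upwards [kmu_ae κ] with A hA'
      have hT : Tm r A ∈ Inj n := Tm_inj (by
        rw [Complex.norm_real, Real.norm_of_nonneg r0.le]
        nlinarith [norm_nonneg A])
      rw [h.cur₁.pr_map_lin hT measurable_const hq.pots,
        h.cur₂.pr_map_lin hT measurable_const hq.pots]
      exact h.coh fun l => by
        simpa using (pl_green hF hd1 j).lh.comp (isLift_clm hT)
    have g2 := (h.cur₂.toSm κ r0.le r1).p1_nonneg hq
    have g3 := hC τ.1 K _ h.cur₁ hK hon (pt_dn hq)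
    rw [(h.cur₁.toSm κ r0.le r1).lp_dn hq] at g3
    have g4 := g3.trans (mul_le_mul_right (e3 j) _)
    rw [← ENNReal.ofReal_coe_nnreal, ← ENNReal.ofReal_mul C.coe_nonneg,
      ← ENNReal.ofReal_mul (mul_nonneg C.coe_nonneg h.cur₁.mass_nonneg),
      ENNReal.ofReal_le_ofReal_iff
        (mul_nonneg (mul_nonneg C.coe_nonneg h.cur₁.mass_nonneg) (e2 j))] at g4
    linarith
  have h5 := ge_of_tendsto' (e1.const_mul ((C : ℝ) * mass τ.1)) key
  norm_num at h5

theorem InR.exists_rep (h : InR D τ) (ha : AttrR d F D τ) (hd : 2 ≤ d) (hF : IsLift d F)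
    (hD : Trap F D) : ∃ T : Measure (Fr n p), InC D T ∧
      ∀ a, LH 0 a → ∀ q, Pots q → pr T a q = prR τ a q := by
  have hd1 : 1 ≤ d := le_trans one_le_two hd
  obtain ⟨S, hS⟩ := h.exists_inC hd hF hD
  obtain ⟨K, hK, k3, hon⟩ := hS.exists_on
  have k4 : K \ {0} ⊆ D := fun z hz => by simpa using mem_iInter.1 (k3 hz) 0
  obtain ⟨κ⟩ : Nonempty (KM n) := exists_kn _ _
  obtain ⟨ρ, hρ, hρD⟩ := exists_nb_subset hK.1 hK.2 hD.op hD.cone k4
  set r := min (ρ / 2) (1 / 2) with hr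
  have r0 : 0 < r := lt_min (by linarith) (by norm_num)
  have r1 : r ≤ 1 / 2 := min_le_right _ _
  have r2 : 2 * r ≤ ρ := by linarith [min_le_left (ρ / 2) (1 / 2)]
  have hsub : nb (2 * r) K \ {0} ⊆ D := (diff_subset_diff_left (nb_mono r2 Subset.rfl)).trans hρD
  have c1 := hS.cl1.toSm κ r0.le r1
  have c2 := hon.toSm hS.cur.sf hK κ r0.le r1
  have c3 := isCont_Sm κ r0 r1 hS.cur
  obtain ⟨K₁, d1, z1, s1, i1, m1⟩ := hD.exists_cc hF hd1
  have d2 : CC (nb (2 * r) K ∪ K₁) :=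
    ⟨(hK.nb _).1.union d1.1, fun c hc z hz => hz.imp ((hK.nb _).2 c hc z) (d1.2 c hc z)⟩
  have hl : ∀ j, Cl1 (lam d p F j (Sm κ r S)) := fun j => c1.toLam hF hd1 j
  have hc : ∀ N, IsCur (ces d p F N (Sm κ r S)) := fun N => c1.cur.toCes hF hd1 p N
  have hm : ∀ N, mass (ces d p F N (Sm κ r S)) ≤ 1 := fun N => by
    have h1 : ∀ j, pr (lam d p F j (Sm κ r S)) (fun _ => 1) (fun _ => lg) = 1 := fun j =>
      (hl j).mass
    rw [mass, p1, c1.cur.pr_ces hF hd1 p N (bm_const 1) pots_lg]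
    simp only [h1, Finset.sum_const, Finset.card_range, nsmul_eq_mul, mul_one]
    exact inv_mul_le_one
  obtain ⟨T, hT, hlim⟩ := exists_lim (Ultrafilter.of (atTop : Filter ℕ)) hc hm
  have e1 : ∀ a, LH 0 a → ∀ q, Pots q → pr T a q = prR τ a q := fun a ha' q hq => by
    refine tendsto_nhds_unique (hlim.toPr hc hT ha' hq) ?_
    refine Tendsto.mono_left ?_ (Ultrafilter.of_le _)
    refine (ha _ (c1.inC (hK.nb _) hsub c2) (c1.cur.eqv_cln.isCont c3) a ha' q hq).congr fun N => ?_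
    rw [c1.cur.pr_ces hF hd1 p N ha'.bm hq]
    congr 1
    refine Finset.sum_congr rfl fun m _ => ?_
    rw [← pr_lam_eq]
    exact c1.cur.eqv_cln.toLam c1.cur.toCln c1.cur hF hd1 p m a ha' q hq
  have e2 : Closed T := hlim.toClosed fun N =>
    (closed_finsum _ (fun j _ => (hl j).cur) fun j _ => (hl j).closed).smul _
  have e3 : On T (nb (2 * r) K ∪ K₁) := hlim.toOn hc hT d2 <| Eventually.of_forall fun N => by
    refine (on_finsum _ fun j _ => c2.toLam hF hd1 p j d2.meas fun z hz => ?_).smul _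
    rcases j with _ | j
    · exact Or.inl hz
    · rw [iterate_succ_apply]
      refine Or.inr (m1.iterate j (A_mapsTo hD hF z1 i1 hd1 ?_))
      by_cases h0 : z = 0
      · exact Or.inl h0
      · exact Or.inr (hsub ⟨hz, h0⟩)
  have e4 : Cl1 T := ⟨hT, e2, (e1 _ (lh_const 1) _ pots_lg).trans h.one⟩
  refine ⟨clr T, e4.inC d2 ?_ e3, fun a ha' q hq => (hT.eqv_cln a ha' q hq).trans (e1 a ha' q hq)⟩
  rintro z ⟨hz | hz, h0⟩
  · exact hsub ⟨hz, h0⟩
  · exact s1 ⟨hz, h0⟩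

end Pool.Agent.Lib.MP_a47f92_an
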